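import Pool.Agent.Helper192_HP.Defs

/-!
Basic calculus of walk expectations.
-/

namespace HP192

open Finset

section Tip
variable {V : Type}

@[simp] theorem tip_nil (x : V) : tip x ([] : List V) = x := rfl
@[simp] theorem tip_cons (x y : V) (w : List V) : tip x (y :: w) = y := rfl
@[simp] theorem tip_append_singleton (x y : V) (w : List V) :
    tip x (w ++ [y]) = tip y w := by
  cases w <;> rfl

theorem tip_append (x : V) (w w' : List V) : tip x (w' ++ w) = tip (tip x w) w' := by
  cases w' <;> simp [tip]

end Tip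

namespace Ker
variable {V : Type} [Fintype V] [DecidableEq V] (K : Ker V)
variable {E : Type} [AddCommMonoid E] [Module ℝ E]

theorem EW_zero (x : V) (F : List V → E) : K.EW 0 x F = F [] := rfl

theorem EW_succ (t : ℕ) (x : V) (F : List V → E) :
    K.EW (t + 1) x F = ∑ y, K.P x y • K.EW t y (fun w => F (w ++ [y])) := rfl

theorem EW_congr (t : ℕ) (x : V) (F F' : List V → E)
    (h : ∀ w : List V, w.length = t → F w = F' w) : K.EW t x F = K.EW t x F' := by
  induction t generalizing x F F' with
  | zero => exact h [] rfl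
  | succ t ih =>
    rw [EW_succ, EW_succ]
    refine Finset.sum_congr rfl (fun y _ => ?_)
    rw [ih y (fun w => F (w ++ [y])) (fun w => F' (w ++ [y]))]
    intro w hw
    exact h _ (by simp [hw])

theorem EW_const (t : ℕ) (x : V) (c : E) : K.EW t x (fun _ => c) = c := by
  induction t generalizing x with
  | zero => rfl
  | succ t ih =>
    rw [EW_succ]
    simp only [ih]
    rw [← Finset.sum_smul, K.row, one_smul]

theorem EW_add (t : ℕ) (x : V) (F F' : List V → E) :
    K.EW t x (fun w => F w + F' w) = K.EW t x F + K.EW t x F' := by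
  induction t generalizing x F F' with
  | zero => rfl
  | succ t ih =>
    rw [EW_succ, EW_succ, EW_succ, ← Finset.sum_add_distrib]
    refine Finset.sum_congr rfl (fun y _ => ?_)
    rw [ih, smul_add]

theorem EW_zero_fun (t : ℕ) (x : V) : K.EW t x (fun _ => (0 : E)) = 0 := K.EW_const t x 0

theorem EW_sum {ι : Type*} (s : Finset ι) (t : ℕ) (x : V) (F : ι → List V → E) :
    K.EW t x (fun w => ∑ i ∈ s, F i w) = ∑ i ∈ s, K.EW t x (F i) := by
  classical
  induction s using Finset.induction_on with
  | empty => simp [EW_zero_fun]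
  | insert a s ha ih =>
    simp only [Finset.sum_insert ha]
    rw [EW_add, ih]

theorem EW_smul (t : ℕ) (x : V) (c : ℝ) (F : List V → E) :
    K.EW t x (fun w => c • F w) = c • K.EW t x F := by
  induction t generalizing x F with
  | zero => rfl
  | succ t ih =>
    rw [EW_succ, EW_succ, Finset.smul_sum]
    refine Finset.sum_congr rfl (fun y _ => ?_)
    rw [ih, smul_comm]

theorem EW_mul_left (t : ℕ) (x : V) (c : ℝ) (F : List V → ℝ) :
    K.EW t x (fun w => c * F w) = c * K.EW t x F := K.EW_smul t x c F

theorem EW_mul_right (t : ℕ) (x : V) (c : ℝ) (F : List V → ℝ) :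
    K.EW t x (fun w => F w * c) = K.EW t x F * c := by
  rw [mul_comm, ← EW_mul_left]
  congr 1
  funext w
  ring

theorem EW_sub (t : ℕ) (x : V) (F F' : List V → ℝ) :
    K.EW t x (fun w => F w - F' w) = K.EW t x F - K.EW t x F' := by
  have h : (fun w => F w - F' w) = fun w => F w + (-1 : ℝ) * F' w := by
    funext w; ring
  rw [h, EW_add, EW_mul_left]
  ring

theorem EW_mono (t : ℕ) (x : V) (F F' : List V → ℝ)
    (h : ∀ w : List V, w.length = t → F w ≤ F' w) : K.EW t x F ≤ K.EW t x F' := by
  induction t generalizing x F F' with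
  | zero => exact h [] rfl
  | succ t ih =>
    rw [EW_succ, EW_succ]
    refine Finset.sum_le_sum (fun y _ => ?_)
    refine mul_le_mul_of_nonneg_left ?_ (K.nn x y)
    refine ih y _ _ ?_
    intro w hw
    exact h _ (by simp [hw])

theorem EW_nonneg (t : ℕ) (x : V) (F : List V → ℝ)
    (h : ∀ w : List V, w.length = t → 0 ≤ F w) : 0 ≤ K.EW t x F := by
  have := K.EW_mono t x (fun _ => 0) F h
  rwa [EW_const] at this

theorem EW_le_const (t : ℕ) (x : V) (F : List V → ℝ) (c : ℝ)
    (h : ∀ w : List V, w.length = t → F w ≤ c) : K.EW t x F ≤ c := by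
  have := K.EW_mono t x F (fun _ => c) h
  rwa [EW_const] at this

/-- Markov property: first `s` steps, then `t` steps -/
theorem EW_append (s t : ℕ) (x : V) (F : List V → E) :
    K.EW (s + t) x F
      = K.EW s x (fun w => K.EW t (tip x w) (fun w' => F (w' ++ w))) := by
  induction s generalizing x F with
  | zero => simp [EW_zero]
  | succ s ih =>
    rw [Nat.succ_add_eq_add_succ s t, Nat.add_succ, EW_succ, EW_succ]
    refine Finset.sum_congr rfl (fun y _ => ?_)
    rw [ih]
    congr 2
    funext w
    simp only [tip_append_singleton, List.append_assoc]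

theorem EW_one (x : V) (F : List V → E) : K.EW 1 x F = ∑ y, K.P x y • F [y] := by
  rw [EW_succ]
  simp [EW_zero]

/-- recursion at the newest step -/
theorem EW_succ' (t : ℕ) (x : V) (F : List V → E) :
    K.EW (t + 1) x F = K.EW t x (fun w => ∑ y, K.P (tip x w) y • F (y :: w)) := by
  rw [EW_append]
  refine congrArg _ (funext fun w => ?_)
  exact K.EW_one _ _

/-- invariance under the symmetries of the kernel -/
theorem EW_auto (g : Equiv.Perm V) (hg : ∀ a b, K.P (g a) (g b) = K.P a b)
    (t : ℕ) (x : V) (F : List V → E) :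
    K.EW t (g x) F = K.EW t x (fun w => F (w.map g)) := by
  induction t generalizing x F with
  | zero => simp [EW_zero]
  | succ t ih =>
    rw [EW_succ, EW_succ]
    rw [← Equiv.sum_comp g]
    refine Finset.sum_congr rfl (fun y _ => ?_)
    rw [hg, ih]
    simp

theorem EW_inv_aux (F : List V → E)
    (hF : ∀ g : Equiv.Perm V, (∀ a b, K.P (g a) (g b) = K.P a b) →
      ∀ L : List V, F (L.map g) = F L) (t : ℕ) (x y : V) :
    K.EW t x F = K.EW t y F := by
  obtain ⟨g, hg, hK⟩ := K.tr x y
  rw [← hg, K.EW_auto g hK]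
  simp only [hF g hK]

theorem EW_inv (F : List V → E)
    (hF : ∀ g : Equiv.Perm V, (∀ a b, K.P (g a) (g b) = K.P a b) →
      ∀ L : List V, F (L.map g) = F L) (t : ℕ) (x y : V) :
    K.EW t x (fun w => F (w ++ [x])) = K.EW t y (fun w => F (w ++ [y])) := by
  obtain ⟨g, hg, hK⟩ := K.tr x y
  rw [← hg, K.EW_auto g hK]
  congr 1
  funext w
  have := hF g hK (w ++ [x])
  rw [← this]
  simp

/-- reversal of the walk, summed over the starting point -/
theorem EW_rev (t : ℕ) (F : List V → E) :
    ∑ x, K.EW t x (fun w => F (w ++ [x]))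
      = ∑ x, K.EW t x (fun w => F ((w ++ [x]).reverse)) := by
  induction t generalizing F with
  | zero => simp [EW_zero]
  | succ t ih =>
    have h1 : ∑ x, K.EW (t + 1) x (fun w => F (w ++ [x]))
        = ∑ y, K.EW t y (fun w => (fun L : List V =>
            ∑ x, K.P (L.getLastD x) x • F (L ++ [x])) (w ++ [y])) := by
      simp only [EW_succ]
      rw [Finset.sum_comm]
      refine Finset.sum_congr rfl (fun y _ => ?_)
      rw [EW_sum]
      refine Finset.sum_congr rfl (fun x _ => ?_)
      rw [← EW_smul]
      congr 1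
      funext w
      rw [K.sym x y]
      congr 2
      simp
    rw [h1]
    refine (ih (fun L : List V =>
            ∑ x, K.P (L.getLastD x) x • F (L ++ [x]))).trans ?_
    refine Finset.sum_congr rfl (fun y _ => ?_)
    rw [EW_succ']
    congr 1
    funext w
    refine Finset.sum_congr rfl (fun x _ => ?_)
    have h2 : ((w ++ [y]).reverse).getLastD x = tip y w := by
      cases w with
      | nil => simp
      | cons a w => simp [tip, List.getLastD]
    rw [h2]
    congr 2
    simp

/-- reversal for functionals invariant under symmetries -/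
theorem EW_rev_inv (F : List V → ℝ)
    (hF : ∀ g : Equiv.Perm V, (∀ a b, K.P (g a) (g b) = K.P a b) →
      ∀ L : List V, F (L.map g) = F L) (t : ℕ) (o : V) :
    K.EW t o (fun w => F (w ++ [o])) = K.EW t o (fun w => F ((w ++ [o]).reverse)) := by
  have h := K.EW_rev t F
  have h1 : ∀ x, K.EW t x (fun w => F (w ++ [x])) = K.EW t o (fun w => F (w ++ [o])) :=
    fun x => K.EW_inv F hF t x o
  have h2 : ∀ x, K.EW t x (fun w => F ((w ++ [x]).reverse))
      = K.EW t o (fun w => F ((w ++ [o]).reverse)) := by
    intro x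
    refine K.EW_inv (fun L => F L.reverse) ?_ t x o
    intro g hg L
    rw [← List.map_reverse, hF g hg]
  simp only [h1, h2, Finset.sum_const, nsmul_eq_mul] at h
  have hc : (0 : ℝ) < ((Finset.univ : Finset V).card : ℝ) := by
    have : (Finset.univ : Finset V).Nonempty := ⟨o, Finset.mem_univ o⟩
    exact_mod_cast this.card_pos
  exact mul_left_cancel₀ hc.ne' h

/-- law of the endpoint -/
theorem EW_tip (t : ℕ) (x : V) (F : V → E) :
    K.EW t x (fun w => F (tip x w)) = ∑ y, K.hk t x y • F y := by
  induction t generalizing x with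
  | zero => simp [EW_zero, hk]
  | succ t ih =>
    rw [EW_succ]
    simp only [tip_append_singleton, hk]
    simp only [ih, Finset.smul_sum, Finset.sum_smul, smul_smul]
    rw [Finset.sum_comm]

theorem hk_eq_EW (t : ℕ) (x y : V) :
    K.EW t x (fun w => if tip x w = y then (1 : ℝ) else 0) = K.hk t x y := by
  have := K.EW_tip t x (fun z => if z = y then (1 : ℝ) else 0)
  rw [this]
  simp

theorem abs_EW_le (t : ℕ) (x : V) (F : List V → ℝ) :
    |K.EW t x F| ≤ K.EW t x (fun w => |F w|) := by
  rw [abs_le]
  constructor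
  · have h := K.EW_mono t x (fun w => (-1 : ℝ) * |F w|) F
      (fun w _ => by have := neg_abs_le (F w); linarith)
    rw [EW_mul_left] at h
    linarith
  · exact K.EW_mono t x F (fun w => |F w|) (fun w _ => le_abs_self _)

theorem norm_EW_le (t : ℕ) (x : V) (F : List V → ℂ) :
    ‖K.EW t x F‖ ≤ K.EW t x (fun w => ‖F w‖) := by
  induction t generalizing x F with
  | zero => exact le_refl _
  | succ t ih =>
    rw [EW_succ, EW_succ]
    refine (norm_sum_le _ _).trans ?_
    refine Finset.sum_le_sum (fun y _ => ?_)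
    rw [norm_smul, Real.norm_of_nonneg (K.nn x y), smul_eq_mul]
    exact mul_le_mul_of_nonneg_left (ih y _) (K.nn x y)

/-- Cauchy-Schwarz -/
theorem EW_sq_le (t : ℕ) (x : V) (F G : List V → ℝ) :
    (K.EW t x (fun w => F w * G w)) ^ 2
      ≤ K.EW t x (fun w => F w ^ 2) * K.EW t x (fun w => G w ^ 2) := by
  have key : ∀ a : ℝ, 0 ≤ K.EW t x (fun w => F w ^ 2)
      - 2 * a * K.EW t x (fun w => F w * G w) + a ^ 2 * K.EW t x (fun w => G w ^ 2) := by
    intro a
    have h := K.EW_nonneg t x (fun w => (F w - a * G w) ^ 2) (fun w _ => sq_nonneg _)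
    have e : (fun w => (F w - a * G w) ^ 2)
        = fun w => (F w ^ 2 - (2 * a) * (F w * G w)) + a ^ 2 * (G w ^ 2) := by
      funext w; ring
    rw [e, EW_add, EW_sub, EW_mul_left, EW_mul_left] at h
    exact h
  set A := K.EW t x (fun w => F w ^ 2)
  set B := K.EW t x (fun w => F w * G w)
  set C := K.EW t x (fun w => G w ^ 2)
  have hC : 0 ≤ C := K.EW_nonneg t x _ (fun w _ => sq_nonneg _)
  rcases hC.eq_or_lt with hC0 | hC0
  · by_cases hB : B = 0
    · rw [hB, ← hC0]; simp
    · exfalso
      have h1 := key ((A + 1) / (2 * B))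
      rw [← hC0] at h1
      have : 2 * ((A + 1) / (2 * B)) * B = A + 1 := by field_simp
      nlinarith
  · have h1 := key (B / C)
    have e1 : 2 * (B / C) * B = 2 * (B ^ 2 / C) := by ring
    have e2 : (B / C) ^ 2 * C = B ^ 2 / C := by field_simp
    rw [e1, e2] at h1
    have h2 : B ^ 2 / C ≤ A := by linarith
    rwa [div_le_iff₀ hC0] at h2

theorem EW_sq_le' (t : ℕ) (x : V) (F : List V → ℝ) :
    (K.EW t x F) ^ 2 ≤ K.EW t x (fun w => F w ^ 2) := by
  have h := K.EW_sq_le t x F (fun _ => 1)
  simpa [EW_const] using h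

end Ker

end HP192
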