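import Mathlib

/-!
Definitions for the height profile project (MP_5ae64c_pr).
Paths are lists with the newest vertex first.
-/

namespace HP192

open Finset

section LEdef
variable {V : Type} [DecidableEq V]

/-- one step of chronological loop erasure, newest vertex first -/
def stp (v : V) (s : List V) : List V :=
  if v ∈ s then s.dropWhile (fun x => decide (x ≠ v)) else v :: s

/-- chronological loop erasure of a path (newest vertex first) -/
def LE : List V → List V
  | [] => []
  | v :: w => stp v (LE w)

/-- number of vertices of the loop erasure -/
def len (w : List V) : ℕ := (LE w).length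

/-- newest vertex, or `x` if no step has been made -/
def tip (x : V) (w : List V) : V := w.headD x

end LEdef

/-- a transitive symmetric lazy kernel on a finite set -/
structure Ker (V : Type) [Fintype V] [DecidableEq V] where
  P : V → V → ℝ
  nn : ∀ x y, 0 ≤ P x y
  row : ∀ x, ∑ y, P x y = 1
  sym : ∀ x y, P x y = P y x
  hold : ∀ x, P x x = 1 / 2
  tr : ∀ x y, ∃ g : Equiv.Perm V, g x = y ∧ ∀ a b, P (g a) (g b) = P a b

namespace Ker
variable {V : Type} [Fintype V] [DecidableEq V] (K : Ker V)

/-- `t`-step transition probabilities -/
def hk : ℕ → V → V → ℝ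
  | 0, x, y => if x = y then 1 else 0
  | t + 1, x, y => ∑ z, K.P x z * hk t z y

/-- expectation of `F (X_t, ..., X_1)` for the walk `X` started at `x` -/
def EW {E : Type} [AddCommMonoid E] [Module ℝ E] : ℕ → V → (List V → E) → E
  | 0, _, F => F []
  | t + 1, x, F => ∑ y, K.P x y • EW t y (fun w => F (w ++ [y]))

end Ker

end HP192
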