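import Mathlib
import Pool.Agent.Helper192_HP.Defs

namespace HP192
open Finset

-- TARGET
section LEapi
variable {V : Type} [DecidableEq V]

theorem aux_stp_app (v : V) (A B : List V) (h : v ∉ A) : stp v (A ++ v :: B) = v :: B := by
  unfold stp
  rw [if_pos (by simp)]
  induction A with
  | nil => simp
  | cons a A ih =>
    have h1 : a ≠ v := fun e => h (by simp [e])
    have h2 : v ∉ A := fun e => h (by simp [e])
    rw [List.cons_append, List.dropWhile_cons_of_pos (by simpa using h1)]
    exact ih h2

theorem aux_stp_not (v : V) (s : List V) (h : v ∉ s) : stp v s = v :: s := by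
  unfold stp
  rw [if_neg h]

theorem aux_stp_append (v : V) (s t : List V) (h : v ∉ t) : stp v (s ++ t) = stp v s ++ t := by
  by_cases hs : v ∈ s
  · obtain ⟨A, B, rfl, hA⟩ := List.eq_append_cons_of_mem hs
    rw [aux_stp_app v A B hA, List.append_assoc, List.cons_append, aux_stp_app v A _ hA]
  · rw [aux_stp_not v s hs, aux_stp_not v (s ++ t) (by simp [hs, h]), List.cons_append]

theorem aux_stp_cases (v : V) (s : List V) : (v ∉ s ∧ stp v s = v :: s) ∨
    ∃ A B, s = A ++ v :: B ∧ v ∉ A ∧ stp v s = v :: B := by
  by_cases hs : v ∈ s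
  · obtain ⟨A, B, rfl, hA⟩ := List.eq_append_cons_of_mem hs
    exact Or.inr ⟨A, B, rfl, hA, aux_stp_app v A B hA⟩
  · exact Or.inl ⟨hs, aux_stp_not v s hs⟩

theorem LE_sub (w : List V) (v : V) (h : v ∈ LE w) : v ∈ w := by
  induction w with
  | nil => simpa [LE] using h
  | cons a w ih =>
    rw [LE] at h
    rcases aux_stp_cases a (LE w) with ⟨_, h2⟩ | ⟨A, B, h1, _, h2⟩
    · rw [h2] at h
      rcases List.mem_cons.1 h with h | h
      · simp [h]
      · exact List.mem_cons_of_mem _ (ih h)
    · rw [h2] at h
      rcases List.mem_cons.1 h with h | h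
      · simp [h]
      · refine List.mem_cons_of_mem _ (ih ?_)
        rw [h1]
        simp [h]

/-- the newest vertex is the head of the loop erasure -/
theorem LE_cons (v : V) (w : List V) : ∃ s, LE (v :: w) = v :: s := by
  rw [LE]
  rcases aux_stp_cases v (LE w) with ⟨_, h2⟩ | ⟨A, B, h1, _, h2⟩
  · exact ⟨_, h2⟩
  · exact ⟨_, h2⟩

/-- the oldest vertex is the last vertex of the loop erasure -/
theorem LE_concat (w : List V) (x : V) : ∃ s, LE (w ++ [x]) = s ++ [x] := by
  induction w with
  | nil => exact ⟨[], by simp [LE, stp]⟩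
  | cons v w ih =>
    obtain ⟨s, hs⟩ := ih
    rw [List.cons_append, LE, hs]
    by_cases h : v = x
    · subst h
      by_cases h2 : v ∈ s
      · obtain ⟨A, B, rfl, hA⟩ := List.eq_append_cons_of_mem h2
        refine ⟨v :: B, ?_⟩
        rw [List.append_assoc, List.cons_append, aux_stp_app v A _ hA]
      · refine ⟨[], ?_⟩
        rw [aux_stp_app v s [] h2, List.nil_append]
    · exact ⟨stp v s, aux_stp_append v s [x] (by simpa using h)⟩

theorem LE_nodup (w : List V) : (LE w).Nodup := by
  induction w with
  | nil => simp [LE]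
  | cons v w ih =>
    rw [LE]
    rcases aux_stp_cases v (LE w) with ⟨h1, h2⟩ | ⟨A, B, h1, _, h2⟩
    · rw [h2]
      exact List.nodup_cons.2 ⟨h1, ih⟩
    · rw [h2]
      rw [h1] at ih
      exact (List.nodup_append.1 ih).2.1

theorem LE_map (g : V → V) (hg : Function.Injective g) (w : List V) :
    LE (w.map g) = (LE w).map g := by
  induction w with
  | nil => simp [LE]
  | cons v w ih =>
    rw [List.map_cons, LE, LE, ih]
    rcases aux_stp_cases v (LE w) with ⟨h1, h2⟩ | ⟨A, B, h1, h3, h2⟩
    · rw [h2, List.map_cons]
      apply aux_stp_not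
      intro h
      rw [List.mem_map] at h
      obtain ⟨a, ha, hb⟩ := h
      rw [hg hb] at ha
      exact h1 ha
    · rw [h2, h1, List.map_append, List.map_cons]
      apply aux_stp_app
      intro h
      rw [List.mem_map] at h
      obtain ⟨a, ha, hb⟩ := h
      rw [hg hb] at ha
      exact h3 ha

theorem len_map (g : V → V) (hg : Function.Injective g) (w : List V) :
    len (w.map g) = len w := by
  unfold len
  rw [LE_map g hg, List.length_map]

theorem LE_append (A B : List V) (h : ∀ a ∈ A, a ∉ LE B) : LE (A ++ B) = LE A ++ LE B := by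
  induction A with
  | nil => simp [LE]
  | cons a A ih =>
    rw [List.cons_append, LE, LE, ih (fun b hb => h b (List.mem_cons_of_mem _ hb))]
    exact aux_stp_append a _ _ (h a (by simp))

theorem len_append (A B : List V) (h : ∀ a ∈ A, a ∉ LE B) : len (A ++ B) = len A + len B := by
  unfold len
  rw [LE_append A B h, List.length_append]

theorem len_cons_le (v : V) (w : List V) : len (v :: w) ≤ len w + 1 := by
  unfold len
  rw [LE]
  rcases aux_stp_cases v (LE w) with ⟨_, h2⟩ | ⟨A, B, h1, _, h2⟩
  · rw [h2]; simp
  · rw [h2, h1]; simp; omega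

theorem len_le_length (w : List V) : len w ≤ w.length := by
  induction w with
  | nil => simp [len, LE]
  | cons v w ih =>
    have := len_cons_le v w
    rw [List.length_cons]
    omega

theorem len_pos (w : List V) (h : w ≠ []) : 0 < len w := by
  cases w with
  | nil => exact absurd rfl h
  | cons v w =>
    obtain ⟨s, hs⟩ := LE_cons v w
    unfold len
    rw [hs]
    simp

/-- last visit to a vertex of the loop erasure -/
theorem LE_split (L : List V) (v : V) (hv : v ∈ LE L) :
    ∃ A B β, L = A ++ v :: B ∧ v ∉ A ∧ LE (v :: B) = v :: β ∧ (∀ a ∈ A, a ∉ v :: β) ∧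
      LE L = LE A ++ v :: β := by
  induction L with
  | nil => simp [LE] at hv
  | cons x L ih =>
    by_cases hx : x = v
    · subst hx
      obtain ⟨s, hs⟩ := LE_cons x L
      exact ⟨[], L, s, rfl, by simp, hs, by simp, by simpa [LE] using hs⟩
    · have hv0 := hv
      rw [LE] at hv
      have hvL : v ∈ LE L := by
        rcases aux_stp_cases x (LE L) with ⟨_, h2⟩ | ⟨A, B, h1, _, h2⟩
        · rw [h2] at hv
          rcases List.mem_cons.1 hv with h | h
          · exact absurd h.symm hx
          · exact h
        · rw [h2] at hv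
          rw [h1]
          rcases List.mem_cons.1 hv with h | h
          · exact absurd h.symm hx
          · simp [h]
      obtain ⟨A, B, β, h1, h2, h3, h4, h5⟩ := ih hvL
      have hxβ : x ∉ v :: β := by
        intro hxm
        have hxm2 : x ∈ β := by
          rcases List.mem_cons.1 hxm with h | h
          · exact absurd h hx
          · exact h
        obtain ⟨β1, β2, e, hβ1⟩ := List.eq_append_cons_of_mem hxm2
        have hnd := LE_nodup L
        rw [h5, e] at hnd
        have hxA : x ∉ LE A := by
          intro h
          have := (List.nodup_append.1 hnd).2.2 x h x (by simp)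
          exact this rfl
        have e2 : LE L = (LE A ++ v :: β1) ++ x :: β2 := by
          rw [h5, e]; simp
        have hx3 : x ∉ LE A ++ v :: β1 := by
          simp only [List.mem_append, List.mem_cons, not_or]
          exact ⟨hxA, hx, hβ1⟩
        rw [e2, aux_stp_app x _ _ hx3] at hv
        have hnd2 : ((LE A ++ v :: β1) ++ x :: β2).Nodup := by
          rw [← e2]; exact LE_nodup L
        exact (List.nodup_append.1 hnd2).2.2 v (by simp) v hv rfl
      refine ⟨x :: A, B, β, by rw [h1, List.cons_append], ?_, h3, ?_, ?_⟩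
      · intro h
        rcases List.mem_cons.1 h with h | h
        · exact hx h.symm
        · exact h2 h
      · intro a ha
        rcases List.mem_cons.1 ha with h | h
        · rw [h]; exact hxβ
        · exact h4 a h
      · rw [LE, h5, LE]
        exact aux_stp_append x _ _ hxβ

/-- the path `w` walked after the past `ω`: `v` is the deepest vertex of `LE ω` visited by `w` (or
the tip of `ω`), at its last visit -/
theorem LE_over (w ω : List V) (hω : ω ≠ []) :
    ∃ A C v γ β, w = A ++ C ∧ (C ++ ω).head? = some v ∧ LE ω = γ ++ v :: β ∧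
      (∀ a ∈ A, a ∉ v :: β) ∧ LE (w ++ ω) = LE A ++ v :: β := by
  induction w with
  | nil =>
    cases ω with
    | nil => exact absurd rfl hω
    | cons v ω =>
      obtain ⟨s, hs⟩ := LE_cons v ω
      exact ⟨[], [], v, [], s, rfl, rfl, by simpa using hs, by simp, by simpa [LE] using hs⟩
  | cons y w ih =>
    obtain ⟨A, C, v, γ, β, h1, h2, h3, h4, h5⟩ := ih
    by_cases hy : y ∈ v :: β
    · obtain ⟨β1, β2, e, hβ1⟩ := List.eq_append_cons_of_mem hy
      have hyA : y ∉ LE A := fun h => h4 y (LE_sub A y h) hy
      refine ⟨[], y :: w, y, γ ++ β1, β2, rfl, rfl, ?_, by simp, ?_⟩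
      · rw [h3, e, List.append_assoc]
      · show stp y (LE (w ++ ω)) = y :: β2
        rw [h5, e, ← List.append_assoc, aux_stp_app y _ _ (by simp [hyA, hβ1])]
    · refine ⟨y :: A, C, v, γ, β, by rw [h1, List.cons_append], h2, h3, ?_, ?_⟩
      · intro a ha
        rcases List.mem_cons.1 ha with h | h
        · rw [h]; exact hy
        · exact h4 a h
      · rw [List.cons_append, LE, h5, LE]
        exact aux_stp_append y _ _ hy

end LEapi

end HP192
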