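import Mathlib
import Pool.Agent.Helper192_HP.Defs
import Pool.Agent.Helper192_HP.Basic

namespace HP192
open Finset

-- TARGET
namespace Ker
variable {V : Type} [Fintype V] [DecidableEq V] (K : Ker V)

theorem hk_nonneg (t : ℕ) (x y : V) : 0 ≤ K.hk t x y := by
  induction t generalizing x with
  | zero =>
    simp only [hk]
    split_ifs <;> norm_num
  | succ t ih =>
    simp only [hk]
    exact Finset.sum_nonneg fun z _ => mul_nonneg (K.nn _ _) (ih z)

theorem hk_row (t : ℕ) (x : V) : ∑ y, K.hk t x y = 1 := by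
  induction t generalizing x with
  | zero => simp [hk]
  | succ t ih =>
    simp only [hk]
    rw [Finset.sum_comm]
    simp_rw [← Finset.mul_sum, ih, mul_one]
    exact K.row x

theorem hk_add_aux (s t : ℕ) (x y : V) : K.hk (s + t) x y = ∑ z, K.hk s x z * K.hk t z y := by
  induction s generalizing x with
  | zero => simp [hk]
  | succ s ih =>
    have e : s + 1 + t = (s + t) + 1 := by omega
    rw [e]
    simp only [hk]
    simp_rw [ih, Finset.sum_mul, Finset.mul_sum]
    rw [Finset.sum_comm]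
    refine Finset.sum_congr rfl fun z _ => Finset.sum_congr rfl fun w _ => ?_
    ring

theorem hk_one_aux (x y : V) : K.hk 1 x y = K.P x y := by
  simp [hk]

theorem hk_symm (t : ℕ) (x y : V) : K.hk t x y = K.hk t y x := by
  induction t generalizing x y with
  | zero =>
    simp only [hk]
    by_cases h : x = y
    · simp [h]
    · rw [if_neg h, if_neg (fun h' => h h'.symm)]
  | succ t ih =>
    rw [K.hk_add_aux t 1 y x]
    simp only [hk_one_aux]
    simp only [hk]
    refine Finset.sum_congr rfl fun z _ => ?_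
    rw [ih z y, K.sym x z]
    ring

theorem hk_add (s t : ℕ) (x y : V) : K.hk (s + t) x y = ∑ z, K.hk s x z * K.hk t z y :=
  K.hk_add_aux s t x y

theorem hk_auto (g : Equiv.Perm V) (hg : ∀ a b, K.P (g a) (g b) = K.P a b) (t : ℕ) (x y : V) :
    K.hk t (g x) (g y) = K.hk t x y := by
  induction t generalizing x with
  | zero => simp [hk]
  | succ t ih =>
    simp only [hk]
    rw [← Equiv.sum_comp g]
    refine Finset.sum_congr rfl fun z _ => ?_
    rw [hg, ih]

theorem hk_diag (t : ℕ) (x y : V) : K.hk t x x = K.hk t y y := by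
  obtain ⟨g, hgx, hg⟩ := K.tr x y
  rw [← hgx, K.hk_auto g hg]

theorem hk_even_le (t : ℕ) (x y o : V) : K.hk (2 * t) x y ≤ K.hk (2 * t) o o := by
  have h1 : ∀ u v : V, K.hk (2 * t) u v = ∑ z, K.hk t u z * K.hk t v z := by
    intro u v
    rw [two_mul, K.hk_add]
    exact Finset.sum_congr rfl fun z _ => by rw [K.hk_symm t z v]
  have h2 : ∀ u, ∑ z, K.hk t u z ^ 2 = K.hk (2 * t) o o := by
    intro u
    rw [K.hk_diag (2 * t) o u, h1]
    exact Finset.sum_congr rfl fun z _ => by ring
  have h3 : 0 ≤ ∑ z, (K.hk t x z - K.hk t y z) ^ 2 := Finset.sum_nonneg fun z _ => sq_nonneg _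
  have h4 : ∑ z, (K.hk t x z - K.hk t y z) ^ 2
      = ∑ z, K.hk t x z ^ 2 + ∑ z, K.hk t y z ^ 2 - 2 * ∑ z, K.hk t x z * K.hk t y z := by
    rw [Finset.mul_sum, ← Finset.sum_add_distrib, ← Finset.sum_sub_distrib]
    exact Finset.sum_congr rfl fun z _ => by ring
  rw [h4, h2, h2, ← h1] at h3
  linarith

theorem hk_le_two (t : ℕ) (x y o : V) : K.hk t x y ≤ 2 * K.hk t o o := by
  rcases Nat.even_or_odd' t with ⟨s, rfl | rfl⟩
  · have h1 := K.hk_even_le s x y o
    have h2 := K.hk_nonneg (2 * s) o o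
    linarith
  · have h1 : K.hk (2 * s + 1) x y ≤ K.hk (2 * s) o o := by
      simp only [hk]
      calc ∑ z, K.P x z * K.hk (2 * s) z y ≤ ∑ z, K.P x z * K.hk (2 * s) o o :=
            Finset.sum_le_sum fun z _ => mul_le_mul_of_nonneg_left (K.hk_even_le s z y o) (K.nn _ _)
        _ = K.hk (2 * s) o o := by rw [← Finset.sum_mul, K.row, one_mul]
    have h2 : (1 / 2) * K.hk (2 * s) o o ≤ K.hk (2 * s + 1) o o := by
      simp only [hk]
      rw [← K.hold o]
      exact Finset.single_le_sum (f := fun z => K.P o z * K.hk (2 * s) z o)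
        (fun z _ => mul_nonneg (K.nn _ _) (K.hk_nonneg _ _ _)) (Finset.mem_univ o)
    linarith

theorem hk_mix (m0 : ℕ) (κ : ℝ) (h : ∀ x y, K.hk m0 x y ≤ κ) (t : ℕ) (ht : m0 ≤ t) (x y : V) :
    K.hk t x y ≤ κ := by
  induction t, ht using Nat.le_induction generalizing x with
  | base => exact h x y
  | succ t ht ih =>
    simp only [hk]
    calc ∑ z, K.P x z * K.hk t z y ≤ ∑ z, K.P x z * κ :=
          Finset.sum_le_sum fun z _ => mul_le_mul_of_nonneg_left (ih z) (K.nn _ _)
      _ = κ := by rw [← Finset.sum_mul, K.row, one_mul]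

end Ker

end HP192
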