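import Mathlib
import Pool.Agent.Helper192_HP.Defs

namespace HP192
open Finset

namespace Ker
variable {V : Type} [Fintype V] [DecidableEq V] (K : Ker V)

/-- bubble sum up to time `T` -/
def Th (o : V) (T : ℕ) : ℝ := ∑ c ∈ range (T + 1), ((c : ℝ) + 1) * K.hk c o o

/-- truncated Green function -/
def gr (T : ℕ) (x y : V) : ℝ := ∑ c ∈ range (T + 1), K.hk c x y

/-- expected number of hits of the list `w` (with multiplicity) by the walk from `x` up to time `T` -/
def hits (T : ℕ) (x : V) (w : List V) : ℝ := (w.map (K.gr T x)).sum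

open Classical in
/-- nonintersection probability of `X1[0,a]` and `X2[1,b]`, independent walks from `o` -/
noncomputable def nq (o : V) (a b : ℕ) : ℝ :=
  K.EW a o (fun w => K.EW b o (fun w' => if ∀ y ∈ w', y ∉ w ++ [o] then (1 : ℝ) else 0))

/-- expected time spent at loop-erased length `M` before time `T`, given the past `ω` -/
noncomputable def fM (o : V) (T : ℕ) (M : ℕ) (ω : List V) : ℝ :=
  ∑ t ∈ range T, K.EW t (tip o ω) (fun w => if len (w ++ ω) = M then (1 : ℝ) else 0)

/-- characteristic function version of `fM` -/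
noncomputable def ph (o : V) (T : ℕ) (θ : ℝ) (ω : List V) : ℂ :=
  ∑ t ∈ range T, K.EW t (tip o ω)
    (fun w => Complex.exp (((len (w ++ ω) : ℝ) * θ : ℝ) * Complex.I))

/-- a symmetry taking `o` to `x` -/
noncomputable def sy (o x : V) : Equiv.Perm V := Classical.choose (K.tr o x)

/-- the kernel `κ` of the contraction argument -/
noncomputable def kap (o : V) (r : ℕ) (θ : ℝ) (ω0 ω' : List V) : ℂ :=
  (1 / (r : ℝ)) • ∑ R ∈ range r, K.EW (r + R) (tip o ω0) (fun ω1 =>
    Complex.exp ((((len (ω'.map (K.sy o (tip (tip o ω0) ω1)) ++ ω1 ++ ω0) : ℝ)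
      - (len ω' : ℝ)) * θ : ℝ) * Complex.I))

/-- one step of the recursion for `ph` (before passing to `kap`) -/
noncomputable def hh (o : V) (T r r0 : ℕ) (θ : ℝ) (ω0 : List V) : ℂ :=
  (1 / (r : ℝ)) • ∑ R ∈ range r, K.EW (r + R) (tip o ω0) (fun ω1 =>
    K.EW r0 (tip (tip o ω0) ω1) (fun ω2 =>
      Complex.exp ((((len (ω2 ++ ω1 ++ ω0) : ℝ) - (len ω2 : ℝ)) * θ : ℝ) * Complex.I)
        * K.ph o T θ ω2))

/-- the measure whose characteristic function is `hh` -/
noncomputable def hM (o : V) (T r r0 : ℕ) (k : ℤ) (ω0 : List V) : ℝ :=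
  (1 / (r : ℝ)) * ∑ R ∈ range r, K.EW (r + R) (tip o ω0) (fun ω1 =>
    K.EW r0 (tip (tip o ω0) ω1) (fun ω2 =>
      ∑ t ∈ range T, K.EW t (tip o ω2) (fun w =>
        if (len (w ++ ω2) : ℤ) + (len (ω2 ++ ω1 ++ ω0) : ℤ) - (len ω2 : ℤ) = k
        then (1 : ℝ) else 0)))

end Ker

open Classical in
/-- indicator that the path `w ++ ω ++ p` has a cut inside `ω` -/
noncomputable def cutI {V : Type} (w ω p : List V) : ℝ :=
  if ∃ β α, ω = β ++ α ∧ ∀ y ∈ w ++ β, y ∉ α ++ p then 1 else 0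


end HP192
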