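import Mathlib
import Pool.Agent.Helper192_HP.Defs
import Pool.Agent.Helper192_HP.WDefs
import Pool.Agent.Helper192_HP.W01

namespace HP192
open Finset

-- TARGET
variable {V : Type} [DecidableEq V]

/-- TARGET 1: at most one split at a given level with the newer part avoiding the loop erasure -/
theorem split_unique (L : List V) (j : ℕ) :
    ((range L.length).filter (fun a => len (L.drop a) = j ∧
      ∀ x ∈ L.take a, x ∉ LE (L.drop a))).card ≤ 1 := by
  have key : ∀ a a' : ℕ, a < a' → a' < L.length → len (L.drop a) = j → len (L.drop a') = j →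
      (∀ x ∈ L.take a', x ∉ LE (L.drop a')) → False := by
    intro a a' h1 h2 h3 h4 h5
    have e1 : L.drop a = (L.drop a).take (a' - a) ++ L.drop a' := by
      conv_lhs => rw [← List.take_append_drop (a' - a) (L.drop a)]
      rw [List.drop_drop]
      congr 2
      omega
    have e2 : ∀ x ∈ (L.drop a).take (a' - a), x ∈ L.take a' := by
      intro x hx
      have : L.take a' = L.take a ++ (L.drop a).take (a' - a) := by
        have h6 : a' = a + (a' - a) := by omega
        conv_lhs => rw [h6]
        rw [List.take_add]
      rw [this]
      exact List.mem_append_right _ hx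
    have e3 : len (L.drop a) = len ((L.drop a).take (a' - a)) + len (L.drop a') := by
      conv_lhs => rw [e1]
      exact len_append _ _ (fun x hx => h5 x (e2 x hx))
    have e4 : (L.drop a).take (a' - a) ≠ [] := by
      intro h
      have h7 := congrArg List.length h
      simp only [List.length_take, List.length_drop, List.length_nil] at h7
      omega
    have e5 := len_pos _ e4
    omega
  rw [Finset.card_le_one]
  intro a ha b hb
  simp only [Finset.mem_filter, Finset.mem_range] at ha hb
  rcases lt_trichotomy a b with h | h | h
  · exact (key a b h hb.1 ha.2.1 hb.2.1 hb.2.2).elim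
  · exact h
  · exact (key b a h ha.1 hb.2.1 ha.2.1 ha.2.2).elim

/-- splitting a list at the first element satisfying a predicate -/
theorem split_first {W : Type} (p : W → Prop) (C : List W) :
    (∀ x ∈ C, ¬ p x) ∨ ∃ C2 v C1, C = C2 ++ v :: C1 ∧ p v ∧ ∀ x ∈ C2, ¬ p x := by
  induction C with
  | nil => left; intro x hx; simp at hx
  | cons c C ih =>
    by_cases hc : p c
    · right
      exact ⟨[], c, C, rfl, hc, by intro x hx; simp at hx⟩
    · rcases ih with ih | ⟨C2, v, C1, h1, h2, h3⟩
      · left
        intro x hx
        rcases List.mem_cons.1 hx with h | h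
        · rw [h]; exact hc
        · exact ih x h
      · right
        refine ⟨c :: C2, v, C1, by rw [h1]; rfl, h2, ?_⟩
        intro x hx
        rcases List.mem_cons.1 hx with h | h
        · rw [h]; exact hc
        · exact h3 x h

/-- TARGET 2 -/
theorem P1_pointwise (C B : List V) (hB : B ≠ []) :
    ∃ C2 C1 A v B', C = C2 ++ C1 ∧ B = A ++ v :: B' ∧ (C1 ++ A ++ [v]).head? = some v ∧
      len A + len (v :: B') = len B ∧ ∀ x ∈ C2, x ∉ LE (v :: B') := by
  rcases split_first (fun x => x ∈ LE B) C with h | ⟨C2, v, C1, h1, h2, h3⟩
  · obtain ⟨v, B', rfl⟩ := List.exists_cons_of_ne_nil hB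
    refine ⟨C, [], [], v, B', by simp, by simp, by simp, ?_, h⟩
    have : len ([] : List V) = 0 := by simp [len, LE]
    omega
  · obtain ⟨A, B', β, g1, g2, g3, g4, g5⟩ := LE_split B v h2
    refine ⟨C2, v :: C1, A, v, B', h1, g1, by simp, ?_, ?_⟩
    · have : len B = len A + len (v :: B') := by
        unfold len
        rw [g5, g3]
        simp
      omega
    · intro x hx hx'
      apply h3 x hx
      show x ∈ LE B
      rw [g5, ← g3]
      exact List.mem_append_right _ hx'

end HP192
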