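import Mathlib
import Pool.Agent.Helper192_HP.Defs
import Pool.Agent.Helper192_HP.WDefs
import Pool.Agent.Helper192_HP.Basic
import Pool.Agent.Helper192_HP.W01
import Pool.Agent.Helper192_HP.W02
import Pool.Agent.Helper192_HP.W03

namespace HP192
open Finset

/-! auxiliary lemmas -/

section p1aux

theorem p1_reidx (T : ℕ) (g : ℕ → ℕ → ℕ → ℕ → ℝ) :
    ∑ p ∈ antidiagonal T, ∑ q ∈ antidiagonal p.1, ∑ r ∈ antidiagonal p.2, g q.1 q.2 r.1 r.2 =
    ∑ p ∈ antidiagonal T, ∑ q ∈ antidiagonal p.1, ∑ r ∈ antidiagonal p.2, g r.1 q.1 r.2 q.2 := by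
  simp only [Finset.sum_sigma']
  refine Finset.sum_bij'
    (fun x _ => ⟨(x.2.1.2 + x.2.2.2, x.2.1.1 + x.2.2.1), ⟨(x.2.1.2, x.2.2.2), (x.2.1.1, x.2.2.1)⟩⟩)
    (fun x _ => ⟨(x.2.2.1 + x.2.1.1, x.2.2.2 + x.2.1.2), ⟨(x.2.2.1, x.2.1.1), (x.2.2.2, x.2.1.2)⟩⟩)
    ?_ ?_ ?_ ?_ ?_
  · rintro ⟨⟨t, u⟩, ⟨⟨s, a⟩, ⟨e, b⟩⟩⟩ h
    simp only [Finset.mem_sigma, Finset.HasAntidiagonal.mem_antidiagonal] at h ⊢
    exact ⟨by omega, trivial, trivial⟩
  · rintro ⟨⟨t, u⟩, ⟨⟨s, a⟩, ⟨e, b⟩⟩⟩ h
    simp only [Finset.mem_sigma, Finset.HasAntidiagonal.mem_antidiagonal] at h ⊢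
    exact ⟨by omega, trivial, trivial⟩
  · rintro ⟨⟨t, u⟩, ⟨⟨s, a⟩, ⟨e, b⟩⟩⟩ h
    simp only [Finset.mem_sigma, Finset.HasAntidiagonal.mem_antidiagonal] at h
    obtain ⟨h1, h2, h3⟩ := h
    subst h2 h3
    rfl
  · rintro ⟨⟨c, u⟩, ⟨⟨a, b⟩, ⟨s, e⟩⟩⟩ h
    simp only [Finset.mem_sigma, Finset.HasAntidiagonal.mem_antidiagonal] at h
    obtain ⟨h1, h2, h3⟩ := h
    subst h2 h3
    rfl
  · rintro ⟨⟨t, u⟩, ⟨⟨s, a⟩, ⟨e, b⟩⟩⟩ h
    rfl

variable {V : Type} [DecidableEq V]

theorem p1_head (x : V) (w l : List V) (h : l.head? = some x) :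
    (w ++ l).head? = some (tip x w) := by
  cases w with
  | nil => simpa using h
  | cons a w => simp

theorem p1_tip_map (g : V → V) (x : V) (w : List V) : tip (g x) (w.map g) = g (tip x w) := by
  cases w with
  | nil => simp
  | cons a w => simp

open Classical in
/-- the event -/
noncomputable def evI (m a b e : ℕ) (L : List V) : ℝ :=
  if (L.drop e).head? = (L.drop (e + b + a)).head? ∧
    len ((L.drop (e + b)).take a) + len (L.drop (e + b + a)) = m ∧
    ∀ x ∈ L.take e, x ∉ LE (L.drop (e + b + a)) then 1 else 0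

theorem evI_nonneg (m a b e : ℕ) (L : List V) : 0 ≤ evI m a b e L := by
  unfold evI; split <;> norm_num

/-- pointwise inequality -/
theorem p1_pt (m t u : ℕ) (L : List V) (hL : L.length = t + u + 1) :
    (if len (L.drop u) = m then (1 : ℝ) else 0) ≤
      ∑ q ∈ antidiagonal t, ∑ r ∈ antidiagonal u, evI m q.2 r.2 r.1 L := by
  have hnn : ∀ q ∈ antidiagonal t, 0 ≤ ∑ r ∈ antidiagonal u, evI m q.2 r.2 r.1 L := fun q _ =>
    Finset.sum_nonneg fun r _ => evI_nonneg _ _ _ _ _
  by_cases h : len (L.drop u) = m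
  · rw [if_pos h]
    have hB : L.drop u ≠ [] := by
      intro h0
      have := congrArg List.length h0
      simp only [List.length_drop, List.length_nil] at this
      omega
    obtain ⟨C2, C1, A, v, B', h1, h2, h3, h4, h5⟩ := P1_pointwise (L.take u) (L.drop u) hB
    have hL2 : L = C2 ++ (C1 ++ (A ++ (v :: B'))) := by
      conv_lhs => rw [← List.take_append_drop u L]
      rw [h1, h2]
      simp
    have l1 : C2.length + C1.length = u := by
      have := congrArg List.length h1
      simp only [List.length_append, List.length_take] at this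
      omega
    have l2 : A.length + (B'.length + 1) = t + 1 := by
      have := congrArg List.length h2
      simp only [List.length_append, List.length_drop, List.length_cons] at this
      omega
    have d1 : L.drop C2.length = C1 ++ (A ++ (v :: B')) := by
      rw [hL2, List.drop_left]
    have d2 : L.drop (C2.length + C1.length) = A ++ (v :: B') := by
      rw [← List.drop_drop, d1, List.drop_left]
    have d3 : L.drop (C2.length + C1.length + A.length) = v :: B' := by
      rw [← List.drop_drop, d2, List.drop_left]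
    have d4 : L.take C2.length = C2 := by
      rw [hL2, List.take_left]
    have d5 : (L.drop (C2.length + C1.length)).take A.length = A := by
      rw [d2, List.take_left]
    have hev : evI m A.length C1.length C2.length L = 1 := by
      unfold evI
      rw [if_pos]
      refine ⟨?_, ?_, ?_⟩
      · rw [d1, d3]
        have e1 : (C1 ++ (A ++ (v :: B'))) = (C1 ++ A ++ [v]) ++ B' := by simp
        rw [e1, List.head?_append, h3]
        simp
      · rw [d5, d3, h4, h]
      · rw [d4, d3]
        exact h5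
    have hq : (B'.length, A.length) ∈ antidiagonal t := by
      rw [Finset.HasAntidiagonal.mem_antidiagonal]; show B'.length + A.length = t; omega
    have hr : (C2.length, C1.length) ∈ antidiagonal u := by
      rw [Finset.HasAntidiagonal.mem_antidiagonal]; exact l1
    calc (1 : ℝ) = evI m A.length C1.length C2.length L := hev.symm
      _ ≤ ∑ r ∈ antidiagonal u, evI m A.length r.2 r.1 L :=
          Finset.single_le_sum (f := fun r : ℕ × ℕ => evI m A.length r.2 r.1 L)
            (fun r _ => evI_nonneg _ _ _ _ _) hr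
      _ ≤ _ := Finset.single_le_sum
            (f := fun q : ℕ × ℕ => ∑ r ∈ antidiagonal u, evI m q.2 r.2 r.1 L) hnn hq
  · rw [if_neg h]
    exact Finset.sum_nonneg hnn

open Classical in
/-- avoidance indicator -/
noncomputable def avI (B C : List V) : ℝ := if ∀ y ∈ C, y ∉ LE B then 1 else 0

end p1aux

namespace Ker
variable {V : Type} [Fintype V] [DecidableEq V] (K : Ker V)

theorem p1_evI (m a b e : ℕ) (B C2 C1 A : List V) (x : V) (hx : B.head? = some x)
    (h1 : C2.length = e) (h2 : C1.length = b) (h3 : A.length = a) :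
    evI m a b e (C2 ++ (C1 ++ (A ++ B))) =
      (if tip (tip x A) C1 = x then (1 : ℝ) else 0) *
        ((if len A + len B = m then 1 else 0) * avI B C2) := by
  have d1 : (C2 ++ (C1 ++ (A ++ B))).drop e = C1 ++ (A ++ B) := by
    rw [← h1, List.drop_left]
  have d2 : (C2 ++ (C1 ++ (A ++ B))).drop (e + b) = A ++ B := by
    rw [← List.drop_drop, d1, ← h2, List.drop_left]
  have d3 : (C2 ++ (C1 ++ (A ++ B))).drop (e + b + a) = B := by
    rw [← List.drop_drop, d2, ← h3, List.drop_left]
  have d4 : (C2 ++ (C1 ++ (A ++ B))).take e = C2 := by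
    rw [← h1, List.take_left]
  have d5 : ((C2 ++ (C1 ++ (A ++ B))).drop (e + b)).take a = A := by
    rw [d2, ← h3, List.take_left]
  unfold evI avI
  rw [d5, d3, d4, d1]
  have hiff : (C1 ++ (A ++ B)).head? = B.head? ↔ tip (tip x A) C1 = x := by
    rw [hx, p1_head (tip x A) C1 (A ++ B) (p1_head x A B hx), Option.some_inj]
  by_cases c1 : tip (tip x A) C1 = x
  · by_cases c2 : len A + len B = m
    · by_cases c3 : ∀ y ∈ C2, y ∉ LE B
      · rw [if_pos ⟨hiff.2 c1, c2, c3⟩, if_pos c1, if_pos c2, if_pos c3]; norm_num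
      · rw [if_neg (fun h => c3 h.2.2), if_neg c3]; norm_num
    · rw [if_neg (fun h => c2 h.2.1), if_neg c2]; norm_num
  · rw [if_neg (fun h => c1 (hiff.1 h.1)), if_neg c1]; norm_num

/-- the law of the first loop part -/
noncomputable def qq (o : V) (a b i : ℕ) : ℝ :=
  K.EW a o (fun A => (if len A = i then (1 : ℝ) else 0) * K.hk b (tip o A) o)

theorem qq_nonneg (o : V) (a b i : ℕ) : 0 ≤ K.qq o a b i := by
  refine K.EW_nonneg a o _ fun w _ => mul_nonneg ?_ (K.hk_nonneg _ _ _)
  split <;> norm_num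

theorem qq_inv (o x : V) (a b i : ℕ) :
    K.EW a x (fun A => (if len A = i then (1 : ℝ) else 0) * K.hk b (tip x A) x) =
      K.qq o a b i := by
  obtain ⟨g, hg, hgP⟩ := K.tr o x
  unfold qq
  rw [← hg, K.EW_auto g hgP]
  refine K.EW_congr _ _ _ _ fun w _ => ?_
  rw [len_map g g.injective, p1_tip_map, K.hk_auto g hgP]

/-- the law of the second part -/
noncomputable def RR (o : V) (m i s e : ℕ) : ℝ :=
  K.EW s o (fun B => (if i + len (B ++ [o]) = m then (1 : ℝ) else 0) *
    K.EW e (tip o B) (fun C => avI (B ++ [o]) C))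

theorem p1_head_o (o : V) (w : List V) : (w ++ [o]).head? = some (tip o w) :=
  p1_head o w [o] rfl

theorem p1_fact (o : V) (m s a e b T : ℕ) (hT : (s + a) + (b + e) = T) :
    K.EW T o (fun w => evI m a b e (w ++ [o])) =
      ∑ i ∈ range (a + 1), K.qq o a b i * K.RR o m i s e := by
  rw [← hT, K.EW_append (s + a) (b + e), K.EW_append s a]
  have step : ∀ B : List V, B.length = s →
      K.EW a (tip o B) (fun A => K.EW (b + e) (tip o (A ++ B)) (fun w' =>
        evI m a b e (w' ++ (A ++ B) ++ [o]))) =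
      (∑ i ∈ range (a + 1), K.qq o a b i *
        ((if i + len (B ++ [o]) = m then (1 : ℝ) else 0) *
          K.EW e (tip o B) (fun C => avI (B ++ [o]) C))) := by
    intro B _
    set x := tip o B with hx
    have hBh : (B ++ [o]).head? = some x := p1_head_o o B
    have e1 : ∀ A : List V, A.length = a →
        K.EW (b + e) (tip o (A ++ B)) (fun w' => evI m a b e (w' ++ (A ++ B) ++ [o])) =
        K.hk b (tip x A) x * ((if len A + len (B ++ [o]) = m then 1 else 0) *
          K.EW e x (fun C => avI (B ++ [o]) C)) := by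
      intro A hA
      rw [tip_append, ← hx, K.EW_append b e]
      have e2 : ∀ C1 : List V, C1.length = b →
          K.EW e (tip (tip x A) C1) (fun C2 => evI m a b e (C2 ++ C1 ++ (A ++ B) ++ [o])) =
          (if tip (tip x A) C1 = x then (1 : ℝ) else 0) *
            ((if len A + len (B ++ [o]) = m then 1 else 0) *
              K.EW e x (fun C => avI (B ++ [o]) C)) := by
        intro C1 hC1
        have e3 : K.EW e (tip (tip x A) C1)
            (fun C2 => evI m a b e (C2 ++ C1 ++ (A ++ B) ++ [o])) =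
            K.EW e (tip (tip x A) C1) (fun C2 => (if tip (tip x A) C1 = x then (1 : ℝ) else 0) *
              ((if len A + len (B ++ [o]) = m then 1 else 0) * avI (B ++ [o]) C2)) := by
          refine K.EW_congr _ _ _ _ fun C2 hC2 => ?_
          have e4 : C2 ++ C1 ++ (A ++ B) ++ [o] = C2 ++ (C1 ++ (A ++ (B ++ [o]))) := by simp
          rw [e4]
          exact p1_evI m a b e (B ++ [o]) C2 C1 A x hBh hC2 hC1 hA
        rw [e3, K.EW_mul_left, K.EW_mul_left]
        by_cases c : tip (tip x A) C1 = x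
        · rw [c]
        · rw [if_neg c, zero_mul, zero_mul]
      rw [K.EW_congr _ _ _ _ e2, K.EW_mul_right, K.hk_eq_EW]
    rw [K.EW_congr _ _ _ _ e1]
    have e5 : ∀ A : List V, A.length = a →
        K.hk b (tip x A) x * ((if len A + len (B ++ [o]) = m then 1 else 0) *
          K.EW e x (fun C => avI (B ++ [o]) C)) =
        ∑ i ∈ range (a + 1), ((if len A = i then (1 : ℝ) else 0) * K.hk b (tip x A) x) *
          ((if i + len (B ++ [o]) = m then (1 : ℝ) else 0) *
          K.EW e x (fun C => avI (B ++ [o]) C)) := by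
      intro A hA
      have hle : len A ∈ range (a + 1) := by
        rw [Finset.mem_range]
        have := len_le_length A
        omega
      rw [Finset.sum_eq_single_of_mem (len A) hle (fun i _ hi => by
        rw [if_neg (fun h => hi h.symm)]; ring)]
      rw [if_pos rfl]
      ring
    rw [K.EW_congr _ _ _ _ e5, K.EW_sum]
    refine Finset.sum_congr rfl fun i _ => ?_
    rw [K.EW_mul_right, K.qq_inv o x]
  rw [K.EW_congr _ _ _ _ step, K.EW_sum]
  refine Finset.sum_congr rfl fun i _ => ?_
  rw [K.EW_mul_left]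
  rfl

theorem RR_eq (o : V) (m i s e : ℕ) : K.RR o m i s e =
    K.EW (s + e) o (fun w => (if i + len ((w ++ [o]).drop e) = m then (1 : ℝ) else 0) *
      avI ((w ++ [o]).drop e) ((w ++ [o]).take e)) := by
  unfold RR
  rw [K.EW_append s e]
  refine K.EW_congr _ _ _ _ fun B _ => ?_
  rw [← K.EW_mul_left]
  refine K.EW_congr _ _ _ _ fun C hC => ?_
  have e1 : C ++ B ++ [o] = C ++ (B ++ [o]) := by simp
  rw [e1, ← hC, List.drop_left, List.take_left]

theorem RR_sum (o : V) (m i T : ℕ) : ∑ r ∈ antidiagonal T, K.RR o m i r.1 r.2 ≤ 1 := by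
  have e1 : ∀ r ∈ antidiagonal T, K.RR o m i r.1 r.2 =
      K.EW T o (fun w => (if i + len ((w ++ [o]).drop r.2) = m then (1 : ℝ) else 0) *
        avI ((w ++ [o]).drop r.2) ((w ++ [o]).take r.2)) := by
    intro r hr
    rw [RR_eq, Finset.HasAntidiagonal.mem_antidiagonal.1 hr]
  rw [Finset.sum_congr rfl e1, ← K.EW_sum]
  refine K.EW_le_const T o _ 1 fun w hw => ?_
  have e2 : ∑ r ∈ antidiagonal T, (if i + len ((w ++ [o]).drop r.2) = m then (1 : ℝ) else 0) *
        avI ((w ++ [o]).drop r.2) ((w ++ [o]).take r.2) =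
      ∑ e ∈ range (T + 1), (if i + len ((w ++ [o]).drop e) = m then (1 : ℝ) else 0) *
        avI ((w ++ [o]).drop e) ((w ++ [o]).take e) := by
    rw [← Finset.Nat.sum_antidiagonal_swap]
    exact Finset.Nat.sum_antidiagonal_eq_sum_range_succ
      (fun e _ => (if i + len ((w ++ [o]).drop e) = m then (1 : ℝ) else 0) *
        avI ((w ++ [o]).drop e) ((w ++ [o]).take e)) T
  rw [e2]
  rcases le_or_gt i m with him | him
  · have h1 := split_unique (w ++ [o]) (m - i)
    have h2 : (w ++ [o]).length = T + 1 := by simp [hw]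
    rw [h2] at h1
    have h3 : ∑ e ∈ range (T + 1), (if i + len ((w ++ [o]).drop e) = m then (1 : ℝ) else 0) *
        avI ((w ++ [o]).drop e) ((w ++ [o]).take e) =
        (((range (T + 1)).filter (fun a => len ((w ++ [o]).drop a) = m - i ∧
          ∀ x ∈ (w ++ [o]).take a, x ∉ LE ((w ++ [o]).drop a))).card : ℝ) := by
      rw [Finset.card_filter]
      push_cast
      refine Finset.sum_congr rfl fun e _ => ?_
      unfold avI
      have c0 : (i + len ((w ++ [o]).drop e) = m) ↔ (len ((w ++ [o]).drop e) = m - i) := by omega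
      by_cases c1 : len ((w ++ [o]).drop e) = m - i
      · by_cases c2 : ∀ x ∈ (w ++ [o]).take e, x ∉ LE ((w ++ [o]).drop e)
        · rw [if_pos (c0.2 c1), if_pos c2, if_pos ⟨c1, c2⟩, one_mul]
        · have n1 : ¬ (len ((w ++ [o]).drop e) = m - i ∧
              ∀ x ∈ (w ++ [o]).take e, x ∉ LE ((w ++ [o]).drop e)) := fun h => c2 h.2
          rw [if_neg c2, if_neg n1, mul_zero]
      · have n1 : ¬ (len ((w ++ [o]).drop e) = m - i ∧
              ∀ x ∈ (w ++ [o]).take e, x ∉ LE ((w ++ [o]).drop e)) := fun h => c1 h.1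
        have n2 : ¬ (i + len ((w ++ [o]).drop e) = m) := fun h => c1 (c0.1 h)
        rw [if_neg n2, if_neg n1, zero_mul]
    rw [h3]
    have h4 : ((range (T + 1)).filter (fun a => len ((w ++ [o]).drop a) = m - i ∧
          ∀ x ∈ (w ++ [o]).take a, x ∉ LE ((w ++ [o]).drop a))).card ≤ 1 := by
      convert h1
    exact_mod_cast h4
  · rw [Finset.sum_eq_zero]
    · norm_num
    · intro e _
      rw [if_neg (by omega), zero_mul]

theorem qq_sum (o : V) (a b : ℕ) :
    ∑ i ∈ range (a + 1), K.qq o a b i = K.hk (a + b) o o := by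
  unfold qq
  rw [← K.EW_sum, K.hk_add]
  have e1 : ∀ A : List V, A.length = a →
      ∑ i ∈ range (a + 1), (if len A = i then (1 : ℝ) else 0) * K.hk b (tip o A) o =
      K.hk b (tip o A) o := by
    intro A hA
    have hle : len A ∈ range (a + 1) := by
      rw [Finset.mem_range]
      have := len_le_length A
      omega
    rw [Finset.sum_eq_single_of_mem (len A) hle (fun i _ hi => by
      rw [if_neg (fun h => hi h.symm)]; ring)]
    rw [if_pos rfl, one_mul]
  rw [K.EW_congr _ _ _ _ e1, K.EW_tip a o (fun y => K.hk b y o)]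
  rfl

-- TARGET
theorem P1 (o : V) (T m : ℕ) :
    ∑ t ∈ range (T + 1), K.EW t o (fun w => if len (w ++ [o]) = m then (1 : ℝ) else 0)
      ≤ K.Th o T := by
  have e0 : ∑ t ∈ range (T + 1), K.EW t o (fun w => if len (w ++ [o]) = m then (1 : ℝ) else 0) =
      ∑ p ∈ antidiagonal T,
        K.EW p.1 o (fun w => if len (w ++ [o]) = m then (1 : ℝ) else 0) :=
    (Finset.Nat.sum_antidiagonal_eq_sum_range_succ
      (fun t _ => K.EW t o (fun w => if len (w ++ [o]) = m then (1 : ℝ) else 0)) T).symm
  rw [e0]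
  have e1 : ∀ p ∈ antidiagonal T,
      K.EW p.1 o (fun w => if len (w ++ [o]) = m then (1 : ℝ) else 0) ≤
      ∑ q ∈ antidiagonal p.1, ∑ r ∈ antidiagonal p.2,
        ∑ i ∈ range (q.2 + 1), K.qq o q.2 r.2 i * K.RR o m i q.1 r.1 := by
    rintro ⟨t, u⟩ hp
    rw [Finset.HasAntidiagonal.mem_antidiagonal] at hp
    simp only at hp ⊢
    have e2 : K.EW t o (fun w => if len (w ++ [o]) = m then (1 : ℝ) else 0) =
        K.EW T o (fun w => if len ((w ++ [o]).drop u) = m then (1 : ℝ) else 0) := by
      rw [← hp, K.EW_append t u]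
      refine K.EW_congr _ _ _ _ fun w _ => ?_
      have e3 : ∀ w' : List V, w'.length = u →
          (if len ((w' ++ w ++ [o]).drop u) = m then (1 : ℝ) else 0) =
          (if len (w ++ [o]) = m then (1 : ℝ) else 0) := by
        intro w' hw'
        have e4 : w' ++ w ++ [o] = w' ++ (w ++ [o]) := by simp
        rw [e4, ← hw', List.drop_left]
      rw [K.EW_congr _ _ _ _ e3, K.EW_const]
    rw [e2]
    have e5 : K.EW T o (fun w => if len ((w ++ [o]).drop u) = m then (1 : ℝ) else 0) ≤
        K.EW T o (fun w => ∑ q ∈ antidiagonal t, ∑ r ∈ antidiagonal u,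
          evI m q.2 r.2 r.1 (w ++ [o])) := by
      refine K.EW_mono _ _ _ _ fun w hw => ?_
      exact p1_pt m t u (w ++ [o]) (by simp [hw, hp])
    refine e5.trans (le_of_eq ?_)
    rw [K.EW_sum]
    refine Finset.sum_congr rfl fun q hq => ?_
    rw [K.EW_sum]
    refine Finset.sum_congr rfl fun r hr => ?_
    rw [Finset.HasAntidiagonal.mem_antidiagonal] at hq hr
    exact K.p1_fact o m q.1 q.2 r.1 r.2 T (by omega)
  refine (Finset.sum_le_sum e1).trans ?_
  rw [p1_reidx T (fun s a e b => ∑ i ∈ range (a + 1), K.qq o a b i * K.RR o m i s e)]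
  have e2 : ∀ p ∈ antidiagonal T, (∑ q ∈ antidiagonal p.1, ∑ r ∈ antidiagonal p.2,
      ∑ i ∈ range (q.1 + 1), K.qq o q.1 q.2 i * K.RR o m i r.1 r.2) ≤
      ((p.1 : ℝ) + 1) * K.hk p.1 o o := by
    intro p _
    have e3 : ∀ q ∈ antidiagonal p.1, (∑ r ∈ antidiagonal p.2,
      ∑ i ∈ range (q.1 + 1), K.qq o q.1 q.2 i * K.RR o m i r.1 r.2) ≤ K.hk p.1 o o := by
      intro q hq
      rw [Finset.HasAntidiagonal.mem_antidiagonal] at hq
      rw [Finset.sum_comm]
      calc _ ≤ ∑ i ∈ range (q.1 + 1), K.qq o q.1 q.2 i := by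
            refine Finset.sum_le_sum fun i _ => ?_
            rw [← Finset.mul_sum]
            have h1 := K.RR_sum o m i p.2
            have h2 := K.qq_nonneg o q.1 q.2 i
            nlinarith
        _ = _ := by rw [K.qq_sum, hq]
    calc _ ≤ ∑ _q ∈ antidiagonal p.1, K.hk p.1 o o := Finset.sum_le_sum e3
      _ = _ := by
        rw [Finset.sum_const, Finset.Nat.card_antidiagonal, nsmul_eq_mul]
        push_cast
        ring
  refine (Finset.sum_le_sum e2).trans (le_of_eq ?_)
  unfold Th
  exact Finset.Nat.sum_antidiagonal_eq_sum_range_succ (fun c _ => ((c : ℝ) + 1) * K.hk c o o) T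

end Ker

end HP192
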