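import Mathlib
import Pool.Agent.Helper192_HP.Defs
import Pool.Agent.Helper192_HP.WDefs
import Pool.Agent.Helper192_HP.Basic
import Pool.Agent.Helper192_HP.W01
import Pool.Agent.Helper192_HP.W02
import Pool.Agent.Helper192_HP.W04

namespace HP192
open Finset

theorem Dbound_sum_toFinset {V : Type} [DecidableEq V] (g : V → ℝ) (hg : ∀ v, 0 ≤ g v) (l : List V) :
    ∑ y ∈ l.toFinset, g y ≤ (l.map g).sum := by
  induction l with
  | nil => simp
  | cons a l ih =>
    rw [List.toFinset_cons, List.map_cons, List.sum_cons]
    by_cases ha : a ∈ l.toFinset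
    · rw [Finset.insert_eq_of_mem ha]
      have := hg a
      linarith
    · rw [Finset.sum_insert ha]
      linarith

/-- the pointwise bound -/
theorem Dbound_point {V : Type} [DecidableEq V] (k : ℕ) (x : V) (ω : List V) (hω : ω.head? = some x)
    (H : List V → List V → ℝ)
    (hH : ∀ C A, H C A = if (tip x C ∈ LE ω ∧ len (A ++ [tip x C]) + ((LE ω).length - 1 - (LE ω).idxOf (tip x C)) = k)
      then (1 : ℝ) else 0) (t : ℕ) (w : List V) (hw : w.length = t) :
    (if len (w ++ ω) = k then (1 : ℝ) else 0) ≤ ∑ σ ∈ range (t + 1), H (w.drop (t - σ)) (w.take (t - σ)) := by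
  have hnn : ∀ C A, 0 ≤ H C A := by
    intro C A
    rw [hH]
    split_ifs <;> norm_num
  by_cases hk : len (w ++ ω) = k
  · rw [if_pos hk]
    have hω' : ω ≠ [] := by
      rintro rfl
      simp at hω
    obtain ⟨A, C, v, γ, β, hwAC, hhead, hLE, hA, hLEw⟩ := LE_over w ω hω'
    have hv : tip x C = v := by
      cases C with
      | nil =>
        rw [List.nil_append, hω] at hhead
        rw [tip_nil]
        exact Option.some.inj hhead
      | cons c C' =>
        rw [tip_cons]
        rw [List.cons_append, List.head?_cons] at hhead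
        exact Option.some.inj hhead
    have hlenw : w.length = A.length + C.length := by rw [hwAC, List.length_append]
    have hmem : C.length ∈ range (t + 1) := by
      rw [Finset.mem_range]; omega
    have htC : t - C.length = A.length := by omega
    have h1 : H C A = 1 := by
      rw [hH, hv, if_pos]
      have hnd := LE_nodup ω
      refine ⟨by rw [hLE]; simp, ?_⟩
      have hLEv : LE [v] = [v] := by simp [LE, stp]
      have hlenA : len (A ++ [v]) = (LE A).length + 1 := by
        unfold len
        rw [LE_append A [v] (by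
          intro a ha
          rw [hLEv]
          intro h
          exact hA a ha (by rw [List.mem_singleton.1 h]; exact List.mem_cons_self ..)), hLEv]
        simp
      have hidx : (LE ω).idxOf v = γ.length := by
        rw [hLE] at hnd ⊢
        have hvγ : v ∉ γ := by
          intro h
          exact (List.disjoint_of_nodup_append hnd) h (List.mem_cons_self ..)
        rw [List.idxOf_append_of_notMem hvγ, List.idxOf_cons_self, Nat.add_zero]
      have hlenω : (LE ω).length = γ.length + (β.length + 1) := by
        rw [hLE, List.length_append, List.length_cons]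
      have hk' : (LE A).length + (β.length + 1) = k := by
        rw [← hk]
        unfold len
        rw [hLEw, List.length_append, List.length_cons]
      rw [hlenA, hidx, hlenω]
      omega
    calc (1 : ℝ) = H C A := h1.symm
      _ = H (w.drop (t - C.length)) (w.take (t - C.length)) := by
          rw [htC, hwAC, List.drop_left, List.take_left]
      _ ≤ _ := Finset.single_le_sum (f := fun σ => H (w.drop (t - σ)) (w.take (t - σ)))
          (fun σ _ => hnn _ _) hmem
  · rw [if_neg hk]
    exact Finset.sum_nonneg fun σ _ => hnn _ _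

-- TARGET
namespace Ker
variable {V : Type} [Fintype V] [DecidableEq V] (K : Ker V)

theorem Dbound (o : V) (T k : ℕ) (x : V) (ω : List V) (hω : ω.head? = some x) :
    ∑ t ∈ range (T + 1), K.EW t x (fun w => if len (w ++ ω) = k then (1 : ℝ) else 0)
      ≤ K.Th o T * K.hits T x ω := by
  set H : List V → List V → ℝ := fun C A =>
    if (tip x C ∈ LE ω ∧ len (A ++ [tip x C]) + ((LE ω).length - 1 - (LE ω).idxOf (tip x C)) = k)
      then (1 : ℝ) else 0 with hHdef
  have hnn : ∀ C A, 0 ≤ H C A := by
    intro C A
    rw [hHdef]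
    dsimp only
    split_ifs <;> norm_num
  have hTh : ∀ v : V, K.Th v T = K.Th o T := by
    intro v
    unfold Ker.Th
    exact Finset.sum_congr rfl fun c _ => by rw [K.hk_diag c v o]
  have hTh0 : 0 ≤ K.Th o T := by
    unfold Ker.Th
    exact Finset.sum_nonneg fun c _ => mul_nonneg (by positivity) (K.hk_nonneg _ _ _)
  -- step 1
  have step1 : ∀ t, K.EW t x (fun w => if len (w ++ ω) = k then (1 : ℝ) else 0)
      ≤ ∑ σ ∈ range (t + 1), K.EW σ x (fun C => K.EW (t - σ) (tip x C) (fun A => H C A)) := by
    intro t
    calc K.EW t x (fun w => if len (w ++ ω) = k then (1 : ℝ) else 0)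
        ≤ K.EW t x (fun w => ∑ σ ∈ range (t + 1), H (w.drop (t - σ)) (w.take (t - σ))) :=
          K.EW_mono t x _ _ fun w hw => Dbound_point k x ω hω H (fun C A => rfl) t w hw
      _ = ∑ σ ∈ range (t + 1), K.EW t x (fun w => H (w.drop (t - σ)) (w.take (t - σ))) :=
          K.EW_sum _ t x (fun σ w => H (w.drop (t - σ)) (w.take (t - σ)))
      _ = _ := by
          refine Finset.sum_congr rfl fun σ hσ => ?_
          have hσt : σ + (t - σ) = t := by
            have := Finset.mem_range.1 hσ
            omega
          have h1 := K.EW_append σ (t - σ) x (fun w => H (w.drop (t - σ)) (w.take (t - σ)))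
          rw [hσt] at h1
          rw [h1]
          refine K.EW_congr σ x _ _ fun C hC => ?_
          refine K.EW_congr (t - σ) _ _ _ fun A hA => ?_
          rw [List.drop_left' hA, List.take_left' hA]
  -- step 2
  have step2 : ∀ C : List V, ∀ n, n ≤ T + 1 → ∑ t' ∈ range n, K.EW t' (tip x C) (fun A => H C A)
      ≤ if tip x C ∈ LE ω then K.Th o T else 0 := by
    intro C n hn
    by_cases hC : tip x C ∈ LE ω
    · rw [if_pos hC]
      set v := tip x C with hv
      set d := (LE ω).length - 1 - (LE ω).idxOf v with hd
      calc ∑ t' ∈ range n, K.EW t' v (fun A => H C A)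
          ≤ ∑ t' ∈ range (T + 1), K.EW t' v (fun A => H C A) := by
            refine Finset.sum_le_sum_of_subset_of_nonneg (Finset.range_subset_range.2 hn) fun i _ _ => ?_
            exact K.EW_nonneg _ _ _ fun w _ => hnn _ _
        _ ≤ ∑ t' ∈ range (T + 1), K.EW t' v (fun A => if len (A ++ [v]) = k - d then (1 : ℝ) else 0) := by
            refine Finset.sum_le_sum fun t' _ => K.EW_mono _ _ _ _ fun A _ => ?_
            have : H C A = if (v ∈ LE ω ∧ len (A ++ [v]) + d = k) then (1 : ℝ) else 0 := rfl
            rw [this]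
            by_cases h : v ∈ LE ω ∧ len (A ++ [v]) + d = k
            · rw [if_pos h, if_pos (by omega)]
            · rw [if_neg h]
              split_ifs <;> norm_num
        _ ≤ K.Th v T := K.P1 v T (k - d)
        _ = K.Th o T := hTh v
    · rw [if_neg hC]
      refine le_of_eq (Finset.sum_eq_zero fun t' _ => ?_)
      have : (fun A => H C A) = fun _ : List V => (0 : ℝ) := by
        funext A
        have : H C A = if (tip x C ∈ LE ω ∧ len (A ++ [tip x C]) + ((LE ω).length - 1 - (LE ω).idxOf (tip x C)) = k)
          then (1 : ℝ) else 0 := rfl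
        rw [this, if_neg (fun h => hC h.1)]
      rw [this]
      exact K.EW_zero_fun _ _
  -- step 3
  have step3 : ∀ σ, K.EW σ x (fun C => if tip x C ∈ LE ω then K.Th o T else 0)
      = K.Th o T * ∑ y ∈ (LE ω).toFinset, K.hk σ x y := by
    intro σ
    rw [K.EW_tip σ x (fun y => if y ∈ LE ω then K.Th o T else 0), Finset.mul_sum]
    simp only [smul_eq_mul, mul_ite, mul_zero]
    rw [← Finset.sum_filter]
    refine Finset.sum_congr ?_ fun y _ => mul_comm _ _
    ext y
    simp
  calc ∑ t ∈ range (T + 1), K.EW t x (fun w => if len (w ++ ω) = k then (1 : ℝ) else 0)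
      ≤ ∑ t ∈ range (T + 1), ∑ σ ∈ range (t + 1),
          K.EW σ x (fun C => K.EW (t - σ) (tip x C) (fun A => H C A)) :=
        Finset.sum_le_sum fun t _ => step1 t
    _ = ∑ σ ∈ range (T + 1), ∑ t' ∈ range (T + 1 - σ),
          K.EW σ x (fun C => K.EW t' (tip x C) (fun A => H C A)) :=
        Finset.sum_range_diag_flip (T + 1) (fun σ t' => K.EW σ x (fun C => K.EW t' (tip x C) (fun A => H C A)))
    _ = ∑ σ ∈ range (T + 1), K.EW σ x (fun C => ∑ t' ∈ range (T + 1 - σ), K.EW t' (tip x C) (fun A => H C A)) :=
        Finset.sum_congr rfl fun σ _ =>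
          (K.EW_sum (range (T + 1 - σ)) σ x (fun t' C => K.EW t' (tip x C) (fun A => H C A))).symm
    _ ≤ ∑ σ ∈ range (T + 1), K.EW σ x (fun C => if tip x C ∈ LE ω then K.Th o T else 0) :=
        Finset.sum_le_sum fun σ _ => K.EW_mono _ _ _ _ fun C _ => step2 C _ (Nat.sub_le _ _)
    _ = ∑ σ ∈ range (T + 1), K.Th o T * ∑ y ∈ (LE ω).toFinset, K.hk σ x y :=
        Finset.sum_congr rfl fun σ _ => step3 σ
    _ = K.Th o T * ∑ y ∈ (LE ω).toFinset, K.gr T x y := by
        rw [← Finset.mul_sum, Finset.sum_comm]
        rfl
    _ ≤ K.Th o T * K.hits T x ω := by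
        refine mul_le_mul_of_nonneg_left ?_ hTh0
        have hg : ∀ y, 0 ≤ K.gr T x y := fun y => by
          unfold Ker.gr
          exact Finset.sum_nonneg fun c _ => K.hk_nonneg _ _ _
        calc ∑ y ∈ (LE ω).toFinset, K.gr T x y ≤ ∑ y ∈ ω.toFinset, K.gr T x y := by
              refine Finset.sum_le_sum_of_subset_of_nonneg ?_ fun i _ _ => hg i
              intro y hy
              rw [List.mem_toFinset] at hy ⊢
              exact LE_sub ω y hy
          _ ≤ _ := Dbound_sum_toFinset _ hg ω

end Ker

end HP192
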