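import Mathlib
import Pool.Agent.Helper192_HP.Defs
import Pool.Agent.Helper192_HP.WDefs
import Pool.Agent.Helper192_HP.Basic
import Pool.Agent.Helper192_HP.W01
import Pool.Agent.Helper192_HP.W02

namespace HP192
open Finset

-- TARGET
namespace Ker
variable {V : Type} [Fintype V] [DecidableEq V] (K : Ker V)

theorem gr_nonneg (T : ℕ) (x y : V) : 0 ≤ K.gr T x y :=
  Finset.sum_nonneg fun c _ => K.hk_nonneg c x y

theorem gr_mono (T T' : ℕ) (h : T ≤ T') (x y : V) : K.gr T x y ≤ K.gr T' x y := by
  refine Finset.sum_le_sum_of_subset_of_nonneg ?_ fun c _ _ => K.hk_nonneg c x y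
  intro c hc
  simp only [Finset.mem_range] at hc ⊢
  omega

theorem gr_auto (g : Equiv.Perm V) (hg : ∀ a b, K.P (g a) (g b) = K.P a b) (T : ℕ) (x y : V) :
    K.gr T (g x) (g y) = K.gr T x y := by
  unfold gr
  exact Finset.sum_congr rfl fun c _ => K.hk_auto g hg c x y

theorem hits_nil (T : ℕ) (x : V) : K.hits T x [] = 0 := by simp [hits]

theorem hits_cons (T : ℕ) (x y : V) (w : List V) :
    K.hits T x (y :: w) = K.gr T x y + K.hits T x w := by simp [hits]

theorem hits_nonneg (T : ℕ) (x : V) (w : List V) : 0 ≤ K.hits T x w := by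
  induction w with
  | nil => simp [hits_nil]
  | cons y w ih => rw [hits_cons]; exact add_nonneg (K.gr_nonneg T x y) ih

theorem hits_mono (T T' : ℕ) (h : T ≤ T') (x : V) (w : List V) :
    K.hits T x w ≤ K.hits T' x w := by
  induction w with
  | nil => simp [hits_nil]
  | cons y w ih => rw [hits_cons, hits_cons]; exact add_le_add (K.gr_mono T T' h x y) ih

theorem hits_append (T : ℕ) (x : V) (w w' : List V) :
    K.hits T x (w ++ w') = K.hits T x w + K.hits T x w' := by
  simp [hits]

theorem hits_reverse (T : ℕ) (x : V) (w : List V) :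
    K.hits T x w.reverse = K.hits T x w := by
  induction w with
  | nil => rfl
  | cons y w ih =>
    rw [List.reverse_cons, hits_append, ih, hits_cons, hits_cons, hits_nil]
    ring

theorem hits_auto (g : Equiv.Perm V) (hg : ∀ a b, K.P (g a) (g b) = K.P a b) (T : ℕ) (x : V)
    (w : List V) : K.hits T (g x) (w.map g) = K.hits T x w := by
  induction w with
  | nil => simp [hits_nil]
  | cons y w ih => rw [List.map_cons, hits_cons, hits_cons, ih, K.gr_auto g hg]

theorem Th_mono (o : V) (T T' : ℕ) (h : T ≤ T') : K.Th o T ≤ K.Th o T' := by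
  unfold Th
  refine Finset.sum_le_sum_of_subset_of_nonneg ?_ fun c _ _ =>
    mul_nonneg (by positivity) (K.hk_nonneg c o o)
  intro c hc
  simp only [Finset.mem_range] at hc ⊢
  omega

theorem one_le_Th (o : V) (T : ℕ) : 1 ≤ K.Th o T := by
  refine le_trans ?_ (K.Th_mono o 0 T (Nat.zero_le T))
  simp [Th, hk]

theorem Th_inv (o o' : V) (T : ℕ) : K.Th o T = K.Th o' T := by
  unfold Th
  exact Finset.sum_congr rfl fun c _ => by rw [K.hk_diag c o o']

/-- counting pairs with a given sum -/
theorem sum_pairs_le (f : ℕ → ℝ) (hf : ∀ m, 0 ≤ f m) (T r : ℕ) :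
    ∑ i ∈ range (r + 1), ∑ c ∈ range (T + 1), f (i + c)
      ≤ ∑ m ∈ range (T + r + 1), ((m : ℝ) + 1) * f m := by
  have h1 : ∀ i ∈ range (r + 1), ∑ c ∈ range (T + 1), f (i + c)
      ≤ ∑ m ∈ range (T + r + 1), if i ≤ m then f m else 0 := by
    intro i hi
    rw [← Finset.sum_filter]
    have h2 : ∑ c ∈ range (T + 1), f (i + c) = ∑ m ∈ (range (T + 1)).image (fun c => i + c), f m := by
      rw [Finset.sum_image]
      intro a _ b _ hab
      simpa using hab
    rw [h2]
    refine Finset.sum_le_sum_of_subset_of_nonneg ?_ fun c _ _ => hf c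
    intro m hm
    simp only [Finset.mem_image, Finset.mem_range, Finset.mem_filter] at hm hi ⊢
    obtain ⟨c, hc, rfl⟩ := hm
    constructor <;> omega
  refine le_trans (Finset.sum_le_sum h1) ?_
  rw [Finset.sum_comm]
  refine Finset.sum_le_sum fun m _ => ?_
  rw [← Finset.sum_filter, Finset.sum_const, nsmul_eq_mul]
  refine mul_le_mul_of_nonneg_right ?_ (hf m)
  have h3 : (filter (fun i => i ≤ m) (range (r + 1))).card ≤ m + 1 := by
    calc (filter (fun i => i ≤ m) (range (r + 1))).card ≤ (range (m + 1)).card := by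
          refine Finset.card_le_card ?_
          intro i hi
          simp only [Finset.mem_filter, Finset.mem_range] at hi ⊢
          omega
      _ = m + 1 := Finset.card_range _
  exact_mod_cast h3

/-- expected number of hits of `o` -/
theorem U_succ (T r : ℕ) (o x : V) :
    K.EW (r + 1) x (fun w => K.hits T o (w ++ [x]))
      = K.gr T o x + ∑ y, K.P x y * K.EW r y (fun w => K.hits T o (w ++ [y])) := by
  have h1 : K.EW (r + 1) x (fun w => K.hits T o (w ++ [x]))
      = K.EW (r + 1) x (fun w => K.gr T o x + K.hits T o w) := by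
    refine K.EW_congr _ _ _ _ fun w _ => ?_
    rw [hits_append, hits_cons, hits_nil]; ring
  rw [h1, EW_add, EW_const, EW_succ]
  simp only [smul_eq_mul]

theorem U_eq (T r : ℕ) (o : V) : ∀ x : V,
    K.EW r x (fun w => K.hits T o (w ++ [x]))
      = ∑ i ∈ range (r + 1), ∑ c ∈ range (T + 1), K.hk (i + c) x o := by
  induction r with
  | zero =>
    intro x
    rw [EW_zero]
    simp only [List.nil_append, hits_cons, hits_nil, add_zero, zero_add, Finset.range_one,
      Finset.sum_singleton, gr]
    exact Finset.sum_congr rfl fun c _ => K.hk_symm c o x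
  | succ r ih =>
    intro x
    rw [U_succ, Finset.sum_range_succ', add_comm]
    congr 1
    · simp only [ih, Finset.mul_sum]
      rw [Finset.sum_comm]
      refine Finset.sum_congr rfl fun i _ => ?_
      rw [Finset.sum_comm]
      refine Finset.sum_congr rfl fun c _ => ?_
      have : i + 1 + c = (i + c) + 1 := by ring
      rw [this]
      rfl
    · simp only [zero_add, gr]
      exact Finset.sum_congr rfl fun c _ => K.hk_symm c o x

theorem U_nonneg (T r : ℕ) (o x : V) : 0 ≤ K.EW r x (fun w => K.hits T o (w ++ [x])) :=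
  K.EW_nonneg _ _ _ fun w _ => K.hits_nonneg T o _

theorem U_le (T r : ℕ) (o x : V) :
    K.EW r x (fun w => K.hits T o (w ++ [x])) ≤ 2 * K.Th o (T + r) := by
  rw [U_eq]
  refine le_trans (sum_pairs_le (fun m => K.hk m x o) (fun m => K.hk_nonneg m x o) T r) ?_
  unfold Th
  rw [Finset.mul_sum]
  refine Finset.sum_le_sum fun m _ => ?_
  have h := K.hk_le_two m x o o
  have h2 : (0 : ℝ) ≤ (m : ℝ) + 1 := by positivity
  nlinarith [mul_le_mul_of_nonneg_left h h2]

theorem U_le_self (T r : ℕ) (o : V) :
    K.EW r o (fun w => K.hits T o (w ++ [o])) ≤ K.Th o (T + r) := by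
  rw [U_eq]
  exact sum_pairs_le (fun m => K.hk m o o) (fun m => K.hk_nonneg m o o) T r

/-- sum of squares -/
def hit2 (T : ℕ) (x : V) (w : List V) : ℝ := (w.map (fun y => K.gr T x y ^ 2)).sum

theorem hit2_nonneg (T : ℕ) (x : V) (w : List V) : 0 ≤ K.hit2 T x w := by
  induction w with
  | nil => simp [hit2]
  | cons y w ih =>
    have : K.hit2 T x (y :: w) = K.gr T x y ^ 2 + K.hit2 T x w := by simp [hit2]
    rw [this]; positivity

/-- ordered pair sum -/
noncomputable def pr (T : ℕ) (x : V) (w : List V) : ℝ := (K.hits T x w ^ 2 + K.hit2 T x w) / 2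

theorem pr_concat (T : ℕ) (o x : V) (w : List V) :
    K.pr T o (w ++ [x]) = K.gr T o x * K.hits T o (w ++ [x]) + K.pr T o w := by
  have h : K.hit2 T o (w ++ [x]) = K.hit2 T o w + K.gr T o x ^ 2 := by simp [hit2]
  unfold pr
  rw [h, hits_append, hits_cons, hits_nil]
  ring

theorem W_le (T : ℕ) (o : V) (B : ℝ) (R : ℕ)
    (hB : ∀ r ≤ R, ∀ x, K.EW r x (fun w => K.hits T o (w ++ [x])) ≤ B) (r : ℕ) (hr : r ≤ R) :
    ∀ x, K.EW r x (fun w => K.pr T o (w ++ [x]))
      ≤ B * K.EW r x (fun w => K.hits T o (w ++ [x])) := by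
  induction r with
  | zero =>
    intro x
    have h0 := hB 0 (Nat.zero_le R) x
    rw [EW_zero] at h0 ⊢
    rw [EW_zero]
    simp only [List.nil_append] at h0 ⊢
    have h1 : K.pr T o [x] = K.gr T o x * K.hits T o [x] := by
      have := K.pr_concat T o x []
      simpa [pr, hits, hit2] using this
    have h2 : K.hits T o [x] = K.gr T o x := by simp [hits]
    rw [h1, h2]
    rw [h2] at h0
    exact mul_le_mul_of_nonneg_right h0 (K.gr_nonneg T o x)
  | succ r ih =>
    intro x
    have ih' := ih (by omega)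
    have h1 : K.EW (r + 1) x (fun w => K.pr T o (w ++ [x]))
        = K.gr T o x * K.EW (r + 1) x (fun w => K.hits T o (w ++ [x]))
          + ∑ y, K.P x y * K.EW r y (fun w => K.pr T o (w ++ [y])) := by
      have : K.EW (r + 1) x (fun w => K.pr T o (w ++ [x]))
          = K.EW (r + 1) x (fun w => K.gr T o x * K.hits T o (w ++ [x]) + K.pr T o w) :=
        K.EW_congr _ _ _ _ fun w _ => K.pr_concat T o x w
      rw [this, EW_add, EW_mul_left, EW_succ (F := fun w => K.pr T o w)]
      simp only [smul_eq_mul]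
    have h2 : K.gr T o x * K.EW (r + 1) x (fun w => K.hits T o (w ++ [x])) ≤ K.gr T o x * B :=
      mul_le_mul_of_nonneg_left (hB (r + 1) hr x) (K.gr_nonneg T o x)
    have h3 : ∑ y, K.P x y * K.EW r y (fun w => K.pr T o (w ++ [y]))
        ≤ ∑ y, B * (K.P x y * K.EW r y (fun w => K.hits T o (w ++ [y]))) := by
      refine Finset.sum_le_sum fun y _ => ?_
      have := mul_le_mul_of_nonneg_left (ih' y) (K.nn x y)
      linarith
    rw [h1, U_succ, mul_add]
    rw [← Finset.mul_sum] at h3
    rw [U_succ] at h2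
    linarith

/-- reversal of the walk for functions of the number of hits -/
theorem hits_rev (o : V) (T r : ℕ) (φ : ℝ → ℝ) :
    K.EW r o (fun w => φ (K.hits T (tip o w) (w ++ [o])))
      = K.EW r o (fun w => φ (K.hits T o (w ++ [o]))) := by
  have key := K.EW_rev_inv (fun L => φ (match L with
    | [] => 0
    | v :: L' => K.hits T v (v :: L'))) (by
      intro g hg L
      cases L with
      | nil => rfl
      | cons v L' =>
        have := K.hits_auto g hg T v (v :: L')
        simp only [List.map_cons] at this ⊢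
        rw [this]) r o
  have h1 : K.EW r o (fun w => φ (K.hits T (tip o w) (w ++ [o])))
      = K.EW r o (fun w => φ (match w ++ [o] with
        | [] => 0
        | v :: L' => K.hits T v (v :: L'))) := by
    refine K.EW_congr _ _ _ _ fun w _ => ?_
    cases w with
    | nil => simp
    | cons a w' => simp
  have h2 : K.EW r o (fun w => φ (K.hits T o (w ++ [o])))
      = K.EW r o (fun w => φ (match (w ++ [o]).reverse with
        | [] => 0
        | v :: L' => K.hits T v (v :: L'))) := by
    refine K.EW_congr _ _ _ _ fun w _ => ?_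
    have : K.hits T o (w ++ [o]) = K.hits T o ((w ++ [o]).reverse) := (K.hits_reverse T o _).symm
    rw [this]
    simp
  rw [h1, h2]
  exact key

theorem E_hits (o : V) (T r : ℕ) :
    K.EW r o (fun w => K.hits T (tip o w) (w ++ [o])) ≤ K.Th o (T + r) := by
  have h := K.hits_rev o T r (fun t => t)
  rw [h]
  exact K.U_le_self T r o

theorem E_hits_sq (o : V) (T r : ℕ) :
    K.EW r o (fun w => K.hits T (tip o w) (w ++ [o]) ^ 2) ≤ 4 * K.Th o (T + r) ^ 2 := by
  have h := K.hits_rev o T r (fun t => t ^ 2)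
  rw [h]
  have hB : ∀ r' ≤ r, ∀ x, K.EW r' x (fun w => K.hits T o (w ++ [x])) ≤ 2 * K.Th o (T + r) := by
    intro r' hr' x
    refine le_trans (K.U_le T r' o x) ?_
    have := K.Th_mono o (T + r') (T + r) (by omega)
    linarith
  have hW := K.W_le T o (2 * K.Th o (T + r)) r hB r le_rfl o
  have hU := K.U_le_self T r o
  have hTh := K.one_le_Th o (T + r)
  have h2 : K.EW r o (fun w => K.hits T o (w ++ [o]) ^ 2)
      ≤ K.EW r o (fun w => 2 * K.pr T o (w ++ [o])) := by
    refine K.EW_mono _ _ _ _ fun w _ => ?_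
    have := K.hit2_nonneg T o (w ++ [o])
    unfold pr
    linarith
  rw [EW_mul_left] at h2
  nlinarith

end Ker

end HP192
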