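import Mathlib
import Pool.Agent.Helper192_HP.Defs
import Pool.Agent.Helper192_HP.WDefs
import Pool.Agent.Helper192_HP.Basic
import Pool.Agent.Helper192_HP.W01
import Pool.Agent.Helper192_HP.W02

namespace HP192
open Finset

-- helper lemmas for the target

/-- split at the newest member of `L2` -/
theorem nq_split {V : Type} (L1 L2 : List V) (h : ∃ x ∈ L1, x ∈ L2) :
    ∃ C v B, L1 = C ++ v :: B ∧ v ∈ L2 ∧ ∀ a ∈ C, a ∉ L2 := by
  induction L1 with
  | nil =>
    obtain ⟨x, hx, _⟩ := h
    simp at hx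
  | cons a L ih =>
    by_cases ha : a ∈ L2
    · exact ⟨[], a, L, rfl, ha, by simp⟩
    · have h' : ∃ x ∈ L, x ∈ L2 := by
        obtain ⟨x, hx, hx2⟩ := h
        rcases List.mem_cons.1 hx with rfl | hx
        · exact absurd hx2 ha
        · exact ⟨x, hx, hx2⟩
      obtain ⟨C, v, B, h1, h2, h3⟩ := ih h'
      refine ⟨a :: C, v, B, by rw [h1]; rfl, h2, ?_⟩
      intro b hb
      rcases List.mem_cons.1 hb with rfl | hb
      · exact ha
      · exact h3 b hb

theorem nq_takedrop {V : Type} (w : List V) (o : V) (n : ℕ) (hw : w.length = n) (C B : List V) (v : V)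
    (h : w ++ [o] = C ++ v :: B) :
    B.length ≤ n ∧ w.take (n - B.length) = C ∧ tip o (w.drop (n - B.length)) = v := by
  have hlen := congrArg List.length h
  simp only [List.length_append, List.length_cons, List.length_nil] at hlen
  have hB : B.length ≤ n := by omega
  have hC : C.length = n - B.length := by omega
  have hCw : C.length ≤ w.length := by omega
  refine ⟨hB, ?_, ?_⟩
  · rw [← hC]
    have h1 : (w ++ [o]).take C.length = w.take C.length := List.take_append_of_le_length hCw
    rw [← h1, h]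
    simp
  · rw [← hC]
    have h1 : (w ++ [o]).drop C.length = w.drop C.length ++ [o] := List.drop_append_of_le_length hCw
    have h2 : (w ++ [o]).drop C.length = v :: B := by
      rw [h]
      simp
    rw [h1] at h2
    cases hd : w.drop C.length with
    | nil =>
      rw [hd] at h2
      simp at h2
      simp [h2.1]
    | cons a l =>
      rw [hd] at h2
      simp at h2
      simp [h2.1]

namespace Ker
variable {V : Type} [Fintype V] [DecidableEq V] (K : Ker V)

theorem nq_swap (s t : ℕ) (x y : V) (F : List V → List V → ℝ) :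
    K.EW s x (fun w => K.EW t y (fun w' => F w w')) = K.EW t y (fun w' => K.EW s x (fun w => F w w')) := by
  induction s generalizing x F with
  | zero =>
    simp only [EW_zero]
  | succ s ih =>
    rw [EW_succ]
    have h1 : ∀ z, K.P x z • K.EW s z (fun w => K.EW t y (fun w' => F (w ++ [z]) w')) =
        K.EW t y (fun w' => K.P x z • K.EW s z (fun w => F (w ++ [z]) w')) := by
      intro z
      rw [ih z (fun w w' => F (w ++ [z]) w'), EW_smul]
    rw [Finset.sum_congr rfl fun z _ => h1 z, ← EW_sum]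
    rfl

end Ker

-- TARGET
namespace Ker
variable {V : Type} [Fintype V] [DecidableEq V] (K : Ker V)

theorem nq_anti (o : V) (a b a' b' : ℕ) (ha : a ≤ a') (hb : b ≤ b') :
    K.nq o a' b' ≤ K.nq o a b := by
  classical
  have h1 : K.nq o a' b' ≤ K.nq o a' b := by
    unfold nq
    refine K.EW_mono a' o _ _ fun w _ => ?_
    obtain ⟨c, rfl⟩ := Nat.exists_eq_add_of_le hb
    rw [EW_append]
    refine K.EW_mono b o _ _ fun w1 _ => ?_
    refine K.EW_le_const c _ _ _ fun w2 _ => ?_
    split_ifs with h2 h3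
    · exact le_rfl
    · exact absurd (fun y hy => h2 y (List.mem_append_right _ hy)) h3
    · exact zero_le_one
    · exact le_rfl
  refine h1.trans ?_
  unfold nq
  obtain ⟨c, rfl⟩ := Nat.exists_eq_add_of_le ha
  rw [EW_append]
  refine K.EW_mono a o _ _ fun w1 _ => ?_
  refine K.EW_le_const c _ _ _ fun w2 _ => ?_
  refine K.EW_mono b o _ _ fun w' _ => ?_
  split_ifs with h2 h3
  · exact le_rfl
  · refine absurd (fun y hy h => h2 y hy ?_) h3
    rw [List.append_assoc]
    exact List.mem_append_right _ h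
  · exact zero_le_one
  · exact le_rfl

theorem nq_nonneg (o : V) (a b : ℕ) : 0 ≤ K.nq o a b := by
  unfold nq
  refine K.EW_nonneg a o _ fun w _ => K.EW_nonneg b o _ fun w' _ => ?_
  split_ifs
  · exact zero_le_one
  · exact le_rfl

theorem nq_le_one (o : V) (a b : ℕ) : K.nq o a b ≤ 1 := by
  unfold nq
  refine K.EW_le_const a o _ _ fun w _ => K.EW_le_const b o _ _ fun w' _ => ?_
  split_ifs
  · exact le_rfl
  · exact zero_le_one

theorem nq_inv (o o' : V) (a b : ℕ) : K.nq o a b = K.nq o' a b := by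
  obtain ⟨g, rfl, hg⟩ := K.tr o o'
  unfold nq
  rw [K.EW_auto g hg]
  congr 1
  funext w
  rw [K.EW_auto g hg]
  congr 1
  funext w'
  have h : (∀ y ∈ w'.map g, y ∉ w.map g ++ [g o]) ↔ ∀ y ∈ w', y ∉ w ++ [o] := by
    have h0 : w.map g ++ [g o] = (w ++ [o]).map g := by simp
    rw [h0]
    constructor
    · intro h y hy hy2
      exact h (g y) (List.mem_map_of_mem hy) (List.mem_map_of_mem hy2)
    · intro h y hy hy2
      obtain ⟨z, hz, rfl⟩ := List.mem_map.1 hy
      obtain ⟨z', hz', hzz⟩ := List.mem_map.1 hy2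
      rw [g.injective hzz] at hz'
      exact h z hz hz'
  by_cases hc : ∀ y ∈ w', y ∉ w ++ [o]
  · rw [if_pos hc, if_pos (h.2 hc)]
  · rw [if_neg hc, if_neg (fun h' => hc (h.1 h'))]

open Classical in
/-- the event of a last common visit at the times `s`, `t` -/
noncomputable def nqD (o : V) (n s t : ℕ) (w1 w2 : List V) : ℝ :=
  if tip o (w1.drop (n - s)) = tip o (w2.drop (n - t)) ∧
    ∀ y ∈ w2.take (n - t), y ∉ w1.take (n - s) ++ [tip o (w1.drop (n - s))] then 1 else 0

theorem nqD_sum (o : V) (n : ℕ) (w1 w2 : List V) (h1 : w1.length = n) (h2 : w2.length = n) :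
    1 ≤ ∑ s ∈ range (n + 1), ∑ t ∈ range (n + 1), nqD o n s t w1 w2 := by
  classical
  obtain ⟨C1, v, B1, e1, hv, hC1⟩ := nq_split (w1 ++ [o]) (w2 ++ [o]) ⟨o, by simp, by simp⟩
  obtain ⟨C2, v', B2, e2, hv', hC2⟩ := nq_split (w2 ++ [o]) [v] ⟨v, hv, by simp⟩
  have hvv : v' = v := by simpa using hv'
  subst hvv
  obtain ⟨hB1, ht1, hd1⟩ := nq_takedrop w1 o n h1 C1 B1 v' e1
  obtain ⟨hB2, ht2, hd2⟩ := nq_takedrop w2 o n h2 C2 B2 v' e2
  have hnn : ∀ s t, 0 ≤ nqD o n s t w1 w2 := by
    intro s t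
    unfold nqD
    split_ifs
    · exact zero_le_one
    · exact le_rfl
  have hone : nqD o n B1.length B2.length w1 w2 = 1 := by
    unfold nqD
    rw [if_pos]
    rw [ht1, ht2, hd1, hd2]
    refine ⟨rfl, ?_⟩
    intro y hy hy2
    rcases List.mem_append.1 hy2 with h | h
    · apply hC1 y h
      rw [e2]
      exact List.mem_append_left _ hy
    · exact hC2 y hy h
  have hs : nqD o n B1.length B2.length w1 w2 ≤ ∑ t ∈ range (n + 1), nqD o n B1.length t w1 w2 :=
    Finset.single_le_sum (f := fun t => nqD o n B1.length t w1 w2) (fun t _ => hnn _ t)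
      (Finset.mem_range.2 (Nat.lt_succ_of_le hB2))
  have ht : (∑ t ∈ range (n + 1), nqD o n B1.length t w1 w2) ≤
      ∑ s ∈ range (n + 1), ∑ t ∈ range (n + 1), nqD o n s t w1 w2 :=
    Finset.single_le_sum (f := fun s => ∑ t ∈ range (n + 1), nqD o n s t w1 w2)
      (fun s _ => Finset.sum_nonneg fun t _ => hnn s t) (Finset.mem_range.2 (Nat.lt_succ_of_le hB1))
  linarith

theorem nqD_EW (o : V) (n s t : ℕ) (hs : s ≤ n) (ht : t ≤ n) :
    K.EW n o (fun w1 => K.EW n o (fun w2 => nqD o n s t w1 w2)) =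
      K.hk (s + t) o o * K.nq o (n - s) (n - t) := by
  classical
  set c : ℝ := K.nq o (n - s) (n - t) with hc
  have e1 : ∀ F : List V → ℝ, K.EW n o F =
      K.EW s o (fun u => K.EW (n - s) (tip o u) (fun c => F (c ++ u))) := by
    intro F
    conv_lhs => rw [show n = s + (n - s) by omega]
    rw [EW_append]
  have e2 : ∀ F : List V → ℝ, K.EW n o F =
      K.EW t o (fun u => K.EW (n - t) (tip o u) (fun c => F (c ++ u))) := by
    intro F
    conv_lhs => rw [show n = t + (n - t) by omega]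
    rw [EW_append]
  rw [e1]
  have h1 : ∀ u1 : List V,
      K.EW (n - s) (tip o u1) (fun c1 => K.EW n o (fun w2 => nqD o n s t (c1 ++ u1) w2)) =
      K.hk t o (tip o u1) * c := by
    intro u1
    have h2 : K.EW (n - s) (tip o u1) (fun c1 => K.EW n o (fun w2 => nqD o n s t (c1 ++ u1) w2)) =
        K.EW (n - s) (tip o u1) (fun c1 => K.EW t o (fun u2 => K.EW (n - t) (tip o u2) (fun c2 =>
          if tip o u1 = tip o u2 ∧ ∀ y ∈ c2, y ∉ c1 ++ [tip o u1] then (1 : ℝ) else 0))) := by
      refine K.EW_congr _ _ _ _ fun c1 hc1 => ?_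
      rw [e2]
      refine K.EW_congr _ _ _ _ fun u2 hu2 => ?_
      refine K.EW_congr _ _ _ _ fun c2 hc2 => ?_
      unfold nqD
      have a1 : (c1 ++ u1).drop (n - s) = u1 := by rw [← hc1]; simp
      have a2 : (c1 ++ u1).take (n - s) = c1 := by rw [← hc1]; simp
      have a3 : (c2 ++ u2).drop (n - t) = u2 := by rw [← hc2]; simp
      have a4 : (c2 ++ u2).take (n - t) = c2 := by rw [← hc2]; simp
      rw [a1, a2, a3, a4]
    rw [h2, nq_swap]
    have h3 : ∀ u2 : List V, K.EW (n - s) (tip o u1) (fun c1 => K.EW (n - t) (tip o u2) (fun c2 =>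
          if tip o u1 = tip o u2 ∧ ∀ y ∈ c2, y ∉ c1 ++ [tip o u1] then (1 : ℝ) else 0)) =
        (if tip o u2 = tip o u1 then (1 : ℝ) else 0) * c := by
      intro u2
      by_cases hv : tip o u2 = tip o u1
      · rw [if_pos hv, one_mul, hc, K.nq_inv o (tip o u1)]
        unfold nq
        rw [hv]
        refine K.EW_congr _ _ _ _ fun c1 _ => K.EW_congr _ _ _ _ fun c2 _ => ?_
        by_cases hq : ∀ y ∈ c2, y ∉ c1 ++ [tip o u1]
        · rw [if_pos ⟨rfl, hq⟩, if_pos hq]
        · rw [if_neg (fun h => hq h.2), if_neg hq]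
      · rw [if_neg hv, zero_mul]
        have : (fun c1 : List V => K.EW (n - t) (tip o u2) (fun c2 : List V =>
          if tip o u1 = tip o u2 ∧ ∀ y ∈ c2, y ∉ c1 ++ [tip o u1] then (1 : ℝ) else 0)) =
          fun _ => (0 : ℝ) := by
          funext c1
          have h4 : (fun c2 : List V =>
            if tip o u1 = tip o u2 ∧ ∀ y ∈ c2, y ∉ c1 ++ [tip o u1] then (1 : ℝ) else 0) =
            fun _ => (0 : ℝ) := by
            funext c2
            rw [if_neg (fun h => hv h.1.symm)]
          rw [h4, EW_zero_fun]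
        rw [this, EW_zero_fun]
    simp_rw [h3]
    rw [EW_mul_right, hk_eq_EW]
  simp_rw [h1]
  rw [EW_mul_right]
  congr 1
  rw [K.EW_tip s o (fun y => K.hk t o y), K.hk_add]
  refine Finset.sum_congr rfl fun y _ => ?_
  rw [smul_eq_mul, K.hk_symm t o y]

theorem nq_last (o : V) (T : ℕ) :
    1 ≤ ∑ s ∈ range (2 * T + 1), ∑ t ∈ range (2 * T + 1),
      K.hk (s + t) o o * K.nq o (2 * T - s) (2 * T - t) := by
  have h1 : K.EW (2 * T) o (fun _ => K.EW (2 * T) o (fun _ => (1 : ℝ))) = 1 := by
    rw [EW_const, EW_const]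
  have h2 : K.EW (2 * T) o (fun _ => K.EW (2 * T) o (fun _ => (1 : ℝ))) ≤
      K.EW (2 * T) o (fun w1 => K.EW (2 * T) o (fun w2 =>
        ∑ s ∈ range (2 * T + 1), ∑ t ∈ range (2 * T + 1), nqD o (2 * T) s t w1 w2)) := by
    refine K.EW_mono _ _ _ _ fun w1 hw1 => K.EW_mono _ _ _ _ fun w2 hw2 => ?_
    exact nqD_sum o (2 * T) w1 w2 hw1 hw2
  rw [h1] at h2
  refine h2.trans (le_of_eq ?_)
  simp_rw [EW_sum]
  refine Finset.sum_congr rfl fun s hs => Finset.sum_congr rfl fun t ht => ?_
  rw [Finset.mem_range] at hs ht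
  exact K.nqD_EW o (2 * T) s t (by omega) (by omega)

theorem nonint_th (h : ℕ → ℝ) (hh : ∀ c, 0 ≤ h c) (T : ℕ) :
    ∑ s ∈ range (T + 1), ∑ t ∈ range (T + 1), h (s + t) ≤ ∑ c ∈ range (2 * T + 1), ((c : ℝ) + 1) * h c := by
  have h1 : ∀ s ∈ range (T + 1), ∑ t ∈ range (T + 1), h (s + t) ≤
      ∑ c ∈ range (2 * T + 1), if s ≤ c then h c else 0 := by
    intro s hs
    rw [Finset.mem_range] at hs
    rw [← Finset.sum_filter]
    have h2 : ∑ t ∈ range (T + 1), h (s + t) = ∑ c ∈ (range (T + 1)).image (fun t => s + t), h c := by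
      rw [Finset.sum_image]
      intro a _ b _ hab
      exact Nat.add_left_cancel hab
    rw [h2]
    refine Finset.sum_le_sum_of_subset_of_nonneg ?_ fun c _ _ => hh c
    intro c hc
    rw [Finset.mem_image] at hc
    obtain ⟨t, ht, rfl⟩ := hc
    rw [Finset.mem_range] at ht
    rw [Finset.mem_filter, Finset.mem_range]
    omega
  refine (Finset.sum_le_sum h1).trans ?_
  rw [Finset.sum_comm]
  refine Finset.sum_le_sum fun c _ => ?_
  rw [← Finset.sum_filter, Finset.sum_const, nsmul_eq_mul]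
  apply mul_le_mul_of_nonneg_right _ (hh c)
  have h3 : ((range (T + 1)).filter (fun s => s ≤ c)).card ≤ c + 1 := by
    have h4 : (range (T + 1)).filter (fun s => s ≤ c) ⊆ range (c + 1) := by
      intro s hs
      rw [Finset.mem_filter] at hs
      rw [Finset.mem_range]
      omega
    have h5 := Finset.card_le_card h4
    rwa [Finset.card_range] at h5
  exact_mod_cast h3

theorem nonint (o : V) (T m0 : ℕ) (κ : ℝ) (h2 : ∀ x y, K.hk m0 x y ≤ κ) (hm : m0 ≤ T)
    (hκ : κ * (2 * (T : ℝ) + 1) ^ 2 ≤ 1 / 2) :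
    1 / (2 * K.Th o (2 * T)) ≤ K.nq o T T := by
  have hκ0 : 0 ≤ κ := (K.hk_nonneg m0 o o).trans (h2 o o)
  have hq0 := K.nq_nonneg o T T
  have h1 := K.nq_last o T
  have h3 : ∀ s ∈ range (2 * T + 1), ∀ t ∈ range (2 * T + 1),
      K.hk (s + t) o o * K.nq o (2 * T - s) (2 * T - t) ≤
        (if s ∈ range (T + 1) ∧ t ∈ range (T + 1) then K.hk (s + t) o o * K.nq o T T else 0) + κ := by
    intro s hs t ht
    have hh := K.hk_nonneg (s + t) o o
    split_ifs with h
    · rw [Finset.mem_range, Finset.mem_range] at h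
      have h4 := K.nq_anti o T T (2 * T - s) (2 * T - t) (by omega) (by omega)
      have h5 := mul_le_mul_of_nonneg_left h4 hh
      linarith
    · rw [Finset.mem_range, Finset.mem_range] at h
      have h4 : K.hk (s + t) o o ≤ κ := K.hk_mix m0 κ h2 (s + t) (by omega) o o
      have h5 := K.nq_le_one o (2 * T - s) (2 * T - t)
      have h6 := K.nq_nonneg o (2 * T - s) (2 * T - t)
      have h7 : K.hk (s + t) o o * K.nq o (2 * T - s) (2 * T - t) ≤ K.hk (s + t) o o * 1 :=
        mul_le_mul_of_nonneg_left h5 hh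
      linarith
  have h4 : ∑ s ∈ range (2 * T + 1), ∑ t ∈ range (2 * T + 1),
      K.hk (s + t) o o * K.nq o (2 * T - s) (2 * T - t) ≤
      K.Th o (2 * T) * K.nq o T T + κ * (2 * (T : ℝ) + 1) ^ 2 := by
    refine (Finset.sum_le_sum fun s hs => Finset.sum_le_sum fun t ht => h3 s hs t ht).trans ?_
    simp_rw [Finset.sum_add_distrib]
    refine add_le_add ?_ ?_
    · have h5 : ∑ s ∈ range (2 * T + 1), ∑ t ∈ range (2 * T + 1),
          (if s ∈ range (T + 1) ∧ t ∈ range (T + 1) then K.hk (s + t) o o * K.nq o T T else 0) =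
          (∑ s ∈ range (T + 1), ∑ t ∈ range (T + 1), K.hk (s + t) o o) * K.nq o T T := by
        rw [Finset.sum_mul]
        have hsub : range (T + 1) ⊆ range (2 * T + 1) := by
          intro a ha
          rw [Finset.mem_range] at ha ⊢
          omega
        rw [← Finset.sum_subset hsub]
        · refine Finset.sum_congr rfl fun s hs => ?_
          rw [Finset.sum_mul]
          rw [← Finset.sum_subset hsub]
          · refine Finset.sum_congr rfl fun t ht => ?_
            rw [if_pos ⟨hs, ht⟩]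
          · intro t _ ht
            rw [if_neg (fun h => ht h.2)]
        · intro s _ hs
          refine Finset.sum_eq_zero fun t _ => ?_
          rw [if_neg (fun h => hs h.1)]
      rw [h5]
      apply mul_le_mul_of_nonneg_right _ hq0
      exact nonint_th (fun c => K.hk c o o) (fun c => K.hk_nonneg c o o) T
    · rw [Finset.sum_const, Finset.sum_const, Finset.card_range, nsmul_eq_mul, nsmul_eq_mul]
      push_cast
      apply le_of_eq
      ring
  have h5 : 1 / 2 ≤ K.Th o (2 * T) * K.nq o T T := by linarith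
  have hTh : 0 < K.Th o (2 * T) := by
    by_contra h
    push Not at h
    have := mul_nonpos_of_nonpos_of_nonneg h hq0
    linarith
  rw [div_le_iff₀ (by linarith)]
  linarith

end Ker

end HP192
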