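import Mathlib
import Pool.Agent.Helper192_HP.Defs
import Pool.Agent.Helper192_HP.WDefs

namespace HP192
open Finset

private lemma arc_int (S : Finset ℤ) (D : ℝ) (hD : 0 ≤ D)
    (h : ∀ a ∈ S, ∀ b ∈ S, (a : ℝ) - b ≤ D) : (S.card : ℝ) ≤ D + 1 := by
  rcases S.eq_empty_or_nonempty with rfl | hne
  · simp only [card_empty, Nat.cast_zero]
    linarith
  · have h1 : S ⊆ Finset.Icc (S.min' hne) (S.max' hne) := fun x hx =>
      Finset.mem_Icc.2 ⟨S.min'_le x hx, S.le_max' x hx⟩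
    have h2 := Finset.card_le_card h1
    rw [Int.card_Icc] at h2
    have h3 := h _ (S.max'_mem hne) _ (S.min'_mem hne)
    have h4 : S.min' hne ≤ S.max' hne := S.min'_le _ (S.max'_mem hne)
    have h5 : (S.card : ℤ) ≤ S.max' hne + 1 - S.min' hne := by omega
    have h6 : ((S.card : ℤ) : ℝ) ≤ ((S.max' hne + 1 - S.min' hne : ℤ) : ℝ) := by exact_mod_cast h5
    push_cast at h6
    linarith

private lemma arc_near (x w0 : ℝ) (hw' : w0 ≤ Real.pi) (h0 : 0 ≤ w0)
    (h : Real.cos w0 ≤ Real.cos x) : |x - 2 * Real.pi * (round (x / (2 * Real.pi)) : ℤ)| ≤ w0 := by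
  have hpi := Real.pi_pos
  set j : ℤ := round (x / (2 * Real.pi)) with hj
  have h1 : |x / (2 * Real.pi) - j| ≤ 1 / 2 := abs_sub_round _
  have h2 : x - 2 * Real.pi * j = 2 * Real.pi * (x / (2 * Real.pi) - j) := by
    field_simp
  have h3 : |x - 2 * Real.pi * j| ≤ Real.pi := by
    rw [h2, abs_mul, abs_of_pos (by positivity : (0:ℝ) < 2 * Real.pi)]
    nlinarith
  have h4 : Real.cos |x - 2 * Real.pi * j| = Real.cos x := by
    rw [Real.cos_abs, show x - 2 * Real.pi * (j : ℝ) = x - (j : ℝ) * (2 * Real.pi) by ring]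
    exact Real.cos_sub_int_mul_two_pi x j
  by_contra hcon
  push Not at hcon
  have := Real.cos_lt_cos_of_nonneg_of_le_pi h0 h3 hcon
  rw [h4] at this
  linarith

/-- TARGET -/
theorem arc_count (N : ℕ) (θ w0 ζ : ℝ) (hθ : θ ≠ 0) (hw : 0 ≤ w0) (hw' : w0 ≤ Real.pi) :
    (((range (N + 1)).filter (fun k : ℕ => Real.cos w0 ≤ Real.cos ((k : ℝ) * θ - ζ))).card : ℝ)
      ≤ ((N : ℝ) * |θ| / (2 * Real.pi) + 2) * (2 * w0 / |θ| + 1) := by
  classical
  have hpi := Real.pi_pos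
  have hθ0 : 0 < |θ| := abs_pos.2 hθ
  set A := (range (N + 1)).filter (fun k : ℕ => Real.cos w0 ≤ Real.cos ((k : ℝ) * θ - ζ)) with hA
  let f : ℕ → ℤ := fun k => round (((k : ℝ) * θ - ζ) / (2 * Real.pi))
  have hf : ∀ k ∈ A, |((k : ℝ) * θ - ζ) - 2 * Real.pi * (f k : ℝ)| ≤ w0 := fun k hk =>
    arc_near _ w0 hw' hw (Finset.mem_filter.1 hk).2
  have hD2 : 0 ≤ 2 * w0 / |θ| := by positivity
  have hD1 : 0 ≤ (N : ℝ) * |θ| / (2 * Real.pi) + 1 := by positivity
  -- the number of integers `j`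
  have hJ : ((A.image f).card : ℝ) ≤ ((N : ℝ) * |θ| / (2 * Real.pi) + 1) + 1 := by
    refine arc_int _ _ hD1 ?_
    intro a ha b hb
    obtain ⟨k, hk, rfl⟩ := Finset.mem_image.1 ha
    obtain ⟨l, hl, rfl⟩ := Finset.mem_image.1 hb
    have h1 := abs_le.1 (hf k hk)
    have h2 := abs_le.1 (hf l hl)
    have hkN : (k : ℝ) ≤ N := by
      have := Finset.mem_range.1 (Finset.mem_filter.1 hk).1
      exact_mod_cast Nat.lt_succ_iff.1 this
    have hlN : (l : ℝ) ≤ N := by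
      have := Finset.mem_range.1 (Finset.mem_filter.1 hl).1
      exact_mod_cast Nat.lt_succ_iff.1 this
    have h3 : ((k : ℝ) - l) * θ ≤ N * |θ| := by
      have h4 : |(k : ℝ) - l| ≤ N := by
        rw [abs_le]
        constructor
        · have : (0:ℝ) ≤ k := Nat.cast_nonneg _
          linarith
        · have : (0:ℝ) ≤ l := Nat.cast_nonneg _
          linarith
      calc ((k : ℝ) - l) * θ ≤ |((k : ℝ) - l) * θ| := le_abs_self _
        _ = |(k : ℝ) - l| * |θ| := abs_mul _ _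
        _ ≤ N * |θ| := mul_le_mul_of_nonneg_right h4 hθ0.le
    have h5 : 2 * Real.pi * ((f k : ℝ) - f l) ≤ N * |θ| + 2 * Real.pi := by nlinarith
    have h6 : (f k : ℝ) - f l ≤ (N * |θ| + 2 * Real.pi) / (2 * Real.pi) := by
      rw [le_div_iff₀ (by positivity)]
      linarith
    calc (f k : ℝ) - f l ≤ (N * |θ| + 2 * Real.pi) / (2 * Real.pi) := h6
      _ = (N : ℝ) * |θ| / (2 * Real.pi) + 1 := by field_simp
  -- the fibres
  have hfib : ∀ j ∈ A.image f, (A.filter fun k => f k = j).card ≤ ⌊2 * w0 / |θ| + 1⌋₊ := by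
    intro j _
    refine Nat.le_floor ?_
    have hcard : ((A.filter fun k => f k = j).card : ℝ)
        = (((A.filter fun k => f k = j).image (fun k : ℕ => (k : ℤ))).card : ℝ) := by
      rw [Finset.card_image_of_injective _ Nat.cast_injective]
    rw [hcard]
    refine arc_int _ _ hD2 ?_
    intro a ha b hb
    obtain ⟨k, hk, rfl⟩ := Finset.mem_image.1 ha
    obtain ⟨l, hl, rfl⟩ := Finset.mem_image.1 hb
    have hk' := Finset.mem_filter.1 hk
    have hl' := Finset.mem_filter.1 hl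
    have h1 := abs_le.1 (hf k hk'.1)
    have h2 := abs_le.1 (hf l hl'.1)
    rw [hk'.2] at h1
    rw [hl'.2] at h2
    have h3 : |((k : ℝ) - l) * θ| ≤ 2 * w0 := by
      rw [abs_le]
      constructor <;> linarith
    rw [abs_mul] at h3
    have h4 : |(k : ℝ) - l| ≤ 2 * w0 / |θ| := by
      rw [le_div_iff₀ hθ0]
      exact h3
    have h5 := (le_abs_self ((k : ℝ) - l)).trans h4
    simpa using h5
  have hmain := Finset.card_le_mul_card_image (f := f) A ⌊2 * w0 / |θ| + 1⌋₊ hfib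
  have hmain' : (A.card : ℝ) ≤ (⌊2 * w0 / |θ| + 1⌋₊ : ℝ) * ((A.image f).card : ℝ) := by
    exact_mod_cast hmain
  have hfl : (⌊2 * w0 / |θ| + 1⌋₊ : ℝ) ≤ 2 * w0 / |θ| + 1 := Nat.floor_le (by linarith)
  calc (A.card : ℝ) ≤ (⌊2 * w0 / |θ| + 1⌋₊ : ℝ) * ((A.image f).card : ℝ) := hmain'
    _ ≤ (2 * w0 / |θ| + 1) * ((N : ℝ) * |θ| / (2 * Real.pi) + 2) := by
        apply mul_le_mul hfl (by linarith) (Nat.cast_nonneg _) (by linarith)
    _ = _ := mul_comm _ _

end HP192
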