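import Mathlib
import Pool.Agent.Helper192_HP.Defs
import Pool.Agent.Helper192_HP.WDefs
import Pool.Agent.Helper192_HP.Basic
import Pool.Agent.Helper192_HP.W01
import Pool.Agent.Helper192_HP.W02
import Pool.Agent.Helper192_HP.W07

namespace HP192
open Finset

-- TARGET
namespace Ker
variable {V : Type} [Fintype V] [DecidableEq V] (K : Ker V)

/-- probability that the walk from the head of the list avoids the list -/
noncomputable def Fav (b : ℕ) : List V → ℝ
  | [] => 0
  | z :: L => K.EW b z (fun w => if ∀ y ∈ w, y ∉ z :: L then (1 : ℝ) else 0)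

theorem Fav_inv (b : ℕ) (g : Equiv.Perm V) (hg : ∀ a b, K.P (g a) (g b) = K.P a b)
    (L : List V) : K.Fav b (L.map g) = K.Fav b L := by
  rcases L with _ | ⟨z, L⟩
  · rfl
  · show K.EW b (g z) (fun w => if ∀ y ∈ w, y ∉ g z :: L.map g then (1 : ℝ) else 0) =
      K.EW b z (fun w => if ∀ y ∈ w, y ∉ z :: L then (1 : ℝ) else 0)
    rw [K.EW_auto g hg]
    refine K.EW_congr b z _ _ ?_
    intro w _
    refine if_congr ?_ rfl rfl
    have hm : g z :: L.map g = (z :: L).map g := rfl
    rw [hm]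
    constructor
    · intro h y hy hy'
      exact h (g y) (List.mem_map_of_mem hy) (List.mem_map_of_mem hy')
    · intro h y hy hy'
      obtain ⟨y1, h1, rfl⟩ := List.mem_map.1 hy
      obtain ⟨y2, h2, h3⟩ := List.mem_map.1 hy'
      rw [g.injective h3] at h2
      exact h y1 h1 h2

theorem Fav_le (o : V) (b : ℕ) (p : List V) :
    K.Fav b (p ++ [o]) ≤ K.EW b (tip o p) (fun w => if ∀ y ∈ w, y ∉ p then (1 : ℝ) else 0) := by
  have key : ∀ (z : V) (L L' : List V), (∀ y, y ∈ L' → y ∈ L) →
      K.EW b z (fun w => if ∀ y ∈ w, y ∉ L then (1 : ℝ) else 0) ≤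
      K.EW b z (fun w => if ∀ y ∈ w, y ∉ L' then (1 : ℝ) else 0) := by
    intro z L L' hLL
    refine K.EW_mono b z _ _ ?_
    intro w _
    by_cases h : ∀ y ∈ w, y ∉ L
    · have h' : ∀ y ∈ w, y ∉ L' := fun y hy hy' => h y hy (hLL y hy')
      rw [if_pos h, if_pos h']
    · rw [if_neg h]
      split_ifs
      · exact zero_le_one
      · exact le_rfl
  rcases p with _ | ⟨z, p⟩
  · rw [tip_nil]
    show K.EW b o (fun w => if ∀ y ∈ w, y ∉ [o] then (1 : ℝ) else 0) ≤ _
    exact key o [o] [] (fun y hy => absurd hy List.not_mem_nil)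
  · rw [tip_cons]
    show K.EW b z (fun w => if ∀ y ∈ w, y ∉ z :: (p ++ [o]) then (1 : ℝ) else 0) ≤ _
    refine key z (z :: (p ++ [o])) (z :: p) ?_
    intro y hy
    rcases List.mem_cons.1 hy with h | h
    · exact List.mem_cons.2 (Or.inl h)
    · exact List.mem_cons.2 (Or.inr (List.mem_append.2 (Or.inl h)))

/-- the walk after the past `ω1 ++ ω0` avoids it with probability at least `nq` -/
theorem avoid_past (o : V) (a b T : ℕ) (ha : a ≤ T) (hb : b ≤ T) :
    K.nq o T T ≤ K.EW a o (fun p => K.EW b (tip o p) (fun w =>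
      if ∀ y ∈ w, y ∉ p then (1 : ℝ) else 0)) := by
  have h1 : K.EW a o (fun p => K.Fav b (p ++ [o])) ≤ K.EW a o (fun p => K.EW b (tip o p) (fun w =>
      if ∀ y ∈ w, y ∉ p then (1 : ℝ) else 0)) :=
    K.EW_mono a o _ _ (fun p _ => K.Fav_le o b p)
  have h2 := K.EW_rev_inv (K.Fav b) (fun g hg L => K.Fav_inv b g hg L) a o
  have h3 : K.EW a o (fun w => K.Fav b ((w ++ [o]).reverse)) = K.nq o a b := by
    unfold nq
    refine K.EW_congr a o _ _ ?_
    intro w _
    rw [List.reverse_append]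
    show K.EW b o (fun w' => if ∀ y ∈ w', y ∉ o :: w.reverse then (1 : ℝ) else 0) = _
    refine K.EW_congr b o _ _ ?_
    intro w' _
    refine if_congr ?_ rfl rfl
    have hm : ∀ y, y ∈ o :: w.reverse ↔ y ∈ w ++ [o] := by
      intro y
      rw [List.mem_cons, List.mem_reverse, List.mem_append, List.mem_singleton]
      exact or_comm
    constructor
    · intro h y hy hy'
      exact h y hy ((hm y).2 hy')
    · intro h y hy hy'
      exact h y hy ((hm y).1 hy')
  calc K.nq o T T ≤ K.nq o a b := K.nq_anti o a b T T ha hb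
    _ = K.EW a o (fun w => K.Fav b ((w ++ [o]).reverse)) := h3.symm
    _ = K.EW a o (fun w => K.Fav b (w ++ [o])) := h2.symm
    _ ≤ _ := h1

end Ker

end HP192
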