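import Mathlib
import Pool.Agent.Helper192_HP.Defs
import Pool.Agent.Helper192_HP.WDefs
import Pool.Agent.Helper192_HP.Basic
import Pool.Agent.Helper192_HP.W01
import Pool.Agent.Helper192_HP.W02

namespace HP192
open Finset

-- TARGET
namespace Ker
variable {V : Type} [Fintype V] [DecidableEq V] (K : Ker V)

theorem EW_comm {E : Type} [AddCommMonoid E] [Module ℝ E] (s t : ℕ) (x y : V)
    (F : List V → List V → E) :
    K.EW s x (fun w => K.EW t y (fun w' => F w w'))
      = K.EW t y (fun w' => K.EW s x (fun w => F w w')) := by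
  induction s generalizing x F with
  | zero => simp only [EW_zero]
  | succ s ih =>
    simp only [EW_succ]
    rw [EW_sum]
    apply Finset.sum_congr rfl
    intro z _
    rw [EW_smul, ih z (fun w w' => F (w ++ [z]) w')]

theorem hh_eq_mulC (t : ℕ) (x : V) (c : ℂ) (F : List V → ℂ) :
    K.EW t x (fun w => F w * c) = K.EW t x F * c := by
  induction t generalizing x F with
  | zero => simp only [EW_zero]
  | succ t ih =>
    simp only [EW_succ]
    rw [Finset.sum_mul]
    apply Finset.sum_congr rfl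
    intro z _
    rw [ih z (fun w => F (w ++ [z])), smul_mul_assoc]

theorem ph_inv_tip (o : V) (g : V → V) (ω : List V) (hω : ω ≠ []) :
    tip o (ω.map g) = g (tip o ω) := by
  cases ω with
  | nil => exact absurd rfl hω
  | cons a l => simp

theorem ph_inv (o : V) (T : ℕ) (θ : ℝ) (g : Equiv.Perm V) (hg : ∀ a b, K.P (g a) (g b) = K.P a b)
    (ω : List V) (hω : ω ≠ []) : K.ph o T θ (ω.map g) = K.ph o T θ ω := by
  unfold ph
  apply Finset.sum_congr rfl
  intro t _
  rw [ph_inv_tip o g ω hω, EW_auto K g hg]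
  apply EW_congr
  intro w _
  rw [← List.map_append, len_map g g.injective]

theorem fM_inv (o : V) (T M : ℕ) (g : Equiv.Perm V) (hg : ∀ a b, K.P (g a) (g b) = K.P a b)
    (ω : List V) (hω : ω ≠ []) : K.fM o T M (ω.map g) = K.fM o T M ω := by
  unfold fM
  apply Finset.sum_congr rfl
  intro t _
  rw [ph_inv_tip o g ω hω, EW_auto K g hg]
  apply EW_congr
  intro w _
  rw [← List.map_append, len_map g g.injective]

theorem hh_eq (o : V) (T r r0 : ℕ) (hr0 : 1 ≤ r0) (θ : ℝ) (ω0 : List V) :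
    K.hh o T r r0 θ ω0 = K.EW r0 o (fun ω' => K.kap o r θ ω0 ω' * K.ph o T θ ω') := by
  unfold hh kap
  have h1 : ∀ R : ℕ, K.EW (r + R) (tip o ω0) (fun ω1 =>
      K.EW r0 (tip (tip o ω0) ω1) (fun ω2 =>
        Complex.exp ((((len (ω2 ++ ω1 ++ ω0) : ℝ) - (len ω2 : ℝ)) * θ : ℝ) * Complex.I)
          * K.ph o T θ ω2))
      = K.EW r0 o (fun ω' => K.EW (r + R) (tip o ω0) (fun ω1 =>
          Complex.exp ((((len (ω'.map (K.sy o (tip (tip o ω0) ω1)) ++ ω1 ++ ω0) : ℝ)
            - (len ω' : ℝ)) * θ : ℝ) * Complex.I)) * K.ph o T θ ω') := by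
    intro R
    have h2 : ∀ ω1 : List V, K.EW r0 (tip (tip o ω0) ω1) (fun ω2 =>
        Complex.exp ((((len (ω2 ++ ω1 ++ ω0) : ℝ) - (len ω2 : ℝ)) * θ : ℝ) * Complex.I)
          * K.ph o T θ ω2)
        = K.EW r0 o (fun ω' => 
          Complex.exp ((((len (ω'.map (K.sy o (tip (tip o ω0) ω1)) ++ ω1 ++ ω0) : ℝ)
            - (len ω' : ℝ)) * θ : ℝ) * Complex.I) * K.ph o T θ ω') := by
      intro ω1
      obtain ⟨hg1, hg2⟩ := Classical.choose_spec (K.tr o (tip (tip o ω0) ω1))
      change K.sy o (tip (tip o ω0) ω1) o = tip (tip o ω0) ω1 at hg1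
      change ∀ a b, K.P (K.sy o (tip (tip o ω0) ω1) a) (K.sy o (tip (tip o ω0) ω1) b) = K.P a b at hg2
      generalize hgg : K.sy o (tip (tip o ω0) ω1) = g at hg1 hg2 ⊢
      rw [← hg1, EW_auto K g hg2]
      apply EW_congr
      intro w hw
      have hw0 : w ≠ [] := by
        intro h0
        rw [h0] at hw
        simp at hw
        omega
      rw [len_map g g.injective w, ph_inv K o T θ g hg2 w hw0]
    simp only [h2]
    rw [EW_comm]
    apply EW_congr
    intro w _
    rw [hh_eq_mulC]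
  simp only [h1]
  rw [← EW_sum, ← EW_smul]
  apply EW_congr
  intro w _
  rw [smul_mul_assoc, Finset.sum_mul]

end Ker

end HP192
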