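import Mathlib
import Pool.Agent.Helper192_HP.Defs
import Pool.Agent.Helper192_HP.WDefs
import Pool.Agent.Helper192_HP.Basic
import Pool.Agent.Helper192_HP.W01
import Pool.Agent.Helper192_HP.W02
import Pool.Agent.Helper192_HP.W14
import Pool.Agent.Helper192_HP.W13

namespace HP192
open Finset

-- TARGET
namespace Ker
variable {V : Type} [Fintype V] [DecidableEq V] (K : Ker V)

theorem V_solve (V A B D c : ℝ) (hc : 0 < c) (hc1 : c ≤ 1) (hV : 0 ≤ V) (hA : 0 ≤ A)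
    (hD : 0 ≤ D) (h1 : V ≤ A + 2 * B + D) (h2 : B ^ 2 ≤ A * D) (h3 : A ≤ (1 - c) * V) :
    V ≤ 4 / c ^ 2 * D := by
  have hB : B ≤ Real.sqrt A * Real.sqrt D := by
    rw [← Real.sqrt_mul hA]
    exact Real.le_sqrt_of_sq_le h2
  have sA := Real.sq_sqrt hA
  have sD := Real.sq_sqrt hD
  have sV := Real.sq_sqrt hV
  have nA := Real.sqrt_nonneg A
  have nD := Real.sqrt_nonneg D
  have nV := Real.sqrt_nonneg V
  have h4 : Real.sqrt V ≤ Real.sqrt A + Real.sqrt D := by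
    apply Real.sqrt_le_iff.mpr
    refine ⟨add_nonneg nA nD, ?_⟩
    nlinarith
  have h5 : Real.sqrt A ≤ (1 - c / 2) * Real.sqrt V := by
    have hc2 : 0 ≤ 1 - c / 2 := by linarith
    apply Real.sqrt_le_iff.mpr
    refine ⟨mul_nonneg hc2 nV, ?_⟩
    have : ((1 - c / 2) * Real.sqrt V) ^ 2 = (1 - c / 2) ^ 2 * V := by
      rw [mul_pow, sV]
    rw [this]
    refine h3.trans (mul_le_mul_of_nonneg_right ?_ hV)
    nlinarith [sq_nonneg c]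
  have h6 : c / 2 * Real.sqrt V ≤ Real.sqrt D := by linarith
  have h7 : (c / 2 * Real.sqrt V) ^ 2 ≤ Real.sqrt D ^ 2 :=
    pow_le_pow_left₀ (mul_nonneg (by linarith) nV) h6 2
  rw [mul_pow, sV, sD] at h7
  have hcsq : 0 < c ^ 2 := pow_pos hc 2
  rw [div_mul_eq_mul_div, le_div_iff₀ hcsq]
  nlinarith

theorem V_bound (o : V) (T r r0 : ℕ) (hr0 : 1 ≤ r0) (θ c : ℝ) (hc : 0 < c) (hc1 : c ≤ 1)
    (hk : K.EW r0 o (fun ω0 => K.EW r0 o (fun ω' => ‖K.kap o r θ ω0 ω'‖)) ≤ 1 - c) :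
    K.EW r0 o (fun ω0 => ‖K.ph o T θ ω0‖ ^ 2)
      ≤ 4 / c ^ 2 * K.EW r0 o (fun ω0 => ‖K.ph o T θ ω0 - K.hh o T r r0 θ ω0‖ ^ 2) := by
  have hVnn : 0 ≤ K.EW r0 o (fun ω0 => ‖K.ph o T θ ω0‖ ^ 2) :=
    K.EW_nonneg r0 o _ (fun w _ => sq_nonneg _)
  have hAnn : 0 ≤ K.EW r0 o (fun ω0 => ‖K.hh o T r r0 θ ω0‖ ^ 2) :=
    K.EW_nonneg r0 o _ (fun w _ => sq_nonneg _)
  have hDnn : 0 ≤ K.EW r0 o (fun ω0 => ‖K.ph o T θ ω0 - K.hh o T r r0 θ ω0‖ ^ 2) :=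
    K.EW_nonneg r0 o _ (fun w _ => sq_nonneg _)
  have s1 : ∀ ω0 : List V, ‖K.hh o T r r0 θ ω0‖ ^ 2 ≤
      K.EW r0 o (fun ω' => ‖K.kap o r θ ω0 ω'‖) *
        K.EW r0 o (fun ω0 => ‖K.ph o T θ ω0‖ ^ 2) := by
    intro ω0
    have e1 : ‖K.hh o T r r0 θ ω0‖ ≤
        K.EW r0 o (fun ω' => ‖K.kap o r θ ω0 ω'‖ * ‖K.ph o T θ ω'‖) := by
      rw [K.hh_eq o T r r0 hr0 θ ω0]
      refine (K.norm_EW_le r0 o _).trans (le_of_eq ?_)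
      congr 1
      funext w
      exact norm_mul _ _
    have e2 := K.EW_sq_le r0 o (fun ω' => ‖K.kap o r θ ω0 ω'‖) (fun ω' => ‖K.ph o T θ ω'‖)
    have e3 : K.EW r0 o (fun ω' => ‖K.kap o r θ ω0 ω'‖ ^ 2) ≤
        K.EW r0 o (fun ω' => ‖K.kap o r θ ω0 ω'‖) := by
      apply K.EW_mono
      intro w _
      have := K.kap_norm_le o r θ ω0 w
      nlinarith [norm_nonneg (K.kap o r θ ω0 w)]
    calc ‖K.hh o T r r0 θ ω0‖ ^ 2 ≤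
        (K.EW r0 o (fun ω' => ‖K.kap o r θ ω0 ω'‖ * ‖K.ph o T θ ω'‖)) ^ 2 :=
          pow_le_pow_left₀ (norm_nonneg _) e1 2
      _ ≤ _ := e2
      _ ≤ _ := mul_le_mul_of_nonneg_right e3 hVnn
  have s2 : K.EW r0 o (fun ω0 => ‖K.hh o T r r0 θ ω0‖ ^ 2) ≤
      (1 - c) * K.EW r0 o (fun ω0 => ‖K.ph o T θ ω0‖ ^ 2) := by
    calc K.EW r0 o (fun ω0 => ‖K.hh o T r r0 θ ω0‖ ^ 2) ≤
        K.EW r0 o (fun ω0 => K.EW r0 o (fun ω' => ‖K.kap o r θ ω0 ω'‖) *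
          K.EW r0 o (fun ω0 => ‖K.ph o T θ ω0‖ ^ 2)) :=
          K.EW_mono r0 o _ _ (fun w _ => s1 w)
      _ = K.EW r0 o (fun ω0 => K.EW r0 o (fun ω' => ‖K.kap o r θ ω0 ω'‖)) *
          K.EW r0 o (fun ω0 => ‖K.ph o T θ ω0‖ ^ 2) := K.EW_mul_right r0 o _ _
      _ ≤ _ := mul_le_mul_of_nonneg_right hk hVnn
  have s3 : K.EW r0 o (fun ω0 => ‖K.ph o T θ ω0‖ ^ 2) ≤
      K.EW r0 o (fun ω0 => ‖K.hh o T r r0 θ ω0‖ ^ 2) +
        2 * K.EW r0 o (fun ω0 => ‖K.hh o T r r0 θ ω0‖ *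
          ‖K.ph o T θ ω0 - K.hh o T r r0 θ ω0‖) +
        K.EW r0 o (fun ω0 => ‖K.ph o T θ ω0 - K.hh o T r r0 θ ω0‖ ^ 2) := by
    rw [← K.EW_mul_left, ← K.EW_add, ← K.EW_add]
    apply K.EW_mono
    intro w _
    have h := norm_add_le (K.hh o T r r0 θ w) (K.ph o T θ w - K.hh o T r r0 θ w)
    rw [add_sub_cancel] at h
    nlinarith [norm_nonneg (K.ph o T θ w), norm_nonneg (K.hh o T r r0 θ w),
      norm_nonneg (K.ph o T θ w - K.hh o T r r0 θ w)]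
  exact V_solve _ _ _ _ c hc hc1 hVnn hAnn hDnn s3 (K.EW_sq_le r0 o _ _) s2

end Ker

end HP192
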