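import Mathlib
import Pool.Agent.Helper192_HP.WDefs

namespace HP192
open Finset

namespace Ker
variable {V : Type} [Fintype V] [DecidableEq V] (K : Ker V)

/-- the error measure of the recursion -/
noncomputable def dk (o : V) (T r r0 : ℕ) (k : ℤ) (ω0 : List V) : ℝ :=
  (if 0 ≤ k then K.fM o T k.toNat ω0 else 0) - K.hM o T r r0 k ω0

end Ker


end HP192
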