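import Mathlib
import Pool.Agent.Helper192_HP.Defs
import Pool.Agent.Helper192_HP.WDefs
import Pool.Agent.Helper192_HP.Basic
import Pool.Agent.Helper192_HP.W01
import Pool.Agent.Helper192_HP.W02
import Pool.Agent.Helper192_HP.DkDef

namespace HP192
open Finset

-- TARGET
namespace Ker
variable {V : Type} [Fintype V] [DecidableEq V] (K : Ker V)

theorem EW_ofReal (t : ℕ) (x : V) (F : List V → ℝ) :
    ((K.EW t x F : ℝ) : ℂ) = K.EW t x (fun w => ((F w : ℝ) : ℂ)) := by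
  induction t generalizing x F with
  | zero => rw [EW_zero, EW_zero]
  | succ t ih =>
    rw [EW_succ, EW_succ, Complex.ofReal_sum]
    refine Finset.sum_congr rfl fun y _ => ?_
    rw [smul_eq_mul, Complex.ofReal_mul, ih, Complex.real_smul]

theorem EW_cmul (t : ℕ) (x : V) (F : List V → ℂ) (z : ℂ) :
    K.EW t x (fun w => F w * z) = K.EW t x F * z := by
  induction t generalizing x F with
  | zero => rw [EW_zero, EW_zero]
  | succ t ih =>
    rw [EW_succ, EW_succ, Finset.sum_mul]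
    refine Finset.sum_congr rfl fun y _ => ?_
    rw [ih y (fun w => F (w ++ [y])), smul_mul_assoc]

theorem EW_lin (t : ℕ) (x : V) (F : List V → ℂ) (S : Finset ℤ) (G : ℤ → List V → ℝ) (e : ℤ → ℂ)
    (h : ∀ w : List V, w.length = t → F w = ∑ k ∈ S, ((G k w : ℝ) : ℂ) * e k) :
    K.EW t x F = ∑ k ∈ S, ((K.EW t x (G k) : ℝ) : ℂ) * e k := by
  rw [K.EW_congr t x F _ h, EW_sum]
  refine Finset.sum_congr rfl fun k _ => ?_
  rw [EW_cmul, EW_ofReal]

theorem exp_ind (θ : ℝ) (N : ℕ) (L : ℤ) (h1 : -(N : ℤ) ≤ L) (h2 : L ≤ N) :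
    Complex.exp (((L : ℝ) * θ : ℝ) * Complex.I) = ∑ k ∈ Icc (-(N : ℤ)) (N : ℤ),
      (((if L = k then (1 : ℝ) else 0 : ℝ)) : ℂ) * Complex.exp (((k : ℝ) * θ : ℝ) * Complex.I) := by
  rw [Finset.sum_eq_single L]
  · rw [if_pos rfl, Complex.ofReal_one, one_mul]
  · intro k _ hk
    rw [if_neg (fun h => hk h.symm), Complex.ofReal_zero, zero_mul]
  · intro h
    exact absurd (Finset.mem_Icc.2 ⟨h1, h2⟩) h

theorem len_append_le (w ω : List V) : len (w ++ ω) ≤ w.length + len ω := by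
  induction w with
  | nil => simp
  | cons v w ih =>
    have h := len_cons_le v (w ++ ω)
    rw [List.cons_append, List.length_cons]
    omega

/-- the inner part: sums over time of exponentials -/
theorem sum_exp (T : ℕ) (x : V) (θ : ℝ) (N : ℕ) (L : List V → ℤ)
    (hL : ∀ w : List V, w.length < T → -(N : ℤ) ≤ L w ∧ L w ≤ N) :
    ∑ t ∈ range T, K.EW t x (fun w => Complex.exp (((L w : ℝ) * θ : ℝ) * Complex.I)) =
      ∑ k ∈ Icc (-(N : ℤ)) (N : ℤ),
        ((∑ t ∈ range T, K.EW t x (fun w => if L w = k then (1 : ℝ) else 0) : ℝ) : ℂ)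
          * Complex.exp (((k : ℝ) * θ : ℝ) * Complex.I) := by
  have h : ∀ t ∈ range T, K.EW t x (fun w => Complex.exp (((L w : ℝ) * θ : ℝ) * Complex.I)) =
      ∑ k ∈ Icc (-(N : ℤ)) (N : ℤ), ((K.EW t x (fun w => if L w = k then (1 : ℝ) else 0) : ℝ) : ℂ)
          * Complex.exp (((k : ℝ) * θ : ℝ) * Complex.I) := by
    intro t ht
    refine K.EW_lin t x _ _ (fun k w => if L w = k then (1 : ℝ) else 0)
      (fun k => Complex.exp (((k : ℝ) * θ : ℝ) * Complex.I)) ?_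
    intro w hw
    obtain ⟨h1, h2⟩ := hL w (by rw [hw]; exact Finset.mem_range.1 ht)
    exact exp_ind θ N (L w) h1 h2
  rw [Finset.sum_congr rfl h, Finset.sum_comm]
  refine Finset.sum_congr rfl fun k _ => ?_
  rw [← Finset.sum_mul, Complex.ofReal_sum]

theorem f_hat (o : V) (T : ℕ) (θ : ℝ) (ω : List V) (N : ℕ) (hN : T + ω.length ≤ N) :
    K.ph o T θ ω = ∑ k ∈ Icc (-(N : ℤ)) (N : ℤ),
      ((if 0 ≤ k then K.fM o T k.toNat ω else 0 : ℝ) : ℂ)
        * Complex.exp (((k : ℝ) * θ : ℝ) * Complex.I) := by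
  have h1 : K.ph o T θ ω = ∑ t ∈ range T, K.EW t (tip o ω)
      (fun w => Complex.exp (((((len (w ++ ω) : ℕ) : ℤ) : ℝ) * θ : ℝ) * Complex.I)) := by
    unfold ph
    simp only [Int.cast_natCast]
  rw [h1, K.sum_exp T (tip o ω) θ N (fun w => ((len (w ++ ω) : ℕ) : ℤ))]
  · refine Finset.sum_congr rfl fun k _ => ?_
    congr 2
    split_ifs with hk
    · unfold fM
      refine Finset.sum_congr rfl fun t _ => ?_
      refine K.EW_congr t _ _ _ fun w _ => ?_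
      by_cases h : len (w ++ ω) = k.toNat
      · rw [if_pos h, if_pos (by omega)]
      · rw [if_neg h, if_neg (by omega)]
    · refine Finset.sum_eq_zero fun t _ => ?_
      rw [K.EW_congr t _ _ (fun _ => (0 : ℝ)) (fun w _ => by rw [if_neg (by omega)]), K.EW_const]
  · intro w hw
    have h2 := len_le_length (w ++ ω)
    rw [List.length_append] at h2
    constructor <;> omega

theorem h_hat (o : V) (T r r0 : ℕ) (hr : 1 ≤ r) (θ : ℝ) (ω0 : List V) (h0 : ω0.length = r0) (N : ℕ)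
    (hN : T + 2 * r + 2 * r0 ≤ N) :
    K.hh o T r r0 θ ω0 = ∑ k ∈ Icc (-(N : ℤ)) (N : ℤ),
      ((K.hM o T r r0 k ω0 : ℝ) : ℂ) * Complex.exp (((k : ℝ) * θ : ℝ) * Complex.I) := by
  have h1 : ∀ R ∈ range r, ∀ ω1 : List V, ω1.length = r + R → ∀ ω2 : List V, ω2.length = r0 →
      Complex.exp ((((len (ω2 ++ ω1 ++ ω0) : ℝ) - (len ω2 : ℝ)) * θ : ℝ) * Complex.I)
        * K.ph o T θ ω2 = ∑ k ∈ Icc (-(N : ℤ)) (N : ℤ),
        ((∑ t ∈ range T, K.EW t (tip o ω2) (fun w =>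
        if (len (w ++ ω2) : ℤ) + (len (ω2 ++ ω1 ++ ω0) : ℤ) - (len ω2 : ℤ) = k
        then (1 : ℝ) else 0) : ℝ) : ℂ) * Complex.exp (((k : ℝ) * θ : ℝ) * Complex.I) := by
    intro R hR ω1 hω1 ω2 hω2
    rw [Finset.mem_range] at hR
    rw [← K.sum_exp T (tip o ω2) θ N
      (fun w => (len (w ++ ω2) : ℤ) + (len (ω2 ++ ω1 ++ ω0) : ℤ) - (len ω2 : ℤ))]
    · unfold ph
      rw [Finset.mul_sum]
      refine Finset.sum_congr rfl fun t _ => ?_
      rw [mul_comm, ← K.EW_cmul]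
      refine K.EW_congr t _ _ _ fun w _ => ?_
      rw [← Complex.exp_add]
      congr 1
      push_cast
      ring
    · intro w hw
      have e1 := len_append_le w ω2
      have e2 := len_le_length (ω2 ++ ω1 ++ ω0)
      have e3 := len_le_length ω2
      rw [List.length_append, List.length_append] at e2
      constructor <;> omega
  have h2 : ∀ R ∈ range r, K.EW (r + R) (tip o ω0) (fun ω1 =>
    K.EW r0 (tip (tip o ω0) ω1) (fun ω2 =>
      Complex.exp ((((len (ω2 ++ ω1 ++ ω0) : ℝ) - (len ω2 : ℝ)) * θ : ℝ) * Complex.I)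
        * K.ph o T θ ω2)) = ∑ k ∈ Icc (-(N : ℤ)) (N : ℤ),
        ((K.EW (r + R) (tip o ω0) (fun ω1 =>
    K.EW r0 (tip (tip o ω0) ω1) (fun ω2 =>
      ∑ t ∈ range T, K.EW t (tip o ω2) (fun w =>
        if (len (w ++ ω2) : ℤ) + (len (ω2 ++ ω1 ++ ω0) : ℤ) - (len ω2 : ℤ) = k
        then (1 : ℝ) else 0))) : ℝ) : ℂ) * Complex.exp (((k : ℝ) * θ : ℝ) * Complex.I) := by
    intro R hR
    refine K.EW_lin (r + R) (tip o ω0) _ _ (fun k ω1 => K.EW r0 (tip (tip o ω0) ω1) (fun ω2 =>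
      ∑ t ∈ range T, K.EW t (tip o ω2) (fun w =>
        if (len (w ++ ω2) : ℤ) + (len (ω2 ++ ω1 ++ ω0) : ℤ) - (len ω2 : ℤ) = k
        then (1 : ℝ) else 0))) (fun k => Complex.exp (((k : ℝ) * θ : ℝ) * Complex.I)) ?_
    intro ω1 hω1
    refine K.EW_lin r0 (tip (tip o ω0) ω1) _ _ (fun k ω2 =>
      ∑ t ∈ range T, K.EW t (tip o ω2) (fun w =>
        if (len (w ++ ω2) : ℤ) + (len (ω2 ++ ω1 ++ ω0) : ℤ) - (len ω2 : ℤ) = k
        then (1 : ℝ) else 0)) (fun k => Complex.exp (((k : ℝ) * θ : ℝ) * Complex.I)) ?_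
    intro ω2 hω2
    exact h1 R hR ω1 hω1 ω2 hω2
  unfold hh
  rw [Finset.sum_congr rfl h2, Finset.sum_comm, Finset.smul_sum]
  refine Finset.sum_congr rfl fun k _ => ?_
  unfold hM
  rw [← Finset.sum_mul, ← Complex.ofReal_sum, Complex.real_smul, ← mul_assoc, ← Complex.ofReal_mul]

theorem d_hat (o : V) (T r r0 : ℕ) (hr : 1 ≤ r) (θ : ℝ) (ω0 : List V) (h0 : ω0.length = r0) (N : ℕ)
    (hN : T + 2 * r + 2 * r0 ≤ N) :
    K.ph o T θ ω0 - K.hh o T r r0 θ ω0 = ∑ k ∈ Icc (-(N : ℤ)) (N : ℤ),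
      (K.dk o T r r0 k ω0 : ℂ) * Complex.exp (((k : ℝ) * θ : ℝ) * Complex.I) := by
  rw [K.f_hat o T θ ω0 N (by omega), K.h_hat o T r r0 hr θ ω0 h0 N hN, ← Finset.sum_sub_distrib]
  refine Finset.sum_congr rfl fun k _ => ?_
  rw [← sub_mul, ← Complex.ofReal_sub]
  rfl

end Ker

end HP192
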