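import Mathlib
import Pool.Agent.Helper192_HP.Defs
import Pool.Agent.Helper192_HP.WDefs
import Pool.Agent.Helper192_HP.Basic
import Pool.Agent.Helper192_HP.W01
import Pool.Agent.Helper192_HP.W02
import Pool.Agent.Helper192_HP.W05
import Pool.Agent.Helper192_HP.W06

namespace HP192
open Finset

-- TARGET
namespace Ker
variable {V : Type} [Fintype V] [DecidableEq V] (K : Ker V)

theorem fM_nonneg (o : V) (T M : ℕ) (ω : List V) : 0 ≤ K.fM o T M ω := by
  unfold fM
  refine Finset.sum_nonneg (fun t _ => K.EW_nonneg _ _ _ (fun w _ => ?_))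
  split_ifs <;> norm_num

theorem fM_sum_le (o : V) (T : ℕ) (ω : List V) (s : Finset ℕ) :
    ∑ M ∈ s, K.fM o T M ω ≤ (T : ℝ) := by
  unfold fM
  rw [Finset.sum_comm]
  calc ∑ t ∈ range T, ∑ M ∈ s, K.EW t (tip o ω) (fun w => if len (w ++ ω) = M then (1 : ℝ) else 0)
      ≤ ∑ t ∈ range T, (1 : ℝ) := by
        refine Finset.sum_le_sum (fun t _ => ?_)
        rw [← K.EW_sum]
        refine K.EW_le_const _ _ _ _ (fun w _ => ?_)
        rw [Finset.sum_ite_eq]
        split_ifs <;> norm_num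
    _ = T := by simp

theorem fM_le (o : V) (T M : ℕ) (ω : List V) (hω : ω ≠ []) :
    K.fM o T M ω ≤ K.Th o T * K.hits T (tip o ω) ω := by
  have hx : ω.head? = some (tip o ω) := by
    cases ω with
    | nil => exact absurd rfl hω
    | cons a l => simp [tip]
  refine le_trans ?_ (K.Dbound o T M (tip o ω) ω hx)
  unfold fM
  refine Finset.sum_le_sum_of_subset_of_nonneg
    (Finset.range_subset_range.2 (Nat.le_succ T)) (fun t _ _ => K.EW_nonneg _ _ _ (fun w _ => ?_))
  split_ifs <;> norm_num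

theorem f_sq (o : V) (T r0 N : ℕ) (Θ : ℝ) (hr0 : 1 ≤ r0) (hΘ : K.Th o (T + r0) ≤ Θ) :
    K.EW r0 o (fun ω => ∑ k ∈ Icc (-(N : ℤ)) (N : ℤ),
      (if 0 ≤ k then K.fM o T k.toNat ω else 0) ^ 2) ≤ T * Θ ^ 2 := by
  have hTh0 : 0 ≤ K.Th o T := zero_le_one.trans (K.one_le_Th o T)
  have hTh1 : 0 ≤ K.Th o (T + r0) := zero_le_one.trans (K.one_le_Th o (T + r0))
  have hTh2 : K.Th o T ≤ K.Th o (T + r0) := K.Th_mono o T (T + r0) (Nat.le_add_right _ _)
  have key : ∀ ω : List V, ω.length = r0 → ∑ k ∈ Icc (-(N : ℤ)) (N : ℤ),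
      (if 0 ≤ k then K.fM o T k.toNat ω else 0) ^ 2 ≤
      (T * K.Th o T) * K.hits T (tip o ω) (ω ++ [o]) := by
    intro ω hω
    have hne : ω ≠ [] := by
      rintro rfl
      simp at hω; omega
    have h1 : ∑ k ∈ Icc (-(N : ℤ)) (N : ℤ), (if 0 ≤ k then K.fM o T k.toNat ω else 0) ^ 2 =
        ∑ k ∈ range (N + 1), (K.fM o T k ω) ^ 2 := by
      have h2 : ∑ k ∈ (range (N + 1)).map Nat.castEmbedding,
          (if (0 : ℤ) ≤ k then K.fM o T k.toNat ω else 0) ^ 2 =
          ∑ k ∈ Icc (-(N : ℤ)) (N : ℤ), (if 0 ≤ k then K.fM o T k.toNat ω else 0) ^ 2 := by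
        refine Finset.sum_subset ?_ ?_
        · intro k hk
          rw [Finset.mem_map] at hk
          obtain ⟨m, hm, rfl⟩ := hk
          rw [Finset.mem_range] at hm
          rw [Finset.mem_Icc]
          simp only [Nat.castEmbedding_apply]
          omega
        · intro k hk hk'
          rw [Finset.mem_Icc] at hk
          by_cases h0 : 0 ≤ k
          · exfalso
            apply hk'
            rw [Finset.mem_map]
            refine ⟨k.toNat, ?_, ?_⟩
            · rw [Finset.mem_range]; omega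
            · simp only [Nat.castEmbedding_apply]; omega
          · rw [if_neg h0]; norm_num
      rw [← h2, Finset.sum_map]
      refine Finset.sum_congr rfl (fun k _ => ?_)
      simp
    rw [h1]
    set C : ℝ := K.Th o T * K.hits T (tip o ω) ω with hC
    have hC0 : 0 ≤ C := mul_nonneg hTh0 (K.hits_nonneg _ _ _)
    calc ∑ k ∈ range (N + 1), (K.fM o T k ω) ^ 2
        ≤ ∑ k ∈ range (N + 1), K.fM o T k ω * C := by
          refine Finset.sum_le_sum (fun k _ => ?_)
          rw [sq]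
          exact mul_le_mul_of_nonneg_left (K.fM_le o T k ω hne) (K.fM_nonneg o T k ω)
      _ = (∑ k ∈ range (N + 1), K.fM o T k ω) * C := by rw [Finset.sum_mul]
      _ ≤ T * C := mul_le_mul_of_nonneg_right (K.fM_sum_le o T ω _) hC0
      _ = (T * K.Th o T) * K.hits T (tip o ω) ω := by rw [hC]; ring
      _ ≤ (T * K.Th o T) * K.hits T (tip o ω) (ω ++ [o]) := by
          refine mul_le_mul_of_nonneg_left ?_ (by positivity)
          rw [K.hits_append]
          have := K.hits_nonneg T (tip o ω) [o]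
          linarith
  calc K.EW r0 o (fun ω => ∑ k ∈ Icc (-(N : ℤ)) (N : ℤ),
      (if 0 ≤ k then K.fM o T k.toNat ω else 0) ^ 2)
      ≤ K.EW r0 o (fun ω => (T * K.Th o T) * K.hits T (tip o ω) (ω ++ [o])) :=
        K.EW_mono _ _ _ _ key
    _ = (T * K.Th o T) * K.EW r0 o (fun ω => K.hits T (tip o ω) (ω ++ [o])) :=
        K.EW_mul_left _ _ _ _
    _ ≤ (T * K.Th o T) * K.Th o (T + r0) :=
        mul_le_mul_of_nonneg_left (K.E_hits o T r0) (by positivity)
    _ ≤ T * Θ ^ 2 := by
        have h3 : K.Th o T ≤ Θ := hTh2.trans hΘ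
        have h4 : K.Th o T * K.Th o (T + r0) ≤ Θ * Θ := mul_le_mul h3 hΘ hTh1 (hTh0.trans h3)
        have h5 : (0 : ℝ) ≤ T := Nat.cast_nonneg _
        nlinarith [mul_le_mul_of_nonneg_left h4 h5]

end Ker

end HP192
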