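import Mathlib
import Pool.Agent.Helper192_HP.Defs
import Pool.Agent.Helper192_HP.WDefs
import Pool.Agent.Helper192_HP.W01

namespace HP192
open Finset

/-- TARGET -/
theorem cut_len {V : Type} [DecidableEq V] (w ω p : List V) (h : cutI w ω p = 1) :
    len (w ++ ω ++ p) + len ω = len (ω ++ p) + len (w ++ ω) := by
  classical
  unfold cutI at h
  split_ifs at h with hc
  · obtain ⟨β, α, rfl, hd⟩ := hc
    have k : ∀ (A B : List V), (∀ a ∈ A, a ∉ B) → len (A ++ B) = len A + len B :=
      fun A B hAB => len_append A B fun a ha hB => hAB a ha (LE_sub B a hB)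
    have e1 : w ++ (β ++ α) ++ p = (w ++ β) ++ (α ++ p) := by simp [List.append_assoc]
    have e2 : β ++ α ++ p = β ++ (α ++ p) := List.append_assoc _ _ _
    have e3 : w ++ (β ++ α) = (w ++ β) ++ α := (List.append_assoc _ _ _).symm
    have h1 : len ((w ++ β) ++ (α ++ p)) = len (w ++ β) + len (α ++ p) := k _ _ hd
    have h2 : len (β ++ (α ++ p)) = len β + len (α ++ p) :=
      k _ _ fun a ha => hd a (List.mem_append_right _ ha)
    have h3 : len (β ++ α) = len β + len α :=
      k _ _ fun a ha hα => hd a (List.mem_append_right _ ha) (List.mem_append_left _ hα)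
    have h4 : len ((w ++ β) ++ α) = len (w ++ β) + len α :=
      k _ _ fun a ha hα => hd a ha (List.mem_append_left _ hα)
    rw [e1, e2, e3, h1, h2, h3, h4]
    omega
  · norm_num at h

end HP192
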