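import Mathlib
import Pool.Agent.Helper192_HP.Defs
import Pool.Agent.Helper192_HP.WDefs
import Pool.Agent.Helper192_HP.Basic
import Pool.Agent.Helper192_HP.W01
import Pool.Agent.Helper192_HP.W02
import Pool.Agent.Helper192_HP.DkDef
import Pool.Agent.Helper192_HP.W05
import Pool.Agent.Helper192_HP.W06
import Pool.Agent.Helper192_HP.W10
import Pool.Agent.Helper192_HP.W17
import Pool.Agent.Helper192_HP.W14

namespace HP192
open Finset

namespace Ker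
variable {V : Type} [Fintype V] [DecidableEq V] (K : Ker V)

/-- expected indicator of the event that the loop erasure has length `k` after `t` steps -/
noncomputable def gg (x : V) (ω : List V) (k : ℤ) (t : ℕ) : ℝ :=
  K.EW t x (fun w => if (len (w ++ ω) : ℤ) = k then (1 : ℝ) else 0)

theorem gg_nonneg (x : V) (ω : List V) (k : ℤ) (t : ℕ) : 0 ≤ K.gg x ω k t := by
  refine K.EW_nonneg t x _ fun w _ => ?_
  split_ifs <;> norm_num

theorem ind_sum_le (s : Finset ℤ) (a : ℤ) : ∑ k ∈ s, (if a = k then (1 : ℝ) else 0) ≤ 1 := by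
  rw [Finset.sum_ite_eq]
  split_ifs <;> norm_num

theorem gg_sum_le (x : V) (ω : List V) (s : Finset ℤ) (t : ℕ) :
    ∑ k ∈ s, K.gg x ω k t ≤ 1 := by
  have h : ∑ k ∈ s, K.gg x ω k t =
      K.EW t x (fun w => ∑ k ∈ s, (if (len (w ++ ω) : ℤ) = k then (1 : ℝ) else 0)) := by
    rw [K.EW_sum s t x (fun k w => if (len (w ++ ω) : ℤ) = k then (1 : ℝ) else 0)]
    rfl
  rw [h]
  exact K.EW_le_const t x _ 1 fun w _ => ind_sum_le s _

theorem gg_neg (x : V) (ω : List V) (k : ℤ) (hk : k < 0) (t : ℕ) : K.gg x ω k t = 0 := by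
  rw [gg, K.EW_congr t x _ (fun _ => (0 : ℝ)), K.EW_const]
  intro w _
  rw [if_neg]
  intro h
  have : (0 : ℤ) ≤ (len (w ++ ω) : ℤ) := by positivity
  omega

theorem F_eq (o : V) (T : ℕ) (k : ℤ) (ω : List V) :
    (if 0 ≤ k then K.fM o T k.toNat ω else 0) = ∑ t ∈ range T, K.gg (tip o ω) ω k t := by
  split_ifs with h
  · rw [fM]
    refine Finset.sum_congr rfl fun t _ => ?_
    rw [gg]
    refine K.EW_congr t _ _ _ fun w _ => ?_
    have : (len (w ++ ω) = k.toNat) ↔ ((len (w ++ ω) : ℤ) = k) := by omega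
    simp only [this]
  · rw [Finset.sum_eq_zero fun t _ => K.gg_neg _ _ _ (by omega) t]

theorem gg_range_le (o : V) (T : ℕ) (x : V) (k : ℤ) (ω : List V) (hω : ω.head? = some x) :
    ∑ t ∈ range (T + 1), K.gg x ω k t ≤ K.Th o T * K.hits T x ω := by
  rcases lt_or_ge k 0 with h | h
  · rw [Finset.sum_eq_zero fun t _ => K.gg_neg _ _ _ h t]
    exact mul_nonneg (le_trans zero_le_one (K.one_le_Th o T)) (K.hits_nonneg T x ω)
  · obtain ⟨n, rfl⟩ := Int.eq_ofNat_of_zero_le h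
    refine le_trans (le_of_eq ?_) (K.Dbound o T n x ω hω)
    refine Finset.sum_congr rfl fun t _ => ?_
    rw [gg]
    refine K.EW_congr t _ _ _ fun w _ => ?_
    simp only [Nat.cast_inj]

/-- the averaged triple expectation -/
noncomputable def L3 (o : V) (T r r0 : ℕ) (ω0 : List V) (F : List V → List V → List V → ℝ) : ℝ :=
  (1 / (r : ℝ)) * ∑ R ∈ range r, K.EW (r + R) (tip o ω0) (fun ω1 =>
    K.EW r0 (tip (tip o ω0) ω1) (fun ω2 =>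
      ∑ t ∈ range T, K.EW t (tip o ω2) (fun w => F ω1 ω2 w)))

theorem hM_eq (o : V) (T r r0 : ℕ) (k : ℤ) (ω0 : List V) :
    K.hM o T r r0 k ω0 = K.L3 o T r r0 ω0 (fun ω1 ω2 w =>
      if (len (w ++ ω2) : ℤ) + (len (ω2 ++ ω1 ++ ω0) : ℤ) - (len ω2 : ℤ) = k
        then (1 : ℝ) else 0) := rfl

theorem L3_mono (o : V) (T r r0 : ℕ) (ω0 : List V) (F G : List V → List V → List V → ℝ)
    (h : ∀ ω1 ω2 w, ω2.length = r0 → F ω1 ω2 w ≤ G ω1 ω2 w) :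
    K.L3 o T r r0 ω0 F ≤ K.L3 o T r r0 ω0 G := by
  refine mul_le_mul_of_nonneg_left ?_ (by positivity)
  refine Finset.sum_le_sum fun R _ => ?_
  refine K.EW_mono _ _ _ _ fun ω1 _ => ?_
  refine K.EW_mono _ _ _ _ fun ω2 h2 => ?_
  refine Finset.sum_le_sum fun t _ => ?_
  exact K.EW_mono _ _ _ _ fun w _ => h ω1 ω2 w h2

theorem L3_add (o : V) (T r r0 : ℕ) (ω0 : List V) (F G : List V → List V → List V → ℝ) :
    K.L3 o T r r0 ω0 (fun ω1 ω2 w => F ω1 ω2 w + G ω1 ω2 w) =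
      K.L3 o T r r0 ω0 F + K.L3 o T r r0 ω0 G := by
  unfold L3
  rw [← mul_add, ← Finset.sum_add_distrib]
  congr 1
  refine Finset.sum_congr rfl fun R _ => ?_
  rw [← K.EW_add]
  refine K.EW_congr _ _ _ _ fun ω1 _ => ?_
  rw [← K.EW_add]
  refine K.EW_congr _ _ _ _ fun ω2 _ => ?_
  rw [← Finset.sum_add_distrib]
  refine Finset.sum_congr rfl fun t _ => ?_
  exact K.EW_add _ _ _ _

theorem L3_smul (o : V) (T r r0 : ℕ) (ω0 : List V) (c : ℝ) (F : List V → List V → List V → ℝ) :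
    K.L3 o T r r0 ω0 (fun ω1 ω2 w => c * F ω1 ω2 w) = c * K.L3 o T r r0 ω0 F := by
  have key : ∀ R ∈ range r, K.EW (r + R) (tip o ω0) (fun ω1 =>
      K.EW r0 (tip (tip o ω0) ω1) (fun ω2 =>
      ∑ t ∈ range T, K.EW t (tip o ω2) (fun w => c * F ω1 ω2 w))) =
      c * K.EW (r + R) (tip o ω0) (fun ω1 =>
      K.EW r0 (tip (tip o ω0) ω1) (fun ω2 =>
      ∑ t ∈ range T, K.EW t (tip o ω2) (fun w => F ω1 ω2 w))) := by
    intro R _
    rw [← K.EW_mul_left]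
    refine K.EW_congr _ _ _ _ fun ω1 _ => ?_
    rw [← K.EW_mul_left]
    refine K.EW_congr _ _ _ _ fun ω2 _ => ?_
    rw [Finset.mul_sum]
    refine Finset.sum_congr rfl fun t _ => ?_
    exact K.EW_mul_left _ _ _ _
  unfold L3
  rw [Finset.sum_congr rfl key, ← Finset.mul_sum]
  ring

theorem L3_sub (o : V) (T r r0 : ℕ) (ω0 : List V) (F G : List V → List V → List V → ℝ) :
    K.L3 o T r r0 ω0 (fun ω1 ω2 w => F ω1 ω2 w - G ω1 ω2 w) =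
      K.L3 o T r r0 ω0 F - K.L3 o T r r0 ω0 G := by
  have h1 := K.L3_add o T r r0 ω0 F (fun ω1 ω2 w => (-1) * G ω1 ω2 w)
  rw [K.L3_smul] at h1
  have h2 : (fun ω1 ω2 w => F ω1 ω2 w - G ω1 ω2 w) =
      (fun ω1 ω2 w => F ω1 ω2 w + (-1) * G ω1 ω2 w) := by
    funext a b c; ring
  rw [h2, h1]; ring

theorem L3_sum {ι : Type*} (s : Finset ι) (o : V) (T r r0 : ℕ) (ω0 : List V)
    (F : ι → List V → List V → List V → ℝ) :
    K.L3 o T r r0 ω0 (fun ω1 ω2 w => ∑ i ∈ s, F i ω1 ω2 w) =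
      ∑ i ∈ s, K.L3 o T r r0 ω0 (F i) := by
  classical
  induction s using Finset.induction_on with
  | empty =>
    have h := K.L3_smul o T r r0 ω0 0 (fun _ _ _ => (1 : ℝ))
    simp only [zero_mul] at h
    simp only [Finset.sum_empty]
    exact h
  | insert a s ha ih =>
    rw [Finset.sum_insert ha, ← ih, ← K.L3_add]
    congr 1
    funext a b c
    rw [Finset.sum_insert ha]

theorem L3_nonneg (o : V) (T r r0 : ℕ) (ω0 : List V) (F : List V → List V → List V → ℝ)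
    (h : ∀ ω1 ω2 w, ω2.length = r0 → 0 ≤ F ω1 ω2 w) : 0 ≤ K.L3 o T r r0 ω0 F := by
  have h1 := K.L3_mono o T r r0 ω0 (fun _ _ _ => 0) F h
  have h2 := K.L3_smul o T r r0 ω0 0 (fun _ _ _ => (1 : ℝ))
  simp only [zero_mul] at h2
  rwa [h2] at h1

theorem L3_one (o : V) (T r r0 : ℕ) (hr : 1 ≤ r) (ω0 : List V) :
    K.L3 o T r r0 ω0 (fun _ _ _ => (1 : ℝ)) = T := by
  unfold L3
  have h : ∀ R ∈ range r, K.EW (r + R) (tip o ω0) (fun ω1 =>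
    K.EW r0 (tip (tip o ω0) ω1) (fun ω2 =>
      ∑ t ∈ range T, K.EW t (tip o ω2) (fun _ => (1 : ℝ)))) = (T : ℝ) := by
    intro R _
    rw [K.EW_congr _ _ _ (fun _ => (T : ℝ)), K.EW_const]
    intro ω1 _
    rw [K.EW_congr _ _ _ (fun _ => (T : ℝ)), K.EW_const]
    intro ω2 _
    rw [Finset.sum_congr rfl fun t _ => K.EW_const t (tip o ω2) (1 : ℝ)]
    simp
  rw [Finset.sum_congr rfl h]
  have hr' : (r : ℝ) ≠ 0 := by positivity
  simp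
  field_simp

theorem abs_L3_le (o : V) (T r r0 : ℕ) (ω0 : List V) (F : List V → List V → List V → ℝ) :
    |K.L3 o T r r0 ω0 F| ≤ K.L3 o T r r0 ω0 (fun ω1 ω2 w => |F ω1 ω2 w|) := by
  rw [abs_le]
  constructor
  · have h := K.L3_smul o T r r0 ω0 (-1) (fun ω1 ω2 w => |F ω1 ω2 w|)
    have h2 := K.L3_mono o T r r0 ω0 (fun ω1 ω2 w => (-1) * |F ω1 ω2 w|) F
      (fun ω1 ω2 w _ => by have := neg_abs_le (F ω1 ω2 w); linarith)
    rw [h] at h2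
    linarith
  · exact K.L3_mono o T r r0 ω0 _ _ (fun ω1 ω2 w _ => le_abs_self _)

theorem tip_ne (x y : V) (w : List V) (h : w ≠ []) : tip x w = tip y w := by
  cases w with
  | nil => exact absurd rfl h
  | cons a w => simp [tip]

theorem L3_first (o : V) (T r r0 : ℕ) (hr0 : 1 ≤ r0) (ω0 : List V) (k : ℤ) :
    K.L3 o T r r0 ω0 (fun ω1 ω2 w =>
      if (len (w ++ ω2 ++ ω1 ++ ω0) : ℤ) = k then (1 : ℝ) else 0) =
      (1 / (r : ℝ)) * ∑ R ∈ range r, ∑ t ∈ range T, K.gg (tip o ω0) ω0 k (r + R + r0 + t) := by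
  unfold L3
  have key : ∀ R ∈ range r, K.EW (r + R) (tip o ω0) (fun ω1 =>
      K.EW r0 (tip (tip o ω0) ω1) (fun ω2 => ∑ t ∈ range T, K.EW t (tip o ω2) (fun w =>
          if (len (w ++ ω2 ++ ω1 ++ ω0) : ℤ) = k then (1 : ℝ) else 0))) =
      ∑ t ∈ range T, K.gg (tip o ω0) ω0 k (r + R + r0 + t) := by
    intro R _
    have h : ∀ t : ℕ, K.gg (tip o ω0) ω0 k (r + R + r0 + t) =
        K.EW (r + R) (tip o ω0) (fun ω1 => K.EW r0 (tip (tip o ω0) ω1) (fun ω2 =>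
          K.EW t (tip o ω2) (fun w =>
            if (len (w ++ ω2 ++ ω1 ++ ω0) : ℤ) = k then (1 : ℝ) else 0))) := by
      intro t
      rw [gg, add_assoc (r + R) r0 t, K.EW_append]
      refine K.EW_congr _ _ _ _ fun ω1 _ => ?_
      rw [K.EW_append]
      refine K.EW_congr _ _ _ _ fun ω2 h2 => ?_
      have h3 : ω2 ≠ [] := by
        intro h4; rw [h4] at h2; simp at h2; omega
      rw [tip_ne (tip (tip o ω0) ω1) o ω2 h3]
    calc K.EW (r + R) (tip o ω0) (fun ω1 =>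
      K.EW r0 (tip (tip o ω0) ω1) (fun ω2 => ∑ t ∈ range T, K.EW t (tip o ω2) (fun w =>
          if (len (w ++ ω2 ++ ω1 ++ ω0) : ℤ) = k then (1 : ℝ) else 0))) =
        K.EW (r + R) (tip o ω0) (fun ω1 => ∑ t ∈ range T,
          K.EW r0 (tip (tip o ω0) ω1) (fun ω2 => K.EW t (tip o ω2) (fun w =>
            if (len (w ++ ω2 ++ ω1 ++ ω0) : ℤ) = k then (1 : ℝ) else 0))) := by
          refine K.EW_congr _ _ _ _ fun ω1 _ => ?_
          exact K.EW_sum (range T) r0 (tip (tip o ω0) ω1) (fun t ω2 => K.EW t (tip o ω2) (fun w =>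
            if (len (w ++ ω2 ++ ω1 ++ ω0) : ℤ) = k then (1 : ℝ) else 0))
      _ = ∑ t ∈ range T, K.EW (r + R) (tip o ω0) (fun ω1 =>
          K.EW r0 (tip (tip o ω0) ω1) (fun ω2 => K.EW t (tip o ω2) (fun w =>
            if (len (w ++ ω2 ++ ω1 ++ ω0) : ℤ) = k then (1 : ℝ) else 0))) :=
          K.EW_sum (range T) (r + R) (tip o ω0) (fun t ω1 =>
            K.EW r0 (tip (tip o ω0) ω1) (fun ω2 => K.EW t (tip o ω2) (fun w =>
            if (len (w ++ ω2 ++ ω1 ++ ω0) : ℤ) = k then (1 : ℝ) else 0)))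
      _ = ∑ t ∈ range T, K.gg (tip o ω0) ω0 k (r + R + r0 + t) :=
          Finset.sum_congr rfl fun t _ => (h t).symm
  rw [Finset.sum_congr rfl key]

theorem shift_abs (g : ℕ → ℝ) (hg : ∀ t, 0 ≤ g t) (T m M : ℕ) (hm : m ≤ M) :
    |∑ t ∈ range T, g t - ∑ t ∈ range T, g (m + t)| ≤
      ∑ t ∈ range M, g t + ∑ t ∈ range M, g (T + t) := by
  have h1 : ∑ t ∈ range (T + m), g t = ∑ t ∈ range T, g t + ∑ t ∈ range m, g (T + t) :=
    Finset.sum_range_add g T m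
  have h2 : ∑ t ∈ range (m + T), g t = ∑ t ∈ range m, g t + ∑ t ∈ range T, g (m + t) :=
    Finset.sum_range_add g m T
  rw [add_comm m T] at h2
  have h3 : ∑ t ∈ range m, g t ≤ ∑ t ∈ range M, g t :=
    Finset.sum_le_sum_of_subset_of_nonneg (Finset.range_mono hm) fun i _ _ => hg i
  have h4 : ∑ t ∈ range m, g (T + t) ≤ ∑ t ∈ range M, g (T + t) :=
    Finset.sum_le_sum_of_subset_of_nonneg (Finset.range_mono hm) fun i _ _ => hg _
  have h5 : 0 ≤ ∑ t ∈ range m, g t := Finset.sum_nonneg fun i _ => hg i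
  have h6 : 0 ≤ ∑ t ∈ range m, g (T + t) := Finset.sum_nonneg fun i _ => hg _
  rw [abs_le]
  constructor <;> linarith

theorem shift_le (g : ℕ → ℝ) (hg : ∀ t, 0 ≤ g t) (T m M : ℕ) (hm : m + T ≤ M) :
    ∑ t ∈ range T, g (m + t) ≤ ∑ t ∈ range M, g t := by
  have h2 : ∑ t ∈ range (m + T), g t = ∑ t ∈ range m, g t + ∑ t ∈ range T, g (m + t) :=
    Finset.sum_range_add g m T
  have h3 : ∑ t ∈ range (m + T), g t ≤ ∑ t ∈ range M, g t :=
    Finset.sum_le_sum_of_subset_of_nonneg (Finset.range_mono hm) fun i _ _ => hg i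
  have h5 : 0 ≤ ∑ t ∈ range m, g t := Finset.sum_nonneg fun i _ => hg i
  linarith

theorem avg_le (r : ℕ) (hr : 1 ≤ r) (f : ℕ → ℝ) (c : ℝ) (h : ∀ R ∈ range r, f R ≤ c) :
    (1 / (r : ℝ)) * ∑ R ∈ range r, f R ≤ c := by
  have h1 := Finset.sum_le_card_nsmul (range r) f c h
  rw [Finset.card_range, nsmul_eq_mul] at h1
  have hr' : (0 : ℝ) < r := by exact_mod_cast hr
  rw [one_div, inv_mul_le_iff₀ hr']
  exact h1

theorem cutI_or {V : Type} (w ω p : List V) : cutI w ω p = 0 ∨ cutI w ω p = 1 := by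
  unfold cutI
  split_ifs
  · right; rfl
  · left; rfl

/-- the two parts of the error measure -/
theorem s_abs (o : V) (T r r0 : ℕ) (hr : 1 ≤ r) (hr0r : r0 ≤ r) (x0 : V) (ω0 : List V) (k : ℤ) :
    |∑ t ∈ range T, K.gg x0 ω0 k t -
      (1 / (r : ℝ)) * ∑ R ∈ range r, ∑ t ∈ range T, K.gg x0 ω0 k (r + R + r0 + t)| ≤
      ∑ t ∈ range (3 * r), K.gg x0 ω0 k t + ∑ t ∈ range (3 * r), K.gg x0 ω0 k (T + t) := by
  have hr' : (0 : ℝ) < r := by exact_mod_cast hr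
  have h1 : ∑ t ∈ range T, K.gg x0 ω0 k t -
      (1 / (r : ℝ)) * ∑ R ∈ range r, ∑ t ∈ range T, K.gg x0 ω0 k (r + R + r0 + t) =
      (1 / (r : ℝ)) * ∑ R ∈ range r, (∑ t ∈ range T, K.gg x0 ω0 k t -
        ∑ t ∈ range T, K.gg x0 ω0 k (r + R + r0 + t)) := by
    rw [Finset.sum_sub_distrib, Finset.sum_const, Finset.card_range, nsmul_eq_mul]
    field_simp
  rw [h1, abs_mul, abs_of_nonneg (by positivity : 0 ≤ 1 / (r : ℝ))]
  refine le_trans (mul_le_mul_of_nonneg_left (Finset.abs_sum_le_sum_abs _ _) (by positivity)) ?_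
  refine avg_le r hr _ _ fun R hR => ?_
  have hR' := Finset.mem_range.mp hR
  exact shift_abs (K.gg x0 ω0 k) (K.gg_nonneg x0 ω0 k) T (r + R + r0) (3 * r) (by omega)

theorem S_le (o : V) (T r : ℕ) (hT : 3 * r ≤ T) (x0 : V) (ω0 : List V)
    (hω : ω0.head? = some x0) (k : ℤ) :
    ∑ t ∈ range (3 * r), K.gg x0 ω0 k t + ∑ t ∈ range (3 * r), K.gg x0 ω0 k (T + t) ≤
      K.Th o (T + 3 * r) * K.hits (T + 3 * r) x0 ω0 := by
  refine le_trans ?_ (K.gg_range_le o (T + 3 * r) x0 k ω0 hω)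
  have h1 : ∑ t ∈ range (T + 3 * r), K.gg x0 ω0 k t = ∑ t ∈ range T, K.gg x0 ω0 k t +
      ∑ t ∈ range (3 * r), K.gg x0 ω0 k (T + t) := Finset.sum_range_add _ T (3 * r)
  have h2 : ∑ t ∈ range (3 * r), K.gg x0 ω0 k t ≤ ∑ t ∈ range T, K.gg x0 ω0 k t :=
    Finset.sum_le_sum_of_subset_of_nonneg (Finset.range_mono hT)
      fun i _ _ => K.gg_nonneg x0 ω0 k i
  have h3 : ∑ t ∈ range (T + 3 * r), K.gg x0 ω0 k t ≤
      ∑ t ∈ range (T + 3 * r + 1), K.gg x0 ω0 k t :=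
    Finset.sum_le_sum_of_subset_of_nonneg (Finset.range_mono (by omega))
      fun i _ _ => K.gg_nonneg x0 ω0 k i
  linarith

theorem S_sum_le (T r : ℕ) (x0 : V) (ω0 : List V) (s : Finset ℤ) :
    ∑ k ∈ s, (∑ t ∈ range (3 * r), K.gg x0 ω0 k t +
      ∑ t ∈ range (3 * r), K.gg x0 ω0 k (T + t)) ≤ 6 * r := by
  rw [Finset.sum_add_distrib, Finset.sum_comm, Finset.sum_comm (s := s)]
  have h1 := Finset.sum_le_card_nsmul (range (3 * r)) (fun t => ∑ k ∈ s, K.gg x0 ω0 k t) 1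
    fun t _ => K.gg_sum_le x0 ω0 s t
  have h2 := Finset.sum_le_card_nsmul (range (3 * r)) (fun t => ∑ k ∈ s, K.gg x0 ω0 k (T + t)) 1
    fun t _ => K.gg_sum_le x0 ω0 s (T + t)
  rw [Finset.card_range, nsmul_eq_mul] at h1 h2
  push_cast at h1 h2
  linarith

theorem F'_le (o : V) (T r r0 : ℕ) (hr : 1 ≤ r) (hr0r : r0 ≤ r) (x0 : V) (ω0 : List V)
    (hω : ω0.head? = some x0) (k : ℤ) :
    (1 / (r : ℝ)) * ∑ R ∈ range r, ∑ t ∈ range T, K.gg x0 ω0 k (r + R + r0 + t) ≤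
      K.Th o (T + 3 * r) * K.hits (T + 3 * r) x0 ω0 := by
  refine avg_le r hr _ _ fun R hR => ?_
  have hR' := Finset.mem_range.mp hR
  refine le_trans ?_ (K.gg_range_le o (T + 3 * r) x0 k ω0 hω)
  exact shift_le (K.gg x0 ω0 k) (K.gg_nonneg x0 ω0 k) T (r + R + r0) (T + 3 * r + 1) (by omega)

theorem hM_le (o : V) (T r r0 : ℕ) (Θ : ℝ) (hr : 1 ≤ r) (hr0 : 1 ≤ r0)
    (hΘ1 : K.Th o T ≤ Θ) (hΘ2 : K.Th o (T + r0) ≤ Θ) (k : ℤ) (ω0 : List V) :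
    K.hM o T r r0 k ω0 ≤ Θ * Θ := by
  unfold hM
  have hΘ0 : 0 ≤ Θ := le_trans (le_trans zero_le_one (K.one_le_Th o T)) hΘ1
  refine avg_le r hr _ _ fun R _ => ?_
  refine K.EW_le_const _ _ _ _ fun ω1 _ => ?_
  set x1 := tip (tip o ω0) ω1 with hx1
  have h1 : K.EW r0 x1 (fun ω2 => ∑ t ∈ range T, K.EW t (tip o ω2) (fun w =>
        if (len (w ++ ω2) : ℤ) + (len (ω2 ++ ω1 ++ ω0) : ℤ) - (len ω2 : ℤ) = k
        then (1 : ℝ) else 0)) ≤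
      K.EW r0 x1 (fun ω2 => Θ * K.hits T (tip x1 ω2) (ω2 ++ [x1])) := by
    refine K.EW_mono _ _ _ _ fun ω2 h2 => ?_
    have h3 : ω2 ≠ [] := by
      intro h4; rw [h4] at h2; simp at h2; omega
    obtain ⟨a, tl, rfl⟩ := List.exists_cons_of_ne_nil h3
    have h5 : ∀ t, K.EW t (tip o (a :: tl)) (fun w =>
        if (len (w ++ (a :: tl)) : ℤ) + (len ((a :: tl) ++ ω1 ++ ω0) : ℤ) - (len (a :: tl) : ℤ) = k
        then (1 : ℝ) else 0) =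
        K.gg a (a :: tl) (k - (len ((a :: tl) ++ ω1 ++ ω0) : ℤ) + (len (a :: tl) : ℤ)) t := by
      intro t
      rw [gg]
      refine K.EW_congr _ _ _ _ fun w _ => ?_
      refine if_congr ?_ rfl rfl
      constructor <;> intro h <;> linarith
    rw [Finset.sum_congr rfl fun t _ => h5 t]
    have h6 := K.gg_range_le o T a
      (k - (len ((a :: tl) ++ ω1 ++ ω0) : ℤ) + (len (a :: tl) : ℤ)) (a :: tl) rfl
    have h7 : ∑ t ∈ range T, K.gg a (a :: tl)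
        (k - (len ((a :: tl) ++ ω1 ++ ω0) : ℤ) + (len (a :: tl) : ℤ)) t ≤
        ∑ t ∈ range (T + 1), K.gg a (a :: tl)
        (k - (len ((a :: tl) ++ ω1 ++ ω0) : ℤ) + (len (a :: tl) : ℤ)) t :=
      Finset.sum_le_sum_of_subset_of_nonneg (Finset.range_mono (by omega))
        fun i _ _ => K.gg_nonneg _ _ _ i
    refine le_trans h7 (le_trans h6 ?_)
    have h8 : K.hits T (tip x1 (a :: tl)) ((a :: tl) ++ [x1]) =
        K.hits T a (a :: tl) + K.hits T a [x1] := by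
      rw [K.hits_append]; simp
    rw [h8]
    have h9 := K.hits_nonneg T a (a :: tl)
    have h10 := K.hits_nonneg T a [x1]
    calc K.Th o T * K.hits T a (a :: tl) ≤ Θ * K.hits T a (a :: tl) :=
          mul_le_mul_of_nonneg_right hΘ1 h9
      _ ≤ Θ * (K.hits T a (a :: tl) + K.hits T a [x1]) :=
          mul_le_mul_of_nonneg_left (by linarith) hΘ0
  refine le_trans h1 ?_
  rw [K.EW_mul_left]
  refine mul_le_mul_of_nonneg_left ?_ hΘ0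
  refine le_trans (K.E_hits x1 T r0) ?_
  rw [K.Th_inv x1 o]
  exact hΘ2

/-- mass of the paths without a cut -/
noncomputable def BB (o : V) (T r r0 : ℕ) (ω0 : List V) : ℝ :=
  K.L3 o T r r0 ω0 (fun ω1 ω2 w => 1 - cutI w ω2 (ω1 ++ ω0))

theorem BB_nonneg (o : V) (T r r0 : ℕ) (ω0 : List V) : 0 ≤ K.BB o T r r0 ω0 := by
  refine K.L3_nonneg _ _ _ _ _ _ fun ω1 ω2 w _ => ?_
  rcases cutI_or w ω2 (ω1 ++ ω0) with h | h <;> rw [h] <;> norm_num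

theorem BB_le (o : V) (T r r0 : ℕ) (hr : 1 ≤ r) (ω0 : List V) : K.BB o T r r0 ω0 ≤ T := by
  rw [← K.L3_one o T r r0 hr ω0]
  refine K.L3_mono _ _ _ _ _ _ _ fun ω1 ω2 w _ => ?_
  rcases cutI_or w ω2 (ω1 ++ ω0) with h | h <;> rw [h] <;> norm_num

theorem b_abs (o : V) (T r r0 : ℕ) (hr0 : 1 ≤ r0) (ω0 : List V) (k : ℤ) :
    |(1 / (r : ℝ)) * ∑ R ∈ range r, ∑ t ∈ range T, K.gg (tip o ω0) ω0 k (r + R + r0 + t) -
      K.hM o T r r0 k ω0| ≤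
    K.L3 o T r r0 ω0 (fun ω1 ω2 w => (1 - cutI w ω2 (ω1 ++ ω0)) *
      ((if (len (w ++ ω2 ++ ω1 ++ ω0) : ℤ) = k then (1 : ℝ) else 0) +
       (if (len (w ++ ω2) : ℤ) + (len (ω2 ++ ω1 ++ ω0) : ℤ) - (len ω2 : ℤ) = k
        then (1 : ℝ) else 0))) := by
  rw [← K.L3_first o T r r0 hr0 ω0 k, K.hM_eq, ← K.L3_sub]
  refine le_trans (K.abs_L3_le _ _ _ _ _ _) ?_
  refine K.L3_mono _ _ _ _ _ _ _ fun ω1 ω2 w _ => ?_
  rcases cutI_or w ω2 (ω1 ++ ω0) with h | h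
  · rw [h]
    split_ifs <;> norm_num
  · have h1 := cut_len w ω2 (ω1 ++ ω0) h
    have h2 : (len (w ++ ω2 ++ ω1 ++ ω0) : ℤ) =
        (len (w ++ ω2) : ℤ) + (len (ω2 ++ ω1 ++ ω0) : ℤ) - (len ω2 : ℤ) := by
      have h3 : w ++ ω2 ++ ω1 ++ ω0 = w ++ ω2 ++ (ω1 ++ ω0) := by simp
      have h4 : ω2 ++ ω1 ++ ω0 = ω2 ++ (ω1 ++ ω0) := by simp
      rw [h3, h4]
      omega
    rw [h, h2]
    simp

theorem b_sum_le (o : V) (T r r0 : ℕ) (hr0 : 1 ≤ r0) (ω0 : List V) (s : Finset ℤ) :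
    ∑ k ∈ s, |(1 / (r : ℝ)) * ∑ R ∈ range r, ∑ t ∈ range T,
        K.gg (tip o ω0) ω0 k (r + R + r0 + t) - K.hM o T r r0 k ω0| ≤
      2 * K.BB o T r r0 ω0 := by
  refine le_trans (Finset.sum_le_sum fun k _ => K.b_abs o T r r0 hr0 ω0 k) ?_
  rw [← K.L3_sum, BB, ← K.L3_smul]
  refine K.L3_mono _ _ _ _ _ _ _ fun ω1 ω2 w _ => ?_
  rw [← Finset.mul_sum, Finset.sum_add_distrib]
  have h1 := ind_sum_le s (len (w ++ ω2 ++ ω1 ++ ω0) : ℤ)
  have h2 := ind_sum_le s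
    ((len (w ++ ω2) : ℤ) + (len (ω2 ++ ω1 ++ ω0) : ℤ) - (len ω2 : ℤ))
  have h3 : 0 ≤ 1 - cutI w ω2 (ω1 ++ ω0) := by
    rcases cutI_or w ω2 (ω1 ++ ω0) with h | h <;> rw [h] <;> norm_num
  nlinarith

theorem b_sup (o : V) (T r r0 : ℕ) (Θ : ℝ) (hr : 1 ≤ r) (hr0 : 1 ≤ r0) (hr0r : r0 ≤ r)
    (hΘ : K.Th o (T + 4 * r) ≤ Θ) (ω0 : List V) (hω : ω0 ≠ []) (k : ℤ) :
    |(1 / (r : ℝ)) * ∑ R ∈ range r, ∑ t ∈ range T,
        K.gg (tip o ω0) ω0 k (r + R + r0 + t) - K.hM o T r r0 k ω0| ≤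
      Θ * K.hits (T + 3 * r) (tip o ω0) (ω0 ++ [o]) + Θ * Θ := by
  have hΘ0 : 0 ≤ Θ := le_trans (le_trans zero_le_one (K.one_le_Th o _)) hΘ
  have h1 : 0 ≤ (1 / (r : ℝ)) * ∑ R ∈ range r, ∑ t ∈ range T,
      K.gg (tip o ω0) ω0 k (r + R + r0 + t) :=
    mul_nonneg (by positivity) (Finset.sum_nonneg fun R _ => Finset.sum_nonneg fun t _ =>
      K.gg_nonneg _ _ _ _)
  have h2 : 0 ≤ K.hM o T r r0 k ω0 := by
    rw [K.hM_eq]
    refine K.L3_nonneg _ _ _ _ _ _ fun ω1 ω2 w _ => ?_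
    split_ifs <;> norm_num
  have h3 : K.hM o T r r0 k ω0 ≤ Θ * Θ :=
    K.hM_le o T r r0 Θ hr hr0 (le_trans (K.Th_mono o _ _ (by omega)) hΘ)
      (le_trans (K.Th_mono o _ _ (by omega)) hΘ) k ω0
  obtain ⟨a, tl, rfl⟩ := List.exists_cons_of_ne_nil hω
  have h4 := K.F'_le o T r r0 hr hr0r a (a :: tl) rfl k
  have h5 := K.hits_nonneg (T + 3 * r) a (a :: tl)
  have h6 := K.hits_nonneg (T + 3 * r) a [o]
  have h7 : K.Th o (T + 3 * r) * K.hits (T + 3 * r) a (a :: tl) ≤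
      Θ * K.hits (T + 3 * r) (tip o (a :: tl)) ((a :: tl) ++ [o]) := by
    rw [K.hits_append, tip_cons]
    calc K.Th o (T + 3 * r) * K.hits (T + 3 * r) a (a :: tl) ≤
        Θ * K.hits (T + 3 * r) a (a :: tl) :=
          mul_le_mul_of_nonneg_right (le_trans (K.Th_mono o _ _ (by omega)) hΘ) h5
      _ ≤ _ := mul_le_mul_of_nonneg_left (by linarith) hΘ0
  rw [tip_cons] at h1 h7 ⊢
  have h8 : 0 ≤ Θ * K.hits (T + 3 * r) a ((a :: tl) ++ [o]) :=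
    mul_nonneg hΘ0 (K.hits_nonneg _ _ _)
  have h9 : 0 ≤ Θ * Θ := mul_nonneg hΘ0 hΘ0
  rw [abs_le]
  constructor <;> linarith

theorem S_sup (o : V) (T r : ℕ) (Θ : ℝ) (hT : 3 * r ≤ T)
    (hΘ : K.Th o (T + 4 * r) ≤ Θ) (ω0 : List V) (hω : ω0 ≠ []) (k : ℤ) :
    ∑ t ∈ range (3 * r), K.gg (tip o ω0) ω0 k t +
      ∑ t ∈ range (3 * r), K.gg (tip o ω0) ω0 k (T + t) ≤
      Θ * K.hits (T + 3 * r) (tip o ω0) (ω0 ++ [o]) := by
  have hΘ0 : 0 ≤ Θ := le_trans (le_trans zero_le_one (K.one_le_Th o _)) hΘ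
  obtain ⟨a, tl, rfl⟩ := List.exists_cons_of_ne_nil hω
  have h5 := K.hits_nonneg (T + 3 * r) a (a :: tl)
  have h6 := K.hits_nonneg (T + 3 * r) a [o]
  rw [tip_cons]
  refine le_trans (K.S_le o T r hT a (a :: tl) rfl k) ?_
  rw [K.hits_append]
  calc K.Th o (T + 3 * r) * K.hits (T + 3 * r) a (a :: tl) ≤
        Θ * K.hits (T + 3 * r) a (a :: tl) :=
          mul_le_mul_of_nonneg_right (le_trans (K.Th_mono o _ _ (by omega)) hΘ) h5
      _ ≤ _ := mul_le_mul_of_nonneg_left (by linarith) hΘ0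

theorem d_point (o : V) (T r r0 N : ℕ) (Θ : ℝ) (hr : 1 ≤ r) (hr0 : 1 ≤ r0) (hr0r : r0 ≤ r)
    (hT : 3 * r ≤ T) (hΘ : K.Th o (T + 4 * r) ≤ Θ) (ω0 : List V) (hω : ω0 ≠ []) :
    ∑ k ∈ Icc (-(N : ℤ)) (N : ℤ), K.dk o T r r0 k ω0 ^ 2 ≤
      12 * r * Θ * K.hits (T + 3 * r) (tip o ω0) (ω0 ++ [o]) +
      4 * (K.BB o T r r0 ω0 *
        (Θ * K.hits (T + 3 * r) (tip o ω0) (ω0 ++ [o]) + Θ * Θ)) := by
  have hΘ0 : 0 ≤ Θ := le_trans (le_trans zero_le_one (K.one_le_Th o _)) hΘ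
  set H := K.hits (T + 3 * r) (tip o ω0) (ω0 ++ [o]) with hH
  have hH0 : 0 ≤ H := K.hits_nonneg _ _ _
  set F' : ℤ → ℝ := fun k => (1 / (r : ℝ)) * ∑ R ∈ range r, ∑ t ∈ range T,
        K.gg (tip o ω0) ω0 k (r + R + r0 + t) with hF'
  set S : ℤ → ℝ := fun k => ∑ t ∈ range (3 * r), K.gg (tip o ω0) ω0 k t +
      ∑ t ∈ range (3 * r), K.gg (tip o ω0) ω0 k (T + t) with hS
  have hS0 : ∀ k, 0 ≤ S k := fun k => add_nonneg
    (Finset.sum_nonneg fun t _ => K.gg_nonneg _ _ _ _)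
    (Finset.sum_nonneg fun t _ => K.gg_nonneg _ _ _ _)
  have hpt : ∀ k, K.dk o T r r0 k ω0 ^ 2 ≤ 2 * (Θ * H) * S k +
      2 * (Θ * H + Θ * Θ) * |F' k - K.hM o T r r0 k ω0| := by
    intro k
    have h1 := K.s_abs o T r r0 hr hr0r (tip o ω0) ω0 k
    have h2 := K.S_sup o T r Θ hT hΘ ω0 hω k
    have h3 := K.b_sup o T r r0 Θ hr hr0 hr0r hΘ ω0 hω k
    have h4 : K.dk o T r r0 k ω0 = (∑ t ∈ range T, K.gg (tip o ω0) ω0 k t - F' k) +
        (F' k - K.hM o T r r0 k ω0) := by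
      rw [dk, K.F_eq]; ring
    rw [h4]
    set a := ∑ t ∈ range T, K.gg (tip o ω0) ω0 k t - F' k with ha
    set b := F' k - K.hM o T r r0 k ω0 with hb
    have h5 : |a| ≤ S k := h1
    have h6 : S k ≤ Θ * H := h2
    have h7 : |b| ≤ Θ * H + Θ * Θ := h3
    have h8 : (a + b) ^ 2 ≤ 2 * a ^ 2 + 2 * b ^ 2 := by nlinarith [sq_nonneg (a - b)]
    have h9 : a ^ 2 ≤ Θ * H * S k := by
      rw [← sq_abs]
      have : 0 ≤ |a| := abs_nonneg a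
      nlinarith [hS0 k]
    have h10 : b ^ 2 ≤ (Θ * H + Θ * Θ) * |b| := by
      rw [← sq_abs]
      have : 0 ≤ |b| := abs_nonneg b
      nlinarith
    linarith
  refine le_trans (Finset.sum_le_sum fun k _ => hpt k) ?_
  rw [Finset.sum_add_distrib, ← Finset.mul_sum, ← Finset.mul_sum]
  have h1 : ∑ k ∈ Icc (-(N : ℤ)) (N : ℤ), S k ≤ 6 * r :=
    K.S_sum_le T r (tip o ω0) ω0 _
  have h2 : ∑ k ∈ Icc (-(N : ℤ)) (N : ℤ), |F' k - K.hM o T r r0 k ω0| ≤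
      2 * K.BB o T r r0 ω0 := K.b_sum_le o T r r0 hr0 ω0 _
  have h3 : 0 ≤ Θ * H := mul_nonneg hΘ0 hH0
  have h4 : 0 ≤ Θ * H + Θ * Θ := add_nonneg h3 (mul_nonneg hΘ0 hΘ0)
  have h5 := mul_le_mul_of_nonneg_left h1 (by linarith : 0 ≤ 2 * (Θ * H))
  have h6 := mul_le_mul_of_nonneg_left h2 (by linarith : 0 ≤ 2 * (Θ * H + Θ * Θ))
  linarith

theorem E_BB (o : V) (T r r0 : ℕ) (pb : ℝ) (hr : 1 ≤ r)
    (hpb : ∀ R < r, ∀ t < T, K.EW r0 o (fun ω0 => K.EW (r + R) (tip o ω0) (fun ω1 =>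
      K.EW r0 (tip (tip o ω0) ω1) (fun ω2 => K.EW t (tip o ω2) (fun w =>
        1 - cutI w ω2 (ω1 ++ ω0))))) ≤ pb) :
    K.EW r0 o (fun ω0 => K.BB o T r r0 ω0) ≤ T * pb := by
  have h1 : ∀ ω0, K.BB o T r r0 ω0 = (1 / (r : ℝ)) * ∑ R ∈ range r, ∑ t ∈ range T,
      K.EW (r + R) (tip o ω0) (fun ω1 =>
      K.EW r0 (tip (tip o ω0) ω1) (fun ω2 => K.EW t (tip o ω2) (fun w =>
        1 - cutI w ω2 (ω1 ++ ω0)))) := by
    intro ω0
    unfold BB L3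
    have h2 : ∀ R ∈ range r, K.EW (r + R) (tip o ω0) (fun ω1 =>
        K.EW r0 (tip (tip o ω0) ω1) (fun ω2 => ∑ t ∈ range T, K.EW t (tip o ω2) (fun w =>
        1 - cutI w ω2 (ω1 ++ ω0)))) = ∑ t ∈ range T, K.EW (r + R) (tip o ω0) (fun ω1 =>
        K.EW r0 (tip (tip o ω0) ω1) (fun ω2 => K.EW t (tip o ω2) (fun w =>
        1 - cutI w ω2 (ω1 ++ ω0)))) := by
      intro R _
      rw [← K.EW_sum]
      refine K.EW_congr _ _ _ _ fun ω1 _ => ?_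
      rw [← K.EW_sum]
    rw [Finset.sum_congr rfl h2]
  have h3 : K.EW r0 o (fun ω0 => K.BB o T r r0 ω0) = (1 / (r : ℝ)) * ∑ R ∈ range r,
      ∑ t ∈ range T, K.EW r0 o (fun ω0 => K.EW (r + R) (tip o ω0) (fun ω1 =>
      K.EW r0 (tip (tip o ω0) ω1) (fun ω2 => K.EW t (tip o ω2) (fun w =>
        1 - cutI w ω2 (ω1 ++ ω0))))) := by
    rw [K.EW_congr r0 o _ _ fun ω0 _ => h1 ω0, K.EW_mul_left, K.EW_sum]
    have h4 : ∀ R ∈ range r, K.EW r0 o (fun ω0 => ∑ t ∈ range T,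
        K.EW (r + R) (tip o ω0) (fun ω1 =>
        K.EW r0 (tip (tip o ω0) ω1) (fun ω2 => K.EW t (tip o ω2) (fun w =>
        1 - cutI w ω2 (ω1 ++ ω0))))) = ∑ t ∈ range T, K.EW r0 o (fun ω0 =>
        K.EW (r + R) (tip o ω0) (fun ω1 =>
        K.EW r0 (tip (tip o ω0) ω1) (fun ω2 => K.EW t (tip o ω2) (fun w =>
        1 - cutI w ω2 (ω1 ++ ω0))))) := fun R _ => K.EW_sum _ _ _ _
    rw [Finset.sum_congr rfl h4]
  rw [h3]
  refine avg_le r hr _ _ fun R hR => ?_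
  have h5 := Finset.sum_le_card_nsmul (range T) (fun t => K.EW r0 o (fun ω0 =>
        K.EW (r + R) (tip o ω0) (fun ω1 =>
        K.EW r0 (tip (tip o ω0) ω1) (fun ω2 => K.EW t (tip o ω2) (fun w =>
        1 - cutI w ω2 (ω1 ++ ω0)))))) pb
        fun t ht => hpb R (Finset.mem_range.mp hR) t (Finset.mem_range.mp ht)
  rw [Finset.card_range, nsmul_eq_mul] at h5
  exact h5

end Ker

-- TARGET
namespace Ker
variable {V : Type} [Fintype V] [DecidableEq V] (K : Ker V)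

theorem d_sq (o : V) (T r r0 N : ℕ) (Θ pb : ℝ) (hr : 1 ≤ r) (hr0 : 1 ≤ r0) (hr0r : r0 ≤ r)
    (hT : 3 * r ≤ T) (hΘ : K.Th o (T + 4 * r) ≤ Θ)
    (hpb : ∀ R < r, ∀ t < T, K.EW r0 o (fun ω0 => K.EW (r + R) (tip o ω0) (fun ω1 =>
      K.EW r0 (tip (tip o ω0) ω1) (fun ω2 => K.EW t (tip o ω2) (fun w =>
        1 - cutI w ω2 (ω1 ++ ω0))))) ≤ pb) :
    K.EW r0 o (fun ω0 => ∑ k ∈ Icc (-(N : ℤ)) (N : ℤ), K.dk o T r r0 k ω0 ^ 2)
      ≤ 12 * r * Θ ^ 2 + 16 * T * Θ ^ 2 * Real.sqrt pb := by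
  have hr' : (0 : ℝ) < r := by exact_mod_cast hr
  have hΘ0 : 0 ≤ Θ := le_trans (le_trans zero_le_one (K.one_le_Th o _)) hΘ
  have hpb0 : 0 ≤ pb := by
    refine le_trans ?_ (hpb 0 (by omega) 0 (by omega))
    refine K.EW_nonneg _ _ _ fun ω0 _ => K.EW_nonneg _ _ _ fun ω1 _ =>
      K.EW_nonneg _ _ _ fun ω2 _ => K.EW_nonneg _ _ _ fun w _ => ?_
    rcases cutI_or w ω2 (ω1 ++ ω0) with h | h <;> rw [h] <;> norm_num
  have h1 : K.EW r0 o (fun ω0 => ∑ k ∈ Icc (-(N : ℤ)) (N : ℤ), K.dk o T r r0 k ω0 ^ 2) ≤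
      K.EW r0 o (fun ω0 => 12 * r * Θ * K.hits (T + 3 * r) (tip o ω0) (ω0 ++ [o]) +
      4 * (K.BB o T r r0 ω0 *
        (Θ * K.hits (T + 3 * r) (tip o ω0) (ω0 ++ [o]) + Θ * Θ))) := by
    refine K.EW_mono _ _ _ _ fun ω0 h0 => ?_
    have h2 : ω0 ≠ [] := by
      intro h4; rw [h4] at h0; simp at h0; omega
    exact K.d_point o T r r0 N Θ hr hr0 hr0r hT hΘ ω0 h2
  refine le_trans h1 ?_
  rw [K.EW_add, K.EW_mul_left, K.EW_mul_left]
  have h2 : K.EW r0 o (fun ω0 => K.hits (T + 3 * r) (tip o ω0) (ω0 ++ [o])) ≤ Θ :=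
    le_trans (K.E_hits o (T + 3 * r) r0) (le_trans (K.Th_mono o _ _ (by omega)) hΘ)
  have h3 : K.EW r0 o (fun ω0 => K.hits (T + 3 * r) (tip o ω0) (ω0 ++ [o]) ^ 2) ≤ 4 * Θ ^ 2 := by
    refine le_trans (K.E_hits_sq o (T + 3 * r) r0) ?_
    have h4 : K.Th o (T + 3 * r + r0) ≤ Θ := le_trans (K.Th_mono o _ _ (by omega)) hΘ
    have h5 := K.one_le_Th o (T + 3 * r + r0)
    nlinarith
  have h4 : K.EW r0 o (fun ω0 => (Θ * K.hits (T + 3 * r) (tip o ω0) (ω0 ++ [o]) + Θ * Θ) ^ 2) ≤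
      16 * Θ ^ 4 := by
    refine le_trans (K.EW_mono _ _ _ (fun ω0 => 2 * Θ ^ 2 *
      K.hits (T + 3 * r) (tip o ω0) (ω0 ++ [o]) ^ 2 + 2 * Θ ^ 4) fun ω0 _ => ?_) ?_
    · nlinarith [sq_nonneg (Θ * K.hits (T + 3 * r) (tip o ω0) (ω0 ++ [o]) - Θ * Θ)]
    · rw [K.EW_add, K.EW_mul_left, K.EW_const]
      have h6 := mul_le_mul_of_nonneg_left h3 (by positivity : 0 ≤ 2 * Θ ^ 2)
      have h7 : 0 ≤ Θ ^ 4 := by positivity
      nlinarith
  have h5 : K.EW r0 o (fun ω0 => K.BB o T r r0 ω0 ^ 2) ≤ (T : ℝ) ^ 2 * pb := by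
    refine le_trans (K.EW_mono _ _ _ (fun ω0 => (T : ℝ) * K.BB o T r r0 ω0) fun ω0 _ => ?_) ?_
    · have h6 := K.BB_nonneg o T r r0 ω0
      have h7 := K.BB_le o T r r0 hr ω0
      nlinarith
    · rw [K.EW_mul_left]
      have h6 := K.E_BB o T r r0 pb hr hpb
      have h7 : (0 : ℝ) ≤ T := by positivity
      calc (T : ℝ) * K.EW r0 o (fun ω0 => K.BB o T r r0 ω0) ≤ T * (T * pb) :=
            mul_le_mul_of_nonneg_left h6 h7
        _ = (T : ℝ) ^ 2 * pb := by ring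
  have h6 := K.EW_sq_le r0 o (fun ω0 => K.BB o T r r0 ω0)
    (fun ω0 => Θ * K.hits (T + 3 * r) (tip o ω0) (ω0 ++ [o]) + Θ * Θ)
  have h7 : K.EW r0 o (fun ω0 => K.BB o T r r0 ω0 *
      (Θ * K.hits (T + 3 * r) (tip o ω0) (ω0 ++ [o]) + Θ * Θ)) ≤
      4 * T * Θ ^ 2 * Real.sqrt pb := by
    have h8 : 0 ≤ K.EW r0 o (fun ω0 => K.BB o T r r0 ω0 ^ 2) :=
      K.EW_nonneg _ _ _ fun _ _ => sq_nonneg _
    have h9 : (K.EW r0 o (fun ω0 => K.BB o T r r0 ω0 *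
      (Θ * K.hits (T + 3 * r) (tip o ω0) (ω0 ++ [o]) + Θ * Θ))) ^ 2 ≤
        (4 * T * Θ ^ 2 * Real.sqrt pb) ^ 2 := by
      refine le_trans h6 ?_
      have h10 := Real.sq_sqrt hpb0
      calc _ ≤ ((T : ℝ) ^ 2 * pb) * (16 * Θ ^ 4) :=
            mul_le_mul h5 h4 (K.EW_nonneg _ _ _ fun _ _ => sq_nonneg _) (by positivity)
        _ = (4 * T * Θ ^ 2 * Real.sqrt pb) ^ 2 := by
            rw [mul_pow, h10]; ring
    exact le_of_sq_le_sq h9 (by positivity)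
  have h8 := mul_le_mul_of_nonneg_left h2 (by positivity : 0 ≤ 12 * (r : ℝ) * Θ)
  linarith

end Ker

end HP192
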