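import Mathlib
import Pool.Agent.Helper192_HP.Defs
import Pool.Agent.Helper192_HP.WDefs

namespace HP192
open Finset

theorem parseval_geom (N L : ℕ) (hL : L = 2 * N + 1) (m : ℤ) (h1 : -(2 * (N : ℤ)) ≤ m)
    (h2 : m ≤ 2 * N) :
    ∑ j ∈ Icc (-(N : ℤ)) (N : ℤ), Complex.exp (2 * Real.pi * Complex.I * m * j / L) =
      if m = 0 then (L : ℂ) else 0 := by
  have hL0 : (L : ℂ) ≠ 0 := by
    have : L ≠ 0 := by omega
    exact_mod_cast this
  have hre : ∀ f : ℤ → ℂ, ∑ j ∈ Icc (-(N : ℤ)) (N : ℤ), f j = ∑ i ∈ range L, f ((i : ℤ) - N) := by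
    intro f
    symm
    apply Finset.sum_nbij (fun i : ℕ => (i : ℤ) - (N : ℤ))
    · intro i hi
      simp only [Finset.mem_range] at hi
      simp only [Finset.mem_Icc]
      omega
    · intro a _ b _ h
      simpa using h
    · intro j hj
      simp only [Finset.coe_Icc, Set.mem_Icc] at hj
      simp only [Set.mem_image, Finset.coe_range, Set.mem_Iio]
      exact ⟨(j + N).toNat, by omega, by omega⟩
    · intro i _
      rfl
  rw [hre]
  by_cases hm : m = 0
  · subst hm
    simp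
  · rw [if_neg hm]
    set z : ℂ := Complex.exp (2 * Real.pi * Complex.I * m / L) with hz
    have hzL : z ^ L = 1 := by
      rw [hz, ← Complex.exp_nat_mul]
      rw [Complex.exp_eq_one_iff]
      refine ⟨m, ?_⟩
      field_simp
    have hz1 : z ≠ 1 := by
      intro h
      rw [hz, Complex.exp_eq_one_iff] at h
      obtain ⟨n, hn⟩ := h
      have hpi : (2 * Real.pi * Complex.I : ℂ) ≠ 0 := Complex.two_pi_I_ne_zero
      have h3 : (m : ℂ) = n * L := by
        field_simp at hn
        have h4 : (2 * Real.pi * Complex.I : ℂ) * m = (2 * Real.pi * Complex.I : ℂ) * (n * L) := by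
          linear_combination (2 * Real.pi * Complex.I : ℂ) * hn
        exact mul_left_cancel₀ hpi h4
      have h5 : m = n * L := by exact_mod_cast h3
      have h6 : n = 0 := by
        by_contra hn0
        rcases lt_or_gt_of_ne hn0 with h7 | h7
        · have : n * (L : ℤ) ≤ -1 * L := mul_le_mul_of_nonneg_right (by omega) (by omega)
          omega
        · have : 1 * (L : ℤ) ≤ n * L := mul_le_mul_of_nonneg_right (by omega) (by omega)
          omega
      rw [h6, zero_mul] at h5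
      exact hm h5
    have hterm : ∀ i ∈ range L, Complex.exp (2 * Real.pi * Complex.I * m * (((i : ℤ) - (N : ℤ) : ℤ) : ℂ) / L)
        = z ^ i * Complex.exp (-(2 * Real.pi * Complex.I * m * N / L)) := by
      intro i _
      rw [hz, ← Complex.exp_nat_mul, ← Complex.exp_add]
      congr 1
      push_cast
      ring
    rw [Finset.sum_congr rfl hterm, ← Finset.sum_mul]
    have hgeo := geom_sum_mul z L
    rw [hzL, sub_self] at hgeo
    rcases mul_eq_zero.mp hgeo with h | h
    · rw [h, zero_mul]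
    · exact absurd (sub_eq_zero.mp h) hz1

/-- TARGET -/
theorem parseval (N L : ℕ) (hL : L = 2 * N + 1) (d : ℤ → ℝ) :
    ∑ j ∈ Icc (-(N : ℤ)) (N : ℤ), ‖∑ k ∈ Icc (-(N : ℤ)) (N : ℤ),
      (d k : ℂ) * Complex.exp (((k : ℝ) * (2 * Real.pi * j / L) : ℝ) * Complex.I)‖ ^ 2
      = L * ∑ k ∈ Icc (-(N : ℤ)) (N : ℤ), d k ^ 2 := by
  apply Complex.ofReal_injective
  push_cast
  have hsq : ∀ j ∈ Icc (-(N : ℤ)) (N : ℤ), ((‖∑ k ∈ Icc (-(N : ℤ)) (N : ℤ),
      (d k : ℂ) * Complex.exp ((k : ℂ) * (2 * Real.pi * j / L) * Complex.I)‖ : ℝ) : ℂ) ^ 2 =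
      ∑ k ∈ Icc (-(N : ℤ)) (N : ℤ), ∑ l ∈ Icc (-(N : ℤ)) (N : ℤ), (d k : ℂ) * (d l : ℂ) *
        Complex.exp (2 * Real.pi * Complex.I * ((k - l : ℤ) : ℂ) * j / L) := by
    intro j _
    rw [← Complex.mul_conj', map_sum, Finset.sum_mul_sum]
    refine Finset.sum_congr rfl fun k _ => Finset.sum_congr rfl fun l _ => ?_
    rw [map_mul, Complex.conj_ofReal, ← Complex.exp_conj]
    have e : (starRingEnd ℂ) ((l : ℂ) * (2 * Real.pi * j / L) * Complex.I) =
        -((l : ℂ) * (2 * Real.pi * j / L) * Complex.I) := by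
      simp only [map_mul, map_div₀, Complex.conj_I, Complex.conj_ofReal, map_intCast, map_natCast,
        map_ofNat]
      ring
    rw [e, mul_mul_mul_comm, ← Complex.exp_add]
    congr 2
    push_cast
    ring
  rw [Finset.sum_congr rfl hsq, Finset.sum_comm]
  rw [Finset.mul_sum]
  refine Finset.sum_congr rfl fun k hk => ?_
  rw [Finset.sum_comm]
  have hin : ∀ l ∈ Icc (-(N : ℤ)) (N : ℤ), ∑ j ∈ Icc (-(N : ℤ)) (N : ℤ), (d k : ℂ) * (d l : ℂ) *
        Complex.exp (2 * Real.pi * Complex.I * ((k - l : ℤ) : ℂ) * j / L) =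
        if l = k then (L : ℂ) * (d k : ℂ) ^ 2 else 0 := by
    intro l hl
    rw [Finset.mem_Icc] at hk hl
    rw [← Finset.mul_sum, parseval_geom N L hL (k - l) (by omega) (by omega)]
    by_cases h : l = k
    · subst h
      simp
      ring
    · have h' : k - l ≠ 0 := fun h2 => h (by omega)
      simp [h, h']
  rw [Finset.sum_congr rfl hin, Finset.sum_ite_eq' (Icc (-(N : ℤ)) (N : ℤ)) k]
  simp [hk]

end HP192
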