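import Mathlib
import Pool.Agent.Helper192_HP.Defs
import Pool.Agent.Helper192_HP.WDefs
import Pool.Agent.Helper192_HP.Basic
import Pool.Agent.Helper192_HP.W01
import Pool.Agent.Helper192_HP.W02
import Pool.Agent.Helper192_HP.DkDef
import Pool.Agent.Helper192_HP.W06
import Pool.Agent.Helper192_HP.W17
import Pool.Agent.Helper192_HP.W18
import Pool.Agent.Helper192_HP.W19
import Pool.Agent.Helper192_HP.W16
import Pool.Agent.Helper192_HP.W15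
import Pool.Agent.Helper192_HP.W13

namespace HP192
open Finset

namespace Ker
variable {V : Type} [Fintype V] [DecidableEq V] (K : Ker V)

theorem reg_fM_zero (o : V) (T M : ℕ) (ω : List V) (h : T + ω.length ≤ M) : K.fM o T M ω = 0 := by
  unfold fM
  apply Finset.sum_eq_zero
  intro t ht
  rw [Finset.mem_range] at ht
  have h1 : K.EW t (tip o ω) (fun w => if len (w ++ ω) = M then (1 : ℝ) else 0) =
      K.EW t (tip o ω) (fun _ => (0 : ℝ)) := by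
    apply K.EW_congr
    intro w hw
    have h2 := len_le_length (w ++ ω)
    rw [List.length_append, hw] at h2
    rw [if_neg]
    omega
  rw [h1]
  exact K.EW_zero_fun _ _

end Ker

theorem reg_shift (F : ℤ → ℂ) (B N m : ℕ) (h0 : ∀ k : ℤ, k < 0 → F k = 0) (h1 : ∀ k : ℤ, (B : ℤ) ≤ k → F k = 0)
    (hN : B + m ≤ N) : ∑ M ∈ Icc (-(N : ℤ)) (N : ℤ), F (M + m) = ∑ k ∈ Icc (-(N : ℤ)) (N : ℤ), F k := by
  have e1 : ∑ k ∈ Icc (-(N : ℤ)) (N : ℤ), F k = ∑ k ∈ Ico (0 : ℤ) B, F k := by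
    symm
    apply Finset.sum_subset
    · intro k hk
      rw [mem_Ico] at hk
      rw [mem_Icc]
      omega
    · intro k hk hk'
      rw [mem_Ico] at hk'
      by_cases h : k < 0
      · exact h0 k h
      · exact h1 k (by omega)
  have e2 : ∑ M ∈ Icc (-(N : ℤ)) (N : ℤ), F (M + m) = ∑ M ∈ Ico (-(m : ℤ)) (B - m), F (M + m) := by
    symm
    apply Finset.sum_subset
    · intro k hk
      rw [mem_Ico] at hk
      rw [mem_Icc]
      omega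
    · intro k hk hk'
      rw [mem_Ico] at hk'
      by_cases h : k + m < 0
      · exact h0 _ h
      · exact h1 _ (by omega)
  rw [e1, e2]
  refine Finset.sum_nbij' (fun M => M + m) (fun k => k - m) ?_ ?_ ?_ ?_ ?_
  · intro k hk
    rw [mem_Ico] at hk ⊢
    omega
  · intro k hk
    rw [mem_Ico] at hk ⊢
    omega
  · intro k _
    simp
  · intro k _
    simp
  · intro k _
    rfl

theorem reg_shift_exp (F : ℤ → ℝ) (B N m : ℕ) (h0 : ∀ k : ℤ, k < 0 → F k = 0) (h1 : ∀ k : ℤ, (B : ℤ) ≤ k → F k = 0)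
    (hN : B + m ≤ N) (θ : ℝ) :
    ∑ M ∈ Icc (-(N : ℤ)) (N : ℤ), (F (M + m) : ℂ) * Complex.exp (((M : ℝ) * θ : ℝ) * Complex.I) =
    Complex.exp (-(θ * Complex.I)) ^ m *
      ∑ k ∈ Icc (-(N : ℤ)) (N : ℤ), (F k : ℂ) * Complex.exp (((k : ℝ) * θ : ℝ) * Complex.I) := by
  have h := reg_shift (fun k => (F k : ℂ) * Complex.exp ((((k : ℝ) - m) * θ : ℝ) * Complex.I)) B N m
    (fun k hk => by simp only [h0 k hk, Complex.ofReal_zero, zero_mul])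
    (fun k hk => by simp only [h1 k hk, Complex.ofReal_zero, zero_mul]) hN
  have e1 : ∑ M ∈ Icc (-(N : ℤ)) (N : ℤ), (F (M + m) : ℂ) * Complex.exp (((M : ℝ) * θ : ℝ) * Complex.I) =
      ∑ M ∈ Icc (-(N : ℤ)) (N : ℤ), (F (M + m) : ℂ) *
        Complex.exp (((((M + m : ℤ) : ℝ) - m) * θ : ℝ) * Complex.I) := by
    apply Finset.sum_congr rfl
    intro M _
    congr 4
    push_cast
    ring
  rw [e1]
  refine Eq.trans h ?_
  rw [Finset.mul_sum]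
  apply Finset.sum_congr rfl
  intro k _
  have e2 : Complex.exp ((((k : ℝ) - m) * θ : ℝ) * Complex.I) =
      Complex.exp (-(θ * Complex.I)) ^ m * Complex.exp (((k : ℝ) * θ : ℝ) * Complex.I) := by
    rw [← Complex.exp_nat_mul, ← Complex.exp_add]
    congr 1
    push_cast
    ring
  rw [e2]
  ring

theorem reg_hat (F : ℤ → ℝ) (B N w s : ℕ) (h0 : ∀ k : ℤ, k < 0 → F k = 0) (h1 : ∀ k : ℤ, (B : ℤ) ≤ k → F k = 0)
    (hN : B + (s + w) ≤ N) (θ : ℝ) :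
    ∑ M ∈ Icc (-(N : ℤ)) (N : ℤ), (((1 / (w : ℝ)) * ∑ i ∈ range w, (F (M + i) - F (M + s + i)) : ℝ) : ℂ) *
      Complex.exp (((M : ℝ) * θ : ℝ) * Complex.I) =
    (∑ k ∈ Icc (-(N : ℤ)) (N : ℤ), (F k : ℂ) * Complex.exp (((k : ℝ) * θ : ℝ) * Complex.I)) *
      (((1 / (w : ℂ)) * ∑ i ∈ range w, Complex.exp (-(θ * Complex.I)) ^ i) *
        (1 - Complex.exp (-(θ * Complex.I)) ^ s)) := by
  set P : ℂ := ∑ k ∈ Icc (-(N : ℤ)) (N : ℤ), (F k : ℂ) * Complex.exp (((k : ℝ) * θ : ℝ) * Complex.I) with hP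
  set z : ℂ := Complex.exp (-(θ * Complex.I)) with hz
  have e1 : ∀ i ∈ range w, ∑ M ∈ Icc (-(N : ℤ)) (N : ℤ), (F (M + i) : ℂ) * Complex.exp (((M : ℝ) * θ : ℝ) * Complex.I) =
      z ^ i * P := by
    intro i hi
    rw [mem_range] at hi
    exact reg_shift_exp F B N i h0 h1 (by omega) θ
  have e2 : ∀ i ∈ range w, ∑ M ∈ Icc (-(N : ℤ)) (N : ℤ), (F (M + s + i) : ℂ) *
      Complex.exp (((M : ℝ) * θ : ℝ) * Complex.I) = z ^ (s + i) * P := by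
    intro i hi
    rw [mem_range] at hi
    rw [hP, hz, ← reg_shift_exp F B N (s + i) h0 h1 (by omega) θ]
    apply Finset.sum_congr rfl
    intro M _
    congr 3
    push_cast
    ring
  clear_value P z
  calc _ = ∑ M ∈ Icc (-(N : ℤ)) (N : ℤ), ∑ i ∈ range w, (1 / (w : ℂ)) *
        ((F (M + i) : ℂ) * Complex.exp (((M : ℝ) * θ : ℝ) * Complex.I) -
          (F (M + s + i) : ℂ) * Complex.exp (((M : ℝ) * θ : ℝ) * Complex.I)) := by
        apply Finset.sum_congr rfl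
        intro M _
        rw [Complex.ofReal_mul, Complex.ofReal_sum, mul_assoc, Finset.sum_mul, Finset.mul_sum]
        apply Finset.sum_congr rfl
        intro i _
        push_cast
        ring
    _ = ∑ i ∈ range w, (1 / (w : ℂ)) * (z ^ i * P - z ^ (s + i) * P) := by
        rw [Finset.sum_comm]
        apply Finset.sum_congr rfl
        intro i hi
        rw [← Finset.mul_sum, Finset.sum_sub_distrib, e1 i hi, e2 i hi]
    _ = _ := by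
        rw [← Finset.mul_sum]
        have : ∑ i ∈ range w, (z ^ i * P - z ^ (s + i) * P) = P * ((∑ i ∈ range w, z ^ i) * (1 - z ^ s)) := by
          rw [Finset.sum_mul, Finset.mul_sum]
          apply Finset.sum_congr rfl
          intro i _
          rw [pow_add]
          ring
        rw [this]
        ring

theorem reg_z (θ : ℝ) : ‖Complex.exp (-(θ * Complex.I))‖ = 1 := by
  rw [← neg_mul, ← Complex.ofReal_neg]
  exact Complex.norm_exp_ofReal_mul_I _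

theorem reg_norm1 (θ : ℝ) (s : ℕ) : ‖1 - Complex.exp (-(θ * Complex.I)) ^ s‖ ≤ 2 := by
  calc ‖1 - Complex.exp (-(θ * Complex.I)) ^ s‖ ≤ ‖(1 : ℂ)‖ + ‖Complex.exp (-(θ * Complex.I)) ^ s‖ := norm_sub_le _ _
    _ = 2 := by
      rw [norm_pow, reg_z, one_pow, norm_one]
      norm_num

theorem reg_norm2 (θ : ℝ) (s : ℕ) : ‖1 - Complex.exp (-(θ * Complex.I)) ^ s‖ ≤ s * |θ| := by
  have h : Complex.exp (-(θ * Complex.I)) ^ s = Complex.exp (Complex.I * ((-(s * θ) : ℝ) : ℂ)) := by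
    rw [← Complex.exp_nat_mul]
    congr 1
    push_cast
    ring
  rw [h, ← norm_neg, neg_sub]
  refine (Real.norm_exp_I_mul_ofReal_sub_one_le (x := -(s * θ))).trans ?_
  rw [Real.norm_eq_abs, abs_neg, abs_mul, Nat.abs_cast]

theorem reg_W1 (θ : ℝ) (w : ℕ) (hw : 1 ≤ w) :
    ‖(1 / (w : ℂ)) * ∑ i ∈ range w, Complex.exp (-(θ * Complex.I)) ^ i‖ ≤ 1 := by
  have hw0 : (0 : ℝ) < w := by exact_mod_cast hw
  rw [norm_mul, norm_div, norm_one, Complex.norm_natCast]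
  have h1 : ‖∑ i ∈ range w, Complex.exp (-(θ * Complex.I)) ^ i‖ ≤ w := by
    calc ‖∑ i ∈ range w, Complex.exp (-(θ * Complex.I)) ^ i‖ ≤ ∑ i ∈ range w, ‖Complex.exp (-(θ * Complex.I)) ^ i‖ :=
          norm_sum_le _ _
      _ = w := by
        simp only [norm_pow, reg_z, one_pow, sum_const, card_range, nsmul_eq_mul, mul_one]
  rw [one_div, inv_mul_le_iff₀ hw0, mul_one]
  exact h1

theorem reg_W2 (θ : ℝ) (w : ℕ) (hw : 1 ≤ w) (a : ℝ) (ha : 0 < a) (h1 : a < |θ|) (h2 : |θ| ≤ Real.pi) :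
    ‖(1 / (w : ℂ)) * ∑ i ∈ range w, Complex.exp (-(θ * Complex.I)) ^ i‖ ≤ Real.pi / (w * a) := by
  have hw0 : (0 : ℝ) < w := by exact_mod_cast hw
  have hpi := Real.pi_pos
  rw [norm_mul, norm_div, norm_one, Complex.norm_natCast]
  set z : ℂ := Complex.exp (-(θ * Complex.I)) with hz
  set S : ℂ := ∑ i ∈ range w, z ^ i with hS
  have e1 : S * (1 - z) = 1 - z ^ w := by
    rw [hS]
    exact geom_sum_mul_neg z w
  have e2 : ‖S‖ * ‖1 - z‖ ≤ 2 := by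
    rw [← norm_mul, e1]
    exact reg_norm1 θ w
  have e3 : ‖1 - z‖ = 2 * |Real.sin (θ / 2)| := by
    have h : z = Complex.exp (Complex.I * ((-θ : ℝ) : ℂ)) := by
      rw [hz]
      congr 1
      push_cast
      ring
    rw [h, ← norm_neg, neg_sub, Complex.norm_exp_I_mul_ofReal_sub_one, norm_mul, Real.norm_eq_abs, Real.norm_eq_abs,
      neg_div, Real.sin_neg, abs_neg, abs_two]
  have e4 : 2 / Real.pi * |θ| ≤ ‖1 - z‖ := by
    rw [e3]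
    have h3 : 2 / Real.pi * |θ / 2| ≤ |Real.sin (θ / 2)| := by
      apply Real.mul_abs_le_abs_sin
      rw [abs_div, abs_two]
      linarith
    rw [abs_div, abs_two] at h3
    calc 2 / Real.pi * |θ| = 2 * (2 / Real.pi * (|θ| / 2)) := by ring
      _ ≤ 2 * |Real.sin (θ / 2)| := by linarith
  have e5 : ‖S‖ * (2 / Real.pi * a) ≤ 2 := by
    refine le_trans ?_ e2
    apply mul_le_mul_of_nonneg_left _ (norm_nonneg _)
    refine le_trans ?_ e4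
    apply mul_le_mul_of_nonneg_left h1.le
    positivity
  have e6 : ‖S‖ ≤ Real.pi / a := by
    rw [le_div_iff₀ ha]
    have h4 : ‖S‖ * (2 / Real.pi * a) = (‖S‖ * a) * (2 / Real.pi) := by ring
    rw [h4] at e5
    have h5 : (2 : ℝ) = Real.pi * (2 / Real.pi) := by
      field_simp
    have h6 : 0 < 2 / Real.pi := by positivity
    refine le_of_mul_le_mul_right ?_ h6
    linarith
  calc 1 / (w : ℝ) * ‖S‖ ≤ 1 / (w : ℝ) * (Real.pi / a) := mul_le_mul_of_nonneg_left e6 (by positivity)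
    _ = Real.pi / (w * a) := by
      field_simp

namespace Ker
variable {V : Type} [Fintype V] [DecidableEq V] (K : Ker V)

/-- the extension of `fM` by zero -/
noncomputable def regF (o : V) (T : ℕ) (ω : List V) (k : ℤ) : ℝ := if 0 ≤ k then K.fM o T k.toNat ω else 0

theorem regF_natCast (o : V) (T : ℕ) (ω : List V) (n : ℕ) : K.regF o T ω (n : ℤ) = K.fM o T n ω := by
  unfold regF
  rw [if_pos (Int.natCast_nonneg n), Int.toNat_natCast]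

theorem regF_neg (o : V) (T : ℕ) (ω : List V) (k : ℤ) (hk : k < 0) : K.regF o T ω k = 0 := by
  unfold regF
  rw [if_neg (by omega)]

theorem regF_large (o : V) (T : ℕ) (ω : List V) (k : ℤ) (hk : ((T + ω.length : ℕ) : ℤ) ≤ k) : K.regF o T ω k = 0 := by
  unfold regF
  rw [if_pos (by omega)]
  exact K.reg_fM_zero o T _ ω (by omega)

theorem reg_point (o : V) (T w s Mx N : ℕ) (ω : List V) (hN : T + ω.length + (s + w) ≤ N) (hM : Mx ≤ N) :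
    ∑ M ∈ range Mx, ((1 / (w : ℝ)) * ∑ i ∈ range w, (K.fM o T (M + i) ω - K.fM o T (M + s + i) ω)) ^ 2 ≤
    (1 / ((2 * N + 1 : ℕ) : ℝ)) * ∑ j ∈ Icc (-(N : ℤ)) (N : ℤ),
      ‖K.ph o T (2 * Real.pi * j / ((2 * N + 1 : ℕ) : ℝ)) ω *
        (((1 / (w : ℂ)) * ∑ i ∈ range w, Complex.exp (-(((2 * Real.pi * j / ((2 * N + 1 : ℕ) : ℝ) : ℝ) : ℂ) * Complex.I)) ^ i) *
        (1 - Complex.exp (-(((2 * Real.pi * j / ((2 * N + 1 : ℕ) : ℝ) : ℝ) : ℂ) * Complex.I)) ^ s))‖ ^ 2 := by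
  have hL : (0 : ℝ) < ((2 * N + 1 : ℕ) : ℝ) := by positivity
  have h1 : ∑ j ∈ Icc (-(N : ℤ)) (N : ℤ),
      ‖K.ph o T (2 * Real.pi * j / ((2 * N + 1 : ℕ) : ℝ)) ω *
        (((1 / (w : ℂ)) * ∑ i ∈ range w, Complex.exp (-(((2 * Real.pi * j / ((2 * N + 1 : ℕ) : ℝ) : ℝ) : ℂ) * Complex.I)) ^ i) *
        (1 - Complex.exp (-(((2 * Real.pi * j / ((2 * N + 1 : ℕ) : ℝ) : ℝ) : ℂ) * Complex.I)) ^ s))‖ ^ 2 =
      ((2 * N + 1 : ℕ) : ℝ) * ∑ M ∈ Icc (-(N : ℤ)) (N : ℤ),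
        ((1 / (w : ℝ)) * ∑ i ∈ range w, (K.regF o T ω (M + i) - K.regF o T ω (M + s + i))) ^ 2 := by
    rw [← parseval N (2 * N + 1) rfl]
    apply Finset.sum_congr rfl
    intro j _
    rw [reg_hat (K.regF o T ω) (T + ω.length) N w s (K.regF_neg o T ω) (K.regF_large o T ω) hN,
      K.f_hat o T _ ω N (by omega)]
    rfl
  rw [h1, ← mul_assoc, one_div_mul_cancel hL.ne', one_mul]
  have h2 : ∀ M : ℕ, ((1 / (w : ℝ)) * ∑ i ∈ range w, (K.fM o T (M + i) ω - K.fM o T (M + s + i) ω)) =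
      (1 / (w : ℝ)) * ∑ i ∈ range w, (K.regF o T ω ((M : ℤ) + i) - K.regF o T ω ((M : ℤ) + s + i)) := by
    intro M
    congr 1
  have h3 : ∑ M ∈ range Mx, ((1 / (w : ℝ)) * ∑ i ∈ range w, (K.fM o T (M + i) ω - K.fM o T (M + s + i) ω)) ^ 2 =
      ∑ M ∈ (range Mx).map Nat.castEmbedding,
        ((1 / (w : ℝ)) * ∑ i ∈ range w, (K.regF o T ω (M + i) - K.regF o T ω (M + s + i))) ^ 2 := by
    rw [Finset.sum_map]
    apply Finset.sum_congr rfl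
    intro M _
    rw [h2]
    rfl
  rw [h3]
  apply Finset.sum_le_sum_of_subset_of_nonneg
  · intro k hk
    rw [Finset.mem_map] at hk
    obtain ⟨M, hM', rfl⟩ := hk
    rw [mem_range] at hM'
    rw [mem_Icc]
    simp only [Nat.castEmbedding_apply]
    omega
  · intro k _ _
    positivity

theorem reg_A (o : V) (T r0 N : ℕ) (Θ : ℝ) (hr0 : 1 ≤ r0) (hΘ : K.Th o (T + r0) ≤ Θ) (hN : T + r0 ≤ N) :
    ∑ j ∈ Icc (-(N : ℤ)) (N : ℤ), K.EW r0 o (fun ω => ‖K.ph o T (2 * Real.pi * j / ((2 * N + 1 : ℕ) : ℝ)) ω‖ ^ 2) ≤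
      ((2 * N + 1 : ℕ) : ℝ) * (T * Θ ^ 2) := by
  rw [← K.EW_sum]
  have h1 : K.EW r0 o (fun ω => ∑ j ∈ Icc (-(N : ℤ)) (N : ℤ), ‖K.ph o T (2 * Real.pi * j / ((2 * N + 1 : ℕ) : ℝ)) ω‖ ^ 2) =
      K.EW r0 o (fun ω => ((2 * N + 1 : ℕ) : ℝ) * ∑ k ∈ Icc (-(N : ℤ)) (N : ℤ),
        (if 0 ≤ k then K.fM o T k.toNat ω else 0) ^ 2) := by
    apply K.EW_congr
    intro ω hω
    rw [← parseval N (2 * N + 1) rfl]
    apply Finset.sum_congr rfl
    intro j _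
    rw [K.f_hat o T _ ω N (by omega)]
  rw [h1, K.EW_mul_left]
  exact mul_le_mul_of_nonneg_left (K.f_sq o T r0 N Θ hr0 hΘ) (by positivity)

theorem reg_B (o : V) (T r r0 N : ℕ) (Θ pb : ℝ) (hr : 1 ≤ r) (hr0 : 1 ≤ r0) (hr0r : r0 ≤ r)
    (hT : 3 * r ≤ T) (hΘ : K.Th o (T + 4 * r) ≤ Θ)
    (hpb : ∀ R < r, ∀ t < T, K.EW r0 o (fun ω0 => K.EW (r + R) (tip o ω0) (fun ω1 =>
      K.EW r0 (tip (tip o ω0) ω1) (fun ω2 => K.EW t (tip o ω2) (fun w =>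
        1 - cutI w ω2 (ω1 ++ ω0))))) ≤ pb) (hN : T + 2 * r + 2 * r0 ≤ N) :
    ∑ j ∈ Icc (-(N : ℤ)) (N : ℤ), K.EW r0 o (fun ω => ‖K.ph o T (2 * Real.pi * j / ((2 * N + 1 : ℕ) : ℝ)) ω -
        K.hh o T r r0 (2 * Real.pi * j / ((2 * N + 1 : ℕ) : ℝ)) ω‖ ^ 2) ≤
      ((2 * N + 1 : ℕ) : ℝ) * (12 * r * Θ ^ 2 + 16 * T * Θ ^ 2 * Real.sqrt pb) := by
  rw [← K.EW_sum]
  have h1 : K.EW r0 o (fun ω => ∑ j ∈ Icc (-(N : ℤ)) (N : ℤ), ‖K.ph o T (2 * Real.pi * j / ((2 * N + 1 : ℕ) : ℝ)) ω -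
        K.hh o T r r0 (2 * Real.pi * j / ((2 * N + 1 : ℕ) : ℝ)) ω‖ ^ 2) =
      K.EW r0 o (fun ω => ((2 * N + 1 : ℕ) : ℝ) * ∑ k ∈ Icc (-(N : ℤ)) (N : ℤ), K.dk o T r r0 k ω ^ 2) := by
    apply K.EW_congr
    intro ω hω
    rw [← parseval N (2 * N + 1) rfl]
    apply Finset.sum_congr rfl
    intro j _
    rw [K.d_hat o T r r0 hr _ ω hω N hN]
  rw [h1, K.EW_mul_left]
  exact mul_le_mul_of_nonneg_left (K.d_sq o T r r0 N Θ pb hr hr0 hr0r hT hΘ hpb) (by positivity)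

end Ker

-- TARGET
namespace Ker
variable {V : Type} [Fintype V] [DecidableEq V] (K : Ker V)

theorem Reg (o : V) (T r r0 w s Mx : ℕ) (Θ pb : ℝ) (hr : 1 ≤ r) (hr0 : 1 ≤ r0) (hr0r : r0 ≤ r)
    (hw : 1 ≤ w) (hT : 3 * r ≤ T) (hΘ : K.Th o (T + 4 * r) ≤ Θ) (hq : 1 / (2 * Θ) ≤ K.nq o T T)
    (hpb : ∀ R < r, ∀ t < T, K.EW r0 o (fun ω0 => K.EW (r + R) (tip o ω0) (fun ω1 =>
      K.EW r0 (tip (tip o ω0) ω1) (fun ω2 => K.EW t (tip o ω2) (fun w =>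
        1 - cutI w ω2 (ω1 ++ ω0))))) ≤ pb) :
    K.EW r0 o (fun ω => ∑ M ∈ range Mx,
      ((1 / (w : ℝ)) * ∑ i ∈ range w, (K.fM o T (M + i) ω - K.fM o T (M + s + i) ω)) ^ 2)
      ≤ T * Θ ^ 2 * ((s : ℝ) / r) ^ 2
        + 16 / ((1 - Real.cos (1 / (36 * Θ ^ 3))) / (4 * Θ)) ^ 2
            * (12 * r * Θ ^ 2 + 16 * T * Θ ^ 2 * Real.sqrt pb)
        + 4 * Real.pi ^ 2 * T * Θ ^ 2 / ((w : ℝ) * (1 / (36 * Θ ^ 3))) ^ 2 := by
  have hw0 : (0 : ℝ) < w := by exact_mod_cast hw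
  have hrp : (0 : ℝ) < r := by exact_mod_cast hr
  have hΘ1 : 1 ≤ Θ := (K.one_le_Th o _).trans hΘ
  have hpi := Real.pi_pos
  have hθr := K.Th_mono o
  set a : ℝ := 1 / (36 * Θ ^ 3) with ha
  have ha0 : 0 < a := by positivity
  have ha1 : a ≤ 1 := by
    rw [ha, div_le_one (by positivity)]
    have : 1 ≤ Θ ^ 3 := one_le_pow₀ hΘ1
    linarith
  set c : ℝ := (1 - Real.cos a) / (4 * Θ) with hc
  have hc0 : 0 < c := by
    have h1 : Real.cos a < Real.cos 0 :=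
      Real.cos_lt_cos_of_nonneg_of_le_pi le_rfl (by linarith [Real.pi_gt_three]) ha0
    rw [Real.cos_zero] at h1
    apply div_pos (by linarith) (by linarith)
  have hc1 : c ≤ 1 := by
    rw [hc, div_le_one (by linarith)]
    linarith [Real.neg_one_le_cos a]
  obtain ⟨N, hN⟩ : ∃ N : ℕ, N = Mx + s + w + 2 * T + 4 * r := ⟨_, rfl⟩
  have hL : (0 : ℝ) < ((2 * N + 1 : ℕ) : ℝ) := by positivity
  have hA := K.reg_A o T r0 N Θ hr0 ((hθr _ _ (by omega)).trans hΘ) (by omega)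
  have hB := K.reg_B o T r r0 N Θ pb hr hr0 hr0r hT hΘ hpb (by omega)
  have hstep1 : K.EW r0 o (fun ω => ∑ M ∈ range Mx,
      ((1 / (w : ℝ)) * ∑ i ∈ range w, (K.fM o T (M + i) ω - K.fM o T (M + s + i) ω)) ^ 2) ≤
      (1 / ((2 * N + 1 : ℕ) : ℝ)) * ∑ j ∈ Icc (-(N : ℤ)) (N : ℤ), K.EW r0 o (fun ω =>
      ‖K.ph o T (2 * Real.pi * j / ((2 * N + 1 : ℕ) : ℝ)) ω *
        (((1 / (w : ℂ)) * ∑ i ∈ range w, Complex.exp (-(((2 * Real.pi * j / ((2 * N + 1 : ℕ) : ℝ) : ℝ) : ℂ) * Complex.I)) ^ i) *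
        (1 - Complex.exp (-(((2 * Real.pi * j / ((2 * N + 1 : ℕ) : ℝ) : ℝ) : ℂ) * Complex.I)) ^ s))‖ ^ 2) := by
    rw [← K.EW_sum, ← K.EW_mul_left]
    apply K.EW_mono
    intro ω hω
    exact K.reg_point o T w s Mx N ω (by omega) (by omega)
  have hstep2 : ∀ j ∈ Icc (-(N : ℤ)) (N : ℤ), K.EW r0 o (fun ω =>
      ‖K.ph o T (2 * Real.pi * j / ((2 * N + 1 : ℕ) : ℝ)) ω *
        (((1 / (w : ℂ)) * ∑ i ∈ range w, Complex.exp (-(((2 * Real.pi * j / ((2 * N + 1 : ℕ) : ℝ) : ℝ) : ℂ) * Complex.I)) ^ i) *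
        (1 - Complex.exp (-(((2 * Real.pi * j / ((2 * N + 1 : ℕ) : ℝ) : ℝ) : ℂ) * Complex.I)) ^ s))‖ ^ 2) ≤
      ((s : ℝ) / r) ^ 2 * K.EW r0 o (fun ω => ‖K.ph o T (2 * Real.pi * j / ((2 * N + 1 : ℕ) : ℝ)) ω‖ ^ 2) +
      16 / c ^ 2 * K.EW r0 o (fun ω => ‖K.ph o T (2 * Real.pi * j / ((2 * N + 1 : ℕ) : ℝ)) ω -
        K.hh o T r r0 (2 * Real.pi * j / ((2 * N + 1 : ℕ) : ℝ)) ω‖ ^ 2) +
      4 * Real.pi ^ 2 / ((w : ℝ) * a) ^ 2 *
        K.EW r0 o (fun ω => ‖K.ph o T (2 * Real.pi * j / ((2 * N + 1 : ℕ) : ℝ)) ω‖ ^ 2) := by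
    intro j hj
    have hθpi : |2 * Real.pi * j / ((2 * N + 1 : ℕ) : ℝ)| ≤ Real.pi := by
      rw [abs_div, abs_of_pos hL, div_le_iff₀ hL, abs_mul, abs_mul, abs_two, abs_of_pos hpi]
      have h1 : |(j : ℝ)| ≤ N := by
        rw [abs_le]
        rw [mem_Icc] at hj
        constructor
        · exact_mod_cast hj.1
        · exact_mod_cast hj.2
      push_cast
      nlinarith
    generalize 2 * Real.pi * (j : ℝ) / ((2 * N + 1 : ℕ) : ℝ) = θ at hθpi ⊢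
    set E1 : ℝ := K.EW r0 o (fun ω => ‖K.ph o T θ ω‖ ^ 2) with hE1
    set E2 : ℝ := K.EW r0 o (fun ω => ‖K.ph o T θ ω - K.hh o T r r0 θ ω‖ ^ 2) with hE2
    have hE1' : 0 ≤ E1 := K.EW_nonneg _ _ _ fun ω _ => by positivity
    have hE2' : 0 ≤ E2 := K.EW_nonneg _ _ _ fun ω _ => by positivity
    have hW1 := reg_W1 θ w hw
    have hD1 := reg_norm1 θ s
    have hD2 := reg_norm2 θ s
    have hW2 := reg_W2 θ w hw a ha0
    generalize ((1 / (w : ℂ)) * ∑ i ∈ range w, Complex.exp (-((θ : ℂ) * Complex.I)) ^ i) = W at hW1 hW2 ⊢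
    generalize (1 - Complex.exp (-((θ : ℂ) * Complex.I)) ^ s) = D at hD1 hD2 ⊢
    have h1 : K.EW r0 o (fun ω => ‖K.ph o T θ ω * (W * D)‖ ^ 2) = E1 * (‖W‖ * ‖D‖) ^ 2 := by
      rw [hE1, ← K.EW_mul_right]
      apply K.EW_congr
      intro ω _
      rw [norm_mul, norm_mul, mul_pow]
    rw [h1]
    have hWn := norm_nonneg W
    have hDn := norm_nonneg D
    have t1 : 0 ≤ ((s : ℝ) / r) ^ 2 * E1 := by positivity
    have t2 : 0 ≤ 16 / c ^ 2 * E2 := by positivity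
    have t3 : 0 ≤ 4 * Real.pi ^ 2 / ((w : ℝ) * a) ^ 2 * E1 := by positivity
    rcases lt_or_ge |θ| (1 / (r : ℝ)) with hcase | hcase
    · have h2 : ‖W‖ * ‖D‖ ≤ (s : ℝ) / r := by
        calc ‖W‖ * ‖D‖ ≤ 1 * (s * |θ|) := mul_le_mul hW1 hD2 hDn zero_le_one
          _ ≤ 1 * (s * (1 / (r : ℝ))) := by gcongr
          _ = (s : ℝ) / r := by ring
      have h3 : E1 * (‖W‖ * ‖D‖) ^ 2 ≤ E1 * ((s : ℝ) / r) ^ 2 := by gcongr
      linarith
    · rcases le_or_gt |θ| a with hcase2 | hcase2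
      · have h2 : ‖W‖ * ‖D‖ ≤ 2 := by
          calc ‖W‖ * ‖D‖ ≤ 1 * 2 := mul_le_mul hW1 hD1 hDn zero_le_one
            _ = 2 := one_mul 2
        have h3 : E1 * (‖W‖ * ‖D‖) ^ 2 ≤ E1 * 2 ^ 2 := by gcongr
        have h4 := K.kap_bound o T r r0 Θ θ hr hr0 hr0r hT ((hθr _ _ (by omega)).trans hΘ) hq hcase hcase2
        have h5 : E1 ≤ 4 / c ^ 2 * E2 := K.V_bound o T r r0 hr0 θ c hc0 hc1 h4
        have h6 : E1 * 2 ^ 2 ≤ 16 / c ^ 2 * E2 := by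
          calc E1 * 2 ^ 2 ≤ (4 / c ^ 2 * E2) * 2 ^ 2 := by gcongr
            _ = 16 / c ^ 2 * E2 := by ring
        linarith
      · have h2 : ‖W‖ * ‖D‖ ≤ Real.pi / (w * a) * 2 :=
          mul_le_mul (hW2 hcase2 hθpi) hD1 hDn (by positivity)
        have h3 : E1 * (‖W‖ * ‖D‖) ^ 2 ≤ E1 * (Real.pi / (w * a) * 2) ^ 2 := by gcongr
        have h4 : E1 * (Real.pi / (w * a) * 2) ^ 2 = 4 * Real.pi ^ 2 / ((w : ℝ) * a) ^ 2 * E1 := by
          rw [mul_pow, div_pow]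
          ring
        linarith
  have hsum := Finset.sum_le_sum hstep2
  rw [Finset.sum_add_distrib, Finset.sum_add_distrib, ← Finset.mul_sum, ← Finset.mul_sum, ← Finset.mul_sum] at hsum
  refine hstep1.trans ?_
  rw [one_div, inv_mul_le_iff₀ hL]
  refine hsum.trans ?_
  have u1 := mul_le_mul_of_nonneg_left hA (by positivity : 0 ≤ ((s : ℝ) / r) ^ 2)
  have u2 := mul_le_mul_of_nonneg_left hB (by positivity : 0 ≤ 16 / c ^ 2)
  have u3 := mul_le_mul_of_nonneg_left hA (by positivity : 0 ≤ 4 * Real.pi ^ 2 / ((w : ℝ) * a) ^ 2)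
  refine (add_le_add (add_le_add u1 u2) u3).trans (le_of_eq ?_)
  ring

end Ker

end HP192
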