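import Mathlib
import Pool.Agent.Helper192_HP.Defs
import Pool.Agent.Helper192_HP.WDefs
import Pool.Agent.Helper192_HP.Basic
import Pool.Agent.Helper192_HP.W01
import Pool.Agent.Helper192_HP.W02
import Pool.Agent.Helper192_HP.W15
import Pool.Agent.Helper192_HP.W20

namespace HP192
open Finset

-- TARGET
namespace Ker
variable {V : Type} [Fintype V] [DecidableEq V] (K : Ker V)

theorem Th_mono95 (o : V) (s t : ℕ) (h : s ≤ t) : K.Th o s ≤ K.Th o t := by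
  unfold Th
  apply Finset.sum_le_sum_of_subset_of_nonneg
  · intro x hx
    rw [Finset.mem_range] at *
    omega
  · intro c _ _
    have := K.hk_nonneg c o o
    positivity

theorem card95 (N r : ℕ) (hr : 1 ≤ r) (hN : 8 * r ≤ 2 * N + 1) :
    (((Icc (-(N : ℤ)) (N : ℤ)).filter (fun j : ℤ =>
      Real.pi - 1 / (r : ℝ) < |2 * Real.pi * (j : ℝ) / ((2 * N + 1 : ℕ) : ℝ)|)).card : ℝ) ≤
      ((2 * N + 1 : ℕ) : ℝ) / r := by
  classical
  have hrp : (0 : ℝ) < r := by exact_mod_cast hr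
  have hpi := Real.pi_gt_three
  have hL : (0 : ℝ) < ((2 * N + 1 : ℕ) : ℝ) := by positivity
  obtain ⟨m, hm⟩ : ∃ m : ℕ, m = ⌈((2 * N + 1 : ℕ) : ℝ) / (6 * r)⌉₊ := ⟨_, rfl⟩
  have hsub : ((Icc (-(N : ℤ)) (N : ℤ)).filter (fun j : ℤ =>
      Real.pi - 1 / (r : ℝ) < |2 * Real.pi * (j : ℝ) / ((2 * N + 1 : ℕ) : ℝ)|)) ⊆
      (range m).image (fun i : ℕ => (N : ℤ) - i) ∪ (range m).image (fun i : ℕ => -((N : ℤ) - i)) := by
    intro j hj
    rw [mem_filter, mem_Icc] at hj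
    obtain ⟨⟨hj1, hj2⟩, hj3⟩ := hj
    rw [abs_div, abs_of_pos hL, lt_div_iff₀ hL, abs_mul, abs_of_pos (by linarith : 0 < 2 * Real.pi)] at hj3
    have hjabs : |(j : ℝ)| = (j.natAbs : ℝ) := by
      rw [Nat.cast_natAbs, Int.cast_abs]
    have hle : j.natAbs ≤ N := by omega
    obtain ⟨i, hi⟩ : ∃ i : ℕ, i = N - j.natAbs := ⟨_, rfl⟩
    have hi' : (i : ℝ) = N - |(j : ℝ)| := by
      rw [hi, hjabs, Nat.cast_sub hle]
    have h1 : 2 * Real.pi * (i : ℝ) < ((2 * N + 1 : ℕ) : ℝ) / r := by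
      rw [hi']
      have h2 : (Real.pi - 1 / (r : ℝ)) * ((2 * N + 1 : ℕ) : ℝ) =
          2 * Real.pi * N + Real.pi - ((2 * N + 1 : ℕ) : ℝ) / r := by
        push_cast
        ring
      rw [h2] at hj3
      linarith
    have h3 : (i : ℝ) < ((2 * N + 1 : ℕ) : ℝ) / (6 * r) := by
      rw [lt_div_iff₀ (by positivity)]
      rw [lt_div_iff₀ hrp] at h1
      have h4 : (0 : ℝ) ≤ (i : ℝ) * r := by positivity
      nlinarith
    have h5 : i < m := by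
      rw [hm]
      exact Nat.lt_ceil.2 h3
    rw [mem_union, mem_image, mem_image]
    rcases le_total 0 j with h6 | h6
    · left
      exact ⟨i, mem_range.2 h5, by omega⟩
    · right
      exact ⟨i, mem_range.2 h5, by omega⟩
  have h1 := (card_le_card hsub).trans (card_union_le _ _)
  have h2 : ((range m).image (fun i : ℕ => (N : ℤ) - i)).card ≤ m :=
    card_image_le.trans (by rw [card_range])
  have h3 : ((range m).image (fun i : ℕ => -((N : ℤ) - i))).card ≤ m :=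
    card_image_le.trans (by rw [card_range])
  have h4 : (((Icc (-(N : ℤ)) (N : ℤ)).filter (fun j : ℤ =>
      Real.pi - 1 / (r : ℝ) < |2 * Real.pi * (j : ℝ) / ((2 * N + 1 : ℕ) : ℝ)|)).card : ℝ) ≤
      2 * (m : ℝ) := by
    have : ((Icc (-(N : ℤ)) (N : ℤ)).filter (fun j : ℤ =>
      Real.pi - 1 / (r : ℝ) < |2 * Real.pi * (j : ℝ) / ((2 * N + 1 : ℕ) : ℝ)|)).card ≤ 2 * m := by
      omega
    exact_mod_cast this
  have h5 : (m : ℝ) < ((2 * N + 1 : ℕ) : ℝ) / (6 * r) + 1 := by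
    rw [hm]
    exact Nat.ceil_lt_add_one (by positivity)
  have h6 : (8 : ℝ) ≤ ((2 * N + 1 : ℕ) : ℝ) / r := by
    rw [le_div_iff₀ hrp]
    exact_mod_cast hN
  have h7 : ((2 * N + 1 : ℕ) : ℝ) / (6 * r) = ((2 * N + 1 : ℕ) : ℝ) / r / 6 := by
    field_simp
  rw [h7] at h5
  linarith

theorem Reg1 (o : V) (T r r0 s Mx : ℕ) (Θ pb c Bp : ℝ) (hr : 1 ≤ r) (hr0 : 1 ≤ r0) (hr0r : r0 ≤ r)
    (hT : 3 * r ≤ T) (hΘ : K.Th o (T + 4 * r) ≤ Θ) (hc0 : 0 < c) (hc1 : c ≤ 1) (hBp : 0 ≤ Bp)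
    (hpb : ∀ R < r, ∀ t < T, K.EW r0 o (fun ω0 => K.EW (r + R) (tip o ω0) (fun ω1 =>
      K.EW r0 (tip (tip o ω0) ω1) (fun ω2 => K.EW t (tip o ω2) (fun w =>
        1 - cutI w ω2 (ω1 ++ ω0))))) ≤ pb)
    (hk : ∀ θ : ℝ, 1 / (r : ℝ) ≤ |θ| → |θ| ≤ Real.pi - 1 / r →
      K.EW r0 o (fun ω0 => K.EW r0 o (fun ω' => ‖K.kap o r θ ω0 ω'‖)) ≤ 1 - c)
    (hp : ∀ θ : ℝ, Real.pi - 1 / r < |θ| → |θ| ≤ Real.pi →
      K.EW r0 o (fun ω0 => K.EW r0 o (fun ω' => ‖K.kap o r θ ω0 ω'‖)) ≤ 1 - c ∨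
      K.EW r0 o (fun ω => ‖K.ph o T θ ω‖ ^ 2) ≤ Bp) :
    K.EW r0 o (fun ω => ∑ M ∈ range Mx, (K.fM o T M ω - K.fM o T (M + s) ω) ^ 2)
      ≤ T * Θ ^ 2 * ((s : ℝ) / r) ^ 2
        + 16 / c ^ 2 * (12 * r * Θ ^ 2 + 16 * T * Θ ^ 2 * Real.sqrt pb)
        + 4 * Bp / r := by
  classical
  have hrp : (0 : ℝ) < r := by exact_mod_cast hr
  have hpi := Real.pi_pos
  have hθr := K.Th_mono95 o
  obtain ⟨N, hN⟩ : ∃ N : ℕ, N = Mx + s + 1 + 2 * T + 4 * r := ⟨_, rfl⟩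
  have hL : (0 : ℝ) < ((2 * N + 1 : ℕ) : ℝ) := by positivity
  have hA := K.reg_A o T r0 N Θ hr0 ((hθr _ _ (by omega)).trans hΘ) (by omega)
  have hB := K.reg_B o T r r0 N Θ pb hr hr0 hr0r hT hΘ hpb (by omega)
  have hstep1 : K.EW r0 o (fun ω => ∑ M ∈ range Mx,
      (K.fM o T M ω - K.fM o T (M + s) ω) ^ 2) ≤
      (1 / ((2 * N + 1 : ℕ) : ℝ)) * ∑ j ∈ Icc (-(N : ℤ)) (N : ℤ), K.EW r0 o (fun ω =>
      ‖K.ph o T (2 * Real.pi * j / ((2 * N + 1 : ℕ) : ℝ)) ω *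
        (1 - Complex.exp (-(((2 * Real.pi * j / ((2 * N + 1 : ℕ) : ℝ) : ℝ) : ℂ) * Complex.I)) ^ s)‖ ^ 2) := by
    rw [← K.EW_sum, ← K.EW_mul_left]
    apply K.EW_mono
    intro ω hω
    have h := K.reg_point o T 1 s Mx N ω (by omega) (by omega)
    simp only [Nat.cast_one, div_one, Finset.sum_range_one, add_zero, pow_zero, mul_one,
      one_mul] at h
    exact h
  have hstep2 : ∀ j ∈ Icc (-(N : ℤ)) (N : ℤ), K.EW r0 o (fun ω =>
      ‖K.ph o T (2 * Real.pi * j / ((2 * N + 1 : ℕ) : ℝ)) ω *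
        (1 - Complex.exp (-(((2 * Real.pi * j / ((2 * N + 1 : ℕ) : ℝ) : ℝ) : ℂ) * Complex.I)) ^ s)‖ ^ 2) ≤
      ((s : ℝ) / r) ^ 2 * K.EW r0 o (fun ω => ‖K.ph o T (2 * Real.pi * j / ((2 * N + 1 : ℕ) : ℝ)) ω‖ ^ 2) +
      16 / c ^ 2 * K.EW r0 o (fun ω => ‖K.ph o T (2 * Real.pi * j / ((2 * N + 1 : ℕ) : ℝ)) ω -
        K.hh o T r r0 (2 * Real.pi * j / ((2 * N + 1 : ℕ) : ℝ)) ω‖ ^ 2) +
      (if Real.pi - 1 / (r : ℝ) < |2 * Real.pi * (j : ℝ) / ((2 * N + 1 : ℕ) : ℝ)| then 4 * Bp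
        else 0) := by
    intro j hj
    have hθpi : |2 * Real.pi * j / ((2 * N + 1 : ℕ) : ℝ)| ≤ Real.pi := by
      rw [abs_div, abs_of_pos hL, div_le_iff₀ hL, abs_mul, abs_mul, abs_two, abs_of_pos hpi]
      have h1 : |(j : ℝ)| ≤ N := by
        rw [abs_le]
        rw [mem_Icc] at hj
        constructor
        · exact_mod_cast hj.1
        · exact_mod_cast hj.2
      push_cast
      nlinarith
    generalize 2 * Real.pi * (j : ℝ) / ((2 * N + 1 : ℕ) : ℝ) = θ at hθpi ⊢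
    set E1 : ℝ := K.EW r0 o (fun ω => ‖K.ph o T θ ω‖ ^ 2) with hE1
    set E2 : ℝ := K.EW r0 o (fun ω => ‖K.ph o T θ ω - K.hh o T r r0 θ ω‖ ^ 2) with hE2
    have hE1' : 0 ≤ E1 := K.EW_nonneg _ _ _ fun ω _ => by positivity
    have hE2' : 0 ≤ E2 := K.EW_nonneg _ _ _ fun ω _ => by positivity
    have hD1 := reg_norm1 θ s
    have hD2 := reg_norm2 θ s
    generalize (1 - Complex.exp (-((θ : ℂ) * Complex.I)) ^ s) = D at hD1 hD2 ⊢
    have h1 : K.EW r0 o (fun ω => ‖K.ph o T θ ω * D‖ ^ 2) = E1 * ‖D‖ ^ 2 := by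
      rw [hE1, ← K.EW_mul_right]
      apply K.EW_congr
      intro ω _
      rw [norm_mul, mul_pow]
    rw [h1]
    have hDn := norm_nonneg D
    have t1 : 0 ≤ ((s : ℝ) / r) ^ 2 * E1 := by positivity
    have t2 : 0 ≤ 16 / c ^ 2 * E2 := by positivity
    have t3 : 0 ≤ (if Real.pi - 1 / (r : ℝ) < |θ| then 4 * Bp else 0) := by
      split
      · linarith
      · exact le_rfl
    have hcontr : K.EW r0 o (fun ω0 => K.EW r0 o (fun ω' => ‖K.kap o r θ ω0 ω'‖)) ≤ 1 - c →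
        E1 * ‖D‖ ^ 2 ≤ 16 / c ^ 2 * E2 := by
      intro h4
      have h3 : E1 * ‖D‖ ^ 2 ≤ E1 * 2 ^ 2 := by gcongr
      have h5 : E1 ≤ 4 / c ^ 2 * E2 := K.V_bound o T r r0 hr0 θ c hc0 hc1 h4
      have h6 : E1 * 2 ^ 2 ≤ 16 / c ^ 2 * E2 := by
        calc E1 * 2 ^ 2 ≤ (4 / c ^ 2 * E2) * 2 ^ 2 := by gcongr
          _ = 16 / c ^ 2 * E2 := by ring
      linarith
    rcases lt_or_ge |θ| (1 / (r : ℝ)) with hcase | hcase
    · have h2 : ‖D‖ ≤ (s : ℝ) / r := by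
        calc ‖D‖ ≤ s * |θ| := hD2
          _ ≤ s * (1 / (r : ℝ)) := by gcongr
          _ = (s : ℝ) / r := by ring
      have h3 : E1 * ‖D‖ ^ 2 ≤ E1 * ((s : ℝ) / r) ^ 2 := by gcongr
      linarith
    · rcases le_or_gt |θ| (Real.pi - 1 / (r : ℝ)) with hcase2 | hcase2
      · have h4 := hcontr (hk θ hcase hcase2)
        linarith
      · rcases hp θ hcase2 hθpi with h4 | h4
        · have h5 := hcontr h4
          linarith
        · rw [if_pos hcase2]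
          have h3 : E1 * ‖D‖ ^ 2 ≤ Bp * 2 ^ 2 := by gcongr
          linarith
  have hsum := Finset.sum_le_sum hstep2
  rw [Finset.sum_add_distrib, Finset.sum_add_distrib, ← Finset.mul_sum, ← Finset.mul_sum,
    ← Finset.sum_filter, Finset.sum_const, nsmul_eq_mul] at hsum
  refine hstep1.trans ?_
  rw [one_div, inv_mul_le_iff₀ hL]
  refine hsum.trans ?_
  have u1 := mul_le_mul_of_nonneg_left hA (by positivity : 0 ≤ ((s : ℝ) / r) ^ 2)
  have u2 := mul_le_mul_of_nonneg_left hB (by positivity : 0 ≤ 16 / c ^ 2)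
  have u3 := mul_le_mul_of_nonneg_right (card95 N r hr (by omega)) (by positivity : 0 ≤ 4 * Bp)
  refine (add_le_add (add_le_add u1 u2) u3).trans (le_of_eq ?_)
  ring

end Ker

end HP192
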