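import Mathlib
import Pool.Agent.Helper192_HP.Defs

namespace HP192
open Finset

/-- no cycle of length at most `L` whose length has property `p`, in the graph of nonzero
off-diagonal transitions -/
def NoCyc {V : Type} [Fintype V] [DecidableEq V] (K : Ker V) (L : ℕ) (p : ℕ → Prop) : Prop :=
  ∀ (c : List V) (hc : c ≠ []), c.Nodup → 3 ≤ c.length → c.length ≤ L → p c.length →
    List.IsChain (fun a b => K.P a b ≠ 0) c → K.P (c.getLast hc) (c.head hc) = 0


end HP192
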