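import Mathlib
import Pool.Agent.Helper192_HP.Defs
import Pool.Agent.Helper192_HP.WDefs
import Pool.Agent.Helper192_HP.Basic
import Pool.Agent.Helper192_HP.W01
import Pool.Agent.Helper192_HP.W02
import Pool.Agent.Helper192_HP.PhpDef

namespace HP192
open Finset

section PhPi
variable {V : Type} [DecidableEq V]

theorem phpi_dropWhile (s : List V) (y : V) (h : y ∈ s) :
    s.dropWhile (fun x => decide (x ≠ y)) = s.drop (s.idxOf y) := by
  induction s with
  | nil => simp at h
  | cons a s ih =>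
    by_cases hay : a = y
    · subst hay
      simp
    · have h1 : y ∈ s := by
        rcases List.mem_cons.1 h with h | h
        · exact absurd h.symm hay
        · exact h
      rw [List.dropWhile_cons_of_pos (by simpa using hay), ih h1, List.idxOf_cons_ne _ hay,
        Nat.succ_eq_add_one, List.drop_succ_cons]

theorem phpi_len_mem (y : V) (W : List V) (h : y ∈ LE W) :
    len (y :: W) + (LE W).idxOf y = len W := by
  have h1 : LE (y :: W) = (LE W).drop ((LE W).idxOf y) := by
    show stp y (LE W) = _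
    unfold stp
    rw [if_pos h, phpi_dropWhile _ _ h]
  unfold len
  rw [h1, List.length_drop]
  have := List.idxOf_lt_length_iff.2 h
  omega

theorem phpi_len_not_mem (y : V) (W : List V) (h : y ∉ LE W) : len (y :: W) = len W + 1 := by
  have h1 : LE (y :: W) = y :: LE W := by
    show stp y (LE W) = _
    unfold stp
    rw [if_neg h]
  unfold len
  rw [h1, List.length_cons]

/-- the `j`-th vertex of the loop erasure occurs in the path at a position at least `j` -/
theorem phpi_pos (W : List V) : ∀ (j : ℕ) (y : V), (LE W)[j]? = some y →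
    ∃ i, j ≤ i ∧ i < W.length ∧ W[i]? = some y := by
  induction W with
  | nil => intro j y h; simp [LE] at h
  | cons v w ih =>
    intro j y h
    have h0 : LE (v :: w) = stp v (LE w) := rfl
    rw [h0] at h
    unfold stp at h
    split_ifs at h with hv
    · rw [phpi_dropWhile _ _ hv, List.getElem?_drop] at h
      obtain ⟨i, hi, hi2, hi3⟩ := ih _ _ h
      refine ⟨i + 1, by omega, by simpa using hi2, ?_⟩
      rw [List.getElem?_cons_succ]
      exact hi3
    · cases j with
      | zero =>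
        refine ⟨0, le_rfl, by simp, ?_⟩
        simpa using h
      | succ j =>
        rw [List.getElem?_cons_succ] at h
        obtain ⟨i, hi, hi2, hi3⟩ := ih _ _ h
        refine ⟨i + 1, by omega, by simpa using hi2, ?_⟩
        rw [List.getElem?_cons_succ]
        exact hi3

/-- the loop erasure of a chain is a chain -/
theorem phpi_chain (R : V → V → Prop) (W : List V) (h : List.IsChain R W) :
    List.IsChain R (LE W) := by
  induction W with
  | nil => exact List.isChain_nil
  | cons v w ih =>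
    have hw : List.IsChain R w := h.tail
    have h0 : LE (v :: w) = stp v (LE w) := rfl
    rw [h0]
    unfold stp
    split_ifs with hv
    · exact (ih hw).suffix (List.dropWhile_suffix _)
    · cases w with
      | nil => exact List.isChain_singleton _
      | cons a w =>
        obtain ⟨s, hs⟩ := LE_cons a w
        rw [hs]
        have h1 := ih hw
        rw [hs] at h1
        rw [List.isChain_cons_cons] at h ⊢
        exact ⟨h.1, h1⟩

end PhPi

section PhPi2

/-- `exp (i n θ)` -/
noncomputable def phE (θ : ℝ) (n : ℕ) : ℂ := Complex.exp ((((n : ℕ) : ℝ) * θ : ℝ) * Complex.I)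

theorem phpi_norm (θ : ℝ) (n : ℕ) : ‖phE θ n‖ = 1 := Complex.norm_exp_ofReal_mul_I _

theorem phpi_two (θ : ℝ) (a n : ℕ) : ‖phE θ a + phE θ n‖ ≤ 2 := by
  refine (norm_add_le _ _).trans ?_
  rw [phpi_norm, phpi_norm]; norm_num

theorem phpi_odd_aux (θ : ℝ) (k : ℤ) (s : ℝ) (hs : s = 1 ∨ s = -1) :
    ‖Complex.exp ((((2 * k + 1 : ℤ) : ℝ) * θ : ℝ) * Complex.I) + 1‖ ≤
      |((2 * k + 1 : ℤ) : ℝ)| * |θ + s * Real.pi| := by
  have h1 : Complex.exp (Complex.I * ((((2 * k + 1 : ℤ) : ℝ) * (θ + s * Real.pi) : ℝ) : ℂ)) =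
      - Complex.exp ((((2 * k + 1 : ℤ) : ℝ) * θ : ℝ) * Complex.I) := by
    have h2 : Complex.I * ((((2 * k + 1 : ℤ) : ℝ) * (θ + s * Real.pi) : ℝ) : ℂ) =
        ((((2 * k + 1 : ℤ) : ℝ) * θ : ℝ) * Complex.I) +
          (s * Real.pi * Complex.I + s * (k * (2 * Real.pi * Complex.I))) := by
      push_cast
      ring
    rw [h2, Complex.exp_add, Complex.exp_add]
    rcases hs with rfl | rfl
    · have h3 : ((1 : ℝ) : ℂ) * Real.pi * Complex.I = Real.pi * Complex.I := by push_cast; ring
      have h4 : ((1 : ℝ) : ℂ) * (k * (2 * Real.pi * Complex.I)) = k * (2 * Real.pi * Complex.I) := by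
        push_cast; ring
      rw [h3, h4, Complex.exp_pi_mul_I, Complex.exp_int_mul_two_pi_mul_I]
      ring
    · have h3 : ((-1 : ℝ) : ℂ) * Real.pi * Complex.I = -(Real.pi * Complex.I) := by push_cast; ring
      have h4 : ((-1 : ℝ) : ℂ) * (k * (2 * Real.pi * Complex.I)) =
          ((-k : ℤ) : ℂ) * (2 * Real.pi * Complex.I) := by
        push_cast; ring
      rw [h3, h4, Complex.exp_neg, Complex.exp_pi_mul_I, Complex.exp_int_mul_two_pi_mul_I]
      norm_num
  have h5 := Real.norm_exp_I_mul_ofReal_sub_one_le (x := ((2 * k + 1 : ℤ) : ℝ) * (θ + s * Real.pi))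
  rw [h1, Real.norm_eq_abs, abs_mul] at h5
  have h6 : Complex.exp ((((2 * k + 1 : ℤ) : ℝ) * θ : ℝ) * Complex.I) + 1 =
      -(-Complex.exp ((((2 * k + 1 : ℤ) : ℝ) * θ : ℝ) * Complex.I) - 1) := by ring
  rw [h6, norm_neg]
  exact h5

theorem phpi_odd (θ : ℝ) (a n : ℕ) (k : ℤ) (h : (a : ℤ) - n = 2 * k + 1) :
    ‖phE θ a + phE θ n‖ ≤ |(|θ| - Real.pi)| * |(((a : ℤ) - n : ℤ) : ℝ)| := by
  have h1 : phE θ a = phE θ n * Complex.exp ((((2 * k + 1 : ℤ) : ℝ) * θ : ℝ) * Complex.I) := by
    unfold phE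
    rw [← Complex.exp_add]
    congr 1
    have h2 : ((a : ℕ) : ℝ) = (n : ℝ) + ((2 * k + 1 : ℤ) : ℝ) := by
      rw [← h]; push_cast; ring
    rw [h2]
    push_cast
    ring
  have h3 : phE θ a + phE θ n =
      phE θ n * (Complex.exp ((((2 * k + 1 : ℤ) : ℝ) * θ : ℝ) * Complex.I) + 1) := by
    rw [h1]; ring
  rw [h3, norm_mul, phpi_norm, one_mul, h]
  rcases le_or_gt 0 θ with hθ | hθ
  · have h4 := phpi_odd_aux θ k (-1) (Or.inr rfl)
    have h5 : |θ + -1 * Real.pi| = |(|θ| - Real.pi)| := by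
      rw [abs_of_nonneg hθ]; congr 1; ring
    rw [h5] at h4
    exact h4.trans_eq (mul_comm _ _)
  · have h4 := phpi_odd_aux θ k 1 (Or.inl rfl)
    have h5 : |θ + 1 * Real.pi| = |(|θ| - Real.pi)| := by
      rw [abs_of_neg hθ, ← abs_neg]; congr 1; ring
    rw [h5] at h4
    exact h4.trans_eq (mul_comm _ _)

end PhPi2

namespace Ker
variable {V : Type} [Fintype V] [DecidableEq V] (K : Ker V)

/-- only paths with nonzero transitions matter -/
theorem phpi_mono (t : ℕ) : ∀ (x : V) (F F' : List V → ℝ),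
    (∀ w : List V, w.length = t → List.IsChain (fun a b => K.P a b ≠ 0) (w ++ [x]) → F w ≤ F' w) →
    K.EW t x F ≤ K.EW t x F' := by
  induction t with
  | zero =>
    intro x F F' h
    rw [EW_zero, EW_zero]
    exact h [] rfl (by simp)
  | succ t ih =>
    intro x F F' h
    rw [EW_succ, EW_succ]
    refine Finset.sum_le_sum fun y _ => ?_
    by_cases hP : K.P x y = 0
    · rw [hP, zero_smul, zero_smul]
    · rw [smul_eq_mul, smul_eq_mul]
      refine mul_le_mul_of_nonneg_left (ih y _ _ fun w hw hc => ?_) (K.nn x y)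
      refine h (w ++ [y]) (by simp [hw]) ?_
      rw [List.isChain_append]
      refine ⟨hc, by simp, ?_⟩
      intro a ha b hb
      simp at ha hb
      subst ha; subst hb
      rw [K.sym]
      exact hP

/-- the bound for the error -/
noncomputable def phpiG (δ : ℝ) (L s : ℕ) (l : List V) : ℝ :=
  δ + ∑ c ∈ range (s + 1), (if c = 0 then 0 else (δ * c + if L + 1 ≤ c then 2 else 0)) *
    (if l[c]? = l[0]? then (1 : ℝ) else 0)

theorem phpiG_ge (δ : ℝ) (hδ : 0 ≤ δ) (L s : ℕ) (l : List V) : δ ≤ phpiG δ L s l := by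
  unfold phpiG
  have : 0 ≤ ∑ c ∈ range (s + 1), (if c = 0 then 0 else (δ * c + if L + 1 ≤ c then 2 else 0)) *
    (if l[c]? = l[0]? then (1 : ℝ) else 0) := by
    refine Finset.sum_nonneg fun c _ => ?_
    split_ifs <;> positivity
  linarith

theorem phpiG_ge' (δ : ℝ) (hδ : 0 ≤ δ) (L s : ℕ) (l : List V) (c : ℕ) (hc : c ≠ 0) (hcs : c ≤ s)
    (hl : l[c]? = l[0]?) : δ * c + (if L + 1 ≤ c then 2 else 0) ≤ phpiG δ L s l := by
  unfold phpiG
  have h1 := Finset.single_le_sum (s := range (s + 1))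
    (f := fun c => (if c = 0 then 0 else (δ * c + if L + 1 ≤ c then 2 else 0)) *
    (if l[c]? = l[0]? then (1 : ℝ) else 0)) (fun c _ => by
      show 0 ≤ (if c = 0 then 0 else (δ * c + if L + 1 ≤ c then 2 else 0)) *
        (if l[c]? = l[0]? then (1 : ℝ) else 0)
      split_ifs <;> positivity) (mem_range.2 (Nat.lt_succ_of_le hcs))
  simp only [if_neg hc, if_pos hl, mul_one] at h1
  linarith

/-- the pointwise estimate -/
theorem phpi_point (L : ℕ) (θ : ℝ) (hL : NoCyc K L Odd) (s : ℕ) (W : List V) (hW : W.length = s)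
    (hc : List.IsChain (fun a b => K.P a b ≠ 0) W) (v y : V) (hv : W.head? = some v)
    (hP : K.P v y ≠ 0) (hyv : y ≠ v) :
    ‖phE θ (len (y :: W)) + phE θ (len W)‖ ≤ phpiG |(|θ| - Real.pi)| L s (y :: W) := by
  set δ : ℝ := |(|θ| - Real.pi)| with hδdef
  have hδ : 0 ≤ δ := abs_nonneg _
  by_cases hy : y ∈ LE W
  · obtain ⟨w, rfl⟩ : ∃ w, W = v :: w := by
      cases W with
      | nil => simp at hv
      | cons a w =>
        simp only [List.head?_cons, Option.some.injEq] at hv
        exact ⟨w, by rw [hv]⟩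
    obtain ⟨γ, hγ⟩ := LE_cons v w
    have hj0 := phpi_len_mem y (v :: w) hy
    set j := (LE (v :: w)).idxOf y with hj
    have hjlt : j < (LE (v :: w)).length := List.idxOf_lt_length_iff.2 hy
    have hget : (LE (v :: w))[j]? = some y := by
      rw [List.getElem?_eq_getElem hjlt, List.getElem_idxOf hjlt]
    have hj1 : j ≠ 0 := by
      intro h0
      rw [h0, hγ] at hget
      simp only [List.getElem?_cons_zero, Option.some.injEq] at hget
      exact hyv hget.symm
    obtain ⟨i, hji, hi, hiy⟩ := phpi_pos _ _ _ hget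
    have hge := phpiG_ge' δ hδ L s (y :: v :: w) (i + 1) (by omega) (by omega) (by
      rw [List.getElem?_cons_succ, hiy]; simp)
    rcases Nat.even_or_odd j with he | ho
    · -- even index: a short odd cycle
      have hjL : L + 1 ≤ i + 1 := by
        by_contra hcon
        have hjL : j + 1 ≤ L := by omega
        obtain ⟨m, hm⟩ := he
        set c := (LE (v :: w)).take (j + 1) with hcdef
        have hlen : c.length = j + 1 := by
          rw [hcdef, List.length_take]; omega
        have hcne : c ≠ [] := by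
          intro h; rw [h] at hlen; simp at hlen
        have h1 := hL c hcne ((LE_nodup _).sublist (List.take_sublist _ _)) (by omega)
          (by omega) (by rw [hlen]; exact ⟨m, by omega⟩)
          ((phpi_chain _ _ hc).take _)
        have h2 : c.head hcne = v := by
          have : c.head? = some v := by
            rw [hcdef, hγ]; simp
          rw [List.head?_eq_some_head hcne] at this
          simpa using this
        have h3 : c.getLast hcne = y := by
          have h4 : c.getLast? = some y := by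
            rw [List.getLast?_eq_getElem?, hlen, hcdef, List.getElem?_take]
            simp only [Nat.add_sub_cancel, Nat.lt_succ_self, if_true]
            exact hget
          rw [List.getLast?_eq_some_getLast hcne] at h4
          simpa using h4
        rw [h2, h3, K.sym] at h1
        exact hP h1
      have h5 := phpi_two θ (len (y :: v :: w)) (len (v :: w))
      rw [if_pos hjL] at hge
      have : 0 ≤ δ * ((i + 1 : ℕ) : ℝ) := by positivity
      linarith
    · obtain ⟨m, hm⟩ := ho
      have h6 := phpi_odd θ (len (y :: v :: w)) (len (v :: w)) (-(m : ℤ) - 1) (by omega)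
      have h7 : |((((len (y :: v :: w) : ℕ) : ℤ) - (len (v :: w) : ℕ) : ℤ) : ℝ)| = (j : ℝ) := by
        have : (((len (y :: v :: w) : ℕ) : ℤ) - (len (v :: w) : ℕ) : ℤ) = -(j : ℤ) := by omega
        rw [this]
        push_cast
        rw [abs_neg, Nat.abs_cast]
      rw [h7] at h6
      have h8 : δ * (j : ℝ) ≤ δ * ((i + 1 : ℕ) : ℝ) :=
        mul_le_mul_of_nonneg_left (by exact_mod_cast (by omega : j ≤ i + 1)) hδ
      have h9 : (0:ℝ) ≤ if L + 1 ≤ i + 1 then 2 else 0 := by split_ifs <;> norm_num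
      linarith
  · have h0 := phpi_len_not_mem y W hy
    have h6 := phpi_odd θ (len (y :: W)) (len W) 0 (by rw [h0]; push_cast; ring)
    have h7 : |((((len (y :: W) : ℕ) : ℤ) - (len W : ℕ) : ℤ) : ℝ)| = 1 := by
      rw [h0]; push_cast; simp
    rw [h7, mul_one] at h6
    exact h6.trans (phpiG_ge δ hδ L s _)

/-- one step -/
theorem phpi_step (L : ℕ) (θ : ℝ) (hL : NoCyc K L Odd) (s : ℕ) (W : List V) (hW : W.length = s)
    (hc : List.IsChain (fun a b => K.P a b ≠ 0) W) (v : V) (hv : W.head? = some v) :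
    ‖∑ y, K.P v y • phE θ (len (y :: W))‖ ≤
      ∑ y, K.P v y * phpiG |(|θ| - Real.pi)| L s (y :: W) := by
  have h1 : len (v :: W) = len W := by
    cases W with
    | nil => simp at hv
    | cons a w =>
      simp only [List.head?_cons, Option.some.injEq] at hv
      subst hv
      obtain ⟨γ, hγ⟩ := LE_cons a w
      have h := phpi_len_mem a (a :: w) (by rw [hγ]; simp)
      have h0 : (LE (a :: w)).idxOf a = 0 := by rw [hγ]; simp
      omega
  have h2 : ∑ y, K.P v y • phE θ (len (y :: W)) =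
      ∑ y, K.P v y • (if y = v then 0 else phE θ (len (y :: W)) + phE θ (len W)) := by
    have hrow := K.row v
    rw [← Finset.add_sum_erase _ _ (mem_univ v)] at hrow ⊢
    rw [K.hold] at hrow ⊢
    rw [← Finset.add_sum_erase univ (fun y => K.P v y •
      (if y = v then 0 else phE θ (len (y :: W)) + phE θ (len W))) (mem_univ v)]
    rw [if_pos rfl, smul_zero, zero_add, h1]
    have h3 : ∑ y ∈ univ.erase v, K.P v y •
        (if y = v then 0 else phE θ (len (y :: W)) + phE θ (len W)) =
        ∑ y ∈ univ.erase v, (K.P v y • phE θ (len (y :: W)) + K.P v y • phE θ (len W)) := by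
      refine Finset.sum_congr rfl fun y hy => ?_
      rw [if_neg (Finset.ne_of_mem_erase hy), smul_add]
    rw [h3, Finset.sum_add_distrib, ← Finset.sum_smul]
    have h4 : ∑ y ∈ univ.erase v, K.P v y = 1 / 2 := by linarith
    rw [h4, add_comm]
  rw [h2]
  refine (norm_sum_le _ _).trans (Finset.sum_le_sum fun y _ => ?_)
  rw [norm_smul, Real.norm_eq_abs, abs_of_nonneg (K.nn v y)]
  by_cases hP : K.P v y = 0
  · rw [hP, zero_mul, zero_mul]
  refine mul_le_mul_of_nonneg_left ?_ (K.nn v y)
  by_cases hyv : y = v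
  · rw [if_pos hyv, norm_zero]
    exact (abs_nonneg _).trans (phpiG_ge _ (abs_nonneg _) L s _)
  · rw [if_neg hyv]
    exact K.phpi_point L θ hL s W hW hc v y hv hP hyv

/-- return probability -/
theorem phpi_ret (o : V) (s c : ℕ) (hc : c ≠ 0) (hcs : c ≤ s) :
    K.EW (s + 1) o (fun l => if l[c]? = l[0]? then (1 : ℝ) else 0) = K.hk c o o := by
  have h1 : s + 1 = (s + 1 - c) + c := by omega
  rw [h1, EW_append]
  have h2 : K.EW (s + 1 - c) o (fun w => K.EW c (tip o w) (fun w' =>
      if (w' ++ w)[c]? = (w' ++ w)[0]? then (1 : ℝ) else 0)) =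
      K.EW (s + 1 - c) o (fun _ => K.hk c o o) := by
    refine K.EW_congr _ _ _ _ fun w hw => ?_
    have h3 : K.EW c (tip o w) (fun w' =>
        if (w' ++ w)[c]? = (w' ++ w)[0]? then (1 : ℝ) else 0) =
        K.EW c (tip o w) (fun w' => if tip (tip o w) w' = tip o w then (1 : ℝ) else 0) := by
      refine K.EW_congr _ _ _ _ fun w' hw' => ?_
      cases w with
      | nil => simp at hw; omega
      | cons a w =>
        cases w' with
        | nil => simp at hw'; omega
        | cons b w' =>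
          have h4 : ((b :: w') ++ (a :: w))[c]? = some a := by
            rw [List.getElem?_append_right (by omega), hw']
            simp
          have h5 : ((b :: w') ++ (a :: w))[0]? = some b := by simp
          rw [h4, h5, tip_cons, tip_cons]
          simp only [Option.some.injEq]
          congr 1
          exact propext ⟨fun h => h.symm, fun h => h.symm⟩
    rw [h3, hk_eq_EW]
    exact K.hk_diag c _ _
  rw [h2, EW_const]

theorem phpi_EWG (o : V) (δ : ℝ) (L s : ℕ) :
    K.EW (s + 1) o (phpiG δ L s) = δ + ∑ c ∈ range (s + 1),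
      (if c = 0 then 0 else (δ * c + if L + 1 ≤ c then 2 else 0)) * K.hk c o o := by
  unfold phpiG
  rw [EW_add, EW_const, EW_sum]
  congr 1
  refine Finset.sum_congr rfl fun c hc => ?_
  rw [mem_range] at hc
  rw [EW_mul_left]
  by_cases h0 : c = 0
  · rw [if_pos h0, zero_mul, zero_mul]
  · rw [K.phpi_ret o s c h0 (by omega)]

theorem phpi_bound (o : V) (T r0 L : ℕ) (Θ δ : ℝ) (hδ : 0 ≤ δ) (hΘ : K.Th o (T + r0) ≤ Θ) (s : ℕ)
    (hs : s ≤ T + r0) : K.EW (s + 1) o (phpiG δ L s) ≤ δ * (1 + Θ) + 2 * Θ / (L + 1) := by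
  rw [phpi_EWG]
  have h1 : ∑ c ∈ range (s + 1),
      (if c = 0 then 0 else (δ * c + if L + 1 ≤ c then 2 else 0)) * K.hk c o o ≤
      ∑ c ∈ range (T + r0 + 1), (δ + 2 / ((L : ℝ) + 1)) * (((c : ℝ) + 1) * K.hk c o o) := by
    refine (Finset.sum_le_sum fun c _ => ?_).trans
      (Finset.sum_le_sum_of_subset_of_nonneg (Finset.range_mono (by omega)) fun c _ _ => ?_)
    · rw [← mul_assoc]
      refine mul_le_mul_of_nonneg_right ?_ (K.hk_nonneg _ _ _)
      have hL0 : (0:ℝ) < (L : ℝ) + 1 := by positivity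
      have hc0 : (0:ℝ) ≤ c := Nat.cast_nonneg c
      have e1 : 0 ≤ 2 / ((L : ℝ) + 1) := by positivity
      by_cases h0 : c = 0
      · rw [if_pos h0]; positivity
      · rw [if_neg h0, add_mul]
        by_cases hcL : L + 1 ≤ c
        · rw [if_pos hcL]
          have e2 : (L : ℝ) + 1 ≤ (c : ℝ) + 1 := by
            have : ((L + 1 : ℕ) : ℝ) ≤ c := by exact_mod_cast hcL
            push_cast at this; linarith
          have e3 : 2 ≤ 2 / ((L : ℝ) + 1) * ((c : ℝ) + 1) := by
            rw [div_mul_eq_mul_div, le_div_iff₀ hL0]; linarith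
          nlinarith
        · rw [if_neg hcL]
          have : 0 ≤ 2 / ((L : ℝ) + 1) * ((c : ℝ) + 1) := by positivity
          nlinarith
    · have := K.hk_nonneg c o o
      positivity
  rw [← Finset.mul_sum] at h1
  have h2 : ∑ c ∈ range (T + r0 + 1), (((c : ℝ) + 1) * K.hk c o o) ≤ Θ := hΘ
  have h3 : (δ + 2 / ((L : ℝ) + 1)) * ∑ c ∈ range (T + r0 + 1), (((c : ℝ) + 1) * K.hk c o o) ≤
      (δ + 2 / ((L : ℝ) + 1)) * Θ := mul_le_mul_of_nonneg_left h2 (by positivity)
  have h4 : (δ + 2 / ((L : ℝ) + 1)) * Θ = δ * Θ + 2 * Θ / (L + 1) := by ring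
  linarith

/-- near `π` the characteristic function is small if there are no short odd cycles -/
theorem ph_pi (o : V) (T r0 L : ℕ) (Θ θ : ℝ) (hr0 : 1 ≤ r0) (hΘ : K.Th o (T + r0) ≤ Θ)
    (hL : NoCyc K L Odd) :
    K.EW r0 o (fun ω => ‖K.ph o T θ ω‖ ^ 2)
      ≤ T * (1 + T * |(|θ| - Real.pi)| * (1 + Θ) + 2 * T * Θ / (L + 1)) := by
  set δ : ℝ := |(|θ| - Real.pi)| with hδdef
  have hδ : 0 ≤ δ := abs_nonneg _
  have hph : ∀ ω, K.ph o T θ ω = ∑ t ∈ range T, K.EW t (tip o ω) (fun w => phE θ (len (w ++ ω))) :=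
    fun ω => rfl
  have hu : ∀ t x (ω : List V), ‖K.EW t x (fun w => phE θ (len (w ++ ω)))‖ ≤ 1 := by
    intro t x ω
    refine (K.norm_EW_le _ _ _).trans ?_
    exact K.EW_le_const _ _ _ _ fun w _ => by rw [phpi_norm]
  have hT : ∀ ω, ‖K.ph o T θ ω‖ ≤ T := by
    intro ω
    rw [hph]
    refine (norm_sum_le _ _).trans ((Finset.sum_le_sum fun t _ => hu _ _ _).trans ?_)
    simp
  have h1 : K.EW r0 o (fun ω => ‖K.ph o T θ ω‖ ^ 2) ≤
      K.EW r0 o (fun ω => (T : ℝ) * ‖K.ph o T θ ω‖) := by
    refine K.EW_mono _ _ _ _ fun ω _ => ?_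
    rw [sq]
    exact mul_le_mul_of_nonneg_right (hT ω) (norm_nonneg _)
  rw [EW_mul_left] at h1
  refine h1.trans (mul_le_mul_of_nonneg_left ?_ (Nat.cast_nonneg T))
  -- bound on the norm
  have hΘ0 : 0 ≤ Θ := by
    refine le_trans ?_ hΘ
    unfold Th
    exact Finset.sum_nonneg fun c _ => mul_nonneg (by positivity) (K.hk_nonneg _ _ _)
  cases T with
  | zero =>
    have h2 : K.EW r0 o (fun ω => ‖K.ph o 0 θ ω‖) = K.EW r0 o (fun _ => (0 : ℝ)) := by
      refine K.EW_congr _ _ _ _ fun ω _ => ?_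
      rw [hph]; simp
    rw [h2, EW_const]
    have : 0 ≤ 2 * ((0:ℕ):ℝ) * Θ / ((L:ℝ) + 1) := by positivity
    push_cast at this ⊢
    nlinarith
  | succ T =>
    have h2 : ∀ ω, ‖K.ph o (T + 1) θ ω‖ ≤ 1 + ∑ t ∈ range T,
        ‖K.EW (t + 1) (tip o ω) (fun w => phE θ (len (w ++ ω)))‖ := by
      intro ω
      rw [hph, Finset.sum_range_succ']
      refine (norm_add_le _ _).trans ?_
      rw [add_comm]
      exact add_le_add (hu _ _ _) (norm_sum_le _ _)
    have h3 : K.EW r0 o (fun ω => ‖K.ph o (T + 1) θ ω‖) ≤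
        K.EW r0 o (fun ω => 1 + ∑ t ∈ range T,
          ‖K.EW (t + 1) (tip o ω) (fun w => phE θ (len (w ++ ω)))‖) :=
      K.EW_mono _ _ _ _ fun ω _ => h2 ω
    refine h3.trans ?_
    rw [EW_add, EW_const, EW_sum]
    have h4 : ∀ t ∈ range T, K.EW r0 o (fun ω =>
        ‖K.EW (t + 1) (tip o ω) (fun w => phE θ (len (w ++ ω)))‖) ≤
        δ * (1 + Θ) + 2 * Θ / (L + 1) := by
      intro t ht
      rw [mem_range] at ht
      have h5 : K.EW r0 o (fun ω => ‖K.EW (t + 1) (tip o ω) (fun w => phE θ (len (w ++ ω)))‖) ≤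
          K.EW r0 o (fun ω => K.EW t (tip o ω) (fun w =>
            ‖∑ y, K.P (tip (tip o ω) w) y • phE θ (len (y :: (w ++ ω)))‖)) := by
        refine K.EW_mono _ _ _ _ fun ω _ => ?_
        rw [EW_succ']
        exact K.norm_EW_le _ _ _
      refine h5.trans ?_
      have h6 : K.EW r0 o (fun ω => K.EW t (tip o ω) (fun w =>
            ‖∑ y, K.P (tip (tip o ω) w) y • phE θ (len (y :: (w ++ ω)))‖)) =
          K.EW (r0 + t) o (fun W => ‖∑ y, K.P (tip o W) y • phE θ (len (y :: W))‖) := by
        rw [EW_append]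
        refine K.EW_congr _ _ _ _ fun ω _ => K.EW_congr _ _ _ _ fun w _ => ?_
        rw [tip_append]
      rw [h6]
      have h7 : K.EW (r0 + t) o (fun W => ‖∑ y, K.P (tip o W) y • phE θ (len (y :: W))‖) ≤
          K.EW (r0 + t) o (fun W => ∑ y, K.P (tip o W) y • phpiG δ L (r0 + t) (y :: W)) := by
        refine K.phpi_mono _ _ _ _ fun W hW hc => ?_
        have hc' : List.IsChain (fun a b => K.P a b ≠ 0) W := hc.left_of_append
        have hv : W.head? = some (tip o W) := by
          cases W with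
          | nil => simp at hW; omega
          | cons a w => simp
        exact K.phpi_step L θ hL (r0 + t) W hW hc' _ hv
      refine h7.trans ?_
      rw [← EW_succ']
      exact K.phpi_bound o (T + 1) r0 L Θ δ hδ hΘ (r0 + t) (by omega)
    have h8 := Finset.sum_le_sum h4
    rw [Finset.sum_const, card_range, nsmul_eq_mul] at h8
    have h9 : 0 ≤ δ * (1 + Θ) + 2 * Θ / ((L : ℝ) + 1) := by positivity
    have h10 : (T : ℝ) * (δ * (1 + Θ) + 2 * Θ / (L + 1)) ≤
        ((T : ℝ) + 1) * (δ * (1 + Θ) + 2 * Θ / (L + 1)) := by nlinarith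
    have h11 : ((T : ℝ) + 1) * (δ * (1 + Θ) + 2 * Θ / (L + 1)) =
        ((T : ℝ) + 1) * δ * (1 + Θ) + 2 * ((T : ℝ) + 1) * Θ / (L + 1) := by ring
    push_cast
    linarith

end Ker

end HP192
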