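import Mathlib
import Pool.Agent.Helper192_HP.Defs
import Pool.Agent.Helper192_HP.WDefs
import Pool.Agent.Helper192_HP.Basic
import Pool.Agent.Helper192_HP.W01
import Pool.Agent.Helper192_HP.W02
import Pool.Agent.Helper192_HP.PhpDef
import Pool.Agent.Helper192_HP.W06

namespace HP192
open Finset

/-! helper lemmas -/

section LEx
variable {V : Type} [DecidableEq V]

theorem u2_LE_cons_eq (v : V) (w : List V) : LE (v :: w) = stp v (LE w) := rfl

theorem u2_chain (R : V → V → Prop) : ∀ L : List V, List.IsChain R L → List.IsChain R (LE L) := by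
  intro L
  induction L with
  | nil => intro h; exact h
  | cons z L ih =>
    intro h
    rw [u2_LE_cons_eq]
    have h1 := ih (List.IsChain.tail h)
    unfold stp
    split_ifs with hz
    · exact h1.suffix (List.dropWhile_suffix _)
    · refine h1.cons ?_
      cases L with
      | nil => intro y hy; simp [LE] at hy
      | cons u L' =>
        obtain ⟨s, hs⟩ := LE_cons u L'
        intro y hy
        rw [hs] at hy
        simp at hy
        subst hy
        rw [List.isChain_cons_cons] at h
        exact h.1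

theorem u2_drop : ∀ (L : List V) (j : ℕ) (y : V), y ∈ (LE L).drop j → y ∈ L.drop j := by
  intro L
  induction L with
  | nil => intro j y h; simp [LE] at h
  | cons z L ih =>
    intro j y h
    cases j with
    | zero =>
      rw [List.drop_zero] at h ⊢
      exact LE_sub _ _ h
    | succ j =>
      rw [u2_LE_cons_eq] at h
      simp only [List.drop_succ_cons]
      apply ih
      unfold stp at h
      split_ifs at h with hz
      · have hsuf : (LE L).dropWhile (fun x => decide (x ≠ z)) <:+ LE L := List.dropWhile_suffix _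
        obtain ⟨p, hp⟩ := hsuf
        generalize (LE L).dropWhile (fun x => decide (x ≠ z)) = q at h hp
        rw [← hp]
        have h2 : q.drop (j+1) <:+ q := List.drop_suffix _ _
        rw [List.drop_append]
        by_cases hj : j ≤ p.length
        · have : j - p.length = 0 := by omega
          rw [this]
          simp only [List.drop_zero, List.mem_append]
          exact Or.inr (h2.mem h)
        · have h3 : q.drop (j+1) <:+ q.drop (j - p.length) := by
            have : j + 1 = (j - p.length) + (j + 1 - (j - p.length)) := by omega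
            rw [this, ← List.drop_drop]
            exact List.drop_suffix _ _
          simp only [List.mem_append]
          exact Or.inr (h3.mem h)
      · simpa using h

/-- a one-vertex loop erasure: newest and oldest vertices agree -/
theorem u2_len_one (w : List V) (y : V) (h : len (w ++ [y]) = 1) : tip y w = y := by
  cases w with
  | nil => simp
  | cons z w =>
    obtain ⟨s, hs⟩ := LE_cons z (w ++ [y])
    obtain ⟨s', hs'⟩ := LE_concat (z :: w) y
    have h1 : len (z :: w ++ [y]) = 1 := h
    unfold len at h1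
    rw [hs'] at h1
    simp at h1
    subst h1
    simp only [List.cons_append] at hs'
    rw [hs] at hs'
    simp at hs'
    simp [hs'.1]

end LEx

namespace Ker
variable {V : Type} [Fintype V] [DecidableEq V] (K : Ker V)

theorem u2_EW_mono (t : ℕ) : ∀ (x : V) (F F' : List V → ℝ)
    (_ : ∀ w : List V, w.length = t → List.IsChain (fun a b => K.P a b ≠ 0) (w ++ [x]) →
      F w ≤ F' w),
    K.EW t x F ≤ K.EW t x F' := by
  induction t with
  | zero =>
    intro x F F' h
    rw [EW_zero, EW_zero]
    exact h [] rfl (by simp)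
  | succ t ih =>
    intro x F F' h
    rw [EW_succ, EW_succ]
    apply Finset.sum_le_sum
    intro y _
    by_cases hy : K.P x y = 0
    · simp [hy]
    · simp only [smul_eq_mul]
      apply mul_le_mul_of_nonneg_left _ (K.nn x y)
      apply ih
      intro w hw hc
      apply h
      · simp [hw]
      · rw [List.append_assoc, List.singleton_append, List.isChain_append_cons_cons]
        refine ⟨hc, ?_, by simp⟩
        rw [K.sym]; exact hy

theorem u2_eps (L : List V) (Lc : ℕ) (o v u : V) (rest : List V)
    (hc : List.IsChain (fun a b => K.P a b ≠ 0) L) (hL : LE L = v :: u :: rest)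
    (hN : NoCyc K Lc (fun _ => True)) :
    ∑ y, (if y ∈ rest then K.P v y else 0) ≤ ∑ i ∈ Ico Lc L.length, K.P v (L.getD i o) := by
  have key : ∀ y ∈ rest, K.P v y ≠ 0 → ∃ i ∈ Ico Lc L.length, L.getD i o = y := by
    intro y hy hP
    obtain ⟨α, β, hαβ⟩ := List.append_of_mem hy
    have hLE : LE L = (v :: u :: α ++ [y]) ++ β := by rw [hL, hαβ]; simp
    have hch := u2_chain _ L hc
    rw [hLE] at hch
    have hnd := LE_nodup L
    rw [hLE] at hnd
    have h1 : ¬ (α.length + 3 ≤ Lc) := by
      intro hle
      have := hN (v :: u :: α ++ [y]) (by simp) hnd.of_append_left (by simp) (by simp; omega)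
        trivial hch.left_of_append
      rw [List.getLast_append_singleton] at this
      simp at this
      rw [K.sym] at this
      exact hP this
    have h2 : y ∈ (LE L).drop (α.length + 2) := by
      rw [hL, hαβ]; simp
    have h3 := u2_drop L _ y h2
    rw [List.mem_iff_getElem] at h3
    obtain ⟨k, hk, hk2⟩ := h3
    rw [List.length_drop] at hk
    rw [List.getElem_drop] at hk2
    refine ⟨α.length + 2 + k, ?_, ?_⟩
    · rw [Finset.mem_Ico]; omega
    · rw [List.getD_eq_getElem _ _ (by omega)]; exact hk2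
  calc ∑ y, (if y ∈ rest then K.P v y else 0)
      ≤ ∑ y, ∑ i ∈ Ico Lc L.length, (if L.getD i o = y then K.P v y else 0) := by
        apply Finset.sum_le_sum
        intro y _
        have hnn : ∀ i ∈ Ico Lc L.length, 0 ≤ (if L.getD i o = y then K.P v y else 0) := by
          intro i _
          split_ifs
          · exact K.nn _ _
          · exact le_refl _
        split_ifs with hy
        · by_cases hP : K.P v y = 0
          · rw [hP]; simp
          · obtain ⟨i, hi, hi2⟩ := key y hy hP
            calc K.P v y = (if L.getD i o = y then K.P v y else 0) := by rw [if_pos hi2]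
              _ ≤ _ := Finset.single_le_sum hnn hi
        · exact Finset.sum_nonneg hnn
    _ = ∑ i ∈ Ico Lc L.length, K.P v (L.getD i o) := by
        rw [Finset.sum_comm]
        apply Finset.sum_congr rfl
        intro i _
        simp

theorem u2_E1 (o : V) (s i : ℕ) (hi : i < s) :
    K.EW s o (fun w => K.P (tip o w) (w.getD i o)) = K.hk (i + 1) o o := by
  obtain ⟨a, rfl⟩ : ∃ a, s = (a + 1) + i := ⟨s - i - 1, by omega⟩
  rw [EW_append]
  rw [K.EW_congr (a + 1) o _ (fun _ => K.hk (i + 1) o o), EW_const]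
  intro w hw
  have hw0 : ∃ z w0, w = z :: w0 := by
    cases w with
    | nil => simp at hw
    | cons z w0 => exact ⟨z, w0, rfl⟩
  obtain ⟨z, w0, rfl⟩ := hw0
  rw [K.EW_congr i _ _ (fun w' => K.P (tip (tip o (z :: w0)) w') (tip o (z :: w0)))]
  · rw [K.EW_tip i _ (fun y => K.P y (tip o (z :: w0)))]
    rw [K.hk_diag (i + 1) o (tip o (z :: w0))]
    generalize tip o (z :: w0) = x
    show _ = ∑ y, K.P x y * K.hk i y x
    apply Finset.sum_congr rfl
    intro y _
    rw [smul_eq_mul, mul_comm, K.sym y x, K.hk_symm i x y]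
  · intro w' hw'
    rw [tip_append]
    congr 1
    rw [tip_cons, List.getD_append_right _ _ _ _ (by omega), hw']
    simp

theorem u2_E2 (o : V) (s : ℕ) :
    K.EW (s + 1) o (fun w => if len w = 1 then (1 : ℝ) else 0) ≤ K.hk s o o := by
  rw [add_comm s 1, EW_append]
  calc _ ≤ K.EW 1 o (fun _ => K.hk s o o) := by
        apply EW_mono
        intro w hw
        obtain ⟨y, rfl⟩ := List.length_eq_one_iff.mp hw
        rw [tip_cons, K.hk_diag s o y, ← hk_eq_EW]
        apply EW_mono
        intro w' _
        by_cases h : len (w' ++ [y]) = 1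
        · rw [if_pos h, if_pos (u2_len_one _ _ h)]
        · rw [if_neg h]; split_ifs <;> norm_num
    _ = _ := by rw [EW_const]

end Ker
namespace Ker
variable {V : Type} [Fintype V] [DecidableEq V] (K : Ker V)

theorem u2_sum1 (v : V) (a b : ℝ) :
    ∑ y, K.P v y * (if y = v then a else b) = (1 / 2) * a + (1 / 2) * b := by
  have h : ∀ y, K.P v y * (if y = v then a else b)
      = (if y = v then K.P v y * (a - b) else 0) + K.P v y * b := by
    intro y
    split_ifs <;> ring
  simp_rw [h]
  rw [Finset.sum_add_distrib, ← Finset.sum_mul, K.row]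
  simp [K.hold]
  ring

theorem u2_sum2 (v u : V) (huv : v ≠ u) (a b c : ℝ) :
    ∑ y, K.P v y * (if y = v then a else if y = u then b else c)
      = (1 / 2) * a + K.P v u * b + (1 / 2 - K.P v u) * c := by
  have h : ∀ y, K.P v y * (if y = v then a else if y = u then b else c)
      = (if y = v then K.P v y * (a - c) else 0) + (if y = u then K.P v y * (b - c) else 0)
        + K.P v y * c := by
    intro y
    by_cases h1 : y = v
    · have h2 : ¬ y = u := by rw [h1]; exact huv
      simp [h1, huv]; ring
    · simp [h1]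
      split_ifs <;> ring
  simp_rw [h]
  rw [Finset.sum_add_distrib, Finset.sum_add_distrib, ← Finset.sum_mul, K.row]
  simp [K.hold]
  ring

theorem u2_pt (L : List V) (Lc d N : ℕ) (o : V) (hd : 3 ≤ d)
    (hP : ∀ x y, x ≠ y → K.P x y = 0 ∨ K.P x y = 1 / (2 * (d : ℝ)))
    (hN : NoCyc K Lc (fun _ => True)) (hL0 : L ≠ [])
    (hc : List.IsChain (fun a b => K.P a b ≠ 0) L) :
    ∑ m ∈ range N, |∑ y, K.P (tip o L) y * (if len (y :: L) = m + 1 then (1 : ℝ) else 0)
      - ((1 / 2) * (if len L = m + 1 then (1 : ℝ) else 0)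
        + (1 / (2 * (d : ℝ))) * (if len L = m + 2 then (1 : ℝ) else 0)
        + (((d : ℝ) - 1) / (2 * (d : ℝ))) * (if len L = m then (1 : ℝ) else 0))|
      ≤ (1 / (2 * (d : ℝ))) * (if len L = 1 then (1 : ℝ) else 0)
        + 2 * ∑ i ∈ Ico Lc L.length, K.P (tip o L) (L.getD i o) := by
  have hdpos : (0 : ℝ) < d := by
    have : 0 < d := by omega
    exact_mod_cast this
  obtain ⟨v, L', rfl⟩ := List.exists_cons_of_ne_nil hL0
  rw [tip_cons]
  obtain ⟨s, hs⟩ := LE_cons v L'
  have hnn : 0 ≤ ∑ i ∈ Ico Lc (v :: L').length, K.P v ((v :: L').getD i o) :=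
    Finset.sum_nonneg (fun i _ => K.nn _ _)
  cases s with
  | nil =>
    have hlen : len (v :: L') = 1 := by unfold len; rw [hs]; rfl
    have hly : ∀ y, len (y :: v :: L') = if y = v then 1 else 2 := by
      intro y
      unfold len
      rw [u2_LE_cons_eq, hs]
      unfold stp
      by_cases hy : y = v
      · simp [hy]
      · simp [hy]
    have hterm : ∀ m ∈ range N,
        |∑ y, K.P v y * (if len (y :: v :: L') = m + 1 then (1 : ℝ) else 0)
        - ((1 / 2) * (if len (v :: L') = m + 1 then (1 : ℝ) else 0)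
          + (1 / (2 * (d : ℝ))) * (if len (v :: L') = m + 2 then (1 : ℝ) else 0)
          + (((d : ℝ) - 1) / (2 * (d : ℝ))) * (if len (v :: L') = m then (1 : ℝ) else 0))|
        ≤ if m = 1 then 1 / (2 * (d : ℝ)) else 0 := by
      intro m _
      have h1 : ∀ y, K.P v y * (if len (y :: v :: L') = m + 1 then (1 : ℝ) else 0)
          = K.P v y * (if y = v then (if 1 = m + 1 then (1 : ℝ) else 0)
              else (if 2 = m + 1 then (1 : ℝ) else 0)) := by
        intro y
        rw [hly]
        by_cases hy : y = v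
        · simp [hy]
        · simp [hy]
      simp_rw [h1]
      rw [u2_sum1, hlen]
      rcases m with _ | _ | m
      · norm_num
      · norm_num
        rw [abs_le]
        have h2 : ((d : ℝ) - 1) / (2 * (d : ℝ)) = 1 / 2 - (d : ℝ)⁻¹ * (1 / 2) := by
          field_simp
        rw [h2]
        have h3 : 0 < (d : ℝ)⁻¹ := by positivity
        constructor <;> linarith
      · norm_num
    calc _ ≤ ∑ m ∈ range N, (if m = 1 then 1 / (2 * (d : ℝ)) else 0) := Finset.sum_le_sum hterm
      _ ≤ 1 / (2 * (d : ℝ)) := by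
        rw [Finset.sum_ite_eq']
        split_ifs
        · exact le_refl _
        · positivity
      _ ≤ _ := by
        rw [hlen]; simp only [if_true, mul_one]; linarith
  | cons u rest =>
    have hnd := LE_nodup (v :: L')
    rw [hs] at hnd
    have hvu : v ≠ u := by
      intro h; subst h; simp at hnd
    have hch := u2_chain _ _ hc
    rw [hs, List.isChain_cons_cons] at hch
    have hPvu : K.P v u = 1 / (2 * (d : ℝ)) := (hP v u hvu).resolve_left hch.1
    have hlen : len (v :: L') = rest.length + 2 := by unfold len; rw [hs]; rfl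
    have hly1 : len (v :: v :: L') = rest.length + 2 := by
      unfold len
      rw [u2_LE_cons_eq, hs]
      unfold stp
      simp
    have hly2 : len (u :: v :: L') = rest.length + 1 := by
      unfold len
      rw [u2_LE_cons_eq, hs]
      unfold stp
      simp [hvu]
    have hly3 : ∀ y, y ≠ v → y ≠ u → y ∉ rest → len (y :: v :: L') = rest.length + 3 := by
      intro y h1 h2 h3
      unfold len
      rw [u2_LE_cons_eq, hs]
      unfold stp
      simp [h1, h2, h3]
    have heps := K.u2_eps (v :: L') Lc o v u rest hc hs hN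
    have hterm : ∀ m ∈ range N,
        |∑ y, K.P v y * (if len (y :: v :: L') = m + 1 then (1 : ℝ) else 0)
        - ((1 / 2) * (if len (v :: L') = m + 1 then (1 : ℝ) else 0)
          + (1 / (2 * (d : ℝ))) * (if len (v :: L') = m + 2 then (1 : ℝ) else 0)
          + (((d : ℝ) - 1) / (2 * (d : ℝ))) * (if len (v :: L') = m then (1 : ℝ) else 0))|
        ≤ ∑ y, (if y ∈ rest then K.P v y else 0) *
            ((if len (y :: v :: L') = m + 1 then (1 : ℝ) else 0)
              + (if len (v :: L') = m then (1 : ℝ) else 0)) := by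
      intro m _
      have h1 : (1 / 2) * (if len (v :: L') = m + 1 then (1 : ℝ) else 0)
          + (1 / (2 * (d : ℝ))) * (if len (v :: L') = m + 2 then (1 : ℝ) else 0)
          + (((d : ℝ) - 1) / (2 * (d : ℝ))) * (if len (v :: L') = m then (1 : ℝ) else 0)
          = ∑ y, K.P v y * (if y = v then (if len (v :: L') = m + 1 then (1 : ℝ) else 0) else
              if y = u then (if len (v :: L') = m + 2 then (1 : ℝ) else 0) else
              (if len (v :: L') = m then (1 : ℝ) else 0)) := by
        rw [u2_sum2 K v u hvu, hPvu]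
        congr 2
        field_simp
      rw [h1, ← Finset.sum_sub_distrib]
      refine (Finset.abs_sum_le_sum_abs _ _).trans (Finset.sum_le_sum ?_)
      intro y _
      rw [← mul_sub, abs_mul, abs_of_nonneg (K.nn v y)]
      by_cases hy1 : y = v
      · subst hy1
        have : ¬ y ∈ rest := by
          intro h; simp [h] at hnd
        rw [if_pos rfl, if_neg this, hly1, hlen]
        simp
      · by_cases hy2 : y = u
        · subst hy2
          have : ¬ y ∈ rest := by
            intro h; simp [h] at hnd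
          rw [if_neg hy1, if_pos rfl, if_neg this, hly2, hlen]
          simp
        · rw [if_neg hy1, if_neg hy2]
          by_cases hy3 : y ∈ rest
          · rw [if_pos hy3]
            apply mul_le_mul_of_nonneg_left _ (K.nn v y)
            split_ifs <;> norm_num
          · rw [if_neg hy3, hly3 y hy1 hy2 hy3, hlen]
            simp
    have hnn1 : ∀ y, 0 ≤ (if y ∈ rest then K.P v y else 0) := by
      intro y; split_ifs
      · exact K.nn _ _
      · exact le_refl _
    have hind : ∀ k : ℕ, ∑ m ∈ range N, (if k = m + 1 then (1 : ℝ) else 0) ≤ 1 := by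
      intro k
      rcases k with _ | k
      · simp
      · simp only [add_left_inj]
        rw [Finset.sum_ite_eq]
        split_ifs <;> norm_num
    have hind0 : ∀ k : ℕ, ∑ m ∈ range N, (if k = m then (1 : ℝ) else 0) ≤ 1 := by
      intro k
      rw [Finset.sum_ite_eq]
      split_ifs <;> norm_num
    have hlen1 : ¬ len (v :: L') = 1 := by rw [hlen]; omega
    rw [if_neg hlen1, mul_zero, zero_add]
    calc _ ≤ ∑ m ∈ range N, ∑ y, (if y ∈ rest then K.P v y else 0) *
            ((if len (y :: v :: L') = m + 1 then (1 : ℝ) else 0)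
              + (if len (v :: L') = m then (1 : ℝ) else 0)) := Finset.sum_le_sum hterm
      _ = ∑ y, (if y ∈ rest then K.P v y else 0) *
            (∑ m ∈ range N, (if len (y :: v :: L') = m + 1 then (1 : ℝ) else 0)
              + ∑ m ∈ range N, (if len (v :: L') = m then (1 : ℝ) else 0)) := by
        rw [Finset.sum_comm]
        apply Finset.sum_congr rfl
        intro y _
        rw [← Finset.sum_add_distrib, Finset.mul_sum]
      _ ≤ ∑ y, (if y ∈ rest then K.P v y else 0) * 2 := by
        apply Finset.sum_le_sum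
        intro y _
        apply mul_le_mul_of_nonneg_left _ (hnn1 y)
        have := hind (len (y :: v :: L'))
        have := hind0 (len (v :: L'))
        linarith
      _ ≤ _ := by
        rw [← Finset.sum_mul]
        linarith

end Ker
theorem u2_rec (N : ℕ) (d : ℝ) (hd : 3 ≤ d) (f E : ℕ → ℝ)
    (hrec : ∀ m, f (m + 2) - f (m + 1) = (d - 1) * (f (m + 1) - f m) - d * E m)
    (hN : f (N + 1) = f N) :
    ∑ m ∈ range N, |f (m + 1) - f m| ≤ 3 * ∑ m ∈ range N, |E m| := by
  have h1 : ∀ m ∈ range N, (d - 1) * |f (m + 1) - f m| ≤ |f (m + 2) - f (m + 1)| + d * |E m| := by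
    intro m _
    have h2 : (d - 1) * (f (m + 1) - f m) = (f (m + 2) - f (m + 1)) + d * E m := by
      rw [hrec]; ring
    calc (d - 1) * |f (m + 1) - f m| = |(d - 1) * (f (m + 1) - f m)| := by
          rw [abs_mul, abs_of_nonneg (by linarith : (0 : ℝ) ≤ d - 1)]
      _ = |(f (m + 2) - f (m + 1)) + d * E m| := by rw [h2]
      _ ≤ |f (m + 2) - f (m + 1)| + |d * E m| := abs_add_le _ _
      _ = _ := by rw [abs_mul, abs_of_nonneg (by linarith : (0 : ℝ) ≤ d)]
  have h2 := Finset.sum_le_sum h1
  rw [← Finset.mul_sum, Finset.sum_add_distrib, ← Finset.mul_sum] at h2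
  have h3 := Finset.sum_range_succ (fun m => |f (m + 1) - f m|) N
  have h4 := Finset.sum_range_succ' (fun m => |f (m + 1) - f m|) N
  rw [h3] at h4
  simp only [hN, sub_self, abs_zero, add_zero] at h4
  have h5 : 0 ≤ |f (0 + 1) - f 0| := abs_nonneg _
  have h6 : ∑ k ∈ range N, |f (k + 1 + 1) - f (k + 1)| = ∑ x ∈ range N, |f (x + 2) - f (x + 1)| := rfl
  rw [h6] at h4
  have h7 : 0 ≤ ∑ m ∈ range N, |E m| := Finset.sum_nonneg (fun _ _ => abs_nonneg _)
  have h8 : 0 ≤ ∑ m ∈ range N, |f (m + 1) - f m| := Finset.sum_nonneg (fun _ _ => abs_nonneg _)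
  set S := ∑ m ∈ range N, |f (m + 1) - f m|
  set X := ∑ m ∈ range N, |E m|
  have h9 : (d - 2) * S ≤ d * X := by linarith
  have h10 : d * X ≤ (d - 2) * (3 * X) := by nlinarith
  have h11 : (d - 2) * S ≤ (d - 2) * (3 * X) := h9.trans h10
  exact le_of_mul_le_mul_left h11 (by linarith)

namespace Ker
variable {V : Type} [Fintype V] [DecidableEq V] (K : Ker V)

/-- the error functional -/
noncomputable def u2B (o : V) (Lc d : ℕ) (L : List V) : ℝ :=
  (1 / (2 * (d : ℝ))) * (if len L = 1 then (1 : ℝ) else 0)
        + 2 * ∑ i ∈ Ico Lc L.length, K.P (tip o L) (L.getD i o)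

theorem u2_main (ω : List V) (T Lc d Mx : ℕ) (o : V) (hd : 3 ≤ d)
    (hP : ∀ x y, x ≠ y → K.P x y = 0 ∨ K.P x y = 1 / (2 * (d : ℝ)))
    (hN : NoCyc K Lc (fun _ => True)) (hω : ω ≠ [])
    (hc : List.IsChain (fun a b => K.P a b ≠ 0) ω) :
    ∑ M ∈ range Mx, |K.fM o T (M + 1) ω - K.fM o T M ω|
      ≤ 12 + 6 * ∑ t ∈ range T, K.EW t (tip o ω) (fun w => K.u2B o Lc d (w ++ ω)) := by
  have hdpos : (0 : ℝ) < d := by
    have : 0 < d := by omega
    exact_mod_cast this
  have hd3 : (3 : ℝ) ≤ d := by exact_mod_cast hd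
  set x := tip o ω with hx
  set u : ℕ → ℕ → ℝ := fun t m => K.EW t x (fun w => if len (w ++ ω) = m then (1 : ℝ) else 0)
    with hu
  have hf : ∀ m, K.fM o T m ω = ∑ t ∈ range T, u t m := fun m => rfl
  set e : ℕ → ℕ → ℝ := fun t m => u (t + 1) (m + 1) - ((1 / 2) * u t (m + 1)
    + (1 / (2 * (d : ℝ))) * u t (m + 2) + (((d : ℝ) - 1) / (2 * (d : ℝ))) * u t m) with hedef
  set G : ℕ → List V → ℝ := fun m L =>
    ∑ y, K.P (tip o L) y * (if len (y :: L) = m + 1 then (1 : ℝ) else 0)
      - ((1 / 2) * (if len L = m + 1 then (1 : ℝ) else 0)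
        + (1 / (2 * (d : ℝ))) * (if len L = m + 2 then (1 : ℝ) else 0)
        + (((d : ℝ) - 1) / (2 * (d : ℝ))) * (if len L = m then (1 : ℝ) else 0)) with hG
  have he : ∀ t m, e t m = K.EW t x (fun w => G m (w ++ ω)) := by
    intro t m
    simp only [hedef, hG, hu]
    rw [EW_sub, EW_add, EW_add, EW_mul_left, EW_mul_left, EW_mul_left, EW_succ']
    congr 1
    apply EW_congr
    intro w _
    apply Finset.sum_congr rfl
    intro y _
    rw [tip_append, smul_eq_mul, List.cons_append]
  set N := Mx + T + ω.length with hNdef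
  have hesum : ∀ t, ∑ m ∈ range N, |e t m| ≤ K.EW t x (fun w => K.u2B o Lc d (w ++ ω)) := by
    intro t
    calc ∑ m ∈ range N, |e t m| ≤ ∑ m ∈ range N, K.EW t x (fun w => |G m (w ++ ω)|) := by
          apply Finset.sum_le_sum
          intro m _
          rw [he]
          exact K.abs_EW_le t x _
      _ = K.EW t x (fun w => ∑ m ∈ range N, |G m (w ++ ω)|) := by
          rw [EW_sum]
      _ ≤ _ := by
          apply u2_EW_mono
          intro w hw hcw
          apply K.u2_pt (w ++ ω) Lc d N o hd hP hN (by simp [hω])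
          obtain ⟨z, ω', rfl⟩ := List.exists_cons_of_ne_nil hω
          rw [hx, tip_cons] at hcw
          have := List.IsChain.append_overlap hcw (l₃ := ω') hc (by simp)
          simpa using this
  set E : ℕ → ℝ := fun m => 2 * (∑ t ∈ range T, e t m + u 0 (m + 1) - u T (m + 1)) with hE
  have hrec : ∀ m, K.fM o T (m + 2) ω - K.fM o T (m + 1) ω
      = ((d : ℝ) - 1) * (K.fM o T (m + 1) ω - K.fM o T m ω) - (d : ℝ) * E m := by
    intro m
    have h1 : ∑ t ∈ range T, e t m = ∑ t ∈ range T, u (t + 1) (m + 1)
        - ((1 / 2) * K.fM o T (m + 1) ω + (1 / (2 * (d : ℝ))) * K.fM o T (m + 2) ω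
          + (((d : ℝ) - 1) / (2 * (d : ℝ))) * K.fM o T m ω) := by
      simp only [hf, hedef]
      rw [Finset.sum_sub_distrib, Finset.sum_add_distrib, Finset.sum_add_distrib,
        ← Finset.mul_sum, ← Finset.mul_sum, ← Finset.mul_sum]
    have h2 : ∑ t ∈ range T, u (t + 1) (m + 1) = K.fM o T (m + 1) ω - u 0 (m + 1) + u T (m + 1) := by
      have h3 := Finset.sum_range_succ (fun t => u t (m + 1)) T
      have h4 := Finset.sum_range_succ' (fun t => u t (m + 1)) T
      rw [hf]
      linarith
    simp only [hE]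
    rw [h1, h2]
    field_simp
    ring
  have hzero : ∀ M, T + ω.length ≤ M → K.fM o T M ω = 0 := by
    intro M hM
    rw [hf]
    apply Finset.sum_eq_zero
    intro t ht
    rw [Finset.mem_range] at ht
    simp only [hu]
    rw [K.EW_congr t x _ (fun _ => (0 : ℝ)), EW_const]
    intro w hw
    have := len_le_length (w ++ ω)
    rw [List.length_append, hw] at this
    rw [if_neg (by omega)]
  have hrange : K.fM o T (N + 1) ω = K.fM o T N ω := by
    rw [hzero _ (by omega), hzero _ (by omega)]
  have hmain := u2_rec N (d : ℝ) hd3 (fun m => K.fM o T m ω) E hrec hrange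
  have hunn : ∀ t m, 0 ≤ u t m := by
    intro t m
    apply EW_nonneg
    intro w _
    split_ifs <;> norm_num
  have husum : ∀ t, ∑ m ∈ range N, u t (m + 1) ≤ 1 := by
    intro t
    simp only [hu]
    rw [← EW_sum]
    apply EW_le_const
    intro w _
    rcases h : len (w ++ ω) with _ | k
    · simp
    · simp only [add_left_inj]
      rw [Finset.sum_ite_eq]
      split_ifs <;> norm_num
  have hEsum : ∑ m ∈ range N, |E m|
      ≤ 2 * (∑ t ∈ range T, K.EW t x (fun w => K.u2B o Lc d (w ++ ω))) + 4 := by
    have h1 : ∀ m ∈ range N, |E m| ≤ 2 * (∑ t ∈ range T, |e t m|) + 2 * u 0 (m + 1)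
        + 2 * u T (m + 1) := by
      intro m _
      simp only [hE]
      have h2 := Finset.abs_sum_le_sum_abs (fun t => e t m) (range T)
      have h3 := hunn 0 (m + 1)
      have h4 := hunn T (m + 1)
      rw [abs_mul, abs_two]
      have h5 := abs_le.mp h2
      have h6 : |∑ t ∈ range T, e t m + u 0 (m + 1) - u T (m + 1)|
          ≤ ∑ t ∈ range T, |e t m| + u 0 (m + 1) + u T (m + 1) := by
        rw [abs_le]
        constructor <;> linarith [h5.1, h5.2]
      linarith
    have h2 := Finset.sum_le_sum h1
    rw [Finset.sum_add_distrib, Finset.sum_add_distrib, ← Finset.mul_sum, ← Finset.mul_sum,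
      ← Finset.mul_sum, Finset.sum_comm] at h2
    have h3 := Finset.sum_le_sum (fun t (_ : t ∈ range T) => hesum t)
    have h4 := husum 0
    have h5 := husum T
    linarith
  have hsub : ∑ M ∈ range Mx, |K.fM o T (M + 1) ω - K.fM o T M ω|
      ≤ ∑ M ∈ range N, |K.fM o T (M + 1) ω - K.fM o T M ω| := by
    apply Finset.sum_le_sum_of_subset_of_nonneg
    · intro a ha
      rw [Finset.mem_range] at ha ⊢
      omega
    · intro _ _ _; exact abs_nonneg _
  linarith

theorem u2_EB (o : V) (Lc d T r t : ℕ) (ht : t < T) (Θ : ℝ) (hΘ : K.Th o (T + (r + 1)) ≤ Θ) :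
    K.EW (r + 1 + t) o (fun w => K.u2B o Lc d w)
      ≤ (1 / (2 * (d : ℝ))) * K.hk (r + t) o o + 2 * (Θ / (Lc + 1)) := by
  have h1 : K.EW (r + 1 + t) o (fun w => K.u2B o Lc d w)
      = (1 / (2 * (d : ℝ))) * K.EW (r + t + 1) o (fun w => if len w = 1 then (1 : ℝ) else 0)
        + 2 * ∑ i ∈ Ico Lc (r + 1 + t), K.hk (i + 1) o o := by
    unfold u2B
    rw [EW_add, EW_mul_left, EW_mul_left]
    congr 2
    · rw [show r + 1 + t = r + t + 1 by omega]
    · rw [K.EW_congr (r + 1 + t) o _ (fun L => ∑ i ∈ Ico Lc (r + 1 + t), K.P (tip o L) (L.getD i o)),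
        EW_sum]
      · apply Finset.sum_congr rfl
        intro i hi
        rw [Finset.mem_Ico] at hi
        exact K.u2_E1 o _ i hi.2
      · intro w hw
        rw [hw]
  rw [h1]
  have h2 := K.u2_E2 o (r + t)
  have h3 : (0 : ℝ) ≤ 1 / (2 * (d : ℝ)) := by positivity
  have h4 := mul_le_mul_of_nonneg_left h2 h3
  have h5 : ∑ i ∈ Ico Lc (r + 1 + t), K.hk (i + 1) o o ≤ Θ / (Lc + 1) := by
    rw [le_div_iff₀ (by positivity), Finset.sum_mul]
    calc ∑ i ∈ Ico Lc (r + 1 + t), K.hk (i + 1) o o * ((Lc : ℝ) + 1)
        ≤ ∑ i ∈ Ico Lc (r + 1 + t), (((i + 1 : ℕ) : ℝ) + 1) * K.hk (i + 1) o o := by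
          apply Finset.sum_le_sum
          intro i hi
          rw [Finset.mem_Ico] at hi
          rw [mul_comm]
          apply mul_le_mul_of_nonneg_right _ (K.hk_nonneg _ _ _)
          have : (Lc : ℝ) ≤ i := by exact_mod_cast hi.1
          push_cast
          linarith
      _ ≤ ∑ i ∈ range (T + (r + 1)), (((i + 1 : ℕ) : ℝ) + 1) * K.hk (i + 1) o o := by
          apply Finset.sum_le_sum_of_subset_of_nonneg
          · intro a ha
            rw [Finset.mem_Ico] at ha
            rw [Finset.mem_range]
            omega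
          · intro i _ _
            have := K.hk_nonneg (i + 1) o o
            positivity
      _ ≤ K.Th o (T + (r + 1)) := by
          unfold Th
          rw [Finset.sum_range_succ' _ (T + (r + 1))]
          have := K.hk_nonneg 0 o o
          have h0 : (0 : ℝ) ≤ (((0 : ℕ) : ℝ) + 1) * K.hk 0 o o := by positivity
          linarith
      _ ≤ Θ := hΘ
  linarith

end Ker
-- TARGET
namespace Ker
variable {V : Type} [Fintype V] [DecidableEq V] (K : Ker V)

/-- the expected occupation of consecutive levels differs little if there are no short cycles -/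
theorem unit_shift2 (o : V) (T r0 Mx L d : ℕ) (Θ : ℝ) (hr0 : 1 ≤ r0) (hΘ : K.Th o (T + r0) ≤ Θ)
    (hd : 3 ≤ d) (hP : ∀ x y, x ≠ y → K.P x y = 0 ∨ K.P x y = 1 / (2 * (d : ℝ)))
    (hL : NoCyc K L (fun _ => True)) :
    K.EW r0 o (fun ω => ∑ M ∈ range Mx, |K.fM o T (M + 1) ω - K.fM o T M ω|)
      ≤ 12 + 12 * Θ + 12 * T * Θ / (L + 1) := by
  obtain ⟨r, rfl⟩ : ∃ r, r0 = r + 1 := ⟨r0 - 1, by omega⟩
  have hdpos : (0 : ℝ) < d := by
    have : 0 < d := by omega
    exact_mod_cast this
  have hd3 : (3 : ℝ) ≤ d := by exact_mod_cast hd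
  have hΘ1 : 1 ≤ Θ := (K.one_le_Th o _).trans hΘ
  have h1 : K.EW (r + 1) o (fun ω => ∑ M ∈ range Mx, |K.fM o T (M + 1) ω - K.fM o T M ω|)
      ≤ K.EW (r + 1) o (fun ω => 12 + 6 * ∑ t ∈ range T,
          K.EW t (tip o ω) (fun w => K.u2B o L d (w ++ ω))) := by
    apply u2_EW_mono
    intro ω hω hcω
    apply K.u2_main ω T L d Mx o hd hP hL
    · intro h; rw [h] at hω; simp at hω
    · exact hcω.left_of_append
  have h2 : K.EW (r + 1) o (fun ω => 12 + 6 * ∑ t ∈ range T,
          K.EW t (tip o ω) (fun w => K.u2B o L d (w ++ ω)))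
      = 12 + 6 * ∑ t ∈ range T, K.EW (r + 1 + t) o (fun w => K.u2B o L d w) := by
    rw [EW_add, EW_const, EW_mul_left, EW_sum]
    congr 2
    apply Finset.sum_congr rfl
    intro t _
    exact (K.EW_append (r + 1) t o _).symm
  have h3 : ∑ t ∈ range T, K.EW (r + 1 + t) o (fun w => K.u2B o L d w)
      ≤ ∑ t ∈ range T, ((1 / (2 * (d : ℝ))) * K.hk (r + t) o o + 2 * (Θ / (L + 1))) := by
    apply Finset.sum_le_sum
    intro t ht
    exact K.u2_EB o L d T r t (Finset.mem_range.mp ht) Θ hΘ
  rw [Finset.sum_add_distrib, ← Finset.mul_sum, Finset.sum_const, Finset.card_range,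
    nsmul_eq_mul] at h3
  have h4 : ∑ t ∈ range T, K.hk (r + t) o o ≤ Θ := by
    calc ∑ t ∈ range T, K.hk (r + t) o o
        ≤ ∑ t ∈ range T, (((r + t : ℕ) : ℝ) + 1) * K.hk (r + t) o o := by
          apply Finset.sum_le_sum
          intro t _
          have h5 := K.hk_nonneg (r + t) o o
          have h6 : (0 : ℝ) ≤ ((r + t : ℕ) : ℝ) := Nat.cast_nonneg _
          nlinarith
      _ ≤ ∑ c ∈ range (r + T), ((c : ℝ) + 1) * K.hk c o o := by
          rw [Finset.sum_range_add]
          have : 0 ≤ ∑ x ∈ range r, ((x : ℝ) + 1) * K.hk x o o := by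
            apply Finset.sum_nonneg
            intro i _
            have := K.hk_nonneg i o o
            positivity
          linarith
      _ ≤ K.Th o (T + (r + 1)) := by
          unfold Th
          apply Finset.sum_le_sum_of_subset_of_nonneg
          · intro a ha
            rw [Finset.mem_range] at ha ⊢
            omega
          · intro i _ _
            have := K.hk_nonneg i o o
            positivity
      _ ≤ Θ := hΘ
  have h5 : (1 / (2 * (d : ℝ))) * ∑ t ∈ range T, K.hk (r + t) o o ≤ (1 / 6) * Θ := by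
    have h6 : (0 : ℝ) ≤ ∑ t ∈ range T, K.hk (r + t) o o :=
      Finset.sum_nonneg (fun t _ => K.hk_nonneg _ _ _)
    have h7 : 1 / (2 * (d : ℝ)) ≤ 1 / 6 := by
      apply one_div_le_one_div_of_le (by norm_num)
      linarith
    exact mul_le_mul h7 h4 h6 (by norm_num)
  have h8 : 12 * (T : ℝ) * Θ / (L + 1) = 6 * ((T : ℝ) * (2 * (Θ / (L + 1)))) := by ring
  rw [h8]
  linarith

end Ker

end HP192
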