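import Mathlib
import Pool.Agent.Helper192_HP.Defs
import Pool.Agent.Helper192_HP.WDefs
import Pool.Agent.Helper192_HP.Basic
import Pool.Agent.Helper192_HP.W01
import Pool.Agent.Helper192_HP.W02
import Pool.Agent.Helper192_HP.W05
import Pool.Agent.Helper192_HP.W06
import Pool.Agent.Helper192_HP.W07
import Pool.Agent.Helper192_HP.W11
import Pool.Agent.Helper192_HP.W12
import Pool.Agent.Helper192_HP.W13
import Pool.Agent.Helper192_HP.W14

namespace HP192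
open Finset

namespace Ker
variable {V : Type} [Fintype V] [DecidableEq V] (K : Ker V)

theorem kbg_second (o : V) (r r0 : ℕ) (θ w0 ζ J0 : ℝ) (hr : 1 ≤ r) (hr0 : 1 ≤ r0)
    (hw : 0 ≤ w0) (hw' : w0 ≤ Real.pi)
    (hJ : ∀ ζ : ℝ, 1 / (r : ℝ) * (((range (3 * r + 1)).filter
      (fun k : ℕ => Real.cos w0 ≤ Real.cos ((k : ℝ) * θ - ζ))).card : ℝ) ≤ J0) (ω0 : List V) (h0 : ω0.length = r0) :
    1 / (r : ℝ) * ∑ R ∈ range r, K.EW (r + R) (tip o ω0) (fun ω1 =>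
      if len (ω1 ++ ω0) ∈ (range (3 * r + 1)).filter
        (fun k : ℕ => Real.cos w0 ≤ Real.cos ((k : ℝ) * θ - ζ)) then (1 : ℝ) else 0) ≤
      J0 * (K.Th o (2 * r) * K.hits (2 * r) (tip o ω0) ω0) := by
  replace hJ := hJ ζ
  obtain ⟨J, hJd⟩ : ∃ J : Finset ℕ, J = (range (3 * r + 1)).filter
        (fun k : ℕ => Real.cos w0 ≤ Real.cos ((k : ℝ) * θ - ζ)) := ⟨_, rfl⟩
  rw [← hJd] at hJ ⊢
  have hr' : (0 : ℝ) < r := by exact_mod_cast hr
  obtain ⟨x0, a0, hx0, htip⟩ : ∃ x0 a0, ω0 = x0 :: a0 ∧ tip o ω0 = x0 := by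
    cases ω0 with
    | nil => simp at h0; omega
    | cons x a => exact ⟨x, a, rfl, by rw [tip_cons]⟩
  have hhead : ω0.head? = some (tip o ω0) := by rw [htip, hx0]; rfl
  have hnn : ∀ t k, 0 ≤ K.EW t (tip o ω0) (fun w => if len (w ++ ω0) = k then (1 : ℝ) else 0) :=
    fun t k => K.EW_nonneg _ _ _ fun w _ => by split_ifs <;> norm_num
  have hsum : ∑ R ∈ range r, K.EW (r + R) (tip o ω0) (fun ω1 =>
      if len (ω1 ++ ω0) ∈ J then (1 : ℝ) else 0) ≤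
      (J.card : ℝ) * (K.Th o (2 * r) * K.hits (2 * r) (tip o ω0) ω0) := by
    have e1 : ∀ R, K.EW (r + R) (tip o ω0) (fun ω1 =>
        if len (ω1 ++ ω0) ∈ J then (1 : ℝ) else 0) = ∑ k ∈ J, K.EW (r + R) (tip o ω0)
          (fun ω1 => if len (ω1 ++ ω0) = k then (1 : ℝ) else 0) := by
      intro R
      rw [← K.EW_sum]
      refine K.EW_congr _ _ _ _ fun w _ => ?_
      rw [Finset.sum_ite_eq]
    simp only [e1]
    rw [Finset.sum_comm]
    have e2 : ∀ k ∈ J, ∑ R ∈ range r, K.EW (r + R) (tip o ω0)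
          (fun ω1 => if len (ω1 ++ ω0) = k then (1 : ℝ) else 0) ≤
          K.Th o (2 * r) * K.hits (2 * r) (tip o ω0) ω0 := by
      intro k _
      have hD := K.Dbound o (2 * r) k (tip o ω0) ω0 hhead
      refine le_trans ?_ hD
      rw [Finset.sum_range_succ, two_mul, Finset.sum_range_add]
      have p1 : 0 ≤ ∑ x ∈ range r, K.EW x (tip o ω0)
          (fun w => if len (w ++ ω0) = k then (1 : ℝ) else 0) :=
        Finset.sum_nonneg fun x _ => hnn x k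
      have p2 := hnn (r + r) k
      linarith
    refine (Finset.sum_le_sum e2).trans ?_
    rw [Finset.sum_const, nsmul_eq_mul]
  have hTH : 0 ≤ K.Th o (2 * r) * K.hits (2 * r) (tip o ω0) ω0 := by
    have h1 := K.one_le_Th o (2 * r)
    have h2 := K.hits_nonneg (2 * r) (tip o ω0) ω0
    exact mul_nonneg (by linarith) h2
  calc 1 / (r : ℝ) * _ ≤ 1 / (r : ℝ) *
        ((J.card : ℝ) * (K.Th o (2 * r) * K.hits (2 * r) (tip o ω0) ω0)) :=
        mul_le_mul_of_nonneg_left hsum (by positivity)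
    _ = (1 / (r : ℝ) * (J.card : ℝ)) * (K.Th o (2 * r) * K.hits (2 * r) (tip o ω0) ω0) := by
        ring
    _ ≤ _ := mul_le_mul_of_nonneg_right hJ hTH

theorem kbg_point (o : V) (r r0 : ℕ) (θ w0 J0 : ℝ) (hr : 1 ≤ r) (hr0 : 1 ≤ r0) (hr0r : r0 ≤ r)
    (hw : 0 ≤ w0) (hw' : w0 ≤ Real.pi)
    (hJ : ∀ ζ : ℝ, 1 / (r : ℝ) * (((range (3 * r + 1)).filter
      (fun k : ℕ => Real.cos w0 ≤ Real.cos ((k : ℝ) * θ - ζ))).card : ℝ) ≤ J0) (ω0 ω' : List V) (h0 : ω0.length = r0) :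
    ‖K.kap o r θ ω0 ω'‖ ≤ 1 - (1 - Real.cos w0) * ((1 / (r : ℝ) * ∑ R ∈ range r,
      K.EW (r + R) (tip o ω0) (fun ω1 => if ∀ y ∈ ω'.map (K.sy o (tip (tip o ω0) ω1)),
        y ∉ ω1 ++ ω0 then (1 : ℝ) else 0)) -
      J0 * (K.Th o (2 * r) * K.hits (2 * r) (tip o ω0) ω0)) := by
  have hr' : (0 : ℝ) < r := by exact_mod_cast hr
  obtain ⟨ζ, hζ⟩ : ∃ ζ, ζ = Complex.arg (K.kap o r θ ω0 ω') := ⟨_, rfl⟩
  obtain ⟨L, hL⟩ : ∃ L : ℂ →ₗ[ℝ] ℝ, ∀ z, L z = (Complex.exp (((-ζ : ℝ) : ℂ) * Complex.I) * z).re :=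
    ⟨Complex.reLm ∘ₗ (LinearMap.mulLeft ℝ (Complex.exp (((-ζ : ℝ) : ℂ) * Complex.I))),
      fun z => rfl⟩
  have hk : ‖K.kap o r θ ω0 ω'‖ = L (K.kap o r θ ω0 ω') := by
    rw [hL]
    have h1 := Complex.norm_mul_exp_arg_mul_I (K.kap o r θ ω0 ω')
    rw [← hζ] at h1
    conv_rhs => rw [← h1]
    rw [mul_left_comm, ← Complex.exp_add]
    have h2 : ((-ζ : ℝ) : ℂ) * Complex.I + (ζ : ℂ) * Complex.I = 0 := by
      push_cast; ring
    rw [h2]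
    simp
  have hLe : ∀ x : ℝ, L (Complex.exp ((x : ℂ) * Complex.I)) = Real.cos (x - ζ) := by
    intro x
    rw [hL, ← Complex.exp_add]
    have h2 : ((-ζ : ℝ) : ℂ) * Complex.I + (x : ℂ) * Complex.I =
        ((x - ζ : ℝ) : ℂ) * Complex.I := by
      push_cast; ring
    rw [h2, Complex.exp_ofReal_mul_I_re]
  have hk2 : L (K.kap o r θ ω0 ω') = 1 / (r : ℝ) * ∑ R ∈ range r,
      K.EW (r + R) (tip o ω0) (fun ω1 => Real.cos (
        ((len (ω'.map (K.sy o (tip (tip o ω0) ω1)) ++ ω1 ++ ω0) : ℝ) - (len ω' : ℝ)) * θ - ζ)) := by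
    unfold kap
    rw [map_smul, map_sum, smul_eq_mul]
    congr 1
    refine Finset.sum_congr rfl fun R _ => ?_
    rw [K.kb_lin]
    refine K.EW_congr _ _ _ _ fun w _ => ?_
    rw [hLe]
  rw [hk, hk2]
  have hc : 0 ≤ 1 - Real.cos w0 := by
    have := Real.cos_le_one w0
    linarith
  have hsec := K.kbg_second o r r0 θ w0 ζ J0 hr hr0 hw hw' hJ ω0 h0
  obtain ⟨J, hJd⟩ : ∃ J : Finset ℕ, J = (range (3 * r + 1)).filter
        (fun k : ℕ => Real.cos w0 ≤ Real.cos ((k : ℝ) * θ - ζ)) := ⟨_, rfl⟩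
  rw [← hJd] at hsec
  have hpt : ∀ R ∈ range r, K.EW (r + R) (tip o ω0) (fun ω1 => Real.cos (
        ((len (ω'.map (K.sy o (tip (tip o ω0) ω1)) ++ ω1 ++ ω0) : ℝ) - (len ω' : ℝ)) * θ - ζ)) ≤
      1 - (1 - Real.cos w0) * (K.EW (r + R) (tip o ω0) (fun ω1 =>
        if ∀ y ∈ ω'.map (K.sy o (tip (tip o ω0) ω1)), y ∉ ω1 ++ ω0 then (1 : ℝ) else 0) -
        K.EW (r + R) (tip o ω0) (fun ω1 => if len (ω1 ++ ω0) ∈ J then (1 : ℝ) else 0)) := by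
    intro R hR
    rw [Finset.mem_range] at hR
    refine le_trans (K.EW_mono _ _ _ (fun ω1 => 1 - (1 - Real.cos w0) * (
        (if ∀ y ∈ ω'.map (K.sy o (tip (tip o ω0) ω1)), y ∉ ω1 ++ ω0 then (1 : ℝ) else 0) -
        (if len (ω1 ++ ω0) ∈ J then (1 : ℝ) else 0))) fun ω1 hlen => ?_) (le_of_eq ?_)
    swap
    · rw [K.EW_sub, K.EW_const, K.EW_mul_left, K.EW_sub]
    by_cases hN : ∀ y ∈ ω'.map (K.sy o (tip (tip o ω0) ω1)), y ∉ ω1 ++ ω0
    · rw [if_pos hN]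
      have h1 : len (ω'.map (K.sy o (tip (tip o ω0) ω1)) ++ ω1 ++ ω0) =
          len ω' + len (ω1 ++ ω0) := by
        rw [List.append_assoc, len_append _ _ (fun a ha hb => hN a ha (LE_sub _ _ hb)),
          len_map _ (Equiv.injective _)]
      have h2 : ((len (ω'.map (K.sy o (tip (tip o ω0) ω1)) ++ ω1 ++ ω0) : ℝ) - (len ω' : ℝ)) =
          (len (ω1 ++ ω0) : ℝ) := by
        rw [h1]; push_cast; ring
      rw [h2]
      by_cases hJm : len (ω1 ++ ω0) ∈ J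
      · rw [if_pos hJm]
        have := Real.cos_le_one ((len (ω1 ++ ω0) : ℝ) * θ - ζ)
        linarith
      · rw [if_neg hJm]
        rw [hJd, Finset.mem_filter, Finset.mem_range] at hJm
        have h3 : len (ω1 ++ ω0) < 3 * r + 1 := by
          have h4 := len_le_length (ω1 ++ ω0)
          rw [List.length_append, hlen, h0] at h4
          omega
        have h5 : Real.cos ((len (ω1 ++ ω0) : ℝ) * θ - ζ) < Real.cos w0 := by
          by_contra hcon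
          exact hJm ⟨h3, not_lt.1 hcon⟩
        linarith
    · rw [if_neg hN]
      have h1 := Real.cos_le_one
        (((len (ω'.map (K.sy o (tip (tip o ω0) ω1)) ++ ω1 ++ ω0) : ℝ) - (len ω' : ℝ)) * θ - ζ)
      have h2 : (0 : ℝ) ≤ (if len (ω1 ++ ω0) ∈ J then (1 : ℝ) else 0) := by
        split_ifs <;> norm_num
      nlinarith
  have hs := Finset.sum_le_sum hpt
  have hs2 : ∑ R ∈ range r, (1 - (1 - Real.cos w0) * (K.EW (r + R) (tip o ω0) (fun ω1 =>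
        if ∀ y ∈ ω'.map (K.sy o (tip (tip o ω0) ω1)), y ∉ ω1 ++ ω0 then (1 : ℝ) else 0) -
        K.EW (r + R) (tip o ω0) (fun ω1 => if len (ω1 ++ ω0) ∈ J then (1 : ℝ) else 0))) =
      (r : ℝ) - (1 - Real.cos w0) * ((∑ R ∈ range r, K.EW (r + R) (tip o ω0) (fun ω1 =>
        if ∀ y ∈ ω'.map (K.sy o (tip (tip o ω0) ω1)), y ∉ ω1 ++ ω0 then (1 : ℝ) else 0)) -
        ∑ R ∈ range r, K.EW (r + R) (tip o ω0) (fun ω1 =>
          if len (ω1 ++ ω0) ∈ J then (1 : ℝ) else 0)) := by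
    rw [Finset.sum_sub_distrib, ← Finset.mul_sum, Finset.sum_sub_distrib]
    simp
  rw [hs2] at hs
  obtain ⟨X, hX⟩ : ∃ X, X = ∑ R ∈ range r, K.EW (r + R) (tip o ω0) (fun ω1 =>
        if ∀ y ∈ ω'.map (K.sy o (tip (tip o ω0) ω1)), y ∉ ω1 ++ ω0 then (1 : ℝ) else 0) :=
    ⟨_, rfl⟩
  obtain ⟨Y, hY⟩ : ∃ Y, Y = ∑ R ∈ range r, K.EW (r + R) (tip o ω0) (fun ω1 =>
          if len (ω1 ++ ω0) ∈ J then (1 : ℝ) else 0) := ⟨_, rfl⟩
  rw [← hX, ← hY] at hs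
  rw [← hY] at hsec
  rw [← hX]
  refine (mul_le_mul_of_nonneg_left hs (by positivity : 0 ≤ 1 / (r : ℝ))).trans ?_
  have e5 : 1 / (r : ℝ) * ((r : ℝ) - (1 - Real.cos w0) * (X - Y)) =
      1 - (1 - Real.cos w0) * (1 / (r : ℝ) * X - 1 / (r : ℝ) * Y) := by
    field_simp
  rw [e5]
  have := mul_le_mul_of_nonneg_left hsec hc
  nlinarith

theorem kbpi_J (o : V) (r : ℕ) (θ w0 ζ : ℝ) (hr : 1 ≤ r) (hw : 0 ≤ w0) (hw' : w0 ≤ Real.pi)
    (hθ1 : 1 / (r : ℝ) ≤ |θ - Real.pi|) (hθ2 : |θ - Real.pi| ≤ w0) :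
    1 / (r : ℝ) * (((range (3 * r + 1)).filter
      (fun k : ℕ => Real.cos w0 ≤ Real.cos ((k : ℝ) * θ - ζ))).card : ℝ) ≤ 15 * w0 := by
  have h1 := kb_J o r (θ - Real.pi) w0 ζ hr hw hw' hθ1 hθ2
  have h2 := kb_J o r (θ - Real.pi) w0 (ζ + Real.pi) hr hw hw' hθ1 hθ2
  have hr' : (0 : ℝ) < r := by exact_mod_cast hr
  have hsub : (range (3 * r + 1)).filter
      (fun k : ℕ => Real.cos w0 ≤ Real.cos ((k : ℝ) * θ - ζ)) ⊆
      (range (3 * r + 1)).filter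
      (fun k : ℕ => Real.cos w0 ≤ Real.cos ((k : ℝ) * (θ - Real.pi) - ζ)) ∪
      (range (3 * r + 1)).filter
      (fun k : ℕ => Real.cos w0 ≤ Real.cos ((k : ℝ) * (θ - Real.pi) - (ζ + Real.pi))) := by
    intro k hk
    rw [Finset.mem_filter] at hk
    rw [Finset.mem_union, Finset.mem_filter, Finset.mem_filter]
    have e1 : (k : ℝ) * θ - ζ = ((k : ℝ) * (θ - Real.pi) - ζ) + k * Real.pi := by ring
    have e2 : (k : ℝ) * (θ - Real.pi) - (ζ + Real.pi) = ((k : ℝ) * (θ - Real.pi) - ζ) - Real.pi := by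
      ring
    rw [e1, Real.cos_add_nat_mul_pi] at hk
    rcases Nat.even_or_odd k with he | ho
    · left
      rw [he.neg_one_pow, one_mul] at hk
      exact hk
    · right
      rw [ho.neg_one_pow, neg_one_mul] at hk
      rw [e2, Real.cos_sub_pi]
      exact hk
  have hc := (Finset.card_le_card hsub).trans (Finset.card_union_le _ _)
  have hc' : (((range (3 * r + 1)).filter
      (fun k : ℕ => Real.cos w0 ≤ Real.cos ((k : ℝ) * θ - ζ))).card : ℝ) ≤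
      (((range (3 * r + 1)).filter
      (fun k : ℕ => Real.cos w0 ≤ Real.cos ((k : ℝ) * (θ - Real.pi) - ζ))).card : ℝ) +
      (((range (3 * r + 1)).filter
      (fun k : ℕ => Real.cos w0 ≤ Real.cos ((k : ℝ) * (θ - Real.pi) - (ζ + Real.pi)))).card : ℝ) := by
    exact_mod_cast hc
  have h3 := mul_le_mul_of_nonneg_left hc' (by positivity : 0 ≤ 1 / (r : ℝ))
  rw [mul_add] at h3
  linarith

theorem kap_bound_pi (o : V) (T r r0 : ℕ) (Θ θ : ℝ) (hr : 1 ≤ r) (hr0 : 1 ≤ r0) (hr0r : r0 ≤ r)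
    (hT : 3 * r ≤ T) (hΘ : K.Th o (T + 3 * r) ≤ Θ) (hq : 1 / (2 * Θ) ≤ K.nq o T T)
    (hθ1 : 1 / (r : ℝ) ≤ |θ - Real.pi|) (hθ2 : |θ - Real.pi| ≤ 1 / (72 * Θ ^ 3)) :
    K.EW r0 o (fun ω0 => K.EW r0 o (fun ω' => ‖K.kap o r θ ω0 ω'‖))
      ≤ 1 - (1 - Real.cos (1 / (72 * Θ ^ 3))) / (4 * Θ) := by
  have hr' : (0 : ℝ) < r := by exact_mod_cast hr
  have hΘ1 : 1 ≤ Θ := (K.one_le_Th o (T + 3 * r)).trans hΘ
  have hΘ0 : 0 < Θ := by linarith
  obtain ⟨w0, hw0⟩ : ∃ w0, w0 = 1 / (72 * Θ ^ 3) := ⟨_, rfl⟩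
  rw [← hw0] at hθ2 ⊢
  have hw : 0 ≤ w0 := by rw [hw0]; positivity
  have hw1 : w0 ≤ 1 := by
    rw [hw0, div_le_one (by positivity)]
    have : 1 ≤ Θ ^ 3 := one_le_pow₀ hΘ1
    linarith
  have hw' : w0 ≤ Real.pi := by
    have := Real.pi_gt_three
    linarith
  have hc : 0 ≤ 1 - Real.cos w0 := by
    have := Real.cos_le_one w0
    linarith
  have hmono : K.EW r0 o (fun ω0 => K.EW r0 o (fun ω' => ‖K.kap o r θ ω0 ω'‖)) ≤
      K.EW r0 o (fun ω0 => K.EW r0 o (fun ω' => 1 - (1 - Real.cos w0) *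
        ((1 / (r : ℝ) * ∑ R ∈ range r,
      K.EW (r + R) (tip o ω0) (fun ω1 => if ∀ y ∈ ω'.map (K.sy o (tip (tip o ω0) ω1)),
        y ∉ ω1 ++ ω0 then (1 : ℝ) else 0)) -
      15 * w0 * (K.Th o (2 * r) * K.hits (2 * r) (tip o ω0) ω0)))) := by
    refine K.EW_mono _ _ _ _ fun ω0 h0 => K.EW_mono _ _ _ _ fun ω' _ => ?_
    exact K.kbg_point o r r0 θ w0 (15 * w0) hr hr0 hr0r hw hw' (fun ζ => kbpi_J o r θ w0 ζ hr hw hw' hθ1 hθ2) ω0 ω' h0
  refine hmono.trans ?_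
  have heq : K.EW r0 o (fun ω0 => K.EW r0 o (fun ω' => 1 - (1 - Real.cos w0) *
        ((1 / (r : ℝ) * ∑ R ∈ range r,
      K.EW (r + R) (tip o ω0) (fun ω1 => if ∀ y ∈ ω'.map (K.sy o (tip (tip o ω0) ω1)),
        y ∉ ω1 ++ ω0 then (1 : ℝ) else 0)) -
      15 * w0 * (K.Th o (2 * r) * K.hits (2 * r) (tip o ω0) ω0)))) =
      1 - (1 - Real.cos w0) * ((1 / (r : ℝ) * ∑ R ∈ range r,
        K.EW r0 o (fun ω0 => K.EW r0 o (fun ω' => K.EW (r + R) (tip o ω0)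
      (fun ω1 => if ∀ y ∈ ω'.map (K.sy o (tip (tip o ω0) ω1)), y ∉ ω1 ++ ω0
        then (1 : ℝ) else 0)))) - 15 * w0 * (K.Th o (2 * r) *
          K.EW r0 o (fun ω0 => K.hits (2 * r) (tip o ω0) ω0))) := by
    simp only [K.EW_sub, K.EW_mul_left, K.EW_const, K.EW_sum]
  rw [heq]
  have hfirst : 1 / (2 * Θ) ≤ 1 / (r : ℝ) * ∑ R ∈ range r,
        K.EW r0 o (fun ω0 => K.EW r0 o (fun ω' => K.EW (r + R) (tip o ω0)
      (fun ω1 => if ∀ y ∈ ω'.map (K.sy o (tip (tip o ω0) ω1)), y ∉ ω1 ++ ω0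
        then (1 : ℝ) else 0))) := by
    have h1 : ∑ _R ∈ range r, (1 / (2 * Θ)) ≤ ∑ R ∈ range r,
        K.EW r0 o (fun ω0 => K.EW r0 o (fun ω' => K.EW (r + R) (tip o ω0)
      (fun ω1 => if ∀ y ∈ ω'.map (K.sy o (tip (tip o ω0) ω1)), y ∉ ω1 ++ ω0
        then (1 : ℝ) else 0))) := by
      refine Finset.sum_le_sum fun R hR => hq.trans ?_
      exact K.kb_first o T r r0 R (Finset.mem_range.1 hR) hr0r hT
    rw [Finset.sum_const, Finset.card_range, nsmul_eq_mul] at h1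
    calc 1 / (2 * Θ) = 1 / (r : ℝ) * ((r : ℝ) * (1 / (2 * Θ))) := by field_simp
      _ ≤ _ := mul_le_mul_of_nonneg_left h1 (by positivity)
  have hhits : K.EW r0 o (fun ω0 => K.hits (2 * r) (tip o ω0) ω0) ≤ Θ := by
    have h1 : K.EW r0 o (fun ω0 => K.hits (2 * r) (tip o ω0) ω0) ≤
        K.EW r0 o (fun ω0 => K.hits (2 * r) (tip o ω0) (ω0 ++ [o])) := by
      refine K.EW_mono _ _ _ _ fun w _ => ?_
      rw [K.hits_append]
      have := K.hits_nonneg (2 * r) (tip o w) [o]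
      linarith
    refine h1.trans ((K.E_hits o (2 * r) r0).trans ((K.Th_mono o _ _ ?_).trans hΘ))
    omega
  have hhits0 : 0 ≤ K.EW r0 o (fun ω0 => K.hits (2 * r) (tip o ω0) ω0) :=
    K.EW_nonneg _ _ _ fun w _ => K.hits_nonneg _ _ _
  have hTh : K.Th o (2 * r) ≤ Θ := (K.Th_mono o _ _ (by omega)).trans hΘ
  have hTh0 : 0 ≤ K.Th o (2 * r) := by
    have := K.one_le_Th o (2 * r)
    linarith
  have hprod : K.Th o (2 * r) * K.EW r0 o (fun ω0 => K.hits (2 * r) (tip o ω0) ω0) ≤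
      Θ * Θ := mul_le_mul hTh hhits hhits0 hΘ0.le
  have hlast : 15 * w0 * (K.Th o (2 * r) *
      K.EW r0 o (fun ω0 => K.hits (2 * r) (tip o ω0) ω0)) ≤ 1 / (4 * Θ) := by
    refine (mul_le_mul_of_nonneg_left hprod (by positivity)).trans ?_
    have : 15 * w0 * (Θ * Θ) = 15 / 72 * (1 / Θ) := by
      rw [hw0]
      field_simp
    rw [this]
    have h3 : 1 / (4 * Θ) = 1 / 4 * (1 / Θ) := by field_simp
    rw [h3]
    exact mul_le_mul_of_nonneg_right (by norm_num) (by positivity)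
  have h4 : 1 / (2 * Θ) = 1 / (4 * Θ) + 1 / (4 * Θ) := by field_simp; norm_num
  have h5 : (1 - Real.cos w0) / (4 * Θ) = (1 - Real.cos w0) * (1 / (4 * Θ)) := by
    rw [mul_one_div]
  rw [h5]
  have h6 := mul_le_mul_of_nonneg_left (by linarith : 1 / (4 * Θ) ≤
    (1 / (r : ℝ) * ∑ R ∈ range r,
        K.EW r0 o (fun ω0 => K.EW r0 o (fun ω' => K.EW (r + R) (tip o ω0)
      (fun ω1 => if ∀ y ∈ ω'.map (K.sy o (tip (tip o ω0) ω1)), y ∉ ω1 ++ ω0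
        then (1 : ℝ) else 0)))) - 15 * w0 * (K.Th o (2 * r) *
          K.EW r0 o (fun ω0 => K.hits (2 * r) (tip o ω0) ω0))) hc
  linarith

end Ker

end HP192
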