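import Mathlib
import Pool.Agent.Helper192_HP.Defs

namespace HP192
open Finset

namespace Ker
variable {V : Type} [Fintype V] [DecidableEq V] (K : Ker V)

/-- probability that the walk from `u` stays in `D` at times `1..t` and has loop-erased length `m` -/
noncomputable def aD (D : Finset V) (u : V) (m t : ℕ) : ℝ :=
  K.EW t u (fun w => if (∀ v ∈ w, v ∈ D) ∧ len (w ++ [u]) = m + 1 then (1 : ℝ) else 0)

/-- probability that the walk from `u` stays in `D` at times `1..t` -/
noncomputable def bD (D : Finset V) (u : V) (t : ℕ) : ℝ :=
  K.EW t u (fun w => if ∀ v ∈ w, v ∈ D then (1 : ℝ) else 0)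

end Ker


end HP192
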