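import Mathlib
import Pool.Agent.Helper192_HP.Defs

namespace HP192
open Finset

/-- vertex set of the cyclic sequence `c` of period `ℓ` -/
def cD {V : Type} [DecidableEq V] (ℓ : ℕ) (c : ℕ → V) : Finset V := (range ℓ).image c


end HP192
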