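import Mathlib

namespace HP192
open Finset

/-- explicit bound of the averaged window differences -/
noncomputable def Ker.Ebd (Θ T r s w M0 pb : ℝ) : ℝ :=
  Real.sqrt ((1 / M0) * (T * Θ ^ 2 * (s / r) ^ 2
        + 16 / ((1 - Real.cos (1 / (36 * Θ ^ 3))) / (4 * Θ)) ^ 2
            * (12 * r * Θ ^ 2 + 16 * T * Θ ^ 2 * Real.sqrt pb)
        + 4 * Real.pi ^ 2 * T * Θ ^ 2 / (w * (1 / (36 * Θ ^ 3))) ^ 2))


end HP192
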