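import Mathlib

namespace HP192
open Finset

section FDefs
open MeasureTheory Filter Topology

section one
variable {V : Type} [Fintype V] [DecidableEq V]

open Classical in
/-- degree -/
noncomputable def dg (G : SimpleGraph V) (x : V) : ℕ := (univ.filter (fun y => G.Adj x y)).card

open Classical in
/-- one step of lazy simple random walk -/
noncomputable def lazyStep (G : SimpleGraph V) (x y : V) : ℝ :=
  if x = y then 1 / 2 else if G.Adj x y then 1 / (2 * (dg G x : ℝ)) else 0

/-- `t`-step transition probability of lazy simple random walk -/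
noncomputable def pt (G : SimpleGraph V) (t : ℕ) (x y : V) : ℝ :=
  ((Matrix.of (lazyStep G)) ^ t) x y

/-- uniform mixing time -/
noncomputable def tmix (G : SimpleGraph V) : ℕ :=
  sInf {t | ∀ x y, |(Fintype.card V : ℝ) * pt G t x y - 1| ≤ 1 / 2}

open Classical in
/-- the spanning trees of `G` -/
noncomputable def sTrees (G : SimpleGraph V) : Finset (SimpleGraph V) :=
  univ.filter (fun T => T ≤ G ∧ T.IsTree)

open Classical in
/-- expectation under the uniform spanning tree -/
noncomputable def avT (G : SimpleGraph V) (F : SimpleGraph V → ℝ) : ℝ :=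
  (∑ T ∈ sTrees G, F T) / ((sTrees G).card : ℝ)

/-- height profile: number of vertices at distance `k` from `o` in `T` -/
noncomputable def Hp (o : V) (T : SimpleGraph V) (k : ℕ) : ℕ :=
  (univ.filter (fun v => T.dist o v = k)).card

end one

/-- the pseudo-distance on `[0,1]` coded by `2e` -/
noncomputable def de (e : C(unitInterval, ℝ)) (s t : unitInterval) : ℝ :=
  2 * e s + 2 * e t - 4 * ⨅ u : Set.uIcc s t, e u

/-- mass of the ball of radius `r` around the root in the tree coded by `2e` -/
noncomputable def De (e : C(unitInterval, ℝ)) (r : ℝ) : ℝ :=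
  (volume : Measure unitInterval).real {t | de e 0 t ≤ r}

/-- pointed Gromov-Hausdorff-Prohorov closeness of a finite metric space with uniform measure,
pointed at `o`, and the tree coded by `2e`, pointed at the image of `0`: a correspondence `R`
containing `(o, 0)` of distortion at most `2 ε` and a coupling `q` of the uniform measure and
Lebesgue measure (`q v` is the restriction of the coupling to `{v} × [0,1]`) with mass at most
`ε` outside `R` -/
def GHPclose {V : Type} [Fintype V] (o : V) (ds : V → V → ℝ) (e : C(unitInterval, ℝ)) (ε : ℝ) :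
    Prop :=
  ∃ (R : Set (V × unitInterval)) (q : V → Measure unitInterval),
    (∀ v, ∃ t, (v, t) ∈ R) ∧ (∀ t, ∃ v, (v, t) ∈ R) ∧ (o, 0) ∈ R ∧
    (∀ x ∈ R, ∀ y ∈ R, |ds x.1 y.1 - de e x.2 y.2| ≤ 2 * ε) ∧
    (∀ v, q v Set.univ = (Fintype.card V : ENNReal)⁻¹) ∧ (∑ v, q v = volume) ∧
    ∑ v, q v {t | (v, t) ∉ R} ≤ ENNReal.ofReal ε

instance : MeasurableSpace C(unitInterval, ℝ) := borel _

/-- convergence in distribution, for the pointed Gromov-Hausdorff-Prohorov topology, of the
rescaled uniform spanning trees to the random tree coded by `2e` (coupling form: for every `ε`,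
for all large `n` there is a coupling of the uniform spanning tree of `G n` and of `e` under which
the two spaces are `ε`-close outside an event of probability at most `ε`; `Q T` is the
restriction of the coupling to the event that the tree is `T`) -/
def GHPconv {V : ℕ → Type} [∀ n, Fintype (V n)] [∀ n, DecidableEq (V n)]
    (G : ∀ n, SimpleGraph (V n)) (O : ∀ n, V n) (β : ℕ → ℝ)
    {Ω : Type} [MeasurableSpace Ω] (P : Measure Ω) (e : Ω → C(unitInterval, ℝ)) : Prop :=
  ∀ ε : ℝ, 0 < ε → ∀ᶠ n in atTop, ∃ Q : SimpleGraph (V n) → Measure C(unitInterval, ℝ),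
    (∀ T ∈ sTrees (G n), Q T Set.univ = ((sTrees (G n)).card : ENNReal)⁻¹) ∧
    (∑ T ∈ sTrees (G n), Q T = P.map e) ∧
    ∑ T ∈ sTrees (G n), Q T {f | ¬ GHPclose (O n)
      (fun v w => (T.dist v w : ℝ) / (β n * Real.sqrt (Fintype.card (V n)))) f ε}
        ≤ ENNReal.ofReal ε

/-- assumption (A1) -/
def A1 {V : ℕ → Type} [∀ n, Fintype (V n)] [∀ n, DecidableEq (V n)]
    (G : ∀ n, SimpleGraph (V n)) : Prop :=
  ∃ θ : ℝ, ∀ n, ∀ x : V n,
    ∑ t ∈ range (⌊Real.sqrt (Fintype.card (V n))⌋₊ + 1), ((t : ℝ) + 1) * pt (G n) t x x ≤ θ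

/-- assumption (A2) -/
def A2 {V : ℕ → Type} [∀ n, Fintype (V n)] [∀ n, DecidableEq (V n)]
    (G : ∀ n, SimpleGraph (V n)) : Prop :=
  ∃ α : ℝ, 0 < α ∧ Tendsto (fun n => (tmix (G n) : ℝ)
    / (Fintype.card (V n) : ℝ) ^ ((1 : ℝ) / 2 - α)) atTop (𝓝 0)

end FDefs


end HP192
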