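import Mathlib
import Pool.Agent.Helper192_HP.Defs

namespace HP192
open Finset


open Classical in
/-- outer vertex boundary -/
noncomputable def bd {V : Type} [Fintype V] [DecidableEq V] (G : SimpleGraph V) (A : Finset V) :
    Finset V := univ.filter (fun x => x ∉ A ∧ ∃ a ∈ A, G.Adj a x)

/-- `c` is a cyclic sequence of distinct vertices of period `ℓ`, consecutive ones adjacent -/
structure Cyc {V : Type} (G : SimpleGraph V) (ℓ : ℕ) (c : ℕ → V) : Prop where
  three : 3 ≤ ℓ
  per : ∀ i, c (i + ℓ) = c i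
  inj : ∀ i < ℓ, ∀ j < ℓ, c i = c j → i = j
  adj : ∀ i, G.Adj (c i) (c (i + 1))

/-- `Γ` is connected: any two of its vertices are joined by a path inside `Γ` -/
def ConnIn {V : Type} (G : SimpleGraph V) (Γ : Finset V) : Prop :=
  ∀ x ∈ Γ, ∀ y ∈ Γ, Relation.ReflTransGen (fun a b => G.Adj a b ∧ b ∈ Γ) x y


end HP192
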