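import Mathlib
import Pool.Agent.Helper192_HP.Defs
import Pool.Agent.Helper192_HP.WDefs

namespace HP192
open Finset


open Classical in
/-- `K` is the kernel of lazy simple random walk on the connected vertex-transitive graph `G` of
degree `d`, with the bounds given by (A1) (bubble sum up to `√|V|` at most `Θ`) and by the mixing
time (`m0`) -/
structure IsK {V : Type} [Fintype V] [DecidableEq V] (G : SimpleGraph V) (K : Ker V) (d : ℕ) (o : V)
    (Θ : ℝ) (m0 : ℕ) : Prop where
  conn : G.Connected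
  trans : ∀ x y : V, ∃ φ : G ≃g G, φ x = y
  d0 : 0 < d
  hd : ∀ v, (univ.filter (fun w => G.Adj v w)).card = d
  hP : ∀ x y, x ≠ y → K.P x y = if G.Adj x y then 1 / (2 * (d : ℝ)) else 0
  th : ∀ k ≤ ⌊Real.sqrt (Fintype.card V)⌋₊, K.Th o k ≤ Θ
  up : ∀ t x y, m0 ≤ t → K.hk t x y ≤ 3 / (2 * (Fintype.card V : ℝ))
  low : ∀ t x y, m0 ≤ t → 1 / (2 * (Fintype.card V : ℝ)) ≤ K.hk t x y


end HP192
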