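import Mathlib
import Pool.Agent.Helper192_HP.Defs
import Pool.Agent.Helper192_HP.WDefs
import Pool.Agent.Helper192_HP.ZDefs
import Pool.Agent.Helper192_HP.FDefs
import Pool.Agent.Helper192_HP.PDefs

namespace HP192
open Finset


section
open MeasureTheory Filter Topology

/-- the averaged differences of the expected occupation of the levels are small -/
def FB (V : ℕ → Type) [∀ n, Fintype (V n)] [∀ n, DecidableEq (V n)] (G : ∀ n, SimpleGraph (V n))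
    (O : ∀ n, V n) (Θ : ℝ) : Prop :=
  ∀ η κ0 εF : ℝ, 0 < η → η ≤ 1 / 20 → 0 < κ0 → κ0 ≤ 1 → 0 < εF →
    ∃ (ε1 δ : ℝ) (K2 : ℕ), 0 < ε1 ∧ ε1 ≤ 1 / 40 ∧ ε1 ≤ η * κ0 / 8 ∧ 0 < δ ∧ δ ≤ η * κ0 / 4 ∧
      1 ≤ K2 ∧ ∀ᶠ n in atTop, ∀ (K : Ker (V n)) (d : ℕ),
      IsK (G n) K d (O n) Θ (tmix (G n)) → ∀ s T M0 r1 : ℕ,
      T = ⌊η * Real.sqrt (Fintype.card (V n))⌋₊ → M0 = ⌊κ0 * T⌋₊ →
      r1 = 2 * (tmix (G n) + 1) * K2 → (s : ℝ) ≤ δ * Real.sqrt (Fintype.card (V n)) →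
      (1 / (M0 : ℝ)) * ∑ M ∈ Ico M0 (2 * M0),
        K.EW r1 (O n) (fun ω => |(1 / ((1 : ℕ) : ℝ)) * ∑ i ∈ range 1,
            (K.fM (O n) T (M + 1 + i) ω - K.fM (O n) T (M + 1 + s + i) ω)|) ≤ εF

end


end HP192
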