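import Mathlib
import Pool.Agent.Helper192_HP.FDefs

namespace HP192
open Finset

section Final
open MeasureTheory Filter Topology

/-- common hypotheses of the final theorems -/
structure Setup (V : ℕ → Type) [∀ n, Fintype (V n)] [∀ n, DecidableEq (V n)]
    (G : ∀ n, SimpleGraph (V n)) : Prop where
  conn : ∀ n, (G n).Connected
  trans : ∀ n (x y : V n), ∃ φ : G n ≃g G n, φ x = y
  card : Tendsto (fun n => Fintype.card (V n)) atTop atTop
  a1 : A1 G
  a2 : A2 G

end Final


end HP192
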