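import Pool.Agent.Helper192_HP.Defs

/-!
Pointer forests, skeletons and averages over uniform spanning trees (MP_5ae64c_pr).
-/

namespace HP192

open Finset

section TDefs
variable {V : Type} [Fintype V] [DecidableEq V]

open Classical in
/-- pointer forests with non-root set `D`: vertices outside `D` are roots (fixed points), every
vertex of `D` points to a neighbour, and every vertex reaches a root -/
noncomputable def For (G : SimpleGraph V) (D : Finset V) : Finset (V → V) :=
  univ.filter (fun f => (∀ v, v ∉ D → f v = v) ∧ (∀ v ∈ D, G.Adj v (f v)) ∧
    ∀ v, ∃ k, f^[k] v ∉ D)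

/-- number of vertices that reach the root `u` after exactly `m` pointers -/
def cnt (D : Finset V) (u : V) (m : ℕ) (f : V → V) : ℕ :=
  (univ.filter (fun v => f^[m] v = u ∧ ∀ i < m, f^[i] v ∈ D)).card

/-- average over pointer forests with non-root set `D` -/
noncomputable def avF (G : SimpleGraph V) (D : Finset V) (F : (V → V) → ℝ) : ℝ :=
  (∑ f ∈ For G D, F f) / ((For G D).card : ℝ)

/-- expected number of vertices attached to the root `u` with exactly `m` pointers -/
noncomputable def Am (G : SimpleGraph V) (D : Finset V) (u : V) (m : ℕ) : ℝ :=
  avF G D (fun f => (cnt D u m f : ℝ))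

/-- expected number of vertices attached to the root `u` -/
noncomputable def Bm (G : SimpleGraph V) (D : Finset V) (u : V) : ℝ :=
  ∑ m ∈ range (Fintype.card V), Am G D u m

/-- the pointer path of `v`, a finite set of vertices -/
def pth (f : V → V) (v : V) : Finset V := (range (Fintype.card V + 1)).image (fun k => f^[k] v)

/-- the skeleton spanned by the root and the vertices of `W` -/
def skl (f : V → V) (W : Finset V) : Finset V := W.biUnion (pth f)

open Classical in
/-- height of `v` above the root `o` -/
noncomputable def ht (o : V) (f : V → V) (v : V) : ℕ :=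
  if h : ∃ k, f^[k] v = o then Nat.find h else 0

/-- ancestor of `v` at height `i` -/
noncomputable def anc (o : V) (f : V → V) (v : V) (i : ℕ) : V := f^[ht o f v - i] v

/-- number of descendants of `u` exactly `j` levels above `u` -/
noncomputable def Nd (o : V) (f : V → V) (u : V) (j : ℕ) : ℕ :=
  (univ.filter (fun x => f^[j] x = u ∧ ht o f x = ht o f u + j)).card

/-- `x` is a descendant of `u` -/
def Dsc (o : V) (f : V → V) (u x : V) : Prop := ∃ j, f^[j] x = u ∧ ht o f x = ht o f u + j

end TDefs

end HP192
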