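import Mathlib
import Pool.Agent.Helper192_HP.TDefs

namespace HP192
open Finset

variable {V : Type} [Fintype V] [DecidableEq V]

theorem ht_aux_ex (G : SimpleGraph V) (o : V) (f : V → V) (hf : f ∈ For G (univ.erase o)) (v : V) :
    ∃ k, f^[k] v = o := by
  classical
  have h := (Finset.mem_filter.1 hf).2.2.2 v
  obtain ⟨k, hk⟩ := h
  refine ⟨k, ?_⟩
  by_contra h1
  exact hk (Finset.mem_erase.2 ⟨h1, Finset.mem_univ _⟩)

theorem ht_aux_root (G : SimpleGraph V) (o : V) (f : V → V) (hf : f ∈ For G (univ.erase o)) :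
    f o = o := by
  classical
  exact (Finset.mem_filter.1 hf).2.1 o (by simp)

theorem ht_aux_spec (o : V) (f : V → V) (v : V) (h : ∃ k, f^[k] v = o) : f^[ht o f v] v = o := by
  classical
  unfold ht
  rw [dif_pos h]
  exact Nat.find_spec h

theorem ht_aux_min (o : V) (f : V → V) (v : V) (k : ℕ) (hk : f^[k] v = o) : ht o f v ≤ k := by
  classical
  unfold ht
  rw [dif_pos ⟨k, hk⟩]
  exact Nat.find_min' _ hk

/-- TARGET -/
theorem ht_root (G : SimpleGraph V) (o : V) (f : V → V) (hf : f ∈ For G (univ.erase o)) :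
    ht o f o = 0 := Nat.le_zero.1 (ht_aux_min o f o 0 rfl)

theorem iter_ht (G : SimpleGraph V) (o : V) (f : V → V) (hf : f ∈ For G (univ.erase o)) (v : V) :
    f^[ht o f v] v = o := ht_aux_spec o f v (ht_aux_ex G o f hf v)

theorem iter_lt (o : V) (f : V → V) (v : V) (k : ℕ) (hk : k < ht o f v) : f^[k] v ≠ o :=
  fun h => absurd (ht_aux_min o f v k h) (not_le.2 hk)

theorem iter_ge (G : SimpleGraph V) (o : V) (f : V → V) (hf : f ∈ For G (univ.erase o)) (v : V)
    (k : ℕ) (hk : ht o f v ≤ k) : f^[k] v = o := by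
  obtain ⟨j, rfl⟩ := Nat.exists_eq_add_of_le hk
  rw [Nat.add_comm, Function.iterate_add_apply, iter_ht G o f hf v]
  exact Function.iterate_fixed (ht_aux_root G o f hf) j

theorem ht_iter (G : SimpleGraph V) (o : V) (f : V → V) (hf : f ∈ For G (univ.erase o)) (v : V)
    (k : ℕ) (hk : k ≤ ht o f v) : ht o f (f^[k] v) = ht o f v - k := by
  apply le_antisymm
  · apply ht_aux_min
    rw [← Function.iterate_add_apply, Nat.sub_add_cancel hk]
    exact iter_ht G o f hf v
  · have h : f^[ht o f (f^[k] v) + k] v = o := by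
      rw [Function.iterate_add_apply]
      exact iter_ht G o f hf _
    have h2 := ht_aux_min o f v _ h
    omega

theorem ht_aux_inj (G : SimpleGraph V) (o : V) (f : V → V) (hf : f ∈ For G (univ.erase o)) (v : V) :
    Set.InjOn (fun k => f^[k] v) (range (ht o f v + 1) : Finset ℕ) := by
  intro i hi j hj hij
  have hi' : i ≤ ht o f v := by
    have := Finset.mem_range.1 (Finset.mem_coe.1 hi); omega
  have hj' : j ≤ ht o f v := by
    have := Finset.mem_range.1 (Finset.mem_coe.1 hj); omega
  have h1 := ht_iter G o f hf v i hi'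
  have h2 := ht_iter G o f hf v j hj'
  have h3 : f^[i] v = f^[j] v := hij
  rw [h3, h2] at h1
  omega

theorem ht_aux_card (G : SimpleGraph V) (o : V) (f : V → V) (hf : f ∈ For G (univ.erase o)) (v : V) :
    ((range (ht o f v + 1)).image (fun k => f^[k] v)).card = ht o f v + 1 := by
  rw [Finset.card_image_of_injOn (ht_aux_inj G o f hf v), Finset.card_range]

theorem ht_lt_card (G : SimpleGraph V) (o : V) (f : V → V) (hf : f ∈ For G (univ.erase o)) (v : V) :
    ht o f v < Fintype.card V := by
  have h := Finset.card_le_univ ((range (ht o f v + 1)).image (fun k => f^[k] v))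
  rw [ht_aux_card G o f hf v] at h
  omega

theorem ht_anc (G : SimpleGraph V) (o : V) (f : V → V) (hf : f ∈ For G (univ.erase o)) (v : V)
    (i : ℕ) (hi : i ≤ ht o f v) : ht o f (anc o f v i) = i := by
  unfold anc
  rw [ht_iter G o f hf v _ (Nat.sub_le _ _)]
  omega

theorem ht_aux_pth (G : SimpleGraph V) (o : V) (f : V → V) (hf : f ∈ For G (univ.erase o)) (v : V) :
    pth f v = (range (ht o f v + 1)).image (fun k => f^[k] v) := by
  have hc := ht_lt_card G o f hf v
  apply Finset.Subset.antisymm
  · intro y hy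
    obtain ⟨k, hk, rfl⟩ := Finset.mem_image.1 hy
    by_cases h : k ≤ ht o f v
    · exact Finset.mem_image.2 ⟨k, Finset.mem_range.2 (by omega), rfl⟩
    · refine Finset.mem_image.2 ⟨ht o f v, Finset.mem_range.2 (by omega), ?_⟩
      show f^[ht o f v] v = f^[k] v
      rw [iter_ht G o f hf v, iter_ge G o f hf v k (by omega)]
  · intro y hy
    obtain ⟨k, hk, rfl⟩ := Finset.mem_image.1 hy
    have := Finset.mem_range.1 hk
    exact Finset.mem_image.2 ⟨k, Finset.mem_range.2 (by omega), rfl⟩

theorem mem_pth (G : SimpleGraph V) (o : V) (f : V → V) (hf : f ∈ For G (univ.erase o)) (v y : V) :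
    y ∈ pth f v ↔ ∃ i ≤ ht o f v, y = anc o f v i := by
  rw [ht_aux_pth G o f hf v]
  constructor
  · intro hy
    obtain ⟨k, hk, rfl⟩ := Finset.mem_image.1 hy
    have := Finset.mem_range.1 hk
    refine ⟨ht o f v - k, Nat.sub_le _ _, ?_⟩
    unfold anc
    congr 2
    omega
  · rintro ⟨i, hi, rfl⟩
    exact Finset.mem_image.2 ⟨ht o f v - i, Finset.mem_range.2 (by omega), rfl⟩

theorem card_pth (G : SimpleGraph V) (o : V) (f : V → V) (hf : f ∈ For G (univ.erase o)) (v : V) :
    (pth f v).card = ht o f v + 1 := by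
  rw [ht_aux_pth G o f hf v, ht_aux_card G o f hf v]

theorem pth_closed (G : SimpleGraph V) (o : V) (f : V → V) (hf : f ∈ For G (univ.erase o)) (v y : V)
    (hy : y ∈ pth f v) : f y ∈ pth f v := by
  rw [ht_aux_pth G o f hf v] at hy
  obtain ⟨k, hk, rfl⟩ := Finset.mem_image.1 hy
  have := Finset.mem_range.1 hk
  have hc := ht_lt_card G o f hf v
  refine Finset.mem_image.2 ⟨k + 1, Finset.mem_range.2 (by omega), ?_⟩
  exact Function.iterate_succ_apply' f k v

theorem root_mem_pth (G : SimpleGraph V) (o : V) (f : V → V) (hf : f ∈ For G (univ.erase o))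
    (v : V) : o ∈ pth f v := by
  have hc := ht_lt_card G o f hf v
  exact Finset.mem_image.2 ⟨ht o f v, Finset.mem_range.2 (by omega), iter_ht G o f hf v⟩

theorem local_pth (G : SimpleGraph V) (o : V) (f f' : V → V) (hf : f ∈ For G (univ.erase o))
    (hf' : f' ∈ For G (univ.erase o)) (v : V) (h : ∀ y ∈ pth f v, f' y = f y) :
    pth f' v = pth f v ∧ ht o f' v = ht o f v ∧ ∀ i, anc o f' v i = anc o f v i := by
  have key : ∀ k, f^[k] v ∈ pth f v ∧ f'^[k] v = f^[k] v := by
    intro k
    induction k with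
    | zero =>
      refine ⟨Finset.mem_image.2 ⟨0, Finset.mem_range.2 (by omega), rfl⟩, rfl⟩
    | succ k ih =>
      refine ⟨?_, ?_⟩
      · rw [Function.iterate_succ_apply']
        exact pth_closed G o f hf v _ ih.1
      · rw [Function.iterate_succ_apply', Function.iterate_succ_apply', ih.2]
        exact h _ ih.1
  have hht : ht o f' v = ht o f v := by
    apply le_antisymm
    · apply ht_aux_min
      rw [(key _).2]
      exact iter_ht G o f hf v
    · apply ht_aux_min
      rw [← (key _).2]
      exact iter_ht G o f' hf' v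
  refine ⟨?_, hht, fun i => ?_⟩
  · unfold pth
    apply Finset.image_congr
    intro k hk
    exact (key k).2
  · unfold anc
    rw [hht]
    exact (key _).2

theorem card_ht (G : SimpleGraph V) (o : V) (f : V → V) (hf : f ∈ For G (univ.erase o)) (k : ℕ) :
    (univ.filter (fun v => ht o f v = k)).card = cnt (univ.erase o) o k f := by
  classical
  unfold cnt
  congr 1
  ext v
  simp only [Finset.mem_filter, Finset.mem_univ, true_and, Finset.mem_erase, and_true]
  constructor
  · rintro rfl
    exact ⟨iter_ht G o f hf v, fun i hi => iter_lt o f v i hi⟩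
  · rintro ⟨h1, h2⟩
    apply le_antisymm (ht_aux_min o f v k h1)
    by_contra h3
    exact h2 _ (not_le.1 h3) (iter_ht G o f hf v)

end HP192
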