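import Mathlib
import Pool.Agent.Helper192_HP.TDefs

namespace HP192
open Finset

variable {V : Type} [Fintype V] [DecidableEq V]

theorem exists_closer (G : SimpleGraph V) (hG : G.Connected) (r v : V) (h : v ≠ r) :
    ∃ w, G.Adj v w ∧ G.dist w r < G.dist v r := by
  obtain ⟨p, hp⟩ := hG.exists_walk_length_eq_dist v r
  cases p with
  | nil => exact absurd rfl h
  | cons hadj q =>
    rename_i w
    refine ⟨w, hadj, ?_⟩
    have h1 := SimpleGraph.dist_le q
    simp only [SimpleGraph.Walk.length_cons] at hp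
    omega

/-- TARGET -/
theorem For_nonempty (G : SimpleGraph V) (hG : G.Connected) (D : Finset V) (hD : D ≠ univ) :
    (For G D).Nonempty := by
  classical
  obtain ⟨r, hr⟩ : ∃ r, r ∉ D := by
    by_contra hcon
    push Not at hcon
    exact hD (Finset.eq_univ_iff_forall.2 hcon)
  have hc : ∀ v, ∃ w, v ∈ D → G.Adj v w ∧ G.dist w r < G.dist v r := by
    intro v
    by_cases hv : v ∈ D
    · obtain ⟨w, hw⟩ := exists_closer G hG r v (fun h => hr (h ▸ hv))
      exact ⟨w, fun _ => hw⟩
    · exact ⟨v, fun h => absurd h hv⟩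
  choose g hg using hc
  let f : V → V := fun v => if v ∈ D then g v else v
  have hf1 : ∀ v, v ∉ D → f v = v := fun v hv => by simp [f, hv]
  have hf2 : ∀ v, v ∈ D → f v = g v := fun v hv => by simp [f, hv]
  refine ⟨f, ?_⟩
  unfold For
  rw [Finset.mem_filter]
  refine ⟨Finset.mem_univ _, hf1, fun v hv => ?_, ?_⟩
  · rw [hf2 v hv]; exact (hg v hv).1
  · have key : ∀ n : ℕ, ∀ v, G.dist v r ≤ n → ∃ k, f^[k] v ∉ D := by
      intro n
      induction n with
      | zero =>
        intro v hv
        by_cases hvD : v ∈ D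
        · have := (hg v hvD).2
          omega
        · exact ⟨0, hvD⟩
      | succ n ih =>
        intro v hv
        by_cases hvD : v ∈ D
        · have h1 := (hg v hvD).2
          obtain ⟨k, hk⟩ := ih (g v) (by omega)
          refine ⟨k + 1, ?_⟩
          rw [Function.iterate_succ_apply, hf2 v hvD]
          exact hk
        · exact ⟨0, hvD⟩
    intro v
    exact key _ v le_rfl

theorem iter_lt_card (D : Finset V) (f : V → V) (v : V) (m : ℕ) (hu : f^[m] v ∉ D)
    (hm : ∀ i < m, f^[i] v ∈ D) : m < Fintype.card V := by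
  by_contra hcon
  push Not at hcon
  have hcard : Fintype.card V < Fintype.card (Fin (m + 1)) := by
    rw [Fintype.card_fin]; omega
  obtain ⟨a, b, hab, hfab⟩ :=
    Fintype.exists_ne_map_eq_of_card_lt (fun i : Fin (m + 1) => f^[(i : ℕ)] v) hcard
  have main : ∀ i j : ℕ, i < j → j ≤ m → f^[i] v = f^[j] v → False := by
    intro i j hij hjm he
    have h1 : f^[(m - j) + i] v = f^[(m - j) + j] v := by
      rw [Function.iterate_add_apply, Function.iterate_add_apply, he]
    rw [Nat.sub_add_cancel hjm] at h1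
    exact hu (h1 ▸ hm _ (by omega))
  have hab' : (a : ℕ) ≠ (b : ℕ) := fun h => hab (Fin.ext h)
  rcases lt_or_gt_of_ne hab' with h | h
  · exact main a b h (by omega) hfab
  · exact main b a h (by omega) hfab.symm

theorem cnt_eq_zero (G : SimpleGraph V) (D : Finset V) (f : V → V) (hf : f ∈ For G D)
    (u : V) (hu : u ∉ D) (m : ℕ) (hm : Fintype.card V ≤ m) : cnt D u m f = 0 := by
  unfold cnt
  rw [Finset.card_eq_zero, Finset.filter_eq_empty_iff]
  rintro v - ⟨h1, h2⟩
  have := iter_lt_card D f v m (by rw [h1]; exact hu) h2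
  omega

theorem sum_cnt (G : SimpleGraph V) (D : Finset V) (f : V → V) (hf : f ∈ For G D) :
    ∑ u ∈ Dᶜ, ∑ m ∈ range (Fintype.card V), cnt D u m f = Fintype.card V := by
  classical
  have hreach : ∀ v, ∃ k, f^[k] v ∉ D := by
    unfold For at hf
    rw [Finset.mem_filter] at hf
    exact hf.2.2.2
  have h1 : ∀ u m, cnt D u m f
      = ∑ v : V, if (f^[m] v = u ∧ ∀ i < m, f^[i] v ∈ D) then 1 else 0 := by
    intro u m
    unfold cnt
    rw [Finset.card_filter]
  have h2 : ∀ v : V, (∑ u ∈ Dᶜ, ∑ m ∈ range (Fintype.card V),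
      if (f^[m] v = u ∧ ∀ i < m, f^[i] v ∈ D) then 1 else 0) = 1 := by
    intro v
    have hspec := Nat.find_spec (hreach v)
    have hmin : ∀ i < Nat.find (hreach v), f^[i] v ∈ D := by
      intro i hi
      have := Nat.find_min (hreach v) hi
      simpa using this
    have hlt := iter_lt_card D f v _ hspec hmin
    rw [Finset.sum_eq_single (f^[Nat.find (hreach v)] v)]
    · rw [Finset.sum_eq_single (Nat.find (hreach v))]
      · rw [if_pos ⟨rfl, hmin⟩]
      · intro m hm hne
        rw [if_neg]
        rintro ⟨ha, hb⟩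
        rcases lt_or_gt_of_ne hne with h | h
        · exact hspec (ha ▸ hmin m h)
        · exact hspec (hb _ h)
      · intro h
        exact absurd (Finset.mem_range.2 hlt) h
    · intro u hu hne
      apply Finset.sum_eq_zero
      intro m hm
      rw [if_neg]
      rintro ⟨ha, hb⟩
      rw [Finset.mem_compl] at hu
      rcases lt_trichotomy m (Nat.find (hreach v)) with h | h | h
      · exact hu (ha ▸ hmin m h)
      · exact hne (by rw [← ha, h])
      · exact hspec (hb _ h)
    · intro h
      exact absurd (Finset.mem_compl.2 hspec) h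
  calc ∑ u ∈ Dᶜ, ∑ m ∈ range (Fintype.card V), cnt D u m f
      = ∑ u ∈ Dᶜ, ∑ m ∈ range (Fintype.card V), ∑ v : V,
          (if (f^[m] v = u ∧ ∀ i < m, f^[i] v ∈ D) then 1 else 0) := by
        apply Finset.sum_congr rfl
        intro u _
        apply Finset.sum_congr rfl
        intro m _
        exact h1 u m
    _ = ∑ v : V, ∑ u ∈ Dᶜ, ∑ m ∈ range (Fintype.card V),
          (if (f^[m] v = u ∧ ∀ i < m, f^[i] v ∈ D) then 1 else 0) := by
        rw [Finset.sum_comm (s := univ) (t := Dᶜ)]
        apply Finset.sum_congr rfl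
        intro u _
        rw [Finset.sum_comm]
    _ = ∑ v : V, 1 := Finset.sum_congr rfl (fun v _ => h2 v)
    _ = Fintype.card V := by simp

theorem sum_Bm (G : SimpleGraph V) (hG : G.Connected) (D : Finset V) (hD : D ≠ univ) :
    ∑ u ∈ Dᶜ, Bm G D u = (Fintype.card V : ℝ) := by
  have hne := For_nonempty G hG D hD
  have hpos : (0 : ℝ) < ((For G D).card : ℝ) := by exact_mod_cast hne.card_pos
  unfold Bm Am avF
  have e1 : ∑ u ∈ Dᶜ, ∑ m ∈ range (Fintype.card V),
      (∑ f ∈ For G D, ((cnt D u m f : ℕ) : ℝ)) / ((For G D).card : ℝ)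
      = (∑ f ∈ For G D, ((∑ u ∈ Dᶜ, ∑ m ∈ range (Fintype.card V), cnt D u m f : ℕ) : ℝ))
        / ((For G D).card : ℝ) := by
    push_cast
    rw [Finset.sum_comm (s := For G D) (t := Dᶜ), Finset.sum_div]
    apply Finset.sum_congr rfl
    intro u _
    rw [Finset.sum_comm (s := For G D) (t := range (Fintype.card V)), Finset.sum_div]
  rw [e1, Finset.sum_congr rfl (fun f hf => by rw [sum_cnt G D f hf]), Finset.sum_const,
    nsmul_eq_mul]
  field_simp

end HP192
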