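import Mathlib
import Pool.Agent.Helper192_HP.TDefs
import Pool.Agent.Helper192_HP.T01
import Pool.Agent.Helper192_HP.T02

namespace HP192
open Finset

variable {V : Type} [Fintype V] [DecidableEq V]

namespace X06

open Classical in
/-- the neighbour of `v` that is closer to `o` (and `v` itself if there is none) -/
noncomputable def par (o : V) (T : SimpleGraph V) (v : V) : V :=
  if h : ∃ w, T.Adj v w ∧ T.dist o v = T.dist o w + 1 then h.choose else v

/-- the graph of a pointer function -/
def TT (f : V → V) : SimpleGraph V := SimpleGraph.fromRel fun v w => f v = w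

theorem TT_adj (f : V → V) (v w : V) : (TT f).Adj v w ↔ v ≠ w ∧ (f v = w ∨ f w = v) := by
  unfold TT
  rw [SimpleGraph.fromRel_adj]

theorem par_unique (o : V) (T : SimpleGraph V) (hT : T.IsTree) (v w w' : V)
    (h : T.Adj v w) (hd : T.dist o v = T.dist o w + 1)
    (h' : T.Adj v w') (hd' : T.dist o v = T.dist o w' + 1) : w = w' := by
  obtain ⟨q, hq, hql⟩ := hT.connected.exists_path_of_dist o w
  obtain ⟨q', hq', hql'⟩ := hT.connected.exists_path_of_dist o w'
  have h1 : (q.concat h.symm).IsPath := by
    apply SimpleGraph.Walk.isPath_of_length_eq_dist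
    rw [SimpleGraph.Walk.length_concat, hql, hd]
  have h2 : (q'.concat h'.symm).IsPath := by
    apply SimpleGraph.Walk.isPath_of_length_eq_dist
    rw [SimpleGraph.Walk.length_concat, hql', hd']
  have h3 := (hT.existsUnique_path o v).unique h1 h2
  have h4 := congrArg SimpleGraph.Walk.penultimate h3
  simpa using h4

theorem par_spec (o : V) (T : SimpleGraph V) (hT : T.IsTree) (v : V) (hv : v ≠ o) :
    T.Adj v (par o T v) ∧ T.dist o v = T.dist o (par o T v) + 1 := by
  have hex : ∃ w, T.Adj v w ∧ T.dist o v = T.dist o w + 1 := by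
    obtain ⟨p, hp⟩ := hT.connected.exists_walk_length_eq_dist v o
    cases p with
    | nil => exact absurd rfl hv
    | @cons _ w _ h p' =>
      refine ⟨w, h, ?_⟩
      rw [SimpleGraph.Walk.length_cons] at hp
      have h1 : T.dist w o ≤ p'.length := SimpleGraph.dist_le p'
      rw [SimpleGraph.dist_comm] at h1 hp
      rcases hT.dist_eq_dist_add_one_of_adj o h with h2 | h2 <;> omega
  unfold par
  rw [dif_pos hex]
  exact hex.choose_spec

theorem par_eq (o : V) (T : SimpleGraph V) (hT : T.IsTree) (v w : V) (hv : v ≠ o)
    (h : T.Adj v w) (hd : T.dist o v = T.dist o w + 1) : par o T v = w :=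
  par_unique o T hT v _ _ (par_spec o T hT v hv).1 (par_spec o T hT v hv).2 h hd

theorem par_root (o : V) (T : SimpleGraph V) : par o T o = o := by
  unfold par
  rw [dif_neg]
  rintro ⟨w, -, h⟩
  rw [SimpleGraph.dist_self] at h
  omega

theorem dist_iter (o : V) (T : SimpleGraph V) (hT : T.IsTree) (v : V) :
    ∀ k, k ≤ T.dist o v → T.dist o ((par o T)^[k] v) = T.dist o v - k := by
  intro k
  induction k with
  | zero => intro _; simp
  | succ k ih =>
    intro hk
    have h1 := ih (by omega)
    rw [Function.iterate_succ_apply']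
    have hne : (par o T)^[k] v ≠ o := by
      intro h
      rw [h, SimpleGraph.dist_self] at h1
      omega
    have h2 := (par_spec o T hT _ hne).2
    omega

theorem iter_dist (o : V) (T : SimpleGraph V) (hT : T.IsTree) (v : V) :
    (par o T)^[T.dist o v] v = o := by
  have h := dist_iter o T hT v (T.dist o v) le_rfl
  rw [Nat.sub_self, hT.connected.dist_eq_zero_iff] at h
  exact h.symm

theorem mem_For (G : SimpleGraph V) (D : Finset V) (f : V → V) : f ∈ For G D ↔
    (∀ v, v ∉ D → f v = v) ∧ (∀ v ∈ D, G.Adj v (f v)) ∧ ∀ v, ∃ k, f^[k] v ∉ D := by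
  classical
  simp only [For, mem_filter, mem_univ, true_and]

theorem par_mem (G : SimpleGraph V) (o : V) (T : SimpleGraph V) (hT : T.IsTree) (hTG : T ≤ G) :
    par o T ∈ For G (univ.erase o) := by
  rw [mem_For]
  refine ⟨?_, ?_, ?_⟩
  · intro v hv
    have : v = o := by simpa using hv
    rw [this, par_root]
  · intro v hv
    exact hTG (par_spec o T hT v (by simpa using hv)).1
  · intro v
    exact ⟨T.dist o v, by simp [iter_dist o T hT v]⟩

theorem ht_par (G : SimpleGraph V) (o : V) (T : SimpleGraph V) (hT : T.IsTree) (hTG : T ≤ G)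
    (v : V) : ht o (par o T) v = T.dist o v := by
  have hmem := par_mem G o T hT hTG
  rcases lt_trichotomy (ht o (par o T) v) (T.dist o v) with h | h | h
  · exfalso
    have h1 := dist_iter o T hT v _ h.le
    rw [iter_ht G o _ hmem v, SimpleGraph.dist_self] at h1
    omega
  · exact h
  · exact absurd (iter_dist o T hT v) (iter_lt o _ v _ h)

section fwd

variable (G : SimpleGraph V) (o : V) (f : V → V) (hf : f ∈ For G (univ.erase o))

include hf

theorem f_root : f o = o := by
  rw [mem_For] at hf
  exact hf.1 o (by simp)

theorem f_adj (v : V) (hv : v ≠ o) : G.Adj v (f v) := by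
  rw [mem_For] at hf
  exact hf.2.1 v (by simpa using hv)

theorem ht_pos (v : V) (hv : v ≠ o) : 1 ≤ ht o f v := by
  by_contra h
  have h0 : ht o f v = 0 := by omega
  have h1 := iter_ht G o f hf v
  rw [h0] at h1
  exact hv h1

theorem ht_succ (v : V) (hv : v ≠ o) : ht o f v = ht o f (f v) + 1 := by
  have h1 := ht_pos G o f hf v hv
  have h2 := ht_iter G o f hf v 1 h1
  simp only [Function.iterate_one] at h2
  omega

theorem TT_le : TT f ≤ G := by
  intro v w h
  rw [TT_adj] at h
  obtain ⟨hne, h | h⟩ := h
  · have hv : v ≠ o := by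
      rintro rfl
      rw [f_root G v f hf] at h
      exact hne h
    rw [← h]
    exact f_adj G o f hf v hv
  · have hw : w ≠ o := by
      rintro rfl
      rw [f_root G w f hf] at h
      exact hne h.symm
    rw [← h]
    exact (f_adj G o f hf w hw).symm

theorem f_ne (v : V) (hv : v ≠ o) : v ≠ f v := (f_adj G o f hf v hv).ne

theorem TT_adj_f (v : V) (hv : v ≠ o) : (TT f).Adj v (f v) := by
  rw [TT_adj]
  exact ⟨f_ne G o f hf v hv, Or.inl rfl⟩

theorem TT_walk : ∀ n v, ht o f v = n → ∃ p : (TT f).Walk v o, p.length = n := by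
  intro n
  induction n with
  | zero =>
    intro v hv
    have h1 := iter_ht G o f hf v
    rw [hv] at h1
    simp only [Function.iterate_zero, id_eq] at h1
    subst h1
    exact ⟨SimpleGraph.Walk.nil, rfl⟩
  | succ n ih =>
    intro v hv
    have hne : v ≠ o := by
      rintro rfl
      rw [ht_root G v f hf] at hv
      omega
    obtain ⟨p, hp⟩ := ih (f v) (by have := ht_succ G o f hf v hne; omega)
    exact ⟨SimpleGraph.Walk.cons (TT_adj_f G o f hf v hne) p, by simp [hp]⟩

theorem TT_connected : (TT f).Connected := by
  have : Nonempty V := ⟨o⟩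
  refine SimpleGraph.Connected.mk ?_
  intro v w
  obtain ⟨p, _⟩ := TT_walk G o f hf _ v rfl
  obtain ⟨q, _⟩ := TT_walk G o f hf _ w rfl
  exact ⟨p.append q.reverse⟩

theorem TT_isTree : (TT f).IsTree := by
  have hc := TT_connected G o f hf
  rw [SimpleGraph.isTree_iff_connected_and_card]
  refine ⟨hc, le_antisymm ?_ hc.card_vert_le_card_edgeSet_add_one⟩
  have h1 : (TT f).edgeSet ⊆ (fun v => s(v, f v)) '' ((univ.erase o : Finset V) : Set V) := by
    intro e he
    induction e using Sym2.ind with
    | _ v w =>
      rw [SimpleGraph.mem_edgeSet, TT_adj] at he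
      obtain ⟨hne, h | h⟩ := he
      · refine ⟨v, ?_, by simp [h]⟩
        have : v ≠ o := by
          rintro rfl
          rw [f_root G v f hf] at h
          exact hne h
        simpa using this
      · refine ⟨w, ?_, by simp [h, Sym2.eq_swap]⟩
        have : w ≠ o := by
          rintro rfl
          rw [f_root G w f hf] at h
          exact hne h.symm
        simpa using this
  have h2 : Nat.card (TT f).edgeSet ≤ (univ.erase o : Finset V).card := by
    rw [← Set.ncard_coe_finset (univ.erase o), Nat.card_coe_set_eq]
    exact (Set.ncard_le_ncard h1 (Set.toFinite _)).trans (Set.ncard_image_le (Set.toFinite _))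
  rw [card_erase_of_mem (mem_univ o), card_univ, ← Nat.card_eq_fintype_card] at h2
  have h3 : 0 < Nat.card V := by
    have : Nonempty V := ⟨o⟩
    exact Nat.card_pos
  omega

theorem ht_le_walk : ∀ {v w : V} (p : (TT f).Walk v w), ht o f v ≤ ht o f w + p.length := by
  intro v w p
  induction p with
  | nil => simp
  | @cons a b c h p ih =>
    rw [SimpleGraph.Walk.length_cons]
    have h1 : ht o f a ≤ ht o f b + 1 := by
      rw [TT_adj] at h
      obtain ⟨hne, h | h⟩ := h
      · have ha : a ≠ o := by
          rintro rfl
          rw [f_root G a f hf] at h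
          exact hne h
        have := ht_succ G o f hf a ha
        rw [h] at this
        omega
      · have hb : b ≠ o := by
          rintro rfl
          rw [f_root G b f hf] at h
          exact hne h.symm
        have := ht_succ G o f hf b hb
        rw [h] at this
        omega
    omega

theorem TT_dist (v : V) : (TT f).dist o v = ht o f v := by
  rw [SimpleGraph.dist_comm]
  apply le_antisymm
  · obtain ⟨p, hp⟩ := TT_walk G o f hf _ v rfl
    rw [← hp]
    exact SimpleGraph.dist_le p
  · obtain ⟨p, hp⟩ := (TT_connected G o f hf).exists_walk_length_eq_dist v o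
    have := ht_le_walk G o f hf p
    rw [ht_root G o f hf] at this
    omega

theorem par_TT : par o (TT f) = f := by
  funext v
  by_cases hv : v = o
  · subst hv
    rw [par_root, f_root G v f hf]
  · apply par_eq o (TT f) (TT_isTree G o f hf) v (f v) hv (TT_adj_f G o f hf v hv)
    rw [TT_dist G o f hf, TT_dist G o f hf]
    exact ht_succ G o f hf v hv

end fwd

theorem TT_par (o : V) (T : SimpleGraph V) (hT : T.IsTree) : TT (par o T) = T := by
  ext v w
  rw [TT_adj]
  constructor
  · rintro ⟨hne, h | h⟩
    · have hv : v ≠ o := by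
        rintro rfl
        rw [par_root] at h
        exact hne h
      rw [← h]
      exact (par_spec o T hT v hv).1
    · have hw : w ≠ o := by
        rintro rfl
        rw [par_root] at h
        exact hne h.symm
      rw [← h]
      exact (par_spec o T hT w hw).1.symm
  · intro h
    refine ⟨h.ne, ?_⟩
    rcases hT.dist_eq_dist_add_one_of_adj o h with h1 | h1
    · left
      refine par_eq o T hT v w ?_ h h1
      rintro rfl
      rw [SimpleGraph.dist_self] at h1
      omega
    · right
      refine par_eq o T hT w v ?_ h.symm h1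
      rintro rfl
      rw [SimpleGraph.dist_self] at h1
      omega

end X06

open Classical in
/-- TARGET -/
theorem tree_link {V : Type} [Fintype V] [DecidableEq V] (G : SimpleGraph V) (o : V)
    (Φ : (V → ℕ) → ℝ) :
    ∑ T ∈ (univ : Finset (SimpleGraph V)).filter (fun T => T ≤ G ∧ T.IsTree),
        Φ (fun v => T.dist o v)
      = ∑ f ∈ For G (univ.erase o), Φ (fun v => ht o f v) := by
  refine Finset.sum_nbij' (fun T => X06.par o T) (fun f => X06.TT f) ?_ ?_ ?_ ?_ ?_
  · intro T hT
    rw [mem_filter] at hT
    exact X06.par_mem G o T hT.2.2 hT.2.1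
  · intro f hf
    rw [mem_filter]
    exact ⟨mem_univ _, X06.TT_le G o f hf, X06.TT_isTree G o f hf⟩
  · intro T hT
    rw [mem_filter] at hT
    exact X06.TT_par o T hT.2.2
  · intro f hf
    exact X06.par_TT G o f hf
  · intro T hT
    rw [mem_filter] at hT
    congr 1
    funext v
    exact (X06.ht_par G o T hT.2.2 hT.2.1 v).symm

end HP192
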