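import Mathlib
import Pool.Agent.Helper192_HP.FDefs

namespace HP192
open Finset

section
open MeasureTheory Filter Topology

open Classical in
/-- volume profile of the rescaled tree -/
noncomputable def Vp {V : Type} [Fintype V] (o : V) (T : SimpleGraph V) (c ρ : ℝ) : ℝ :=
  ((univ.filter (fun v => (T.dist o v : ℝ) / c ≤ ρ)).card : ℝ) / (Fintype.card V : ℝ)

end


end HP192
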