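import Mathlib
import Pool.Agent.Helper192_HP.Defs
import Pool.Agent.Helper192_HP.FDefs

namespace HP192
open Finset

-- TARGET
section
open MeasureTheory Filter Topology

theorem De_cont_aux : Continuous (fun p : C(unitInterval, ℝ) × unitInterval => de p.1 0 p.2) := by
  have hinf : ∀ (e : C(unitInterval, ℝ)) (t : unitInterval),
      (⨅ u : Set.uIcc (0 : unitInterval) t, e u)
        = sInf ((fun v : unitInterval => e (min v t)) '' Set.univ) := by
    intro e t
    rw [← sInf_range]
    congr 1
    ext y
    constructor
    · rintro ⟨⟨u, hu⟩, rfl⟩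
      rw [Set.uIcc_of_le unitInterval.nonneg'] at hu
      exact ⟨u, Set.mem_univ _, by simp only [min_eq_left hu.2]⟩
    · rintro ⟨v, -, rfl⟩
      refine ⟨⟨min v t, ?_⟩, rfl⟩
      rw [Set.uIcc_of_le unitInterval.nonneg']
      exact ⟨unitInterval.nonneg', min_le_right _ _⟩
  unfold de
  simp only [hinf]
  have h1 : Continuous (fun p : C(unitInterval, ℝ) × unitInterval =>
      sInf ((fun v : unitInterval => p.1 (min v p.2)) '' Set.univ)) := by
    apply IsCompact.continuous_sInf (f := fun (p : C(unitInterval, ℝ) × unitInterval)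
      (v : unitInterval) => p.1 (min v p.2)) isCompact_univ
    show Continuous (fun x : (C(unitInterval, ℝ) × unitInterval) × unitInterval =>
      x.1.1 (min x.2 x.1.2))
    fun_prop
  fun_prop

theorem De_measurable (r : ℝ) : Measurable (fun e : C(unitInterval, ℝ) => De e r) := by
  have : BorelSpace C(unitInterval, ℝ) := ⟨rfl⟩
  have hcl : IsClosed {p : C(unitInterval, ℝ) × unitInterval | de p.1 0 p.2 ≤ r} :=
    isClosed_le De_cont_aux continuous_const
  have hm : MeasurableSet {p : C(unitInterval, ℝ) × unitInterval | de p.1 0 p.2 ≤ r} :=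
    hcl.measurableSet
  have h := measurable_measure_prodMk_left (ν := (volume : Measure unitInterval)) hm
  exact h.ennreal_toReal

theorem De_mono (e : C(unitInterval, ℝ)) (r r' : ℝ) (h : r ≤ r') : De e r ≤ De e r' := by
  unfold De
  apply measureReal_mono
  · intro t ht
    exact le_trans ht h
  · exact measure_ne_top _ _

theorem De_nonneg (e : C(unitInterval, ℝ)) (r : ℝ) : 0 ≤ De e r := measureReal_nonneg

theorem De_le_one (e : C(unitInterval, ℝ)) (r : ℝ) : De e r ≤ 1 := measureReal_le_one

end

end HP192
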