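import Mathlib
import Pool.Agent.Helper192_HP.Defs
import Pool.Agent.Helper192_HP.FDefs

namespace HP192
open Finset

-- TARGET
section
open MeasureTheory Filter Topology

open Classical in
theorem ghp_vol {V : Type} [Fintype V] [DecidableEq V] (o : V) (ds : V → V → ℝ)
    (e : C(unitInterval, ℝ)) (ε : ℝ) (hε : 0 ≤ ε) (h : GHPclose o ds e ε) (ρ : ℝ) :
    De e (ρ - 2 * ε) - ε
        ≤ ((univ.filter (fun v => ds o v ≤ ρ)).card : ℝ) / (Fintype.card V : ℝ) ∧
      ((univ.filter (fun v => ds o v ≤ ρ)).card : ℝ) / (Fintype.card V : ℝ)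
        ≤ De e (ρ + 2 * ε) + ε := by
  obtain ⟨R, q, -, -, hoR, hdist, hmass, hsum, hout⟩ := h
  have hclose : ∀ v t, (v, t) ∈ R → |ds o v - de e 0 t| ≤ 2 * ε := fun v t hvt =>
    hdist (o, 0) hoR (v, t) hvt
  set A : Finset V := univ.filter (fun v => ds o v ≤ ρ) with hA
  have hN : (Fintype.card V : ENNReal) ≠ 0 := by
    have : 0 < Fintype.card V := Fintype.card_pos_iff.2 ⟨o⟩
    exact_mod_cast this.ne'
  have hsumS : ∀ S : Set unitInterval, ∑ v, q v S = volume S := fun S => by
    rw [← hsum, Measure.finsetSum_apply]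
  have hcard : ∑ v ∈ A, q v Set.univ = (A.card : ENNReal) * (Fintype.card V : ENNReal)⁻¹ := by
    rw [Finset.sum_congr rfl (fun v _ => hmass v), Finset.sum_const, nsmul_eq_mul]
  have hreal : ((A.card : ENNReal) * (Fintype.card V : ENNReal)⁻¹).toReal =
      (A.card : ℝ) / (Fintype.card V : ℝ) := by
    rw [ENNReal.toReal_mul, ENNReal.toReal_inv, ENNReal.toReal_natCast, ENNReal.toReal_natCast,
      div_eq_mul_inv]
  have hfin : (A.card : ENNReal) * (Fintype.card V : ENNReal)⁻¹ ≠ ⊤ :=
    ENNReal.mul_ne_top (ENNReal.natCast_ne_top _) (ENNReal.inv_ne_top.2 hN)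
  constructor
  · have h1 : volume {t : unitInterval | de e 0 t ≤ ρ - 2 * ε} ≤
        (A.card : ENNReal) * (Fintype.card V : ENNReal)⁻¹ + ENNReal.ofReal ε := by
      rw [← hsumS, ← hcard]
      calc ∑ v, q v {t : unitInterval | de e 0 t ≤ ρ - 2 * ε}
          ≤ ∑ v, ((if v ∈ A then q v Set.univ else 0) + q v {t | (v, t) ∉ R}) := by
            refine Finset.sum_le_sum fun v _ => ?_
            by_cases hv : v ∈ A
            · rw [if_pos hv]
              exact (measure_mono (Set.subset_univ _)).trans le_self_add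
            · rw [if_neg hv, zero_add]
              refine measure_mono fun t ht hR => hv ?_
              have hc := abs_le.1 (hclose v t hR)
              simp only [Set.mem_ofPred_eq] at ht
              rw [hA, Finset.mem_filter]
              exact ⟨Finset.mem_univ _, by linarith [hc.2]⟩
        _ = ∑ v ∈ A, q v Set.univ + ∑ v, q v {t | (v, t) ∉ R} := by
            rw [Finset.sum_add_distrib, ← Finset.sum_filter]
            congr 1
            refine Finset.sum_congr ?_ fun _ _ => rfl
            ext v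
            simp
        _ ≤ _ := by gcongr
    have h2 := ENNReal.toReal_mono (ENNReal.add_ne_top.2 ⟨hfin, ENNReal.ofReal_ne_top⟩) h1
    rw [ENNReal.toReal_add hfin ENNReal.ofReal_ne_top, hreal, ENNReal.toReal_ofReal hε] at h2
    rw [De, Measure.real]
    linarith
  · have h1 : (A.card : ENNReal) * (Fintype.card V : ENNReal)⁻¹ ≤
        volume {t : unitInterval | de e 0 t ≤ ρ + 2 * ε} + ENNReal.ofReal ε := by
      rw [← hsumS, ← hcard]
      calc ∑ v ∈ A, q v Set.univ
          ≤ ∑ v ∈ A, (q v {t : unitInterval | de e 0 t ≤ ρ + 2 * ε} + q v {t | (v, t) ∉ R}) := by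
            refine Finset.sum_le_sum fun v hv => ?_
            refine (measure_mono (fun t _ => ?_)).trans (measure_union_le _ _)
            by_cases hR : (v, t) ∈ R
            · left
              have hc := abs_le.1 (hclose v t hR)
              rw [hA, Finset.mem_filter] at hv
              simp only [Set.mem_ofPred_eq]
              linarith [hc.1, hv.2]
            · right
              exact hR
        _ ≤ ∑ v, (q v {t : unitInterval | de e 0 t ≤ ρ + 2 * ε} + q v {t | (v, t) ∉ R}) :=
            Finset.sum_le_sum_of_subset (Finset.subset_univ _)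
        _ = ∑ v, q v {t : unitInterval | de e 0 t ≤ ρ + 2 * ε} + ∑ v, q v {t | (v, t) ∉ R} :=
            Finset.sum_add_distrib
        _ ≤ _ := by gcongr
    have hvf : volume {t : unitInterval | de e 0 t ≤ ρ + 2 * ε} ≠ ⊤ := measure_ne_top _ _
    have h2 := ENNReal.toReal_mono (ENNReal.add_ne_top.2 ⟨hvf, ENNReal.ofReal_ne_top⟩) h1
    rw [ENNReal.toReal_add hvf ENNReal.ofReal_ne_top, hreal, ENNReal.toReal_ofReal hε] at h2
    rw [De, Measure.real]
    exact h2

end

end HP192
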