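import Mathlib
import Pool.Agent.Helper192_HP.Defs
import Pool.Agent.Helper192_HP.FDefs
import Pool.Agent.Helper192_HP.VpDef
import Pool.Agent.Helper192_HP.Y06
import Pool.Agent.Helper192_HP.Y07

namespace HP192
open Finset

section
open MeasureTheory Filter Topology

theorem vc_cont {m : ℕ} (F : (Fin m → ℝ) → ℝ) (L : ℝ)
    (hFL : ∀ x y, |F x - F y| ≤ L * ∑ i, |x i - y i|) (hL : 0 ≤ L) : Continuous F := by
  have h : LipschitzWith (Real.toNNReal (L * m)) F := by
    refine LipschitzWith.of_dist_le_mul fun x y => ?_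
    rw [Real.coe_toNNReal _ (by positivity), Real.dist_eq]
    refine (hFL x y).trans ?_
    have h1 : ∑ i, |x i - y i| ≤ m * dist x y := by
      calc ∑ i, |x i - y i| ≤ ∑ _i : Fin m, dist x y :=
            Finset.sum_le_sum fun i _ => by
              have := dist_le_pi_dist x y i
              rwa [Real.dist_eq] at this
        _ = m * dist x y := by
            rw [Finset.sum_const, Finset.card_univ, Fintype.card_fin, nsmul_eq_mul]
    calc L * ∑ i, |x i - y i| ≤ L * (m * dist x y) := mul_le_mul_of_nonneg_left h1 hL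
      _ = L * m * dist x y := by ring
  exact h.continuous

theorem vc_pt {V : Type} [Fintype V] [DecidableEq V] (T : SimpleGraph V) (O : V) (c ε : ℝ)
    (hε : 0 < ε) (f : C(unitInterval, ℝ))
    (hf : GHPclose O (fun v w => (T.dist v w : ℝ) / c) f ε) (ρ : ℝ) :
    |Vp O T c ρ - De f ρ| ≤ De f (ρ + 2 * ε) - De f (ρ - 2 * ε) + ε := by
  obtain ⟨h1, h2⟩ := ghp_vol O (fun v w => (T.dist v w : ℝ) / c) f ε hε.le hf ρ
  have h1' : De f (ρ - 2 * ε) - ε ≤ Vp O T c ρ := h1
  have h2' : Vp O T c ρ ≤ De f (ρ + 2 * ε) + ε := h2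
  have h3 := De_mono f (ρ - 2 * ε) ρ (by linarith)
  have h4 := De_mono f ρ (ρ + 2 * ε) (by linarith)
  rw [abs_le]
  constructor <;> linarith

theorem vc_one {V : Type} [Fintype V] [DecidableEq V] (G : SimpleGraph V) (O : V) (c : ℝ)
    (μ : Measure C(unitInterval, ℝ)) [IsProbabilityMeasure μ] (ε : ℝ) (hε : 0 < ε)
    (Q : SimpleGraph V → Measure C(unitInterval, ℝ))
    (hQ1 : ∀ T ∈ sTrees G, Q T Set.univ = ((sTrees G).card : ENNReal)⁻¹)
    (hQ2 : ∑ T ∈ sTrees G, Q T = μ)
    (hQ3 : ∑ T ∈ sTrees G, Q T {f | ¬ GHPclose O (fun v w => (T.dist v w : ℝ) / c) f ε} ≤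
      ENNReal.ofReal ε)
    (m : ℕ) (ρ : Fin m → ℝ) (F : (Fin m → ℝ) → ℝ) (C L : ℝ) (hL : 0 ≤ L) (hC : 0 ≤ C)
    (hFb : ∀ x, |F x| ≤ C) (hFL : ∀ x y, |F x - F y| ≤ L * ∑ i, |x i - y i|) :
    |avT G (fun T => F (fun i => Vp O T c (ρ i))) - ∫ f, F (fun i => De f (ρ i)) ∂μ| ≤
      (∫ f, L * ∑ i, (De f (ρ i + 2 * ε) - De f (ρ i - 2 * ε) + ε) ∂μ) + 2 * C * ε := by
  classical
  have hFc := vc_cont F L hFL hL
  obtain ⟨D, hD⟩ : ∃ D : C(unitInterval, ℝ) → ℝ, D = fun f => F (fun i => De f (ρ i)) := ⟨_, rfl⟩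
  have hDm : Measurable D := by
    rw [hD]
    exact hFc.measurable.comp (measurable_pi_lambda _ fun i => De_measurable (ρ i))
  have hDb : ∀ f, |D f| ≤ C := fun f => by rw [hD]; exact hFb _
  obtain ⟨h, hh⟩ : ∃ h : C(unitInterval, ℝ) → ℝ, h = fun f =>
    L * ∑ i, (De f (ρ i + 2 * ε) - De f (ρ i - 2 * ε) + ε) := ⟨_, rfl⟩
  have hhm : Measurable h := by
    rw [hh]
    refine Measurable.const_mul ?_ L
    exact Finset.measurable_fun_sum _ fun i _ =>
      ((De_measurable _).sub (De_measurable _)).add_const ε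
  have hh0 : ∀ f, 0 ≤ h f := by
    intro f
    rw [hh]
    refine mul_nonneg hL (Finset.sum_nonneg fun i _ => ?_)
    have := De_mono f (ρ i - 2 * ε) (ρ i + 2 * ε) (by linarith)
    linarith
  have hhb : ∀ f, h f ≤ L * (m * (1 + ε)) := by
    intro f
    rw [hh]
    refine mul_le_mul_of_nonneg_left ?_ hL
    calc ∑ i, (De f (ρ i + 2 * ε) - De f (ρ i - 2 * ε) + ε) ≤ ∑ _i : Fin m, (1 + ε) :=
          Finset.sum_le_sum fun i _ => by
            have h1 := De_le_one f (ρ i + 2 * ε)
            have h2 := De_nonneg f (ρ i - 2 * ε)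
            linarith
      _ = m * (1 + ε) := by
          rw [Finset.sum_const, Finset.card_univ, Fintype.card_fin, nsmul_eq_mul]
  obtain ⟨S, hS⟩ : ∃ S, S = sTrees G := ⟨_, rfl⟩
  rw [← hS] at hQ1 hQ2 hQ3
  have hne : S.Nonempty := by
    rw [Finset.nonempty_iff_ne_empty]
    intro h0
    rw [h0, Finset.sum_empty] at hQ2
    have h1 : μ Set.univ = 1 := measure_univ
    rw [← hQ2] at h1
    simp at h1
  have hcard : 0 < S.card := Finset.card_pos.2 hne
  have hcardR : (0 : ℝ) < S.card := by exact_mod_cast hcard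
  have hfin : ∀ T ∈ S, IsFiniteMeasure (Q T) := by
    intro T hT
    refine ⟨?_⟩
    rw [hQ1 T hT]
    exact ENNReal.inv_lt_top.2 (by exact_mod_cast hcard)
  have hreal : ∀ T ∈ S, (Q T).real Set.univ = (S.card : ℝ)⁻¹ := by
    intro T hT
    rw [Measure.real, hQ1 T hT, ENNReal.toReal_inv, ENNReal.toReal_natCast]
  have hDi : ∀ T ∈ S, Integrable D (Q T) := by
    intro T hT
    have := hfin T hT
    exact Integrable.of_bound hDm.aestronglyMeasurable C
      (Filter.Eventually.of_forall fun f => by rw [Real.norm_eq_abs]; exact hDb f)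
  have hhi : ∀ T ∈ S, Integrable h (Q T) := by
    intro T hT
    have := hfin T hT
    exact Integrable.of_bound hhm.aestronglyMeasurable (L * (m * (1 + ε)))
      (Filter.Eventually.of_forall fun f => by
        rw [Real.norm_eq_abs, abs_of_nonneg (hh0 f)]; exact hhb f)
  have e1 : ∫ f, D f ∂μ = ∑ T ∈ S, ∫ f, D f ∂(Q T) := by
    rw [← hQ2]
    exact integral_finset_sum_measure hDi
  have e2 : ∫ f, h f ∂μ = ∑ T ∈ S, ∫ f, h f ∂(Q T) := by
    rw [← hQ2]
    exact integral_finset_sum_measure hhi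
  have e3 : avT G (fun T => F (fun i => Vp O T c (ρ i))) =
      ∑ T ∈ S, ∫ _f, F (fun i => Vp O T c (ρ i)) ∂(Q T) := by
    unfold avT
    rw [← hS, Finset.sum_div]
    refine Finset.sum_congr rfl fun T hT => ?_
    rw [integral_const, hreal T hT, smul_eq_mul, div_eq_inv_mul]
  have hD' : (∫ f, F (fun i => De f (ρ i)) ∂μ) = ∫ f, D f ∂μ := by rw [hD]
  have hh' : (∫ f, L * ∑ i, (De f (ρ i + 2 * ε) - De f (ρ i - 2 * ε) + ε) ∂μ) = ∫ f, h f ∂μ := by
    rw [hh]
  rw [hD', hh', e1, e2, e3, ← Finset.sum_sub_distrib]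
  refine (Finset.abs_sum_le_sum_abs _ _).trans ?_
  obtain ⟨bad, hbad⟩ : ∃ bad : SimpleGraph V → Set C(unitInterval, ℝ), bad = fun T =>
    toMeasurable (Q T) {f | ¬ GHPclose O (fun v w => (T.dist v w : ℝ) / c) f ε} := ⟨_, rfl⟩
  have hbm : ∀ T, MeasurableSet (bad T) := fun T => by rw [hbad]; exact measurableSet_toMeasurable _ _
  have hbmeas : ∀ T, Q T (bad T) = Q T {f | ¬ GHPclose O (fun v w => (T.dist v w : ℝ) / c) f ε} :=
    fun T => by rw [hbad]; exact measure_toMeasurable _
  have hbg : ∀ T f, f ∉ bad T → GHPclose O (fun v w => (T.dist v w : ℝ) / c) f ε := by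
    intro T f hf
    by_contra hcon
    apply hf
    rw [hbad]
    exact subset_toMeasurable _ _ hcon
  have hterm : ∀ T ∈ S, |∫ _f, F (fun i => Vp O T c (ρ i)) ∂(Q T) - ∫ f, D f ∂(Q T)| ≤
      ∫ f, h f ∂(Q T) + 2 * C * (Q T).real (bad T) := by
    intro T hT
    have := hfin T hT
    rw [← integral_sub (integrable_const _) (hDi T hT)]
    refine (abs_integral_le_integral_abs).trans ?_
    have hi2 : Integrable ((bad T).indicator (fun _ => 2 * C)) (Q T) :=
      (integrable_const _).indicator (hbm T)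
    have hle : ∫ f, |F (fun i => Vp O T c (ρ i)) - D f| ∂(Q T) ≤
        ∫ f, (h f + (bad T).indicator (fun _ => 2 * C) f) ∂(Q T) := by
      refine integral_mono_of_nonneg (Filter.Eventually.of_forall fun f => abs_nonneg _)
        ((hhi T hT).add hi2) (Filter.Eventually.of_forall fun f => ?_)
      show |F (fun i => Vp O T c (ρ i)) - D f| ≤ h f + (bad T).indicator (fun _ => 2 * C) f
      by_cases hf : f ∈ bad T
      · rw [Set.indicator_of_mem hf]
        have h1 := hFb (fun i => Vp O T c (ρ i))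
        have h2 := hDb f
        have h3 := hh0 f
        have h4 := abs_sub (F (fun i => Vp O T c (ρ i))) (D f)
        linarith
      · rw [Set.indicator_of_notMem hf, add_zero]
        rw [hD, hh]
        refine (hFL _ _).trans ?_
        exact mul_le_mul_of_nonneg_left (Finset.sum_le_sum fun i _ =>
          vc_pt T O c ε hε f (hbg T f hf) (ρ i)) hL
    refine hle.trans (le_of_eq ?_)
    rw [integral_add (hhi T hT) hi2, integral_indicator (hbm T), setIntegral_const, smul_eq_mul]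
    ring
  refine (Finset.sum_le_sum hterm).trans ?_
  rw [Finset.sum_add_distrib, ← Finset.mul_sum]
  have hsum : ∑ T ∈ S, (Q T).real (bad T) ≤ ε := by
    have h1 : ∑ T ∈ S, (Q T).real (bad T) = (∑ T ∈ S, Q T (bad T)).toReal := by
      rw [ENNReal.toReal_sum]
      · rfl
      · intro T hT
        have := hfin T hT
        exact measure_ne_top _ _
    rw [h1]
    have h2 : ∑ T ∈ S, Q T (bad T) ≤ ENNReal.ofReal ε := by
      simp only [hbmeas]
      exact hQ3
    exact ENNReal.toReal_le_of_le_ofReal hε.le h2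
  have := mul_le_mul_of_nonneg_left hsum (by positivity : (0 : ℝ) ≤ 2 * C)
  linarith

end

-- TARGET
section
open MeasureTheory Filter Topology

theorem vol_conv {V : ℕ → Type} [∀ n, Fintype (V n)] [∀ n, DecidableEq (V n)]
    (G : ∀ n, SimpleGraph (V n)) (hconn : ∀ n, (G n).Connected) (O : ∀ n, V n)
    (β : ℕ → ℝ) {Ω : Type} [MeasurableSpace Ω] (P : Measure Ω) [IsProbabilityMeasure P]
    (e : Ω → C(unitInterval, ℝ)) (he : Measurable e) (hGHP : GHPconv G O β P e)
    (hcont : ∀ᵐ ω ∂P, ContinuousOn (De (e ω)) (Set.Ioi 0))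
    (m : ℕ) (ρ : Fin m → ℝ) (hρ : ∀ i, 0 < ρ i) (F : (Fin m → ℝ) → ℝ) (C L : ℝ)
    (hFb : ∀ x, |F x| ≤ C) (hFL : ∀ x y, |F x - F y| ≤ L * ∑ i, |x i - y i|) :
    Tendsto (fun n => avT (G n) (fun T => F (fun i =>
      Vp (O n) T (β n * Real.sqrt (Fintype.card (V n))) (ρ i))))
      atTop (𝓝 (∫ ω, F (fun i => De (e ω) (ρ i)) ∂P)) := by
  classical
  have hC : 0 ≤ C := (abs_nonneg _).trans (hFb 0)
  obtain ⟨L', hL'0, hFL'⟩ : ∃ L' : ℝ, 0 ≤ L' ∧ ∀ x y, |F x - F y| ≤ L' * ∑ i, |x i - y i| := by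
    refine ⟨max L 0, le_max_right _ _, fun x y => (hFL x y).trans ?_⟩
    exact mul_le_mul_of_nonneg_right (le_max_left _ _)
      (Finset.sum_nonneg fun i _ => abs_nonneg _)
  have hFc := vc_cont F L' hFL' hL'0
  have hPμ : IsProbabilityMeasure (P.map e) := Measure.isProbabilityMeasure_map he.aemeasurable
  -- transfer of integrals
  have eD : ∫ ω, F (fun i => De (e ω) (ρ i)) ∂P = ∫ f, F (fun i => De f (ρ i)) ∂(P.map e) := by
    rw [integral_map he.aemeasurable]
    exact (hFc.measurable.comp (measurable_pi_lambda _ fun i =>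
      De_measurable (ρ i))).aestronglyMeasurable
  obtain ⟨bd, hbd⟩ : ∃ bd : ℝ → ℝ, bd = fun ε => (∫ f, L' * ∑ i, (De f (ρ i + 2 * ε) -
    De f (ρ i - 2 * ε) + ε) ∂(P.map e)) + 2 * C * ε := ⟨_, rfl⟩
  have hbd2 : ∀ ε, bd ε = (∫ ω, L' * ∑ i, (De (e ω) (ρ i + 2 * ε) -
    De (e ω) (ρ i - 2 * ε) + ε) ∂P) + 2 * C * ε := by
    intro ε
    rw [hbd]
    simp only
    rw [integral_map he.aemeasurable]
    exact (Measurable.const_mul (Finset.measurable_fun_sum _ fun i _ =>
      ((De_measurable _).sub (De_measurable _)).add_const ε) L').aestronglyMeasurable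
  obtain ⟨u, hu⟩ : ∃ u : ℕ → ℝ, u = fun k : ℕ => 1 / ((k : ℝ) + 1) := ⟨_, rfl⟩
  have hu0 : ∀ k, 0 < u k := fun k => by rw [hu]; positivity
  have hu1 : ∀ k, u k ≤ 1 := fun k => by
    rw [hu]
    simp only
    rw [div_le_one (by positivity)]
    have : (0 : ℝ) ≤ k := Nat.cast_nonneg k
    linarith
  have hut : Tendsto u atTop (𝓝 0) := by rw [hu]; exact tendsto_one_div_add_atTop_nhds_zero_nat
  have hlim : Tendsto (fun k => bd (u k)) atTop (𝓝 0) := by
    have h1 : Tendsto (fun k => ∫ ω, L' * ∑ i, (De (e ω) (ρ i + 2 * u k) -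
        De (e ω) (ρ i - 2 * u k) + u k) ∂P) atTop (𝓝 (∫ _ω, (0 : ℝ) ∂P)) := by
      refine tendsto_integral_of_dominated_convergence (fun _ => L' * (m * 2)) ?_
        (integrable_const _) ?_ ?_
      · intro k
        exact ((Measurable.const_mul (Finset.measurable_fun_sum _ fun i _ =>
          ((De_measurable _).sub (De_measurable _)).add_const (u k)) L').comp
            he).aestronglyMeasurable
      · intro k
        refine Filter.Eventually.of_forall fun ω => ?_
        have hnn : 0 ≤ ∑ i, (De (e ω) (ρ i + 2 * u k) - De (e ω) (ρ i - 2 * u k) + u k) := by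
          refine Finset.sum_nonneg fun i _ => ?_
          have h1 := De_mono (e ω) (ρ i - 2 * u k) (ρ i + 2 * u k) (by linarith [hu0 k])
          linarith [hu0 k]
        rw [Real.norm_eq_abs, abs_of_nonneg (mul_nonneg hL'0 hnn)]
        refine mul_le_mul_of_nonneg_left ?_ hL'0
        calc ∑ i, (De (e ω) (ρ i + 2 * u k) - De (e ω) (ρ i - 2 * u k) + u k)
            ≤ ∑ _i : Fin m, (2 : ℝ) := Finset.sum_le_sum fun i _ => by
              have h1 := De_le_one (e ω) (ρ i + 2 * u k)
              have h2 := De_nonneg (e ω) (ρ i - 2 * u k)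
              linarith [hu1 k]
          _ = m * 2 := by
              rw [Finset.sum_const, Finset.card_univ, Fintype.card_fin, nsmul_eq_mul]
      · filter_upwards [hcont] with ω hω
        have h2 : ∀ i, Tendsto (fun k => De (e ω) (ρ i + 2 * u k) -
            De (e ω) (ρ i - 2 * u k) + u k) atTop (𝓝 0) := by
          intro i
          have hc : ContinuousAt (De (e ω)) (ρ i) := hω.continuousAt (Ioi_mem_nhds (hρ i))
          have ha : Tendsto (fun k => ρ i + 2 * u k) atTop (𝓝 (ρ i)) := by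
            have := (hut.const_mul 2).const_add (ρ i)
            simpa using this
          have hb : Tendsto (fun k => ρ i - 2 * u k) atTop (𝓝 (ρ i)) := by
            have := (hut.const_mul 2).const_sub (ρ i)
            simpa using this
          have := ((hc.tendsto.comp ha).sub (hc.tendsto.comp hb)).add hut
          simpa using this
        have h3 := (tendsto_finset_sum Finset.univ fun i _ => h2 i).const_mul L'
        simpa using h3
    have h2 := h1.add (hut.const_mul (2 * C))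
    simp only [integral_zero, mul_zero, add_zero] at h2
    refine h2.congr fun k => ?_
    rw [hbd2]
  rw [Metric.tendsto_nhds]
  intro η hη
  obtain ⟨k, hk⟩ := ((tendsto_order.1 hlim).2 η hη).exists
  filter_upwards [hGHP (u k) (hu0 k)] with n hn
  obtain ⟨Q, hQ1, hQ2, hQ3⟩ := hn
  have h := vc_one (G n) (O n) (β n * Real.sqrt (Fintype.card (V n))) (P.map e) (u k) (hu0 k) Q
    hQ1 hQ2 hQ3 m ρ F C L' hL'0 hC hFb hFL'
  rw [Real.dist_eq, eD]
  refine lt_of_le_of_lt h ?_
  rw [hbd] at hk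
  exact hk

end

end HP192
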