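import Mathlib
import Pool.Agent.Helper192_HP.Defs
import Pool.Agent.Helper192_HP.FDefs
import Pool.Agent.Helper192_HP.VpDef

namespace HP192
open Finset

section auxY09
open Filter Topology

variable {V : Type} [Fintype V] [DecidableEq V]

theorem y09_avT_mono (G : SimpleGraph V) (F F' : SimpleGraph V → ℝ) (h : ∀ T, F T ≤ F' T) :
    avT G F ≤ avT G F' := by
  unfold avT
  have := Finset.sum_le_sum (fun T (_ : T ∈ sTrees G) => h T)
  gcongr

theorem y09_avT_add (G : SimpleGraph V) (F F' : SimpleGraph V → ℝ) :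
    avT G (fun T => F T + F' T) = avT G F + avT G F' := by
  unfold avT
  rw [Finset.sum_add_distrib, add_div]

theorem y09_avT_mul (G : SimpleGraph V) (c : ℝ) (F : SimpleGraph V → ℝ) :
    avT G (fun T => c * F T) = c * avT G F := by
  unfold avT
  rw [← Finset.mul_sum, mul_div_assoc]

theorem y09_avT_sum (G : SimpleGraph V) (q : ℕ) (F : ℕ → SimpleGraph V → ℝ) :
    avT G (fun T => ∑ j ∈ range q, F j T) = ∑ j ∈ range q, avT G (F j) := by
  unfold avT
  rw [Finset.sum_comm, Finset.sum_div]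

theorem y09_avT_const (G : SimpleGraph V) (c : ℝ) (hc : 0 ≤ c) : avT G (fun _ => c) ≤ c := by
  unfold avT
  rw [Finset.sum_const, nsmul_eq_mul]
  rcases Nat.eq_zero_or_pos (sTrees G).card with h | h
  · rw [h]; simpa using hc
  · have : (0 : ℝ) < (sTrees G).card := by exact_mod_cast h
    rw [mul_div_assoc, mul_comm, div_mul_cancel₀ _ this.ne']

theorem y09_avT_nonneg (G : SimpleGraph V) (F : SimpleGraph V → ℝ) (h : ∀ T, 0 ≤ F T) :
    0 ≤ avT G F := by
  unfold avT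
  have := Finset.sum_nonneg (fun T (_ : T ∈ sTrees G) => h T)
  positivity

theorem y09_avT_abs (G : SimpleGraph V) (F : SimpleGraph V → ℝ) (A : ℝ) (hA : 0 ≤ A)
    (h : avT G (fun T => F T ^ 2) ≤ A ^ 2) : avT G (fun T => |F T|) ≤ A := by
  rcases Nat.eq_zero_or_pos (sTrees G).card with h0 | h0
  · unfold avT
    rw [h0]; simpa using hA
  · have hp : (0 : ℝ) < (sTrees G).card := by exact_mod_cast h0
    have h1 : (∑ T ∈ sTrees G, |F T|) ^ 2 ≤ (sTrees G).card * ∑ T ∈ sTrees G, |F T| ^ 2 :=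
      sq_sum_le_card_mul_sum_sq
    have h2 : (avT G (fun T => |F T|)) ^ 2 ≤ avT G (fun T => F T ^ 2) := by
      unfold avT
      simp only [sq_abs] at h1
      rw [div_pow, div_le_div_iff₀ (by positivity) hp]
      calc (∑ T ∈ sTrees G, |F T|) ^ 2 * ((sTrees G).card : ℝ)
          ≤ ((sTrees G).card * ∑ T ∈ sTrees G, F T ^ 2) * ((sTrees G).card : ℝ) := by gcongr
        _ = _ := by ring
    exact le_of_sq_le_sq (h2.trans h) hA |> fun h => h

theorem y09_cardle (o : V) (T : SimpleGraph V) (m q : ℕ) :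
    (univ.filter (fun v => T.dist o v ≤ m + q)).card =
      (univ.filter (fun v => T.dist o v ≤ m)).card + ∑ j ∈ range q, Hp o T (m + 1 + j) := by
  induction q with
  | zero => simp
  | succ q ih =>
    have e : (univ.filter (fun v => T.dist o v ≤ m + (q + 1))).card =
        (univ.filter (fun v => T.dist o v ≤ m + q)).card + Hp o T (m + 1 + q) := by
      unfold Hp
      rw [← Finset.card_union_of_disjoint]
      · congr 1
        ext v
        simp only [mem_filter, mem_univ, true_and, mem_union]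
        omega
      · rw [Finset.disjoint_filter]
        intro v _ h1
        omega
    rw [e, ih, Finset.sum_range_succ]
    ring

theorem y09_sum_le (o : V) (T : SimpleGraph V) (m q : ℕ) :
    ∑ j ∈ range q, (Hp o T (m + 1 + j) : ℝ) ≤ Fintype.card V := by
  have h1 := y09_cardle o T m q
  have h2 : (univ.filter (fun v => T.dist o v ≤ m + q)).card ≤ Fintype.card V :=
    Finset.card_le_univ _
  have h3 : ∑ j ∈ range q, Hp o T (m + 1 + j) ≤ Fintype.card V := by omega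
  exact_mod_cast h3

theorem y09_Vp (o : V) (T : SimpleGraph V) (c ρ : ℝ) (hc : 0 < c) (hρ : 0 ≤ ρ) :
    Vp o T c ρ = ((univ.filter (fun v => T.dist o v ≤ ⌊ρ * c⌋₊)).card : ℝ) / Fintype.card V := by
  unfold Vp
  congr 2
  apply congrArg
  ext v
  simp only [mem_filter, mem_univ, true_and]
  rw [div_le_iff₀ hc, Nat.le_floor_iff (by positivity)]

theorem y09_Vp_sub (o : V) (T : SimpleGraph V) (c r δ : ℝ) (hc : 0 < c) (hr : 0 ≤ r) (hδ : 0 ≤ δ)
    (k0 q : ℕ) (hk0 : ⌊r * c⌋₊ = k0) (hq : ⌊(r + δ) * c⌋₊ = k0 + q) :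
    Vp o T c (r + δ) - Vp o T c r =
      (∑ j ∈ range q, (Hp o T (k0 + 1 + j) : ℝ)) / Fintype.card V := by
  rw [y09_Vp o T c (r + δ) hc (by positivity), y09_Vp o T c r hc hr, hq, hk0, y09_cardle]
  push_cast
  ring

theorem y09_shift (a : ℕ → ℝ) (ha : ∀ k, 0 ≤ a k) (q i W : ℕ) (hi : i ≤ W) :
    |∑ j ∈ range q, a (j + i) - ∑ j ∈ range q, a j| ≤ ∑ h ∈ range W, (a (q + h) + a h) := by
  have h1 : ∑ j ∈ range (i + q), a j = ∑ j ∈ range i, a j + ∑ j ∈ range q, a (i + j) :=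
    Finset.sum_range_add a i q
  have h2 : ∑ j ∈ range (q + i), a j = ∑ j ∈ range q, a j + ∑ j ∈ range i, a (q + j) :=
    Finset.sum_range_add a q i
  have h3 : ∑ j ∈ range q, a (j + i) = ∑ j ∈ range q, a (i + j) :=
    Finset.sum_congr rfl (fun j _ => by rw [add_comm])
  have h4 : ∑ j ∈ range q, a (j + i) - ∑ j ∈ range q, a j =
      ∑ h ∈ range i, a (q + h) - ∑ h ∈ range i, a h := by
    rw [h3]
    rw [add_comm i q] at h1
    linarith
  rw [h4]
  have h5 : ∑ h ∈ range i, a (q + h) ≤ ∑ h ∈ range W, a (q + h) :=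
    Finset.sum_le_sum_of_subset_of_nonneg (Finset.range_mono hi) (fun _ _ _ => ha _)
  have h6 : ∑ h ∈ range i, a h ≤ ∑ h ∈ range W, a h :=
    Finset.sum_le_sum_of_subset_of_nonneg (Finset.range_mono hi) (fun _ _ _ => ha _)
  have h7 : 0 ≤ ∑ h ∈ range i, a (q + h) := Finset.sum_nonneg (fun _ _ => ha _)
  have h8 : 0 ≤ ∑ h ∈ range i, a h := Finset.sum_nonneg (fun _ _ => ha _)
  rw [Finset.sum_add_distrib, abs_le]
  constructor <;> linarith

theorem y09_det (H : ℕ → ℝ) (hH : ∀ k, 0 ≤ H k) (N x β δ : ℝ) (W q k0 : ℕ) (hx : 0 < x)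
    (hN : N = x ^ 2) (hβ : 0 < β) (hδ : 0 < δ) (hq : 0 < q) (hW : 1 ≤ W)
    (hqe : |(q : ℝ) - δ * β * x| ≤ 1) (hsum : ∑ j ∈ range q, H (k0 + 1 + j) ≤ N) :
    |β / x * ((1 / (W : ℝ)) * ∑ j ∈ range W, H (k0 + j))
        - ((∑ j ∈ range q, H (k0 + 1 + j)) / N) / δ|
      ≤ (β / x) * ((1 / (q : ℝ)) * ∑ j ∈ range q,
            |(1 / (W : ℝ)) * ∑ i ∈ range W, (H (k0 + i) - H (k0 + (1 + j) + i))|)
        + (β / x) * ((1 / (q : ℝ)) * ∑ h ∈ range W, (H (k0 + 1 + q + h) + H (k0 + 1 + h)))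
        + 1 / (q * δ) := by
  have hq' : (0 : ℝ) < q := by exact_mod_cast hq
  have hW' : (0 : ℝ) < W := by exact_mod_cast hW
  have hN' : 0 < N := by rw [hN]; positivity
  obtain ⟨S, hS⟩ : ∃ S, S = ∑ j ∈ range q, H (k0 + 1 + j) := ⟨_, rfl⟩
  obtain ⟨A, hA⟩ : ∃ A, A = ∑ j ∈ range q,
      ((1 / (W : ℝ)) * ∑ i ∈ range W, (H (k0 + i) - H (k0 + (1 + j) + i))) := ⟨_, rfl⟩
  obtain ⟨B, hB⟩ : ∃ B, B = ∑ j ∈ range q,
      ((1 / (W : ℝ)) * ∑ i ∈ range W, H (k0 + (1 + j) + i)) := ⟨_, rfl⟩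
  have hAB : A = q * ((1 / (W : ℝ)) * ∑ j ∈ range W, H (k0 + j)) - B := by
    rw [hA, hB, eq_sub_iff_add_eq, ← Finset.sum_add_distrib]
    rw [Finset.sum_congr rfl (g := fun _ => (1 / (W : ℝ)) * ∑ j ∈ range W, H (k0 + j))]
    · rw [Finset.sum_const, card_range, nsmul_eq_mul]
    · intro j _
      rw [Finset.sum_sub_distrib]
      ring
  have hA1 : |A| ≤ ∑ j ∈ range q,
      |(1 / (W : ℝ)) * ∑ i ∈ range W, (H (k0 + i) - H (k0 + (1 + j) + i))| := by
    rw [hA]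
    exact Finset.abs_sum_le_sum_abs _ _
  have hBS : |B - S| ≤ ∑ h ∈ range W, (H (k0 + 1 + q + h) + H (k0 + 1 + h)) := by
    have e1 : B - S = (1 / (W : ℝ)) * ∑ i ∈ range W,
        (∑ j ∈ range q, H (k0 + 1 + (j + i)) - ∑ j ∈ range q, H (k0 + 1 + j)) := by
      rw [hB, hS, Finset.sum_sub_distrib, Finset.sum_const, card_range, nsmul_eq_mul,
        ← Finset.mul_sum, Finset.sum_comm]
      have : ∀ i ∈ range W, ∑ j ∈ range q, H (k0 + (1 + j) + i) =
          ∑ j ∈ range q, H (k0 + 1 + (j + i)) := by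
        intro i _
        apply Finset.sum_congr rfl
        intro j _
        congr 1
        ring
      rw [Finset.sum_congr rfl this]
      field_simp
    rw [e1, abs_mul, abs_of_pos (by positivity : (0 : ℝ) < 1 / W)]
    have e2 : |∑ i ∈ range W,
        (∑ j ∈ range q, H (k0 + 1 + (j + i)) - ∑ j ∈ range q, H (k0 + 1 + j))| ≤
        ∑ i ∈ range W, ∑ h ∈ range W, (H (k0 + 1 + q + h) + H (k0 + 1 + h)) := by
      refine (Finset.abs_sum_le_sum_abs _ _).trans ?_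
      apply Finset.sum_le_sum
      intro i hi
      have := y09_shift (fun k => H (k0 + 1 + k)) (fun k => hH _) q i W (mem_range.1 hi).le
      simpa only [← add_assoc] using this
    rw [Finset.sum_const, card_range, nsmul_eq_mul] at e2
    calc _ ≤ 1 / (W : ℝ) * (W * ∑ h ∈ range W, (H (k0 + 1 + q + h) + H (k0 + 1 + h))) := by gcongr
      _ = _ := by field_simp
  have hSn : 0 ≤ S := by rw [hS]; exact Finset.sum_nonneg (fun _ _ => hH _)
  have key : β / x * ((1 / (W : ℝ)) * ∑ j ∈ range W, H (k0 + j)) - (S / N) / δ =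
      (β / x) * ((1 / (q : ℝ)) * A) + (β / x) * ((1 / (q : ℝ)) * (B - S))
        + ((δ * β * x - q) / (q * δ)) * (S / N) := by
    rw [hAB, hN]
    field_simp
    ring
  rw [← hS]
  rw [← hS] at hsum
  rw [key]
  have t3 : |((δ * β * x - q) / (q * δ)) * (S / N)| ≤ 1 / (q * δ) := by
    rw [abs_mul, abs_div, abs_of_pos (by positivity : (0 : ℝ) < q * δ), abs_sub_comm,
      abs_of_nonneg (by positivity : 0 ≤ S / N)]
    have h1 : S / N ≤ 1 := by rw [div_le_one hN']; exact hsum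
    calc _ ≤ 1 / (q * δ) * 1 := by gcongr
      _ = _ := by ring
  have hbx : 0 < β / x := by positivity
  have hq1 : (0 : ℝ) < 1 / q := by positivity
  have t1 : |(β / x) * ((1 / (q : ℝ)) * A)| ≤ (β / x) * ((1 / (q : ℝ)) * ∑ j ∈ range q,
      |(1 / (W : ℝ)) * ∑ i ∈ range W, (H (k0 + i) - H (k0 + (1 + j) + i))|) := by
    rw [abs_mul, abs_mul, abs_of_pos hbx, abs_of_pos hq1]
    gcongr
  have t2 : |(β / x) * ((1 / (q : ℝ)) * (B - S))| ≤
      (β / x) * ((1 / (q : ℝ)) * ∑ h ∈ range W, (H (k0 + 1 + q + h) + H (k0 + 1 + h))) := by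
    rw [abs_mul, abs_mul, abs_of_pos hbx, abs_of_pos hq1]
    gcongr
  exact (abs_add_three _ _ _).trans (by linarith)

end auxY09

-- TARGET
section
open MeasureTheory Filter Topology

theorem XY_close {V : ℕ → Type} [∀ n, Fintype (V n)] [∀ n, DecidableEq (V n)]
    (G : ∀ n, SimpleGraph (V n)) (hconn : ∀ n, (G n).Connected)
    (hcard : Tendsto (fun n => Fintype.card (V n)) atTop atTop) (O : ∀ n, V n)
    (β : ℕ → ℝ) (b1 b2 : ℝ) (hb1 : 0 < b1) (hβ : ∀ n, b1 ≤ β n ∧ β n ≤ b2)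
    (w : ℕ → ℕ) (hw1 : ∀ n, 1 ≤ w n)
    (hw0 : Tendsto (fun n => (w n : ℝ) / Real.sqrt (Fintype.card (V n))) atTop (𝓝 0))
    (hRT : ∀ a b ε : ℝ, 0 < a → 0 < b → 0 < ε → ∃ δ : ℝ, 0 < δ ∧ ∀ᶠ n in atTop, ∀ l s : ℕ,
      a * Real.sqrt (Fintype.card (V n)) ≤ l → (l : ℝ) ≤ b * Real.sqrt (Fintype.card (V n)) →
      (s : ℝ) ≤ δ * Real.sqrt (Fintype.card (V n)) →
      avT (G n) (fun T => ((1 / (w n : ℝ)) * ∑ j ∈ range (w n),
        ((Hp (O n) T (l + j) : ℝ) - (Hp (O n) T (l + s + j) : ℝ))) ^ 2)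
        ≤ ε * Fintype.card (V n))
    (hEH : ∀ b : ℝ, 0 < b → ∃ C : ℝ, 0 < C ∧ ∀ᶠ n in atTop, ∀ k : ℕ,
      (k : ℝ) ≤ b * Real.sqrt (Fintype.card (V n)) →
      avT (G n) (fun T => (Hp (O n) T k : ℝ)) ≤ C * Real.sqrt (Fintype.card (V n)))
    (r ε : ℝ) (hr : 0 < r) (hε : 0 < ε) :
    ∃ δ0 : ℝ, 0 < δ0 ∧ ∀ δ : ℝ, 0 < δ → δ < δ0 → ∀ᶠ n in atTop,
      avT (G n) (fun T => |β n / Real.sqrt (Fintype.card (V n))
          * ((1 / (w n : ℝ)) * ∑ j ∈ range (w n),
            (Hp (O n) T (⌊r * β n * Real.sqrt (Fintype.card (V n))⌋₊ + j) : ℝ))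
        - (Vp (O n) T (β n * Real.sqrt (Fintype.card (V n))) (r + δ)
            - Vp (O n) T (β n * Real.sqrt (Fintype.card (V n))) r) / δ|) ≤ ε := by
  have hXlim : Tendsto (fun n => Real.sqrt (Fintype.card (V n))) atTop atTop :=
    Real.tendsto_sqrt_atTop.comp (tendsto_natCast_atTop_atTop.comp hcard)
  have hb2 : 0 < b2 := lt_of_lt_of_le hb1 ((hβ 0).1.trans (hβ 0).2)
  obtain ⟨δ', hδ', hRT'⟩ := hRT (r * b1 / 2) (r * b2) ((ε / (2 * b2)) ^ 2) (by positivity)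
    (by positivity) (by positivity)
  refine ⟨δ' / (2 * b2), by positivity, ?_⟩
  intro δ hδ hδ0
  obtain ⟨C, hC, hEH'⟩ := hEH ((r + δ) * b2 + 3) (by positivity)
  have hδ1 : δ * b2 < δ' / 2 := by
    rw [lt_div_iff₀ (by positivity)] at hδ0
    linarith
  have hsmall : Tendsto (fun n => (4 * b2 * C / (δ * b1)) *
      ((w n : ℝ) / Real.sqrt (Fintype.card (V n))) + (2 / (δ ^ 2 * b1)) *
      (Real.sqrt (Fintype.card (V n)))⁻¹) atTop (𝓝 0) := by
    have h1 := (hw0.const_mul (4 * b2 * C / (δ * b1))).add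
      ((tendsto_inv_atTop_zero.comp hXlim).const_mul (2 / (δ ^ 2 * b1)))
    simpa using h1
  filter_upwards [hRT', hEH', hXlim.eventually_ge_atTop (2 / (r * b1)),
    hXlim.eventually_ge_atTop (2 / (δ * b1)), hXlim.eventually_ge_atTop (2 / δ'),
    hXlim.eventually_ge_atTop 1, hw0.eventually_lt_const one_pos,
    hsmall.eventually_lt_const (half_pos hε)] with n h1 h2 h3 h4 h5 h6 h7 h8
  obtain ⟨x, hx⟩ : ∃ x, x = Real.sqrt (Fintype.card (V n)) := ⟨_, rfl⟩
  rw [← hx] at h3 h4 h5 h6 h7 h8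
  simp only [← hx] at h1 h2
  simp only [← hx]
  have hx2 : (Fintype.card (V n) : ℝ) = x ^ 2 := by
    rw [hx, Real.sq_sqrt (Nat.cast_nonneg _)]
  have hx0 : 0 < x := by linarith
  obtain ⟨hβ1, hβ2⟩ := hβ n
  generalize β n = B at hβ1 hβ2 ⊢
  have hB : 0 < B := by linarith
  rw [div_le_iff₀ (by positivity)] at h3 h4 h5
  obtain ⟨k0, hk0⟩ : ∃ k0, k0 = ⌊r * B * x⌋₊ := ⟨_, rfl⟩
  obtain ⟨k1, hk1⟩ : ∃ k1, k1 = ⌊(r + δ) * (B * x)⌋₊ := ⟨_, rfl⟩
  have hk01 : k0 ≤ k1 := by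
    rw [hk0, hk1]
    apply Nat.floor_le_floor
    have : 0 ≤ δ * (B * x) := by positivity
    nlinarith
  obtain ⟨q, hq⟩ : ∃ q, k1 = k0 + q := ⟨k1 - k0, by omega⟩
  have f1 : (k0 : ℝ) ≤ r * B * x := by rw [hk0]; exact Nat.floor_le (by positivity)
  have f2 : r * B * x < k0 + 1 := by rw [hk0]; exact Nat.lt_floor_add_one _
  have f3 : (k1 : ℝ) ≤ (r + δ) * (B * x) := by rw [hk1]; exact Nat.floor_le (by positivity)
  have f4 : (r + δ) * (B * x) < k1 + 1 := by rw [hk1]; exact Nat.lt_floor_add_one _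
  have fq : (k1 : ℝ) = k0 + q := by rw [hq]; push_cast; ring
  have hqe : |(q : ℝ) - δ * B * x| ≤ 1 := by
    rw [abs_le]
    constructor <;> nlinarith
  have hBx : b1 * x ≤ B * x := by gcongr
  have hBx2 : B * x ≤ b2 * x := by gcongr
  have hδBx : δ * (b1 * x) ≤ δ * (B * x) := by gcongr
  have hδBx2 : δ * (B * x) ≤ δ * (b2 * x) := by gcongr
  have hrBx : r * (b1 * x) ≤ r * (B * x) := by gcongr
  have hrBx2 : r * (B * x) ≤ r * (b2 * x) := by gcongr
  rw [abs_le] at hqe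
  have hqlow : δ * b1 / 2 * x ≤ q := by nlinarith
  have hq0 : (0 : ℝ) < q := lt_of_lt_of_le (by positivity) hqlow
  have hq0' : 0 < q := by exact_mod_cast hq0
  have hW1 := hw1 n
  generalize w n = W at h1 h7 h8 hW1 ⊢
  have hW' : (0 : ℝ) < W := by exact_mod_cast hW1
  rw [div_lt_one hx0] at h7
  have hkey : ∀ T : SimpleGraph (V n),
      |B / x * ((1 / (W : ℝ)) * ∑ j ∈ range W, (Hp (O n) T (k0 + j) : ℝ))
        - (Vp (O n) T (B * x) (r + δ) - Vp (O n) T (B * x) r) / δ| ≤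
      (B / x) * ((1 / (q : ℝ)) * ∑ j ∈ range q,
            |(1 / (W : ℝ)) * ∑ i ∈ range W, ((Hp (O n) T (k0 + i) : ℝ) - Hp (O n) T (k0 + (1 + j) + i))|)
        + (B / x) * ((1 / (q : ℝ)) * ∑ h ∈ range W,
            ((Hp (O n) T (k0 + 1 + q + h) : ℝ) + Hp (O n) T (k0 + 1 + h)))
        + 1 / (q * δ) := by
    intro T
    rw [y09_Vp_sub (O n) T (B * x) r δ (by positivity) hr.le hδ.le k0 q
      (by rw [hk0, mul_assoc]) (by rw [← hk1, hq])]
    exact y09_det (fun k => (Hp (O n) T k : ℝ)) (fun k => Nat.cast_nonneg _) _ x B δ W q k0 hx0 hx2 hB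
      hδ hq0' hW1 (abs_le.2 hqe) (y09_sum_le (O n) T k0 q)
  rw [← hk0]
  refine (y09_avT_mono (G n) _ _ hkey).trans ?_
  rw [y09_avT_add, y09_avT_add, y09_avT_mul, y09_avT_mul, y09_avT_mul, y09_avT_mul, y09_avT_sum,
    y09_avT_sum]
  have s1 : ∀ j ∈ range q, avT (G n) (fun T => |(1 / (W : ℝ)) * ∑ i ∈ range W,
      ((Hp (O n) T (k0 + i) : ℝ) - Hp (O n) T (k0 + (1 + j) + i))|) ≤ ε / (2 * b2) * x := by
    intro j hj
    apply y09_avT_abs (G n) _ _ (by positivity)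
    have hj' : ((1 + j : ℕ) : ℝ) ≤ q := by
      have := mem_range.1 hj
      exact_mod_cast (by omega : 1 + j ≤ q)
    refine (h1 k0 (1 + j) (by nlinarith) (by nlinarith) ?_).trans ?_
    · nlinarith
    · rw [hx2, mul_pow]
  have s2 : ∀ k : ℕ, (k : ℝ) ≤ ((r + δ) * b2 + 3) * x → avT (G n) (fun T => (Hp (O n) T k : ℝ)) ≤ C * x :=
    h2
  have s3 : ∀ h ∈ range W, avT (G n) (fun T => (Hp (O n) T (k0 + 1 + q + h) : ℝ)
      + Hp (O n) T (k0 + 1 + h)) ≤ C * x + C * x := by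
    intro h hh
    have hh' : (h : ℝ) ≤ W := by exact_mod_cast (mem_range.1 hh).le
    rw [y09_avT_add]
    apply add_le_add
    · apply s2
      push_cast
      nlinarith
    · apply s2
      push_cast
      nlinarith
  have s4 := y09_avT_const (G n) (1 / ((q : ℝ) * δ)) (by positivity)
  have e1 : (B / x) * ((1 / (q : ℝ)) * ∑ j ∈ range q, avT (G n) (fun T => |(1 / (W : ℝ)) * ∑ i ∈ range W,
      ((Hp (O n) T (k0 + i) : ℝ) - Hp (O n) T (k0 + (1 + j) + i))|)) ≤ ε / 2 := by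
    have := Finset.sum_le_sum s1
    rw [Finset.sum_const, card_range, nsmul_eq_mul] at this
    calc _ ≤ (B / x) * ((1 / (q : ℝ)) * (q * (ε / (2 * b2) * x))) := by gcongr
      _ = (B / b2) * (ε / 2) := by field_simp
      _ ≤ 1 * (ε / 2) := by
        gcongr
        rw [div_le_one hb2]
        exact hβ2
      _ = ε / 2 := one_mul _
  have e2 : (B / x) * ((1 / (q : ℝ)) * ∑ h ∈ range W, avT (G n) (fun T =>
      (Hp (O n) T (k0 + 1 + q + h) : ℝ) + Hp (O n) T (k0 + 1 + h))) ≤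
      4 * b2 * C / (δ * b1) * (W / x) := by
    have := Finset.sum_le_sum s3
    rw [Finset.sum_const, card_range, nsmul_eq_mul] at this
    have g1 : 1 / (q : ℝ) ≤ 1 / (δ * b1 / 2 * x) := by
      apply one_div_le_one_div_of_le (by positivity) hqlow
    calc _ ≤ (B / x) * ((1 / (q : ℝ)) * (W * (C * x + C * x))) := by gcongr
      _ ≤ (b2 / x) * ((1 / (δ * b1 / 2 * x)) * (W * (C * x + C * x))) := by gcongr
      _ = _ := by
        field_simp
        ring
  have e3 : avT (G n) (fun _ => 1 / ((q : ℝ) * δ)) ≤ (2 / (δ ^ 2 * b1)) * x⁻¹ := by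
    refine s4.trans ?_
    have g1 : 1 / ((q : ℝ) * δ) ≤ 1 / ((δ * b1 / 2 * x) * δ) := by
      apply one_div_le_one_div_of_le (by positivity)
      gcongr
    refine g1.trans (le_of_eq ?_)
    field_simp
  linarith

end

end HP192
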