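import Mathlib
import Pool.Agent.Helper192_HP.Defs
import Pool.Agent.Helper192_HP.FDefs
import Pool.Agent.Helper192_HP.VpDef
import Pool.Agent.Helper192_HP.Y07
import Pool.Agent.Helper192_HP.Y08
import Pool.Agent.Helper192_HP.Y09

namespace HP192
open Finset

section aux
open MeasureTheory Filter Topology

theorem avT_mono {V : Type} [Fintype V] [DecidableEq V] (G : SimpleGraph V) (F₁ F₂ : SimpleGraph V → ℝ)
    (h : ∀ T, F₁ T ≤ F₂ T) : avT G F₁ ≤ avT G F₂ := by
  unfold avT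
  exact div_le_div_of_nonneg_right (Finset.sum_le_sum fun T _ => h T) (Nat.cast_nonneg _)

theorem avT_sub {V : Type} [Fintype V] [DecidableEq V] (G : SimpleGraph V) (F₁ F₂ : SimpleGraph V → ℝ) :
    avT G F₁ - avT G F₂ = avT G (fun T => F₁ T - F₂ T) := by
  unfold avT
  rw [Finset.sum_sub_distrib, sub_div]

theorem avT_abs {V : Type} [Fintype V] [DecidableEq V] (G : SimpleGraph V) (F : SimpleGraph V → ℝ) :
    |avT G F| ≤ avT G (fun T => |F T|) := by
  unfold avT
  rw [abs_div, abs_of_nonneg (Nat.cast_nonneg (sTrees G).card : (0 : ℝ) ≤ _)]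
  exact div_le_div_of_nonneg_right (Finset.abs_sum_le_sum_abs _ _) (Nat.cast_nonneg _)

theorem avT_mul {V : Type} [Fintype V] [DecidableEq V] (G : SimpleGraph V) (c : ℝ) (F : SimpleGraph V → ℝ) :
    avT G (fun T => c * F T) = c * avT G F := by
  unfold avT
  rw [← Finset.mul_sum, mul_div_assoc]

theorem avT_sum {V : Type} [Fintype V] [DecidableEq V] (G : SimpleGraph V) {m : ℕ}
    (F : Fin m → SimpleGraph V → ℝ) :
    avT G (fun T => ∑ i, F i T) = ∑ i, avT G (F i) := by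
  unfold avT
  rw [Finset.sum_comm, Finset.sum_div]

theorem sTrees_nonempty {V : Type} [Fintype V] [DecidableEq V] (G : SimpleGraph V) (h : G.Connected) :
    (sTrees G).Nonempty := by
  obtain ⟨T, hT, hT'⟩ := h.exists_isTree_le
  refine ⟨T, ?_⟩
  unfold sTrees
  simp only [Finset.mem_filter, Finset.mem_univ, true_and]
  exact ⟨hT, hT'⟩

/-- law of a function of the uniform spanning tree -/
noncomputable def lawT {V : Type} [Fintype V] [DecidableEq V] (G : SimpleGraph V) {m : ℕ}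
    (X : SimpleGraph V → (Fin m → ℝ)) : Measure (Fin m → ℝ) :=
  ∑ T ∈ sTrees G, ((sTrees G).card : ENNReal)⁻¹ • Measure.dirac (X T)

theorem lawT_prob {V : Type} [Fintype V] [DecidableEq V] (G : SimpleGraph V) (h : G.Connected) {m : ℕ}
    (X : SimpleGraph V → (Fin m → ℝ)) : IsProbabilityMeasure (lawT G X) := by
  constructor
  unfold lawT
  rw [Measure.finsetSum_apply]
  simp only [Measure.smul_apply, measure_univ, smul_eq_mul, mul_one, Finset.sum_const, nsmul_eq_mul]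
  have h0 : ((sTrees G).card : ENNReal) ≠ 0 := by
    exact_mod_cast (Finset.card_pos.2 (sTrees_nonempty G h)).ne'
  exact ENNReal.mul_inv_cancel h0 (ENNReal.natCast_ne_top _)

theorem lawT_integral {V : Type} [Fintype V] [DecidableEq V] (G : SimpleGraph V) {m : ℕ}
    (X : SimpleGraph V → (Fin m → ℝ)) (f : (Fin m → ℝ) → ℝ) :
    ∫ x, f x ∂(lawT G X) = avT G (fun T => f (X T)) := by
  unfold lawT avT
  rw [integral_finsetSum_measure]
  · simp only [integral_smul_measure, integral_dirac, ENNReal.toReal_inv, ENNReal.toReal_natCast,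
      smul_eq_mul]
    rw [← Finset.mul_sum, div_eq_inv_mul]
  · intro T hT
    have h0 : ((sTrees G).card : ENNReal)⁻¹ ≠ ⊤ := by
      rw [ne_eq, ENNReal.inv_eq_top]
      exact_mod_cast (Finset.card_pos.2 ⟨T, hT⟩).ne'
    exact (integrable_dirac (by simp [enorm])).smul_measure h0

theorem De_deriv (e : C(unitInterval, ℝ)) (l : ℝ → ℝ) (hc : ContinuousOn l (Set.Ici 0))
    (hl : ∀ r : ℝ, 0 ≤ r → De e r = ∫ s in (0 : ℝ)..r, l s) (r : ℝ) (hr : 0 < r) :
    HasDerivAt (De e) (l r) r := by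
  have h1 : HasDerivAt (fun u => ∫ s in (0 : ℝ)..u, l s) (l r) r := by
    apply intervalIntegral.integral_hasDerivAt_right
    · apply ContinuousOn.intervalIntegrable
      apply hc.mono
      intro x hx
      rw [Set.uIcc_of_le hr.le] at hx
      exact hx.1
    · exact (hc.mono Set.Ioi_subset_Ici_self).stronglyMeasurableAtFilter isOpen_Ioi r hr
    · exact hc.continuousAt (Ici_mem_nhds hr)
  refine h1.congr_of_eventuallyEq ?_
  filter_upwards [Ioi_mem_nhds hr] with u hu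
  exact hl u (le_of_lt hu)

theorem De_seq (e : C(unitInterval, ℝ)) (l : ℝ → ℝ) (hc : ContinuousOn l (Set.Ici 0))
    (hl : ∀ r : ℝ, 0 ≤ r → De e r = ∫ s in (0 : ℝ)..r, l s) (r : ℝ) (hr : 0 < r) :
    Tendsto (fun k : ℕ => (De e (r + 1 / ((k : ℝ) + 1)) - De e r) / (1 / ((k : ℝ) + 1))) atTop
      (𝓝 (l r)) := by
  have h1 := (De_deriv e l hc hl r hr).tendsto_slope_zero
  have h2 : Tendsto (fun k : ℕ => 1 / ((k : ℝ) + 1)) atTop (𝓝[≠] 0) := by
    rw [tendsto_nhdsWithin_iff]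
    refine ⟨tendsto_one_div_add_atTop_nhds_zero_nat, Eventually.of_forall fun k => ?_⟩
    have : (0 : ℝ) < 1 / ((k : ℝ) + 1) := by positivity
    exact this.ne'
  refine (h1.comp h2).congr fun k => ?_
  simp only [Function.comp, smul_eq_mul]
  exact (div_eq_inv_mul _ _).symm

theorem lip_sum {m : ℕ} {F : (Fin m → ℝ) → ℝ} {K : NNReal} (hF : LipschitzWith K F) (x y : Fin m → ℝ) :
    |F x - F y| ≤ K * ∑ i, |x i - y i| := by
  have h1 := hF.dist_le_mul x y
  rw [Real.dist_eq] at h1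
  refine h1.trans (mul_le_mul_of_nonneg_left ?_ K.coe_nonneg)
  rw [dist_pi_le_iff (Finset.sum_nonneg fun i _ => abs_nonneg _)]
  intro i
  rw [Real.dist_eq]
  exact Finset.single_le_sum (f := fun i => |x i - y i|) (fun i _ => abs_nonneg _) (Finset.mem_univ i)

theorem lip_case {V : ℕ → Type} [∀ n, Fintype (V n)] [∀ n, DecidableEq (V n)]
    (G : ∀ n, SimpleGraph (V n)) (hconn : ∀ n, (G n).Connected) (O : ∀ n, V n)
    (β : ℕ → ℝ) {Ω : Type} [MeasurableSpace Ω] (P : Measure Ω) [IsProbabilityMeasure P]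
    (e : Ω → C(unitInterval, ℝ)) (he : Measurable e) (hGHP : GHPconv G O β P e)
    (ℓ : Ω → ℝ → ℝ) (hℓ : ∀ᵐ ω ∂P, ContinuousOn (ℓ ω) (Set.Ici 0) ∧
      ∀ r : ℝ, 0 ≤ r → De (e ω) r = ∫ s in (0 : ℝ)..r, ℓ ω s)
    (m : ℕ) (r : Fin m → ℝ) (hr : ∀ i, 0 < r i)
    (X : ∀ n, SimpleGraph (V n) → Fin m → ℝ)
    (hX : ∀ i, ∀ ε : ℝ, 0 < ε → ∃ δ0 : ℝ, 0 < δ0 ∧ ∀ δ : ℝ, 0 < δ → δ < δ0 → ∀ᶠ n in atTop,
      avT (G n) (fun T => |X n T i
        - (Vp (O n) T (β n * Real.sqrt (Fintype.card (V n))) (r i + δ)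
            - Vp (O n) T (β n * Real.sqrt (Fintype.card (V n))) (r i)) / δ|) ≤ ε)
    (F : (Fin m → ℝ) → ℝ) (C : ℝ) (hFb : ∀ x, |F x| ≤ C) (K : NNReal) (hK : LipschitzWith K F) :
    Tendsto (fun n => avT (G n) (fun T => F (X n T))) atTop (𝓝 (∫ ω, F (fun i => ℓ ω (r i)) ∂P)) := by
  have hcont : ∀ᵐ ω ∂P, ContinuousOn (De (e ω)) (Set.Ioi 0) := by
    filter_upwards [hℓ] with ω hω x hx
    exact (De_deriv (e ω) (ℓ ω) hω.1 hω.2 x hx).continuousAt.continuousWithinAt
  -- limit of the integrals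
  have hZ : Tendsto (fun k : ℕ => ∫ ω, F (fun i =>
      (De (e ω) (r i + 1 / ((k : ℝ) + 1)) - De (e ω) (r i)) / (1 / ((k : ℝ) + 1))) ∂P) atTop
      (𝓝 (∫ ω, F (fun i => ℓ ω (r i)) ∂P)) := by
    apply tendsto_integral_of_dominated_convergence (fun _ => C)
    · intro k
      apply Measurable.aestronglyMeasurable
      apply hK.continuous.measurable.comp
      rw [measurable_pi_iff]
      intro i
      exact (((De_measurable _).comp he).sub ((De_measurable _).comp he)).div_const _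
    · exact integrable_const _
    · intro k
      exact Eventually.of_forall fun ω => by rw [Real.norm_eq_abs]; exact hFb _
    · filter_upwards [hℓ] with ω hω
      apply (hK.continuous.tendsto _).comp
      rw [tendsto_pi_nhds]
      intro i
      exact De_seq (e ω) (ℓ ω) hω.1 hω.2 (r i) (hr i)
  rw [Metric.tendsto_atTop]
  intro ε hε
  have hKm : (0 : ℝ) < 4 * ((K : ℝ) * m + 1) := by positivity
  have hε1 : 0 < ε / (4 * ((K : ℝ) * m + 1)) := div_pos hε hKm
  choose δ0 hδ0 hδ using fun i => hX i _ hε1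
  have hk : ∀ᶠ k : ℕ in atTop, (∀ i, 1 / ((k : ℝ) + 1) < δ0 i) ∧
      |(∫ ω, F (fun i =>
      (De (e ω) (r i + 1 / ((k : ℝ) + 1)) - De (e ω) (r i)) / (1 / ((k : ℝ) + 1))) ∂P) -
        ∫ ω, F (fun i => ℓ ω (r i)) ∂P| < ε / 4 := by
    refine (eventually_all.2 fun i => ?_).and ?_
    · exact (tendsto_order.1 tendsto_one_div_add_atTop_nhds_zero_nat).2 _ (hδ0 i)
    · have := (Metric.tendsto_atTop.1 hZ) (ε / 4) (by positivity)
      obtain ⟨N, hN⟩ := this
      filter_upwards [eventually_ge_atTop N] with k hk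
      have := hN k hk
      rwa [Real.dist_eq] at this
  obtain ⟨k, hk1, hk2⟩ := hk.exists
  have hδp : (0 : ℝ) < 1 / ((k : ℝ) + 1) := by positivity
  set δ : ℝ := 1 / ((k : ℝ) + 1) with hδdef
  have hA : ∀ᶠ n in atTop, ∀ i, avT (G n) (fun T => |X n T i
        - (Vp (O n) T (β n * Real.sqrt (Fintype.card (V n))) (r i + δ)
            - Vp (O n) T (β n * Real.sqrt (Fintype.card (V n))) (r i)) / δ|)
            ≤ ε / (4 * ((K : ℝ) * m + 1)) :=
    eventually_all.2 fun i => hδ i δ hδp (hk1 i)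
  have hB := vol_conv G hconn O β P e he hGHP hcont (m + m)
    (Fin.append r (fun i => r i + δ))
    (by
      intro j
      induction j using Fin.addCases with
      | left i => rw [Fin.append_left]; exact hr i
      | right i => rw [Fin.append_right]; linarith [hr i])
    (fun x => F (fun i => (x (Fin.natAdd m i) - x (Fin.castAdd m i)) / δ)) C ((K : ℝ) / δ)
    (fun x => hFb _)
    (by
      intro x y
      refine (lip_sum hK _ _).trans ?_
      rw [Fin.sum_univ_add, div_mul_eq_mul_div, mul_div_assoc, ← Finset.sum_add_distrib, Finset.sum_div]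
      refine mul_le_mul_of_nonneg_left (Finset.sum_le_sum fun i _ => ?_) K.coe_nonneg
      rw [← sub_div, abs_div, abs_of_pos hδp]
      apply div_le_div_of_nonneg_right _ hδp.le
      have h1 : x (Fin.natAdd m i) - x (Fin.castAdd m i) - (y (Fin.natAdd m i) - y (Fin.castAdd m i))
        = (x (Fin.natAdd m i) - y (Fin.natAdd m i)) - (x (Fin.castAdd m i) - y (Fin.castAdd m i)) := by ring
      rw [h1]
      have h2 := abs_sub (x (Fin.natAdd m i) - y (Fin.natAdd m i)) (x (Fin.castAdd m i) - y (Fin.castAdd m i))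
      linarith)
  simp only [Fin.append_left, Fin.append_right] at hB
  obtain ⟨N1, hN1⟩ := (Metric.tendsto_atTop.1 hB) (ε / 4) (by positivity)
  obtain ⟨N2, hN2⟩ := eventually_atTop.1 hA
  refine ⟨max N1 N2, fun n hn => ?_⟩
  have h1 := hN1 n (le_of_max_le_left hn)
  have h2 := hN2 n (le_of_max_le_right hn)
  rw [Real.dist_eq] at h1 ⊢
  have h3 : |avT (G n) (fun T => F (X n T)) - avT (G n) (fun T => F (fun i =>
      (Vp (O n) T (β n * Real.sqrt (Fintype.card (V n))) (r i + δ)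
            - Vp (O n) T (β n * Real.sqrt (Fintype.card (V n))) (r i)) / δ))| ≤ ε / 4 := by
    rw [avT_sub]
    refine (avT_abs _ _).trans ?_
    refine (avT_mono (G n) _ (fun T => (K : ℝ) * ∑ i, |X n T i
        - (Vp (O n) T (β n * Real.sqrt (Fintype.card (V n))) (r i + δ)
            - Vp (O n) T (β n * Real.sqrt (Fintype.card (V n))) (r i)) / δ|)
      (fun T => lip_sum hK _ _)).trans ?_
    rw [avT_mul, avT_sum (G n) (fun i T => |X n T i
        - (Vp (O n) T (β n * Real.sqrt (Fintype.card (V n))) (r i + δ)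
            - Vp (O n) T (β n * Real.sqrt (Fintype.card (V n))) (r i)) / δ|)]
    have h4 : ∑ i, avT (G n) (fun T => |X n T i
        - (Vp (O n) T (β n * Real.sqrt (Fintype.card (V n))) (r i + δ)
            - Vp (O n) T (β n * Real.sqrt (Fintype.card (V n))) (r i)) / δ|)
        ≤ ∑ _i : Fin m, ε / (4 * ((K : ℝ) * m + 1)) := Finset.sum_le_sum fun i _ => h2 i
    rw [Finset.sum_const, Finset.card_univ, Fintype.card_fin, nsmul_eq_mul] at h4
    refine (mul_le_mul_of_nonneg_left h4 K.coe_nonneg).trans ?_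
    rw [← mul_assoc, mul_div_assoc', div_le_div_iff₀ hKm (by norm_num)]
    nlinarith
  have h5 := abs_sub_le (avT (G n) (fun T => F (X n T))) (avT (G n) (fun T => F (fun i =>
      (Vp (O n) T (β n * Real.sqrt (Fintype.card (V n))) (r i + δ)
            - Vp (O n) T (β n * Real.sqrt (Fintype.card (V n))) (r i)) / δ)))
      (∫ ω, F (fun i => ℓ ω (r i)) ∂P)
  have h6 := abs_sub_le (avT (G n) (fun T => F (fun i =>
      (Vp (O n) T (β n * Real.sqrt (Fintype.card (V n))) (r i + δ)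
            - Vp (O n) T (β n * Real.sqrt (Fintype.card (V n))) (r i)) / δ)))
      (∫ ω, F (fun i => (De (e ω) (r i + δ) - De (e ω) (r i)) / δ) ∂P)
      (∫ ω, F (fun i => ℓ ω (r i)) ∂P)
  linarith

end aux

-- TARGET
section
open MeasureTheory Filter Topology

/-- the profile converges as soon as the window averages are asymptotically regular -/
theorem profile_of_RT {V : ℕ → Type} [∀ n, Fintype (V n)] [∀ n, DecidableEq (V n)]
    (G : ∀ n, SimpleGraph (V n)) (hconn : ∀ n, (G n).Connected)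
    (hcard : Tendsto (fun n => Fintype.card (V n)) atTop atTop) (O : ∀ n, V n)
    (β : ℕ → ℝ) (b1 b2 : ℝ) (hb1 : 0 < b1) (hβ : ∀ n, b1 ≤ β n ∧ β n ≤ b2)
    (w : ℕ → ℕ) (hw1 : ∀ n, 1 ≤ w n)
    (hw0 : Tendsto (fun n => (w n : ℝ) / Real.sqrt (Fintype.card (V n))) atTop (𝓝 0))
    (hRT : ∀ a b ε : ℝ, 0 < a → 0 < b → 0 < ε → ∃ δ : ℝ, 0 < δ ∧ ∀ᶠ n in atTop, ∀ l s : ℕ,
      a * Real.sqrt (Fintype.card (V n)) ≤ l → (l : ℝ) ≤ b * Real.sqrt (Fintype.card (V n)) →
      (s : ℝ) ≤ δ * Real.sqrt (Fintype.card (V n)) →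
      avT (G n) (fun T => ((1 / (w n : ℝ)) * ∑ j ∈ range (w n),
        ((Hp (O n) T (l + j) : ℝ) - (Hp (O n) T (l + s + j) : ℝ))) ^ 2)
        ≤ ε * Fintype.card (V n))
    (hEH : ∀ b : ℝ, 0 < b → ∃ C : ℝ, 0 < C ∧ ∀ᶠ n in atTop, ∀ k : ℕ,
      (k : ℝ) ≤ b * Real.sqrt (Fintype.card (V n)) →
      avT (G n) (fun T => (Hp (O n) T k : ℝ)) ≤ C * Real.sqrt (Fintype.card (V n)))
    {Ω : Type} [MeasurableSpace Ω] (P : Measure Ω) [IsProbabilityMeasure P]
    (e : Ω → C(unitInterval, ℝ)) (he : Measurable e) (hGHP : GHPconv G O β P e)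
    (ℓ : Ω → ℝ → ℝ) (hℓ : ∀ᵐ ω ∂P, ContinuousOn (ℓ ω) (Set.Ici 0) ∧
      ∀ r : ℝ, 0 ≤ r → De (e ω) r = ∫ s in (0 : ℝ)..r, ℓ ω s)
    (m : ℕ) (r : Fin m → ℝ) (hr : ∀ i, 0 < r i)
    (F : (Fin m → ℝ) → ℝ) (hF : Continuous F) (hFb : ∃ C, ∀ x, |F x| ≤ C) :
    Tendsto (fun n => avT (G n) (fun T => F (fun i =>
      β n / Real.sqrt (Fintype.card (V n)) * ((1 / (w n : ℝ)) * ∑ j ∈ range (w n),
        (Hp (O n) T (⌊r i * β n * Real.sqrt (Fintype.card (V n))⌋₊ + j) : ℝ)))))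
      atTop (𝓝 (∫ ω, F (fun i => ℓ ω (r i)) ∂P)) := by
  obtain ⟨C, hC⟩ := hFb
  have hX : ∀ i, ∀ ε : ℝ, 0 < ε → ∃ δ0 : ℝ, 0 < δ0 ∧ ∀ δ : ℝ, 0 < δ → δ < δ0 → ∀ᶠ n in atTop,
      avT (G n) (fun T => |(fun i => β n / Real.sqrt (Fintype.card (V n)) * ((1 / (w n : ℝ)) *
          ∑ j ∈ range (w n),
          (Hp (O n) T (⌊r i * β n * Real.sqrt (Fintype.card (V n))⌋₊ + j) : ℝ))) i
        - (Vp (O n) T (β n * Real.sqrt (Fintype.card (V n))) (r i + δ)
            - Vp (O n) T (β n * Real.sqrt (Fintype.card (V n))) (r i)) / δ|) ≤ ε :=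
    fun i ε hε => XY_close G hconn hcard O β b1 b2 hb1 hβ w hw1 hw0 hRT hEH (r i) ε (hr i) hε
  have hmeas : AEMeasurable (fun ω => (fun i => ℓ ω (r i) : Fin m → ℝ)) P := by
    rw [aemeasurable_pi_iff]
    intro i
    apply aemeasurable_of_tendsto_metrizable_ae (u := atTop)
      (f := fun (k : ℕ) ω => (De (e ω) (r i + 1 / ((k : ℝ) + 1)) - De (e ω) (r i)) / (1 / ((k : ℝ) + 1)))
    · intro k
      exact ((((De_measurable _).comp he).sub ((De_measurable _).comp he)).div_const _).aemeasurable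
    · filter_upwards [hℓ] with ω hω
      exact De_seq (e ω) (ℓ ω) hω.1 hω.2 (r i) (hr i)
  let X : ∀ n, SimpleGraph (V n) → Fin m → ℝ := fun n T i =>
    β n / Real.sqrt (Fintype.card (V n)) * ((1 / (w n : ℝ)) * ∑ j ∈ range (w n),
        (Hp (O n) T (⌊r i * β n * Real.sqrt (Fintype.card (V n))⌋₊ + j) : ℝ))
  let μ : ℕ → ProbabilityMeasure (Fin m → ℝ) := fun n => ⟨lawT (G n) (X n), lawT_prob (G n) (hconn n) _⟩
  let ν : ProbabilityMeasure (Fin m → ℝ) := ⟨P.map (fun ω => (fun i => ℓ ω (r i) : Fin m → ℝ)),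
    Measure.isProbabilityMeasure_map hmeas⟩
  have key : Tendsto μ atTop (𝓝 ν) := by
    rw [tendsto_iff_forall_lipschitz_integral_tendsto]
    rintro f ⟨C', hC'⟩ ⟨K, hK⟩
    have h1 : ∀ n, ∫ x, f x ∂(μ n : Measure (Fin m → ℝ)) = avT (G n) (fun T => f (X n T)) :=
      fun n => lawT_integral (G n) (X n) f
    have h2 : ∫ x, f x ∂(ν : Measure (Fin m → ℝ)) = ∫ ω, f (fun i => ℓ ω (r i)) ∂P :=
      integral_map hmeas hK.continuous.measurable.aestronglyMeasurable
    simp only [h1, h2]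
    refine lip_case G hconn O β P e he hGHP ℓ hℓ m r hr X hX f (|f 0| + C') (fun x => ?_) K hK
    have h3 := hC' x 0
    rw [Real.dist_eq] at h3
    have h4 := abs_sub_abs_le_abs_sub (f x) (f 0)
    linarith
  rw [ProbabilityMeasure.tendsto_iff_forall_integral_tendsto] at key
  have h := key (BoundedContinuousFunction.ofNormedAddCommGroup F hF C (fun x => by
    rw [Real.norm_eq_abs]; exact hC x))
  have h1 : ∀ n, ∫ x, F x ∂(μ n : Measure (Fin m → ℝ)) = avT (G n) (fun T => F (X n T)) :=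
    fun n => lawT_integral (G n) (X n) F
  have h2 : ∫ x, F x ∂(ν : Measure (Fin m → ℝ)) = ∫ ω, F (fun i => ℓ ω (r i)) ∂P :=
    integral_map hmeas hF.measurable.aestronglyMeasurable
  simp only [BoundedContinuousFunction.coe_ofNormedAddCommGroup, h1, h2] at h
  exact h

end

end HP192
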