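import Mathlib
import Pool.Agent.Helper192_HP.Defs
import Pool.Agent.Helper192_HP.WDefs
import Pool.Agent.Helper192_HP.Basic
import Pool.Agent.Helper192_HP.W01
import Pool.Agent.Helper192_HP.W02

namespace HP192
open Finset

-- TARGET
namespace Ker
variable {V : Type} [Fintype V] [DecidableEq V] (K : Ker V)

/-- expected number of short returns after a non-lazy step -/
def lo (o : V) (N : ℕ) : ℝ := ∑ c ∈ range (N + 1), ∑ y ∈ univ.erase o, K.P o y * K.hk c y o

/-- probability of a loop step from the path L -/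
def unit_shift_lp (o : V) (L : List V) : ℝ :=
  ∑ y, K.P (tip o L) y * (if y ≠ tip o L ∧ y ∈ LE L then (1 : ℝ) else 0)

/-- probability of a loop step from the path L with new length M + 1 -/
def unit_shift_ep (o : V) (M : ℕ) (L : List V) : ℝ :=
  ∑ y, K.P (tip o L) y * (if (y ≠ tip o L ∧ y ∈ LE L) ∧ len (y :: L) = M + 1 then (1 : ℝ) else 0)

theorem unit_shift_tip (o : V) (L : List V) (hL : L ≠ []) : ∃ L', L = tip o L :: L' := by
  cases L with
  | nil => exact absurd rfl hL
  | cons a L' => exact ⟨L', by simp⟩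

theorem unit_shift_len_same (o : V) (L : List V) (hL : L ≠ []) : len (tip o L :: L) = len L := by
  obtain ⟨L', hL'⟩ := unit_shift_tip o L hL
  obtain ⟨s, hs⟩ := LE_cons (tip o L) L'
  rw [← hL'] at hs
  have h1 : LE (tip o L :: L) = stp (tip o L) (LE L) := rfl
  unfold len
  rw [h1, hs]
  simp [stp]

theorem unit_shift_len_new (y : V) (L : List V) (hy : y ∉ LE L) : len (y :: L) = len L + 1 := by
  have h1 : LE (y :: L) = stp y (LE L) := rfl
  unfold len
  rw [h1]
  simp [stp, hy]

theorem unit_shift_R (o a : V) (c : ℕ) :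
    ∑ z, (if z = a then (0 : ℝ) else K.P a z * K.hk c z a) =
      ∑ y ∈ univ.erase o, K.P o y * K.hk c y o := by
  obtain ⟨g, hg, hP⟩ := K.tr o a
  have h1 : ∑ z, (if z = a then (0 : ℝ) else K.P a z * K.hk c z a) =
      ∑ u, (if u = o then (0 : ℝ) else K.P o u * K.hk c u o) := by
    rw [← Equiv.sum_comp g]
    apply Finset.sum_congr rfl
    intro u _
    rw [← hg]
    by_cases hu : u = o
    · simp [hu]
    · have : g u ≠ g o := fun h => hu (g.injective h)
      rw [if_neg this, if_neg hu, hP, K.hk_auto g hP]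
  rw [h1, ← Finset.sum_filter_add_sum_filter_not univ (fun u => u = o)]
  have h2 : ∑ u ∈ univ.filter (fun u => u = o), (if u = o then (0 : ℝ) else K.P o u * K.hk c u o) = 0 := by
    apply Finset.sum_eq_zero
    intro u hu
    rw [if_pos (Finset.mem_filter.1 hu).2]
  rw [h2, zero_add]
  have h3 : univ.filter (fun u => ¬ u = o) = univ.erase o := by
    ext u
    simp
  rw [h3]
  apply Finset.sum_congr rfl
  intro u hu
  rw [if_neg (Finset.ne_of_mem_erase hu)]

theorem unit_shift_term (o : V) (N c : ℕ) (hc : c < N) :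
    K.EW N o (fun L => ∑ y, K.P (tip o L) y *
      (if y ≠ tip o L ∧ L[c]? = some y then (1 : ℝ) else 0)) =
      ∑ y ∈ univ.erase o, K.P o y * K.hk c y o := by
  obtain ⟨i, rfl⟩ : ∃ i, N = (i + 1) + c := ⟨N - c - 1, by omega⟩
  rw [K.EW_append (i + 1) c]
  have h1 : K.EW (i + 1) o (fun w => K.EW c (tip o w) (fun w' => ∑ y, K.P (tip o (w' ++ w)) y *
      (if y ≠ tip o (w' ++ w) ∧ (w' ++ w)[c]? = some y then (1 : ℝ) else 0))) =
      K.EW (i + 1) o (fun _ => ∑ y ∈ univ.erase o, K.P o y * K.hk c y o) := by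
    apply K.EW_congr
    intro w hw
    cases w with
    | nil => simp at hw
    | cons a w1 =>
      rw [tip_cons]
      have h2 : K.EW c a (fun w' => ∑ y, K.P (tip o (w' ++ a :: w1)) y *
          (if y ≠ tip o (w' ++ a :: w1) ∧ (w' ++ a :: w1)[c]? = some y then (1 : ℝ) else 0)) =
          K.EW c a (fun w' => (fun z => if z = a then (0 : ℝ) else K.P z a) (tip a w')) := by
        apply K.EW_congr
        intro w' hw'
        have h3 : tip o (w' ++ a :: w1) = tip a w' := by
          rw [tip_append, tip_cons]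
        have h4 : (w' ++ a :: w1)[c]? = some a := by
          rw [← hw', List.getElem?_append_right (le_refl _)]
          simp
        rw [h3, h4]
        rw [Finset.sum_eq_single a]
        · by_cases h : tip a w' = a
          · simp [h]
          · have h' : a ≠ tip a w' := fun e => h e.symm
            simp [h, h']
        · intro y _ hy
          have : ¬ (y ≠ tip a w' ∧ some a = some y) := by
            rintro ⟨_, h⟩
            exact hy (Option.some.inj h).symm
          rw [if_neg this, mul_zero]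
        · intro h
          exact absurd (Finset.mem_univ _) h
      rw [h2, ← K.unit_shift_R o a c]
      refine (K.EW_tip c a (fun z => if z = a then (0 : ℝ) else K.P z a)).trans ?_
      apply Finset.sum_congr rfl
      intro z _
      by_cases hz : z = a
      · simp [hz]
      · simp only [hz, if_false, smul_eq_mul]
        rw [K.sym z a, K.hk_symm c a z, mul_comm]
  rw [h1, K.EW_const]

theorem unit_shift_loop (o : V) (N : ℕ) : K.EW N o (K.unit_shift_lp o) ≤ K.lo o N := by
  have h0 : ∀ c, 0 ≤ ∑ y ∈ univ.erase o, K.P o y * K.hk c y o := fun c =>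
    Finset.sum_nonneg fun y _ => mul_nonneg (K.nn _ _) (K.hk_nonneg _ _ _)
  have h1 : K.EW N o (K.unit_shift_lp o) ≤ K.EW N o (fun L => ∑ c ∈ range N, ∑ y, K.P (tip o L) y *
      (if y ≠ tip o L ∧ L[c]? = some y then (1 : ℝ) else 0)) := by
    apply K.EW_mono
    intro L hL
    unfold unit_shift_lp
    rw [Finset.sum_comm]
    apply Finset.sum_le_sum
    intro y _
    rw [← Finset.mul_sum]
    apply mul_le_mul_of_nonneg_left _ (K.nn _ _)
    have hnn : ∀ c ∈ range N, (0 : ℝ) ≤ (if y ≠ tip o L ∧ L[c]? = some y then (1 : ℝ) else 0) := by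
      intro c _
      split_ifs <;> norm_num
    by_cases h : y ≠ tip o L ∧ y ∈ LE L
    · rw [if_pos h]
      have hy := LE_sub L y h.2
      obtain ⟨c, hc, hcy⟩ := List.mem_iff_getElem.1 hy
      have hcN : c ∈ range N := by
        rw [Finset.mem_range, ← hL]
        exact hc
      have h2 : (if y ≠ tip o L ∧ L[c]? = some y then (1 : ℝ) else 0) = 1 := by
        rw [if_pos]
        exact ⟨h.1, by rw [List.getElem?_eq_getElem hc, hcy]⟩
      exact h2.symm.le.trans (Finset.single_le_sum
        (f := fun c => (if y ≠ tip o L ∧ L[c]? = some y then (1 : ℝ) else 0)) hnn hcN)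
    · rw [if_neg h]
      exact Finset.sum_nonneg hnn
  refine h1.trans ?_
  rw [K.EW_sum]
  rw [Finset.sum_congr rfl (fun c hc => K.unit_shift_term o N c (Finset.mem_range.1 hc))]
  unfold lo
  rw [Finset.sum_range_succ]
  have := h0 N
  linarith

theorem unit_shift_lo_mono (o : V) (N N' : ℕ) (h : N ≤ N') : K.lo o N ≤ K.lo o N' := by
  unfold lo
  apply Finset.sum_le_sum_of_subset_of_nonneg
  · intro c hc
    rw [Finset.mem_range] at hc ⊢
    omega
  · intro c _ _
    exact Finset.sum_nonneg fun y _ => mul_nonneg (K.nn _ _) (K.hk_nonneg _ _ _)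

theorem unit_shift_pt (o : V) (L : List V) (hL : L ≠ []) (M : ℕ) :
    ∑ y, K.P (tip o L) y * (if len (y :: L) = M + 1 then (1 : ℝ) else 0) =
      1 / 2 * (if len L = M + 1 then (1 : ℝ) else 0) + 1 / 2 * (if len L = M then (1 : ℝ) else 0) -
        K.unit_shift_lp o L * (if len L = M then (1 : ℝ) else 0) + K.unit_shift_ep o M L := by
  set z := tip o L with hz
  have h1 : ∀ y, K.P z y * (if len (y :: L) = M + 1 then (1 : ℝ) else 0) =
      (if y = z then K.P z y else 0) * (if len L = M + 1 then (1 : ℝ) else 0) +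
      (K.P z y - (if y = z then K.P z y else 0)) * (if len L = M then (1 : ℝ) else 0) -
      (K.P z y * (if y ≠ z ∧ y ∈ LE L then (1 : ℝ) else 0)) * (if len L = M then (1 : ℝ) else 0) +
      K.P z y * (if (y ≠ z ∧ y ∈ LE L) ∧ len (y :: L) = M + 1 then (1 : ℝ) else 0) := by
    intro y
    by_cases hy : y = z
    · subst hy
      have hl : len (tip o L :: L) = len L := unit_shift_len_same o L hL
      simp [hz, hl]
    · by_cases hy2 : y ∈ LE L
      · simp [hy, hy2]
      · have hl := unit_shift_len_new y L hy2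
        simp [hy, hy2, hl]
  rw [Finset.sum_congr rfl (fun y _ => h1 y), Finset.sum_add_distrib, Finset.sum_sub_distrib,
    Finset.sum_add_distrib, ← Finset.sum_mul, ← Finset.sum_mul, ← Finset.sum_mul,
    Finset.sum_sub_distrib]
  have h2 : ∑ y, (if y = z then K.P z y else 0) = 1 / 2 := by
    rw [Finset.sum_ite_eq' univ z]
    simp [K.hold]
  rw [h2, K.row]
  unfold unit_shift_lp unit_shift_ep
  rw [← hz]
  norm_num

theorem unit_shift_rec (o : V) (ω : List V) (hω : ω ≠ []) (t M : ℕ) :
    K.EW (t + 1) (tip o ω) (fun w => if len (w ++ ω) = M + 1 then (1 : ℝ) else 0) =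
      1 / 2 * K.EW t (tip o ω) (fun w => if len (w ++ ω) = M + 1 then (1 : ℝ) else 0) +
      1 / 2 * K.EW t (tip o ω) (fun w => if len (w ++ ω) = M then (1 : ℝ) else 0) -
      K.EW t (tip o ω) (fun w => K.unit_shift_lp o (w ++ ω) *
        (if len (w ++ ω) = M then (1 : ℝ) else 0)) +
      K.EW t (tip o ω) (fun w => K.unit_shift_ep o M (w ++ ω)) := by
  rw [K.EW_succ', ← K.EW_mul_left, ← K.EW_mul_left, ← K.EW_add, ← K.EW_sub, ← K.EW_add]
  apply K.EW_congr
  intro w _
  have hL : w ++ ω ≠ [] := by simp [hω]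
  rw [← K.unit_shift_pt o (w ++ ω) hL M]
  apply Finset.sum_congr rfl
  intro y _
  rw [← tip_append, smul_eq_mul, List.cons_append]

theorem unit_shift_lp_nn (o : V) (L : List V) : 0 ≤ K.unit_shift_lp o L := by
  unfold unit_shift_lp
  apply Finset.sum_nonneg
  intro y _
  apply mul_nonneg (K.nn _ _)
  split_ifs <;> norm_num

theorem unit_shift_ep_nn (o : V) (M : ℕ) (L : List V) : 0 ≤ K.unit_shift_ep o M L := by
  unfold unit_shift_ep
  apply Finset.sum_nonneg
  intro y _
  apply mul_nonneg (K.nn _ _)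
  split_ifs <;> norm_num

theorem unit_shift_one (Mx k : ℕ) : ∑ M ∈ range Mx, (if k = M + 1 then (1 : ℝ) else 0) ≤ 1 := by
  rcases Nat.eq_zero_or_pos k with rfl | hk
  · simp
  · obtain ⟨j, rfl⟩ : ∃ j, k = j + 1 := ⟨k - 1, by omega⟩
    have : ∀ M ∈ range Mx, (if j + 1 = M + 1 then (1 : ℝ) else 0) = if j = M then (1 : ℝ) else 0 := by
      intro M _
      simp
    rw [Finset.sum_congr rfl this, Finset.sum_ite_eq]
    split_ifs <;> norm_num

theorem unit_shift_one' (Mx k : ℕ) : ∑ M ∈ range Mx, (if k = M then (1 : ℝ) else 0) ≤ 1 := by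
  rw [Finset.sum_ite_eq]
  split_ifs <;> norm_num

theorem unit_shift_ep_sum (o : V) (Mx : ℕ) (L : List V) :
    ∑ M ∈ range Mx, K.unit_shift_ep o M L ≤ K.unit_shift_lp o L := by
  unfold unit_shift_ep unit_shift_lp
  rw [Finset.sum_comm]
  apply Finset.sum_le_sum
  intro y _
  rw [← Finset.mul_sum]
  apply mul_le_mul_of_nonneg_left _ (K.nn _ _)
  by_cases h : y ≠ tip o L ∧ y ∈ LE L
  · rw [if_pos h]
    have : ∀ M ∈ range Mx, (if (y ≠ tip o L ∧ y ∈ LE L) ∧ len (y :: L) = M + 1 then (1 : ℝ) else 0) =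
        if len (y :: L) = M + 1 then (1 : ℝ) else 0 := by
      intro M _
      simp [h]
    rw [Finset.sum_congr rfl this]
    exact unit_shift_one Mx _
  · rw [if_neg h]
    apply le_of_eq
    apply Finset.sum_eq_zero
    intro M _
    rw [if_neg]
    exact fun h' => h h'.1

theorem unit_shift_fix (o : V) (T Mx : ℕ) (ω : List V) (hω : ω ≠ []) :
    ∑ M ∈ range Mx, |K.fM o T (M + 1) ω - K.fM o T M ω| ≤
      4 + 4 * ∑ t ∈ range T, K.EW t (tip o ω) (fun w => K.unit_shift_lp o (w ++ ω)) := by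
  set p : ℕ → ℕ → ℝ := fun t M =>
    K.EW t (tip o ω) (fun w => if len (w ++ ω) = M then (1 : ℝ) else 0) with hp
  set e : ℕ → ℕ → ℝ := fun t M => K.EW t (tip o ω) (fun w => K.unit_shift_lp o (w ++ ω) *
        (if len (w ++ ω) = M then (1 : ℝ) else 0)) with he
  set e' : ℕ → ℕ → ℝ := fun t M => K.EW t (tip o ω) (fun w => K.unit_shift_ep o M (w ++ ω)) with he'
  have hrec : ∀ t M, p (t + 1) (M + 1) = 1 / 2 * p t (M + 1) + 1 / 2 * p t M - e t M + e' t M :=
    fun t M => K.unit_shift_rec o ω hω t M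
  have hp0 : ∀ t M, 0 ≤ p t M := fun t M => K.EW_nonneg _ _ _ fun w _ => by
    split_ifs <;> norm_num
  have he0 : ∀ t M, 0 ≤ e t M := fun t M => K.EW_nonneg _ _ _ fun w _ => by
    apply mul_nonneg (K.unit_shift_lp_nn _ _)
    split_ifs <;> norm_num
  have he0' : ∀ t M, 0 ≤ e' t M := fun t M => K.EW_nonneg _ _ _ fun w _ => K.unit_shift_ep_nn _ _ _
  have hf : ∀ M, K.fM o T M ω = ∑ t ∈ range T, p t M := by
    intro M
    unfold fM
    apply Finset.sum_congr rfl
    intro t _
    rfl
  have hshift : ∀ M, ∑ t ∈ range T, p (t + 1) M = ∑ t ∈ range T, p t M - p 0 M + p T M := by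
    intro M
    have h1 := Finset.sum_range_succ (fun t => p t M) T
    have h2 := Finset.sum_range_succ' (fun t => p t M) T
    linarith
  have hdiff : ∀ M, |K.fM o T (M + 1) ω - K.fM o T M ω| ≤
      2 * p 0 (M + 1) + 2 * p T (M + 1) + 2 * ∑ t ∈ range T, (e t M + e' t M) := by
    intro M
    have h1 := hshift (M + 1)
    rw [Finset.sum_congr rfl (fun t _ => hrec t M)] at h1
    rw [Finset.sum_add_distrib, Finset.sum_sub_distrib, Finset.sum_add_distrib, ← Finset.mul_sum,
      ← Finset.mul_sum] at h1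
    rw [hf, hf, Finset.sum_add_distrib]
    have h2 := hp0 0 (M + 1)
    have h3 := hp0 T (M + 1)
    have h4 : 0 ≤ ∑ t ∈ range T, e t M := Finset.sum_nonneg fun t _ => he0 t M
    have h5 : 0 ≤ ∑ t ∈ range T, e' t M := Finset.sum_nonneg fun t _ => he0' t M
    rw [abs_le]
    constructor <;> linarith
  refine (Finset.sum_le_sum fun M _ => hdiff M).trans ?_
  rw [Finset.sum_add_distrib, Finset.sum_add_distrib, ← Finset.mul_sum, ← Finset.mul_sum,
    ← Finset.mul_sum]
  have hone : ∀ t, ∑ M ∈ range Mx, p t (M + 1) ≤ 1 := by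
    intro t
    rw [← K.EW_sum]
    apply K.EW_le_const
    intro w _
    exact unit_shift_one Mx _
  have hcomm : ∑ M ∈ range Mx, ∑ t ∈ range T, (e t M + e' t M) ≤
      2 * ∑ t ∈ range T, K.EW t (tip o ω) (fun w => K.unit_shift_lp o (w ++ ω)) := by
    rw [Finset.sum_comm, Finset.mul_sum]
    apply Finset.sum_le_sum
    intro t _
    rw [Finset.sum_add_distrib, ← K.EW_sum, ← K.EW_sum, two_mul]
    apply add_le_add
    · apply K.EW_mono
      intro w _
      rw [← Finset.mul_sum]
      have h1 := unit_shift_one' Mx (len (w ++ ω))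
      have h2 := K.unit_shift_lp_nn o (w ++ ω)
      calc K.unit_shift_lp o (w ++ ω) * ∑ M ∈ range Mx, (if len (w ++ ω) = M then (1 : ℝ) else 0)
          ≤ K.unit_shift_lp o (w ++ ω) * 1 := mul_le_mul_of_nonneg_left h1 h2
        _ = _ := mul_one _
    · apply K.EW_mono
      intro w _
      exact K.unit_shift_ep_sum o Mx (w ++ ω)
  have h1 := hone 0
  have h2 := hone T
  linarith

theorem unit_shift (o : V) (T r0 Mx : ℕ) (hr0 : 1 ≤ r0) :
    K.EW r0 o (fun ω => ∑ M ∈ range Mx, |K.fM o T (M + 1) ω - K.fM o T M ω|)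
      ≤ 4 + 4 * T * K.lo o (r0 + T) := by
  have h1 : K.EW r0 o (fun ω => ∑ M ∈ range Mx, |K.fM o T (M + 1) ω - K.fM o T M ω|) ≤
      K.EW r0 o (fun ω => 4 + 4 * ∑ t ∈ range T, K.EW t (tip o ω)
        (fun w => K.unit_shift_lp o (w ++ ω))) := by
    apply K.EW_mono
    intro ω hω
    apply K.unit_shift_fix
    intro h
    rw [h] at hω
    simp at hω
    omega
  refine h1.trans ?_
  rw [K.EW_add, K.EW_const, K.EW_mul_left, K.EW_sum]
  have h2 : ∑ t ∈ range T, K.EW r0 o (fun ω => K.EW t (tip o ω)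
      (fun w => K.unit_shift_lp o (w ++ ω))) ≤ ∑ t ∈ range T, K.lo o (r0 + T) := by
    apply Finset.sum_le_sum
    intro t ht
    rw [← K.EW_append r0 t o (K.unit_shift_lp o)]
    refine (K.unit_shift_loop o (r0 + t)).trans (K.unit_shift_lo_mono o _ _ ?_)
    rw [Finset.mem_range] at ht
    omega
  rw [Finset.sum_const, Finset.card_range, nsmul_eq_mul] at h2
  linarith

end Ker

end HP192
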