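import Mathlib
import Pool.Agent.Helper192_HP.Defs
import Pool.Agent.Helper192_HP.WDefs
import Pool.Agent.Helper192_HP.Basic
import Pool.Agent.Helper192_HP.W01
import Pool.Agent.Helper192_HP.W02
import Pool.Agent.Helper192_HP.W21
import Pool.Agent.Helper192_HP.W06

namespace HP192
open Finset

-- TARGET
namespace Ker
variable {V : Type} [Fintype V] [DecidableEq V] (K : Ker V)

theorem lo_bound_hk1 (x y : V) : K.hk 1 x y = K.P x y := by
  show ∑ z, K.P x z * K.hk 0 z y = K.P x y
  have h : ∀ z, K.P x z * K.hk 0 z y = if z = y then K.P x y else 0 := by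
    intro z
    show K.P x z * (if z = y then (1 : ℝ) else 0) = _
    split_ifs with h
    · rw [h, mul_one]
    · rw [mul_zero]
  rw [Finset.sum_congr rfl (fun z _ => h z)]
  simp

theorem lo_bound_half (o : V) : ∑ y ∈ univ.erase o, K.P o y = 1 / 2 := by
  have h := Finset.add_sum_erase univ (fun y => K.P o y) (Finset.mem_univ o)
  have h1 := K.row o
  have h2 := K.hold o
  linarith

theorem lo_bound_off (q : ℝ) (hq : ∀ x y, x ≠ y → K.P x y ≤ q) (o y : V) (hy : y ≠ o) (c : ℕ) :
    K.hk c y o ≤ 2 * q := by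
  have hq0 : 0 ≤ q := le_trans (K.nn y o) (hq y o hy)
  induction c with
  | zero =>
    show (if y = o then (1 : ℝ) else 0) ≤ 2 * q
    rw [if_neg hy]
    linarith
  | succ c ih =>
    rw [K.hk_add c 1 y o, ← Finset.add_sum_erase univ _ (Finset.mem_univ o)]
    have h1 : ∑ z ∈ univ.erase o, K.hk c y z * K.hk 1 z o ≤ ∑ z ∈ univ.erase o, K.hk c y z * q := by
      refine Finset.sum_le_sum fun z hz => ?_
      rw [K.lo_bound_hk1 z o]
      exact mul_le_mul_of_nonneg_left (hq z o (Finset.ne_of_mem_erase hz)) (K.hk_nonneg c y z)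
    have h2 : ∑ z ∈ univ.erase o, K.hk c y z * q ≤ q := by
      rw [← Finset.sum_mul]
      have h3 : ∑ z ∈ univ.erase o, K.hk c y z ≤ 1 := by
        rw [← K.hk_row c y]
        exact Finset.sum_le_sum_of_subset_of_nonneg (Finset.erase_subset _ _)
          (fun z _ _ => K.hk_nonneg c y z)
      nlinarith
    have h4 : K.hk c y o * K.hk 1 o o ≤ q := by
      rw [K.lo_bound_hk1 o o, K.hold o]
      linarith
    linarith

theorem lo_bound (o : V) (N J : ℕ) (q : ℝ) (hq : ∀ x y, x ≠ y → K.P x y ≤ q) :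
    K.lo o N ≤ J * q + K.Th o (N + 1) / (J + 1) := by
  have hhalf := K.lo_bound_half o
  have hq0 : 0 ≤ q := by
    have hne : (univ.erase o).Nonempty := by
      rw [Finset.nonempty_iff_ne_empty]
      intro h
      rw [h, Finset.sum_empty] at hhalf
      norm_num at hhalf
    obtain ⟨y, hy⟩ := hne
    exact le_trans (K.nn o y) (hq o y (Finset.ne_of_mem_erase hy).symm)
  have hJ : (0 : ℝ) < (J : ℝ) + 1 := by positivity
  have ha1 : ∀ c, ∑ y ∈ univ.erase o, K.P o y * K.hk c y o ≤ q := by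
    intro c
    calc ∑ y ∈ univ.erase o, K.P o y * K.hk c y o ≤ ∑ y ∈ univ.erase o, K.P o y * (2 * q) := by
          refine Finset.sum_le_sum fun y hy => ?_
          exact mul_le_mul_of_nonneg_left (K.lo_bound_off q hq o y (Finset.ne_of_mem_erase hy) c)
            (K.nn o y)
      _ = q := by
          rw [← Finset.sum_mul, hhalf]
          ring
  have ha2 : ∀ c, ∑ y ∈ univ.erase o, K.P o y * K.hk c y o ≤ K.hk (c + 1) o o := by
    intro c
    show _ ≤ ∑ z, K.P o z * K.hk c z o
    exact Finset.sum_le_sum_of_subset_of_nonneg (Finset.erase_subset _ _)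
      (fun z _ _ => mul_nonneg (K.nn o z) (K.hk_nonneg c z o))
  have ha3 : ∀ c, ∑ y ∈ univ.erase o, K.P o y * K.hk c y o ≤
      (if c < J then q else 0) + (((c + 1 : ℕ) : ℝ) + 1) * K.hk (c + 1) o o / ((J : ℝ) + 1) := by
    intro c
    have h0 : 0 ≤ (((c + 1 : ℕ) : ℝ) + 1) * K.hk (c + 1) o o / ((J : ℝ) + 1) := by
      have := K.hk_nonneg (c + 1) o o
      positivity
    split_ifs with h
    · have := ha1 c
      linarith
    · rw [zero_add]
      refine le_trans (ha2 c) ?_
      rw [le_div_iff₀ hJ]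
      have h1 : (J : ℝ) + 1 ≤ ((c + 1 : ℕ) : ℝ) + 1 := by
        have : J ≤ c + 1 := by omega
        have : (J : ℝ) ≤ ((c + 1 : ℕ) : ℝ) := by exact_mod_cast this
        linarith
      have h2 := K.hk_nonneg (c + 1) o o
      rw [mul_comm]
      exact mul_le_mul_of_nonneg_right h1 h2
  have hs1 : ∑ c ∈ range (N + 1), (if c < J then q else 0) ≤ J * q := by
    rw [← Finset.sum_filter]
    rw [Finset.sum_const, nsmul_eq_mul]
    refine mul_le_mul_of_nonneg_right ?_ hq0
    have h1 : (range (N + 1)).filter (fun c => c < J) ⊆ range J := by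
      intro c hc
      rw [Finset.mem_filter] at hc
      exact Finset.mem_range.2 hc.2
    have h2 := Finset.card_le_card h1
    rw [Finset.card_range] at h2
    exact_mod_cast h2
  have hs2 : ∑ c ∈ range (N + 1), (((c + 1 : ℕ) : ℝ) + 1) * K.hk (c + 1) o o / ((J : ℝ) + 1) ≤
      K.Th o (N + 1) / ((J : ℝ) + 1) := by
    rw [← Finset.sum_div]
    refine div_le_div_of_nonneg_right ?_ hJ.le
    show _ ≤ ∑ c ∈ range (N + 1 + 1), ((c : ℝ) + 1) * K.hk c o o
    rw [Finset.sum_range_succ' _ (N + 1)]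
    have := K.hk_nonneg 0 o o
    have h0 : 0 ≤ (((0 : ℕ) : ℝ) + 1) * K.hk 0 o o := by positivity
    linarith
  calc K.lo o N = ∑ c ∈ range (N + 1), ∑ y ∈ univ.erase o, K.P o y * K.hk c y o := rfl
    _ ≤ ∑ c ∈ range (N + 1), ((if c < J then q else 0) +
        (((c + 1 : ℕ) : ℝ) + 1) * K.hk (c + 1) o o / ((J : ℝ) + 1)) :=
        Finset.sum_le_sum fun c _ => ha3 c
    _ = _ := Finset.sum_add_distrib
    _ ≤ J * q + K.Th o (N + 1) / (J + 1) := add_le_add hs1 hs2

end Ker

end HP192
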