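import Mathlib
import Pool.Agent.Helper192_HP.Defs
import Pool.Agent.Helper192_HP.WDefs
import Pool.Agent.Helper192_HP.Basic
import Pool.Agent.Helper192_HP.W01
import Pool.Agent.Helper192_HP.W02
import Pool.Agent.Helper192_HP.AbDef
import Pool.Agent.Helper192_HP.W04
import Pool.Agent.Helper192_HP.W06

namespace HP192
open Finset

-- AUX
namespace Ker
variable {V : Type} [Fintype V] [DecidableEq V] (K : Ker V)

/-- near term -/
noncomputable def GN (D : Finset V) (u : V) (m j : ℕ) (A w1 w0 : List V) : ℝ :=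
  (if (∀ v ∈ w0, v ∈ D) ∧ len (w0 ++ [u]) = j + 1 then (1 : ℝ) else 0) *
    ((if tip (tip u w0) w1 = tip u w0 then (1 : ℝ) else 0) *
      (if len (A ++ [tip (tip u w0) w1]) + j = m + 1 then (1 : ℝ) else 0))

/-- far term -/
noncomputable def GF (D : Finset V) (u : V) (m j : ℕ) (A w1 w0 : List V) : ℝ :=
  (if ∀ v ∈ w0, v ∈ D then (1 : ℝ) else 0) *
    ((if (LE (w0 ++ [u])).reverse[j]? = some (tip (tip u w0) w1) then (1 : ℝ) else 0) *
      (if len (A ++ [tip (tip u w0) w1]) + j = m + 1 then (1 : ℝ) else 0))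

theorem GN_nonneg (D : Finset V) (u : V) (m j : ℕ) (A w1 w0 : List V) :
    0 ≤ GN D u m j A w1 w0 := by
  unfold GN
  split_ifs <;> simp

theorem GF_nonneg (D : Finset V) (u : V) (m j : ℕ) (A w1 w0 : List V) :
    0 ≤ GF D u m j A w1 w0 := by
  unfold GF
  split_ifs <;> simp

theorem EW3 (p q r : ℕ) (u : V) (G : List V → List V → List V → ℝ) :
    K.EW (p + q + r) u (fun P => G (P.take r) ((P.drop r).take q) (P.drop (r + q)))
      = K.EW p u (fun w0 => K.EW q (tip u w0) (fun w1 =>
          K.EW r (tip (tip u w0) w1) (fun A => G A w1 w0))) := by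
  rw [K.EW_append (p + q) r, K.EW_append p q]
  apply K.EW_congr
  intro w0 hw0
  apply K.EW_congr
  intro w1 hw1
  rw [tip_append]
  apply K.EW_congr
  intro A hA
  have h1 : (A ++ (w1 ++ w0)).take r = A := by
    rw [← hA]; simp
  have h2 : (A ++ (w1 ++ w0)).drop r = w1 ++ w0 := by
    rw [← hA]; simp
  have h3 : (w1 ++ w0).take q = w1 := by
    rw [← hw1]; simp
  have h4 : (w1 ++ w0).drop q = w0 := by
    rw [← hw1]; simp
  rw [h1, ← List.drop_drop, h2, h3, h4]

theorem tip_of_head (u v : V) (w : List V) (h : (w ++ [u]).head? = some v) :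
    tip u w = v := by
  cases w with
  | nil => simpa using h
  | cons a w => simpa using h

/-- splitting the path -/
theorem det (D : Finset V) (u : V) (m s T : ℕ) (w w' : List V) (hw : w.length = s)
    (hlen : len (w' ++ (w ++ [u])) = m + 1) :
    (∃ i j c A w1 w0, i < T ∧ i ≤ s ∧ j < m + 1 ∧ c ≤ w'.length ∧ w' ++ w = A ++ (w1 ++ w0) ∧
      w0.length = s - i ∧ w1.length = i + c ∧ A.length = w'.length - c ∧
      len (w0 ++ [u]) = j + 1 ∧ tip (tip u w0) w1 = tip u w0 ∧
      len (A ++ [tip (tip u w0) w1]) + j = m + 1) ∨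
    (T ≤ s ∧ ∃ j c A w1 w0, j < m + 1 ∧ c ≤ w'.length ∧ w' ++ w = A ++ (w1 ++ w0) ∧
      w0.length = s - T ∧ w1.length = T + c ∧ A.length = w'.length - c ∧
      (LE (w0 ++ [u])).reverse[j]? = some (tip (tip u w0) w1) ∧
      len (A ++ [tip (tip u w0) w1]) + j = m + 1) := by
  obtain ⟨A, C, v, γ, β, hAC, hhead, hLE, hA, hL⟩ := LE_over w' (w ++ [u]) (by simp)
  obtain ⟨A1, B1, β', hω, hvA1, hLEB, hA1, hL1⟩ := LE_split (w ++ [u]) v (by rw [hLE]; simp)
  -- β' = β
  have hnd : (LE (w ++ [u])).Nodup := LE_nodup _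
  have hβ : γ = LE A1 ∧ β = β' := by
    have h1 : γ ++ v :: β = LE A1 ++ v :: β' := by rw [← hLE, hL1]
    have hnd1 : (γ ++ v :: β).Nodup := by rw [← hLE]; exact hnd
    have hnd2 : (LE A1 ++ v :: β').Nodup := by rw [← hL1]; exact hnd
    have hvg : v ∉ γ := by
      intro hv
      exact (List.disjoint_of_nodup_append hnd1) hv (by simp)
    have hvg2 : v ∉ LE A1 := by
      intro hv
      exact (List.disjoint_of_nodup_append hnd2) hv (by simp)
    rcases List.append_eq_append_iff.mp h1 with ⟨a', h2, h3⟩ | ⟨a', h2, h3⟩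
    · cases a' with
      | nil => simp at h2 h3; exact ⟨h2.symm, h3⟩
      | cons x a' =>
        simp at h3
        exfalso
        apply hvg2
        rw [h2, h3.1]; simp
    · cases a' with
      | nil => simp at h2 h3; exact ⟨h2, h3.symm⟩
      | cons x a' =>
        simp at h3
        exfalso
        apply hvg
        rw [h2, h3.1]; simp
  obtain ⟨hγ, hββ⟩ := hβ
  subst hββ
  -- lengths
  have hlenA : len (A ++ [v]) = len A + 1 := by
    rw [len_append A [v]]
    · simp [len, LE, stp]
    · intro a ha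
      have := hA a ha
      simp [LE, stp]
      intro h; subst h; simp at this
  have hmlen : len A + 1 + β.length = m + 1 := by
    rw [← hlen]
    unfold len
    rw [hL]
    simp; ring
  have hs1 : A1.length + 1 + B1.length = s + 1 := by
    have := congrArg List.length hω
    simp at this
    omega
  have hCw : C.length + A.length = w'.length := by
    rw [hAC]; simp; ring
  have hAcond : len (A ++ [v]) + β.length = m + 1 := by rw [hlenA]; exact hmlen
  -- tip of C ++ w
  have htipC : tip u (C ++ w) = v := by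
    apply tip_of_head
    rw [← hhead]; simp
  -- v :: B1 as w0 ++ [u]
  have hdrop : ∀ i, i ≤ s → (w ++ [u]).drop i = w.drop i ++ [u] := by
    intro i hi
    rw [List.drop_append_of_le_length (by omega)]
  have hvB : w.drop A1.length ++ [u] = v :: B1 := by
    rw [← hdrop A1.length (by omega), hω]
    simp
  by_cases hiT : A1.length < T
  · left
    refine ⟨A1.length, β.length, C.length, A, C ++ w.take A1.length, w.drop A1.length, hiT,
      by omega, by omega, by omega, ?_, ?_, ?_, by omega, ?_, ?_, ?_⟩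
    · rw [hAC]; simp
    · simp [hw]
    · simp; omega
    · rw [hvB, len, hLEB]; simp
    · rw [← tip_append, List.append_assoc, List.take_append_drop, htipC]
      exact (tip_of_head _ _ _ (by rw [hvB]; simp)).symm
    · rw [← tip_append, List.append_assoc, List.take_append_drop, htipC]
      exact hAcond
  · right
    have hTs : T ≤ s := by omega
    refine ⟨hTs, β.length, C.length, A, C ++ w.take T, w.drop T, by omega, by omega, ?_, ?_, ?_,
      by omega, ?_, ?_⟩
    · rw [hAC]; simp
    · simp [hw]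
    · simp; omega
    · rw [← tip_append, List.append_assoc, List.take_append_drop, htipC]
      have h1 : w.drop T ++ [u] = A1.drop T ++ v :: B1 := by
        rw [← hdrop T hTs, hω, List.drop_append_of_le_length (by omega)]
      rw [h1, LE_append _ _ (by
        intro a ha
        rw [hLEB]
        exact hA1 a (List.mem_of_mem_drop ha)), hLEB]
      simp
    · rw [← tip_append, List.append_assoc, List.take_append_drop, htipC]
      exact hAcond

end Ker

-- AUX2
namespace Ker
variable {V : Type} [Fintype V] [DecidableEq V] (K : Ker V)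

theorem det_ineq (D : Finset V) (u : V) (m s T a : ℕ) (P : List V) (hP : P.length = s + a) :
    (if (∀ v ∈ P, v ∈ D) ∧ len (P ++ [u]) = m + 1 then (1 : ℝ) else 0) ≤
      ∑ i ∈ (range T).filter (fun i => i ≤ s), ∑ j ∈ range (m + 1), ∑ c ∈ range (a + 1),
        GN D u m j (P.take (a - c)) ((P.drop (a - c)).take (i + c)) (P.drop ((a - c) + (i + c)))
      + (if T ≤ s then ∑ j ∈ range (m + 1), ∑ c ∈ range (a + 1),
          GF D u m j (P.take (a - c)) ((P.drop (a - c)).take (T + c)) (P.drop ((a - c) + (T + c)))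
        else 0) := by
  have hn1 : 0 ≤ ∑ i ∈ (range T).filter (fun i => i ≤ s), ∑ j ∈ range (m + 1),
      ∑ c ∈ range (a + 1), GN D u m j (P.take (a - c)) ((P.drop (a - c)).take (i + c))
        (P.drop ((a - c) + (i + c))) :=
    Finset.sum_nonneg fun i _ => Finset.sum_nonneg fun j _ => Finset.sum_nonneg fun c _ =>
      GN_nonneg _ _ _ _ _ _ _
  have hn2 : 0 ≤ (if T ≤ s then ∑ j ∈ range (m + 1), ∑ c ∈ range (a + 1),
          GF D u m j (P.take (a - c)) ((P.drop (a - c)).take (T + c)) (P.drop ((a - c) + (T + c)))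
        else 0) := by
    split_ifs
    · exact Finset.sum_nonneg fun j _ => Finset.sum_nonneg fun c _ => GF_nonneg _ _ _ _ _ _ _
    · exact le_rfl
  by_cases h : (∀ v ∈ P, v ∈ D) ∧ len (P ++ [u]) = m + 1
  · rw [if_pos h]
    obtain ⟨hD, hlen⟩ := h
    have hPP : P.take a ++ P.drop a = P := List.take_append_drop a P
    have hla : (P.take a).length = a := by simp; omega
    have hls : (P.drop a).length = s := by simp; omega
    have hlen' : len (P.take a ++ (P.drop a ++ [u])) = m + 1 := by
      rw [← List.append_assoc, hPP]; exact hlen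
    rcases det D u m s T (P.drop a) (P.take a) hls hlen' with
      ⟨i, j, c, A, w1, w0, hi, his, hj, hc, hdec, hw0, hw1, hA, hl0, htip, hcond⟩ |
      ⟨hTs, j, c, A, w1, w0, hj, hc, hdec, hw0, hw1, hA, hidx, hcond⟩
    · rw [hPP] at hdec
      rw [hla] at hc hA
      have e1 : P.take (a - c) = A := by rw [hdec, ← hA]; simp
      have e2 : (P.drop (a - c)).take (i + c) = w1 := by rw [hdec, ← hA, ← hw1]; simp
      have e3 : P.drop ((a - c) + (i + c)) = w0 := by
        rw [hdec, ← hA, ← hw1, ← List.drop_drop]; simp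
      have hval : GN D u m j (P.take (a - c)) ((P.drop (a - c)).take (i + c))
          (P.drop ((a - c) + (i + c))) = 1 := by
        rw [e1, e2, e3]
        unfold GN
        rw [if_pos ⟨fun v hv => hD v (by rw [hdec]; simp [hv]), hl0⟩, if_pos htip, if_pos hcond]
        norm_num
      have h1 : (1 : ℝ) ≤ ∑ i ∈ (range T).filter (fun i => i ≤ s), ∑ j ∈ range (m + 1),
          ∑ c ∈ range (a + 1), GN D u m j (P.take (a - c)) ((P.drop (a - c)).take (i + c))
          (P.drop ((a - c) + (i + c))) := by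
        rw [← hval]
        refine le_trans ?_ (Finset.single_le_sum (s := (range T).filter (fun i => i ≤ s))
          (f := fun i => ∑ j ∈ range (m + 1), ∑ c ∈ range (a + 1),
            GN D u m j (P.take (a - c)) ((P.drop (a - c)).take (i + c))
              (P.drop ((a - c) + (i + c))))
          (fun i _ => Finset.sum_nonneg fun j _ => Finset.sum_nonneg fun c _ =>
            GN_nonneg _ _ _ _ _ _ _) (a := i) (by simp [hi, his]))
        refine le_trans ?_ (Finset.single_le_sum (s := range (m + 1))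
          (f := fun j => ∑ c ∈ range (a + 1),
            GN D u m j (P.take (a - c)) ((P.drop (a - c)).take (i + c))
              (P.drop ((a - c) + (i + c))))
          (fun j _ => Finset.sum_nonneg fun c _ =>
            GN_nonneg _ _ _ _ _ _ _) (a := j) (by simpa using hj))
        exact (Finset.single_le_sum (s := range (a + 1))
          (f := fun c => 
            GN D u m j (P.take (a - c)) ((P.drop (a - c)).take (i + c))
              (P.drop ((a - c) + (i + c))))
          (fun c _ => GN_nonneg _ _ _ _ _ _ _) (a := c) (by simp; omega))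
      linarith
    · rw [hPP] at hdec
      rw [hla] at hc hA
      have e1 : P.take (a - c) = A := by rw [hdec, ← hA]; simp
      have e2 : (P.drop (a - c)).take (T + c) = w1 := by rw [hdec, ← hA, ← hw1]; simp
      have e3 : P.drop ((a - c) + (T + c)) = w0 := by
        rw [hdec, ← hA, ← hw1, ← List.drop_drop]; simp
      have hval : GF D u m j (P.take (a - c)) ((P.drop (a - c)).take (T + c))
          (P.drop ((a - c) + (T + c))) = 1 := by
        rw [e1, e2, e3]
        unfold GF
        rw [if_pos (fun v hv => hD v (by rw [hdec]; simp [hv])), if_pos hidx, if_pos hcond]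
        norm_num
      have h1 : (1 : ℝ) ≤ (if T ≤ s then ∑ j ∈ range (m + 1), ∑ c ∈ range (a + 1),
          GF D u m j (P.take (a - c)) ((P.drop (a - c)).take (T + c)) (P.drop ((a - c) + (T + c)))
        else 0) := by
        rw [if_pos hTs, ← hval]
        refine le_trans ?_ (Finset.single_le_sum (s := range (m + 1))
          (f := fun j => ∑ c ∈ range (a + 1),
            GF D u m j (P.take (a - c)) ((P.drop (a - c)).take (T + c))
              (P.drop ((a - c) + (T + c))))
          (fun j _ => Finset.sum_nonneg fun c _ =>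
            GF_nonneg _ _ _ _ _ _ _) (a := j) (by simpa using hj))
        exact (Finset.single_le_sum (s := range (a + 1))
          (f := fun c => 
            GF D u m j (P.take (a - c)) ((P.drop (a - c)).take (T + c))
              (P.drop ((a - c) + (T + c))))
          (fun c _ => GF_nonneg _ _ _ _ _ _ _) (a := c) (by simp; omega))
      linarith
  · rw [if_neg h]
    linarith

/-- last factor -/
noncomputable def lst (m j b : ℕ) (y : V) : ℝ :=
  K.EW b y (fun A => if len (A ++ [y]) + j = m + 1 then (1 : ℝ) else 0)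

theorem lst_nonneg (m j b : ℕ) (y : V) : 0 ≤ K.lst m j b y := by
  apply K.EW_nonneg
  intro w _
  split_ifs <;> norm_num

theorem lst_sum (o : V) (m j T' : ℕ) (hj : j < m + 1) (Θ : ℝ) (hΘ : K.Th o T' ≤ Θ) (y : V) :
    ∑ b ∈ range (T' + 1), K.lst m j b y ≤ Θ := by
  refine le_trans ?_ hΘ
  rw [K.Th_inv o y]
  refine le_trans (le_of_eq ?_) (K.P1 y T' (m + 1 - j))
  apply Finset.sum_congr rfl
  intro b _
  unfold lst
  congr 1
  funext A
  have : (len (A ++ [y]) + j = m + 1) ↔ (len (A ++ [y]) = m + 1 - j) := by omega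
  simp only [this]

/-- sum over the last two windows -/
theorem win (T' : ℕ) (f : ℕ → ℕ → ℝ) (hf : ∀ c b, 0 ≤ f c b) :
    ∑ a ∈ range (T' + 1), ∑ c ∈ range (a + 1), f c (a - c) ≤
      ∑ c ∈ range (T' + 1), ∑ b ∈ range (T' + 1), f c b := by
  have h1 : ∑ a ∈ range (T' + 1), ∑ c ∈ range (a + 1), f c (a - c) =
      ∑ c ∈ range (T' + 1), ∑ a ∈ Ico c (T' + 1), f c (a - c) := by
    apply Finset.sum_comm'
    intro x y
    simp only [mem_range, mem_Ico]
    omega
  rw [h1]
  apply Finset.sum_le_sum
  intro c _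
  rw [Finset.sum_Ico_eq_sum_range]
  have h2 : ∀ i, c + i - c = i := fun i => by omega
  simp only [h2]
  apply Finset.sum_le_sum_of_subset_of_nonneg
  · intro i; simp only [mem_range]; omega
  · intro i _ _; exact hf c i

/-- the value of the near term -/
theorem EGN (D : Finset V) (u : V) (m j p q r : ℕ) (o : V) :
    K.EW (p + q + r) u (fun P => GN D u m j (P.take r) ((P.drop r).take q) (P.drop (r + q)))
      = K.EW p u (fun w0 => (if (∀ v ∈ w0, v ∈ D) ∧ len (w0 ++ [u]) = j + 1 then (1 : ℝ) else 0) *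
          (K.hk q o o * K.lst m j r (tip u w0))) := by
  rw [K.EW3 p q r u (GN D u m j)]
  apply K.EW_congr
  intro w0 _
  unfold GN
  simp only [EW_mul_left]
  congr 1
  rw [K.hk_diag q o (tip u w0), ← K.hk_eq_EW q (tip u w0) (tip u w0), ← K.EW_mul_right]
  apply K.EW_congr
  intro w1 _
  by_cases h : tip (tip u w0) w1 = tip u w0
  · rw [h]; rfl
  · simp [h]

theorem EGF (D : Finset V) (u : V) (m j p q r : ℕ) :
    K.EW (p + q + r) u (fun P => GF D u m j (P.take r) ((P.drop r).take q) (P.drop (r + q)))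
      = K.EW p u (fun w0 => (if ∀ v ∈ w0, v ∈ D then (1 : ℝ) else 0) *
          K.EW q (tip u w0) (fun w1 =>
            (if (LE (w0 ++ [u])).reverse[j]? = some (tip (tip u w0) w1) then (1 : ℝ) else 0) *
              K.lst m j r (tip (tip u w0) w1))) := by
  rw [K.EW3 p q r u (GF D u m j)]
  apply K.EW_congr
  intro w0 _
  unfold GF
  simp only [EW_mul_left]
  rfl

theorem hkk (m0 : ℕ) (κ : ℝ) (h2 : ∀ x y, K.hk m0 x y ≤ κ) (t : ℕ) (ht : m0 ≤ t) (y : V)
    (z : Option V) :
    K.EW t y (fun w1 => if z = some (tip y w1) then (1 : ℝ) else 0) ≤ κ := by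
  cases z with
  | none =>
    simp only [reduceCtorEq, if_false]
    rw [K.EW_const]
    exact le_trans (K.hk_nonneg m0 y y) (h2 y y)
  | some z =>
    have : (fun w1 => if some z = some (tip y w1) then (1 : ℝ) else 0) =
        (fun w1 => if tip y w1 = z then (1 : ℝ) else 0) := by
      funext w1
      simp only [Option.some.injEq, eq_comm]
    rw [this, K.hk_eq_EW]
    exact K.hk_mix m0 κ h2 t ht y z

end Ker

-- AUX3
namespace Ker
variable {V : Type} [Fintype V] [DecidableEq V] (K : Ker V)

/-- near term, as a function of the three times -/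
noncomputable def XN (D : Finset V) (u : V) (m s : ℕ) (o : V) (i j c b : ℕ) : ℝ :=
  K.EW (s - i) u (fun w0 => (if (∀ v ∈ w0, v ∈ D) ∧ len (w0 ++ [u]) = j + 1 then (1 : ℝ) else 0) *
          (K.hk (i + c) o o * K.lst m j b (tip u w0)))

/-- far term, as a function of the three times -/
noncomputable def XF (D : Finset V) (u : V) (m s T j c b : ℕ) : ℝ :=
  K.EW (s - T) u (fun w0 => (if ∀ v ∈ w0, v ∈ D then (1 : ℝ) else 0) *
          K.EW (T + c) (tip u w0) (fun w1 =>
            (if (LE (w0 ++ [u])).reverse[j]? = some (tip (tip u w0) w1) then (1 : ℝ) else 0) *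
              K.lst m j b (tip (tip u w0) w1)))

theorem XN_nonneg (D : Finset V) (u : V) (m s : ℕ) (o : V) (i j c b : ℕ) :
    0 ≤ K.XN D u m s o i j c b := by
  apply K.EW_nonneg
  intro w _
  apply mul_nonneg
  · split_ifs <;> norm_num
  · exact mul_nonneg (K.hk_nonneg _ _ _) (K.lst_nonneg _ _ _ _)

theorem XF_nonneg (D : Finset V) (u : V) (m s T j c b : ℕ) :
    0 ≤ K.XF D u m s T j c b := by
  apply K.EW_nonneg
  intro w _
  apply mul_nonneg
  · split_ifs <;> norm_num
  · apply K.EW_nonneg
    intro w1 _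
    apply mul_nonneg
    · split_ifs <;> norm_num
    · exact K.lst_nonneg _ _ _ _

theorem XN_sum (D : Finset V) (u : V) (m s : ℕ) (o : V) (i j c T' : ℕ) (hj : j < m + 1)
    (Θ : ℝ) (hΘ : K.Th o T' ≤ Θ) :
    ∑ b ∈ range (T' + 1), K.XN D u m s o i j c b ≤ Θ * (K.aD D u j (s - i) * K.hk (i + c) o o) := by
  unfold XN
  rw [← K.EW_sum]
  have h0 : Θ * (K.aD D u j (s - i) * K.hk (i + c) o o) =
      K.EW (s - i) u (fun w0 => (if (∀ v ∈ w0, v ∈ D) ∧ len (w0 ++ [u]) = j + 1
        then (1 : ℝ) else 0) * (K.hk (i + c) o o * Θ)) := by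
    rw [K.EW_mul_right]
    unfold aD
    ring
  rw [h0]
  apply K.EW_mono
  intro w _
  rw [← Finset.mul_sum, ← Finset.mul_sum]
  apply mul_le_mul_of_nonneg_left
  · apply mul_le_mul_of_nonneg_left _ (K.hk_nonneg _ _ _)
    exact K.lst_sum o m j T' hj Θ hΘ _
  · split_ifs <;> norm_num

theorem XF_sum (o : V) (D : Finset V) (u : V) (m s T j c T' m0 : ℕ) (hj : j < m + 1)
    (Θ κ : ℝ) (h2 : ∀ x y, K.hk m0 x y ≤ κ) (hm : m0 ≤ T) (hΘ : K.Th o T' ≤ Θ) :
    ∑ b ∈ range (T' + 1), K.XF D u m s T j c b ≤ Θ * κ * K.bD D u (s - T) := by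
  have hΘ0 : 0 ≤ Θ := le_trans (by have := K.one_le_Th o T'; linarith) hΘ
  unfold XF
  rw [← K.EW_sum]
  have h0 : Θ * κ * K.bD D u (s - T) =
      K.EW (s - T) u (fun w0 => (if ∀ v ∈ w0, v ∈ D
        then (1 : ℝ) else 0) * (Θ * κ)) := by
    rw [K.EW_mul_right]
    unfold bD
    ring
  rw [h0]
  apply K.EW_mono
  intro w _
  rw [← Finset.mul_sum]
  apply mul_le_mul_of_nonneg_left _ (by split_ifs <;> norm_num)
  rw [← K.EW_sum]
  have h1 : K.EW (T + c) (tip u w) (fun w1 =>
      ∑ b ∈ range (T' + 1),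
        (if (LE (w ++ [u])).reverse[j]? = some (tip (tip u w) w1) then (1 : ℝ) else 0) *
              K.lst m j b (tip (tip u w) w1)) ≤
      K.EW (T + c) (tip u w) (fun w1 =>
        Θ * (if (LE (w ++ [u])).reverse[j]? = some (tip (tip u w) w1) then (1 : ℝ) else 0)) := by
    apply K.EW_mono
    intro w1 _
    rw [← Finset.mul_sum, mul_comm Θ]
    apply mul_le_mul_of_nonneg_left _ (by split_ifs <;> norm_num)
    exact K.lst_sum o m j T' hj Θ hΘ _
  refine le_trans h1 ?_
  rw [K.EW_mul_left]
  apply mul_le_mul_of_nonneg_left _ hΘ0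
  exact K.hkk m0 κ h2 (T + c) (by omega) (tip u w) _

theorem step_ineq (o : V) (D : Finset V) (u : V) (m s T a : ℕ) :
    K.aD D u m (s + a) ≤
      ∑ i ∈ (range T).filter (fun i => i ≤ s), ∑ j ∈ range (m + 1), ∑ c ∈ range (a + 1),
        K.XN D u m s o i j c (a - c)
      + (if T ≤ s then ∑ j ∈ range (m + 1), ∑ c ∈ range (a + 1),
          K.XF D u m s T j c (a - c) else 0) := by
  have h1 := K.EW_mono (s + a) u _ _ (fun P hP => det_ineq D u m s T a P hP)
  refine le_trans h1 ?_
  rw [K.EW_add, K.EW_sum]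
  apply add_le_add
  · apply Finset.sum_le_sum
    intro i hi
    rw [K.EW_sum]
    apply Finset.sum_le_sum
    intro j hj
    rw [K.EW_sum]
    apply Finset.sum_le_sum
    intro c hc
    simp only [mem_filter, mem_range] at hi hj hc
    have e : s + a = (s - i) + (i + c) + (a - c) := by omega
    unfold XN
    rw [← K.EGN D u m j (s - i) (i + c) (a - c) o, ← e]
  · split_ifs with hTs
    · rw [K.EW_sum]
      apply Finset.sum_le_sum
      intro j hj
      rw [K.EW_sum]
      apply Finset.sum_le_sum
      intro c hc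
      simp only [mem_range] at hj hc
      have e : s + a = (s - T) + (T + c) + (a - c) := by omega
      unfold XF
      rw [← K.EGF D u m j (s - T) (T + c) (a - c), ← e]
    · rw [K.EW_const]

end Ker

-- TARGET
namespace Ker
variable {V : Type} [Fintype V] [DecidableEq V] (K : Ker V)

theorem key (o : V) (D : Finset V) (u : V) (m s T T' m0 : ℕ) (Θ κ : ℝ)
    (h2 : ∀ x y, K.hk m0 x y ≤ κ) (hm : m0 ≤ T) (hΘ : K.Th o T' ≤ Θ) :
    ∑ t ∈ Icc s (s + T'), K.aD D u m t
      ≤ Θ * ∑ i ∈ (range T).filter (fun i => i ≤ s),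
          (∑ j ∈ range (m + 1), K.aD D u j (s - i)) * ∑ c ∈ Icc i (i + T'), K.hk c o o
        + (if T ≤ s then Θ * κ * ((m : ℝ) + 1) * ((T' : ℝ) + 1) * K.bD D u (s - T) else 0) := by
  have hicc : ∀ (i : ℕ) (f : ℕ → ℝ),
      ∑ t ∈ Icc i (i + T'), f t = ∑ a ∈ range (T' + 1), f (i + a) := by
    intro i f
    have : Icc i (i + T') = Ico i (i + (T' + 1)) := by
      ext x; simp only [mem_Icc, mem_Ico]; omega
    rw [this, Finset.sum_Ico_eq_sum_range]
    congr 2
    omega
  rw [hicc s]
  refine le_trans (Finset.sum_le_sum fun a _ => K.step_ineq o D u m s T a) ?_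
  rw [Finset.sum_add_distrib]
  apply add_le_add
  · rw [Finset.sum_comm, Finset.mul_sum]
    apply Finset.sum_le_sum
    intro i _
    rw [Finset.sum_comm, Finset.sum_mul, Finset.mul_sum]
    apply Finset.sum_le_sum
    intro j hj
    simp only [mem_range] at hj
    refine le_trans (win T' (fun c b => K.XN D u m s o i j c b)
      (fun c b => K.XN_nonneg _ _ _ _ _ _ _ _ _)) ?_
    rw [hicc i, Finset.mul_sum, Finset.mul_sum]
    apply Finset.sum_le_sum
    intro c _
    exact K.XN_sum D u m s o i j c T' hj Θ hΘ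
  · split_ifs with hTs
    · rw [Finset.sum_comm]
      have h3 : ∀ j ∈ range (m + 1), ∑ a ∈ range (T' + 1), ∑ c ∈ range (a + 1),
          K.XF D u m s T j c (a - c) ≤ ((T' : ℝ) + 1) * (Θ * κ * K.bD D u (s - T)) := by
        intro j hj
        simp only [mem_range] at hj
        refine le_trans (win T' (fun c b => K.XF D u m s T j c b)
          (fun c b => K.XF_nonneg _ _ _ _ _ _ _ _)) ?_
        refine le_trans (Finset.sum_le_sum (g := fun _ => Θ * κ * K.bD D u (s - T))
          fun c _ => K.XF_sum o D u m s T j c T' m0 hj Θ κ h2 hm hΘ) ?_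
        rw [Finset.sum_const, Finset.card_range, nsmul_eq_mul]
        push_cast
        exact le_rfl
      refine le_trans (Finset.sum_le_sum h3) ?_
      rw [Finset.sum_const, Finset.card_range, nsmul_eq_mul]
      push_cast
      apply le_of_eq
      ring
    · simp

end Ker

end HP192
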