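import Mathlib
import Pool.Agent.Helper192_HP.Defs
import Pool.Agent.Helper192_HP.WDefs
import Pool.Agent.Helper192_HP.Basic
import Pool.Agent.Helper192_HP.W01
import Pool.Agent.Helper192_HP.W02
import Pool.Agent.Helper192_HP.AbDef
import Pool.Agent.Helper192_HP.W04
import Pool.Agent.Helper192_HP.W06
import Pool.Agent.Helper192_HP.W23

namespace HP192
open Finset

-- TARGET
namespace Ker
variable {V : Type} [Fintype V] [DecidableEq V] (K : Ker V)

theorem bD_nonneg' (D : Finset V) (u : V) (t : ℕ) : 0 ≤ K.bD D u t := by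
  unfold bD
  apply K.EW_nonneg
  intro w _
  split_ifs <;> norm_num

theorem aD_nonneg' (D : Finset V) (u : V) (m t : ℕ) : 0 ≤ K.aD D u m t := by
  unfold aD
  apply K.EW_nonneg
  intro w _
  split_ifs <;> norm_num

theorem bD_zero' (D : Finset V) (u : V) : K.bD D u 0 = 1 := by
  unfold bD
  rw [K.EW_zero]
  simp

theorem bD_add_le' (D : Finset V) (u : V) (s t : ℕ) : K.bD D u (s + t) ≤ K.bD D u s := by
  unfold bD
  rw [K.EW_append]
  apply K.EW_mono
  intro w _
  apply K.EW_le_const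
  intro w' _
  by_cases h : ∀ v ∈ w, v ∈ D
  · rw [if_pos h]
    split_ifs <;> norm_num
  · rw [if_neg h, if_neg]
    intro h'
    apply h
    intro v hv
    exact h' v (List.mem_append_right _ hv)

theorem bD_anti' (D : Finset V) (u : V) {s t : ℕ} (h : s ≤ t) : K.bD D u t ≤ K.bD D u s := by
  obtain ⟨d, rfl⟩ := Nat.exists_eq_add_of_le h
  exact K.bD_add_le' D u s d

theorem sum_aD_le' (D : Finset V) (u : V) (m t : ℕ) :
    ∑ j ∈ range (m + 1), K.aD D u j t ≤ K.bD D u t := by
  unfold aD bD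
  rw [← K.EW_sum]
  apply K.EW_mono
  intro w _
  by_cases h : ∀ v ∈ w, v ∈ D
  · rw [if_pos h]
    have hle : ∑ j ∈ range (m + 1),
        (if (∀ v ∈ w, v ∈ D) ∧ len (w ++ [u]) = j + 1 then (1 : ℝ) else 0)
        ≤ ∑ j ∈ range (m + 1), if j = len (w ++ [u]) - 1 then (1 : ℝ) else 0 := by
      apply sum_le_sum
      intro j _
      by_cases h2 : len (w ++ [u]) = j + 1
      · rw [if_pos ⟨h, h2⟩, if_pos (by omega)]
      · rw [if_neg (fun hh => h2 hh.2)]
        split_ifs <;> norm_num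
    refine hle.trans ?_
    rw [sum_ite_eq']
    split_ifs <;> norm_num
  · rw [if_neg h]
    apply le_of_eq
    apply sum_eq_zero
    intro j _
    rw [if_neg]
    exact fun hh => h hh.1

theorem sum_first' (o : V) (D : Finset V) (u : V) (m T : ℕ) :
    ∑ t ∈ range T, K.aD D u m t ≤ K.Th o T := by
  have h1 : ∑ t ∈ range T, K.aD D u m t ≤ ∑ t ∈ range (T + 1), K.aD D u m t := by
    apply sum_le_sum_of_subset_of_nonneg
    · intro x hx
      rw [mem_range] at *
      omega
    · intro i _ _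
      exact K.aD_nonneg' D u m i
  refine h1.trans ?_
  have h2 : ∑ t ∈ range (T + 1), K.aD D u m t
      ≤ ∑ t ∈ range (T + 1), K.EW t u (fun w => if len (w ++ [u]) = m + 1 then (1 : ℝ) else 0) := by
    apply sum_le_sum
    intro t _
    unfold aD
    apply K.EW_mono
    intro w _
    by_cases h : len (w ++ [u]) = m + 1
    · rw [if_pos h]
      split_ifs <;> norm_num
    · rw [if_neg h, if_neg (fun hh => h hh.2)]
  refine h2.trans ?_
  refine (K.P1 u T (m + 1)).trans ?_
  rw [K.Th_inv u o T]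

theorem sum_Icc_le' (o : V) (T : ℕ) :
    ∑ i ∈ range T, ∑ c ∈ Icc i (i + T), K.hk c o o ≤ K.Th o (2 * T) := by
  unfold Th
  have h1 : ∀ i ∈ range T, ∑ c ∈ Icc i (i + T), K.hk c o o
      ≤ ∑ c ∈ range (2 * T + 1), if i ≤ c then K.hk c o o else 0 := by
    intro i hi
    rw [mem_range] at hi
    rw [← sum_filter]
    apply sum_le_sum_of_subset_of_nonneg
    · intro c hc
      rw [mem_Icc] at hc
      rw [mem_filter, mem_range]
      omega
    · intro c _ _
      exact K.hk_nonneg c o o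
  refine (sum_le_sum h1).trans ?_
  rw [sum_comm]
  apply sum_le_sum
  intro c _
  rw [← sum_filter, sum_const, nsmul_eq_mul]
  apply mul_le_mul_of_nonneg_right _ (K.hk_nonneg c o o)
  have : ((range T).filter (fun i => i ≤ c)).card ≤ c + 1 := by
    calc ((range T).filter (fun i => i ≤ c)).card ≤ (range (c + 1)).card := by
          apply card_le_card
          intro x hx
          rw [mem_filter] at hx
          rw [mem_range]
          omega
      _ = c + 1 := card_range _
  exact_mod_cast this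

theorem window' (o : V) (D : Finset V) (u : V) (m T m0 i : ℕ) (Θ κ : ℝ)
    (h2 : ∀ x y, K.hk m0 x y ≤ κ) (hm : m0 ≤ T) (hΘ : K.Th o (2 * T) ≤ Θ) :
    ∑ t ∈ Ico ((i + 1) * T) ((i + 2) * T), K.aD D u m t
      ≤ Θ * (Θ + κ * ((m : ℝ) + 1) * ((T : ℝ) + 1)) * K.bD D u (i * T) := by
  have hΘT : K.Th o T ≤ Θ := (K.Th_mono o T (2 * T) (by omega)).trans hΘ
  have hΘ0 : 0 ≤ Θ := (zero_le_one.trans (K.one_le_Th o T)).trans hΘT
  have hb0 : 0 ≤ K.bD D u (i * T) := K.bD_nonneg' D u _
  have hk := K.key o D u m ((i + 1) * T) T T m0 Θ κ h2 hm hΘT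
  have hTs : T ≤ (i + 1) * T := by nlinarith [Nat.zero_le (i * T)]
  rw [if_pos hTs] at hk
  have hsub : (i + 1) * T - T = i * T := by
    rw [Nat.add_mul, Nat.one_mul, Nat.add_sub_cancel]
  rw [hsub] at hk
  have hl : ∑ t ∈ Ico ((i + 1) * T) ((i + 2) * T), K.aD D u m t
      ≤ ∑ t ∈ Icc ((i + 1) * T) ((i + 1) * T + T), K.aD D u m t := by
    apply sum_le_sum_of_subset_of_nonneg
    · intro x hx
      rw [mem_Ico] at hx
      rw [mem_Icc]
      have : (i + 2) * T = (i + 1) * T + T := by ring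
      omega
    · intro j _ _
      exact K.aD_nonneg' D u m j
  refine (hl.trans hk).trans ?_
  have hs : ∑ i' ∈ (range T).filter (fun i' => i' ≤ (i + 1) * T),
        (∑ j ∈ range (m + 1), K.aD D u j ((i + 1) * T - i')) * ∑ c ∈ Icc i' (i' + T), K.hk c o o
      ≤ Θ * K.bD D u (i * T) := by
    calc ∑ i' ∈ (range T).filter (fun i' => i' ≤ (i + 1) * T),
        (∑ j ∈ range (m + 1), K.aD D u j ((i + 1) * T - i')) * ∑ c ∈ Icc i' (i' + T), K.hk c o o
        ≤ ∑ i' ∈ (range T).filter (fun i' => i' ≤ (i + 1) * T),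
          K.bD D u (i * T) * ∑ c ∈ Icc i' (i' + T), K.hk c o o := by
          apply sum_le_sum
          intro i' hi'
          rw [mem_filter, mem_range] at hi'
          apply mul_le_mul_of_nonneg_right
          · refine (K.sum_aD_le' D u m _).trans ?_
            apply K.bD_anti'
            have : (i + 1) * T = i * T + T := by ring
            omega
          · exact sum_nonneg (fun c _ => K.hk_nonneg c o o)
      _ ≤ ∑ i' ∈ range T, K.bD D u (i * T) * ∑ c ∈ Icc i' (i' + T), K.hk c o o := by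
          apply sum_le_sum_of_subset_of_nonneg (filter_subset _ _)
          intro i' _ _
          exact mul_nonneg hb0 (sum_nonneg (fun c _ => K.hk_nonneg c o o))
      _ = K.bD D u (i * T) * ∑ i' ∈ range T, ∑ c ∈ Icc i' (i' + T), K.hk c o o := by
          rw [mul_sum]
      _ ≤ K.bD D u (i * T) * Θ :=
          mul_le_mul_of_nonneg_left ((K.sum_Icc_le' o T).trans hΘ) hb0
      _ = Θ * K.bD D u (i * T) := mul_comm _ _
  calc Θ * ∑ i' ∈ (range T).filter (fun i' => i' ≤ (i + 1) * T),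
        (∑ j ∈ range (m + 1), K.aD D u j ((i + 1) * T - i')) * ∑ c ∈ Icc i' (i' + T), K.hk c o o
        + Θ * κ * ((m : ℝ) + 1) * ((T : ℝ) + 1) * K.bD D u (i * T)
      ≤ Θ * (Θ * K.bD D u (i * T))
        + Θ * κ * ((m : ℝ) + 1) * ((T : ℝ) + 1) * K.bD D u (i * T) := by
          have := mul_le_mul_of_nonneg_left hs hΘ0
          linarith
    _ = Θ * (Θ + κ * ((m : ℝ) + 1) * ((T : ℝ) + 1)) * K.bD D u (i * T) := by ring

theorem blocks' (o : V) (D : Finset V) (u : V) (m T m0 : ℕ) (Θ κ : ℝ)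
    (h2 : ∀ x y, K.hk m0 x y ≤ κ) (hm : m0 ≤ T) (hΘ : K.Th o (2 * T) ≤ Θ) (n : ℕ) :
    ∑ t ∈ range ((n + 1) * T), K.aD D u m t
      ≤ Θ + Θ * (Θ + κ * ((m : ℝ) + 1) * ((T : ℝ) + 1)) * ∑ j ∈ range n, K.bD D u (j * T) := by
  induction n with
  | zero =>
    simp only [range_zero, sum_empty, mul_zero, add_zero, zero_add, one_mul]
    exact ((K.sum_first' o D u m T).trans (K.Th_mono o T (2 * T) (by omega))).trans hΘ
  | succ n ih =>
    have hle : (n + 1) * T ≤ (n + 1 + 1) * T := Nat.mul_le_mul_right _ (by omega)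
    rw [← sum_range_add_sum_Ico _ hle, sum_range_succ]
    have := K.window' o D u m T m0 n Θ κ h2 hm hΘ
    have e : n + 1 + 1 = n + 2 := rfl
    rw [e]
    linarith [mul_add (Θ * (Θ + κ * ((m : ℝ) + 1) * ((T : ℝ) + 1)))
      (∑ j ∈ range n, K.bD D u (j * T)) (K.bD D u (n * T))]

theorem bsum' (D : Finset V) (u : V) (T n : ℕ) :
    (T : ℝ) * ∑ j ∈ range (n + 1), K.bD D u (j * T) ≤ T + ∑ t ∈ range (n * T), K.bD D u t := by
  induction n with
  | zero =>
    simp [bD_zero']
  | succ n ih =>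
    have hle : n * T ≤ (n + 1) * T := Nat.mul_le_mul_right _ (by omega)
    rw [sum_range_succ, mul_add, ← sum_range_add_sum_Ico _ hle]
    have h : (T : ℝ) * K.bD D u ((n + 1) * T) ≤ ∑ t ∈ Ico (n * T) ((n + 1) * T), K.bD D u t := by
      have hc : (Ico (n * T) ((n + 1) * T)).card = T := by
        rw [Nat.card_Ico, Nat.add_mul, Nat.one_mul, Nat.add_sub_cancel_left]
      have := card_nsmul_le_sum (Ico (n * T) ((n + 1) * T)) (fun t => K.bD D u t)
        (K.bD D u ((n + 1) * T)) (fun t ht => by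
          rw [mem_Ico] at ht
          exact K.bD_anti' D u (le_of_lt ht.2))
      rw [hc, nsmul_eq_mul] at this
      exact this
    linarith

theorem W1 (o : V) (D : Finset V) (u : V) (m T m0 Nn : ℕ) (Θ κ : ℝ)
    (h2 : ∀ x y, K.hk m0 x y ≤ κ) (hm : m0 ≤ T) (hT : 1 ≤ T) (hΘ : K.Th o (2 * T) ≤ Θ) :
    ∑ t ∈ range Nn, K.aD D u m t
      ≤ Θ + Θ * (Θ + κ * ((m : ℝ) + 1) * ((T : ℝ) + 1))
        * (1 + (∑ t ∈ range Nn, K.bD D u t) / T) := by
  have hΘ0 : 0 ≤ Θ := (zero_le_one.trans (K.one_le_Th o (2 * T))).trans hΘ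
  have hκ0 : 0 ≤ κ := (K.hk_nonneg m0 u u).trans (h2 u u)
  have hT0 : (0 : ℝ) < T := by exact_mod_cast hT
  set n := (Nn - 1) / T with hn
  have hn1 : n * T ≤ Nn := (Nat.div_mul_le_self _ _).trans (Nat.sub_le _ _)
  have hn2 : Nn ≤ (n + 1) * T := by
    have := Nat.lt_div_mul_add (a := Nn - 1) (b := T) (by omega)
    have e : (n + 1) * T = (Nn - 1) / T * T + T := by rw [hn]; ring
    omega
  have h1 : ∑ t ∈ range Nn, K.aD D u m t ≤ ∑ t ∈ range ((n + 1) * T), K.aD D u m t := by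
    apply sum_le_sum_of_subset_of_nonneg
    · intro x hx
      rw [mem_range] at *
      omega
    · intro i _ _
      exact K.aD_nonneg' D u m i
  have h3 := K.blocks' o D u m T m0 Θ κ h2 hm hΘ n
  have h4 : ∑ j ∈ range n, K.bD D u (j * T) ≤ 1 + (∑ t ∈ range Nn, K.bD D u t) / T := by
    have h5 := K.bsum' D u T n
    have h6 : ∑ t ∈ range (n * T), K.bD D u t ≤ ∑ t ∈ range Nn, K.bD D u t := by
      apply sum_le_sum_of_subset_of_nonneg
      · intro x hx
        rw [mem_range] at *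
        omega
      · intro i _ _
        exact K.bD_nonneg' D u i
    have h7 : ∑ j ∈ range n, K.bD D u (j * T) ≤ ∑ j ∈ range (n + 1), K.bD D u (j * T) := by
      rw [sum_range_succ]
      linarith [K.bD_nonneg' D u (n * T)]
    have h8 : (T : ℝ) * ∑ j ∈ range n, K.bD D u (j * T) ≤ T + ∑ t ∈ range Nn, K.bD D u t := by
      have := mul_le_mul_of_nonneg_left h7 hT0.le
      linarith
    have h9 : (1 : ℝ) + (∑ t ∈ range Nn, K.bD D u t) / T
        = (T + ∑ t ∈ range Nn, K.bD D u t) / T := by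
      field_simp
    rw [h9, le_div_iff₀ hT0]
    linarith
  have hG : 0 ≤ Θ * (Θ + κ * ((m : ℝ) + 1) * ((T : ℝ) + 1)) := by positivity
  have h10 := mul_le_mul_of_nonneg_left h4 hG
  linarith

end Ker

end HP192
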