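import Mathlib
import Pool.Agent.Helper192_HP.Defs
import Pool.Agent.Helper192_HP.WDefs
import Pool.Agent.Helper192_HP.Basic
import Pool.Agent.Helper192_HP.W01
import Pool.Agent.Helper192_HP.W02
import Pool.Agent.Helper192_HP.AbDef
import Pool.Agent.Helper192_HP.W04
import Pool.Agent.Helper192_HP.W06
import Pool.Agent.Helper192_HP.W23
import Pool.Agent.Helper192_HP.W24

namespace HP192
open Finset

-- TARGET
namespace Ker
variable {V : Type} [Fintype V] [DecidableEq V] (K : Ker V)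

theorem h877_shift (f : ℕ → ℝ) (hf : ∀ t, 0 ≤ f t) (N i : ℕ) :
    ∑ s ∈ range N, (if i ≤ s then f (s - i) else 0) ≤ ∑ t ∈ range N, f t := by
  rw [← sum_filter]
  have h1 : (range N).filter (fun s => i ≤ s) = Ico i N := by
    ext s
    simp only [mem_filter, mem_range, mem_Ico]
    omega
  rw [h1, sum_Ico_eq_sum_range]
  have h2 : ∀ t ∈ range (N - i), f (i + t - i) = f t := fun t _ => by rw [Nat.add_sub_cancel_left]
  rw [sum_congr rfl h2]
  refine sum_le_sum_of_subset_of_nonneg ?_ (fun t _ _ => hf t)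
  intro t ht
  rw [mem_range] at ht ⊢
  omega

theorem h877_count (a : ℕ → ℝ) (ha : ∀ t, 0 ≤ a t) (T Nn : ℕ) :
    (T : ℝ) * ∑ t ∈ Ico T Nn, a t ≤ ∑ s ∈ range Nn, ∑ t ∈ Icc s (s + 2 * T), a t := by
  calc (T : ℝ) * ∑ t ∈ Ico T Nn, a t
      = ∑ t ∈ Ico T Nn, ∑ s ∈ range Nn, (if s < t ∧ t ≤ s + T then a t else 0) := by
        rw [mul_sum]
        refine sum_congr rfl fun t ht => ?_
        rw [mem_Ico] at ht
        rw [← sum_filter, sum_const, nsmul_eq_mul]
        have h1 : (range Nn).filter (fun s => s < t ∧ t ≤ s + T) = Ico (t - T) t := by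
          ext s
          simp only [mem_filter, mem_range, mem_Ico]
          omega
        rw [h1, Nat.card_Ico]
        have h2 : t - (t - T) = T := by omega
        rw [h2]
    _ = ∑ s ∈ range Nn, ∑ t ∈ Ico T Nn, (if s < t ∧ t ≤ s + T then a t else 0) := sum_comm
    _ ≤ ∑ s ∈ range Nn, ∑ t ∈ Icc s (s + 2 * T), a t := by
        refine sum_le_sum fun s _ => ?_
        rw [← sum_filter]
        refine sum_le_sum_of_subset_of_nonneg ?_ (fun t _ _ => ha t)
        intro t ht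
        simp only [mem_filter, mem_Ico, mem_Icc] at ht ⊢
        omega

theorem h877_near (al G : ℕ → ℝ) (hal : ∀ t, 0 ≤ al t) (hG : ∀ t, 0 ≤ G t) (T Nn : ℕ) :
    ∑ s ∈ range Nn, ∑ i ∈ (range T).filter (fun i => i ≤ s), al (s - i) * G i
      ≤ (∑ t ∈ range Nn, al t) * ∑ i ∈ range T, G i := by
  calc ∑ s ∈ range Nn, ∑ i ∈ (range T).filter (fun i => i ≤ s), al (s - i) * G i
      = ∑ s ∈ range Nn, ∑ i ∈ range T, (if i ≤ s then al (s - i) * G i else 0) := by
        simp only [sum_filter]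
    _ = ∑ i ∈ range T, ∑ s ∈ range Nn, (if i ≤ s then al (s - i) * G i else 0) := sum_comm
    _ ≤ ∑ i ∈ range T, (∑ t ∈ range Nn, al t) * G i := by
        refine sum_le_sum fun i _ => ?_
        have h1 : ∑ s ∈ range Nn, (if i ≤ s then al (s - i) * G i else 0) =
            (∑ s ∈ range Nn, (if i ≤ s then al (s - i) else 0)) * G i := by
          rw [sum_mul]
          refine sum_congr rfl fun s _ => ?_
          split_ifs <;> simp
        rw [h1]
        exact mul_le_mul_of_nonneg_right (h877_shift al hal Nn i) (hG i)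
    _ = (∑ t ∈ range Nn, al t) * ∑ i ∈ range T, G i := by rw [mul_sum]

theorem h877_G (h : ℕ → ℝ) (hh : ∀ t, 0 ≤ h t) (T : ℕ) :
    ∑ i ∈ range T, ∑ c ∈ Icc i (i + 2 * T), h c ≤ ∑ c ∈ range (3 * T + 1), ((c : ℝ) + 1) * h c := by
  calc ∑ i ∈ range T, ∑ c ∈ Icc i (i + 2 * T), h c
      = ∑ i ∈ range T, ∑ c ∈ range (3 * T + 1), (if i ≤ c ∧ c ≤ i + 2 * T then h c else 0) := by
        refine sum_congr rfl fun i hi => ?_
        rw [mem_range] at hi
        rw [← sum_filter]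
        congr 1
        ext c
        simp only [mem_filter, mem_range, mem_Icc]
        omega
    _ = ∑ c ∈ range (3 * T + 1), ∑ i ∈ range T, (if i ≤ c ∧ c ≤ i + 2 * T then h c else 0) :=
        sum_comm
    _ ≤ ∑ c ∈ range (3 * T + 1), ((c : ℝ) + 1) * h c := by
        refine sum_le_sum fun c _ => ?_
        rw [← sum_filter, sum_const, nsmul_eq_mul]
        refine mul_le_mul_of_nonneg_right ?_ (hh c)
        have h1 : (range T).filter (fun i => i ≤ c ∧ c ≤ i + 2 * T) ⊆ range (c + 1) := by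
          intro i hi
          simp only [mem_filter, mem_range] at hi ⊢
          omega
        have h2 := card_le_card h1
        rw [card_range] at h2
        exact_mod_cast h2

theorem W2 (o : V) (D : Finset V) (u : V) (m T m0 Nn : ℕ) (Θ κ : ℝ)
    (h2 : ∀ x y, K.hk m0 x y ≤ κ) (hm : m0 ≤ T) (hT : 1 ≤ T) (hΘ : K.Th o (3 * T) ≤ Θ) :
    ∑ t ∈ Ico T Nn, K.aD D u m t
      ≤ 2 * Θ ^ 2 * ((m : ℝ) + 1) / T * (Θ + Θ * (Θ + κ * ((m : ℝ) + 1) * ((T : ℝ) + 1))
          * (1 + (∑ t ∈ range Nn, K.bD D u t) / T))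
        + Θ * κ * ((m : ℝ) + 1) * (2 * (T : ℝ) + 1) * ((∑ t ∈ range Nn, K.bD D u t) / T) := by
  have hT0 : (0 : ℝ) < T := by exact_mod_cast hT
  have hΘ1 : 1 ≤ Θ := (K.one_le_Th o (3 * T)).trans hΘ
  have hΘ0 : 0 ≤ Θ := by linarith
  have hΘ2 : K.Th o (2 * T) ≤ Θ := (K.Th_mono o _ _ (by omega)).trans hΘ
  have hκ : 0 ≤ κ := (K.hk_nonneg m0 o o).trans (h2 o o)
  have ha : ∀ j t, 0 ≤ K.aD D u j t := fun j t =>
    K.EW_nonneg t u _ (fun w _ => by split_ifs <;> norm_num)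
  have hb : ∀ t, 0 ≤ K.bD D u t := fun t =>
    K.EW_nonneg t u _ (fun w _ => by split_ifs <;> norm_num)
  set B : ℝ := ∑ t ∈ range Nn, K.bD D u t with hB
  have hB0 : 0 ≤ B := sum_nonneg fun t _ => hb t
  set X : ℝ := Θ + Θ * (Θ + κ * ((m : ℝ) + 1) * ((T : ℝ) + 1)) * (1 + B / T) with hX
  have hX0 : 0 ≤ X := by positivity
  -- the sum of the near parts
  set al : ℕ → ℝ := fun t => ∑ j ∈ range (m + 1), K.aD D u j t with hal
  set G : ℕ → ℝ := fun i => ∑ c ∈ Icc i (i + 2 * T), K.hk c o o with hG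
  have hal0 : ∀ t, 0 ≤ al t := fun t => sum_nonneg fun j _ => ha j t
  have hG0 : ∀ t, 0 ≤ G t := fun t => sum_nonneg fun c _ => K.hk_nonneg c o o
  have halX : ∑ t ∈ range Nn, al t ≤ ((m : ℝ) + 1) * X := by
    rw [hal]
    simp only
    rw [sum_comm]
    calc ∑ j ∈ range (m + 1), ∑ t ∈ range Nn, K.aD D u j t
        ≤ ∑ j ∈ range (m + 1), X := by
          refine sum_le_sum fun j hj => ?_
          rw [mem_range] at hj
          refine (K.W1 o D u j T m0 Nn Θ κ h2 hm hT hΘ2).trans ?_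
          rw [← hB, hX]
          have hjm : (j : ℝ) ≤ m := by exact_mod_cast Nat.lt_succ_iff.mp hj
          have h1 : κ * ((j : ℝ) + 1) * ((T : ℝ) + 1) ≤ κ * ((m : ℝ) + 1) * ((T : ℝ) + 1) := by
            refine mul_le_mul_of_nonneg_right (mul_le_mul_of_nonneg_left (by linarith) hκ)
              (by positivity)
          have h3 : Θ * (Θ + κ * ((j : ℝ) + 1) * ((T : ℝ) + 1)) * (1 + B / T) ≤
              Θ * (Θ + κ * ((m : ℝ) + 1) * ((T : ℝ) + 1)) * (1 + B / T) := by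
            refine mul_le_mul_of_nonneg_right (mul_le_mul_of_nonneg_left (by linarith) hΘ0)
              (by positivity)
          linarith
      _ = ((m : ℝ) + 1) * X := by
          rw [sum_const, card_range, nsmul_eq_mul]
          push_cast
          ring
  have hGΘ : ∑ i ∈ range T, G i ≤ Θ := by
    refine (h877_G (fun c => K.hk c o o) (fun c => K.hk_nonneg c o o) T).trans ?_
    exact hΘ
  have hnear : ∑ s ∈ range Nn, ∑ i ∈ (range T).filter (fun i => i ≤ s), al (s - i) * G i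
      ≤ ((m : ℝ) + 1) * X * Θ := by
    refine (h877_near al G hal0 hG0 T Nn).trans ?_
    exact mul_le_mul halX hGΘ (sum_nonneg fun i _ => hG0 i) (by positivity)
  have hfar : ∑ s ∈ range Nn, (if T ≤ s then Θ * κ * ((m : ℝ) + 1) * (((2 * T : ℕ) : ℝ) + 1) *
      K.bD D u (s - T) else 0) ≤ Θ * κ * ((m : ℝ) + 1) * (2 * (T : ℝ) + 1) * B := by
    have h1 : ∑ s ∈ range Nn, (if T ≤ s then Θ * κ * ((m : ℝ) + 1) * (((2 * T : ℕ) : ℝ) + 1) *
        K.bD D u (s - T) else 0) = Θ * κ * ((m : ℝ) + 1) * (2 * (T : ℝ) + 1) *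
        ∑ s ∈ range Nn, (if T ≤ s then K.bD D u (s - T) else 0) := by
      rw [mul_sum]
      refine sum_congr rfl fun s _ => ?_
      split_ifs
      · push_cast; ring
      · simp
    rw [h1]
    exact mul_le_mul_of_nonneg_left (h877_shift (K.bD D u) hb Nn T) (by positivity)
  have hkey : ∑ s ∈ range Nn, ∑ t ∈ Icc s (s + 2 * T), K.aD D u m t ≤
      Θ * (((m : ℝ) + 1) * X * Θ) + Θ * κ * ((m : ℝ) + 1) * (2 * (T : ℝ) + 1) * B := by
    calc ∑ s ∈ range Nn, ∑ t ∈ Icc s (s + 2 * T), K.aD D u m t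
        ≤ ∑ s ∈ range Nn, (Θ * ∑ i ∈ (range T).filter (fun i => i ≤ s), al (s - i) * G i +
            (if T ≤ s then Θ * κ * ((m : ℝ) + 1) * (((2 * T : ℕ) : ℝ) + 1) *
              K.bD D u (s - T) else 0)) :=
          sum_le_sum fun s _ => K.key o D u m s T (2 * T) m0 Θ κ h2 hm hΘ2
      _ = Θ * ∑ s ∈ range Nn, ∑ i ∈ (range T).filter (fun i => i ≤ s), al (s - i) * G i +
            ∑ s ∈ range Nn, (if T ≤ s then Θ * κ * ((m : ℝ) + 1) * (((2 * T : ℕ) : ℝ) + 1) *
              K.bD D u (s - T) else 0) := by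
          rw [sum_add_distrib, ← mul_sum]
      _ ≤ _ := add_le_add (mul_le_mul_of_nonneg_left hnear hΘ0) hfar
  have hcount := (h877_count (K.aD D u m) (ha m) T Nn).trans hkey
  have hfin : ∑ t ∈ Ico T Nn, K.aD D u m t ≤
      (Θ * (((m : ℝ) + 1) * X * Θ) + Θ * κ * ((m : ℝ) + 1) * (2 * (T : ℝ) + 1) * B) / T := by
    rw [le_div_iff₀ hT0, mul_comm]
    exact hcount
  refine hfin.trans ?_
  have h5 : (Θ * (((m : ℝ) + 1) * X * Θ) + Θ * κ * ((m : ℝ) + 1) * (2 * (T : ℝ) + 1) * B) / T =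
      Θ ^ 2 * ((m : ℝ) + 1) / T * X + Θ * κ * ((m : ℝ) + 1) * (2 * (T : ℝ) + 1) * (B / T) := by
    field_simp
  rw [h5]
  have h6 : 0 ≤ Θ ^ 2 * ((m : ℝ) + 1) / T * X := by positivity
  have h7 : 2 * Θ ^ 2 * ((m : ℝ) + 1) / T * X = 2 * (Θ ^ 2 * ((m : ℝ) + 1) / T * X) := by ring
  rw [h7]
  linarith

end Ker

end HP192
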