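import Mathlib
import Pool.Agent.Helper192_HP.Defs
import Pool.Agent.Helper192_HP.WDefs
import Pool.Agent.Helper192_HP.Basic
import Pool.Agent.Helper192_HP.W01
import Pool.Agent.Helper192_HP.W02
import Pool.Agent.Helper192_HP.W05
import Pool.Agent.Helper192_HP.W06

namespace HP192
open Finset

namespace Ker
variable {V : Type} [Fintype V] [DecidableEq V] (K : Ker V)

theorem lh_conv (f : ℕ → ℝ) (hf : ∀ n, 0 ≤ f n) (R T : ℕ) :
    ∑ b ∈ range (R + 1), ∑ c ∈ range (T + 1), f (b + c) ≤
      ∑ n ∈ range (R + T + 1), ((n : ℝ) + 1) * f n := by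
  rw [← Finset.sum_product']
  rw [← Finset.sum_fiberwise_of_maps_to (s := range (R + 1) ×ˢ range (T + 1))
    (t := range (R + T + 1)) (g := fun p : ℕ × ℕ => p.1 + p.2)
    (fun p hp => by
      simp only [Finset.mem_product, Finset.mem_range] at hp ⊢
      omega)]
  refine Finset.sum_le_sum fun n _ => ?_
  have e : ∑ p ∈ (range (R + 1) ×ˢ range (T + 1)) with p.1 + p.2 = n, f (p.1 + p.2) =
      ∑ p ∈ (range (R + 1) ×ˢ range (T + 1)) with p.1 + p.2 = n, f n :=
    Finset.sum_congr rfl fun p hp => by rw [(Finset.mem_filter.1 hp).2]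
  rw [e, Finset.sum_const, nsmul_eq_mul]
  refine mul_le_mul_of_nonneg_right ?_ (hf n)
  have h1 : ((range (R + 1) ×ˢ range (T + 1)).filter (fun p => p.1 + p.2 = n)) ⊆
      (Finset.HasAntidiagonal.antidiagonal n : Finset (ℕ × ℕ)) := by
    intro p hp
    rw [Finset.HasAntidiagonal.mem_antidiagonal]
    exact (Finset.mem_filter.1 hp).2
  have h2 := Finset.card_le_card h1
  rw [Finset.Nat.card_antidiagonal] at h2
  exact_mod_cast h2

/-- expansion of the sum over the past -/
theorem lh_exp (h : V → V → ℝ) (R : ℕ) : ∀ u : V,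
    K.EW R u (fun W => ((W ++ [u]).map (fun y => h (tip u W) y)).sum) =
      ∑ a ∈ range (R + 1), ∑ y, K.hk (R - a) u y * ∑ v, K.hk a y v * h v y := by
  induction R with
  | zero =>
    intro u
    rw [EW_zero]
    simp [hk]
  | succ R ih =>
    intro u
    rw [EW_succ]
    have e1 : ∀ z : V, K.EW R z (fun w =>
        (((w ++ [z]) ++ [u]).map (fun y => h (tip u (w ++ [z])) y)).sum) =
        (∑ a ∈ range (R + 1), ∑ y, K.hk (R - a) z y * ∑ v, K.hk a y v * h v y) +
          ∑ v, K.hk R z v * h v u := by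
      intro z
      rw [← ih z]
      have e2 := K.EW_tip R z (fun v => h v u)
      simp only [smul_eq_mul] at e2
      rw [← e2, ← EW_add]
      refine EW_congr K R z _ _ fun w _ => ?_
      simp only [tip_append_singleton, List.map_append, List.map_cons, List.map_nil,
        List.sum_append, List.sum_cons, List.sum_nil, add_zero]
    simp only [e1, smul_eq_mul]
    rw [Finset.sum_range_succ]
    simp only [mul_add, Finset.sum_add_distrib]
    congr 1
    · simp only [Finset.mul_sum]
      rw [Finset.sum_comm]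
      refine Finset.sum_congr rfl fun a ha => ?_
      rw [Finset.sum_comm]
      refine Finset.sum_congr rfl fun y _ => ?_
      have hR : R + 1 - a = (R - a) + 1 := by
        have := Finset.mem_range.1 ha
        omega
      rw [hR]
      simp only [hk, Finset.sum_mul]
      rw [Finset.sum_comm]
      refine Finset.sum_congr rfl fun v _ => ?_
      refine Finset.sum_congr rfl fun z _ => ?_
      ring
    · rw [Nat.sub_self]
      have e3 : ∑ y, K.hk 0 u y * ∑ v, K.hk (R + 1) y v * h v y =
          ∑ v, K.hk (R + 1) u v * h v u := by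
        rw [Finset.sum_eq_single u]
        · simp [hk]
        · intro b _ hb
          simp [hk, Ne.symm hb]
        · intro hu
          exact absurd (Finset.mem_univ u) hu
      rw [e3]
      simp only [hk, Finset.sum_mul, Finset.mul_sum]
      rw [Finset.sum_comm]
      refine Finset.sum_congr rfl fun v _ => ?_
      refine Finset.sum_congr rfl fun z _ => ?_
      ring

theorem lh_dbl (o u v : V) (R T : ℕ) :
    ∑ b ∈ range (R + 1), ∑ c ∈ range (T + 1), K.hk (b + c) u v ≤ 2 * K.Th o (R + T) := by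
  calc ∑ b ∈ range (R + 1), ∑ c ∈ range (T + 1), K.hk (b + c) u v
      ≤ ∑ b ∈ range (R + 1), ∑ c ∈ range (T + 1), 2 * K.hk (b + c) o o :=
        Finset.sum_le_sum fun b _ => Finset.sum_le_sum fun c _ => K.hk_le_two _ _ _ _
    _ ≤ ∑ n ∈ range (R + T + 1), ((n : ℝ) + 1) * (2 * K.hk n o o) :=
        lh_conv (fun n => 2 * K.hk n o o) (fun n => by have := K.hk_nonneg n o o; positivity) R T
    _ = 2 * K.Th o (R + T) := by
        unfold Th
        rw [Finset.mul_sum]
        exact Finset.sum_congr rfl fun n _ => by ring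

theorem lh_diag (o v : V) (R T : ℕ) :
    ∑ b ∈ range (R + 1), ∑ c ∈ range (T + 1), K.hk (b + c) v v ≤ K.Th o (R + T) := by
  calc ∑ b ∈ range (R + 1), ∑ c ∈ range (T + 1), K.hk (b + c) v v
      = ∑ b ∈ range (R + 1), ∑ c ∈ range (T + 1), K.hk (b + c) o o :=
        Finset.sum_congr rfl fun b _ => Finset.sum_congr rfl fun c _ => K.hk_diag _ _ _
    _ ≤ ∑ n ∈ range (R + T + 1), ((n : ℝ) + 1) * K.hk n o o :=
        lh_conv (fun n => K.hk n o o) (fun n => K.hk_nonneg n o o) R T
    _ = K.Th o (R + T) := rfl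

theorem lh_gr_nonneg (T : ℕ) (x y : V) : 0 ≤ K.gr T x y :=
  Finset.sum_nonneg fun _ _ => K.hk_nonneg _ _ _

/-- the main estimate for a fixed time -/
theorem lh_term (o : V) (D : Finset V) (u : V) (T R m0 : ℕ) (κ : ℝ)
    (h2 : ∀ x y, K.hk m0 x y ≤ κ) (hR : 2 * m0 ≤ R) :
    K.EW R u (fun W => if tip u W ∈ D then (0 : ℝ) else K.hits T (tip u W) (W ++ [u])) ≤
      κ * ((Dᶜ).card : ℝ) * (3 * K.Th o (R + T)) := by
  have hκ : 0 ≤ κ := (K.hk_nonneg m0 u u).trans (h2 u u)
  have e : K.EW R u (fun W => if tip u W ∈ D then (0 : ℝ) else K.hits T (tip u W) (W ++ [u])) =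
      K.EW R u (fun W => ((W ++ [u]).map (fun y =>
        (fun v y => if v ∈ D then (0 : ℝ) else K.gr T v y) (tip u W) y)).sum) := by
    refine EW_congr K R u _ _ fun W _ => ?_
    by_cases hD : tip u W ∈ D
    · simp [hD]
    · simp [hD, hits]
  refine (le_of_eq (e.trans
    (K.lh_exp (fun v y => if v ∈ D then (0 : ℝ) else K.gr T v y) R u))).trans ?_
  have hterm : ∀ a ∈ range (R + 1), ∑ y, K.hk (R - a) u y * ∑ v, K.hk a y v *
      (if v ∈ D then (0 : ℝ) else K.gr T v y) ≤
      κ * ∑ v ∈ Dᶜ, (∑ c ∈ range (T + 1), K.hk (R - a + c) u v +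
        ∑ c ∈ range (T + 1), K.hk (a + c) v v) := by
    intro a ha
    have hsplit : ∑ y, K.hk (R - a) u y * ∑ v, K.hk a y v *
        (if v ∈ D then (0 : ℝ) else K.gr T v y) =
        ∑ v ∈ Dᶜ, ∑ y, K.hk (R - a) u y * (K.hk a y v * K.gr T v y) := by
      rw [Finset.sum_comm]
      refine Finset.sum_congr rfl fun y _ => ?_
      rw [← Finset.mul_sum]
      congr 1
      rw [← Finset.sum_compl_add_sum D]
      have : ∑ v ∈ D, K.hk a y v * (if v ∈ D then (0 : ℝ) else K.gr T v y) = 0 :=
        Finset.sum_eq_zero fun v hv => by simp [hv]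
      rw [this, add_zero]
      refine Finset.sum_congr rfl fun v hv => ?_
      rw [Finset.mem_compl] at hv
      simp [hv]
    rw [hsplit, Finset.mul_sum]
    refine Finset.sum_le_sum fun v _ => ?_
    have n1 : 0 ≤ ∑ c ∈ range (T + 1), K.hk (R - a + c) u v :=
      Finset.sum_nonneg fun _ _ => K.hk_nonneg _ _ _
    have n2 : 0 ≤ ∑ c ∈ range (T + 1), K.hk (a + c) v v :=
      Finset.sum_nonneg fun _ _ => K.hk_nonneg _ _ _
    by_cases ham : m0 ≤ a
    · calc ∑ y, K.hk (R - a) u y * (K.hk a y v * K.gr T v y)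
          ≤ ∑ y, K.hk (R - a) u y * (κ * K.gr T v y) := by
            refine Finset.sum_le_sum fun y _ => ?_
            refine mul_le_mul_of_nonneg_left ?_ (K.hk_nonneg _ _ _)
            exact mul_le_mul_of_nonneg_right (K.hk_mix m0 κ h2 a ham y v) (K.lh_gr_nonneg T v y)
        _ = κ * ∑ c ∈ range (T + 1), K.hk (R - a + c) u v := by
            unfold gr
            simp only [hk_add, Finset.mul_sum]
            rw [Finset.sum_comm]
            refine Finset.sum_congr rfl fun c _ => Finset.sum_congr rfl fun y _ => ?_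
            rw [K.hk_symm c v y]
            ring
        _ ≤ _ := mul_le_mul_of_nonneg_left (by linarith) hκ
    · have hRa : m0 ≤ R - a := by omega
      calc ∑ y, K.hk (R - a) u y * (K.hk a y v * K.gr T v y)
          ≤ ∑ y, κ * (K.hk a y v * K.gr T v y) := by
            refine Finset.sum_le_sum fun y _ => ?_
            exact mul_le_mul_of_nonneg_right (K.hk_mix m0 κ h2 (R - a) hRa u y)
              (mul_nonneg (K.hk_nonneg _ _ _) (K.lh_gr_nonneg T v y))
        _ = κ * ∑ c ∈ range (T + 1), K.hk (a + c) v v := by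
            unfold gr
            simp only [hk_add, Finset.mul_sum]
            rw [Finset.sum_comm]
            refine Finset.sum_congr rfl fun c _ => Finset.sum_congr rfl fun y _ => ?_
            rw [K.hk_symm c v y, K.hk_symm a y v]
        _ ≤ _ := mul_le_mul_of_nonneg_left (by linarith) hκ
  refine (Finset.sum_le_sum hterm).trans ?_
  rw [← Finset.mul_sum, mul_assoc]
  refine mul_le_mul_of_nonneg_left ?_ hκ
  rw [Finset.sum_comm]
  have hv : ∀ v ∈ Dᶜ, ∑ a ∈ range (R + 1), (∑ c ∈ range (T + 1), K.hk (R - a + c) u v +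
        ∑ c ∈ range (T + 1), K.hk (a + c) v v) ≤ 3 * K.Th o (R + T) := by
    intro v _
    rw [Finset.sum_add_distrib]
    have h4 : ∑ a ∈ range (R + 1), ∑ c ∈ range (T + 1), K.hk (R - a + c) u v =
        ∑ a ∈ range (R + 1), ∑ c ∈ range (T + 1), K.hk (a + c) u v := by
      rw [← Finset.sum_range_reflect (fun a => ∑ c ∈ range (T + 1), K.hk (a + c) u v) (R + 1)]
      refine Finset.sum_congr rfl fun a ha => ?_
      have : R + 1 - 1 - a = R - a := by omega
      rw [this]
    rw [h4]
    have h5 := K.lh_dbl o u v R T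
    have h6 := K.lh_diag o v R T
    linarith
  refine (Finset.sum_le_sum hv).trans ?_
  rw [Finset.sum_const, nsmul_eq_mul]

open Classical in
/-- first exit -/
theorem lh_first (D : Finset V) (M : ℕ) (t : ℕ) : ∀ (x : V) (L : List V),
    K.EW t x (fun w => if ¬ (∀ v ∈ w, v ∈ D) ∧ len (w ++ L) = M then (1 : ℝ) else 0) ≤
      ∑ s ∈ range t, K.EW (s + 1) x (fun w1 => if tip x w1 ∈ D then (0 : ℝ) else
        K.EW (t - (s + 1)) (tip x w1) (fun w2 => if len (w2 ++ (w1 ++ L)) = M then (1 : ℝ)
          else 0)) := by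
  induction t with
  | zero =>
    intro x L
    rw [EW_zero]
    simp
  | succ t ih =>
    intro x L
    rw [EW_succ, Finset.sum_range_succ']
    have h1 : ∀ y : V, K.EW t y (fun w => if ¬ (∀ v ∈ w ++ [y], v ∈ D) ∧
        len ((w ++ [y]) ++ L) = M then (1 : ℝ) else 0) ≤
        (∑ s ∈ range t, K.EW (s + 1) y (fun w1 => if tip y w1 ∈ D then (0 : ℝ) else
          K.EW (t - (s + 1)) (tip y w1) (fun w2 => if len (w2 ++ (w1 ++ ([y] ++ L))) = M
            then (1 : ℝ) else 0))) +
        (if y ∈ D then (0 : ℝ) else K.EW t y (fun w2 => if len (w2 ++ ([y] ++ L)) = M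
            then (1 : ℝ) else 0)) := by
      intro y
      have h2 : K.EW t y (fun w => if ¬ (∀ v ∈ w ++ [y], v ∈ D) ∧
          len ((w ++ [y]) ++ L) = M then (1 : ℝ) else 0) ≤
          K.EW t y (fun w => (if ¬ (∀ v ∈ w, v ∈ D) ∧ len (w ++ ([y] ++ L)) = M
            then (1 : ℝ) else 0) + (if y ∈ D then (0 : ℝ) else
              (if len (w ++ ([y] ++ L)) = M then (1 : ℝ) else 0))) := by
        refine EW_mono K t y _ _ fun w _ => ?_
        rw [List.append_assoc]
        by_cases hM : len (w ++ ([y] ++ L)) = M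
        · by_cases hy : y ∈ D
          · by_cases hw : ∀ v ∈ w, v ∈ D
            · have h3 : ∀ v ∈ w ++ [y], v ∈ D := by
                intro v hv
                rcases List.mem_append.1 hv with h | h
                · exact hw v h
                · rw [List.mem_singleton.1 h]; exact hy
              rw [if_neg (fun h => h.1 h3), if_neg (fun h => h.1 hw), if_pos hy]
              norm_num
            · rw [if_pos (⟨hw, hM⟩ : _ ∧ _), if_pos hy]
              split_ifs <;> norm_num
          · rw [if_neg hy, if_pos hM]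
            split_ifs <;> norm_num
        · rw [if_neg (fun h => hM h.2), if_neg (fun h => hM h.2), if_neg hM]
          split_ifs <;> norm_num
      refine h2.trans ?_
      rw [EW_add]
      refine add_le_add (ih y ([y] ++ L)) (le_of_eq ?_)
      by_cases hy : y ∈ D
      · simp only [if_pos hy]
        exact EW_zero_fun K t y
      · simp only [if_neg hy]
    have h3 : ∑ y, K.P x y • K.EW t y (fun w => if ¬ (∀ v ∈ w ++ [y], v ∈ D) ∧
        len ((w ++ [y]) ++ L) = M then (1 : ℝ) else 0) ≤
        ∑ y, K.P x y * ((∑ s ∈ range t, K.EW (s + 1) y (fun w1 => if tip y w1 ∈ D then (0 : ℝ)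
          else K.EW (t - (s + 1)) (tip y w1) (fun w2 => if len (w2 ++ (w1 ++ ([y] ++ L))) = M
            then (1 : ℝ) else 0))) +
        (if y ∈ D then (0 : ℝ) else K.EW t y (fun w2 => if len (w2 ++ ([y] ++ L)) = M
            then (1 : ℝ) else 0))) := by
      refine Finset.sum_le_sum fun y _ => ?_
      rw [smul_eq_mul]
      exact mul_le_mul_of_nonneg_left (h1 y) (K.nn x y)
    refine h3.trans (le_of_eq ?_)
    simp only [mul_add, Finset.sum_add_distrib]
    congr 1
    · simp only [Finset.mul_sum]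
      rw [Finset.sum_comm]
      refine Finset.sum_congr rfl fun s _ => ?_
      rw [EW_succ K (s + 1)]
      refine Finset.sum_congr rfl fun y _ => ?_
      rw [smul_eq_mul]
      congr 1
      have e1 : t + 1 - (s + 1 + 1) = t - (s + 1) := by omega
      simp only [tip_append_singleton, List.append_assoc, e1]

open Classical in
theorem lh_sum (o : V) (D : Finset V) (M T : ℕ) (x : V) (L : List V) :
    ∑ t ∈ range T,
      K.EW t x (fun w => if ¬ (∀ v ∈ w, v ∈ D) ∧ len (w ++ L) = M then (1 : ℝ) else 0) ≤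
      ∑ s ∈ range T, K.EW (s + 1) x (fun w1 => if tip x w1 ∈ D then (0 : ℝ) else
        K.Th o T * K.hits T (tip x w1) (w1 ++ L)) := by
  refine (Finset.sum_le_sum fun t _ => K.lh_first D M t x L).trans ?_
  rw [Finset.sum_comm' (t' := range T) (s' := fun s => Finset.Ico (s + 1) T)
    (by
      intro t s
      simp only [Finset.mem_range, Finset.mem_Ico]
      omega)]
  refine Finset.sum_le_sum fun s _ => ?_
  rw [← EW_sum]
  refine EW_mono K (s + 1) x _ _ fun w1 hw1 => ?_
  by_cases hD : tip x w1 ∈ D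
  · simp [hD]
  · simp only [if_neg hD]
    rw [Finset.sum_Ico_eq_sum_range]
    simp only [Nat.add_sub_cancel_left]
    have hhead : (w1 ++ L).head? = some (tip x w1) := by
      cases w1 with
      | nil => simp at hw1
      | cons a w => simp
    refine le_trans ?_ (K.Dbound o T M (tip x w1) (w1 ++ L) hhead)
    refine Finset.sum_le_sum_of_subset_of_nonneg ?_ ?_
    · intro j hj
      rw [Finset.mem_range] at hj ⊢
      omega
    · intro j _ _
      refine EW_nonneg K j _ _ fun w _ => ?_
      split_ifs <;> norm_num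

end Ker

-- TARGET
namespace Ker
variable {V : Type} [Fintype V] [DecidableEq V] (K : Ker V)

open Classical in
theorem later_hits (o : V) (D : Finset V) (u : V) (M T r0 m0 : ℕ) (Θ κ : ℝ)
    (h2 : ∀ x y, K.hk m0 x y ≤ κ) (hr0 : 2 * m0 ≤ r0) (hΘ : K.Th o (r0 + 2 * T) ≤ Θ) :
    K.EW r0 u (fun ω => ∑ t ∈ range T, K.EW t (tip u ω) (fun w =>
      if ¬ (∀ v ∈ w, v ∈ D) ∧ len (w ++ (ω ++ [u])) = M then (1 : ℝ) else 0))
    ≤ 3 * Θ ^ 2 * κ * ((Dᶜ).card : ℝ) * T := by
  have hκ : 0 ≤ κ := (K.hk_nonneg m0 u u).trans (h2 u u)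
  have hT1 : K.Th o T ≤ Θ := (K.Th_mono o T (r0 + 2 * T) (by omega)).trans hΘ
  have hT0 : 0 ≤ K.Th o T := le_trans zero_le_one (K.one_le_Th o T)
  have hΘ0 : 0 ≤ Θ := hT0.trans hT1
  have h3 : K.EW r0 u (fun ω => ∑ t ∈ range T, K.EW t (tip u ω) (fun w =>
      if ¬ (∀ v ∈ w, v ∈ D) ∧ len (w ++ (ω ++ [u])) = M then (1 : ℝ) else 0)) ≤
      ∑ s ∈ range T, K.Th o T * (κ * ((Dᶜ).card : ℝ) * (3 * K.Th o (r0 + (s + 1) + T))) := by
    refine (EW_mono K r0 u _ _ fun ω _ => K.lh_sum o D M T (tip u ω) (ω ++ [u])).trans ?_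
    rw [EW_sum]
    refine Finset.sum_le_sum fun s _ => ?_
    have e : K.EW r0 u (fun ω => K.EW (s + 1) (tip u ω) (fun w1 =>
        if tip (tip u ω) w1 ∈ D then (0 : ℝ) else
        K.Th o T * K.hits T (tip (tip u ω) w1) (w1 ++ (ω ++ [u])))) =
        K.EW (r0 + (s + 1)) u (fun W => K.Th o T * (if tip u W ∈ D then (0 : ℝ) else
          K.hits T (tip u W) (W ++ [u]))) := by
      rw [EW_append]
      refine EW_congr K r0 u _ _ fun ω _ => ?_
      refine EW_congr K (s + 1) _ _ _ fun w1 _ => ?_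
      rw [tip_append, List.append_assoc]
      split_ifs
      · rw [mul_zero]
      · rfl
    rw [e, EW_mul_left]
    exact mul_le_mul_of_nonneg_left (K.lh_term o D u T (r0 + (s + 1)) m0 κ h2 (by omega)) hT0
  refine h3.trans ?_
  have h4 : ∀ s ∈ range T, K.Th o T * (κ * ((Dᶜ).card : ℝ) * (3 * K.Th o (r0 + (s + 1) + T))) ≤
      Θ * (κ * ((Dᶜ).card : ℝ) * (3 * Θ)) := by
    intro s hs
    have hs' := Finset.mem_range.1 hs
    have h5 : K.Th o (r0 + (s + 1) + T) ≤ Θ :=
      (K.Th_mono o _ (r0 + 2 * T) (by omega)).trans hΘ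
    have h6 : 0 ≤ K.Th o (r0 + (s + 1) + T) := le_trans zero_le_one (K.one_le_Th o _)
    refine mul_le_mul hT1 ?_ (by positivity) hΘ0
    refine mul_le_mul_of_nonneg_left (by linarith) (by positivity)
  refine (Finset.sum_le_sum h4).trans (le_of_eq ?_)
  rw [Finset.sum_const, Finset.card_range, nsmul_eq_mul]
  ring

end Ker

end HP192
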