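import Mathlib
import Pool.Agent.Helper192_HP.Defs

namespace HP192
open Finset

namespace Ker
variable {V : Type} [Fintype V] [DecidableEq V] (K : Ker V)

/-- killed heat kernel -/
def kk (D : Finset V) : ℕ → V → V → ℝ
  | 0, y, z => if y = z then 1 else 0
  | t + 1, y, z => ∑ y' ∈ D, K.P y y' * kk D t y' z

end Ker


end HP192
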