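import Mathlib
import Pool.Agent.Helper192_HP.TDefs

namespace HP192
open Finset

variable {V : Type} [Fintype V] [DecidableEq V]

/-! helper lemmas -/

theorem gc_mem {V : Type} [Fintype V] [DecidableEq V] {G : SimpleGraph V} {D : Finset V}
    {f : V → V} : f ∈ For G D ↔ (∀ v, v ∉ D → f v = v) ∧ (∀ v ∈ D, G.Adj v (f v)) ∧
    ∀ v, ∃ k, f^[k] v ∉ D := by
  unfold For
  simp

theorem gc_same {V : Type} [DecidableEq V] {f : V → V} {a b v : V} (n : ℕ)
    (h : ∀ k < n, f^[k] v ≠ a) : (Function.update f a b)^[n] v = f^[n] v := by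
  induction n with
  | zero => rfl
  | succ n ih =>
    rw [Function.iterate_succ_apply', Function.iterate_succ_apply',
      ih (fun k hk => h k (Nat.lt_succ_of_lt hk)),
      Function.update_of_ne (h n (Nat.lt_succ_self n))]

theorem gc_fix {V : Type} {f : V → V} {v w : V} {j : ℕ} (h : f^[j] v = w) (hw : f w = w) :
    ∀ n, j ≤ n → f^[n] v = w := by
  intro n hn
  obtain ⟨m, rfl⟩ := Nat.exists_eq_add_of_le hn
  rw [add_comm, Function.iterate_add_apply, h]
  exact Function.iterate_fixed hw m

theorem gc_acyc {V : Type} [Fintype V] [DecidableEq V] {G : SimpleGraph V} {D : Finset V}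
    {f : V → V} (hf : f ∈ For G D) {v : V} (hv : v ∈ D) (k : ℕ) : f^[k] (f v) ≠ v := by
  intro h
  rw [← Function.iterate_succ_apply] at h
  obtain ⟨h1, -, h3⟩ := gc_mem.1 hf
  obtain ⟨j, hj⟩ := h3 v
  have h4 : f^[(k + 1) * j] v = v := by
    rw [Function.iterate_mul]
    exact Function.iterate_fixed h j
  have h5 := gc_fix rfl (h1 _ hj) ((k + 1) * j) (Nat.le_mul_of_pos_left j (Nat.succ_pos k))
  rw [h4] at h5
  rw [← h5] at hj
  exact hj hv

/-- general membership lemma -/
theorem gc_update {V : Type} [Fintype V] [DecidableEq V] {G : SimpleGraph V} {D : Finset V}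
    {f : V → V} {a b : V} (hf : f ∈ For G D) (hab : G.Adj a b) (hb : ¬ ∃ k, f^[k] b = a) :
    Function.update f a b ∈ For G (insert a D) := by
  push Not at hb
  obtain ⟨h1, h2, h3⟩ := gc_mem.1 hf
  rw [gc_mem]
  refine ⟨?_, ?_, ?_⟩
  · intro v hv
    rw [Finset.mem_insert, not_or] at hv
    rw [Function.update_of_ne hv.1]
    exact h1 v hv.2
  · intro v hv
    by_cases hva : v = a
    · subst hva
      rw [Function.update_self]
      exact hab
    · rw [Function.update_of_ne hva]
      exact h2 v ((Finset.mem_insert.1 hv).resolve_left hva)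
  · intro v
    have hB : ∃ k, (Function.update f a b)^[k] b ∉ insert a D := by
      obtain ⟨k, hk⟩ := h3 b
      refine ⟨k, ?_⟩
      rw [gc_same k (fun i _ => hb i), Finset.mem_insert, not_or]
      exact ⟨hb k, hk⟩
    by_cases hv : ∃ k, f^[k] v = a
    · classical
      have hk := Nat.find_spec hv
      have hlt : ∀ i < Nat.find hv, f^[i] v ≠ a := fun i hi => Nat.find_min hv hi
      have hg : (Function.update f a b)^[Nat.find hv] v = a := by rw [gc_same _ hlt, hk]
      obtain ⟨m, hm⟩ := hB
      refine ⟨m + 1 + Nat.find hv, ?_⟩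
      rw [Function.iterate_add_apply, hg, Function.iterate_succ_apply, Function.update_self]
      exact hm
    · push Not at hv
      obtain ⟨k, hk⟩ := h3 v
      refine ⟨k, ?_⟩
      rw [gc_same k (fun i _ => hv i), Finset.mem_insert, not_or]
      exact ⟨hv k, hk⟩

theorem gc_reset {V : Type} [Fintype V] [DecidableEq V] {G : SimpleGraph V} {D : Finset V}
    {h : V → V} {z : V} (hh : h ∈ For G D) (hz : z ∈ D) :
    Function.update h z z ∈ For G (D.erase z) ∧
      ¬ ∃ k, (Function.update h z z)^[k] (h z) = z := by
  obtain ⟨h1, h2, h3⟩ := gc_mem.1 hh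
  constructor
  · rw [gc_mem]
    refine ⟨?_, ?_, ?_⟩
    · intro v hv
      by_cases hvz : v = z
      · subst hvz
        rw [Function.update_self]
      · rw [Function.update_of_ne hvz]
        apply h1
        intro hvD
        exact hv (Finset.mem_erase.2 ⟨hvz, hvD⟩)
    · intro v hv
      rw [Finset.mem_erase] at hv
      rw [Function.update_of_ne hv.1]
      exact h2 v hv.2
    · intro v
      by_cases hv : ∃ k, h^[k] v = z
      · classical
        have hk := Nat.find_spec hv
        have hlt : ∀ i < Nat.find hv, h^[i] v ≠ z := fun i hi => Nat.find_min hv hi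
        refine ⟨Nat.find hv, ?_⟩
        rw [gc_same _ hlt, hk]
        simp
      · push Not at hv
        obtain ⟨k, hk⟩ := h3 v
        refine ⟨k, ?_⟩
        rw [gc_same k (fun i _ => hv i)]
        intro hm
        exact hk (Finset.mem_of_mem_erase hm)
  · push Not
    intro k
    rw [gc_same k (fun i _ => gc_acyc hh hz i)]
    exact gc_acyc hh hz k

/-- a vertex whose path reaches `c` different from it is not a root -/
theorem gc_inD {V : Type} [Fintype V] [DecidableEq V] {G : SimpleGraph V} {D : Finset V}
    {f : V → V} (hf : f ∈ For G D) {w c : V} (hw : ∃ k, f^[k] w = c) (hwc : w ≠ c) : w ∈ D := by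
  by_contra h
  obtain ⟨h1, -, -⟩ := gc_mem.1 hf
  obtain ⟨k, hk⟩ := hw
  rw [Function.iterate_fixed (h1 w h)] at hk
  exact hwc hk

open Classical in
/-- TARGET -/
theorem green_comb {V : Type} [Fintype V] [DecidableEq V] (G : SimpleGraph V) (d : ℕ)
    (hd : ∀ v, (univ.filter (fun w => G.Adj v w)).card = d) (D : Finset V) (hD : D ≠ univ)
    (z y : V) (hz : z ∈ D) (hy : y ∈ D) :
    d * ((For G (D.erase z)).filter (fun f => ∃ k, f^[k] y = z)).card
      = ∑ y' ∈ D.filter (fun y' => G.Adj y y'),
          ((For G (D.erase z)).filter (fun f => ∃ k, f^[k] y' = z)).card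
        + (if y = z then (For G D).card else 0) := by
  classical
  have hE : ∀ {f : V → V}, f ∈ For G (D.erase z) → f z = z := by
    intro f hf
    exact (gc_mem.1 hf).1 z (by simp)
  by_cases hyz : y = z
  · subst hyz
    rw [if_pos rfl]
    have e1 : ((For G (D.erase y)).filter (fun f => ∃ k, f^[k] y = y)).card
        = (For G (D.erase y)).card := by
      congr 1
      apply Finset.filter_true_of_mem
      intro f _
      exact ⟨0, rfl⟩
    rw [e1]
    have e2 : d * (For G (D.erase y)).card =
        ∑ y' ∈ univ.filter (fun w => G.Adj y w), (For G (D.erase y)).card := by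
      rw [Finset.sum_const, hd y, smul_eq_mul]
    have e3 : ∀ y' ∈ univ.filter (fun w => G.Adj y w), (For G (D.erase y)).card =
        ((For G (D.erase y)).filter (fun f => ∃ k, f^[k] y' = y)).card +
        ((For G (D.erase y)).filter (fun f => ¬ ∃ k, f^[k] y' = y)).card := by
      intro y' _
      rw [Finset.card_filter_add_card_filter_not]
    rw [e2, Finset.sum_congr rfl e3, Finset.sum_add_distrib]
    congr 1
    · symm
      apply Finset.sum_subset
      · intro w hw
        rw [Finset.mem_filter] at hw ⊢
        exact ⟨Finset.mem_univ _, hw.2⟩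
      · intro w hw hw2
        rw [Finset.mem_filter] at hw hw2
        rw [Finset.card_eq_zero, Finset.filter_eq_empty_iff]
        intro f hf hk
        apply hw2
        refine ⟨?_, hw.2⟩
        exact Finset.mem_of_mem_erase (gc_inD hf hk hw.2.ne')
    · rw [← Finset.card_sigma]
      apply Finset.card_bij' (fun p _ => Function.update p.2 y p.1)
        (fun h _ => (⟨h y, Function.update h y y⟩ : (_ : V) × (V → V)))
      · rintro ⟨b, f⟩ hp
        rw [Finset.mem_sigma, Finset.mem_filter, Finset.mem_filter] at hp
        have := gc_update hp.2.1 hp.1.2 hp.2.2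
        rw [Finset.insert_erase hy] at this
        exact this
      · intro h hh
        rw [Finset.mem_sigma, Finset.mem_filter, Finset.mem_filter]
        exact ⟨⟨Finset.mem_univ _, (gc_mem.1 hh).2.1 y hy⟩, gc_reset hh hy⟩
      · rintro ⟨b, f⟩ hp
        rw [Finset.mem_sigma, Finset.mem_filter, Finset.mem_filter] at hp
        have h0 := hE hp.2.1
        simp only [Function.update_self, Function.update_idem]
        congr 1
        rw [Function.update_eq_self_iff]
        exact h0.symm
      · intro h hh
        simp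
  · rw [if_neg hyz, add_zero]
    have hyE : y ∈ D.erase z := Finset.mem_erase.2 ⟨hyz, hy⟩
    have e2 : d * ((For G (D.erase z)).filter (fun f => ∃ k, f^[k] y = z)).card =
        ((univ.filter (fun w => G.Adj y w)).sigma
          (fun _ => (For G (D.erase z)).filter (fun f => ∃ k, f^[k] y = z))).card := by
      rw [Finset.card_sigma, Finset.sum_const, hd y, smul_eq_mul]
    rw [e2, ← Finset.card_sigma]
    let Φ : ((_ : V) × (V → V)) → ((_ : V) × (V → V)) := fun p =>
      if ∃ k, p.2^[k] p.1 = y then p else ⟨p.2 y, Function.update p.2 y p.1⟩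
    have hne : ∀ {f : V → V} {b : V}, f ∈ For G (D.erase z) → G.Adj y b →
        (¬ ∃ k, f^[k] b = y) → Function.update f y b ∈ For G (D.erase z) := by
      intro f b hf hb hn
      have := gc_update hf hb hn
      rwa [Finset.insert_eq_of_mem hyE] at this
    have hav : ∀ {f : V → V} {b : V}, f ∈ For G (D.erase z) → ∀ k,
        (Function.update f y b)^[k] (f y) = f^[k] (f y) := by
      intro f b hf k
      exact gc_same k (fun i _ => gc_acyc hf hyE i)
    apply Finset.card_bij' (fun p _ => Φ p) (fun p _ => Φ p)
    · rintro ⟨b, f⟩ hp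
      rw [Finset.mem_sigma, Finset.mem_filter, Finset.mem_filter] at hp
      obtain ⟨⟨-, hab⟩, hf, k, hk⟩ := hp
      simp only at hab hf hk
      by_cases hc : ∃ k, f^[k] b = y
      · have : Φ ⟨b, f⟩ = ⟨b, f⟩ := if_pos hc
        rw [this, Finset.mem_sigma, Finset.mem_filter, Finset.mem_filter]
        refine ⟨⟨Finset.mem_of_mem_erase (gc_inD hf hc hab.ne'), hab⟩, hf, ?_⟩
        obtain ⟨j, hj⟩ := hc
        refine ⟨k + j, ?_⟩
        simp only
        rw [Function.iterate_add_apply, hj, hk]
      · have : Φ ⟨b, f⟩ = ⟨f y, Function.update f y b⟩ := if_neg hc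
        rw [this, Finset.mem_sigma, Finset.mem_filter, Finset.mem_filter]
        have hk0 : k ≠ 0 := by
          rintro rfl
          exact hyz hk
        obtain ⟨m, rfl⟩ := Nat.exists_eq_succ_of_ne_zero hk0
        rw [Function.iterate_succ_apply] at hk
        refine ⟨⟨?_, (gc_mem.1 hf).2.1 y hyE⟩, hne hf hab hc, m, ?_⟩
        · simp only
          by_cases h0 : f y = z
          · rw [h0]; exact hz
          · exact Finset.mem_of_mem_erase (gc_inD hf ⟨m, hk⟩ h0)
        · simp only
          rw [hav hf, hk]
    · rintro ⟨b, f⟩ hp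
      rw [Finset.mem_sigma, Finset.mem_filter, Finset.mem_filter] at hp
      obtain ⟨⟨hbD, hab⟩, hf, k, hk⟩ := hp
      simp only at hbD hab hf hk
      by_cases hc : ∃ k, f^[k] b = y
      · have : Φ ⟨b, f⟩ = ⟨b, f⟩ := if_pos hc
        rw [this, Finset.mem_sigma, Finset.mem_filter, Finset.mem_filter]
        refine ⟨⟨Finset.mem_univ _, hab⟩, hf, ?_⟩
        obtain ⟨j, hj⟩ := hc
        rcases le_total j k with hjk | hjk
        · obtain ⟨m, rfl⟩ := Nat.exists_eq_add_of_le hjk
          rw [add_comm, Function.iterate_add_apply, hj] at hk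
          exact ⟨m, hk⟩
        · have := gc_fix hk (hE hf) j hjk
          rw [hj] at this
          exact absurd this hyz
      · have : Φ ⟨b, f⟩ = ⟨f y, Function.update f y b⟩ := if_neg hc
        rw [this, Finset.mem_sigma, Finset.mem_filter, Finset.mem_filter]
        refine ⟨⟨Finset.mem_univ _, (gc_mem.1 hf).2.1 y hyE⟩, hne hf hab hc, k + 1, ?_⟩
        simp only
        rw [Function.iterate_succ_apply, Function.update_self]
        push Not at hc
        rw [gc_same k (fun i _ => hc i), hk]
    all_goals
      rintro ⟨b, f⟩ hp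
      rw [Finset.mem_sigma, Finset.mem_filter, Finset.mem_filter] at hp
      obtain ⟨-, hf, -⟩ := hp
      simp only at hf
      by_cases hc : ∃ k, f^[k] b = y
      · have : Φ ⟨b, f⟩ = ⟨b, f⟩ := if_pos hc
        rw [this, this]
      · have h1 : Φ ⟨b, f⟩ = ⟨f y, Function.update f y b⟩ := if_neg hc
        rw [h1]
        have h2 : ¬ ∃ k, (Function.update f y b)^[k] (f y) = y := by
          push Not
          intro k
          rw [hav hf]
          exact gc_acyc hf hyE k
        have h3 : Φ ⟨f y, Function.update f y b⟩ =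
            ⟨(Function.update f y b) y, Function.update (Function.update f y b) y (f y)⟩ :=
          if_neg h2
        rw [h3]
        simp

end HP192
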