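import Mathlib
import Pool.Agent.Helper192_HP.Defs
import Pool.Agent.Helper192_HP.KkDef

namespace HP192
open Finset

-- TARGET
namespace Ker
variable {V : Type} [Fintype V] [DecidableEq V] (K : Ker V)

theorem h135_kk_nonneg (D : Finset V) : ∀ (t : ℕ) (y z : V), 0 ≤ K.kk D t y z := by
  intro t
  induction t with
  | zero =>
    intro y z
    unfold kk
    split_ifs <;> norm_num
  | succ t ih =>
    intro y z
    unfold kk
    exact Finset.sum_nonneg fun y' _ => mul_nonneg (K.nn y y') (ih y' z)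

theorem h135_iter (D : Finset V) (g : V → V → ℝ)
    (hg : ∀ y ∈ D, ∀ z ∈ D,
      g y z = ∑ y' ∈ D, K.P y y' * g y' z + (if y = z then 1 else 0)) (z : V) (hz : z ∈ D) :
    ∀ (N : ℕ) (y : V), y ∈ D →
      g y z = ∑ t ∈ Finset.range N, K.kk D t y z + ∑ y' ∈ D, K.kk D N y y' * g y' z := by
  intro N
  induction N with
  | zero =>
    intro y hy
    simp only [Finset.range_zero, Finset.sum_empty, zero_add, kk]
    rw [Finset.sum_eq_single y]
    · simp
    · intro b _ hb
      rw [if_neg (Ne.symm hb), zero_mul]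
    · intro h
      exact absurd hy h
  | succ N ih =>
    intro y hy
    rw [hg y hy z hz, Finset.sum_range_succ']
    have h0 : K.kk D 0 y z = if y = z then 1 else 0 := rfl
    rw [h0]
    have h1 : ∑ y' ∈ D, K.P y y' * g y' z =
        ∑ y' ∈ D, (K.P y y' * ∑ t ∈ Finset.range N, K.kk D t y' z +
          K.P y y' * ∑ y'' ∈ D, K.kk D N y' y'' * g y'' z) := by
      refine Finset.sum_congr rfl fun y' hy' => ?_
      rw [← mul_add, ← ih y' hy']
    rw [h1, Finset.sum_add_distrib]
    have h2 : ∑ y' ∈ D, K.P y y' * ∑ t ∈ Finset.range N, K.kk D t y' z =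
        ∑ t ∈ Finset.range N, K.kk D (t + 1) y z := by
      simp only [kk, Finset.mul_sum]
      rw [Finset.sum_comm]
    have h3 : ∑ y' ∈ D, K.P y y' * ∑ y'' ∈ D, K.kk D N y' y'' * g y'' z =
        ∑ y'' ∈ D, K.kk D (N + 1) y y'' * g y'' z := by
      simp only [kk, Finset.mul_sum, Finset.sum_mul]
      rw [Finset.sum_comm]
      refine Finset.sum_congr rfl fun _ _ => Finset.sum_congr rfl fun _ _ => ?_
      ring
    rw [h2, h3]
    ring

theorem kk_hasSum (D : Finset V) (g : V → V → ℝ) (hg0 : ∀ y ∈ D, ∀ z ∈ D, 0 ≤ g y z)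
    (hg : ∀ y ∈ D, ∀ z ∈ D,
      g y z = ∑ y' ∈ D, K.P y y' * g y' z + (if y = z then 1 else 0))
    (y z : V) (hy : y ∈ D) (hz : z ∈ D) : HasSum (fun t => K.kk D t y z) (g y z) := by
  have hsum : ∀ a ∈ D, ∀ b ∈ D, Summable (fun t => K.kk D t a b) := by
    intro a ha b hb
    refine summable_of_sum_range_le (c := g a b) (fun t => K.h135_kk_nonneg D t a b) fun N => ?_
    rw [K.h135_iter D g hg b hb N a ha]
    have : 0 ≤ ∑ y' ∈ D, K.kk D N a y' * g y' b :=
      Finset.sum_nonneg fun y' hy' => mul_nonneg (K.h135_kk_nonneg D N a y') (hg0 y' hy' b hb)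
    linarith
  rw [hasSum_iff_tendsto_nat_of_nonneg (fun t => K.h135_kk_nonneg D t y z)]
  have hrem : Filter.Tendsto (fun N => ∑ y' ∈ D, K.kk D N y y' * g y' z) Filter.atTop
      (nhds 0) := by
    have h := tendsto_finset_sum (f := fun y' N => K.kk D N y y' * g y' z) (a := fun _ => (0 : ℝ))
      (x := Filter.atTop) D (fun y' hy' => by
        have := (hsum y hy y' hy').tendsto_atTop_zero.mul_const (g y' z)
        simpa using this)
    simpa using h
  have heq : (fun N => ∑ t ∈ Finset.range N, K.kk D t y z) =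
      fun N => g y z - ∑ y' ∈ D, K.kk D N y y' * g y' z := by
    funext N
    have := K.h135_iter D g hg z hz N y hy
    linarith
  rw [heq]
  simpa using hrem.const_sub (g y z)

end Ker

end HP192
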