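import Mathlib
import Pool.Agent.Helper192_HP.Defs
import Pool.Agent.Helper192_HP.WDefs
import Pool.Agent.Helper192_HP.Basic
import Pool.Agent.Helper192_HP.W01
import Pool.Agent.Helper192_HP.W02
import Pool.Agent.Helper192_HP.AbDef
import Pool.Agent.Helper192_HP.KkDef

namespace HP192
open Finset

-- TARGET
namespace Ker
variable {V : Type} [Fintype V] [DecidableEq V] (K : Ker V)

theorem lx_len_one (u : V) : len [u] = 1 := by
  simp [len, LE, stp]

theorem lx_kk (D : Finset V) (z : V) (s : ℕ) (y : V) :
    K.EW s y (fun w => if (∀ v ∈ w, v ∈ D) ∧ tip y w = z then (1 : ℝ) else 0) =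
      K.kk D s y z := by
  induction s generalizing y with
  | zero =>
    rw [EW_zero]
    simp [kk]
  | succ s ih =>
    rw [EW_succ]
    show _ = ∑ y' ∈ D, K.P y y' * K.kk D s y' z
    rw [← Finset.sum_subset (Finset.subset_univ D)]
    · refine Finset.sum_congr rfl fun y' hy' => ?_
      rw [smul_eq_mul, ← ih y']
      congr 1
      refine K.EW_congr _ _ _ _ fun w _ => ?_
      rw [tip_append_singleton]
      have h1 : (∀ v ∈ w ++ [y'], v ∈ D) ↔ (∀ v ∈ w, v ∈ D) := by
        constructor
        · intro h v hv
          exact h v (List.mem_append_left _ hv)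
        · intro h v hv
          rcases List.mem_append.1 hv with hv | hv
          · exact h v hv
          · rw [List.mem_singleton] at hv
            rw [hv]; exact hy'
      simp only [h1]
    · intro y' _ hy'
      have h1 : K.EW s y' (fun w => if (∀ v ∈ w ++ [y'], v ∈ D) ∧ tip y (w ++ [y']) = z
          then (1 : ℝ) else 0) = K.EW s y' (fun _ => (0 : ℝ)) := by
        refine K.EW_congr _ _ _ _ fun w _ => ?_
        rw [if_neg]
        rintro ⟨h, -⟩
        exact hy' (h y' (by simp))
      rw [h1, EW_zero_fun, smul_zero]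

theorem lx_LE (C : List V) (z : V) (h : tip z C = z) : LE (C ++ [z]) = [z] := by
  cases C with
  | nil => simp [LE, stp]
  | cons c B =>
    rw [tip_cons] at h
    subst h
    obtain ⟨s, hs⟩ := LE_cons c (B ++ [c])
    obtain ⟨s', hs'⟩ := LE_concat (c :: B) c
    have hn := LE_nodup (c :: B ++ [c])
    have hs2 : LE (c :: B ++ [c]) = c :: s := hs
    cases s' with
    | nil => simpa using hs'
    | cons a s'' =>
      exfalso
      rw [hs'] at hs2
      rw [List.cons_append] at hs2
      injection hs2 with e1 e2
      rw [hs', e1, List.cons_append, e2, List.nodup_cons] at hn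
      apply hn.1
      rw [← e2]
      simp

theorem lx_take (z : V) (P Q : List V) (hP : z ∉ P) (hQ : tip z Q = z) :
    (P ++ Q).takeWhile (fun x => decide (x ≠ z)) = P := by
  rw [List.takeWhile_append_of_pos]
  · cases Q with
    | nil => simp
    | cons q Q' =>
      rw [tip_cons] at hQ
      simp [hQ]
  · intro a ha
    simp only [decide_eq_true_eq]
    rintro rfl
    exact hP ha

theorem lx_drop_tip (z : V) (w : List V) :
    tip z (w.dropWhile (fun x => decide (x ≠ z))) = z := by
  induction w with
  | nil => simp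
  | cons a w ih =>
    by_cases h : a = z
    · subst h
      simp
    · rw [List.dropWhile_cons_of_pos (by simpa using h)]
      exact ih

theorem lx_take_notMem (z : V) (w : List V) :
    z ∉ w.takeWhile (fun x => decide (x ≠ z)) := by
  intro h
  have := List.mem_takeWhile_imp h
  simp at this

theorem lx_point (D : Finset V) (z : V) (hz : z ∈ D) (m t : ℕ) (w : List V)
    (hw : w.length = t) :
    (if (∀ v ∈ w, v ∈ D) ∧ len (w ++ [z]) = m + 1 then (1 : ℝ) else 0) =
      ∑ s ∈ range (t + 1),
        (if (∀ v ∈ w.drop (t - s), v ∈ D) ∧ tip z (w.drop (t - s)) = z then (1 : ℝ) else 0) *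
        (if (∀ v ∈ w.take (t - s), v ∈ D.erase z) ∧ len (w.take (t - s) ++ [z]) = m + 1
          then (1 : ℝ) else 0) := by
  obtain ⟨A, hA⟩ : ∃ A, A = w.takeWhile (fun x => decide (x ≠ z)) := ⟨_, rfl⟩
  obtain ⟨C, hC⟩ : ∃ C, C = w.dropWhile (fun x => decide (x ≠ z)) := ⟨_, rfl⟩
  have hAC : A ++ C = w := by rw [hA, hC]; exact List.takeWhile_append_dropWhile
  have hzA : z ∉ A := by rw [hA]; exact lx_take_notMem z w
  have hzC : tip z C = z := by rw [hC]; exact lx_drop_tip z w
  have hlen : A.length + C.length = t := by rw [← hw, ← hAC, List.length_append]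
  rw [Finset.sum_eq_single C.length]
  · have h1 : t - C.length = A.length := by omega
    rw [h1]
    have h2 : w.drop A.length = C := by rw [← hAC]; simp
    have h3 : w.take A.length = A := by rw [← hAC]; simp
    rw [h2, h3]
    have h4 : LE (C ++ [z]) = [z] := lx_LE C z hzC
    have h5 : len (w ++ [z]) = len A + 1 := by
      rw [← hAC, List.append_assoc, len_append]
      · unfold len
        rw [h4]
        rfl
      · intro a ha
        rw [h4, List.mem_singleton]
        rintro rfl
        exact hzA ha
    have h6 : len (A ++ [z]) = len A + 1 := by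
      rw [len_append, lx_len_one]
      intro a ha hb
      have := LE_sub _ _ hb
      rw [List.mem_singleton] at this
      rw [this] at ha
      exact hzA ha
    rw [h5, h6]
    by_cases hl : len A + 1 = m + 1
    · by_cases hD : ∀ v ∈ w, v ∈ D
      · have hDA : ∀ v ∈ A, v ∈ D.erase z := by
          intro v hv
          rw [Finset.mem_erase]
          refine ⟨?_, hD v (by rw [← hAC]; exact List.mem_append_left _ hv)⟩
          rintro rfl
          exact hzA hv
        have hDC : ∀ v ∈ C, v ∈ D := fun v hv =>
          hD v (by rw [← hAC]; exact List.mem_append_right _ hv)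
        rw [if_pos ⟨hD, hl⟩, if_pos ⟨hDC, hzC⟩, if_pos ⟨hDA, hl⟩, one_mul]
      · rw [if_neg (fun h => hD h.1)]
        by_cases hDC : ∀ v ∈ C, v ∈ D
        · rw [if_neg (c := (∀ v ∈ A, v ∈ D.erase z) ∧ len A + 1 = m + 1), mul_zero]
          rintro ⟨h, -⟩
          apply hD
          intro v hv
          rw [← hAC] at hv
          rcases List.mem_append.1 hv with hv | hv
          · exact Finset.mem_of_mem_erase (h v hv)
          · exact hDC v hv
        · rw [if_neg (c := (∀ v ∈ C, v ∈ D) ∧ tip z C = z) (fun h => hDC h.1), zero_mul]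
    · rw [if_neg (fun h => hl h.2), if_neg (c := (∀ v ∈ A, v ∈ D.erase z) ∧ len A + 1 = m + 1)
        (fun h => hl h.2), mul_zero]
  · intro s hs hne
    rw [Finset.mem_range] at hs
    by_cases hc1 : (∀ v ∈ w.drop (t - s), v ∈ D) ∧ tip z (w.drop (t - s)) = z
    · by_cases hc2 : (∀ v ∈ w.take (t - s), v ∈ D.erase z) ∧
        len (w.take (t - s) ++ [z]) = m + 1
      · exfalso
        have hzP : z ∉ w.take (t - s) := by
          intro h
          have := hc2.1 z h
          simp at this
        have h1 := lx_take z _ _ hzP hc1.2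
        rw [List.take_append_drop, ← hA] at h1
        have h2 : A.length = t - s := by
          rw [h1, List.length_take, hw]
          omega
        omega
      · rw [if_neg hc2, mul_zero]
    · rw [if_neg hc1, zero_mul]
  · intro h
    exfalso
    apply h
    rw [Finset.mem_range]
    omega

theorem last_exit (D : Finset V) (u : V) (hu : u ∉ D) (m t : ℕ) :
    K.aD D u (m + 1) (t + 1) = ∑ z ∈ D, K.P u z *
      ∑ s ∈ range (t + 1), K.kk D s z z * K.aD (D.erase z) z m (t - s) := by
  unfold aD
  rw [EW_succ, ← Finset.sum_subset (Finset.subset_univ D)]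
  · refine Finset.sum_congr rfl fun z hz => ?_
    rw [smul_eq_mul]
    congr 1
    have e1 : K.EW t z (fun w => if (∀ v ∈ w ++ [z], v ∈ D) ∧ len (w ++ [z] ++ [u]) = m + 1 + 1
        then (1 : ℝ) else 0) = K.EW t z (fun w => ∑ s ∈ range (t + 1),
        (if (∀ v ∈ w.drop (t - s), v ∈ D) ∧ tip z (w.drop (t - s)) = z then (1 : ℝ) else 0) *
        (if (∀ v ∈ w.take (t - s), v ∈ D.erase z) ∧ len (w.take (t - s) ++ [z]) = m + 1
          then (1 : ℝ) else 0)) := by
      refine K.EW_congr _ _ _ _ fun w hw => ?_
      rw [← lx_point D z hz m t w hw]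
      by_cases hD : ∀ v ∈ w, v ∈ D
      · have hD' : ∀ v ∈ w ++ [z], v ∈ D := by
          intro v hv
          rcases List.mem_append.1 hv with hv | hv
          · exact hD v hv
          · rw [List.mem_singleton] at hv
            rw [hv]; exact hz
        have h5 : len (w ++ [z] ++ [u]) = len (w ++ [z]) + 1 := by
          rw [len_append, lx_len_one]
          intro a ha hb
          have := LE_sub _ _ hb
          rw [List.mem_singleton] at this
          rw [this] at ha
          exact hu (hD' u ha)
        rw [h5]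
        by_cases hl : len (w ++ [z]) = m + 1
        · rw [if_pos ⟨hD', by rw [hl]⟩, if_pos ⟨hD, hl⟩]
        · rw [if_neg (fun h => hl (by have := h.2; omega)), if_neg (fun h => hl h.2)]
      · rw [if_neg (fun h => hD (fun v hv => h.1 v (List.mem_append_left _ hv))),
          if_neg (fun h => hD h.1)]
    rw [e1, EW_sum]
    refine Finset.sum_congr rfl fun s hs => ?_
    rw [Finset.mem_range] at hs
    have hts : t = s + (t - s) := by omega
    have e2 : ∀ F : List V → ℝ, K.EW t z F = K.EW s z (fun w => K.EW (t - s) (tip z w)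
        (fun w' => F (w' ++ w))) := by
      intro F
      rw [← K.EW_append, ← hts]
    rw [e2, ← lx_kk K D z s z, ← K.EW_mul_right]
    refine K.EW_congr _ _ _ _ fun w hw => ?_
    have e3 : K.EW (t - s) (tip z w) (fun w' =>
        (if (∀ v ∈ (w' ++ w).drop (t - s), v ∈ D) ∧ tip z ((w' ++ w).drop (t - s)) = z
          then (1 : ℝ) else 0) *
        (if (∀ v ∈ (w' ++ w).take (t - s), v ∈ D.erase z) ∧
          len ((w' ++ w).take (t - s) ++ [z]) = m + 1 then (1 : ℝ) else 0)) =
        K.EW (t - s) (tip z w) (fun w' =>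
        (if (∀ v ∈ w, v ∈ D) ∧ tip z w = z then (1 : ℝ) else 0) *
        (if (∀ v ∈ w', v ∈ D.erase z) ∧ len (w' ++ [z]) = m + 1 then (1 : ℝ) else 0)) := by
      refine K.EW_congr _ _ _ _ fun w' hw' => ?_
      have h1 : (w' ++ w).drop (t - s) = w := by rw [← hw']; simp
      have h2 : (w' ++ w).take (t - s) = w' := by rw [← hw']; simp
      rw [h1, h2]
    rw [e3, EW_mul_left]
    by_cases hc : (∀ v ∈ w, v ∈ D) ∧ tip z w = z
    · rw [if_pos hc, hc.2]
    · rw [if_neg hc, zero_mul, zero_mul]
  · intro z _ hz
    have h1 : K.EW t z (fun w => if (∀ v ∈ w ++ [z], v ∈ D) ∧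
        len (w ++ [z] ++ [u]) = m + 1 + 1 then (1 : ℝ) else 0) =
        K.EW t z (fun _ => (0 : ℝ)) := by
      refine K.EW_congr _ _ _ _ fun w _ => ?_
      rw [if_neg]
      rintro ⟨h, -⟩
      exact hz (h z (by simp))
    rw [h1, EW_zero_fun, smul_zero]

end Ker

end HP192
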