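import Mathlib
import Pool.Agent.Helper192_HP.TDefs

namespace HP192
open Finset

variable {V : Type} [Fintype V] [DecidableEq V]

theorem it_agree {V : Type} (f g : V → V) (z : V) (h : ∀ x, x ≠ z → f x = g x) (v : V) :
    ∀ k : ℕ, (∀ i < k, f^[i] v ≠ z) → f^[k] v = g^[k] v := by
  intro k
  induction k with
  | zero => intro _; rfl
  | succ k ih =>
    intro hk
    rw [Function.iterate_succ_apply', Function.iterate_succ_apply',
      ← ih (fun i hi => hk i (Nat.lt_succ_of_lt hi))]
    exact h _ (hk k (Nat.lt_succ_self k))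

theorem upd_mem {V : Type} [Fintype V] [DecidableEq V] (G : SimpleGraph V) (D : Finset V) (z : V)
    (hz : z ∈ D) (f : V → V) (hf : f ∈ For G D) : Function.update f z z ∈ For G (D.erase z) := by
  classical
  simp only [For, mem_filter, mem_univ, true_and] at hf ⊢
  obtain ⟨h1, h2, h3⟩ := hf
  refine ⟨?_, ?_, ?_⟩
  · intro v hv
    by_cases hvz : v = z
    · subst hvz; simp
    · rw [Function.update_of_ne hvz]
      exact h1 v (fun hD => hv (mem_erase.2 ⟨hvz, hD⟩))
  · intro v hv
    obtain ⟨hvz, hD⟩ := mem_erase.1 hv
    rw [Function.update_of_ne hvz]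
    exact h2 v hD
  · intro v
    obtain ⟨k, hk⟩ := h3 v
    by_cases hex : ∃ i, i < k ∧ (Function.update f z z)^[i] v = z
    · obtain ⟨i, _, hi⟩ := hex
      exact ⟨i, by rw [hi]; simp⟩
    · push Not at hex
      have := it_agree (Function.update f z z) f z
        (fun x hx => Function.update_of_ne hx _ _) v k (fun i hi => hex i hi)
      exact ⟨k, fun hc => hk (by rw [← this]; exact mem_of_mem_erase hc)⟩

theorem upd_mem' {V : Type} [Fintype V] [DecidableEq V] (G : SimpleGraph V) (D : Finset V) (z u : V)
    (hz : z ∈ D) (hu : u ∉ D) (hadj : G.Adj u z) (g : V → V) (hg : g ∈ For G (D.erase z)) :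
    Function.update g z u ∈ For G D := by
  classical
  simp only [For, mem_filter, mem_univ, true_and] at hg ⊢
  obtain ⟨h1, h2, h3⟩ := hg
  refine ⟨?_, ?_, ?_⟩
  · intro v hv
    have hvz : v ≠ z := fun h => hv (h ▸ hz)
    rw [Function.update_of_ne hvz]
    exact h1 v (fun hD => hv (mem_of_mem_erase hD))
  · intro v hv
    by_cases hvz : v = z
    · subst hvz; rw [Function.update_self]; exact hadj.symm
    · rw [Function.update_of_ne hvz]
      exact h2 v (mem_erase.2 ⟨hvz, hv⟩)
  · intro v
    obtain ⟨k, hk⟩ := h3 v
    by_cases hex : ∃ i, i ≤ k ∧ (Function.update g z u)^[i] v = z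
    · obtain ⟨i, _, hi⟩ := hex
      refine ⟨i + 1, ?_⟩
      rw [Function.iterate_succ_apply', hi, Function.update_self]
      exact hu
    · push Not at hex
      have := it_agree (Function.update g z u) g z
        (fun x hx => Function.update_of_ne hx _ _) v k (fun i hi => hex i hi.le)
      refine ⟨k, fun hc => hk ?_⟩
      rw [← this]
      exact mem_erase.2 ⟨hex k le_rfl, hc⟩

theorem path_iff {V : Type} [Fintype V] [DecidableEq V] (D : Finset V) (z u : V)
    (hz : z ∈ D) (hu : u ∉ D) (f : V → V) (hfz : f z = u) (m : ℕ) (v : V) :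
    ((f^[m + 1] v = u ∧ ∀ i < m + 1, f^[i] v ∈ D) ∧ f^[m] v = z) ↔
      ((Function.update f z z)^[m] v = z ∧
        ∀ i < m, (Function.update f z z)^[i] v ∈ D.erase z) := by
  constructor
  · rintro ⟨⟨_, h2⟩, h3⟩
    have hne : ∀ i < m, f^[i] v ≠ z := by
      intro i hi hc
      have := h2 (i + 1) (by omega)
      rw [Function.iterate_succ_apply', hc, hfz] at this
      exact hu this
    have hag : ∀ i ≤ m, f^[i] v = (Function.update f z z)^[i] v := fun i hi =>
      it_agree f (Function.update f z z) z (fun x hx => (Function.update_of_ne hx _ _).symm) v i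
        (fun j hj => hne j (by omega))
    refine ⟨by rw [← hag m le_rfl]; exact h3, fun i hi => ?_⟩
    rw [← hag i hi.le]
    exact mem_erase.2 ⟨hne i hi, h2 i (by omega)⟩
  · rintro ⟨h1, h2⟩
    have hag : ∀ i ≤ m, (Function.update f z z)^[i] v = f^[i] v := fun i hi =>
      it_agree (Function.update f z z) f z (fun x hx => (Function.update_of_ne hx _ _)) v i
        (fun j hj => (mem_erase.1 (h2 j (by omega))).1)
    have h3 : f^[m] v = z := by rw [← hag m le_rfl]; exact h1
    refine ⟨⟨by rw [Function.iterate_succ_apply', h3, hfz], fun i hi => ?_⟩, h3⟩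
    rcases Nat.lt_succ_iff_lt_or_eq.1 hi with hi | hi
    · rw [← hag i hi.le]; exact mem_of_mem_erase (h2 i hi)
    · rw [hi, h3]; exact hz

open Classical in
/-- TARGET -/
theorem cnt_rec {V : Type} [Fintype V] [DecidableEq V] (G : SimpleGraph V) (D : Finset V) (u : V)
    (hu : u ∉ D) (m : ℕ) :
    ∑ f ∈ For G D, cnt D u (m + 1) f = ∑ z ∈ D.filter (fun z => G.Adj u z),
      ∑ f ∈ For G (D.erase z), cnt (D.erase z) z m f := by
  have step : ∀ f ∈ For G D, cnt D u (m + 1) f = ∑ z ∈ D.filter (fun z => G.Adj u z),
      if f z = u then cnt (D.erase z) z m (Function.update f z z) else 0 := by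
    intro f hf
    have hf' := hf
    simp only [For, mem_filter, mem_univ, true_and] at hf'
    obtain ⟨h1, h2, h3⟩ := hf'
    unfold cnt
    rw [Finset.card_eq_sum_card_fiberwise (f := fun v => f^[m] v)
      (t := D.filter (fun z => G.Adj u z))]
    · refine Finset.sum_congr rfl fun z hz => ?_
      obtain ⟨hzD, hza⟩ := mem_filter.1 hz
      by_cases hfz : f z = u
      · rw [if_pos hfz, Finset.filter_filter]
        congr 1
        ext v
        simp only [mem_filter, mem_univ, true_and]
        exact path_iff D z u hzD hu f hfz m v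
      · rw [if_neg hfz, Finset.card_eq_zero, Finset.filter_eq_empty_iff]
        intro v hv hvz
        simp only [mem_filter, mem_univ, true_and] at hv
        apply hfz
        rw [← hvz, ← Function.iterate_succ_apply' f m v]
        exact hv.1
    · intro v hv
      simp only [coe_filter, mem_univ, true_and, Set.mem_setOf_eq] at hv ⊢
      have hD : f^[m] v ∈ D := hv.2 m (Nat.lt_succ_self m)
      refine ⟨hD, ?_⟩
      have := h2 _ hD
      rw [← Function.iterate_succ_apply' f m v, hv.1] at this
      exact this.symm
  rw [Finset.sum_congr rfl step, Finset.sum_comm]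
  refine Finset.sum_congr rfl fun z hz => ?_
  obtain ⟨hzD, hza⟩ := mem_filter.1 hz
  rw [← Finset.sum_filter]
  refine Finset.sum_nbij' (fun f => Function.update f z z) (fun g => Function.update g z u)
    ?_ ?_ ?_ ?_ ?_
  · intro f hf
    exact upd_mem G D z hzD f (mem_filter.1 hf).1
  · intro g hg
    refine mem_filter.2 ⟨upd_mem' G D z u hzD hu hza g hg, by simp⟩
  · intro f hf
    have := (mem_filter.1 hf).2
    simp only [Function.update_idem]
    rw [← this, Function.update_eq_self]
  · intro g hg
    have hg' := hg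
    simp only [For, mem_filter, mem_univ, true_and] at hg'
    have := hg'.1 z (by simp)
    funext x
    by_cases hx : x = z
    · subst hx; simp [this]
    · simp [Function.update_of_ne hx]
  · intro f hf
    rfl

end HP192
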