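import Mathlib
import Pool.Agent.Helper192_HP.Defs
import Pool.Agent.Helper192_HP.WDefs
import Pool.Agent.Helper192_HP.Basic
import Pool.Agent.Helper192_HP.W01
import Pool.Agent.Helper192_HP.TDefs
import Pool.Agent.Helper192_HP.T02
import Pool.Agent.Helper192_HP.AbDef
import Pool.Agent.Helper192_HP.KkDef
import Pool.Agent.Helper192_HP.X01
import Pool.Agent.Helper192_HP.X02
import Pool.Agent.Helper192_HP.X03
import Pool.Agent.Helper192_HP.X04

namespace HP192
open Finset

section TLinkAux

theorem TLink_ne_univ {V : Type} [Fintype V] {D : Finset V} {u : V} (hu : u ∉ D) : D ≠ univ := by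
  rintro rfl
  exact hu (mem_univ u)

theorem TLink_card_pos {V : Type} [Fintype V] [DecidableEq V] (G : SimpleGraph V)
    (hG : G.Connected) (D : Finset V) (hD : D ≠ univ) : 0 < ((For G D).card : ℝ) := by
  have := Finset.card_pos.mpr (For_nonempty G hG D hD)
  exact_mod_cast this

open Classical in
/-- the Green function on the diagonal -/
theorem TLink_green {V : Type} [Fintype V] [DecidableEq V] (K : Ker V) (G : SimpleGraph V)
    (hG : G.Connected) (d : ℕ) (hd0 : 0 < d)
    (hd : ∀ v, (univ.filter (fun w => G.Adj v w)).card = d)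
    (hP : ∀ x y, x ≠ y → K.P x y = if G.Adj x y then 1 / (2 * (d : ℝ)) else 0)
    (D : Finset V) (hD : D ≠ univ) (z : V) (hz : z ∈ D) :
    HasSum (fun t => K.kk D t z z)
      (2 * (d : ℝ) * ((For G (D.erase z)).card : ℝ) / ((For G D).card : ℝ)) := by
  have htau := TLink_card_pos G hG D hD
  have hdr : (0 : ℝ) < (d : ℝ) := by exact_mod_cast hd0
  set F : V → V → ℕ := fun y z => ((For G (D.erase z)).filter (fun f => ∃ k, f^[k] y = z)).card
    with hF
  have h1 := K.kk_hasSum D (fun y z => 2 * (d : ℝ) * (F y z : ℝ) / ((For G D).card : ℝ))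
    (fun y _ z _ => by positivity) ?_ z z hz hz
  · have h2 : F z z = (For G (D.erase z)).card := by
      simp only [hF]
      congr 1
      apply Finset.filter_true_of_mem
      intro f _
      exact ⟨0, rfl⟩
    simp only [h2] at h1
    exact h1
  · intro y hy z hz
    have hgc := green_comb G d hd D hD z y hz hy
    have hgc' : (d : ℝ) * (F y z : ℝ) = ∑ y' ∈ D.filter (fun y' => G.Adj y y'), (F y' z : ℝ) +
        (if y = z then ((For G D).card : ℝ) else 0) := by
      have h3 : ((d * F y z : ℕ) : ℝ) = ((∑ y' ∈ D.filter (fun y' => G.Adj y y'), F y' z +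
        (if y = z then (For G D).card else 0) : ℕ) : ℝ) := by
        exact_mod_cast hgc
      rw [Nat.cast_mul, Nat.cast_add, Nat.cast_sum] at h3
      rw [h3]
      congr 1
      split_ifs <;> simp
    have hsum : ∑ y' ∈ D, K.P y y' * (2 * (d : ℝ) * (F y' z : ℝ) / ((For G D).card : ℝ)) =
        1 / 2 * (2 * (d : ℝ) * (F y z : ℝ) / ((For G D).card : ℝ)) +
        ∑ y' ∈ D.filter (fun y' => G.Adj y y'), (F y' z : ℝ) / ((For G D).card : ℝ) := by
      rw [← Finset.add_sum_erase D _ hy, K.hold]
      congr 1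
      rw [Finset.sum_filter, ← Finset.add_sum_erase D _ hy]
      rw [if_neg (G.loopless.irrefl y), zero_add]
      refine Finset.sum_congr rfl fun y' hy' => ?_
      rw [hP y y' (Finset.ne_of_mem_erase hy').symm]
      split_ifs
      · field_simp
      · rw [zero_mul]
    rw [hsum, ← Finset.sum_div]
    have h5 : ∑ y' ∈ D.filter (fun y' => G.Adj y y'), (F y' z : ℝ) = (d : ℝ) * (F y z : ℝ) -
        (if y = z then ((For G D).card : ℝ) else 0) := by
      rw [hgc']; ring
    rw [h5]
    have key : ∀ a τ e : ℝ, 0 < τ → 2 * e * a / τ = 1 / 2 * (2 * e * a / τ) + (e * a - τ) / τ + 1 := by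
      intro a τ e hτ
      field_simp
      ring
    have key' : ∀ a τ e : ℝ, 0 < τ → 2 * e * a / τ = 1 / 2 * (2 * e * a / τ) + (e * a - 0) / τ + 0 := by
      intro a τ e hτ
      field_simp
      ring
    by_cases hyz : y = z
    · rw [if_pos hyz, if_pos hyz]
      exact key _ _ _ htau
    · rw [if_neg hyz, if_neg hyz]
      exact key' _ _ _ htau

theorem TLink_len_single {V : Type} [DecidableEq V] (u : V) : len [u] = 1 := by
  simp [len, LE, stp]

theorem TLink_len_two {V : Type} [DecidableEq V] (D : Finset V) (u : V) (hu : u ∉ D) (v : V)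
    (w : List V) (hv : v ∈ D) : len ((v :: w) ++ [u]) ≠ 1 := by
  intro h
  obtain ⟨s, hs⟩ := LE_cons v (w ++ [u])
  obtain ⟨s', hs'⟩ := LE_concat (v :: w) u
  rw [len, hs', List.length_append] at h
  have h1 : s' = [] := by
    rw [← List.length_eq_zero_iff]
    simpa using h
  rw [h1, List.nil_append] at hs'
  rw [List.cons_append, hs] at hs'
  have h2 : v = u := by
    have := congrArg List.head? hs'
    simpa using this
  exact hu (h2 ▸ hv)

theorem TLink_aD_zero {V : Type} [Fintype V] [DecidableEq V] (K : Ker V) (D : Finset V) (u : V)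
    (hu : u ∉ D) : HasSum (fun t => K.aD D u 0 t) 1 := by
  have h1 : K.aD D u 0 0 = 1 := by
    rw [Ker.aD, K.EW_zero, if_pos]
    refine ⟨by simp, ?_⟩
    rw [List.nil_append, TLink_len_single]
  rw [← h1]
  apply hasSum_single
  intro t ht
  rw [Ker.aD]
  rw [K.EW_congr t u _ (fun _ => (0 : ℝ)), K.EW_zero_fun]
  intro w hw
  rw [if_neg]
  rintro ⟨hwD, hlen⟩
  cases w with
  | nil => exact ht (by simpa using hw.symm)
  | cons v w => exact TLink_len_two D u hu v w (hwD v (by simp)) (by simpa using hlen)

theorem TLink_Am_zero {V : Type} [Fintype V] [DecidableEq V] (G : SimpleGraph V)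
    (hG : G.Connected) (D : Finset V) (u : V) (hu : u ∉ D) : Am G D u 0 = 1 := by
  have hpos := TLink_card_pos G hG D (TLink_ne_univ hu)
  rw [Am, avF]
  have h1 : ∀ f : V → V, cnt D u 0 f = 1 := by
    intro f
    rw [cnt, Finset.card_eq_one]
    refine ⟨u, ?_⟩
    ext v
    simp
  simp only [h1, Nat.cast_one, Finset.sum_const, nsmul_eq_mul, mul_one]
  exact div_self hpos.ne'

end TLinkAux

open Classical in
/-- TARGET -/
theorem TLink {V : Type} [Fintype V] [DecidableEq V] (K : Ker V) (G : SimpleGraph V)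
    (hG : G.Connected) (d : ℕ) (hd0 : 0 < d)
    (hd : ∀ v, (univ.filter (fun w => G.Adj v w)).card = d)
    (hP : ∀ x y, x ≠ y → K.P x y = if G.Adj x y then 1 / (2 * (d : ℝ)) else 0)
    (D : Finset V) (u : V) (hu : u ∉ D) (m : ℕ) :
    HasSum (fun t => K.aD D u m t) (Am G D u m) := by
  have hdr : (0 : ℝ) < (d : ℝ) := by exact_mod_cast hd0
  induction m generalizing D u with
  | zero =>
    rw [TLink_Am_zero G hG D u hu]
    exact TLink_aD_zero K D u hu
  | succ m ih =>
    have hDu : D ≠ univ := TLink_ne_univ hu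
    have htau := TLink_card_pos G hG D hDu
    have h0 : K.aD D u (m + 1) 0 = 0 := by
      rw [Ker.aD, K.EW_zero, if_neg]
      rintro ⟨-, h⟩
      rw [List.nil_append, TLink_len_single] at h
      omega
    rw [← hasSum_nat_add_iff' 1, Finset.sum_range_one, h0, sub_zero]
    have hz : ∀ z ∈ D, HasSum (fun t => K.P u z *
        ∑ s ∈ range (t + 1), K.kk D s z z * K.aD (D.erase z) z m (t - s))
        (K.P u z * ((2 * (d : ℝ) * ((For G (D.erase z)).card : ℝ) / ((For G D).card : ℝ)) *
          Am G (D.erase z) z m)) := by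
      intro z hz
      apply HasSum.mul_left
      have h1 := TLink_green K G hG d hd0 hd hP D hDu z hz
      have h2 := ih (D.erase z) z (Finset.notMem_erase z D)
      have h3 := hasSum_sum_range_mul_of_summable_norm h1.summable.norm h2.summable.norm
      rw [h1.tsum_eq, h2.tsum_eq] at h3
      exact h3
    have hall := hasSum_sum hz
    have hfun : (fun t => ∑ z ∈ D, K.P u z *
        ∑ s ∈ range (t + 1), K.kk D s z z * K.aD (D.erase z) z m (t - s)) =
        fun t => K.aD D u (m + 1) (t + 1) := by
      funext t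
      exact (K.last_exit D u hu m t).symm
    rw [hfun] at hall
    have hAm : Am G D u (m + 1) = ∑ z ∈ D.filter (fun z => G.Adj u z),
        (∑ f ∈ For G (D.erase z), (cnt (D.erase z) z m f : ℝ)) / ((For G D).card : ℝ) := by
      rw [Am, avF, ← Finset.sum_div]
      congr 1
      exact_mod_cast cnt_rec G D u hu m
    have hval : Am G D u (m + 1) = ∑ z ∈ D, K.P u z *
        ((2 * (d : ℝ) * ((For G (D.erase z)).card : ℝ) / ((For G D).card : ℝ)) *
          Am G (D.erase z) z m) := ?_
    · rw [hval]
      exact hall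
    rw [hAm, Finset.sum_filter]
    refine Finset.sum_congr rfl fun z hz => ?_
    have hzu : u ≠ z := fun h => hu (h ▸ hz)
    rw [hP u z hzu]
    have htz := TLink_card_pos G hG (D.erase z) (TLink_ne_univ (Finset.notMem_erase z D))
    split_ifs
    · rw [Am, avF]
      field_simp
    · rw [zero_mul]

open Classical in
theorem TLinkB {V : Type} [Fintype V] [DecidableEq V] (K : Ker V) (G : SimpleGraph V)
    (hG : G.Connected) (d : ℕ) (hd0 : 0 < d)
    (hd : ∀ v, (univ.filter (fun w => G.Adj v w)).card = d)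
    (hP : ∀ x y, x ≠ y → K.P x y = if G.Adj x y then 1 / (2 * (d : ℝ)) else 0)
    (D : Finset V) (u : V) (hu : u ∉ D) :
    HasSum (fun t => K.bD D u t) (Bm G D u) := by
  have h1 : (fun t => K.bD D u t) = fun t => ∑ m ∈ range (Fintype.card V), K.aD D u m t := by
    funext t
    simp only [Ker.aD, Ker.bD]
    rw [← K.EW_sum]
    apply K.EW_congr
    intro w _
    have hpos : 0 < len (w ++ [u]) := len_pos _ (by simp)
    have hle : len (w ++ [u]) ≤ Fintype.card V := (LE_nodup (w ++ [u])).length_le_card
    by_cases hw : ∀ v ∈ w, v ∈ D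
    · rw [if_pos hw, Finset.sum_eq_single (len (w ++ [u]) - 1)]
      · rw [if_pos ⟨hw, by omega⟩]
      · intro b _ hb
        rw [if_neg]
        rintro ⟨-, h⟩
        omega
      · intro h
        exact absurd (Finset.mem_range.mpr (by omega)) h
    · rw [if_neg hw, Finset.sum_eq_zero]
      intro m _
      rw [if_neg]
      rintro ⟨h, -⟩
      exact hw h
  rw [h1, Bm]
  exact hasSum_sum fun m _ => TLink K G hG d hd0 hd hP D u hu m

end HP192
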