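import Mathlib
import Pool.Agent.Helper192_HP.Defs
import Pool.Agent.Helper192_HP.WDefs
import Pool.Agent.Helper192_HP.Basic
import Pool.Agent.Helper192_HP.W01
import Pool.Agent.Helper192_HP.W02
import Pool.Agent.Helper192_HP.TDefs
import Pool.Agent.Helper192_HP.AbDef
import Pool.Agent.Helper192_HP.X05
import Pool.Agent.Helper192_HP.W04
import Pool.Agent.Helper192_HP.W06
import Pool.Agent.Helper192_HP.W17
import Pool.Agent.Helper192_HP.W14
import Pool.Agent.Helper192_HP.W24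
import Pool.Agent.Helper192_HP.W25
import Pool.Agent.Helper192_HP.W26

namespace HP192
open Finset

/-! helper lemmas -/

namespace Ker
variable {V : Type} [Fintype V] [DecidableEq V] (K : Ker V)

theorem x07_aD_nonneg (D : Finset V) (u : V) (m t : ℕ) : 0 ≤ K.aD D u m t := by
  unfold aD
  exact K.EW_nonneg _ _ _ (fun w _ => by split_ifs <;> norm_num)

theorem x07_bD_nonneg (D : Finset V) (u : V) (t : ℕ) : 0 ≤ K.bD D u t := by
  unfold bD
  exact K.EW_nonneg _ _ _ (fun w _ => by split_ifs <;> norm_num)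

/-- the bound of W2 with the total mass -/
theorem x07_W2 (o : V) (D : Finset V) (u : V) (m m1 T m0 Nn : ℕ) (Θ κ B : ℝ)
    (h2 : ∀ x y, K.hk m0 x y ≤ κ) (hm : m0 ≤ T) (hT : 1 ≤ T) (hΘ : K.Th o (3 * T) ≤ Θ)
    (hB : ∑ t ∈ range Nn, K.bD D u t ≤ B) (hmm : m ≤ m1) :
    ∑ t ∈ Ico T Nn, K.aD D u m t
      ≤ 2 * Θ ^ 2 * ((m1 : ℝ) + 1) / T * (Θ + Θ * (Θ + κ * ((m1 : ℝ) + 1) * ((T : ℝ) + 1))
          * (1 + B / T))
        + Θ * κ * ((m1 : ℝ) + 1) * (2 * (T : ℝ) + 1) * (B / T) := by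
  have hκ : 0 ≤ κ := (K.hk_nonneg m0 o o).trans (h2 o o)
  have hΘ1 : 1 ≤ Θ := (K.one_le_Th o (3 * T)).trans hΘ
  have hΘ0 : 0 ≤ Θ := zero_le_one.trans hΘ1
  have hB0 : 0 ≤ B := (Finset.sum_nonneg fun t _ => K.x07_bD_nonneg D u t).trans hB
  have hb0 : 0 ≤ ∑ t ∈ range Nn, K.bD D u t := Finset.sum_nonneg fun t _ => K.x07_bD_nonneg D u t
  have hm' : (m : ℝ) ≤ m1 := by exact_mod_cast hmm
  refine (K.W2 o D u m T m0 Nn Θ κ h2 hm hT hΘ).trans ?_
  gcongr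

theorem x07_first (o : V) (D : Finset V) (u : V) (m T : ℕ) (Θ : ℝ) (hΘ : K.Th o T ≤ Θ) :
    ∑ t ∈ range T, K.aD D u m t ≤ Θ := by
  have h1 : ∑ t ∈ range T, K.aD D u m t ≤
      ∑ t ∈ range (T + 1), K.EW t u (fun w => if len (w ++ [u]) = m + 1 then (1 : ℝ) else 0) := by
    refine (Finset.sum_le_sum (fun t _ => ?_)).trans
      (Finset.sum_le_sum_of_subset_of_nonneg (Finset.range_subset_range.2 (Nat.le_succ T)) fun t _ _ =>
        K.EW_nonneg _ _ _ (fun w _ => by split_ifs <;> norm_num))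
    unfold aD
    refine K.EW_mono _ _ _ _ (fun w _ => ?_)
    by_cases h : len (w ++ [u]) = m + 1
    · rw [if_pos h]
      split_ifs <;> norm_num
    · rw [if_neg h, if_neg (fun h' => h h'.2)]
  refine h1.trans ((K.P1 u T (m + 1)).trans ?_)
  rw [K.Th_inv u o T]
  exact hΘ

theorem x07_aD_small (D : Finset V) (u : V) (m t : ℕ) (h : t < m) : K.aD D u m t = 0 := by
  unfold aD
  rw [K.EW_congr t u _ (fun _ => (0 : ℝ)) (fun w hw => ?_), K.EW_zero_fun]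
  refine if_neg (fun h' => ?_)
  have h1 := len_le_length (w ++ [u])
  rw [List.length_append, hw, List.length_singleton] at h1
  omega

open Classical in
/-- splitting the walk at time `r0` -/
theorem x07_split (o : V) (D : Finset V) (u : V) (m T r0 : ℕ) :
    ∑ t ∈ range T, K.aD D u m (r0 + t) =
      K.EW r0 u (fun w0 => (if ∀ v ∈ w0, v ∈ D then (1 : ℝ) else 0) * K.fM o T (m + 1) (w0 ++ [u])) -
      K.EW r0 u (fun w0 => (if ∀ v ∈ w0, v ∈ D then (1 : ℝ) else 0) *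
        ∑ t ∈ range T, K.EW t (tip u w0) (fun w =>
          if ¬ (∀ v ∈ w, v ∈ D) ∧ len (w ++ (w0 ++ [u])) = m + 1 then (1 : ℝ) else 0)) := by
  rw [← K.EW_sub]
  have h1 : ∀ t ∈ range T, K.aD D u m (r0 + t) = K.EW r0 u (fun w0 => (if ∀ v ∈ w0, v ∈ D then (1 : ℝ) else 0) *
      (K.EW t (tip u w0) (fun w => if len (w ++ (w0 ++ [u])) = m + 1 then (1 : ℝ) else 0) -
        K.EW t (tip u w0) (fun w =>
          if ¬ (∀ v ∈ w, v ∈ D) ∧ len (w ++ (w0 ++ [u])) = m + 1 then (1 : ℝ) else 0))) := by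
    intro t _
    unfold aD
    rw [K.EW_append]
    refine K.EW_congr _ _ _ _ (fun w0 _ => ?_)
    rw [← K.EW_sub, ← K.EW_mul_left]
    refine K.EW_congr _ _ _ _ (fun w _ => ?_)
    rw [List.append_assoc]
    by_cases hl : len (w ++ (w0 ++ [u])) = m + 1
    · by_cases h0 : ∀ v ∈ w0, v ∈ D
      · by_cases hw : ∀ v ∈ w, v ∈ D
        · have hww : ∀ v ∈ w ++ w0, v ∈ D := by
            intro v hv
            rcases List.mem_append.1 hv with h | h
            · exact hw v h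
            · exact h0 v h
          rw [if_pos ⟨hww, hl⟩, if_pos h0, if_pos hl, if_neg (fun h => h.1 hw)]
          ring
        · have hww : ¬ ∀ v ∈ w ++ w0, v ∈ D := fun h => hw fun v hv => h v (List.mem_append.2 (Or.inl hv))
          rw [if_neg (fun h => hww h.1), if_pos h0, if_pos hl, if_pos ⟨hw, hl⟩]
          ring
      · have hww : ¬ ∀ v ∈ w ++ w0, v ∈ D := fun h => h0 fun v hv => h v (List.mem_append.2 (Or.inr hv))
        have hn : ¬ ((∀ v ∈ w ++ w0, v ∈ D) ∧ len (w ++ (w0 ++ [u])) = m + 1) := fun h => hww h.1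
        rw [if_neg hn, if_neg h0, zero_mul]
    · have hn : ¬ (¬ (∀ v ∈ w, v ∈ D) ∧ len (w ++ (w0 ++ [u])) = m + 1) := fun h => hl h.2
      rw [if_neg (fun h => hl h.2), if_neg hl, if_neg hn]
      ring
  rw [Finset.sum_congr rfl h1, ← K.EW_sum]
  refine K.EW_congr _ _ _ _ (fun w0 _ => ?_)
  rw [← mul_sub, ← Finset.mul_sum, Finset.sum_sub_distrib]
  congr 2
  unfold fM
  rw [tip_append_singleton]

theorem x07_inv (F : List V → ℝ)
    (hF : ∀ g : Equiv.Perm V, (∀ a b, K.P (g a) (g b) = K.P a b) → ∀ L : List V, F (L.map g) = F L)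
    (r0 : ℕ) (o u : V) : K.EW (r0 + 1) o F = K.EW r0 u (fun w => F (w ++ [u])) := by
  rw [K.EW_succ]
  have h1 : ∀ y ∈ (univ : Finset V), K.P o y • K.EW r0 y (fun w => F (w ++ [y])) =
      K.P o y * K.EW r0 u (fun w => F (w ++ [u])) := by
    intro y _
    rw [K.EW_inv F hF r0 y u, smul_eq_mul]
  rw [Finset.sum_congr rfl h1, ← Finset.sum_mul, K.row, one_mul]

end Ker

-- TARGET
namespace Ker
variable {V : Type} [Fintype V] [DecidableEq V] (K : Ker V)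

open Classical in
theorem Am_le_W1 (G : SimpleGraph V) (hG : G.Connected) (d : ℕ) (hd0 : 0 < d)
    (hd : ∀ v, (univ.filter (fun w => G.Adj v w)).card = d)
    (hP : ∀ x y, x ≠ y → K.P x y = if G.Adj x y then 1 / (2 * (d : ℝ)) else 0)
    (o : V) (D : Finset V) (u : V) (hu : u ∉ D) (m T m0 : ℕ) (Θ κ : ℝ)
    (h2 : ∀ x y, K.hk m0 x y ≤ κ) (hm : m0 ≤ T) (hT : 1 ≤ T) (hΘ : K.Th o (2 * T) ≤ Θ) :
    Am G D u m ≤ Θ + Θ * (Θ + κ * ((m : ℝ) + 1) * ((T : ℝ) + 1)) * (1 + Bm G D u / T) := by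
  have H := TLink K G hG d hd0 hd hP D u hu m
  have HB := TLinkB K G hG d hd0 hd hP D u hu
  have hκ : 0 ≤ κ := (K.hk_nonneg m0 o o).trans (h2 o o)
  have hΘ1 : 1 ≤ Θ := (K.one_le_Th o (2 * T)).trans hΘ
  have hΘ0 : 0 ≤ Θ := zero_le_one.trans hΘ1
  refine le_of_tendsto H.tendsto_sum_nat (Filter.Eventually.of_forall fun Nn => ?_)
  refine (K.W1 o D u m T m0 Nn Θ κ h2 hm hT hΘ).trans ?_
  have hb : ∑ t ∈ range Nn, K.bD D u t ≤ Bm G D u := sum_le_hasSum _ (fun t _ => K.x07_bD_nonneg D u t) HB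
  gcongr

open Classical in
theorem Am_le_W2 (G : SimpleGraph V) (hG : G.Connected) (d : ℕ) (hd0 : 0 < d)
    (hd : ∀ v, (univ.filter (fun w => G.Adj v w)).card = d)
    (hP : ∀ x y, x ≠ y → K.P x y = if G.Adj x y then 1 / (2 * (d : ℝ)) else 0)
    (o : V) (D : Finset V) (u : V) (hu : u ∉ D) (m T m0 : ℕ) (Θ κ : ℝ)
    (h2 : ∀ x y, K.hk m0 x y ≤ κ) (hm : m0 ≤ T) (hT : 1 ≤ T) (hΘ : K.Th o (3 * T) ≤ Θ) :
    Am G D u m ≤ Θ + (2 * Θ ^ 2 * ((m : ℝ) + 1) / T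
        * (Θ + Θ * (Θ + κ * ((m : ℝ) + 1) * ((T : ℝ) + 1)) * (1 + Bm G D u / T))
      + Θ * κ * ((m : ℝ) + 1) * (2 * (T : ℝ) + 1) * (Bm G D u / T)) := by
  have H := TLink K G hG d hd0 hd hP D u hu m
  have HB := TLinkB K G hG d hd0 hd hP D u hu
  refine le_of_tendsto H.tendsto_sum_nat ?_
  filter_upwards [Filter.eventually_ge_atTop T] with Nn hN
  have hb : ∑ t ∈ range Nn, K.bD D u t ≤ Bm G D u := sum_le_hasSum _ (fun t _ => K.x07_bD_nonneg D u t) HB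
  have h3 := K.x07_W2 o D u m m T m0 Nn Θ κ _ h2 hm hT hΘ hb le_rfl
  have h4 := K.x07_first o D u m T Θ ((K.Th_mono o T (3 * T) (by omega)).trans hΘ)
  rw [← Finset.sum_range_add_sum_Ico _ hN]
  exact add_le_add h4 h3

open Classical in
theorem Am_diff (G : SimpleGraph V) (hG : G.Connected) (d : ℕ) (hd0 : 0 < d)
    (hd : ∀ v, (univ.filter (fun w => G.Adj v w)).card = d)
    (hP : ∀ x y, x ≠ y → K.P x y = if G.Adj x y then 1 / (2 * (d : ℝ)) else 0)
    (o : V) (D : Finset V) (u : V) (hu : u ∉ D) (M s w m1 T r1 m0 : ℕ) (Θ κ : ℝ)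
    (h2 : ∀ x y, K.hk m0 x y ≤ κ) (hm : m0 ≤ T) (hT : 1 ≤ T) (hw : 1 ≤ w)
    (hr1 : 2 * m0 + 1 ≤ r1) (hM : r1 ≤ M) (hm1 : M + s + w ≤ m1)
    (hΘ : K.Th o (r1 + 3 * T) ≤ Θ) :
    |(1 / (w : ℝ)) * ∑ i ∈ range w, (Am G D u (M + i) - Am G D u (M + s + i))|
      ≤ K.EW r1 o (fun ω => |(1 / (w : ℝ)) * ∑ i ∈ range w,
            (K.fM o T (M + 1 + i) ω - K.fM o T (M + 1 + s + i) ω)|)
        + 3 * Θ ^ 2 * κ * ((Dᶜ).card : ℝ) * T
        + (2 * Θ ^ 2 * ((m1 : ℝ) + 1) / T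
            * (Θ + Θ * (Θ + κ * ((m1 : ℝ) + 1) * ((T : ℝ) + 1)) * (1 + Bm G D u / T))
          + Θ * κ * ((m1 : ℝ) + 1) * (2 * (T : ℝ) + 1) * (Bm G D u / T)) := by
  obtain ⟨r0, rfl⟩ : ∃ r0, r1 = r0 + 1 := ⟨r1 - 1, by omega⟩
  have HB := TLinkB K G hG d hd0 hd hP D u hu
  have hκ : 0 ≤ κ := (K.hk_nonneg m0 o o).trans (h2 o o)
  have hΘ3 : K.Th o (3 * T) ≤ Θ := (K.Th_mono o _ _ (by omega)).trans hΘ
  have hΘr : K.Th o (r0 + 2 * T) ≤ Θ := (K.Th_mono o _ _ (by omega)).trans hΘ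
  have hw0 : (0 : ℝ) < w := by exact_mod_cast hw
  set cJ : ℝ := 3 * Θ ^ 2 * κ * ((Dᶜ).card : ℝ) * T with hcJ
  set cR : ℝ := 2 * Θ ^ 2 * ((m1 : ℝ) + 1) / T
            * (Θ + Θ * (Θ + κ * ((m1 : ℝ) + 1) * ((T : ℝ) + 1)) * (1 + Bm G D u / T))
          + Θ * κ * ((m1 : ℝ) + 1) * (2 * (T : ℝ) + 1) * (Bm G D u / T) with hcR
  -- the three parts
  let XX : ℕ → ℝ := fun m => K.EW r0 u (fun w0 => (if ∀ v ∈ w0, v ∈ D then (1 : ℝ) else 0) *
    K.fM o T (m + 1) (w0 ++ [u]))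
  let JJ : ℕ → ℝ := fun m => K.EW r0 u (fun w0 => (if ∀ v ∈ w0, v ∈ D then (1 : ℝ) else 0) *
        ∑ t ∈ range T, K.EW t (tip u w0) (fun w =>
          if ¬ (∀ v ∈ w, v ∈ D) ∧ len (w ++ (w0 ++ [u])) = m + 1 then (1 : ℝ) else 0))
  let RR : ℕ → ℝ := fun m => Am G D u m - ∑ t ∈ range (r0 + T), K.aD D u m t
  have hA : ∀ m, r0 < m → Am G D u m = XX m - JJ m + RR m := by
    intro m hmr
    have h3 : ∑ t ∈ range (r0 + T), K.aD D u m t = XX m - JJ m := by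
      rw [Finset.sum_range_add, Finset.sum_eq_zero (fun t ht => K.x07_aD_small D u m t
        ((Finset.mem_range.1 ht).trans hmr)), zero_add]
      exact K.x07_split o D u m T r0
    show Am G D u m = XX m - JJ m + (Am G D u m - ∑ t ∈ range (r0 + T), K.aD D u m t)
    rw [h3]
    ring
  have hR : ∀ m, m ≤ m1 → 0 ≤ RR m ∧ RR m ≤ cR := by
    intro m hmm
    have H := TLink K G hG d hd0 hd hP D u hu m
    refine ⟨sub_nonneg.2 (sum_le_hasSum _ (fun t _ => K.x07_aD_nonneg D u m t) H), ?_⟩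
    have h3 : Am G D u m ≤ cR + ∑ t ∈ range (r0 + T), K.aD D u m t := by
      refine le_of_tendsto H.tendsto_sum_nat ?_
      filter_upwards [Filter.eventually_ge_atTop (r0 + T)] with Nn hN
      have hb : ∑ t ∈ range Nn, K.bD D u t ≤ Bm G D u :=
        sum_le_hasSum _ (fun t _ => K.x07_bD_nonneg D u t) HB
      have h4 := K.x07_W2 o D u m m1 T m0 Nn Θ κ _ h2 hm hT hΘ3 hb hmm
      have h5 : ∑ t ∈ Ico (r0 + T) Nn, K.aD D u m t ≤ ∑ t ∈ Ico T Nn, K.aD D u m t :=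
        Finset.sum_le_sum_of_subset_of_nonneg (Finset.Ico_subset_Ico (by omega) le_rfl)
          (fun t _ _ => K.x07_aD_nonneg D u m t)
      rw [← Finset.sum_range_add_sum_Ico _ hN]
      linarith
    show Am G D u m - ∑ t ∈ range (r0 + T), K.aD D u m t ≤ cR
    linarith
  have hJ : ∀ m, 0 ≤ JJ m ∧ JJ m ≤ cJ := by
    intro m
    have hin : ∀ w0 : List V, 0 ≤ ∑ t ∈ range T, K.EW t (tip u w0) (fun w =>
          if ¬ (∀ v ∈ w, v ∈ D) ∧ len (w ++ (w0 ++ [u])) = m + 1 then (1 : ℝ) else 0) := fun w0 =>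
      Finset.sum_nonneg fun t _ => K.EW_nonneg _ _ _ (fun w _ => by split_ifs <;> norm_num)
    constructor
    · refine K.EW_nonneg _ _ _ (fun w0 _ => mul_nonneg ?_ (hin w0))
      split_ifs <;> norm_num
    · refine le_trans (K.EW_mono _ _ _ _ (fun w0 _ => ?_))
        (K.later_hits o D u (m + 1) T r0 m0 Θ κ h2 (by omega) hΘr)
      by_cases h0 : ∀ v ∈ w0, v ∈ D
      · rw [if_pos h0, one_mul]
      · rw [if_neg h0, zero_mul]
        exact hin w0
  have hinv : K.EW (r0 + 1) o (fun ω => |(1 / (w : ℝ)) * ∑ i ∈ range w,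
            (K.fM o T (M + 1 + i) ω - K.fM o T (M + 1 + s + i) ω)|) =
      K.EW r0 u (fun w0 => |(1 / (w : ℝ)) * ∑ i ∈ range w,
            (K.fM o T (M + 1 + i) (w0 ++ [u]) - K.fM o T (M + 1 + s + i) (w0 ++ [u]))|) := by
    refine K.x07_inv (fun ω => |(1 / (w : ℝ)) * ∑ i ∈ range w,
            (K.fM o T (M + 1 + i) ω - K.fM o T (M + 1 + s + i) ω)|) ?_ r0 o u
    intro g hg L
    by_cases hL : L = []
    · rw [hL, List.map_nil]
    · have h3 : ∀ M', K.fM o T M' (L.map g) = K.fM o T M' L := fun M' => K.fM_inv o T M' g hg L hL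
      simp only [h3]
  have hX : |(1 / (w : ℝ)) * ∑ i ∈ range w, (XX (M + i) - XX (M + s + i))| ≤
      K.EW (r0 + 1) o (fun ω => |(1 / (w : ℝ)) * ∑ i ∈ range w,
            (K.fM o T (M + 1 + i) ω - K.fM o T (M + 1 + s + i) ω)|) := by
    rw [hinv]
    have h3 : (1 / (w : ℝ)) * ∑ i ∈ range w, (XX (M + i) - XX (M + s + i)) =
        K.EW r0 u (fun w0 => (if ∀ v ∈ w0, v ∈ D then (1 : ℝ) else 0) * ((1 / (w : ℝ)) * ∑ i ∈ range w,
            (K.fM o T (M + 1 + i) (w0 ++ [u]) - K.fM o T (M + 1 + s + i) (w0 ++ [u])))) := by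
      have h4 : ∀ i ∈ range w, XX (M + i) - XX (M + s + i) =
          K.EW r0 u (fun w0 => (if ∀ v ∈ w0, v ∈ D then (1 : ℝ) else 0) *
            (K.fM o T (M + 1 + i) (w0 ++ [u]) - K.fM o T (M + 1 + s + i) (w0 ++ [u]))) := by
        intro i _
        show K.EW r0 u _ - K.EW r0 u _ = _
        rw [← K.EW_sub]
        refine K.EW_congr _ _ _ _ (fun w0 _ => ?_)
        have e1 : M + i + 1 = M + 1 + i := by omega
        have e2 : M + s + i + 1 = M + 1 + s + i := by omega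
        rw [e1, e2]
        ring
      rw [Finset.sum_congr rfl h4, ← K.EW_sum, ← K.EW_mul_left]
      refine K.EW_congr _ _ _ _ (fun w0 _ => ?_)
      rw [← Finset.mul_sum]
      ring
    rw [h3]
    refine (K.abs_EW_le _ _ _).trans (K.EW_mono _ _ _ _ (fun w0 _ => ?_))
    by_cases h0 : ∀ v ∈ w0, v ∈ D
    · rw [if_pos h0, one_mul]
    · rw [if_neg h0, zero_mul, abs_zero]
      exact abs_nonneg _
  have hsum : (1 / (w : ℝ)) * ∑ i ∈ range w, (Am G D u (M + i) - Am G D u (M + s + i)) =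
      (1 / (w : ℝ)) * ∑ i ∈ range w, (XX (M + i) - XX (M + s + i)) +
        (1 / (w : ℝ)) * ∑ i ∈ range w, ((JJ (M + s + i) - JJ (M + i)) + (RR (M + i) - RR (M + s + i))) := by
    rw [← mul_add, ← Finset.sum_add_distrib]
    congr 1
    refine Finset.sum_congr rfl fun i _ => ?_
    rw [hA (M + i) (by omega), hA (M + s + i) (by omega)]
    ring
  rw [hsum]
  have hrest : |(1 / (w : ℝ)) * ∑ i ∈ range w, ((JJ (M + s + i) - JJ (M + i)) + (RR (M + i) - RR (M + s + i)))|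
      ≤ cJ + cR := by
    rw [abs_mul, abs_of_nonneg (by positivity : (0 : ℝ) ≤ 1 / (w : ℝ))]
    have h3 : |∑ i ∈ range w, ((JJ (M + s + i) - JJ (M + i)) + (RR (M + i) - RR (M + s + i)))| ≤
        ∑ _i ∈ range w, (cJ + cR) := by
      refine (Finset.abs_sum_le_sum_abs _ _).trans (Finset.sum_le_sum fun i hi => ?_)
      rw [Finset.mem_range] at hi
      have j1 := hJ (M + s + i)
      have j2 := hJ (M + i)
      have k1 := hR (M + i) (by omega)
      have k2 := hR (M + s + i) (by omega)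
      rw [abs_le]
      constructor <;> linarith [j1.1, j1.2, j2.1, j2.2, k1.1, k1.2, k2.1, k2.2]
    rw [Finset.sum_const, Finset.card_range, nsmul_eq_mul] at h3
    calc 1 / (w : ℝ) * |∑ i ∈ range w, ((JJ (M + s + i) - JJ (M + i)) + (RR (M + i) - RR (M + s + i)))|
        ≤ 1 / (w : ℝ) * (w * (cJ + cR)) := mul_le_mul_of_nonneg_left h3 (by positivity)
      _ = cJ + cR := by field_simp
  refine (abs_add_le _ _).trans ?_
  linarith

end Ker

end HP192
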