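import Mathlib
import Pool.Agent.Helper192_HP.Defs
import Pool.Agent.Helper192_HP.WDefs
import Pool.Agent.Helper192_HP.Basic
import Pool.Agent.Helper192_HP.W01
import Pool.Agent.Helper192_HP.W02
import Pool.Agent.Helper192_HP.W07

namespace HP192
open Finset

-- TARGET
namespace Ker
variable {V : Type} [Fintype V] [DecidableEq V] (K : Ker V)

/-- the functional used for one block -/
noncomputable def blkF (o : V) (h : ℕ) (L : List V) : ℝ :=
  K.EW h (L.headD o) (fun w' => by classical exact if ∀ y ∈ w', y ∉ L then (1 : ℝ) else 0)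

theorem blkF_inv (o : V) (h : ℕ) (g : Equiv.Perm V) (hg : ∀ a b, K.P (g a) (g b) = K.P a b)
    (L : List V) : K.blkF o h (L.map g) = K.blkF o h L := by
  classical
  unfold blkF
  cases L with
  | nil => rfl
  | cons z L' =>
    have e1 : (List.map g (z :: L')).headD o = g z := rfl
    have e2 : (z :: L').headD o = z := rfl
    rw [e1, e2, K.EW_auto g hg]
    apply K.EW_congr
    intro w _
    have : (∀ y ∈ w.map g, y ∉ List.map g (z :: L')) ↔ (∀ y ∈ w, y ∉ z :: L') := by
      constructor
      · intro H y hy hyL
        exact H (g y) (List.mem_map_of_mem hy) (List.mem_map_of_mem hyL)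
      · intro H y hy hyL
        obtain ⟨a, ha, rfl⟩ := List.mem_map.1 hy
        obtain ⟨b, hb, hab⟩ := List.mem_map.1 hyL
        rw [g.injective hab] at hb
        exact H a ha hb
    simp only [this]

theorem blk_nq (o : V) (h : ℕ) (x : V) :
    K.EW h x (fun w => K.blkF o h (w ++ [x])) = K.nq x h h := by
  classical
  rw [K.EW_rev_inv (K.blkF o h) (fun g hg L => K.blkF_inv o h g hg L) h x]
  unfold nq
  apply K.EW_congr
  intro w _
  have e : (w ++ [x]).reverse = x :: w.reverse := by simp
  unfold blkF
  rw [e]
  have e2 : (x :: w.reverse).headD o = x := rfl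
  rw [e2]
  apply K.EW_congr
  intro w' _
  have : (∀ y ∈ w', y ∉ x :: w.reverse) ↔ (∀ y ∈ w', y ∉ w ++ [x]) := by
    constructor
    · intro H y hy hyL
      apply H y hy
      simp only [List.mem_append, List.mem_singleton, List.mem_cons, List.mem_reverse] at hyL ⊢
      tauto
    · intro H y hy hyL
      apply H y hy
      simp only [List.mem_append, List.mem_singleton, List.mem_cons, List.mem_reverse] at hyL ⊢
      tauto
  simp only [this]

open Classical in
theorem blk_one (o : V) (h : ℕ) (x : V) :
    K.EW (2 * h) x (fun B => if ¬ (∀ y ∈ B.take h, y ∉ (B.drop h).take h) then (1 : ℝ) else 0)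
      ≤ 1 - K.nq o h h := by
  have h1 : K.nq o h h ≤ K.EW (2 * h) x
      (fun B => if (∀ y ∈ B.take h, y ∉ (B.drop h).take h) then (1 : ℝ) else 0) := by
    rw [two_mul, K.EW_append, K.nq_inv o x, ← K.blk_nq o h x]
    apply K.EW_mono
    intro w hw
    unfold blkF
    have e : (w ++ [x]).headD o = tip x w := by
      cases w with
      | nil => rfl
      | cons a w => rfl
    rw [e]
    apply K.EW_mono
    intro w' hw'
    have e1 : (w' ++ w).take h = w' := by
      rw [← hw', List.take_left]
    have e2 : ((w' ++ w).drop h).take h = w := by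
      rw [← hw', List.drop_left, hw', ← hw, List.take_length]
    rw [e1, e2]
    by_cases hc : ∀ y ∈ w', y ∉ w ++ [x]
    · rw [if_pos hc, if_pos]
      intro y hy hyw
      exact hc y hy (List.mem_append_left _ hyw)
    · rw [if_neg hc]
      split_ifs <;> norm_num
  have h2 : K.EW (2 * h) x (fun B => if ¬ (∀ y ∈ B.take h, y ∉ (B.drop h).take h) then (1 : ℝ) else 0)
      = 1 - K.EW (2 * h) x
        (fun B => if (∀ y ∈ B.take h, y ∉ (B.drop h).take h) then (1 : ℝ) else 0) := by
    have h3 : K.EW (2 * h) x (fun _ => (1 : ℝ)) = 1 := K.EW_const _ _ _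
    have h4 := K.EW_sub (2 * h) x (fun _ => (1 : ℝ))
      (fun B => if (∀ y ∈ B.take h, y ∉ (B.drop h).take h) then (1 : ℝ) else 0)
    rw [h3] at h4
    refine Eq.trans ?_ h4
    apply K.EW_congr
    intro B _
    by_cases hc : ∀ y ∈ B.take h, y ∉ (B.drop h).take h
    · rw [if_neg (not_not.2 hc), if_pos hc]; norm_num
    · rw [if_pos hc, if_neg hc]; norm_num
  rw [h2]
  linarith

open Classical in
theorem blocks (o : V) (h K2 : ℕ) (x : V) :
    K.EW (2 * h * K2) x (fun w =>
      if ∀ i < K2, ¬ (∀ y ∈ (w.drop (2 * h * i)).take h, y ∉ (w.drop (2 * h * i + h)).take h)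
      then (1 : ℝ) else 0) ≤ (1 - K.nq o h h) ^ K2 := by
  have hq : 0 ≤ 1 - K.nq o h h := by
    have := K.nq_le_one o h h
    linarith
  induction K2 with
  | zero =>
    rw [Nat.mul_zero, K.EW_zero, pow_zero]
    split_ifs <;> norm_num
  | succ n ih =>
    rw [Nat.mul_succ, K.EW_append, pow_succ]
    refine le_trans ?_ (mul_le_mul_of_nonneg_right ih hq)
    rw [← K.EW_mul_right]
    apply K.EW_mono
    intro w hw
    by_cases hB : ∀ i < n, ¬ (∀ y ∈ (w.drop (2 * h * i)).take h, y ∉ (w.drop (2 * h * i + h)).take h)
    · rw [if_pos hB, one_mul]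
      refine le_trans ?_ (K.blk_one o h (tip x w))
      apply K.EW_mono
      intro w' hw'
      by_cases hc : ∀ i < n + 1, ¬ (∀ y ∈ ((w' ++ w).drop (2 * h * i)).take h,
          y ∉ ((w' ++ w).drop (2 * h * i + h)).take h)
      · rw [if_pos hc, if_pos]
        have h0 := hc 0 (Nat.succ_pos n)
        rw [Nat.mul_zero, List.drop_zero, Nat.zero_add] at h0
        have e1 : (w' ++ w).take h = w'.take h := by
          rw [List.take_append_of_le_length (by omega)]
        have e2 : ((w' ++ w).drop h).take h = (w'.drop h).take h := by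
          rw [List.drop_append_of_le_length (by omega), List.take_append_of_le_length]
          rw [List.length_drop]; omega
        rw [e1, e2] at h0
        exact h0
      · rw [if_neg hc]
        split_ifs <;> norm_num
    · rw [if_neg hB, zero_mul]
      have : K.EW (2 * h) (tip x w) (fun w' => if ∀ i < n + 1, ¬ (∀ y ∈ ((w' ++ w).drop (2 * h * i)).take h,
          y ∉ ((w' ++ w).drop (2 * h * i + h)).take h) then (1 : ℝ) else 0) = 0 := by
        refine (K.EW_congr (2 * h) (tip x w) _ (fun _ => (0 : ℝ)) ?_).trans (K.EW_zero_fun _ _)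
        intro w' hw'
        rw [if_neg]
        intro hc
        apply hB
        intro i hi
        have h1 := hc (i + 1) (Nat.succ_lt_succ hi)
        have e1 : (w' ++ w).drop (2 * h * (i + 1)) = w.drop (2 * h * i) := by
          rw [Nat.mul_succ, Nat.add_comm, ← hw', ← List.drop_drop, List.drop_left, hw']
        have e2 : (w' ++ w).drop (2 * h * (i + 1) + h) = w.drop (2 * h * i + h) := by
          rw [Nat.mul_succ, show 2 * h * i + 2 * h + h = 2 * h + (2 * h * i + h) by omega, ← hw',
            ← List.drop_drop, List.drop_left, hw']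
        rw [e1, e2] at h1
        exact h1
      rw [this]

end Ker

end HP192
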