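import Mathlib
import Pool.Agent.Helper192_HP.Defs
import Pool.Agent.Helper192_HP.WDefs
import Pool.Agent.Helper192_HP.Basic
import Pool.Agent.Helper192_HP.W01
import Pool.Agent.Helper192_HP.W02
import Pool.Agent.Helper192_HP.W07
import Pool.Agent.Helper192_HP.W08

namespace HP192
open Finset

section aux
variable {V : Type}

theorem tip_drop (x : V) (l : List V) (k : ℕ) (h : k < l.length) : tip x (l.drop k) = l[k] := by
  rw [List.drop_eq_getElem_cons h, tip_cons]

/-- equal vertices at the positions `j` and `i` -/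
noncomputable def eqI (o : V) (L : List V) (j i : ℕ) : ℝ :=
  open Classical in if tip o (L.drop j) = tip o (L.drop i) then 1 else 0

theorem eqI_nonneg (o : V) (L : List V) (j i : ℕ) : 0 ≤ eqI o L j i := by
  unfold eqI; split_ifs <;> norm_num

/-- a local cut and no far coincidence give a cut -/
theorem cut_of_local (o : V) (h K2 a b i0 : ℕ) (hi0 : i0 < K2) (w ω p : List V)
    (hw : w.length = b) (hω : ω.length = 2 * h * K2) (hp : p.length = a)
    (hloc : ∀ y ∈ (ω.drop (2 * h * i0)).take h, y ∉ (ω.drop (2 * h * i0 + h)).take h)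
    (hno : ∀ j i, j < b + 2 * h * K2 → b ≤ i → i < a + 2 * h * K2 + b → j + h ≤ i →
      tip o ((w ++ (ω ++ p)).drop j) ≠ tip o ((w ++ (ω ++ p)).drop i)) :
    ∃ β α, ω = β ++ α ∧ ∀ y ∈ w ++ β, y ∉ α ++ p := by
  have hle : 2 * h * i0 + 2 * h ≤ 2 * h * K2 := by
    have : 2 * h * (i0 + 1) ≤ 2 * h * K2 := Nat.mul_le_mul_left _ hi0
    rw [Nat.mul_add, Nat.mul_one] at this
    exact this
  set c := 2 * h * i0 with hc
  refine ⟨ω.take (c + h), ω.drop (c + h), (List.take_append_drop _ _).symm, ?_⟩
  intro y hy1 hy2
  have hLlen : (w ++ (ω ++ p)).length = a + 2 * h * K2 + b := by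
    simp only [List.length_append]; omega
  -- position of y in the newer part
  obtain ⟨j, hj, hjy⟩ : ∃ j, j < b + c + h ∧ ∃ hj : j < (w ++ (ω ++ p)).length,
      (w ++ (ω ++ p))[j] = y := by
    rcases List.mem_append.mp hy1 with h1 | h1
    · obtain ⟨k, hk, rfl⟩ := List.mem_iff_getElem.mp h1
      refine ⟨k, by omega, by omega, ?_⟩
      rw [List.getElem_append_left hk]
    · obtain ⟨k, hk, rfl⟩ := List.mem_iff_getElem.mp h1
      have hk' : k < c + h ∧ k < ω.length := by
        rw [List.length_take] at hk; omega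
      refine ⟨b + k, by omega, by omega, ?_⟩
      rw [List.getElem_append_right (by omega), List.getElem_append_left (by omega),
        List.getElem_take]
      congr 1
      omega
  obtain ⟨hj', hjy⟩ := hjy
  obtain ⟨i, hi1, hi2, hiy⟩ : ∃ i, b + c + h ≤ i ∧ ∃ hi : i < (w ++ (ω ++ p)).length,
      (w ++ (ω ++ p))[i] = y := by
    rcases List.mem_append.mp hy2 with h1 | h1
    · obtain ⟨k, hk, rfl⟩ := List.mem_iff_getElem.mp h1
      rw [List.length_drop] at hk
      refine ⟨b + (c + h + k), by omega, by omega, ?_⟩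
      rw [List.getElem_append_right (by omega), List.getElem_append_left (by omega),
        List.getElem_drop]
      congr 1
      omega
    · obtain ⟨k, hk, rfl⟩ := List.mem_iff_getElem.mp h1
      refine ⟨b + (2 * h * K2 + k), by omega, by omega, ?_⟩
      rw [List.getElem_append_right (by omega), List.getElem_append_right (by omega)]
      congr 1
      omega
  have hEq : tip o ((w ++ (ω ++ p)).drop j) = tip o ((w ++ (ω ++ p)).drop i) := by
    rw [tip_drop o _ j hj', tip_drop o _ i hi2, hjy, hiy]
  by_cases hgap : j + h ≤ i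
  · exact hno j i (by omega) (by omega) (by omega) hgap hEq
  · -- both positions are in the block
    have hjb : b + c ≤ j := by omega
    have hib : i < b + c + 2 * h := by omega
    apply hloc y
    · rw [List.mem_iff_getElem]
      refine ⟨j - b - c, ?_, ?_⟩
      · rw [List.length_take, List.length_drop]; omega
      · rw [List.getElem_take, List.getElem_drop, ← hjy, List.getElem_append_right (by omega),
          List.getElem_append_left (by omega)]
        congr 1
        omega
    · rw [List.mem_iff_getElem]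
      refine ⟨i - b - c - h, ?_, ?_⟩
      · rw [List.length_take, List.length_drop]; omega
      · rw [List.getElem_take, List.getElem_drop, ← hiy, List.getElem_append_right (by omega),
          List.getElem_append_left (by omega)]
        congr 1
        omega

end aux

namespace Ker
variable {V : Type} [Fintype V] [DecidableEq V] (K : Ker V)

theorem EW_drop (s t : ℕ) (o : V) (G : List V → ℝ) :
    K.EW (s + t) o (fun L => G (L.drop t)) = K.EW s o G := by
  rw [EW_append]
  apply EW_congr
  intro w _
  rw [EW_congr K t (tip o w) (fun w' => G ((w' ++ w).drop t)) (fun _ => G w), EW_const]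
  intro w' hw'
  rw [List.drop_append_of_le_length (by omega), ← hw', List.drop_length, List.nil_append]

theorem EW_eqI (o : V) (N j i m0 : ℕ) (κ : ℝ) (h2 : ∀ x y, K.hk m0 x y ≤ κ) (hji : j + m0 ≤ i)
    (hi : i ≤ N) : K.EW N o (fun L => eqI o L j i) ≤ κ := by
  obtain ⟨d, rfl⟩ : ∃ d, i = j + d := ⟨i - j, by omega⟩
  obtain ⟨s, rfl⟩ : ∃ s, N = s + d + j := ⟨N - (j + d), by omega⟩
  have e1 : K.EW (s + d + j) o (fun L => eqI o L j (j + d)) =
      K.EW (s + d + j) o (fun L => (fun L' => eqI o L' 0 d) (L.drop j)) := by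
    apply EW_congr
    intro L _
    simp only [eqI, List.drop_drop, Nat.add_zero]
    congr
  rw [e1, K.EW_drop (s + d) j o (fun L' => eqI o L' 0 d), EW_append]
  apply EW_le_const
  intro u _
  have e2 : K.EW d (tip o u) (fun w' => eqI o (w' ++ u) 0 d) =
      K.EW d (tip o u) (fun w' => if tip (tip o u) w' = tip o u then (1 : ℝ) else 0) := by
    apply EW_congr
    intro w' hw'
    simp only [eqI, List.drop_zero]
    rw [List.drop_append_of_le_length (by omega), ← hw', List.drop_length, List.nil_append,
      tip_append]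
  rw [e2, hk_eq_EW]
  exact K.hk_mix m0 κ h2 d (by omega) _ _

-- TARGET
theorem nocut (o : V) (a b h K2 m0 : ℕ) (κ : ℝ) (h2 : ∀ x y, K.hk m0 x y ≤ κ) (hm : m0 ≤ h) :
    K.EW a o (fun p => K.EW (2 * h * K2) (tip o p) (fun ω =>
      K.EW b (tip (tip o p) ω) (fun w => 1 - cutI w ω p)))
    ≤ (1 - K.nq o h h) ^ K2 + κ * (((a : ℝ) + 2 * h * K2) * (2 * h * K2 + b)) := by
  classical
  have hκ : 0 ≤ κ := (K.hk_nonneg m0 o o).trans (h2 o o)
  let I : List V → ℝ := fun ω =>
    if ∀ i < K2, ¬ (∀ y ∈ (ω.drop (2 * h * i)).take h, y ∉ (ω.drop (2 * h * i + h)).take h)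
      then (1 : ℝ) else 0
  let N := a + 2 * h * K2 + b
  let Z : List V → ℝ := fun L => ∑ j ∈ range (b + 2 * h * K2),
    ∑ i ∈ (Finset.Ico b N).filter (fun i => j + h ≤ i), eqI o L j i
  have hInn : ∀ ω, 0 ≤ I ω := by
    intro ω
    simp only [I]
    split_ifs <;> norm_num
  have hZnn : ∀ L, 0 ≤ Z L := by
    intro L
    exact Finset.sum_nonneg (fun j _ => Finset.sum_nonneg (fun i _ => eqI_nonneg o L j i))
  -- pointwise bound
  have hpt : ∀ w ω p : List V, w.length = b → ω.length = 2 * h * K2 → p.length = a →
      1 - cutI w ω p ≤ I ω + Z (w ++ (ω ++ p)) := by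
    intro w ω p hw hω hp
    by_cases hcut : ∃ β α, ω = β ++ α ∧ ∀ y ∈ w ++ β, y ∉ α ++ p
    · have : cutI w ω p = 1 := by
        unfold cutI
        rw [if_pos hcut]
      rw [this, sub_self]
      exact add_nonneg (hInn _) (hZnn _)
    · have : cutI w ω p = 0 := by
        unfold cutI
        rw [if_neg hcut]
      rw [this, sub_zero]
      by_cases hall : ∀ i < K2, ¬ (∀ y ∈ (ω.drop (2 * h * i)).take h,
          y ∉ (ω.drop (2 * h * i + h)).take h)
      · have : I ω = 1 := by
          simp only [I]
          rw [if_pos hall]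
        rw [this]
        linarith [hZnn (w ++ (ω ++ p))]
      · push Not at hall
        obtain ⟨i0, hi0, hloc⟩ := hall
        by_cases hno : ∀ j i, j < b + 2 * h * K2 → b ≤ i → i < a + 2 * h * K2 + b → j + h ≤ i →
            tip o ((w ++ (ω ++ p)).drop j) ≠ tip o ((w ++ (ω ++ p)).drop i)
        · exact absurd (cut_of_local o h K2 a b i0 hi0 w ω p hw hω hp hloc hno) hcut
        · push Not at hno
          obtain ⟨j, i, hj, hi1, hi2, hji, heq⟩ := hno
          have h1 : eqI o (w ++ (ω ++ p)) j i = 1 := by
            unfold eqI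
            rw [if_pos heq]
          have h3 : eqI o (w ++ (ω ++ p)) j i ≤ Z (w ++ (ω ++ p)) := by
            have h4 : eqI o (w ++ (ω ++ p)) j i ≤
                ∑ i ∈ (Finset.Ico b N).filter (fun i => j + h ≤ i), eqI o (w ++ (ω ++ p)) j i :=
              Finset.single_le_sum (f := fun i => eqI o (w ++ (ω ++ p)) j i)
                (fun i _ => eqI_nonneg o _ j i)
                (Finset.mem_filter.mpr ⟨Finset.mem_Ico.mpr ⟨hi1, hi2⟩, hji⟩)
            refine h4.trans ?_
            exact Finset.single_le_sum (f := fun j =>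
                ∑ i ∈ (Finset.Ico b N).filter (fun i => j + h ≤ i), eqI o (w ++ (ω ++ p)) j i)
                (fun j _ => Finset.sum_nonneg (fun i _ => eqI_nonneg o _ j i))
                (Finset.mem_range.mpr hj)
          have := hInn ω
          linarith
  -- the bound of the expectation
  have step1 : K.EW a o (fun p => K.EW (2 * h * K2) (tip o p) (fun ω =>
      K.EW b (tip (tip o p) ω) (fun w => 1 - cutI w ω p))) ≤
      K.EW a o (fun p => K.EW (2 * h * K2) (tip o p) (fun ω =>
        K.EW b (tip (tip o p) ω) (fun w => I ω + Z (w ++ (ω ++ p))))) := by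
    apply EW_mono
    intro p hp
    apply EW_mono
    intro ω hω
    apply EW_mono
    intro w hw
    exact hpt w ω p hw hω hp
  have step2 : K.EW a o (fun p => K.EW (2 * h * K2) (tip o p) (fun ω =>
        K.EW b (tip (tip o p) ω) (fun w => I ω + Z (w ++ (ω ++ p))))) =
      K.EW a o (fun p => K.EW (2 * h * K2) (tip o p) I) + K.EW N o Z := by
    have e1 : K.EW N o Z = K.EW a o (fun p => K.EW (2 * h * K2) (tip o p) (fun ω =>
        K.EW b (tip (tip o p) ω) (fun w => Z (w ++ (ω ++ p))))) := by
      change K.EW (a + 2 * h * K2 + b) o Z = _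
      rw [EW_append, EW_append]
      apply EW_congr
      intro p _
      apply EW_congr
      intro ω _
      rw [tip_append]
    rw [e1, ← EW_add]
    apply EW_congr
    intro p _
    rw [← EW_add]
    apply EW_congr
    intro ω _
    rw [EW_add, EW_const]
  have step3 : K.EW a o (fun p => K.EW (2 * h * K2) (tip o p) I) ≤ (1 - K.nq o h h) ^ K2 := by
    apply EW_le_const
    intro p _
    exact K.blocks o h K2 (tip o p)
  have step4 : K.EW N o Z ≤ κ * (((a : ℝ) + 2 * h * K2) * (2 * h * K2 + b)) := by
    have e1 : K.EW N o Z = ∑ j ∈ range (b + 2 * h * K2),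
        ∑ i ∈ (Finset.Ico b N).filter (fun i => j + h ≤ i), K.EW N o (fun L => eqI o L j i) := by
      rw [EW_sum]
      apply Finset.sum_congr rfl
      intro j _
      rw [EW_sum]
    rw [e1]
    have e2 : ∀ j ∈ range (b + 2 * h * K2),
        ∑ i ∈ (Finset.Ico b N).filter (fun i => j + h ≤ i), K.EW N o (fun L => eqI o L j i) ≤
          ((a : ℝ) + 2 * h * K2) * κ := by
      intro j _
      calc ∑ i ∈ (Finset.Ico b N).filter (fun i => j + h ≤ i), K.EW N o (fun L => eqI o L j i)
          ≤ ∑ i ∈ (Finset.Ico b N).filter (fun i => j + h ≤ i), κ := by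
            apply Finset.sum_le_sum
            intro i hi
            rw [Finset.mem_filter, Finset.mem_Ico] at hi
            exact K.EW_eqI o N j i m0 κ h2 (by omega) (by omega)
        _ ≤ ∑ i ∈ Finset.Ico b N, κ :=
            Finset.sum_le_sum_of_subset_of_nonneg (Finset.filter_subset _ _) (fun _ _ _ => hκ)
        _ = ((a : ℝ) + 2 * h * K2) * κ := by
            rw [Finset.sum_const, Nat.card_Ico, nsmul_eq_mul]
            congr 1
            have : N - b = a + 2 * h * K2 := by simp only [N]; omega
            rw [this]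
            push_cast
            ring
    calc ∑ j ∈ range (b + 2 * h * K2),
        ∑ i ∈ (Finset.Ico b N).filter (fun i => j + h ≤ i), K.EW N o (fun L => eqI o L j i)
        ≤ ∑ j ∈ range (b + 2 * h * K2), ((a : ℝ) + 2 * h * K2) * κ := Finset.sum_le_sum e2
      _ = κ * (((a : ℝ) + 2 * h * K2) * (2 * h * K2 + b)) := by
          rw [Finset.sum_const, Finset.card_range, nsmul_eq_mul]
          push_cast
          ring
  linarith [step1, step2, step3, step4]

end Ker

end HP192
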