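import Mathlib
import Pool.Agent.Helper192_HP.Defs
import Pool.Agent.Helper192_HP.EbdDef
import Pool.Agent.Helper192_HP.WDefs
import Pool.Agent.Helper192_HP.Basic
import Pool.Agent.Helper192_HP.W01
import Pool.Agent.Helper192_HP.W02
import Pool.Agent.Helper192_HP.W06
import Pool.Agent.Helper192_HP.W07
import Pool.Agent.Helper192_HP.W09
import Pool.Agent.Helper192_HP.W20
import Pool.Agent.Helper192_HP.W17
import Pool.Agent.Helper192_HP.W21

namespace HP192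
open Finset

-- TARGET
namespace Ker
variable {V : Type} [Fintype V] [DecidableEq V] (K : Ker V)

theorem aux_tip_eq (x y : V) (w : List V) (h : w ≠ []) : tip x w = tip y w := by
  cases w with
  | nil => exact absurd rfl h
  | cons a w => simp

theorem aux_kappa_nonneg (o : V) (m0 : ℕ) (κ : ℝ) (h2 : ∀ x y, K.hk m0 x y ≤ κ) : 0 ≤ κ :=
  le_trans (K.hk_nonneg m0 o o) (h2 o o)

theorem aux_hq (o : V) (T m0 : ℕ) (Θ κ : ℝ) (hΘ2 : K.Th o (2 * T) ≤ Θ)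
    (h2 : ∀ x y, K.hk m0 x y ≤ κ) (hmT : m0 ≤ T)
    (hκ : κ * (2 * (T : ℝ) + 1) ^ 2 ≤ 1 / 2) : 1 / (2 * Θ) ≤ K.nq o T T := by
  refine le_trans ?_ (K.nonint o T m0 κ h2 hmT hκ)
  have h1 := K.one_le_Th o (2 * T)
  apply one_div_le_one_div_of_le
  · linarith
  · linarith

theorem aux_hpb (o : V) (T r r1 h K2 m0 : ℕ) (Θ κ : ℝ) (hr1 : r1 = 2 * h * K2)
    (hr1' : 1 ≤ r1) (hr1r : r1 ≤ r) (hT : 3 * r ≤ T)
    (hΘ2 : K.Th o (2 * T) ≤ Θ)
    (h2 : ∀ x y, K.hk m0 x y ≤ κ) (hmh : m0 ≤ h) (hmT : m0 ≤ T)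
    (hκ : κ * (2 * (T : ℝ) + 1) ^ 2 ≤ 1 / 2) :
    ∀ R < r, ∀ t < T, K.EW r1 o (fun ω0 => K.EW (r + R) (tip o ω0) (fun ω1 =>
      K.EW r1 (tip (tip o ω0) ω1) (fun ω2 => K.EW t (tip o ω2) (fun w =>
        1 - cutI w ω2 (ω1 ++ ω0))))) ≤ (1 - 1 / (2 * Θ)) ^ K2 + 8 * κ * r * T := by
  intro R hR t ht
  have hκ0 := K.aux_kappa_nonneg o m0 κ h2
  have hq := K.aux_hq o T m0 Θ κ hΘ2 h2 hmT hκ
  have key := K.nocut o (r1 + (r + R)) t h K2 m0 κ h2 hmh
  rw [K.EW_append r1 (r + R)] at key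
  have e1 : K.EW r1 o (fun ω0 => K.EW (r + R) (tip o ω0) (fun ω1 =>
      K.EW r1 (tip (tip o ω0) ω1) (fun ω2 => K.EW t (tip o ω2) (fun w =>
        1 - cutI w ω2 (ω1 ++ ω0))))) =
      K.EW r1 o (fun w => K.EW (r + R) (tip o w) (fun w' =>
        (fun p => K.EW (2 * h * K2) (tip o p) (fun ω =>
      K.EW t (tip (tip o p) ω) (fun w => 1 - cutI w ω p))) (w' ++ w))) := by
    apply K.EW_congr
    intro ω0 _
    apply K.EW_congr
    intro ω1 _
    show _ = K.EW (2 * h * K2) (tip o (ω1 ++ ω0)) (fun ω =>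
      K.EW t (tip (tip o (ω1 ++ ω0)) ω) (fun w => 1 - cutI w ω (ω1 ++ ω0)))
    rw [tip_append, ← hr1]
    apply K.EW_congr
    intro ω2 hω2
    have hne : ω2 ≠ [] := by
      intro h0
      rw [h0] at hω2
      simp at hω2
      omega
    rw [aux_tip_eq o (tip (tip o ω0) ω1) ω2 hne]
  rw [e1]
  refine le_trans key ?_
  have hh1 : 1 ≤ h := by
    rcases Nat.eq_zero_or_pos h with h0 | h0
    · subst h0; simp at hr1; omega
    · exact h0
  have hK1 : 1 ≤ K2 := by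
    rcases Nat.eq_zero_or_pos K2 with h0 | h0
    · subst h0; simp at hr1; omega
    · exact h0
  have hhr : h ≤ r1 := by
    rw [hr1]
    calc h ≤ 2 * h := by omega
      _ = 2 * h * 1 := by ring
      _ ≤ 2 * h * K2 := Nat.mul_le_mul_left _ hK1
  have hhT : h ≤ T := by omega
  have hnq : 1 / (2 * Θ) ≤ K.nq o h h := le_trans hq (K.nq_anti o h h T T hhT hhT)
  have hnq1 := K.nq_le_one o h h
  apply add_le_add
  · apply pow_le_pow_left₀
    · linarith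
    · linarith
  · have hr1c : (r1 : ℝ) = 2 * h * K2 := by rw [hr1]; push_cast; ring
    rw [← hr1c]
    have a1 : (((r1 + (r + R) : ℕ) : ℝ) + r1) ≤ 4 * r := by
      have : (r1 + (r + R)) + r1 ≤ 4 * r := by omega
      exact_mod_cast this
    have a2 : ((r1 : ℝ) + t) ≤ 2 * T := by
      have : r1 + t ≤ 2 * T := by omega
      exact_mod_cast this
    have a3 : (((r1 + (r + R) : ℕ) : ℝ) + r1) * ((r1 : ℝ) + t) ≤ (4 * r) * (2 * T) := by
      apply mul_le_mul a1 a2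
      · positivity
      · positivity
    calc κ * ((((r1 + (r + R) : ℕ) : ℝ) + r1) * ((r1 : ℝ) + t))
        ≤ κ * ((4 * r) * (2 * T)) := mul_le_mul_of_nonneg_left a3 hκ0
      _ = 8 * κ * r * T := by ring

theorem aux_jensen (o : V) (t M0 : ℕ) (hM0 : 1 ≤ M0) (D : ℕ → List V → ℝ) (B : ℝ)
    (hB : K.EW t o (fun ω => ∑ M ∈ range (2 * M0 + 1), (D M ω) ^ 2) ≤ B) :
    (1 / (M0 : ℝ)) * ∑ M ∈ Ico M0 (2 * M0), K.EW t o (fun ω => |D (M + 1) ω|)
      ≤ Real.sqrt ((1 / M0) * B) := by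
  apply Real.le_sqrt_of_sq_le
  have hM : (0 : ℝ) < M0 := by exact_mod_cast hM0
  have c1 := sq_sum_le_card_mul_sum_sq (s := Ico M0 (2 * M0))
    (f := fun M => K.EW t o (fun ω => |D (M + 1) ω|))
  have hcard : ((Ico M0 (2 * M0)).card : ℝ) = M0 := by
    rw [Nat.card_Ico]
    have : 2 * M0 - M0 = M0 := by omega
    rw [this]
  rw [hcard] at c1
  have c2 : ∑ M ∈ Ico M0 (2 * M0), (K.EW t o (fun ω => |D (M + 1) ω|)) ^ 2
      ≤ ∑ M ∈ Ico M0 (2 * M0), K.EW t o (fun ω => (D (M + 1) ω) ^ 2) := by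
    apply Finset.sum_le_sum
    intro M _
    refine le_trans (K.EW_sq_le' t o _) ?_
    apply le_of_eq
    apply K.EW_congr
    intro w _
    exact sq_abs _
  have c3 : ∑ M ∈ Ico M0 (2 * M0), K.EW t o (fun ω => (D (M + 1) ω) ^ 2)
      ≤ K.EW t o (fun ω => ∑ M ∈ range (2 * M0 + 1), (D M ω) ^ 2) := by
    rw [← K.EW_sum]
    apply K.EW_mono
    intro ω _
    rw [Finset.sum_Ico_add' (fun M => (D M ω) ^ 2) M0 (2 * M0) 1]
    apply Finset.sum_le_sum_of_subset_of_nonneg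
    · intro x hx
      simp only [Finset.mem_Ico, Finset.mem_range] at hx ⊢
      omega
    · intro i _ _
      positivity
  have c4 : (∑ M ∈ Ico M0 (2 * M0), K.EW t o (fun ω => |D (M + 1) ω|)) ^ 2 ≤ M0 * B := by
    refine le_trans c1 ?_
    exact mul_le_mul_of_nonneg_left (le_trans c2 (le_trans c3 hB)) hM.le
  rw [mul_pow]
  calc (1 / (M0 : ℝ)) ^ 2 * (∑ M ∈ Ico M0 (2 * M0), K.EW t o (fun ω => |D (M + 1) ω|)) ^ 2
      ≤ (1 / (M0 : ℝ)) ^ 2 * (M0 * B) := mul_le_mul_of_nonneg_left c4 (by positivity)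
    _ = (1 / M0) * B := by field_simp

theorem Fbar (o : V) (T r r1 h K2 w s M0 m0 : ℕ) (Θ κ : ℝ) (hr : 1 ≤ r) (hr1 : r1 = 2 * h * K2)
    (hr1' : 1 ≤ r1) (hr1r : r1 ≤ r) (hw : 1 ≤ w) (hM0 : 1 ≤ M0) (hT : 3 * r ≤ T)
    (hΘ : K.Th o (T + 4 * r) ≤ Θ) (hΘ2 : K.Th o (2 * T) ≤ Θ)
    (h2 : ∀ x y, K.hk m0 x y ≤ κ) (hmh : m0 ≤ h) (hmT : m0 ≤ T)
    (hκ : κ * (2 * (T : ℝ) + 1) ^ 2 ≤ 1 / 2) :
    (1 / (M0 : ℝ)) * ∑ M ∈ Ico M0 (2 * M0),
      K.EW r1 o (fun ω => |(1 / (w : ℝ)) * ∑ i ∈ range w,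
            (K.fM o T (M + 1 + i) ω - K.fM o T (M + 1 + s + i) ω)|)
      ≤ Ebd Θ T r s w M0 ((1 - 1 / (2 * Θ)) ^ K2 + 8 * κ * r * T) := by
  have hq := K.aux_hq o T m0 Θ κ hΘ2 h2 hmT hκ
  have hpb := K.aux_hpb o T r r1 h K2 m0 Θ κ hr1 hr1' hr1r hT hΘ2 h2 hmh hmT hκ
  have hReg := K.Reg o T r r1 w s (2 * M0 + 1) Θ ((1 - 1 / (2 * Θ)) ^ K2 + 8 * κ * r * T)
    hr hr1' hr1r hw hT hΘ hq hpb
  exact K.aux_jensen o r1 M0 hM0 (fun M ω => (1 / (w : ℝ)) * ∑ i ∈ range w,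
            (K.fM o T (M + i) ω - K.fM o T (M + s + i) ω)) _ hReg

theorem aux_window (g : ℕ → ℝ) (w N : ℕ) (hw : 1 ≤ w) :
    |g N - (1 / (w : ℝ)) * ∑ i ∈ range w, g (N + i)|
      ≤ ∑ j ∈ range w, |g (N + j + 1) - g (N + j)| := by
  have hw0 : (0 : ℝ) < w := by exact_mod_cast hw
  have e : g N - (1 / (w : ℝ)) * ∑ i ∈ range w, g (N + i)
      = (1 / (w : ℝ)) * ∑ i ∈ range w, (g N - g (N + i)) := by
    rw [Finset.sum_sub_distrib, Finset.sum_const, Finset.card_range, nsmul_eq_mul]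
    field_simp
  have tel : ∀ i : ℕ, |g N - g (N + i)| ≤ ∑ j ∈ range i, |g (N + j + 1) - g (N + j)| := by
    intro i
    induction i with
    | zero => simp
    | succ i ih =>
      rw [Finset.sum_range_succ]
      have : g N - g (N + (i + 1)) = (g N - g (N + i)) + (g (N + i) - g (N + i + 1)) := by
        rw [← add_assoc]; ring
      rw [this]
      refine le_trans (abs_add_le _ _) ?_
      rw [abs_sub_comm (g (N + i)) (g (N + i + 1))]
      linarith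
  rw [e, abs_mul, abs_of_pos (by positivity : (0 : ℝ) < 1 / (w : ℝ))]
  have s1 : |∑ i ∈ range w, (g N - g (N + i))|
      ≤ ∑ i ∈ range w, ∑ j ∈ range w, |g (N + j + 1) - g (N + j)| := by
    refine le_trans (Finset.abs_sum_le_sum_abs _ _) ?_
    apply Finset.sum_le_sum
    intro i hi
    refine le_trans (tel i) ?_
    apply Finset.sum_le_sum_of_subset_of_nonneg
    · intro x hx
      simp only [Finset.mem_range] at hx hi ⊢
      omega
    · intro _ _ _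
      exact abs_nonneg _
  rw [Finset.sum_const, Finset.card_range, nsmul_eq_mul] at s1
  calc 1 / (w : ℝ) * |∑ i ∈ range w, (g N - g (N + i))|
      ≤ 1 / (w : ℝ) * (w * ∑ j ∈ range w, |g (N + j + 1) - g (N + j)|) :=
        mul_le_mul_of_nonneg_left s1 (by positivity)
    _ = ∑ j ∈ range w, |g (N + j + 1) - g (N + j)| := by field_simp

theorem aux_window_sum (g : ℕ → ℝ) (w c M0 Mx : ℕ) (hw : 1 ≤ w) (hx : 2 * M0 + c + w ≤ Mx) :
    ∑ M ∈ Ico M0 (2 * M0), |g (M + c) - (1 / (w : ℝ)) * ∑ i ∈ range w, g (M + c + i)|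
      ≤ w * ∑ M ∈ range Mx, |g (M + 1) - g M| := by
  calc ∑ M ∈ Ico M0 (2 * M0), |g (M + c) - (1 / (w : ℝ)) * ∑ i ∈ range w, g (M + c + i)|
      ≤ ∑ M ∈ Ico M0 (2 * M0), ∑ j ∈ range w, |g (M + c + j + 1) - g (M + c + j)| :=
        Finset.sum_le_sum (fun M _ => aux_window g w (M + c) hw)
    _ = ∑ j ∈ range w, ∑ M ∈ Ico M0 (2 * M0), |g (M + c + j + 1) - g (M + c + j)| :=
        Finset.sum_comm
    _ ≤ ∑ j ∈ range w, ∑ M ∈ range Mx, |g (M + 1) - g M| := by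
        apply Finset.sum_le_sum
        intro j hj
        have : ∑ M ∈ Ico M0 (2 * M0), |g (M + c + j + 1) - g (M + c + j)|
            = ∑ M ∈ Ico (M0 + (c + j)) (2 * M0 + (c + j)), |g (M + 1) - g M| := by
          rw [← Finset.sum_Ico_add' (fun M => |g (M + 1) - g M|) M0 (2 * M0) (c + j)]
          apply Finset.sum_congr rfl
          intro M _
          simp only [add_assoc]
        rw [this]
        apply Finset.sum_le_sum_of_subset_of_nonneg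
        · intro x hx'
          simp only [Finset.mem_Ico, Finset.mem_range] at hx' hj ⊢
          omega
        · intro _ _ _
          exact abs_nonneg _
    _ = w * ∑ M ∈ range Mx, |g (M + 1) - g M| := by
        rw [Finset.sum_const, Finset.card_range, nsmul_eq_mul]

/-- the same with windows of length one, using the unit shift bound -/
theorem Fbar1 (o : V) (T r r1 h K2 w s M0 m0 : ℕ) (Θ κ : ℝ) (hr : 1 ≤ r) (hr1 : r1 = 2 * h * K2)
    (hr1' : 1 ≤ r1) (hr1r : r1 ≤ r) (hw : 1 ≤ w) (hM0 : 1 ≤ M0) (hT : 3 * r ≤ T)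
    (hΘ : K.Th o (T + 4 * r) ≤ Θ) (hΘ2 : K.Th o (2 * T) ≤ Θ)
    (h2 : ∀ x y, K.hk m0 x y ≤ κ) (hmh : m0 ≤ h) (hmT : m0 ≤ T)
    (hκ : κ * (2 * (T : ℝ) + 1) ^ 2 ≤ 1 / 2) :
    (1 / (M0 : ℝ)) * ∑ M ∈ Ico M0 (2 * M0),
      K.EW r1 o (fun ω => |(1 / ((1 : ℕ) : ℝ)) * ∑ i ∈ range 1,
            (K.fM o T (M + 1 + i) ω - K.fM o T (M + 1 + s + i) ω)|)
      ≤ Ebd Θ T r s w M0 ((1 - 1 / (2 * Θ)) ^ K2 + 8 * κ * r * T)
        + (1 / (M0 : ℝ)) * (2 * w * (4 + 4 * T * K.lo o (r1 + T))) := by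
  have hF := K.Fbar o T r r1 h K2 w s M0 m0 Θ κ hr hr1 hr1' hr1r hw hM0 hT hΘ hΘ2 h2 hmh hmT hκ
  have hM : (0 : ℝ) < M0 := by exact_mod_cast hM0
  have hw0 : (0 : ℝ) < w := by exact_mod_cast hw
  set Mx := 2 * M0 + (1 + s) + w with hMx
  have hU := K.unit_shift o T r1 Mx hr1'
  set U := (4 + 4 * (T : ℝ) * K.lo o (r1 + T)) with hUdef
  set A : ℕ → List V → ℝ := fun M ω => |(1 / (w : ℝ)) * ∑ i ∈ range w,
            (K.fM o T (M + 1 + i) ω - K.fM o T (M + 1 + s + i) ω)| with hA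
  set W : ℕ → ℕ → List V → ℝ := fun c M ω => |K.fM o T (M + c) ω -
    (1 / (w : ℝ)) * ∑ i ∈ range w, K.fM o T (M + c + i) ω| with hW
  have hWb : ∀ c, c ≤ 1 + s → K.EW r1 o (fun ω => ∑ M ∈ Ico M0 (2 * M0), W c M ω) ≤ w * U := by
    intro c hc
    calc K.EW r1 o (fun ω => ∑ M ∈ Ico M0 (2 * M0), W c M ω)
        ≤ K.EW r1 o (fun ω => w * ∑ M ∈ range Mx, |K.fM o T (M + 1) ω - K.fM o T M ω|) := by
          apply K.EW_mono
          intro ω _
          exact aux_window_sum (fun M => K.fM o T M ω) w c M0 Mx hw (by omega)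
      _ = w * K.EW r1 o (fun ω => ∑ M ∈ range Mx, |K.fM o T (M + 1) ω - K.fM o T M ω|) :=
          K.EW_mul_left _ _ _ _
      _ ≤ w * U := mul_le_mul_of_nonneg_left hU hw0.le
  have hpt : ∀ (M : ℕ) (ω : List V), |(1 / ((1 : ℕ) : ℝ)) * ∑ i ∈ range 1,
            (K.fM o T (M + 1 + i) ω - K.fM o T (M + 1 + s + i) ω)|
      ≤ A M ω + (W 1 M ω + W (1 + s) M ω) := by
    intro M ω
    simp only [hA, hW]
    have e1 : (1 / ((1 : ℕ) : ℝ)) * ∑ i ∈ range 1,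
            (K.fM o T (M + 1 + i) ω - K.fM o T (M + 1 + s + i) ω)
        = K.fM o T (M + 1) ω - K.fM o T (M + 1 + s) ω := by simp
    rw [e1, Finset.sum_sub_distrib, mul_sub]
    have e2 : M + (1 + s) = M + 1 + s := by ring
    rw [e2]
    set a := K.fM o T (M + 1) ω
    set b := K.fM o T (M + 1 + s) ω
    set a' := (1 / (w : ℝ)) * ∑ i ∈ range w, K.fM o T (M + 1 + i) ω
    set b' := (1 / (w : ℝ)) * ∑ i ∈ range w, K.fM o T (M + 1 + s + i) ω
    have : a - b = (a' - b') + ((a - a') - (b - b')) := by ring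
    rw [this]
    refine le_trans (abs_add_le _ _) ?_
    have := abs_sub (a - a') (b - b')
    linarith
  calc (1 / (M0 : ℝ)) * ∑ M ∈ Ico M0 (2 * M0),
      K.EW r1 o (fun ω => |(1 / ((1 : ℕ) : ℝ)) * ∑ i ∈ range 1,
            (K.fM o T (M + 1 + i) ω - K.fM o T (M + 1 + s + i) ω)|)
      ≤ (1 / (M0 : ℝ)) * ∑ M ∈ Ico M0 (2 * M0),
          K.EW r1 o (fun ω => A M ω + (W 1 M ω + W (1 + s) M ω)) := by
        apply mul_le_mul_of_nonneg_left _ (by positivity)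
        apply Finset.sum_le_sum
        intro M _
        apply K.EW_mono
        intro ω _
        exact hpt M ω
    _ = (1 / (M0 : ℝ)) * ∑ M ∈ Ico M0 (2 * M0), K.EW r1 o (fun ω => A M ω)
        + (1 / (M0 : ℝ)) * (K.EW r1 o (fun ω => ∑ M ∈ Ico M0 (2 * M0), W 1 M ω)
          + K.EW r1 o (fun ω => ∑ M ∈ Ico M0 (2 * M0), W (1 + s) M ω)) := by
        rw [K.EW_sum, K.EW_sum, ← Finset.sum_add_distrib, ← mul_add, ← Finset.sum_add_distrib]
        congr 1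
        apply Finset.sum_congr rfl
        intro M _
        rw [K.EW_add, K.EW_add]
    _ ≤ Ebd Θ T r s w M0 ((1 - 1 / (2 * Θ)) ^ K2 + 8 * κ * r * T)
        + (1 / (M0 : ℝ)) * (2 * w * U) := by
        apply add_le_add hF
        apply mul_le_mul_of_nonneg_left _ (by positivity)
        have h1 := hWb 1 (by omega)
        have h3 := hWb (1 + s) le_rfl
        linarith

end Ker

end HP192
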