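import Mathlib
import Pool.Agent.Helper192_HP.Defs

namespace HP192
open Finset

theorem numcore (Θ b η κ0 εF x L m T T1 κ Q1 C1 Q τ κ' H1 q c1 A1 A2 A4 A5 : ℝ)
    (hΘ : 1 ≤ Θ) (hb : 0 < b) (hη : 0 < η) (hη' : η ≤ 1 / 20) (hκ0 : 0 < κ0) (hκ1 : κ0 ≤ 1)
    (hεF : 0 < εF) (hx : 8 ≤ x) (hηx : 2 ≤ η * x)
    (hT : η * x / 2 ≤ T) (hT' : T ≤ η * x) (hT1 : x / 8 ≤ T1) (hT1' : T1 ≤ x / 4)
    (hm : 0 ≤ m) (hm' : m ≤ 5 * κ0 * T) (hL : 0 ≤ L) (hL' : L ≤ b * x)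
    (eκ : κ = 3 / (2 * x ^ 2))
    (eQ1 : Q1 = Θ + κ * (L + m) * (T1 + 1)) (eC1 : C1 = Θ + Θ * Q1)
    (eQ : Q = Θ + κ * m * (T + 1))
    (eτ : τ = 2 * Θ ^ 2 * m / T * (Θ + Θ * Q))
    (eκ' : κ' = 2 * Θ ^ 2 * m / T * (Θ * Q) + Θ * κ * m * (2 * T + 1))
    (eH1 : H1 = C1 * (1 + x ^ 2 / T1))
    (eq : q = Θ + 2) (ec1 : c1 = Θ + Θ * (Θ + 2 * (b + 1))) (eA1 : A1 = 10 * Θ ^ 2 * (Θ + Θ * q))
    (eA2 : A2 = 10 * Θ ^ 3 * q + 23 * Θ) (eA4 : A4 = 9 * Θ ^ 2 * (b + 1))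
    (eA5 : A5 = 18 * c1 ^ 2 * (b + 9)) :
    (2 * H1) * (2 * (m * (Θ + τ) + κ' * (x ^ 2 / T)))
        + (εF + 6 * Θ ^ 2 * κ * (L + m) * T + τ)
            * (2 * (H1 * (C1 * (L + 1 + x ^ 2 / T1))))
        + κ' * (x ^ 2 / T) * (2 * H1) ≤
      (κ0 * (36 * c1 * (5 * η * (Θ + A1) + 2 * A2 / η)) + (εF + A4 * η + A1 * κ0) * A5
        + 36 * c1 * A2 * κ0 / η) * x ^ 2 := by
  have hx0 : 0 < x := by linarith
  have hΘ0 : 0 < Θ := by linarith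
  have hT0 : 0 < T := by linarith
  have hT10 : 0 < T1 := by linarith
  have hκp : 0 < κ := by rw [eκ]; positivity
  have hκx : κ * x ^ 2 = 3 / 2 := by rw [eκ]; field_simp
  have hq0 : 0 < q := by rw [eq]; linarith
  have hc10 : 0 < c1 := by rw [ec1]; positivity
  have hA10 : 0 < A1 := by rw [eA1]; positivity
  have hA20 : 0 < A2 := by rw [eA2]; positivity
  have hA40 : 0 < A4 := by rw [eA4]; positivity
  have hA50 : 0 < A5 := by rw [eA5]; positivity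
  -- basic bounds
  have hTx : T ≤ x / 20 := by
    have := mul_le_mul_of_nonneg_right hη' hx0.le
    linarith
  have hmx : m ≤ x / 4 := by
    have : 5 * κ0 * T ≤ 5 * 1 * (x / 20) := by gcongr
    linarith
  have hmη : m ≤ 5 * κ0 * (η * x) := by
    have : 5 * κ0 * T ≤ 5 * κ0 * (η * x) := by gcongr
    linarith
  have hT1x : T1 + 1 ≤ x := by linarith
  have hTx1 : T + 1 ≤ x := by linarith
  have hQ10 : 0 ≤ Q1 := by rw [eQ1]; positivity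
  have hC10 : 0 < C1 := by rw [eC1]; positivity
  have hQ0 : 0 < Q := by rw [eQ]; positivity
  have hτ0 : 0 ≤ τ := by rw [eτ]; positivity
  have hκ'0 : 0 ≤ κ' := by rw [eκ']; positivity
  have hH10 : 0 < H1 := by rw [eH1]; positivity
  have hQ1 : Q1 ≤ Θ + 2 * (b + 1) := by
    rw [eQ1]
    have h1 : κ * (L + m) * (T1 + 1) ≤ κ * (b * x + x) * x := by
      gcongr
      linarith
    have h2 : κ * (b * x + x) * x = 3 / 2 * (b + 1) := by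
      have : κ * (b * x + x) * x = (κ * x ^ 2) * (b + 1) := by ring
      rw [this, hκx]
    linarith
  have hC1 : C1 ≤ c1 := by
    rw [eC1, ec1]; gcongr
  have hQ : Q ≤ q := by
    rw [eQ, eq]
    have h1 : κ * m * (T + 1) ≤ κ * x * x := by
      gcongr
      linarith
    have h2 : κ * x * x = 3 / 2 := by
      rw [← hκx]; ring
    linarith
  have hmT : m / T ≤ 5 * κ0 := by
    rw [div_le_iff₀ hT0]; exact hm'
  have hτ : τ ≤ A1 * κ0 := by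
    rw [eτ, eA1]
    have h1 : 2 * Θ ^ 2 * m / T * (Θ + Θ * Q) = 2 * Θ ^ 2 * (m / T) * (Θ + Θ * Q) := by ring
    rw [h1]
    calc 2 * Θ ^ 2 * (m / T) * (Θ + Θ * Q) ≤ 2 * Θ ^ 2 * (5 * κ0) * (Θ + Θ * q) := by gcongr
      _ = 10 * Θ ^ 2 * (Θ + Θ * q) * κ0 := by ring
  have hτ1 : τ ≤ A1 := le_trans hτ (by simpa using mul_le_mul_of_nonneg_left hκ1 hA10.le)
  have hκ' : κ' ≤ A2 * κ0 := by
    rw [eκ', eA2]
    have h1 : 2 * Θ ^ 2 * m / T * (Θ * Q) = 2 * Θ ^ 2 * (m / T) * (Θ * Q) := by ring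
    have h2 : 2 * Θ ^ 2 * (m / T) * (Θ * Q) ≤ 2 * Θ ^ 2 * (5 * κ0) * (Θ * q) := by gcongr
    have h3 : Θ * κ * m * (2 * T + 1) ≤ Θ * κ * (5 * κ0 * (η * x)) * (3 * (η * x)) := by
      gcongr
      linarith
    have h4 : Θ * κ * (5 * κ0 * (η * x)) * (3 * (η * x)) = 15 * Θ * κ0 * η ^ 2 * (κ * x ^ 2) := by ring
    have h5 : η ^ 2 ≤ 1 := pow_le_one₀ hη.le (by linarith)
    have h6 : 15 * Θ * κ0 * η ^ 2 * (κ * x ^ 2) ≤ 15 * Θ * κ0 * 1 * (3 / 2) := by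
      rw [hκx]; gcongr
    have h7 : 0 < Θ * κ0 := by positivity
    rw [h1]
    have h8 : 2 * Θ ^ 2 * (5 * κ0) * (Θ * q) = 10 * Θ ^ 3 * q * κ0 := by ring
    have h9 : (10 * Θ ^ 3 * q + 23 * Θ) * κ0 = 10 * Θ ^ 3 * q * κ0 + 23 * (Θ * κ0) := by ring
    have h10 : 15 * Θ * κ0 * 1 * (3 / 2) = 45 / 2 * (Θ * κ0) := by ring
    linarith
  have hnT1 : x ^ 2 / T1 ≤ 8 * x := by
    rw [div_le_iff₀ hT10]
    calc x ^ 2 = x * x := by ring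
      _ ≤ x * (8 * T1) := mul_le_mul_of_nonneg_left (by linarith) hx0.le
      _ = 8 * x * T1 := by ring
  have hnT : x ^ 2 / T ≤ 2 * x / η := by
    rw [div_le_div_iff₀ hT0 hη]
    calc x ^ 2 * η = x * (η * x) := by ring
      _ ≤ x * (2 * T) := mul_le_mul_of_nonneg_left (by linarith) hx0.le
      _ = 2 * x * T := by ring
  have hnT0 : 0 ≤ x ^ 2 / T := by positivity
  have hnT10 : 0 ≤ x ^ 2 / T1 := by positivity
  have hH1 : H1 ≤ 9 * c1 * x := by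
    rw [eH1]
    calc C1 * (1 + x ^ 2 / T1) ≤ c1 * (1 + 8 * x) := by gcongr
      _ ≤ c1 * (x + 8 * x) := by gcongr; linarith
      _ = 9 * c1 * x := by ring
  -- term 1
  have t1 : (2 * H1) * (2 * (m * (Θ + τ) + κ' * (x ^ 2 / T))) ≤
      κ0 * (36 * c1 * (5 * η * (Θ + A1) + 2 * A2 / η)) * x ^ 2 := by
    calc (2 * H1) * (2 * (m * (Θ + τ) + κ' * (x ^ 2 / T)))
        ≤ (2 * (9 * c1 * x)) * (2 * ((5 * κ0 * (η * x)) * (Θ + A1) + (A2 * κ0) * (2 * x / η))) := by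
          gcongr
      _ = _ := by field_simp; ring
  have t3 : κ' * (x ^ 2 / T) * (2 * H1) ≤ 36 * c1 * A2 * κ0 / η * x ^ 2 := by
    calc κ' * (x ^ 2 / T) * (2 * H1) ≤ (A2 * κ0) * (2 * x / η) * (2 * (9 * c1 * x)) := by gcongr
      _ = _ := by field_simp; ring
  have t2a : 6 * Θ ^ 2 * κ * (L + m) * T ≤ A4 * η := by
    calc 6 * Θ ^ 2 * κ * (L + m) * T ≤ 6 * Θ ^ 2 * κ * (b * x + x) * (η * x) := by
          gcongr
          linarith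
      _ = 6 * Θ ^ 2 * (κ * x ^ 2) * (b + 1) * η := by ring
      _ = A4 * η := by rw [hκx, eA4]; ring
  have t2b : 2 * (H1 * (C1 * (L + 1 + x ^ 2 / T1))) ≤ A5 * x ^ 2 := by
    calc 2 * (H1 * (C1 * (L + 1 + x ^ 2 / T1))) ≤
        2 * ((9 * c1 * x) * (c1 * (b * x + 1 * x + 8 * x))) := by
          gcongr
          linarith
      _ = A5 * x ^ 2 := by rw [eA5]; ring
  have t2 : (εF + 6 * Θ ^ 2 * κ * (L + m) * T + τ)
            * (2 * (H1 * (C1 * (L + 1 + x ^ 2 / T1)))) ≤ (εF + A4 * η + A1 * κ0) * A5 * x ^ 2 := by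
    calc (εF + 6 * Θ ^ 2 * κ * (L + m) * T + τ) * (2 * (H1 * (C1 * (L + 1 + x ^ 2 / T1))))
        ≤ (εF + A4 * η + A1 * κ0) * (A5 * x ^ 2) := by
          gcongr
      _ = _ := by ring
  calc _ ≤ κ0 * (36 * c1 * (5 * η * (Θ + A1) + 2 * A2 / η)) * x ^ 2 +
        (εF + A4 * η + A1 * κ0) * A5 * x ^ 2 + 36 * c1 * A2 * κ0 / η * x ^ 2 := by linarith
    _ = _ := by ring

/-- TARGET -/
theorem num (Θ a b ε : ℝ) (hΘ : 1 ≤ Θ) (ha : 0 < a) (hb : 0 < b) (hε : 0 < ε) :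
    ∃ η κ0 εF : ℝ, 0 < η ∧ η ≤ 1 / 20 ∧ 0 < κ0 ∧ κ0 ≤ 1 ∧ 0 < εF ∧ 2 * κ0 * η ≤ a ∧
    ∀ᶠ n : ℕ in Filter.atTop, ∀ (l s w M0 m1 T T1 : ℕ) (κ Q1 C1 Q τ κ' H1 : ℝ),
      T = ⌊η * Real.sqrt n⌋₊ → T1 = ⌊Real.sqrt n / 4⌋₊ → M0 = ⌊κ0 * T⌋₊ → κ = 3 / (2 * (n : ℝ)) →
      m1 = 2 * M0 + s + w → s ≤ M0 → w ≤ M0 → (l : ℝ) ≤ b * Real.sqrt n →
      Q1 = Θ + κ * ((l : ℝ) + m1 + 1) * ((T1 : ℝ) + 1) → C1 = Θ + Θ * Q1 →
      Q = Θ + κ * ((m1 : ℝ) + 1) * ((T : ℝ) + 1) →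
      τ = 2 * Θ ^ 2 * ((m1 : ℝ) + 1) / T * (Θ + Θ * Q) →
      κ' = 2 * Θ ^ 2 * ((m1 : ℝ) + 1) / T * (Θ * Q) + Θ * κ * ((m1 : ℝ) + 1) * (2 * (T : ℝ) + 1) →
      H1 = C1 * (1 + (n : ℝ) / T1) →
      (2 * H1) * (2 * (((m1 : ℝ) + 1) * (Θ + τ) + κ' * ((n : ℝ) / T)))
        + (εF + 6 * Θ ^ 2 * κ * ((l : ℝ) + m1 + 1) * T + τ)
            * (2 * (H1 * (C1 * ((l : ℝ) + 1 + (n : ℝ) / T1))))
        + κ' * ((n : ℝ) / T) * (2 * H1) ≤ ε * n := by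
  have hΘ0 : 0 < Θ := by linarith
  obtain ⟨q, eq⟩ : ∃ q : ℝ, q = Θ + 2 := ⟨_, rfl⟩
  have hq0 : 0 < q := by rw [eq]; linarith
  obtain ⟨c1, ec1⟩ : ∃ c1 : ℝ, c1 = Θ + Θ * (Θ + 2 * (b + 1)) := ⟨_, rfl⟩
  have hc10 : 0 < c1 := by rw [ec1]; positivity
  obtain ⟨A1, eA1⟩ : ∃ A1 : ℝ, A1 = 10 * Θ ^ 2 * (Θ + Θ * q) := ⟨_, rfl⟩
  have hA10 : 0 < A1 := by rw [eA1]; positivity
  obtain ⟨A2, eA2⟩ : ∃ A2 : ℝ, A2 = 10 * Θ ^ 3 * q + 23 * Θ := ⟨_, rfl⟩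
  have hA20 : 0 < A2 := by rw [eA2]; positivity
  obtain ⟨A4, eA4⟩ : ∃ A4 : ℝ, A4 = 9 * Θ ^ 2 * (b + 1) := ⟨_, rfl⟩
  have hA40 : 0 < A4 := by rw [eA4]; positivity
  obtain ⟨A5, eA5⟩ : ∃ A5 : ℝ, A5 = 18 * c1 ^ 2 * (b + 9) := ⟨_, rfl⟩
  have hA50 : 0 < A5 := by rw [eA5]; positivity
  obtain ⟨η, eη⟩ : ∃ η : ℝ, η = min (1 / 20) (ε / (8 * A4 * A5)) := ⟨_, rfl⟩
  have hη : 0 < η := by rw [eη]; positivity
  have hη' : η ≤ 1 / 20 := by rw [eη]; exact min_le_left _ _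
  have hη2 : A4 * η * A5 ≤ ε / 8 := by
    have h : η ≤ ε / (8 * A4 * A5) := by rw [eη]; exact min_le_right _ _
    rw [le_div_iff₀ (by positivity)] at h
    linarith
  obtain ⟨K, eK⟩ : ∃ K : ℝ, K = 36 * c1 * (5 * η * (Θ + A1) + 2 * A2 / η) + A1 * A5
      + 36 * c1 * A2 / η := ⟨_, rfl⟩
  have hK0 : 0 < K := by rw [eK]; positivity
  obtain ⟨κ0, eκ0⟩ : ∃ κ0 : ℝ, κ0 = min 1 (min (a / (2 * η)) (ε / (8 * K))) := ⟨_, rfl⟩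
  have hκ0 : 0 < κ0 := by rw [eκ0]; positivity
  have hκ1 : κ0 ≤ 1 := by rw [eκ0]; exact min_le_left _ _
  have hκa : 2 * κ0 * η ≤ a := by
    have h : κ0 ≤ a / (2 * η) := by
      rw [eκ0]; exact (min_le_right _ _).trans (min_le_left _ _)
    rw [le_div_iff₀ (by positivity)] at h
    linarith
  have hκK : κ0 * K ≤ ε / 8 := by
    have h : κ0 ≤ ε / (8 * K) := by
      rw [eκ0]; exact (min_le_right _ _).trans (min_le_right _ _)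
    rw [le_div_iff₀ (by positivity)] at h
    linarith
  refine ⟨η, κ0, ε / (8 * A5), hη, hη', hκ0, hκ1, by positivity, hκa, ?_⟩
  have hev : ∀ᶠ n : ℕ in Filter.atTop, max 8 (max (2 / η) (2 / (κ0 * η))) ≤ Real.sqrt n :=
    (Real.tendsto_sqrt_atTop.comp tendsto_natCast_atTop_atTop).eventually_ge_atTop _
  filter_upwards [hev] with n hn l s w M0 m1 T T1 κ Q1 C1 Q τ κ' H1 eT eT1 eM0 eκ em1 hs hw hl
    eQ1 eC1 eQ eτ eκ' eH1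
  obtain ⟨x, ex⟩ : ∃ x : ℝ, x = Real.sqrt n := ⟨_, rfl⟩
  rw [← ex] at hn eT eT1 hl
  have hx8 : 8 ≤ x := le_trans (le_max_left _ _) hn
  have hx2 : 2 / η ≤ x := le_trans (le_trans (le_max_left _ _) (le_max_right _ _)) hn
  have hx3 : 2 / (κ0 * η) ≤ x := le_trans (le_trans (le_max_right _ _) (le_max_right _ _)) hn
  have hxn : (n : ℝ) = x ^ 2 := by rw [ex, Real.sq_sqrt (Nat.cast_nonneg n)]
  have hx0 : 0 < x := by linarith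
  have hηx : 2 ≤ η * x := by
    rw [div_le_iff₀ hη] at hx2; linarith
  have hκηx : 2 ≤ κ0 * (η * x) := by
    rw [div_le_iff₀ (by positivity)] at hx3; linarith
  have hT' : (T : ℝ) ≤ η * x := by rw [eT]; exact Nat.floor_le (by positivity)
  have hT : η * x / 2 ≤ (T : ℝ) := by
    have := Nat.lt_floor_add_one (η * x)
    rw [← eT] at this
    linarith
  have hT1' : (T1 : ℝ) ≤ x / 4 := by rw [eT1]; exact Nat.floor_le (by positivity)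
  have hT1 : x / 8 ≤ (T1 : ℝ) := by
    have := Nat.lt_floor_add_one (x / 4)
    rw [← eT1] at this
    linarith
  have hM0 : (M0 : ℝ) ≤ κ0 * T := by rw [eM0]; exact Nat.floor_le (by positivity)
  have hκT : 1 ≤ κ0 * (T : ℝ) := by
    have := mul_le_mul_of_nonneg_left hT hκ0.le
    linarith
  have hm1 : (m1 : ℝ) + 1 ≤ 5 * κ0 * T := by
    have h1 : m1 ≤ 4 * M0 := by omega
    have h2 : (m1 : ℝ) ≤ 4 * M0 := by exact_mod_cast h1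
    linarith
  have hm0 : (0 : ℝ) ≤ (m1 : ℝ) + 1 := by positivity
  have key := numcore Θ b η κ0 (ε / (8 * A5)) x l ((m1 : ℝ) + 1) T T1 κ Q1 C1 Q τ κ' H1 q c1 A1 A2
    A4 A5 hΘ hb hη hη' hκ0 hκ1 (by positivity) hx8 hηx hT hT' hT1 hT1' hm0 hm1
    (Nat.cast_nonneg l) hl (by rw [eκ, hxn]) (by rw [eQ1]; ring) eC1 eQ eτ eκ'
    (by rw [eH1, hxn]) eq ec1 eA1 eA2 eA4 eA5
  have hcoef : κ0 * (36 * c1 * (5 * η * (Θ + A1) + 2 * A2 / η)) + (ε / (8 * A5) + A4 * η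
      + A1 * κ0) * A5 + 36 * c1 * A2 * κ0 / η ≤ ε := by
    have h1 : κ0 * (36 * c1 * (5 * η * (Θ + A1) + 2 * A2 / η)) + (ε / (8 * A5) + A4 * η
      + A1 * κ0) * A5 + 36 * c1 * A2 * κ0 / η = κ0 * K + ε / 8 + A4 * η * A5 := by
      rw [eK]; field_simp; ring
    rw [h1]; linarith
  have hfin := mul_le_mul_of_nonneg_right hcoef (sq_nonneg x)
  rw [hxn]
  refine le_trans (le_of_eq ?_) (le_trans key hfin)
  ring

end HP192
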