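import Mathlib
import Pool.Agent.Helper192_HP.Defs
import Pool.Agent.Helper192_HP.EbdDef

namespace HP192
open Finset

theorem numF_aux (Θ c a0 κ0 η ε1 δ Wr x T M0 r s w pb e3 : ℝ) (hΘ : 1 ≤ Θ) (hc : 0 < c)
    (ha0 : 0 < a0) (hκ0 : 0 < κ0) (hη : 0 < η) (hε1 : 0 < ε1) (hδ : 0 < δ) (hWr : 0 < Wr)
    (hx : 0 < x) (hT0 : 0 ≤ T) (hT : T ≤ η * x) (hM0 : κ0 * η * x / 4 ≤ M0) (hr : ε1 * x / 2 ≤ r)
    (hr' : r ≤ ε1 * x) (hs0 : 0 ≤ s) (hs : s ≤ δ * x) (hw : Wr ≤ w)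
    (h1 : 4 / κ0 * Θ ^ 2 * (2 * δ / ε1) ^ 2 ≤ e3)
    (h2 : 16 / c ^ 2 * (12 * (4 * ε1 / (κ0 * η)) * Θ ^ 2) ≤ e3 / 2)
    (h3 : 16 / c ^ 2 * (16 * (4 / κ0) * Θ ^ 2 * Real.sqrt pb) ≤ e3 / 2)
    (h4 : 4 / κ0 * (4 * Real.pi ^ 2 * Θ ^ 2 / (Wr * a0) ^ 2) ≤ e3) :
    (1 / M0) * (T * Θ ^ 2 * (s / r) ^ 2
        + 16 / c ^ 2 * (12 * r * Θ ^ 2 + 16 * T * Θ ^ 2 * Real.sqrt pb)
        + 4 * Real.pi ^ 2 * T * Θ ^ 2 / (w * a0) ^ 2) ≤ 3 * e3 := by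
  have hM0p : 0 < M0 := lt_of_lt_of_le (by positivity) hM0
  have hrp : 0 < r := lt_of_lt_of_le (by positivity) hr
  have hwp : 0 < w := lt_of_lt_of_le hWr hw
  have hTM : T / M0 ≤ 4 / κ0 := by
    rw [div_le_div_iff₀ hM0p hκ0]
    nlinarith
  have hrM : r / M0 ≤ 4 * ε1 / (κ0 * η) := by
    rw [div_le_div_iff₀ hM0p (by positivity)]
    have e1 : r * (κ0 * η) ≤ ε1 * x * (κ0 * η) := by gcongr
    have e2 : 4 * ε1 * (κ0 * η * x / 4) ≤ 4 * ε1 * M0 := by gcongr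
    nlinarith
  have hsr : s / r ≤ 2 * δ / ε1 := by
    rw [div_le_div_iff₀ hrp hε1]
    have e1 : s * ε1 ≤ δ * x * ε1 := by gcongr
    have e2 : 2 * δ * (ε1 * x / 2) ≤ 2 * δ * r := by gcongr
    nlinarith
  have hTM0 : 0 ≤ T / M0 := by positivity
  have key : (1 / M0) * (T * Θ ^ 2 * (s / r) ^ 2
        + 16 / c ^ 2 * (12 * r * Θ ^ 2 + 16 * T * Θ ^ 2 * Real.sqrt pb)
        + 4 * Real.pi ^ 2 * T * Θ ^ 2 / (w * a0) ^ 2) =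
      (T / M0) * Θ ^ 2 * (s / r) ^ 2 + 16 / c ^ 2 * (12 * (r / M0) * Θ ^ 2)
        + 16 / c ^ 2 * (16 * (T / M0) * Θ ^ 2 * Real.sqrt pb)
        + (T / M0) * (4 * Real.pi ^ 2 * Θ ^ 2 / (w * a0) ^ 2) := by
    ring
  rw [key]
  have g1 : (T / M0) * Θ ^ 2 * (s / r) ^ 2 ≤ 4 / κ0 * Θ ^ 2 * (2 * δ / ε1) ^ 2 := by
    gcongr
  have g2 : 16 / c ^ 2 * (12 * (r / M0) * Θ ^ 2) ≤
      16 / c ^ 2 * (12 * (4 * ε1 / (κ0 * η)) * Θ ^ 2) := by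
    gcongr
  have g3 : 16 / c ^ 2 * (16 * (T / M0) * Θ ^ 2 * Real.sqrt pb) ≤
      16 / c ^ 2 * (16 * (4 / κ0) * Θ ^ 2 * Real.sqrt pb) := by
    gcongr
  have g4 : (T / M0) * (4 * Real.pi ^ 2 * Θ ^ 2 / (w * a0) ^ 2) ≤
      4 / κ0 * (4 * Real.pi ^ 2 * Θ ^ 2 / (Wr * a0) ^ 2) := by
    gcongr
  linarith

theorem numF_e1 (B κ0 e3 : ℝ) (hB : 0 < B) (hκ0 : 0 < κ0) :
    B * 64 / κ0 * (e3 * κ0 / (128 * B)) = e3 / 2 := by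
  field_simp; ring

theorem numF_e2 (B κ0 η e3 : ℝ) (hB : 0 < B) (hκ0 : 0 < κ0) (hη : 0 < η) :
    B * 48 / (κ0 * η) * (e3 * κ0 * η / (96 * B)) = e3 / 2 := by
  field_simp; ring

theorem numF_e3 (Θ κ0 e3 : ℝ) (hΘ : 0 < Θ) (hκ0 : 0 < κ0) :
    4 / κ0 * Θ ^ 2 * (e3 * κ0 / (4 * Θ ^ 2)) = e3 := by
  field_simp

theorem numF_e4 (κ0 p Θ W a0 : ℝ) (hκ0 : 0 < κ0) (ha0 : 0 < a0) (hW : 0 < W) :
    4 / κ0 * (4 * p ^ 2 * Θ ^ 2 / (W * a0) ^ 2) =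
      4 / κ0 * (4 * p ^ 2 * Θ ^ 2 / a0 ^ 2) / W ^ 2 := by
  field_simp

theorem numF_e5 (n a b : ℝ) (hn : 0 < n) : 8 * (3 / (2 * n)) * a * b * n = 12 * a * b := by
  field_simp; ring

set_option maxHeartbeats 4000000 in
/-- TARGET -/
theorem numF (Θ η κ0 εF : ℝ) (hΘ : 1 ≤ Θ) (hη : 0 < η) (hη' : η ≤ 1 / 20) (hκ0 : 0 < κ0)
    (hκ0' : κ0 ≤ 1) (hεF : 0 < εF) :
    ∃ (ε1 δ : ℝ) (K2 W : ℕ), 0 < ε1 ∧ ε1 ≤ 1 / 40 ∧ ε1 ≤ η * κ0 / 8 ∧ 0 < δ ∧ δ ≤ η * κ0 / 4 ∧ 1 ≤ K2 ∧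
      1 ≤ W ∧ ∀ᶠ n : ℕ in Filter.atTop, ∀ (s w M0 T r : ℕ), T = ⌊η * Real.sqrt n⌋₊ →
      M0 = ⌊κ0 * T⌋₊ → r = ⌊ε1 * Real.sqrt n⌋₊ → (s : ℝ) ≤ δ * Real.sqrt n → W ≤ w →
      Ker.Ebd Θ T r s w M0 ((1 - 1 / (2 * Θ)) ^ K2 + 8 * (3 / (2 * (n : ℝ))) * r * T) ≤ εF := by
  have hΘp : 0 < Θ := by linarith
  obtain ⟨a0, ha0d⟩ : ∃ a0 : ℝ, a0 = 1 / (36 * Θ ^ 3) := ⟨_, rfl⟩
  have ha0 : 0 < a0 := by rw [ha0d]; positivity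
  have ha0' : a0 < Real.pi := by
    have h1 : (1 : ℝ) ≤ Θ ^ 3 := one_le_pow₀ hΘ
    have h2 : a0 ≤ 1 := by
      rw [ha0d, div_le_one (by positivity)]
      linarith
    have := Real.pi_gt_three
    linarith
  obtain ⟨c, hcd⟩ : ∃ c : ℝ, c = (1 - Real.cos a0) / (4 * Θ) := ⟨_, rfl⟩
  have hcos : Real.cos a0 < 1 := by
    have := Real.cos_lt_cos_of_nonneg_of_le_pi le_rfl ha0'.le ha0
    rwa [Real.cos_zero] at this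
  have hc : 0 < c := by
    rw [hcd]
    apply div_pos (by linarith) (by positivity)
  obtain ⟨e3, he3d⟩ : ∃ e3 : ℝ, e3 = εF ^ 2 / 3 := ⟨_, rfl⟩
  have he3 : 0 < e3 := by rw [he3d]; positivity
  obtain ⟨B, hBd⟩ : ∃ B : ℝ, B = 16 / c ^ 2 * Θ ^ 2 := ⟨_, rfl⟩
  have hB : 0 < B := by rw [hBd]; positivity
  obtain ⟨ρ, hρd⟩ : ∃ ρ : ℝ, ρ = e3 * κ0 / (128 * B) := ⟨_, rfl⟩
  have hρ : 0 < ρ := by rw [hρd]; positivity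
  -- choice of K2
  have hb0 : 0 ≤ 1 - 1 / (2 * Θ) := by
    have : 1 / (2 * Θ) ≤ 1 := by
      rw [div_le_one (by positivity)]; linarith
    linarith
  have hb1 : 1 - 1 / (2 * Θ) < 1 := by
    have : 0 < 1 / (2 * Θ) := by positivity
    linarith
  obtain ⟨K, hK⟩ := exists_pow_lt_of_lt_one (show 0 < ρ ^ 2 / 2 by positivity) hb1
  -- choice of ε1
  obtain ⟨ε1, hε1, hε1a, hε1b, hε1c, hε1d⟩ : ∃ ε1 : ℝ, 0 < ε1 ∧ ε1 ≤ 1 / 40 ∧ ε1 ≤ η * κ0 / 8 ∧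
      ε1 ≤ e3 * κ0 * η / (96 * B) ∧ ε1 ≤ ρ ^ 2 / (24 * η) := by
    refine ⟨min (min (1 / 40) (η * κ0 / 8)) (min (e3 * κ0 * η / (96 * B)) (ρ ^ 2 / (24 * η))),
      ?_, ?_, ?_, ?_, ?_⟩
    · refine lt_min (lt_min (by norm_num) (by positivity)) (lt_min (by positivity) (by positivity))
    · exact (min_le_left _ _).trans (min_le_left _ _)
    · exact (min_le_left _ _).trans (min_le_right _ _)
    · exact (min_le_right _ _).trans (min_le_left _ _)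
    · exact (min_le_right _ _).trans (min_le_right _ _)
  -- choice of W
  obtain ⟨W0, hW0⟩ := exists_nat_ge (4 / κ0 * (4 * Real.pi ^ 2 * Θ ^ 2 / a0 ^ 2) / e3)
  -- choice of δ
  obtain ⟨σ, hσd⟩ : ∃ σ : ℝ, σ = Real.sqrt (e3 * κ0 / (4 * Θ ^ 2)) := ⟨_, rfl⟩
  have hσ : 0 < σ := by rw [hσd]; exact Real.sqrt_pos.mpr (by positivity)
  have hσ2 : σ ^ 2 = e3 * κ0 / (4 * Θ ^ 2) := by rw [hσd]; exact Real.sq_sqrt (by positivity)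
  obtain ⟨δ, hδ, hδa, hδb⟩ : ∃ δ : ℝ, 0 < δ ∧ δ ≤ η * κ0 / 4 ∧ δ ≤ ε1 * σ / 2 := by
    refine ⟨min (η * κ0 / 4) (ε1 * σ / 2), lt_min (by positivity) (by positivity),
      min_le_left _ _, min_le_right _ _⟩
  refine ⟨ε1, δ, K + 1, W0 + 1, hε1, hε1a, hε1b, hδ, hδa, by omega, by omega, ?_⟩
  have hlim : Filter.Tendsto (fun n : ℕ => Real.sqrt (n : ℝ)) Filter.atTop Filter.atTop :=
    Real.tendsto_sqrt_atTop.comp tendsto_natCast_atTop_atTop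
  filter_upwards [hlim.eventually_ge_atTop (2 / η), hlim.eventually_ge_atTop (4 / (κ0 * η)),
    hlim.eventually_ge_atTop (2 / ε1), Filter.eventually_ge_atTop 1] with n hn1 hn2 hn3 hn4
  intro s w M0 T r hT hM0 hr hs hw
  obtain ⟨x, hxd⟩ : ∃ x : ℝ, x = Real.sqrt (n : ℝ) := ⟨_, rfl⟩
  rw [← hxd] at hn1 hn2 hn3 hT hr hs
  have hnp : (0 : ℝ) < n := by exact_mod_cast hn4
  have hxp : 0 < x := by rw [hxd]; exact Real.sqrt_pos.mpr hnp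
  have hx2 : x ^ 2 = n := by rw [hxd]; exact Real.sq_sqrt hnp.le
  have hn1' : 2 ≤ η * x := by
    rw [div_le_iff₀ hη] at hn1; linarith
  have hn2' : 4 ≤ κ0 * η * x := by
    rw [div_le_iff₀ (by positivity)] at hn2; linarith
  have hn3' : 2 ≤ ε1 * x := by
    rw [div_le_iff₀ hε1] at hn3; linarith
  have hTu : (T : ℝ) ≤ η * x := by rw [hT]; exact Nat.floor_le (by positivity)
  have hTl : η * x / 2 ≤ (T : ℝ) := by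
    have := Nat.sub_one_lt_floor (η * x)
    rw [← hT] at this
    linarith
  have hM0l : κ0 * η * x / 4 ≤ (M0 : ℝ) := by
    have h1 := Nat.sub_one_lt_floor (κ0 * (T : ℝ))
    rw [← hM0] at h1
    have h2 : κ0 * (η * x / 2) ≤ κ0 * T := by gcongr
    nlinarith
  have hru : (r : ℝ) ≤ ε1 * x := by rw [hr]; exact Nat.floor_le (by positivity)
  have hrl : ε1 * x / 2 ≤ (r : ℝ) := by
    have := Nat.sub_one_lt_floor (ε1 * x)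
    rw [← hr] at this
    linarith
  have hWr : (0 : ℝ) < (W0 : ℝ) + 1 := by positivity
  have hw' : (W0 : ℝ) + 1 ≤ (w : ℝ) := by exact_mod_cast hw
  obtain ⟨pb, hpbd⟩ : ∃ pb : ℝ,
      pb = (1 - 1 / (2 * Θ)) ^ (K + 1) + 8 * (3 / (2 * (n : ℝ))) * r * T := ⟨_, rfl⟩
  have hpb : pb ≤ ρ ^ 2 := by
    have h1 : (1 - 1 / (2 * Θ)) ^ (K + 1) ≤ ρ ^ 2 / 2 := by
      have : (1 - 1 / (2 * Θ)) ^ (K + 1) ≤ (1 - 1 / (2 * Θ)) ^ K :=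
        pow_le_pow_of_le_one hb0 hb1.le (by omega)
      linarith
    have h2 : 8 * (3 / (2 * (n : ℝ))) * r * T ≤ 12 * ε1 * η := by
      have h3 : 8 * (3 / (2 * (n : ℝ))) * r * T ≤ 8 * (3 / (2 * (n : ℝ))) * (ε1 * x) * (η * x) := by
        gcongr
      have h4 : 8 * (3 / (2 * (n : ℝ))) * (ε1 * x) * (η * x) = 12 * ε1 * η := by
        have : 8 * (3 / (2 * (n : ℝ))) * (ε1 * x) * (η * x) =
          8 * (3 / (2 * (n : ℝ))) * ε1 * η * x ^ 2 := by ring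
        rw [this, hx2]
        exact numF_e5 _ _ _ hnp
      linarith
    have h3 : 12 * ε1 * η ≤ ρ ^ 2 / 2 := by
      rw [le_div_iff₀ (by positivity)] at hε1d
      linarith
    rw [hpbd]
    linarith
  have hspb : Real.sqrt pb ≤ ρ := by
    have := Real.sqrt_le_sqrt hpb
    rwa [Real.sqrt_sq hρ.le] at this
  have main := numF_aux Θ c a0 κ0 η ε1 δ ((W0 : ℝ) + 1) x T M0 r s w pb e3 hΘ hc ha0 hκ0 hη hε1
    hδ hWr hxp (by positivity) hTu hM0l hrl hru (by positivity) hs hw' (by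
      have h1 : 2 * δ / ε1 ≤ σ := by
        rw [div_le_iff₀ hε1]; linarith
      have h2 : 4 / κ0 * Θ ^ 2 * (2 * δ / ε1) ^ 2 ≤ 4 / κ0 * Θ ^ 2 * σ ^ 2 := by gcongr
      rw [hσ2] at h2
      have h3 : 4 / κ0 * Θ ^ 2 * (e3 * κ0 / (4 * Θ ^ 2)) = e3 := numF_e3 Θ κ0 e3 hΘp hκ0
      linarith) (by
      have h1 : 16 / c ^ 2 * (12 * (4 * ε1 / (κ0 * η)) * Θ ^ 2) = B * 48 / (κ0 * η) * ε1 := by
        rw [hBd]; ring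
      rw [h1]
      have h2 : B * 48 / (κ0 * η) * ε1 ≤ B * 48 / (κ0 * η) * (e3 * κ0 * η / (96 * B)) := by gcongr
      have h3 : B * 48 / (κ0 * η) * (e3 * κ0 * η / (96 * B)) = e3 / 2 :=
        numF_e2 B κ0 η e3 hB hκ0 hη
      linarith) (by
      have h1 : 16 / c ^ 2 * (16 * (4 / κ0) * Θ ^ 2 * Real.sqrt pb) =
          B * 64 / κ0 * Real.sqrt pb := by
        rw [hBd]; ring
      rw [h1]
      have h2 : B * 64 / κ0 * Real.sqrt pb ≤ B * 64 / κ0 * ρ := by gcongr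
      have h3 : B * 64 / κ0 * ρ = e3 / 2 := by
        rw [hρd]; exact numF_e1 B κ0 e3 hB hκ0
      linarith) (by
      have h1 : 1 ≤ (W0 : ℝ) + 1 := by
        have : (0 : ℝ) ≤ W0 := Nat.cast_nonneg _
        linarith
      have h2 : (W0 : ℝ) * a0 ^ 2 ≤ (((W0 : ℝ) + 1) * a0) ^ 2 := by
        rw [mul_pow]
        have : (W0 : ℝ) ≤ ((W0 : ℝ) + 1) ^ 2 := by nlinarith
        gcongr
      rw [div_le_iff₀ he3] at hW0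
      have h3 : 4 / κ0 * (4 * Real.pi ^ 2 * Θ ^ 2 / (((W0 : ℝ) + 1) * a0) ^ 2) =
        4 / κ0 * (4 * Real.pi ^ 2 * Θ ^ 2 / a0 ^ 2) / ((W0 : ℝ) + 1) ^ 2 :=
        numF_e4 κ0 Real.pi Θ _ a0 hκ0 ha0 (by positivity)
      rw [h3, div_le_iff₀ (by positivity)]
      have h4 : (W0 : ℝ) * e3 ≤ e3 * ((W0 : ℝ) + 1) ^ 2 := by
        have : (W0 : ℝ) ≤ ((W0 : ℝ) + 1) ^ 2 := by nlinarith
        nlinarith
      linarith)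
  unfold Ker.Ebd
  rw [← hpbd, ← ha0d, ← hcd]
  rw [show εF = Real.sqrt (εF ^ 2) from (Real.sqrt_sq hεF.le).symm]
  apply Real.sqrt_le_sqrt
  have : 3 * e3 = εF ^ 2 := by rw [he3d]; ring
  linarith

end HP192
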