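import Mathlib
import Pool.Agent.Helper192_HP.Defs
import Pool.Agent.Helper192_HP.TDefs
import Pool.Agent.Helper192_HP.FDefs

namespace HP192
open Finset

-- TARGET
section
open MeasureTheory Filter Topology

open Classical in
theorem exists_Ker {V : Type} [Fintype V] [DecidableEq V] (G : SimpleGraph V) (hG : G.Connected)
    (htr : ∀ x y : V, ∃ φ : G ≃g G, φ x = y) (hc : 2 ≤ Fintype.card V) :
    ∃ (K : Ker V) (d : ℕ), 0 < d ∧ (∀ v, (univ.filter (fun w => G.Adj v w)).card = d) ∧
      (∀ x y, x ≠ y → K.P x y = if G.Adj x y then 1 / (2 * (d : ℝ)) else 0) ∧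
      (∀ x, dg G x = d) ∧ ∀ t x y, K.hk t x y = pt G t x y := by
  classical
  -- constant degree
  have hdeg : ∀ x y : V, dg G x = dg G y := by
    intro x y
    obtain ⟨φ, hφ⟩ := htr x y
    unfold dg
    refine Finset.card_bij (fun a _ => φ a) ?_ ?_ ?_
    · intro a ha
      simp only [mem_filter, mem_univ, true_and] at ha ⊢
      rw [← hφ]
      exact φ.map_rel_iff.2 ha
    · intro a _ b _ h
      exact φ.injective h
    · intro b hb
      simp only [mem_filter, mem_univ, true_and] at hb
      refine ⟨φ.symm b, ?_, by simp⟩
      simp only [mem_filter, mem_univ, true_and]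
      have h1 : G.Adj (φ x) (φ (φ.symm b)) := by
        rw [hφ, RelIso.apply_symm_apply]
        exact hb
      exact φ.map_rel_iff.1 h1
  obtain ⟨x0⟩ := hG.nonempty
  set d := dg G x0 with hd
  have hdx : ∀ x, dg G x = d := fun x => hdeg x x0
  have hdpos : 0 < d := by
    have hnt : Nontrivial V := Fintype.one_lt_card_iff_nontrivial.1 (by omega)
    obtain ⟨y, hy⟩ := hG.preconnected.exists_adj_of_nontrivial x0
    rw [hd]
    unfold dg
    exact Finset.card_pos.2 ⟨y, by simpa using hy⟩
  have hdR : (0 : ℝ) < d := by exact_mod_cast hdpos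
  have hP : ∀ x y, lazyStep G x y = if x = y then 1 / 2 else if G.Adj x y then 1 / (2 * (d : ℝ)) else 0 := by
    intro x y
    unfold lazyStep
    rw [hdx x]
  have hrow : ∀ x, ∑ y, lazyStep G x y = 1 := by
    intro x
    have h1 : ∀ y, lazyStep G x y = (if x = y then (1 / 2 : ℝ) else 0) + (if G.Adj x y then 1 / (2 * (d : ℝ)) else 0) := by
      intro y
      rw [hP]
      by_cases hxy : x = y
      · subst hxy
        simp
      · simp [hxy]
    rw [Finset.sum_congr rfl (fun y _ => h1 y), Finset.sum_add_distrib, Finset.sum_ite_eq,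
      ← Finset.sum_filter, Finset.sum_const]
    have h2 : ((univ.filter (fun y => G.Adj x y)).card : ℝ) = d := by
      have := hdx x
      unfold dg at this
      exact_mod_cast this
    rw [nsmul_eq_mul, h2]
    simp only [mem_univ, if_true]
    field_simp
    norm_num
  let K : Ker V :=
    { P := lazyStep G
      nn := by
        intro x y
        rw [hP]
        split_ifs <;> positivity
      row := hrow
      sym := by
        intro x y
        rw [hP, hP]
        by_cases hxy : x = y
        · subst hxy; rfl
        · rw [if_neg hxy, if_neg (Ne.symm hxy)]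
          by_cases h : G.Adj x y
          · rw [if_pos h, if_pos h.symm]
          · rw [if_neg h, if_neg (fun h' => h h'.symm)]
      hold := by
        intro x
        rw [hP]; simp
      tr := by
        intro x y
        obtain ⟨φ, hφ⟩ := htr x y
        refine ⟨φ.toEquiv, hφ, ?_⟩
        intro a b
        rw [hP, hP]
        by_cases hab : a = b
        · subst hab; simp
        · have h1 : ¬ (φ.toEquiv a = φ.toEquiv b) := fun h => hab (φ.toEquiv.injective h)
          rw [if_neg h1, if_neg hab]
          have h2 : G.Adj (φ.toEquiv a) (φ.toEquiv b) ↔ G.Adj a b := φ.map_rel_iff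
          by_cases h : G.Adj a b
          · rw [if_pos h, if_pos (h2.2 h)]
          · rw [if_neg h, if_neg (fun h' => h (h2.1 h'))] }
  refine ⟨K, d, hdpos, ?_, ?_, hdx, ?_⟩
  · intro v
    have := hdx v
    unfold dg at this
    exact this
  · intro x y hxy
    change lazyStep G x y = _
    rw [hP, if_neg hxy]
  · intro t
    induction t with
    | zero =>
      intro x y
      simp [Ker.hk, pt, Matrix.one_apply]
    | succ t ih =>
      intro x y
      have h1 : K.hk (t + 1) x y = ∑ z, lazyStep G x z * K.hk t z y := rfl
      rw [h1]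
      unfold pt
      rw [pow_succ', Matrix.mul_apply]
      refine Finset.sum_congr rfl (fun z _ => ?_)
      rw [ih z y]
      rfl

end

end HP192
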