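import Mathlib
import Pool.Agent.Helper192_HP.Defs
import Pool.Agent.Helper192_HP.W02
import Pool.Agent.Helper192_HP.TDefs
import Pool.Agent.Helper192_HP.FDefs

namespace HP192
open Finset

section Y05
open Filter Topology
variable {V : Type} [Fintype V] [DecidableEq V]

theorem y05_succ (K : Ker V) (t : ℕ) (x y z : V) :
    K.P x z * K.hk t z y ≤ K.hk (t + 1) x y := by
  show _ ≤ ∑ z, K.P x z * K.hk t z y
  exact Finset.single_le_sum (f := fun z => K.P x z * K.hk t z y)
    (fun z _ => mul_nonneg (K.nn x z) (K.hk_nonneg t z y)) (Finset.mem_univ z)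

theorem y05_mono (K : Ker V) (t s : ℕ) (x y : V) (h : 0 < K.hk t x y) :
    0 < K.hk (t + s) x y := by
  induction s with
  | zero => exact h
  | succ s ih =>
    refine lt_of_lt_of_le ?_ (y05_succ K (t + s) x y x)
    rw [K.hold]
    positivity

theorem y05_walk (G : SimpleGraph V) (K : Ker V) (hP : ∀ x y, G.Adj x y → 0 < K.P x y) {x y : V}
    (p : G.Walk x y) : 0 < K.hk p.length x y := by
  induction p with
  | nil =>
    show 0 < if _ then (1 : ℝ) else 0
    simp
  | @cons u v w h p ih =>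
    rw [SimpleGraph.Walk.length_cons]
    exact lt_of_lt_of_le (mul_pos (hP _ _ h) ih) (y05_succ K _ u w v)

theorem y05_doeb [Nonempty V] (a b f : V → ℝ) (c δ : ℝ) (ha : ∀ z, c ≤ a z) (hb : ∀ z, c ≤ b z)
    (ha1 : ∑ z, a z = 1) (hb1 : ∑ z, b z = 1) (hf : ∀ z z', f z - f z' ≤ δ) :
    ∑ z, (a z - b z) * f z ≤ (1 - Fintype.card V * c) * δ := by
  obtain ⟨z0, hz0⟩ := Finite.exists_min f
  have e1 : ∑ z, (a z - c) * f z ≤ (1 - Fintype.card V * c) * (f z0 + δ) := by
    have : (1 - Fintype.card V * c) * (f z0 + δ) = ∑ z, (a z - c) * (f z0 + δ) := by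
      rw [← Finset.sum_mul, Finset.sum_sub_distrib, ha1]
      simp
    rw [this]
    refine Finset.sum_le_sum fun z _ => mul_le_mul_of_nonneg_left ?_ (by linarith [ha z])
    linarith [hf z z0]
  have e2 : (1 - Fintype.card V * c) * f z0 ≤ ∑ z, (b z - c) * f z := by
    have : (1 - Fintype.card V * c) * f z0 = ∑ z, (b z - c) * f z0 := by
      rw [← Finset.sum_mul, Finset.sum_sub_distrib, hb1]
      simp
    rw [this]
    exact Finset.sum_le_sum fun z _ => mul_le_mul_of_nonneg_left (hz0 z) (by linarith [hb z])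
  have e3 : ∑ z, (a z - b z) * f z = ∑ z, (a z - c) * f z - ∑ z, (b z - c) * f z := by
    rw [← Finset.sum_sub_distrib]
    exact Finset.sum_congr rfl fun z _ => by ring
  rw [e3]
  linarith

theorem y05_osc [Nonempty V] (K : Ker V) (N : ℕ) (c : ℝ) (hc : ∀ x y, c ≤ K.hk N x y) (k : ℕ)
    (x x' y : V) : K.hk (k * N) x y - K.hk (k * N) x' y ≤ (1 - Fintype.card V * c) ^ k := by
  induction k generalizing x x' y with
  | zero =>
    rw [Nat.zero_mul, pow_zero]
    show (if x = y then (1 : ℝ) else 0) - (if x' = y then (1 : ℝ) else 0) ≤ 1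
    split_ifs <;> norm_num
  | succ k ih =>
    have h1 : (k + 1) * N = N + k * N := by ring
    rw [h1, K.hk_add, K.hk_add, ← Finset.sum_sub_distrib, pow_succ']
    refine le_trans (le_of_eq ?_) (y05_doeb (K.hk N x) (K.hk N x') (fun z => K.hk (k * N) z y) c
      ((1 - Fintype.card V * c) ^ k) (hc x) (hc x') (K.hk_row N x) (K.hk_row N x')
      (fun z z' => ih z z' y))
    exact Finset.sum_congr rfl fun z _ => by ring

theorem y05_exists [Nonempty V] (G : SimpleGraph V) (hG : G.Connected) (K : Ker V)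
    (hP : ∀ x y, G.Adj x y → 0 < K.P x y) :
    ∃ t, ∀ x y, |(Fintype.card V : ℝ) * K.hk t x y - 1| ≤ 1 / 2 := by
  have h1 : ∀ q : V × V, ∃ t, 0 < K.hk t q.1 q.2 := by
    intro q
    obtain ⟨p⟩ := hG.preconnected q.1 q.2
    exact ⟨p.length, y05_walk G K hP p⟩
  choose T hT using h1
  obtain ⟨N, hN⟩ := Finite.exists_le T
  have hpos : ∀ q : V × V, 0 < K.hk N q.1 q.2 := by
    intro q
    obtain ⟨s, hs⟩ := Nat.exists_eq_add_of_le (hN q)
    rw [hs]
    exact y05_mono K _ _ _ _ (hT q)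
  obtain ⟨q0, hq0⟩ := Finite.exists_min fun q : V × V => K.hk N q.1 q.2
  set c := K.hk N q0.1 q0.2 with hc
  have hc0 : 0 < c := hpos q0
  have hcl : ∀ x y, c ≤ K.hk N x y := fun x y => hq0 (x, y)
  have hn : (0 : ℝ) < Fintype.card V := by exact_mod_cast Fintype.card_pos
  have hr0 : 0 ≤ 1 - Fintype.card V * c := by
    have x0 : V := q0.1
    have h2 : ∑ z : V, c ≤ ∑ z, K.hk N x0 z := Finset.sum_le_sum fun z _ => hcl x0 z
    rw [K.hk_row] at h2
    simp at h2
    linarith
  have hr1 : 1 - Fintype.card V * c < 1 := by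
    have : 0 < Fintype.card V * c := mul_pos hn hc0
    linarith
  obtain ⟨k, hk⟩ := exists_pow_lt_of_lt_one (show (0 : ℝ) < 1 / (2 * Fintype.card V) by positivity) hr1
  refine ⟨k * N, fun x y => ?_⟩
  have hcol : ∑ x', K.hk (k * N) x' y = 1 := by
    rw [← K.hk_row (k * N) y]
    exact Finset.sum_congr rfl fun z _ => K.hk_symm _ _ _
  have hosc := y05_osc K N c hcl k
  have hnk : Fintype.card V * (1 - Fintype.card V * c) ^ k ≤ 1 / 2 := by
    have h3 : (Fintype.card V : ℝ) * (1 - Fintype.card V * c) ^ k ≤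
        Fintype.card V * (1 / (2 * Fintype.card V)) := mul_le_mul_of_nonneg_left hk.le hn.le
    refine h3.trans (le_of_eq ?_)
    field_simp
  rw [abs_le]
  constructor
  · have h4 : ∑ x', (K.hk (k * N) x' y - K.hk (k * N) x y) ≤
        ∑ x' : V, (1 - Fintype.card V * c) ^ k := Finset.sum_le_sum fun x' _ => hosc x' x y
    rw [Finset.sum_sub_distrib, hcol] at h4
    simp only [Finset.sum_const, Finset.card_univ, nsmul_eq_mul] at h4
    linarith
  · have h4 : ∑ x', (K.hk (k * N) x y - K.hk (k * N) x' y) ≤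
        ∑ x' : V, (1 - Fintype.card V * c) ^ k := Finset.sum_le_sum fun x' _ => hosc x x' y
    rw [Finset.sum_sub_distrib, hcol] at h4
    simp only [Finset.sum_const, Finset.card_univ, nsmul_eq_mul] at h4
    linarith

end Y05

-- TARGET
section
open MeasureTheory Filter Topology

open Classical in
theorem tmix_spec {V : Type} [Fintype V] [DecidableEq V] (G : SimpleGraph V) (hG : G.Connected)
    (K : Ker V) (d : ℕ) (hd0 : 0 < d)
    (hP : ∀ x y, x ≠ y → K.P x y = if G.Adj x y then 1 / (2 * (d : ℝ)) else 0)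
    (hpt : ∀ t x y, K.hk t x y = pt G t x y) (x y : V) :
    |(Fintype.card V : ℝ) * pt G (tmix G) x y - 1| ≤ 1 / 2 := by
  have : Nonempty V := ⟨x⟩
  obtain ⟨t, ht⟩ := y05_exists G hG K (fun a b hab => by
    rw [hP a b hab.ne, if_pos hab]
    positivity)
  have hmem : tmix G ∈ {t | ∀ x y, |(Fintype.card V : ℝ) * pt G t x y - 1| ≤ 1 / 2} :=
    Nat.sInf_mem ⟨t, fun a b => by rw [← hpt]; exact ht a b⟩
  exact hmem x y

end

end HP192
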