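import Mathlib
import Pool.Agent.Helper192_HP.Defs
import Pool.Agent.Helper192_HP.WDefs
import Pool.Agent.Helper192_HP.W02
import Pool.Agent.Helper192_HP.TDefs
import Pool.Agent.Helper192_HP.FDefs
import Pool.Agent.Helper192_HP.SetupDef
import Pool.Agent.Helper192_HP.W06
import Pool.Agent.Helper192_HP.W21
import Pool.Agent.Helper192_HP.W22
import Pool.Agent.Helper192_HP.Y01
import Pool.Agent.Helper192_HP.X07
import Pool.Agent.Helper192_HP.X08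
import Pool.Agent.Helper192_HP.Y02
import Pool.Agent.Helper192_HP.Y03
import Pool.Agent.Helper192_HP.Y04
import Pool.Agent.Helper192_HP.Y05
import Pool.Agent.Helper192_HP.T02

namespace HP192
open Finset

section Y11
open MeasureTheory Filter Topology

/-- all parameter inequalities for one large value of the square root `x` of the volume -/
theorem y11_par (η κ0 ε1 δ : ℝ) (K2 : ℕ) (hη : 0 < η) (hη' : η ≤ 1 / 20) (hκ0 : 0 < κ0)
    (hκ0' : κ0 ≤ 1) (hε1 : 0 < ε1) (hε1' : ε1 ≤ 1 / 40) (hε1'' : ε1 ≤ η * κ0 / 8)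
    (hδ' : δ ≤ η * κ0 / 4) (hK2 : 1 ≤ K2) (x : ℝ) (hx1 : 100 ≤ η * κ0 * x)
    (hx2 : 100 * (K2 : ℝ) ≤ ε1 * x) (hx3 : 100 ≤ x)
    (m0 w T T1 M0 r r1 : ℕ) (hm0 : (m0 : ℝ) ≤ ε1 / (4 * K2) * x)
    (hw : (w : ℝ) ≤ ε1 / (4 * K2) * x)
    (hT : T = ⌊η * x⌋₊) (hT1 : T1 = ⌊x / 4⌋₊) (hM0 : M0 = ⌊κ0 * T⌋₊) (hr : r = ⌊ε1 * x⌋₊)
    (hr1 : r1 = 2 * (m0 + 1) * K2) :
    (m0 ≤ T ∧ m0 ≤ T1 ∧ 1 ≤ T ∧ 1 ≤ T1 ∧ 1 ≤ M0 ∧ 1 ≤ r) ∧
    (r1 ≤ r ∧ r1 ≤ M0 ∧ 3 * r ≤ T ∧ w ≤ M0) ∧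
    (T + 4 * r ≤ ⌊x⌋₊ ∧ 2 * T ≤ ⌊x⌋₊ ∧ r1 + 3 * T ≤ ⌊x⌋₊ ∧ 2 * T1 ≤ ⌊x⌋₊ ∧
      r1 + T + 1 ≤ ⌊x⌋₊) ∧
    (2 * (T : ℝ) + 1 ≤ x / 5 ∧ (M0 : ℝ) ≤ κ0 * η * x ∧ κ0 * η * x / 2 ≤ M0 ∧ (T : ℝ) ≤ η * x) ∧
    ∀ s : ℕ, (s : ℝ) ≤ δ * x → s ≤ M0 := by
  have hx0 : 0 < x := by linarith
  have hK : (1 : ℝ) ≤ K2 := by exact_mod_cast hK2
  obtain ⟨y, hy⟩ : ∃ y : ℝ, y = η * κ0 * x := ⟨_, rfl⟩
  obtain ⟨z, hz⟩ : ∃ z : ℝ, z = ε1 * x := ⟨_, rfl⟩
  obtain ⟨t, ht⟩ : ∃ t : ℝ, t = η * x := ⟨_, rfl⟩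
  have hyt : y ≤ t := by
    rw [hy, ht]
    have : η * κ0 * x = (η * x) * κ0 := by ring
    rw [this]
    exact mul_le_of_le_one_right (by positivity) hκ0'
  have htx : t ≤ x / 20 := by
    rw [ht]
    have := mul_le_mul_of_nonneg_right hη' hx0.le
    linarith
  have hzx : z ≤ x / 40 := by
    rw [hz]
    have := mul_le_mul_of_nonneg_right hε1' hx0.le
    linarith
  have hzy : z ≤ y / 8 := by
    rw [hz, hy]
    have := mul_le_mul_of_nonneg_right hε1'' hx0.le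
    linarith
  have hmK : (K2 : ℝ) * m0 ≤ z / 4 := by
    have h1 : (K2 : ℝ) * m0 ≤ K2 * (ε1 / (4 * K2) * x) := mul_le_mul_of_nonneg_left hm0 (by positivity)
    have h2 : (K2 : ℝ) * (ε1 / (4 * K2) * x) = ε1 * x / 4 := by
      field_simp
    rw [hz]; linarith
  have hwK : (K2 : ℝ) * w ≤ z / 4 := by
    have h1 : (K2 : ℝ) * w ≤ K2 * (ε1 / (4 * K2) * x) := mul_le_mul_of_nonneg_left hw (by positivity)
    have h2 : (K2 : ℝ) * (ε1 / (4 * K2) * x) = ε1 * x / 4 := by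
      field_simp
    rw [hz]; linarith
  have hm0' : (m0 : ℝ) ≤ z / 4 :=
    (le_mul_of_one_le_left (Nat.cast_nonneg _) hK).trans hmK
  have hw' : (w : ℝ) ≤ z / 4 :=
    (le_mul_of_one_le_left (Nat.cast_nonneg _) hK).trans hwK
  rw [← hy] at hx1
  rw [← hz] at hx2
  have fT1 : (T : ℝ) ≤ t := by rw [hT, ← ht]; exact Nat.floor_le (by linarith)
  have fT2 : t < T + 1 := by rw [hT, ← ht]; exact Nat.lt_floor_add_one _
  have fU1 : (T1 : ℝ) ≤ x / 4 := by rw [hT1]; exact Nat.floor_le (by linarith)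
  have fU2 : x / 4 < T1 + 1 := by rw [hT1]; exact Nat.lt_floor_add_one _
  have fr1 : (r : ℝ) ≤ z := by rw [hr, ← hz]; exact Nat.floor_le (by linarith)
  have fr2 : z < r + 1 := by rw [hr, ← hz]; exact Nat.lt_floor_add_one _
  have fM1 : (M0 : ℝ) ≤ κ0 * T := by rw [hM0]; exact Nat.floor_le (by positivity)
  have fM2 : κ0 * T < M0 + 1 := by rw [hM0]; exact Nat.lt_floor_add_one _
  have hκt : κ0 * t = y := by rw [ht, hy]; ring
  have gM1 : (M0 : ℝ) ≤ y := fM1.trans (by rw [← hκt]; exact mul_le_mul_of_nonneg_left fT1 hκ0.le)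
  have gM2 : y - 2 ≤ M0 := by
    have h1 : κ0 * (t - 1) ≤ κ0 * T := mul_le_mul_of_nonneg_left (by linarith) hκ0.le
    have h2 : κ0 * (t - 1) = y - κ0 := by rw [mul_sub, hκt, mul_one]
    linarith
  have hr1' : (r1 : ℝ) = 2 * (K2 * m0) + 2 * K2 := by
    rw [hr1]; push_cast; ring
  have hr1z : (r1 : ℝ) ≤ z - 1 := by rw [hr1']; linarith
  have hκηx : κ0 * η * x = y := by rw [hy]; ring
  refine ⟨⟨?_, ?_, ?_, ?_, ?_, ?_⟩, ⟨?_, ?_, ?_, ?_⟩, ⟨?_, ?_, ?_, ?_, ?_⟩, ⟨?_, ?_, ?_, ?_⟩, ?_⟩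
  · have : (m0 : ℝ) ≤ T := by linarith
    exact_mod_cast this
  · have : (m0 : ℝ) ≤ T1 := by linarith
    exact_mod_cast this
  · have : (1 : ℝ) ≤ T := by linarith
    exact_mod_cast this
  · have : (1 : ℝ) ≤ T1 := by linarith
    exact_mod_cast this
  · have : (1 : ℝ) ≤ M0 := by linarith
    exact_mod_cast this
  · have : (1 : ℝ) ≤ r := by linarith
    exact_mod_cast this
  · have : (r1 : ℝ) ≤ r := by linarith
    exact_mod_cast this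
  · have : (r1 : ℝ) ≤ M0 := by linarith
    exact_mod_cast this
  · have : (3 : ℝ) * r ≤ T := by linarith
    exact_mod_cast this
  · have : (w : ℝ) ≤ M0 := by linarith
    exact_mod_cast this
  · refine Nat.le_floor ?_
    push_cast
    linarith
  · refine Nat.le_floor ?_
    push_cast
    linarith
  · refine Nat.le_floor ?_
    push_cast
    linarith
  · refine Nat.le_floor ?_
    push_cast
    linarith
  · refine Nat.le_floor ?_
    push_cast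
    linarith
  · linarith
  · rw [hκηx]; exact gM1
  · rw [hκηx]; linarith
  · rw [← ht]; exact fT1
  · intro s hs
    have h1 : δ * x ≤ η * κ0 / 4 * x := mul_le_mul_of_nonneg_right hδ' hx0.le
    have h2 : η * κ0 / 4 * x = y / 4 := by rw [hy]; ring
    have : (s : ℝ) ≤ M0 := by linarith
    exact_mod_cast this

/-- the bound of the unit shift term -/
theorem y11_snd (W M0 T : ℕ) (lo Θ κ0 η x εF D : ℝ) (hκ0 : 0 < κ0) (hη : 0 < η) (hx : 0 < x)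
    (hεF : 0 < εF) (hΘ : 0 ≤ Θ) (hD : 0 < D) (hM0 : κ0 * η * x / 2 ≤ M0) (hT : (T : ℝ) ≤ η * x)
    (hlo : lo ≤ (1 / 2 + Θ) / D) (h1 : 64 * W ≤ εF * κ0 * η * x)
    (h2 : 64 * W * (1 / 2 + Θ) ≤ εF * κ0 * D) :
    (1 / (M0 : ℝ)) * (2 * W * (4 + 4 * T * lo)) ≤ εF / 2 := by
  have hM : (0 : ℝ) < M0 := lt_of_lt_of_le (by positivity) hM0
  have hL0 : 0 ≤ (1 / 2 + Θ) / D := by positivity
  have h3 : (T : ℝ) * lo ≤ η * x * ((1 / 2 + Θ) / D) :=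
    (mul_le_mul_of_nonneg_left hlo (Nat.cast_nonneg _)).trans (mul_le_mul_of_nonneg_right hT hL0)
  have h4 : 64 * W * ((1 / 2 + Θ) / D) ≤ εF * κ0 := by
    rw [← mul_div_assoc, div_le_iff₀ hD]
    exact h2
  have hW : (0 : ℝ) ≤ W := Nat.cast_nonneg _
  have h5 : 8 * (W : ℝ) * (T * lo) ≤ εF / 4 * M0 := by
    calc 8 * (W : ℝ) * (T * lo) ≤ 8 * W * (η * x * ((1 / 2 + Θ) / D)) :=
          mul_le_mul_of_nonneg_left h3 (by positivity)
      _ = (64 * W * ((1 / 2 + Θ) / D)) * (η * x / 8) := by ring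
      _ ≤ (εF * κ0) * (η * x / 8) := mul_le_mul_of_nonneg_right h4 (by positivity)
      _ = εF / 4 * (κ0 * η * x / 2) := by ring
      _ ≤ εF / 4 * M0 := mul_le_mul_of_nonneg_left hM0 (by positivity)
  have h6 : 8 * (W : ℝ) ≤ εF / 4 * M0 := by
    calc 8 * (W : ℝ) = (64 * W) / 8 := by ring
      _ ≤ (εF * κ0 * η * x) / 8 := by linarith
      _ = εF / 4 * (κ0 * η * x / 2) := by ring
      _ ≤ εF / 4 * M0 := mul_le_mul_of_nonneg_left hM0 (by positivity)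
  rw [one_div, inv_mul_le_iff₀ hM]
  nlinarith

/-- the kernel and its bounds -/
theorem y11_ker {V : Type} [Fintype V] [DecidableEq V] (G : SimpleGraph V) (hG : G.Connected)
    (htr : ∀ x y : V, ∃ φ : G ≃g G, φ x = y) (hc : 2 ≤ Fintype.card V) (o : V) (Θ : ℝ)
    (hΘ : ∑ t ∈ range (⌊Real.sqrt (Fintype.card V)⌋₊ + 1), ((t : ℝ) + 1) * pt G t o o ≤ Θ) :
    ∃ (K : Ker V) (d : ℕ), 0 < d ∧
      (open Classical in ∀ v, (univ.filter (fun w => G.Adj v w)).card = d) ∧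
      (open Classical in ∀ x y, x ≠ y → K.P x y = if G.Adj x y then 1 / (2 * (d : ℝ)) else 0) ∧
      (∀ x, dg G x = d) ∧ (∀ k ≤ ⌊Real.sqrt (Fintype.card V)⌋₊, K.Th o k ≤ Θ) ∧
      ∀ x y, K.hk (tmix G) x y ≤ 3 / (2 * (Fintype.card V : ℝ)) := by
  obtain ⟨K, d, hd0, hd, hP, hdg, hpt⟩ := exists_Ker G hG htr hc
  refine ⟨K, d, hd0, hd, hP, hdg, fun k hk => ?_, fun x y => ?_⟩
  · refine le_trans ?_ hΘ
    unfold Ker.Th
    simp only [← hpt]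
    refine Finset.sum_le_sum_of_subset_of_nonneg ?_ fun c _ _ => ?_
    · intro c hc
      rw [Finset.mem_range] at hc ⊢
      omega
    · exact mul_nonneg (by positivity) (K.hk_nonneg c o o)
  · have h1 := tmix_spec G hG K d hd0 hP hpt x y
    have h2 := (abs_le.1 h1).2
    have hN : (0 : ℝ) < Fintype.card V := by
      have : 0 < Fintype.card V := by omega
      exact_mod_cast this
    rw [hpt, le_div_iff₀ (by positivity)]
    linarith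

/-- short returns are rare if the degree is large -/
theorem y11_lo {V : Type} [Fintype V] [DecidableEq V] (G : SimpleGraph V) (K : Ker V) (d : ℕ)
    (hd0 : 0 < d)
    (hP : open Classical in ∀ x y, x ≠ y → K.P x y = if G.Adj x y then 1 / (2 * (d : ℝ)) else 0)
    (o : V) (N : ℕ) (Θ : ℝ) (hΘ : K.Th o (N + 1) ≤ Θ) :
    K.lo o N ≤ (1 / 2 + Θ) / Real.sqrt d := by
  classical
  have hdr : (0 : ℝ) < d := by exact_mod_cast hd0
  have hs : 0 < Real.sqrt d := Real.sqrt_pos.2 hdr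
  have h1 := K.lo_bound o N ⌊Real.sqrt d⌋₊ (1 / (2 * (d : ℝ))) (fun x y hxy => by
    rw [hP x y hxy]
    split_ifs
    · exact le_rfl
    · positivity)
  have hf1 : (⌊Real.sqrt d⌋₊ : ℝ) ≤ Real.sqrt d := Nat.floor_le hs.le
  have hf2 : Real.sqrt d ≤ ⌊Real.sqrt d⌋₊ + 1 := (Nat.lt_floor_add_one _).le
  have hΘ0 : 0 ≤ Θ := (zero_le_one.trans (K.one_le_Th o (N + 1))).trans hΘ
  have hsq : Real.sqrt d * Real.sqrt d = d := Real.mul_self_sqrt hdr.le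
  have h2 : (⌊Real.sqrt d⌋₊ : ℝ) * (1 / (2 * (d : ℝ))) ≤ 1 / 2 / Real.sqrt d := by
    calc (⌊Real.sqrt d⌋₊ : ℝ) * (1 / (2 * (d : ℝ))) ≤ Real.sqrt d * (1 / (2 * (d : ℝ))) :=
          mul_le_mul_of_nonneg_right hf1 (by positivity)
      _ = 1 / 2 / Real.sqrt d := by
          rw [eq_div_iff hs.ne', mul_assoc, mul_comm (1 / (2 * (d : ℝ))), ← mul_assoc, hsq]
          field_simp
  have h3 : K.Th o (N + 1) / (⌊Real.sqrt d⌋₊ + 1) ≤ Θ / Real.sqrt d := by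
    refine (div_le_div_of_nonneg_right hΘ (by positivity)).trans ?_
    exact div_le_div_of_nonneg_left hΘ0 hs hf2
  rw [add_div]
  linarith

/-- the mixing time is small -/
theorem y11_mix {V : ℕ → Type} [∀ n, Fintype (V n)] [∀ n, DecidableEq (V n)]
    (G : ∀ n, SimpleGraph (V n)) (hS : Setup V G) (ρ : ℝ) (hρ : 0 < ρ) :
    ∀ᶠ n in atTop, (tmix (G n) : ℝ) ≤ ρ * Real.sqrt (Fintype.card (V n)) := by
  obtain ⟨α, hα, h⟩ := hS.a2
  have h1 : ∀ᶠ n in atTop, (tmix (G n) : ℝ) / (Fintype.card (V n) : ℝ) ^ ((1 : ℝ) / 2 - α) < ρ :=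
    h.eventually (gt_mem_nhds hρ)
  have h2 : ∀ᶠ n in atTop, 1 ≤ Fintype.card (V n) := hS.card.eventually (eventually_ge_atTop 1)
  filter_upwards [h1, h2] with n h3 h4
  have hN : (1 : ℝ) ≤ Fintype.card (V n) := by exact_mod_cast h4
  have h5 : (Fintype.card (V n) : ℝ) ^ ((1 : ℝ) / 2 - α) ≤ Real.sqrt (Fintype.card (V n)) := by
    rw [Real.sqrt_eq_rpow]
    exact Real.rpow_le_rpow_of_exponent_le hN (by linarith)
  have h6 : 0 < (Fintype.card (V n) : ℝ) ^ ((1 : ℝ) / 2 - α) :=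
    Real.rpow_pos_of_pos (by linarith) _
  rw [div_lt_iff₀ h6] at h3
  exact h3.le.trans (mul_le_mul_of_nonneg_left h5 hρ.le)

theorem y11_sqrt {V : ℕ → Type} [∀ n, Fintype (V n)] [∀ n, DecidableEq (V n)]
    (G : ∀ n, SimpleGraph (V n)) (hS : Setup V G) :
    Tendsto (fun n => Real.sqrt (Fintype.card (V n))) atTop atTop :=
  Real.tendsto_sqrt_atTop.comp (tendsto_natCast_atTop_atTop.comp hS.card)

end Y11

-- TARGET
section
open MeasureTheory Filter Topology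

open Classical in
theorem RT_seq {V : ℕ → Type} [∀ n, Fintype (V n)] [∀ n, DecidableEq (V n)]
    (G : ∀ n, SimpleGraph (V n)) (hS : Setup V G) (O : ∀ n, V n) (w : ℕ → ℕ) (hw1 : ∀ n, 1 ≤ w n)
    (hw0 : Tendsto (fun n => (w n : ℝ) / Real.sqrt (Fintype.card (V n))) atTop (𝓝 0))
    (hcase : Tendsto w atTop atTop ∨
      ((∀ n, w n = 1) ∧ Tendsto (fun n => dg (G n) (O n)) atTop atTop))
    (a b ε : ℝ) (ha : 0 < a) (hb : 0 < b) (hε : 0 < ε) :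
    ∃ δ : ℝ, 0 < δ ∧ ∀ᶠ n in atTop, ∀ l s : ℕ, a * Real.sqrt (Fintype.card (V n)) ≤ l →
      (l : ℝ) ≤ b * Real.sqrt (Fintype.card (V n)) →
      (s : ℝ) ≤ δ * Real.sqrt (Fintype.card (V n)) →
      avF (G n) (univ.erase (O n)) (fun f => (∑ v,
        ((if l ≤ ht (O n) f v ∧ ht (O n) f v < l + w n then 1 / (w n : ℝ) else 0)
        - (if l + s ≤ ht (O n) f v ∧ ht (O n) f v < l + s + w n then 1 / (w n : ℝ) else 0))) ^ 2)
      ≤ ε * Fintype.card (V n) := by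
  obtain ⟨θ, hθ⟩ := hS.a1
  obtain ⟨Θ, hΘe⟩ : ∃ Θ : ℝ, Θ = max θ 1 := ⟨_, rfl⟩
  have hΘ1 : 1 ≤ Θ := by rw [hΘe]; exact le_max_right _ _
  have hΘθ : θ ≤ Θ := by rw [hΘe]; exact le_max_left _ _
  obtain ⟨η, κ0, εF, hη, hη', hκ0, hκ0', hεF, hκη, hnum⟩ := num Θ a b ε hΘ1 ha hb hε
  obtain ⟨ε1, δ, K2, W, hε1, hε1', hε1'', hδ, hδ', hK2, hW, hnumF⟩ :=
    numF Θ η κ0 (εF / 2) hΘ1 hη hη' hκ0 hκ0' (by positivity)
  refine ⟨δ, hδ, ?_⟩
  have hK : (1 : ℝ) ≤ K2 := by exact_mod_cast hK2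
  have hρ : 0 < ε1 / (4 * K2) := by positivity
  have hsq := y11_sqrt G hS
  have ev1 := y11_mix G hS _ hρ
  have ev2 : ∀ᶠ n in atTop, (w n : ℝ) / Real.sqrt (Fintype.card (V n)) < ε1 / (4 * K2) :=
    hw0.eventually (gt_mem_nhds hρ)
  have ev3 := hsq.eventually (eventually_ge_atTop
    (100 / (η * κ0) + 100 * K2 / ε1 + 100 + 64 * W / (εF * κ0 * η)))
  have ev4 := hS.card.eventually hnum
  have ev5 := hS.card.eventually hnumF
  have ev6 := hS.card.eventually (eventually_ge_atTop 2)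
  have ev7 : ∀ᶠ n in atTop, W ≤ w n ∨ (w n = 1 ∧
      64 * W * (1 / 2 + Θ) ≤ εF * κ0 * Real.sqrt (dg (G n) (O n))) := by
    rcases hcase with h | ⟨h1, h2⟩
    · filter_upwards [h.eventually (eventually_ge_atTop W)] with n hn
      exact Or.inl hn
    · have h3 : Tendsto (fun n => Real.sqrt (dg (G n) (O n))) atTop atTop :=
        Real.tendsto_sqrt_atTop.comp (tendsto_natCast_atTop_atTop.comp h2)
      filter_upwards [h3.eventually (eventually_ge_atTop (64 * W * (1 / 2 + Θ) / (εF * κ0)))]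
        with n hn
      refine Or.inr ⟨h1 n, ?_⟩
      rw [div_le_iff₀ (by positivity)] at hn
      linarith
  filter_upwards [ev1, ev2, ev3, ev4, ev5, ev6, ev7] with n e1 e2 e3 e4 e5 e6 e7
  intro l s hl1 hl2 hs
  obtain ⟨x, hx⟩ : ∃ x : ℝ, x = Real.sqrt (Fintype.card (V n)) := ⟨_, rfl⟩
  have hNpos : (0 : ℝ) < Fintype.card (V n) := by
    have : 0 < Fintype.card (V n) := by omega
    exact_mod_cast this
  have hxx : x * x = Fintype.card (V n) := by rw [hx]; exact Real.mul_self_sqrt hNpos.le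
  rw [← hx] at e1 e2 e3 hl1 hl2 hs
  have q1 : 0 < 100 / (η * κ0) := by positivity
  have q2 : 0 < 100 * K2 / ε1 := by positivity
  have q3 : 0 ≤ 64 * W / (εF * κ0 * η) := by positivity
  have hx0 : 0 < x := by linarith
  have hx1 : 100 ≤ η * κ0 * x := by
    have : 100 / (η * κ0) ≤ x := by linarith
    rw [div_le_iff₀ (by positivity)] at this
    linarith
  have hx2 : 100 * (K2 : ℝ) ≤ ε1 * x := by
    have : 100 * K2 / ε1 ≤ x := by linarith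
    rw [div_le_iff₀ hε1] at this
    linarith
  have hx3 : 100 ≤ x := by linarith
  have hx4 : 64 * (W : ℝ) ≤ εF * κ0 * η * x := by
    have : 64 * W / (εF * κ0 * η) ≤ x := by linarith
    rw [div_le_iff₀ (by positivity)] at this
    linarith
  have hwx : (w n : ℝ) ≤ ε1 / (4 * K2) * x := by
    rw [div_lt_iff₀ hx0] at e2
    exact e2.le
  obtain ⟨m0, hm0⟩ : ∃ m0 : ℕ, m0 = tmix (G n) := ⟨_, rfl⟩
  rw [← hm0] at e1
  obtain ⟨T, hT⟩ : ∃ T : ℕ, T = ⌊η * x⌋₊ := ⟨_, rfl⟩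
  obtain ⟨T1, hT1⟩ : ∃ T1 : ℕ, T1 = ⌊x / 4⌋₊ := ⟨_, rfl⟩
  obtain ⟨M0, hM0⟩ : ∃ M0 : ℕ, M0 = ⌊κ0 * T⌋₊ := ⟨_, rfl⟩
  obtain ⟨r, hr⟩ : ∃ r : ℕ, r = ⌊ε1 * x⌋₊ := ⟨_, rfl⟩
  obtain ⟨r1, hr1⟩ : ∃ r1 : ℕ, r1 = 2 * (m0 + 1) * K2 := ⟨_, rfl⟩
  obtain ⟨⟨p1, p2, p3, p4, p5, p6⟩, ⟨p7, p8, p9, p10⟩, ⟨p11, p12, p13, p14, p15⟩,
    ⟨p16, p17, p18, p19⟩, p20⟩ := y11_par η κ0 ε1 δ K2 hη hη' hκ0 hκ0' hε1 hε1' hε1'' hδ' hK2 x
      hx1 hx2 hx3 m0 (w n) T T1 M0 r r1 e1 hwx hT hT1 hM0 hr hr1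
  have hsM := p20 s hs
  obtain ⟨K, d, hd0, hd, hP, hdg, hTh, hmix⟩ := y11_ker (G n) (hS.conn n) (hS.trans n) e6 (O n) Θ
    ((hθ n (O n)).trans hΘθ)
  rw [← hx] at hTh
  rw [← hm0] at hmix
  obtain ⟨κ, hκ⟩ : ∃ κ : ℝ, κ = 3 / (2 * (Fintype.card (V n) : ℝ)) := ⟨_, rfl⟩
  rw [← hκ] at hmix
  have hκx : κ * (2 * (T : ℝ) + 1) ^ 2 ≤ 1 / 2 := by
    have h1 : (2 * (T : ℝ) + 1) ^ 2 ≤ (x / 5) ^ 2 := pow_le_pow_left₀ (by positivity) p16 2
    have hκ0 : 0 ≤ κ := by rw [hκ]; positivity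
    refine (mul_le_mul_of_nonneg_left h1 hκ0).trans ?_
    rw [hκ, ← hxx, div_mul_eq_mul_div, div_le_iff₀ (by positivity)]
    nlinarith [mul_pos hx0 hx0]
  have hr1' : 2 * m0 + 1 ≤ r1 := by
    rw [hr1]
    have : 2 * (m0 + 1) * 1 ≤ 2 * (m0 + 1) * K2 := Nat.mul_le_mul_left _ hK2
    omega
  have hE : ∀ w' : ℕ, W ≤ w' → Ker.Ebd Θ T r s w' M0 ((1 - 1 / (2 * Θ)) ^ K2 + 8 * κ * r * T)
      ≤ εF / 2 := by
    intro w' hw'
    rw [hκ]
    refine e5 s w' M0 T r ?_ hM0 ?_ ?_ hw'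
    · rw [hT, hx]
    · rw [hr, hx]
    · rw [← hx]; exact hs
  have hFb : (1 / (M0 : ℝ)) * ∑ M ∈ Ico M0 (2 * M0),
      K.EW r1 (O n) (fun ω => |(1 / (w n : ℝ)) * ∑ i ∈ range (w n),
            (K.fM (O n) T (M + 1 + i) ω - K.fM (O n) T (M + 1 + s + i) ω)|) ≤ εF := by
    rcases e7 with e7 | ⟨e7, e8⟩
    · refine (K.Fbar (O n) T r r1 (m0 + 1) K2 (w n) s M0 m0 Θ κ p6 hr1 (by omega) p7 (hw1 n) p5 p9
        (hTh _ p11) (hTh _ p12) hmix (Nat.le_succ _) p1 hκx).trans ?_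
      exact (hE (w n) e7).trans (by linarith)
    · rw [e7]
      refine (K.Fbar1 (O n) T r r1 (m0 + 1) K2 W s M0 m0 Θ κ p6 hr1 (by omega) p7 hW p5 p9
        (hTh _ p11) (hTh _ p12) hmix (Nat.le_succ _) p1 hκx).trans ?_
      have hd' : (0 : ℝ) < d := by exact_mod_cast hd0
      have hlo := y11_lo (G n) K d hd0 hP (O n) (r1 + T) Θ (hTh _ p15)
      rw [hdg] at e8
      have h9 := y11_snd W M0 T (K.lo (O n) (r1 + T)) Θ κ0 η x εF (Real.sqrt d) hκ0 hη hx0 hεF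
        (by linarith) (Real.sqrt_pos.2 hd') p18 p19 hlo hx4 e8
      have h10 := hE W le_rfl
      linarith
  have hl : 2 * M0 ≤ l := by
    have h1 : κ0 * η * x * 2 ≤ a * x := by
      have := mul_le_mul_of_nonneg_right hκη hx0.le
      linarith
    have : (2 : ℝ) * M0 ≤ l := by linarith
    exact_mod_cast this
  have key := K.RT_bound (G n) (hS.conn n) d hd0 hd hP (O n) l s (w n) M0 (2 * M0 + s + w n) T T1 r1
    m0 Θ κ εF _ _ _ _ _ _ hmix p1 p2 p3 p4 (hw1 n) p5 hr1' p8 le_rfl hl (hTh _ p13) (hTh _ p14)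
    hFb rfl rfl rfl rfl rfl rfl
  refine key.trans ?_
  refine e4 l s (w n) M0 (2 * M0 + s + w n) T T1 κ _ _ _ _ _ _ ?_ ?_ hM0 hκ rfl hsM p10 ?_
    rfl rfl rfl rfl rfl rfl
  · rw [hT, hx]
  · rw [hT1, hx]
  · rw [← hx]; exact hl2

end

-- TARGET (second part)
section
open MeasureTheory Filter Topology

theorem EH_seq {V : ℕ → Type} [∀ n, Fintype (V n)] [∀ n, DecidableEq (V n)]
    (G : ∀ n, SimpleGraph (V n)) (hS : Setup V G) (O : ∀ n, V n) (b : ℝ) (hb : 0 < b) :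
    ∃ C : ℝ, 0 < C ∧ ∀ᶠ n in atTop, ∀ k : ℕ, (k : ℝ) ≤ b * Real.sqrt (Fintype.card (V n)) →
      avF (G n) (univ.erase (O n)) (fun f => (cnt (univ.erase (O n)) (O n) k f : ℝ))
        ≤ C * Real.sqrt (Fintype.card (V n)) := by
  obtain ⟨θ, hθ⟩ := hS.a1
  obtain ⟨Θ, hΘe⟩ : ∃ Θ : ℝ, Θ = max θ 1 := ⟨_, rfl⟩
  have hΘ1 : 1 ≤ Θ := by rw [hΘe]; exact le_max_right _ _
  have hΘθ : θ ≤ Θ := by rw [hΘe]; exact le_max_left _ _
  refine ⟨Θ + 9 * (Θ * (Θ + 2 * (b + 1))), by positivity, ?_⟩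
  have ev1 := y11_mix G hS (1 / 8) (by norm_num)
  have ev2 := (y11_sqrt G hS).eventually (eventually_ge_atTop 100)
  have ev3 := hS.card.eventually (eventually_ge_atTop 2)
  filter_upwards [ev1, ev2, ev3] with n e1 e2 e3
  intro k hk
  obtain ⟨x, hx⟩ : ∃ x : ℝ, x = Real.sqrt (Fintype.card (V n)) := ⟨_, rfl⟩
  have hNpos : (0 : ℝ) < Fintype.card (V n) := by
    have : 0 < Fintype.card (V n) := by omega
    exact_mod_cast this
  have hxx : x * x = Fintype.card (V n) := by rw [hx]; exact Real.mul_self_sqrt hNpos.le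
  rw [← hx] at e1 e2 hk ⊢
  have hx0 : 0 < x := by linarith
  obtain ⟨T1, hT1⟩ : ∃ T1 : ℕ, T1 = ⌊x / 4⌋₊ := ⟨_, rfl⟩
  have fU1 : (T1 : ℝ) ≤ x / 4 := by rw [hT1]; exact Nat.floor_le (by linarith)
  have fU2 : x / 4 < T1 + 1 := by rw [hT1]; exact Nat.lt_floor_add_one _
  obtain ⟨K, d, hd0, hd, hP, hdg, hTh, hmix⟩ := y11_ker (G n) (hS.conn n) (hS.trans n) e3 (O n) Θ
    ((hθ n (O n)).trans hΘθ)
  rw [← hx] at hTh
  have hm : tmix (G n) ≤ T1 := by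
    have : (tmix (G n) : ℝ) ≤ T1 := by linarith
    exact_mod_cast this
  have h1T : 1 ≤ T1 := by
    have : (1 : ℝ) ≤ T1 := by linarith
    exact_mod_cast this
  have h2T : 2 * T1 ≤ ⌊x⌋₊ := by
    refine Nat.le_floor ?_
    push_cast
    linarith
  have key := K.Am_le_W1 (G n) (hS.conn n) d hd0 hd hP (O n) (univ.erase (O n)) (O n)
    (Finset.notMem_erase _ _) k T1 (tmix (G n)) Θ _ hmix hm h1T (hTh _ h2T)
  have hB : Bm (G n) (univ.erase (O n)) (O n) = (Fintype.card (V n) : ℝ) := by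
    have h1 := sum_Bm (G n) (hS.conn n) (univ.erase (O n)) (fun h => by
      have := Finset.mem_univ (O n)
      rw [← h] at this
      exact Finset.notMem_erase _ _ this)
    have h2 : ((univ : Finset (V n)).erase (O n))ᶜ = {O n} := by
      ext v
      simp
    rw [h2, Finset.sum_singleton] at h1
    exact h1
  rw [hB] at key
  unfold Am at key
  refine key.trans ?_
  have g1 : 3 / (2 * (Fintype.card (V n) : ℝ)) * ((k : ℝ) + 1) * ((T1 : ℝ) + 1) ≤ 2 * (b + 1) := by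
    have h1 : (k : ℝ) + 1 ≤ (b + 1) * x := by nlinarith
    have h2 : (T1 : ℝ) + 1 ≤ 5 / 4 * x := by linarith
    calc 3 / (2 * (Fintype.card (V n) : ℝ)) * ((k : ℝ) + 1) * ((T1 : ℝ) + 1)
        ≤ 3 / (2 * (Fintype.card (V n) : ℝ)) * ((b + 1) * x) * (5 / 4 * x) := by
          refine mul_le_mul ?_ h2 (by positivity) (by positivity)
          exact mul_le_mul_of_nonneg_left h1 (by positivity)
      _ = 15 / 8 * (b + 1) := by
          rw [← hxx]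
          field_simp
          ring
      _ ≤ 2 * (b + 1) := by nlinarith
  have g2 : 1 + (Fintype.card (V n) : ℝ) / T1 ≤ 9 * x := by
    have h1 : (Fintype.card (V n) : ℝ) / T1 ≤ 8 * x := by
      rw [div_le_iff₀ (by exact_mod_cast h1T), ← hxx]
      have : x / 8 ≤ T1 := by linarith
      nlinarith
    linarith
  have g3 : Θ * (Θ + 3 / (2 * (Fintype.card (V n) : ℝ)) * ((k : ℝ) + 1) * ((T1 : ℝ) + 1))
      * (1 + (Fintype.card (V n) : ℝ) / T1) ≤ Θ * (Θ + 2 * (b + 1)) * (9 * x) := by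
    refine mul_le_mul ?_ g2 (by positivity) (by positivity)
    exact mul_le_mul_of_nonneg_left (by linarith) (by linarith)
  have g4 : Θ ≤ Θ * x := le_mul_of_one_le_right (by linarith) (by linarith)
  have g5 : (Θ + 9 * (Θ * (Θ + 2 * (b + 1)))) * x = Θ * x + Θ * (Θ + 2 * (b + 1)) * (9 * x) := by
    ring
  rw [g5]
  linarith

end

end HP192
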