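import Mathlib
import Pool.Agent.Helper192_HP.TDefs
import Pool.Agent.Helper192_HP.FDefs
import Pool.Agent.Helper192_HP.SetupDef
import Pool.Agent.Helper192_HP.X06
import Pool.Agent.Helper192_HP.Y10
import Pool.Agent.Helper192_HP.Y11

namespace HP192
open Finset

section
open MeasureTheory Filter Topology

open Classical in
theorem sTrees_eq {V : Type} [Fintype V] [DecidableEq V] (G : SimpleGraph V) :
    sTrees G = (univ : Finset (SimpleGraph V)).filter (fun T => T ≤ G ∧ T.IsTree) := by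
  unfold sTrees
  ext T
  simp

open Classical in
theorem avT_eq {V : Type} [Fintype V] [DecidableEq V] (G : SimpleGraph V) (o : V)
    (Φ : (V → ℕ) → ℝ) :
    avT G (fun T => Φ (fun v => T.dist o v)) = avF G (univ.erase o) (fun f => Φ (fun v => ht o f v)) := by
  have h1 := tree_link G o Φ
  have h2 := tree_link G o (fun _ => (1 : ℝ))
  simp only [sum_const, nsmul_eq_mul, mul_one] at h2
  unfold avT avF
  rw [sTrees_eq, h1, h2]

theorem Hp_sum {V : Type} [Fintype V] [DecidableEq V] (o : V) (T : SimpleGraph V) (l w : ℕ) :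
    ∑ j ∈ range w, (Hp o T (l + j) : ℝ)
      = ∑ v, if l ≤ T.dist o v ∧ T.dist o v < l + w then (1 : ℝ) else 0 := by
  unfold Hp
  simp only [card_filter, Nat.cast_sum, Nat.cast_ite, Nat.cast_one, Nat.cast_zero]
  rw [sum_comm]
  refine sum_congr rfl fun v _ => ?_
  by_cases h : l ≤ T.dist o v ∧ T.dist o v < l + w
  · rw [if_pos h, sum_eq_single (T.dist o v - l)]
    · rw [if_pos]; omega
    · intro b _ hb
      rw [if_neg]; omega
    · intro hn
      simp only [mem_range] at hn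
      omega
  · rw [if_neg h]
    refine sum_eq_zero fun j hj => ?_
    rw [if_neg]
    intro h'
    simp only [mem_range] at hj
    omega

theorem win_sum {V : Type} [Fintype V] [DecidableEq V] (g : V → ℕ) (l s w : ℕ) :
    (1 / (w : ℝ)) * ((∑ v, if l ≤ g v ∧ g v < l + w then (1 : ℝ) else 0)
      - ∑ v, if l + s ≤ g v ∧ g v < l + s + w then (1 : ℝ) else 0)
      = ∑ v, ((if l ≤ g v ∧ g v < l + w then 1 / (w : ℝ) else 0)
        - (if l + s ≤ g v ∧ g v < l + s + w then 1 / (w : ℝ) else 0)) := by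
  rw [sum_sub_distrib, mul_sub, mul_sum, mul_sum]
  congr 1 <;>
  · refine sum_congr rfl fun v _ => ?_
    split_ifs <;> simp

theorem RT_avT {V : Type} [Fintype V] [DecidableEq V] (G : SimpleGraph V) (o : V)
    (l s w : ℕ) :
    avT G (fun T => ((1 / (w : ℝ)) * ∑ j ∈ range w,
        ((Hp o T (l + j) : ℝ) - (Hp o T (l + s + j) : ℝ))) ^ 2)
      = avF G (univ.erase o) (fun f => (∑ v,
        ((if l ≤ ht o f v ∧ ht o f v < l + w then 1 / (w : ℝ) else 0)
        - (if l + s ≤ ht o f v ∧ ht o f v < l + s + w then 1 / (w : ℝ) else 0))) ^ 2) := by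
  have h := avT_eq G o (fun g => (∑ v,
        ((if l ≤ g v ∧ g v < l + w then 1 / (w : ℝ) else 0)
        - (if l + s ≤ g v ∧ g v < l + s + w then 1 / (w : ℝ) else 0))) ^ 2)
  rw [← h]
  congr 1
  funext T
  rw [sum_sub_distrib, Hp_sum, Hp_sum, win_sum]

theorem cnt_ht {V : Type} [Fintype V] [DecidableEq V] (G : SimpleGraph V) (o : V) (k : ℕ)
    (f : V → V) (hf : f ∈ For G (univ.erase o)) :
    cnt (univ.erase o) o k f = (univ.filter (fun v => ht o f v = k)).card := by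
  classical
  unfold For at hf
  simp only [mem_filter, mem_univ, true_and, mem_erase, ne_eq, and_true,
    not_not] at hf
  obtain ⟨_, _, h3⟩ := hf
  unfold cnt
  congr 1
  ext v
  simp only [mem_filter, mem_univ, true_and, mem_erase, ne_eq, and_true]
  have hex : ∃ k, f^[k] v = o := h3 v
  unfold ht
  rw [dif_pos hex, Nat.find_eq_iff]

theorem EH_avT {V : Type} [Fintype V] [DecidableEq V] (G : SimpleGraph V) (o : V) (k : ℕ) :
    avT G (fun T => (Hp o T k : ℝ))
      = avF G (univ.erase o) (fun f => (cnt (univ.erase o) o k f : ℝ)) := by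
  have h := avT_eq G o (fun g => ((univ.filter (fun v => g v = k)).card : ℝ))
  have h' : avT G (fun T => (Hp o T k : ℝ))
      = avT G (fun T => ((univ.filter (fun v => T.dist o v = k)).card : ℝ)) := rfl
  rw [h']
  refine h.trans ?_
  unfold avF
  congr 1
  refine sum_congr rfl fun f hf => ?_
  show ((univ.filter (fun v => ht o f v = k)).card : ℝ) = (cnt (univ.erase o) o k f : ℝ)
  rw [cnt_ht G o k f hf]

/-- hypotheses of the window theorem give the profile convergence -/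
theorem final_w {V : ℕ → Type} [∀ n, Fintype (V n)] [∀ n, DecidableEq (V n)]
    (G : ∀ n, SimpleGraph (V n)) (hS : Setup V G) (O : ∀ n, V n)
    (β : ℕ → ℝ) (b1 b2 : ℝ) (hb1 : 0 < b1) (hβ : ∀ n, b1 ≤ β n ∧ β n ≤ b2)
    {Ω : Type} [MeasurableSpace Ω] (P : Measure Ω) [IsProbabilityMeasure P]
    (e : Ω → C(unitInterval, ℝ)) (he : Measurable e) (hGHP : GHPconv G O β P e)
    (ℓ : Ω → ℝ → ℝ) (hℓ : ∀ᵐ ω ∂P, ContinuousOn (ℓ ω) (Set.Ici 0) ∧
      ∀ r : ℝ, 0 ≤ r → De (e ω) r = ∫ s in (0 : ℝ)..r, ℓ ω s)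
    (w : ℕ → ℕ) (hw1 : ∀ n, 1 ≤ w n)
    (hw0 : Tendsto (fun n => (w n : ℝ) / Real.sqrt (Fintype.card (V n))) atTop (𝓝 0))
    (hcase : Tendsto w atTop atTop ∨
      ((∀ n, w n = 1) ∧ Tendsto (fun n => dg (G n) (O n)) atTop atTop))
    (m : ℕ) (r : Fin m → ℝ) (hr : ∀ i, 0 < r i)
    (F : (Fin m → ℝ) → ℝ) (hF : Continuous F) (hFb : ∃ C, ∀ x, |F x| ≤ C) :
    Tendsto (fun n => avT (G n) (fun T => F (fun i =>
      β n / Real.sqrt (Fintype.card (V n)) * ((1 / (w n : ℝ)) * ∑ j ∈ range (w n),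
        (Hp (O n) T (⌊r i * β n * Real.sqrt (Fintype.card (V n))⌋₊ + j) : ℝ)))))
      atTop (𝓝 (∫ ω, F (fun i => ℓ ω (r i)) ∂P)) := by
  refine profile_of_RT G hS.conn hS.card O β b1 b2 hb1 hβ w hw1 hw0 ?_ ?_ P e he hGHP ℓ hℓ
    m r hr F hF hFb
  · intro a b ε ha hb hε
    obtain ⟨δ, hδ, h⟩ := RT_seq G hS O w hw1 hw0 hcase a b ε ha hb hε
    refine ⟨δ, hδ, h.mono fun n hn l s h1 h2 h3 => ?_⟩
    rw [RT_avT]
    exact hn l s h1 h2 h3
  · intro b hb
    obtain ⟨C, hC, h⟩ := EH_seq G hS O b hb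
    refine ⟨C, hC, h.mono fun n hn k hk => ?_⟩
    rw [EH_avT]
    exact hn k hk

end

end HP192
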