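import Mathlib
import Pool.Agent.Helper192_HP.Defs
import Pool.Agent.Helper192_HP.WDefs
import Pool.Agent.Helper192_HP.W02
import Pool.Agent.Helper192_HP.TDefs
import Pool.Agent.Helper192_HP.FDefs
import Pool.Agent.Helper192_HP.ZDefs
import Pool.Agent.Helper192_HP.Y04
import Pool.Agent.Helper192_HP.Y05

namespace HP192
open Finset

-- TARGET
section
open MeasureTheory Filter Topology

theorem exists_IsK {V : Type} [Fintype V] [DecidableEq V] (G : SimpleGraph V) (hG : G.Connected)
    (htr : ∀ x y : V, ∃ φ : G ≃g G, φ x = y) (hc : 2 ≤ Fintype.card V) (o : V) (Θ : ℝ)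
    (hΘ : ∑ t ∈ range (⌊Real.sqrt (Fintype.card V)⌋₊ + 1), ((t : ℝ) + 1) * pt G t o o ≤ Θ) :
    ∃ (K : Ker V) (d : ℕ), IsK G K d o Θ (tmix G) ∧ ∀ x, dg G x = d := by
  classical
  obtain ⟨K, d, hd0, hd, hP, hdg, hpt⟩ := exists_Ker G hG htr hc
  have hn : (0 : ℝ) < Fintype.card V := by
    have : 0 < Fintype.card V := by omega
    exact_mod_cast this
  have hkey : ∀ z y, |(Fintype.card V : ℝ) * K.hk (tmix G) z y - 1| ≤ 1 / 2 := by
    intro z y
    rw [hpt]
    exact tmix_spec G hG K d hd0 hP hpt z y
  have hsum : ∀ t x y, tmix G ≤ t →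
      K.hk t x y = ∑ z, K.hk (t - tmix G) x z * K.hk (tmix G) z y := by
    intro t x y ht
    rw [← K.hk_add, Nat.sub_add_cancel ht]
  have hup : ∀ z y, K.hk (tmix G) z y ≤ 3 / (2 * (Fintype.card V : ℝ)) := by
    intro z y
    have h1 := (abs_le.1 (hkey z y)).2
    rw [le_div_iff₀ (by positivity)]
    nlinarith
  have hlo : ∀ z y, 1 / (2 * (Fintype.card V : ℝ)) ≤ K.hk (tmix G) z y := by
    intro z y
    have h1 := (abs_le.1 (hkey z y)).1
    rw [div_le_iff₀ (by positivity)]
    nlinarith
  refine ⟨K, d, ⟨hG, htr, hd0, hd, hP, ?_, ?_, ?_⟩, hdg⟩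
  · intro k hk
    unfold Ker.Th
    refine le_trans ?_ hΘ
    have e : ∑ t ∈ range (⌊Real.sqrt (Fintype.card V)⌋₊ + 1), ((t : ℝ) + 1) * pt G t o o
        = ∑ c ∈ range (⌊Real.sqrt (Fintype.card V)⌋₊ + 1), ((c : ℝ) + 1) * K.hk c o o :=
      Finset.sum_congr rfl (fun t _ => by rw [hpt])
    rw [e]
    refine Finset.sum_le_sum_of_subset_of_nonneg (fun a ha => ?_) (fun c _ _ =>
      mul_nonneg (by positivity) (K.hk_nonneg _ _ _))
    rw [Finset.mem_range] at ha ⊢
    omega
  · intro t x y ht
    rw [hsum t x y ht]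
    calc ∑ z, K.hk (t - tmix G) x z * K.hk (tmix G) z y
        ≤ ∑ z, K.hk (t - tmix G) x z * (3 / (2 * (Fintype.card V : ℝ))) :=
          Finset.sum_le_sum (fun z _ => mul_le_mul_of_nonneg_left (hup z y) (K.hk_nonneg _ _ _))
      _ = 3 / (2 * (Fintype.card V : ℝ)) := by
          rw [← Finset.sum_mul, K.hk_row, one_mul]
  · intro t x y ht
    rw [hsum t x y ht]
    calc 1 / (2 * (Fintype.card V : ℝ))
        = ∑ z, K.hk (t - tmix G) x z * (1 / (2 * (Fintype.card V : ℝ))) := by
          rw [← Finset.sum_mul, K.hk_row, one_mul]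
      _ ≤ ∑ z, K.hk (t - tmix G) x z * K.hk (tmix G) z y :=
          Finset.sum_le_sum (fun z _ => mul_le_mul_of_nonneg_left (hlo z y) (K.hk_nonneg _ _ _))

theorem dist_le_of_hk {V : Type} [Fintype V] [DecidableEq V] (G : SimpleGraph V) (K : Ker V) (d : ℕ)
    (o : V) (Θ : ℝ) (m0 : ℕ) (h : IsK G K d o Θ m0) (t : ℕ) :
    ∀ x y, K.hk t x y ≠ 0 → G.dist x y ≤ t := by
  induction t with
  | zero =>
    intro x y hxy
    simp only [Ker.hk] at hxy
    split_ifs at hxy with he
    · subst he
      simp
    · exact absurd rfl hxy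
  | succ t ih =>
    intro x y hxy
    simp only [Ker.hk] at hxy
    obtain ⟨z, -, hz⟩ := Finset.exists_ne_zero_of_sum_ne_zero hxy
    have h1 : K.P x z ≠ 0 := left_ne_zero_of_mul hz
    have h2 : K.hk t z y ≠ 0 := right_ne_zero_of_mul hz
    have h3 := ih z y h2
    by_cases hxz : x = z
    · subst hxz
      omega
    · have h4 := h.hP x z hxz
      rw [h4] at h1
      split_ifs at h1 with ha
      · have h5 : G.dist x z = 1 := SimpleGraph.dist_eq_one_iff_adj.2 ha
        have h6 := h.conn.dist_triangle (u := x) (v := z) (w := y)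
        omega
      · exact absurd rfl h1

theorem exists_prev {V : Type} (G : SimpleGraph V) (hG : G.Connected) (o y : V) (t : ℕ)
    (hy : G.dist o y = t + 1) : ∃ z, G.Adj z y ∧ G.dist o z = t := by
  obtain ⟨p, hp⟩ := hG.exists_walk_length_eq_dist y o
  cases p with
  | nil => simp at hy
  | @cons _ z _ hadj q =>
    refine ⟨z, hadj.symm, ?_⟩
    rw [SimpleGraph.Walk.length_cons, SimpleGraph.dist_comm, hy] at hp
    have h1 : G.dist z o ≤ q.length := SimpleGraph.dist_le q
    have h2 := hG.dist_triangle (u := o) (v := z) (w := y)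
    have h3 : G.dist z y = 1 := SimpleGraph.dist_eq_one_iff_adj.2 hadj.symm
    rw [SimpleGraph.dist_comm] at h1
    omega

/-- graphs of degree at most two mix slowly -/
theorem small_deg {V : Type} [Fintype V] [DecidableEq V] (G : SimpleGraph V) (K : Ker V) (d : ℕ)
    (o : V) (Θ : ℝ) (m0 : ℕ) (h : IsK G K d o Θ m0) (hd : d ≤ 2) : Fintype.card V ≤ 2 * m0 + 1 := by
  classical
  have hcard : 0 < Fintype.card V := Fintype.card_pos_iff.2 ⟨o⟩
  have hall : ∀ y, G.dist o y ≤ m0 := by
    intro y
    refine dist_le_of_hk G K d o Θ m0 h m0 o y ?_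
    have h1 := h.low m0 o y le_rfl
    have h2 : (0 : ℝ) < 1 / (2 * (Fintype.card V : ℝ)) := by
      have : (0 : ℝ) < Fintype.card V := by exact_mod_cast hcard
      positivity
    exact (lt_of_lt_of_le h2 h1).ne'
  set S : ℕ → Finset V := fun t => univ.filter (fun y => G.dist o y = t) with hS
  have hmemS : ∀ t y, y ∈ S t ↔ G.dist o y = t := by
    intro t y
    simp [hS]
  have hnb : ∀ v, (univ.filter (fun w => G.Adj v w)).card ≤ 2 := by
    intro v
    have := h.hd v
    have e : (univ.filter (fun w => G.Adj v w)).card = d := by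
      rw [← this]
    rw [e]
    exact hd
  have h0 : (S 0).card = 1 := by
    rw [Finset.card_eq_one]
    refine ⟨o, ?_⟩
    ext y
    rw [hmemS, Finset.mem_singleton]
    constructor
    · intro hy
      exact (h.conn.dist_eq_zero_iff.1 hy).symm
    · rintro rfl
      simp
  have h1 : (S 1).card ≤ 2 := by
    refine le_trans (Finset.card_le_card ?_) (hnb o)
    intro y hy
    rw [hmemS] at hy
    simp only [Finset.mem_filter, Finset.mem_univ, true_and]
    exact SimpleGraph.dist_eq_one_iff_adj.1 hy
  have hstep : ∀ t, (S (t + 2)).card ≤ (S (t + 1)).card := by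
    intro t
    have hex : ∀ y, G.dist o y = t + 2 → ∃ z, G.Adj z y ∧ G.dist o z = t + 1 := fun y hy =>
      exists_prev G h.conn o y (t + 1) hy
    choose! g hg using hex
    refine Finset.card_le_card_of_injOn g ?_ ?_
    · intro y hy
      have hy' : G.dist o y = t + 2 := (hmemS _ _).1 hy
      exact (hmemS _ _).2 (hg y hy').2
    · intro y hy y' hy' he
      have e1 : G.dist o y = t + 2 := (hmemS _ _).1 hy
      have e2 : G.dist o y' = t + 2 := (hmemS _ _).1 hy'
      by_contra hne
      obtain ⟨a1, b1⟩ := hg y e1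
      obtain ⟨a2, b2⟩ := hg y' e2
      obtain ⟨u, a3, b3⟩ := exists_prev G h.conn o (g y) t b1
      have hsub : ({y, y', u} : Finset V) ⊆ univ.filter (fun w => G.Adj (g y) w) := by
        intro w hw
        simp only [Finset.mem_insert, Finset.mem_singleton] at hw
        simp only [Finset.mem_filter, Finset.mem_univ, true_and]
        rcases hw with rfl | rfl | rfl
        · exact a1
        · have he' : g y = g w := he
          rw [he']
          exact a2
        · exact a3.symm
      have hc3 : ({y, y', u} : Finset V).card = 3 := by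
        rw [Finset.card_eq_three]
        refine ⟨y, y', u, hne, ?_, ?_, rfl⟩
        · rintro rfl
          omega
        · rintro rfl
          omega
      have := le_trans (Finset.card_le_card hsub) (hnb (g y))
      omega
  have hle : ∀ t, (S (t + 1)).card ≤ 2 := by
    intro t
    induction t with
    | zero => exact h1
    | succ t ih => exact le_trans (hstep t) ih
  have htot : Fintype.card V = ∑ t ∈ Finset.range (m0 + 1), (S t).card := by
    rw [← Finset.card_univ]
    refine Finset.card_eq_sum_card_fiberwise (f := fun y => G.dist o y) ?_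
    intro y _
    have := hall y
    simp only [Finset.coe_range, Set.mem_Iio]
    omega
  rw [htot, Finset.sum_range_succ']
  calc ∑ k ∈ Finset.range m0, (S (k + 1)).card + (S 0).card
      ≤ ∑ k ∈ Finset.range m0, 2 + 1 := by
        rw [h0]
        exact Nat.add_le_add_right (Finset.sum_le_sum (fun k _ => hle k)) 1
    _ = 2 * m0 + 1 := by
        simp [mul_comm]

end

end HP192
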