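import Mathlib
import Pool.Agent.Helper192_HP.Y11
import Pool.Agent.Helper192_HP.Z07
import Pool.Agent.Helper192_HP.FBDef

namespace HP192
open Finset

section
open MeasureTheory Filter Topology

open Classical in
theorem RT_of_FB {V : ℕ → Type} [∀ n, Fintype (V n)] [∀ n, DecidableEq (V n)]
    (G : ∀ n, SimpleGraph (V n)) (hS : Setup V G) (O : ∀ n, V n) (Θ : ℝ) (hΘ1 : 1 ≤ Θ)
    (hΘ : ∀ n, ∀ x : V n,
      ∑ t ∈ range (⌊Real.sqrt (Fintype.card (V n))⌋₊ + 1), ((t : ℝ) + 1) * pt (G n) t x x ≤ Θ)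
    (hFB : FB V G O Θ) (a b ε : ℝ) (ha : 0 < a) (hb : 0 < b) (hε : 0 < ε) :
    ∃ δ : ℝ, 0 < δ ∧ ∀ᶠ n in atTop, ∀ l s : ℕ, a * Real.sqrt (Fintype.card (V n)) ≤ l →
      (l : ℝ) ≤ b * Real.sqrt (Fintype.card (V n)) →
      (s : ℝ) ≤ δ * Real.sqrt (Fintype.card (V n)) →
      avF (G n) (univ.erase (O n)) (fun f => (∑ v,
        ((if l ≤ ht (O n) f v ∧ ht (O n) f v < l + 1 then 1 / ((1 : ℕ) : ℝ) else 0)
        - (if l + s ≤ ht (O n) f v ∧ ht (O n) f v < l + s + 1 then 1 / ((1 : ℕ) : ℝ) else 0))) ^ 2)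
      ≤ ε * Fintype.card (V n) := by
  obtain ⟨η, κ0, εF, hη, hη', hκ0, hκ0', hεF, hκη, hnum⟩ := num Θ a b ε hΘ1 ha hb hε
  obtain ⟨ε1, δ, K2, hε1, hε1', hε1'', hδ, hδ', hK2, hFn⟩ := hFB η κ0 εF hη hη' hκ0 hκ0' hεF
  refine ⟨δ, hδ, ?_⟩
  have hK : (1 : ℝ) ≤ K2 := by exact_mod_cast hK2
  have hρ : 0 < ε1 / (4 * K2) := by positivity
  have hsq := y11_sqrt G hS
  have ev1 := y11_mix G hS _ hρ
  have ev3 := hsq.eventually (eventually_ge_atTop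
    (100 / (η * κ0) + 100 * K2 / ε1 + 100))
  have ev4 := hS.card.eventually hnum
  have ev6 := hS.card.eventually (eventually_ge_atTop 2)
  filter_upwards [ev1, ev3, ev4, ev6, hFn] with n e1 e3 e4 e6 e7
  intro l s hl1 hl2 hs
  obtain ⟨x, hx⟩ : ∃ x : ℝ, x = Real.sqrt (Fintype.card (V n)) := ⟨_, rfl⟩
  have hNpos : (0 : ℝ) < Fintype.card (V n) := by
    have : 0 < Fintype.card (V n) := by omega
    exact_mod_cast this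
  have hxx : x * x = Fintype.card (V n) := by rw [hx]; exact Real.mul_self_sqrt hNpos.le
  rw [← hx] at e1 e3 hl1 hl2 hs
  have q1 : 0 < 100 / (η * κ0) := by positivity
  have q2 : 0 < 100 * K2 / ε1 := by positivity
  have hx0 : 0 < x := by linarith
  have hx1 : 100 ≤ η * κ0 * x := by
    have : 100 / (η * κ0) ≤ x := by linarith
    rw [div_le_iff₀ (by positivity)] at this
    linarith
  have hx2 : 100 * (K2 : ℝ) ≤ ε1 * x := by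
    have : 100 * K2 / ε1 ≤ x := by linarith
    rw [div_le_iff₀ hε1] at this
    linarith
  have hx3 : 100 ≤ x := by linarith
  have hwx : ((1 : ℕ) : ℝ) ≤ ε1 / (4 * K2) * x := by
    rw [div_mul_eq_mul_div, le_div_iff₀ (by positivity)]
    push_cast
    linarith
  obtain ⟨m0, hm0⟩ : ∃ m0 : ℕ, m0 = tmix (G n) := ⟨_, rfl⟩
  rw [← hm0] at e1
  obtain ⟨T, hT⟩ : ∃ T : ℕ, T = ⌊η * x⌋₊ := ⟨_, rfl⟩
  obtain ⟨T1, hT1⟩ : ∃ T1 : ℕ, T1 = ⌊x / 4⌋₊ := ⟨_, rfl⟩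
  obtain ⟨M0, hM0⟩ : ∃ M0 : ℕ, M0 = ⌊κ0 * T⌋₊ := ⟨_, rfl⟩
  obtain ⟨r, hr⟩ : ∃ r : ℕ, r = ⌊ε1 * x⌋₊ := ⟨_, rfl⟩
  obtain ⟨r1, hr1⟩ : ∃ r1 : ℕ, r1 = 2 * (m0 + 1) * K2 := ⟨_, rfl⟩
  obtain ⟨⟨p1, p2, p3, p4, p5, p6⟩, ⟨p7, p8, p9, p10⟩, ⟨p11, p12, p13, p14, p15⟩,
    ⟨p16, p17, p18, p19⟩, p20⟩ := y11_par η κ0 ε1 δ K2 hη hη' hκ0 hκ0' hε1 hε1' hε1'' hδ' hK2 x
      hx1 hx2 hx3 m0 1 T T1 M0 r r1 e1 hwx hT hT1 hM0 hr hr1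
  have hsM := p20 s hs
  obtain ⟨K, d, hIK, hdg⟩ := exists_IsK (G n) (hS.conn n) (hS.trans n) e6 (O n) Θ (hΘ n (O n))
  have e8 := e7 K d hIK s T M0 r1 (by rw [hT, hx]) hM0 (by rw [hr1, hm0]) (by rw [← hx]; exact hs)
  have hTh := hIK.th
  rw [← hx] at hTh
  have hmix : ∀ x y, K.hk m0 x y ≤ 3 / (2 * (Fintype.card (V n) : ℝ)) := by
    intro x y
    rw [hm0]
    exact hIK.up _ x y le_rfl
  obtain ⟨κ, hκ⟩ : ∃ κ : ℝ, κ = 3 / (2 * (Fintype.card (V n) : ℝ)) := ⟨_, rfl⟩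
  rw [← hκ] at hmix
  have hr1' : 2 * m0 + 1 ≤ r1 := by
    rw [hr1]
    have : 2 * (m0 + 1) * 1 ≤ 2 * (m0 + 1) * K2 := Nat.mul_le_mul_left _ hK2
    omega
  have hl : 2 * M0 ≤ l := by
    have h1 : κ0 * η * x * 2 ≤ a * x := by
      have := mul_le_mul_of_nonneg_right hκη hx0.le
      linarith
    have : (2 : ℝ) * M0 ≤ l := by linarith
    exact_mod_cast this
  have key := K.RT_bound (G n) (hS.conn n) d hIK.d0 hIK.hd hIK.hP (O n) l s 1 M0 (2 * M0 + s + 1)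
    T T1 r1 m0 Θ κ εF _ _ _ _ _ _ hmix p1 p2 p3 p4 le_rfl p5 hr1' p8 le_rfl hl (hTh _ p13)
    (hTh _ p14) e8 rfl rfl rfl rfl rfl rfl
  refine key.trans ?_
  refine e4 l s 1 M0 (2 * M0 + s + 1) T T1 κ _ _ _ _ _ _ ?_ ?_ hM0 hκ rfl hsM p10 ?_
    rfl rfl rfl rfl rfl rfl
  · rw [hT, hx]
  · rw [hT1, hx]
  · rw [← hx]; exact hl2

end

end HP192
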