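import Mathlib
import Pool.Agent.Helper192_HP.Fin1
import Pool.Agent.Helper192_HP.Z13

namespace HP192
open Finset

section
open MeasureTheory Filter Topology

theorem fin2_w0 {V : ℕ → Type} [∀ n, Fintype (V n)]
    (hcard : Tendsto (fun n => Fintype.card (V n)) atTop atTop) :
    Tendsto (fun n => ((1 : ℕ) : ℝ) / Real.sqrt (Fintype.card (V n))) atTop (𝓝 0) := by
  have h1 : Tendsto (fun n => (Fintype.card (V n) : ℝ)) atTop atTop :=
    tendsto_natCast_atTop_atTop.comp hcard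
  have h2 : Tendsto (fun n => Real.sqrt (Fintype.card (V n))) atTop atTop :=
    Real.tendsto_sqrt_atTop.comp h1
  exact tendsto_const_nhds.div_atTop h2

/-- the profile converges if the averaged differences of the occupations of levels are small -/
theorem final_FB {V : ℕ → Type} [∀ n, Fintype (V n)] [∀ n, DecidableEq (V n)]
    (G : ∀ n, SimpleGraph (V n)) (hS : Setup V G) (O : ∀ n, V n) (Θ : ℝ) (hΘ1 : 1 ≤ Θ)
    (hΘ : ∀ n, ∀ x : V n,
      ∑ t ∈ range (⌊Real.sqrt (Fintype.card (V n))⌋₊ + 1), ((t : ℝ) + 1) * pt (G n) t x x ≤ Θ)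
    (hFB : FB V G O Θ)
    (β : ℕ → ℝ) (b1 b2 : ℝ) (hb1 : 0 < b1) (hβ : ∀ n, b1 ≤ β n ∧ β n ≤ b2)
    {Ω : Type} [MeasurableSpace Ω] (P : Measure Ω) [IsProbabilityMeasure P]
    (e : Ω → C(unitInterval, ℝ)) (he : Measurable e) (hGHP : GHPconv G O β P e)
    (ℓ : Ω → ℝ → ℝ) (hℓ : ∀ᵐ ω ∂P, ContinuousOn (ℓ ω) (Set.Ici 0) ∧
      ∀ r : ℝ, 0 ≤ r → De (e ω) r = ∫ s in (0 : ℝ)..r, ℓ ω s)
    (m : ℕ) (r : Fin m → ℝ) (hr : ∀ i, 0 < r i)
    (F : (Fin m → ℝ) → ℝ) (hF : Continuous F) (hFb : ∃ C, ∀ x, |F x| ≤ C) :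
    Tendsto (fun n => avT (G n) (fun T => F (fun i =>
      β n / Real.sqrt (Fintype.card (V n))
        * (Hp (O n) T ⌊r i * β n * Real.sqrt (Fintype.card (V n))⌋₊ : ℝ))))
      atTop (𝓝 (∫ ω, F (fun i => ℓ ω (r i)) ∂P)) := by
  have hw0 := fin2_w0 (V := V) hS.card
  have key := profile_of_RT G hS.conn hS.card O β b1 b2 hb1 hβ (fun _ => 1) (fun _ => le_rfl) hw0
    ?_ ?_ P e he hGHP ℓ hℓ m r hr F hF hFb
  · simpa using key
  · intro a b ε ha hb hε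
    obtain ⟨δ, hδ, h⟩ := RT_of_FB G hS O Θ hΘ1 hΘ hFB a b ε ha hb hε
    refine ⟨δ, hδ, h.mono fun n hn l s h1 h2 h3 => ?_⟩
    rw [RT_avT]
    exact hn l s h1 h2 h3
  · intro b hb
    obtain ⟨C, hC, h⟩ := EH_seq G hS O b hb
    refine ⟨C, hC, h.mono fun n hn k hk => ?_⟩
    rw [EH_avT]
    exact hn k hk

/-- degrees tending to infinity -/
theorem final_H {V : ℕ → Type} [∀ n, Fintype (V n)] [∀ n, DecidableEq (V n)]
    (G : ∀ n, SimpleGraph (V n)) (hS : Setup V G) (O : ∀ n, V n)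
    (hdeg : Tendsto (fun n => dg (G n) (O n)) atTop atTop)
    (β : ℕ → ℝ) (b1 b2 : ℝ) (hb1 : 0 < b1) (hβ : ∀ n, b1 ≤ β n ∧ β n ≤ b2)
    {Ω : Type} [MeasurableSpace Ω] (P : Measure Ω) [IsProbabilityMeasure P]
    (e : Ω → C(unitInterval, ℝ)) (he : Measurable e) (hGHP : GHPconv G O β P e)
    (ℓ : Ω → ℝ → ℝ) (hℓ : ∀ᵐ ω ∂P, ContinuousOn (ℓ ω) (Set.Ici 0) ∧
      ∀ r : ℝ, 0 ≤ r → De (e ω) r = ∫ s in (0 : ℝ)..r, ℓ ω s)
    (m : ℕ) (r : Fin m → ℝ) (hr : ∀ i, 0 < r i)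
    (F : (Fin m → ℝ) → ℝ) (hF : Continuous F) (hFb : ∃ C, ∀ x, |F x| ≤ C) :
    Tendsto (fun n => avT (G n) (fun T => F (fun i =>
      β n / Real.sqrt (Fintype.card (V n))
        * (Hp (O n) T ⌊r i * β n * Real.sqrt (Fintype.card (V n))⌋₊ : ℝ))))
      atTop (𝓝 (∫ ω, F (fun i => ℓ ω (r i)) ∂P)) := by
  have hw0 := fin2_w0 (V := V) hS.card
  have h := final_w G hS O β b1 b2 hb1 hβ P e he hGHP ℓ hℓ (fun _ => 1)
    (fun _ => le_refl _) hw0 (Or.inr ⟨fun _ => rfl, hdeg⟩) m r hr F hF hFb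
  simpa using h

theorem Setup.sub {V : ℕ → Type} [∀ n, Fintype (V n)] [∀ n, DecidableEq (V n)]
    {G : ∀ n, SimpleGraph (V n)} (hS : Setup V G) (φ : ℕ → ℕ) (hφ : Tendsto φ atTop atTop) :
    Setup (fun n => V (φ n)) (fun n => G (φ n)) where
  conn n := hS.conn (φ n)
  trans n := hS.trans (φ n)
  card := hS.card.comp hφ
  a1 := by
    obtain ⟨θ, h⟩ := hS.a1
    exact ⟨θ, fun n => h (φ n)⟩
  a2 := by
    obtain ⟨α, h, h'⟩ := hS.a2
    exact ⟨α, h, h'.comp hφ⟩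

theorem GHPconv.sub {V : ℕ → Type} [∀ n, Fintype (V n)] [∀ n, DecidableEq (V n)]
    {G : ∀ n, SimpleGraph (V n)} {O : ∀ n, V n} {β : ℕ → ℝ}
    {Ω : Type} [MeasurableSpace Ω] {P : Measure Ω} {e : Ω → C(unitInterval, ℝ)}
    (h : GHPconv G O β P e) (φ : ℕ → ℕ) (hφ : Tendsto φ atTop atTop) :
    GHPconv (fun n => G (φ n)) (fun n => O (φ n)) (fun n => β (φ n)) P e :=
  fun ε hε => hφ.eventually (h ε hε)

/-- for large `n` the degree is at least three -/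
theorem deg_three {V : ℕ → Type} [∀ n, Fintype (V n)] [∀ n, DecidableEq (V n)]
    (G : ∀ n, SimpleGraph (V n)) (hS : Setup V G) (O : ∀ n, V n) :
    ∀ᶠ n in atTop, 3 ≤ dg (G n) (O n) := by
  obtain ⟨θ, hθ⟩ := hS.a1
  have ev1 := y11_mix G hS (1 / 8) (by norm_num)
  have ev2 := (y11_sqrt G hS).eventually (eventually_ge_atTop 100)
  have ev3 := hS.card.eventually (eventually_ge_atTop 2)
  filter_upwards [ev1, ev2, ev3] with n e1 e2 e3
  obtain ⟨K, d, hIK, hdg⟩ := exists_IsK (G n) (hS.conn n) (hS.trans n) e3 (O n) θ (hθ n (O n))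
  rw [hdg]
  by_contra hlt
  have h1 := small_deg (G n) K d (O n) θ _ hIK (by omega)
  have h2 : (Fintype.card (V n) : ℝ) ≤ 2 * tmix (G n) + 1 := by exact_mod_cast h1
  have h3 : Real.sqrt (Fintype.card (V n)) * Real.sqrt (Fintype.card (V n)) = Fintype.card (V n) :=
    Real.mul_self_sqrt (Nat.cast_nonneg _)
  nlinarith

end

end HP192
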