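import Mathlib
import Pool.Agent.Helper192_HP.Defs

namespace HP192
open Finset


/-! DEFINITIONS: symmetric killed kernels (everything in ENNReal) -/

/-- a symmetric killed kernel: `Q x y` is the probability of a step from `x` to `y`, `lam` is the
probability of being killed instead of making a step -/
structure KK (V : Type) [Fintype V] [DecidableEq V] where
  Q : V → V → ENNReal
  lam : ENNReal
  lam0 : lam ≠ 0
  row : ∀ x, lam + ∑ y, Q x y = 1
  sym : ∀ x y, Q x y = Q y x

open Classical in
/-- indicator -/
noncomputable def ind (p : Prop) : ENNReal := if p then 1 else 0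

/-- no vertex of the list lies in `C` -/
def Av {V : Type} (C : Finset V) (w : List V) : Prop := ∀ y ∈ w, y ∉ C

/-- disjoint lists -/
def Dj {V : Type} (w w' : List V) : Prop := ∀ y ∈ w, y ∉ w'

namespace KK
variable {V : Type} [Fintype V] [DecidableEq V] (K : KK V)

/-- weight of the path `w` (newest vertex first, start excluded) walked from `x` -/
noncomputable def wt (x : V) : List V → ENNReal
  | [] => 1
  | y :: w => K.Q (tip x w) y * wt x w

/-- expectation of `F` (path until killing, newest vertex first, start excluded) for the killed
walk from `x` -/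
noncomputable def E (x : V) (F : List V → ENNReal) : ENNReal := K.lam * ∑' w, K.wt x w * F w

/-- Green function -/
noncomputable def G (x y : V) : ENNReal := ∑' w, K.wt x w * ind (tip x w = y)

/-- standing assumptions: transitivity and bounds on the Green function -/
structure Good (B : ℝ) : Prop where
  B1 : 1 ≤ B
  tr : ∀ x y, ∃ g : Equiv.Perm V, g x = y ∧ ∀ a b, K.Q (g a) (g b) = K.Q a b
  G2 : ∀ x, ∑ z, K.G x z * K.G x z ≤ ENNReal.ofReal B
  G1 : ∀ x y, x ≠ y → K.G x y + 1 ≤ K.G x x

/-- sum of the Green function along the path (start included) -/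
noncomputable def hU (u t : V) (w : List V) : ENNReal :=
  ∑ i ∈ range (w.length + 1), K.G u (tip t (w.drop i))

/-- probability that the walk from `t` avoids `C` after time 0 -/
noncomputable def esc (C : Finset V) (t : V) : ENNReal := K.E t (fun w => ind (Av C w))

/-- probability that independent walks from `u` and `v` avoid `C` after time 0 and are disjoint -/
noncomputable def Pi2 (C : Finset V) (u v : V) : ENNReal :=
  K.E u (fun w1 => K.E v (fun w2 => ind (Av C w1 ∧ Av C w2 ∧ Dj w1 w2)))

/-- probability that four independent walks avoid `C` after time 0 and that the first two are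
disjoint from the last two -/
noncomputable def Cf (C : Finset V) (u1 u2 v1 v2 : V) : ENNReal :=
  K.E u1 (fun p1 => K.E u2 (fun p2 => K.E v1 (fun f1 => K.E v2 (fun f2 =>
    ind (Av C p1 ∧ Av C p2 ∧ Av C f1 ∧ Av C f2 ∧ Dj p1 f1 ∧ Dj p1 f2 ∧ Dj p2 f1 ∧ Dj p2 f2)))))

/-- probability that independent walks from `x` and `y` (starting points included) are disjoint -/
noncomputable def sd (x y : V) : ENNReal :=
  K.E x (fun w1 => K.E y (fun w2 => ind (Dj (w1 ++ [x]) (w2 ++ [y]))))

end KK


end HP192
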