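import Mathlib
import Pool.Agent.Helper192_HP.Defs
import Pool.Agent.Helper192_HP.KDefs

namespace HP192
open Finset

namespace KK
namespace Aux
variable {V : Type} [Fintype V] [DecidableEq V] (K : KK V)

lemma tip_append (x : V) (w2 w1 : List V) : tip x (w2 ++ w1) = tip (tip x w1) w2 := by
  cases w2 <;> simp [tip]

lemma lam_le' (x : V) : K.lam ≤ 1 := by
  rw [← K.row x]
  exact le_self_add

lemma rowsum (x : V) : ∑ y, K.Q x y = 1 - K.lam := by
  have h := K.row x
  rw [← h]
  rw [ENNReal.add_sub_cancel_left]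
  exact (lt_of_le_of_lt (lam_le' K x) ENNReal.one_lt_top).ne

lemma wt_cons (x y : V) (w : List V) : K.wt x (y :: w) = K.Q (tip x w) y * K.wt x w := rfl

lemma sum_len (x : V) (n : ℕ) : ∑ f : Fin n → V, K.wt x (List.ofFn f) = (1 - K.lam) ^ n := by
  induction n with
  | zero => simp [wt]
  | succ n ih =>
    rw [← (Fin.consEquiv (fun _ : Fin (n + 1) => V)).sum_comp, Fintype.sum_prod_type,
      Finset.sum_comm]
    have : ∀ f : Fin n → V, ∑ y : V, K.wt x (List.ofFn ((Fin.consEquiv (fun _ : Fin (n + 1) => V))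
        (y, f))) = (1 - K.lam) * K.wt x (List.ofFn f) := by
      intro f
      rw [← rowsum K (tip x (List.ofFn f)), Finset.sum_mul]
      refine Finset.sum_congr rfl fun y _ => ?_
      rw [← wt_cons]
      congr 1
      simp [Fin.consEquiv, List.ofFn_succ]
    simp only [this]
    rw [← Finset.mul_sum, ih, pow_succ, mul_comm]

lemma tot (x : V) : ∑' w, K.wt x w = K.lam⁻¹ := by
  rw [← List.equivSigmaTuple.symm.tsum_eq, ENNReal.tsum_sigma']
  have : ∀ n, ∑' f : Fin n → V, K.wt x (List.equivSigmaTuple.symm ⟨n, f⟩) = (1 - K.lam) ^ n := by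
    intro n
    rw [tsum_fintype]
    exact sum_len K x n
  simp only [this]
  rw [ENNReal.tsum_geometric, ENNReal.sub_sub_cancel ENNReal.one_ne_top (lam_le' K x)]

lemma two_mul_le (a b : ENNReal) : 2 * (a * b) ≤ a ^ 2 + b ^ 2 := by
  rcases le_total a b with h | h
  · obtain ⟨c, rfl⟩ := exists_add_of_le h
    calc 2 * (a * (a + c)) ≤ 2 * (a * (a + c)) + c ^ 2 := le_self_add
      _ = a ^ 2 + (a + c) ^ 2 := by ring
  · obtain ⟨c, rfl⟩ := exists_add_of_le h
    calc 2 * ((b + c) * b) ≤ 2 * ((b + c) * b) + c ^ 2 := le_self_add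
      _ = (b + c) ^ 2 + b ^ 2 := by ring

/-- lists: empty or with a last element -/
def lastEquiv (V : Type) : Unit ⊕ (V × List V) ≃ List V where
  toFun s := match s with
    | .inl _ => []
    | .inr p => p.2 ++ [p.1]
  invFun w := match w.reverse with
    | [] => .inl ()
    | y :: l => .inr (y, l.reverse)
  left_inv := by
    rintro (u | ⟨y, w⟩)
    · rfl
    · simp
  right_inv := by
    intro w
    rcases List.eq_nil_or_concat w with rfl | ⟨l, y, rfl⟩
    · rfl
    · simp

lemma tsum_last (F : List V → ENNReal) : ∑' w, F w = F [] + ∑ y, ∑' w, F (w ++ [y]) := by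
  rw [← (lastEquiv V).tsum_eq]
  rw [Summable.tsum_sum (f := fun c => F ((lastEquiv V) c)) ENNReal.summable ENNReal.summable]
  rw [ENNReal.tsum_prod', tsum_fintype, tsum_fintype]
  simp [lastEquiv]

end Aux

open Aux

variable {V : Type} [Fintype V] [DecidableEq V] (K : KK V)

theorem wt_append (x : V) (w2 w1 : List V) :
    K.wt x (w2 ++ w1) = K.wt (tip x w1) w2 * K.wt x w1 := by
  induction w2 with
  | nil => simp [wt]
  | cons y w2 ih =>
    rw [List.cons_append, wt_cons, wt_cons, ih, tip_append, mul_assoc]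

theorem E_const (x : V) (c : ENNReal) : K.E x (fun _ => c) = c := by
  unfold E
  rw [ENNReal.tsum_mul_right, tot, ← mul_assoc, ENNReal.mul_inv_cancel K.lam0
    (lt_of_le_of_lt (lam_le' K x) ENNReal.one_lt_top).ne, one_mul]

theorem E_mono (x : V) (F F' : List V → ENNReal) (h : ∀ w, F w ≤ F' w) :
    K.E x F ≤ K.E x F' := by
  unfold E
  gcongr with w
  exact h w

theorem E_add (x : V) (F F' : List V → ENNReal) :
    K.E x (fun w => F w + F' w) = K.E x F + K.E x F' := by
  unfold E
  rw [← mul_add, ← ENNReal.tsum_add]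
  simp only [mul_add]

theorem E_mul_left (x : V) (c : ENNReal) (F : List V → ENNReal) :
    K.E x (fun w => c * F w) = c * K.E x F := by
  unfold E
  rw [mul_left_comm, ← ENNReal.tsum_mul_left (a := c)]
  simp only [mul_left_comm c]

theorem E_sum {ι : Type*} (s : Finset ι) (x : V) (F : ι → List V → ENNReal) :
    K.E x (fun w => ∑ i ∈ s, F i w) = ∑ i ∈ s, K.E x (F i) := by
  classical
  induction s using Finset.induction_on with
  | empty => simp [E]
  | insert a s ha ih =>
    simp only [Finset.sum_insert ha]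
    rw [E_add, ih]

theorem E_comm (x y : V) (F : List V → List V → ENNReal) :
    K.E x (fun w => K.E y (fun w' => F w w')) = K.E y (fun w' => K.E x (fun w => F w w')) := by
  unfold E
  simp only [← ENNReal.tsum_mul_left]
  rw [ENNReal.tsum_comm]
  refine tsum_congr fun w' => tsum_congr fun w => ?_
  ring

theorem E_sq_le (x : V) (F : List V → ENNReal) :
    (K.E x F) ^ 2 ≤ K.E x (fun w => F w ^ 2) := by
  have h1 : 2 * (K.E x F) ^ 2 = K.E x (fun w => K.E x (fun w' => 2 * (F w * F w'))) := by
    simp only [E_mul_left]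
    rw [sq]
    congr 1
    have : (fun w => F w * K.E x (fun w => F w)) = fun w => K.E x F * F w := by
      funext w; rw [mul_comm]
    rw [this, E_mul_left]
  have h2 : K.E x (fun w => K.E x (fun w' => 2 * (F w * F w'))) ≤
      K.E x (fun w => K.E x (fun w' => F w ^ 2 + F w' ^ 2)) :=
    K.E_mono _ _ _ fun w => K.E_mono _ _ _ fun w' => two_mul_le _ _
  have h3 : K.E x (fun w => K.E x (fun w' => F w ^ 2 + F w' ^ 2)) =
      2 * K.E x (fun w => F w ^ 2) := by
    simp only [E_add, E_const]
    rw [two_mul]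
  rw [h3, ← h1] at h2
  exact (ENNReal.mul_le_mul_iff_right two_ne_zero ENNReal.ofNat_ne_top).1 h2

/-- first step -/
theorem E_first (x : V) (F : List V → ENNReal) :
    K.E x F = K.lam * F [] + ∑ y, K.Q x y * K.E y (fun w => F (w ++ [y])) := by
  unfold E
  rw [tsum_last, mul_add, Finset.mul_sum]
  congr 1
  · simp [wt]
  · refine Finset.sum_congr rfl fun y _ => ?_
    have h1 : K.wt x [y] = K.Q x y := by simp [wt, tip]
    have h2 : tip x [y] = y := rfl
    have h3 : ∑' w : List V, K.wt x (w ++ [y]) * F (w ++ [y]) =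
        ∑' w : List V, K.Q x y * (K.wt y w * F (w ++ [y])) := by
      refine tsum_congr fun w => ?_
      rw [wt_append, h1, h2]
      ring
    rw [h3, ENNReal.tsum_mul_left]
    ring

/-- invariance under symmetries -/
theorem E_auto (g : Equiv.Perm V) (hg : ∀ a b, K.Q (g a) (g b) = K.Q a b) (x : V)
    (F : List V → ENNReal) : K.E (g x) F = K.E x (fun w => F (w.map g)) := by
  have ht : ∀ w : List V, tip (g x) (w.map g) = g (tip x w) := by
    intro w; cases w <;> rfl
  have h : ∀ w : List V, K.wt (g x) (w.map g) = K.wt x w := by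
    intro w
    induction w with
    | nil => rfl
    | cons y w ih => rw [List.map_cons, wt_cons, wt_cons, ih, ht, hg]
  unfold E
  have h3 : ∑' w : List V, K.wt (g x) w * F w = ∑' w : List V, K.wt x w * F (w.map g) := by
    rw [← (Equiv.listEquivOfEquiv g).tsum_eq (fun w => K.wt (g x) w * F w)]
    refine tsum_congr fun w => ?_
    show K.wt (g x) (w.map g) * F (w.map g) = _
    rw [h]
  rw [h3]

end KK

end HP192
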