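import Mathlib
import Pool.Agent.Helper192_HP.Defs
import Pool.Agent.Helper192_HP.KDefs
import Pool.Agent.Helper192_HP.K01

namespace HP192
open Finset

-- TARGET
namespace KK
variable {V : Type} [Fintype V] [DecidableEq V] (K : KK V)

/-- the product of two expectations -/
theorem Cf_self_prod (x y : V) (F F' : List V → ENNReal) :
    K.E x F * K.E y F' = K.E x (fun w => K.E y (fun w' => F w * F' w')) := by
  have h1 : ∀ w, K.E y (fun w' => F w * F' w') = K.E y F' * F w := by
    intro w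
    rw [K.E_mul_left y (F w) F', mul_comm]
  simp only [h1]
  rw [K.E_mul_left x (K.E y F') F, mul_comm]

theorem Cf_self_ind (p q : Prop) : ind p * ind q = ind (p ∧ q) := by
  unfold ind
  by_cases hp : p <;> by_cases hq : q <;> simp [hp, hq]

theorem Cf_self (C : Finset V) (u v : V) : K.Pi2 C u v ^ 4 ≤ K.Cf C u u v v := by
  set c : List V → List V → ENNReal := fun p f => ind (Av C p ∧ Av C f ∧ Dj p f) with hc
  -- the indicator as a product
  have hprod : ∀ p1 p2 f1 f2, ind (Av C p1 ∧ Av C p2 ∧ Av C f1 ∧ Av C f2 ∧ Dj p1 f1 ∧ Dj p1 f2 ∧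
      Dj p2 f1 ∧ Dj p2 f2) = (c p1 f1 * c p1 f2) * (c p2 f1 * c p2 f2) := by
    intro p1 p2 f1 f2
    simp only [hc, Cf_self_ind]
    congr 1
    apply propext
    tauto
  set A : List V → List V → ENNReal := fun f1 f2 => K.E u (fun p => c p f1 * c p f2) with hA
  have h1 : K.Cf C u u v v = K.E v (fun f1 => K.E v (fun f2 => A f1 f2 ^ 2)) := by
    unfold Cf
    simp only [hprod]
    have e1 : ∀ f1 f2, A f1 f2 ^ 2 = K.E u (fun p1 => K.E u (fun p2 =>
        (c p1 f1 * c p1 f2) * (c p2 f1 * c p2 f2))) := by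
      intro f1 f2
      rw [sq]
      exact K.Cf_self_prod u u _ _
    simp only [e1]
    -- move the two expectations over `v` outside
    have e2 : ∀ p1, K.E u (fun p2 => K.E v (fun f1 => K.E v (fun f2 =>
        (c p1 f1 * c p1 f2) * (c p2 f1 * c p2 f2)))) =
        K.E v (fun f1 => K.E v (fun f2 => K.E u (fun p2 =>
          (c p1 f1 * c p1 f2) * (c p2 f1 * c p2 f2)))) := by
      intro p1
      rw [K.E_comm u v]
      congr 1
      funext f1
      rw [K.E_comm u v]
    simp only [e2]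
    rw [K.E_comm u v]
    congr 1
    funext f1
    rw [K.E_comm u v]
  have h2 : K.E v (fun f1 => K.E v (fun f2 => A f1 f2)) =
      K.E u (fun p => (K.E v (fun f => c p f)) ^ 2) := by
    have e1 : ∀ p, (K.E v (fun f => c p f)) ^ 2 =
        K.E v (fun f1 => K.E v (fun f2 => c p f1 * c p f2)) := by
      intro p
      rw [sq]
      exact K.Cf_self_prod v v _ _
    simp only [e1, hA]
    rw [K.E_comm u v]
    congr 1
    funext f1
    rw [K.E_comm u v]
  have h3 : K.Pi2 C u v ^ 2 ≤ K.E v (fun f1 => K.E v (fun f2 => A f1 f2)) := by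
    rw [h2]
    unfold Pi2
    exact K.E_sq_le u _
  rw [h1]
  calc K.Pi2 C u v ^ 4 = (K.Pi2 C u v ^ 2) ^ 2 := by rw [← pow_mul]
    _ ≤ (K.E v (fun f1 => K.E v (fun f2 => A f1 f2))) ^ 2 := pow_le_pow_left' h3 2
    _ ≤ K.E v (fun f1 => (K.E v (fun f2 => A f1 f2)) ^ 2) := K.E_sq_le v _
    _ ≤ K.E v (fun f1 => K.E v (fun f2 => A f1 f2 ^ 2)) :=
        K.E_mono v _ _ fun f1 => K.E_sq_le v _

end KK

end HP192
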