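import Mathlib
import Pool.Agent.Helper192_HP.Defs
import Pool.Agent.Helper192_HP.KDefs
import Pool.Agent.Helper192_HP.K01

namespace HP192
open Finset

-- TARGET
namespace KK
variable {V : Type} [Fintype V] [DecidableEq V] (K : KK V)

/-- splitting equivalence -/
def splEq (V : Type) : (Σ w : List V, Fin (w.length + 1)) ≃ List V × List V where
  toFun p := (p.1.drop p.2, p.1.take p.2)
  invFun q := ⟨q.2 ++ q.1, ⟨q.2.length, by simp⟩⟩
  left_inv := by
    rintro ⟨w, i, hi⟩
    have h1 : w.take i ++ w.drop i = w := List.take_append_drop i w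
    have h2 : (w.take i).length = i := by
      rw [List.length_take]; omega
    apply Sigma.ext
    · exact h1
    · have h3 : ((w.take i ++ w.drop i).length + 1) = w.length + 1 := by rw [h1]
      exact (Fin.heq_ext_iff h3).2 h2
  right_inv := by
    rintro ⟨w1, w2⟩
    simp

/-- Markov property, summed over all times: `w1` is the older part and `w2` the newer part -/
theorem E_split (x : V) (g : List V → List V → ENNReal) :
    K.E x (fun w => ∑ i ∈ range (w.length + 1), g (w.take i) (w.drop i))
      = ∑' w1, K.wt x w1 * K.E (tip x w1) (fun w2 => g w2 w1) := by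
  have hR : ∑' w1, K.wt x w1 * K.E (tip x w1) (fun w2 => g w2 w1)
      = K.lam * ∑' q : List V × List V, K.wt x (q.2 ++ q.1) * g q.2 q.1 := by
    rw [ENNReal.tsum_prod', ← ENNReal.tsum_mul_left]
    refine tsum_congr fun w1 => ?_
    unfold E
    rw [← ENNReal.tsum_mul_left, ← ENNReal.tsum_mul_left, ← ENNReal.tsum_mul_left]
    refine tsum_congr fun w2 => ?_
    rw [wt_append]
    ring
  rw [hR]
  unfold E
  congr 1
  rw [← (splEq V).tsum_eq, ENNReal.tsum_sigma']
  refine tsum_congr fun w => ?_
  rw [tsum_fintype, Finset.mul_sum, ← Fin.sum_univ_eq_sum_range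
    (fun i => K.wt x w * g (w.take i) (w.drop i)) (w.length + 1)]
  refine Finset.sum_congr rfl fun i _ => ?_
  simp [splEq]

theorem G_sum (x : V) (φ : V → ENNReal) :
    ∑' w, K.wt x w * φ (tip x w) = ∑ z, K.G x z * φ z := by
  unfold G
  simp_rw [← ENNReal.tsum_mul_right]
  rw [← tsum_fintype (L := SummationFilter.unconditional _), ENNReal.tsum_comm]
  refine tsum_congr fun w => ?_
  rw [tsum_fintype]
  rw [Finset.sum_eq_single (tip x w)]
  · simp [ind]
  · intro b _ hb
    have : ¬ (tip x w = b) := fun h => hb h.symm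
    simp [ind, this]
  · intro h
    exact absurd (Finset.mem_univ _) h

/-- lists are empty or a head with a tail -/
def loEq (V : Type) : Option (V × List V) ≃ List V where
  toFun o := match o with
    | none => []
    | some p => p.1 :: p.2
  invFun w := match w with
    | [] => none
    | v :: w => some (v, w)
  left_inv := by rintro (_ | ⟨v, w⟩) <;> rfl
  right_inv := by rintro (_ | ⟨v, w⟩) <;> rfl

theorem tsum_list (f : List V → ENNReal) :
    ∑' w, f w = f [] + ∑ v : V, ∑' w, f (v :: w) := by
  classical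
  have h1 : ∑' w, f w = f [] + ∑' w, if w = [] then 0 else f w := by
    rw [ENNReal.tsum_eq_add_tsum_ite ([] : List V)]
    congr 1
    refine tsum_congr fun w => ?_
    by_cases hw : w = []
    · simp [hw]
    · simp [hw]
  have h2 : (∑' w, if w = [] then 0 else f w) = ∑' p : V × List V, f (p.1 :: p.2) := by
    have hinj : Function.Injective (fun p : V × List V => p.1 :: p.2) := by
      rintro ⟨a, b⟩ ⟨c, d⟩ h
      simp only [List.cons.injEq] at h
      simp [h.1, h.2]
    have := hinj.tsum_eq (f := fun w => if w = [] then (0 : ENNReal) else f w) (by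
      intro w hw
      rcases w with _ | ⟨a, b⟩
      · simp at hw
      · exact ⟨(a, b), rfl⟩)
    rw [← this]
    simp
  rw [h1, h2, ENNReal.tsum_prod', tsum_fintype]

/-- paths of length `t` from `x` to `y` -/
noncomputable def Sg (t : ℕ) : Matrix V V ENNReal :=
  fun x y => ∑' w, K.wt x w * ind (tip x w = y) * ind (w.length = t)

theorem Sg_zero : K.Sg 0 = 1 := by
  ext x y
  unfold Sg
  rw [tsum_list]
  simp [ind, wt, tip, Matrix.one_apply]

theorem Sg_succ (t : ℕ) : K.Sg (t + 1) = K.Sg t * Matrix.of K.Q := by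
  ext x y
  unfold Sg
  rw [tsum_list, Matrix.mul_apply]
  have h0 : ∀ v : V, ∑' w, K.wt x (v :: w) * ind (tip x (v :: w) = y) *
      ind ((v :: w).length = t + 1) = if v = y then
        ∑ z, K.Sg t x z * K.Q z y else 0 := by
    intro v
    by_cases hv : v = y
    · subst hv
      rw [if_pos rfl]
      unfold Sg
      simp_rw [← ENNReal.tsum_mul_right]
      rw [← tsum_fintype (L := SummationFilter.unconditional _), ENNReal.tsum_comm]
      refine tsum_congr fun w => ?_
      rw [tsum_fintype, Finset.sum_eq_single (tip x w)]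
      · simp [ind, wt, tip]
        by_cases hl : w.length = t
        · simp [hl, mul_comm]
        · simp [hl]
      · intro b _ hb
        have : ¬ (tip x w = b) := fun h => hb h.symm
        simp [ind, this]
      · intro h
        exact absurd (Finset.mem_univ _) h
    · rw [if_neg hv]
      simp [ind, tip, hv]
  rw [Finset.sum_congr rfl (fun v _ => h0 v)]
  simp [ind, Sg]

theorem Sg_pow (t : ℕ) : K.Sg t = (Matrix.of K.Q) ^ t := by
  induction t with
  | zero => rw [Sg_zero, pow_zero]
  | succ t ih => rw [Sg_succ, ih, pow_succ]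

theorem Sg_symm (t : ℕ) (x y : V) : K.Sg t x y = K.Sg t y x := by
  have h1 : (Matrix.of K.Q).transpose = Matrix.of K.Q := by
    ext a b
    simp [Matrix.transpose_apply, K.sym a b]
  have h2 : ((Matrix.of K.Q) ^ t).transpose = (Matrix.of K.Q) ^ t := by
    rw [Matrix.transpose_pow, h1]
  rw [Sg_pow]
  conv_lhs => rw [← h2]
  rfl

theorem G_eq_Sg (x y : V) : K.G x y = ∑' t, K.Sg t x y := by
  unfold G Sg
  rw [ENNReal.tsum_comm]
  refine tsum_congr fun w => ?_
  rw [ENNReal.tsum_mul_left, tsum_eq_single w.length]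
  · simp [ind]
  · intro b hb
    have : ¬ (w.length = b) := fun h => hb h.symm
    simp [ind, this]

theorem G_symm (x y : V) : K.G x y = K.G y x := by
  rw [G_eq_Sg, G_eq_Sg]
  exact tsum_congr fun t => K.Sg_symm t x y

theorem one_le_G (x : V) : 1 ≤ K.G x x := by
  unfold G
  refine le_trans ?_ (ENNReal.le_tsum ([] : List V))
  simp [wt, tip, ind]

theorem G_le_self (x : V) (B : ℝ) (hB : K.Good B) : K.G x x ≤ ENNReal.ofReal B := by
  have h1 : K.G x x ≤ K.G x x * K.G x x := by
    calc K.G x x = 1 * K.G x x := (one_mul _).symm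
      _ ≤ K.G x x * K.G x x := mul_le_mul_left (K.one_le_G x) _
  refine h1.trans (le_trans ?_ (hB.G2 x))
  exact Finset.single_le_sum (f := fun z => K.G x z * K.G x z) (fun _ _ => zero_le)
    (Finset.mem_univ x)

theorem G_le (B : ℝ) (hB : K.Good B) (x y : V) : K.G x y ≤ ENNReal.ofReal B := by
  by_cases h : x = y
  · subst h
    exact K.G_le_self x B hB
  · exact (le_trans (le_self_add) (hB.G1 x y h)).trans (K.G_le_self x B hB)

theorem two_ab (a b : ENNReal) : 2 * (a * b) ≤ a * a + b * b := by
  by_cases ha : a = ⊤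
  · subst ha; simp
  by_cases hb : b = ⊤
  · subst hb; simp
  lift a to NNReal using ha
  lift b to NNReal using hb
  have := two_mul_le_add_sq a b
  have h2 : 2 * (a * b) ≤ a * a + b * b := by nlinarith [this]
  exact_mod_cast h2

theorem GG_le (B : ℝ) (hB : K.Good B) (x y : V) :
    ∑ z, K.G x z * K.G y z ≤ ENNReal.ofReal B := by
  have h1 : 2 * ∑ z, K.G x z * K.G y z ≤ 2 * ENNReal.ofReal B := by
    rw [Finset.mul_sum]
    calc ∑ z, 2 * (K.G x z * K.G y z) ≤ ∑ z, (K.G x z * K.G x z + K.G y z * K.G y z) :=
          Finset.sum_le_sum fun z _ => two_ab _ _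
      _ = ∑ z, K.G x z * K.G x z + ∑ z, K.G y z * K.G y z := Finset.sum_add_distrib
      _ ≤ ENNReal.ofReal B + ENNReal.ofReal B := add_le_add (hB.G2 x) (hB.G2 y)
      _ = 2 * ENNReal.ofReal B := (two_mul _).symm
  exact (ENNReal.mul_le_mul_iff_right (by norm_num) (by norm_num)).1 h1

end KK

end HP192
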