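import Mathlib
import Pool.Agent.Helper192_HP.Defs
import Pool.Agent.Helper192_HP.KDefs
import Pool.Agent.Helper192_HP.K01
import Pool.Agent.Helper192_HP.K02

namespace HP192
open Finset

-- TARGET

section aux
theorem aux_sq_le (a : ℕ → ENNReal) (N : ℕ) :
    (∑ i ∈ range N, a i) ^ 2 ≤ 2 * ∑ i ∈ range N, a i * ∑ j ∈ range (i + 1), a j := by
  induction N with
  | zero => simp
  | succ N ih =>
    rw [Finset.sum_range_succ, Finset.sum_range_succ]
    have h1 : (∑ i ∈ range N, a i + a N) ^ 2
        = (∑ i ∈ range N, a i) ^ 2 + (2 * (a N * ∑ i ∈ range N, a i) + a N * a N) := by ring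
    rw [h1, mul_add]
    refine add_le_add ih ?_
    rw [Finset.sum_range_succ, mul_add, mul_add]
    refine add_le_add le_rfl ?_
    rw [two_mul]
    exact le_self_add

theorem aux_tip_append {V : Type} (x : V) (a b : List V) : tip x (a ++ b) = tip (tip x b) a := by
  cases a with
  | nil => simp [tip]
  | cons v a => simp [tip]

theorem aux_drop {V : Type} (w : List V) (i j : ℕ) (h : j ≤ i) :
    w.drop j = (w.take i).drop j ++ w.drop i := by
  induction w generalizing i j with
  | nil => simp
  | cons v w ih =>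
    cases i with
    | zero =>
      have : j = 0 := by omega
      subst this
      simp
    | succ i =>
      cases j with
      | zero => simp
      | succ j =>
        simp only [List.drop_succ_cons, List.take_succ_cons]
        exact ih i j (by omega)

end aux

namespace KK
variable {V : Type} [Fintype V] [DecidableEq V] (K : KK V)

theorem aux_hU (u t : V) (w : List V) (i : ℕ) (hi : i ≤ w.length) :
    ∑ j ∈ range (i + 1), K.G u (tip t (w.drop j)) = K.hU u (tip t (w.drop i)) (w.take i) := by
  unfold hU
  have hl : (w.take i).length = i := by simp [hi]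
  rw [hl]
  refine Finset.sum_congr rfl ?_
  intro j hj
  have hj' : j ≤ i := by
    have := Finset.mem_range.1 hj
    omega
  rw [← aux_tip_append, ← aux_drop w i j hj']

theorem aux_E_hU (B : ℝ) (hB : K.Good B) (u p : V) :
    K.E p (K.hU u p) ≤ ENNReal.ofReal B := by
  have h := K.E_split p (fun _ w1 => K.G u (tip p w1))
  have h2 : K.E p (K.hU u p) = K.E p (fun w => ∑ i ∈ range (w.length + 1),
      (fun _ w1 => K.G u (tip p w1)) (w.take i) (w.drop i)) := rfl
  rw [h2, h]
  have h3 : (∑' w1, K.wt p w1 * K.E (tip p w1) (fun w2 => (fun (_ : List V) w1 => K.G u (tip p w1)) w2 w1))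
      = ∑' w1, K.wt p w1 * K.G u (tip p w1) := by
    refine tsum_congr ?_
    intro w1
    rw [K.E_const]
  rw [h3, K.G_sum p (fun z => K.G u z)]
  exact K.GG_le B hB p u

theorem hU_sq (B : ℝ) (hB : K.Good B) (u t : V) :
    K.E t (fun w => K.hU u t w ^ 2) ≤ ENNReal.ofReal (2 * B ^ 2) := by
  have h1 : K.E t (fun w => K.hU u t w ^ 2) ≤
      K.E t (fun w => 2 * ∑ i ∈ range (w.length + 1),
        (fun w2 w1 => K.G u (tip t w1) * K.hU u (tip t w1) w2) (w.take i) (w.drop i)) := by
    refine K.E_mono t _ _ ?_
    intro w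
    have h := aux_sq_le (fun i => K.G u (tip t (w.drop i))) (w.length + 1)
    have h2 : ∑ i ∈ range (w.length + 1), K.G u (tip t (w.drop i)) *
        ∑ j ∈ range (i + 1), K.G u (tip t (w.drop j))
        = ∑ i ∈ range (w.length + 1), K.G u (tip t (w.drop i)) *
          K.hU u (tip t (w.drop i)) (w.take i) := by
      refine Finset.sum_congr rfl ?_
      intro i hi
      have hi' : i ≤ w.length := by
        have := Finset.mem_range.1 hi
        omega
      rw [K.aux_hU u t w i hi']
    rw [h2] at h
    exact h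
  refine h1.trans ?_
  rw [K.E_mul_left, K.E_split t (fun w2 w1 => K.G u (tip t w1) * K.hU u (tip t w1) w2)]
  have h3 : ∑' w1, K.wt t w1 * K.E (tip t w1)
      (fun w2 => K.G u (tip t w1) * K.hU u (tip t w1) w2)
      ≤ ∑' w1, K.wt t w1 * (fun z => K.G u z * ENNReal.ofReal B) (tip t w1) := by
    refine ENNReal.tsum_le_tsum ?_
    intro w1
    refine mul_le_mul_right ?_ _
    rw [K.E_mul_left]
    exact mul_le_mul_right (K.aux_E_hU B hB u (tip t w1)) _
  have h4 : ∑' w1, K.wt t w1 * (fun z => K.G u z * ENNReal.ofReal B) (tip t w1)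
      = (∑ z, K.G t z * K.G u z) * ENNReal.ofReal B := by
    rw [K.G_sum t (fun z => K.G u z * ENNReal.ofReal B), Finset.sum_mul]
    refine Finset.sum_congr rfl ?_
    intro z _
    ring
  rw [h4] at h3
  have hB0 : 0 ≤ B := le_trans zero_le_one hB.B1
  have h5 : ENNReal.ofReal (2 * B ^ 2) = 2 * (ENNReal.ofReal B * ENNReal.ofReal B) := by
    rw [ENNReal.ofReal_mul (by norm_num), pow_two, ENNReal.ofReal_mul hB0]
    norm_num
  rw [h5]
  refine mul_le_mul_right (h3.trans ?_) _
  exact mul_le_mul_left (K.GG_le B hB t u) _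

end KK

end HP192
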