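import Mathlib
import Pool.Agent.Helper192_HP.Defs
import Pool.Agent.Helper192_HP.KDefs
import Pool.Agent.Helper192_HP.K01
import Pool.Agent.Helper192_HP.K02
import Pool.Agent.Helper192_HP.K03

namespace HP192
open Finset

namespace KK
variable {V : Type} [Fintype V] [DecidableEq V] (K : KK V)

theorem ind_le_one' (p : Prop) : ind p ≤ 1 := by
  unfold ind; split_ifs <;> simp

theorem ind_and (p q : Prop) : ind (p ∧ q) = ind p * ind q := by
  unfold ind
  by_cases hp : p <;> by_cases hq : q <;> simp [hp, hq]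

theorem mem_snoc_iff (u y : V) (w : List V) :
    y ∈ w ++ [u] ↔ ∃ j ≤ w.length, y = tip u (w.drop j) := by
  constructor
  · intro h
    rw [List.mem_append] at h
    rcases h with h | h
    · obtain ⟨j, hj, rfl⟩ := List.getElem_of_mem h
      refine ⟨j, hj.le, ?_⟩
      unfold tip
      rw [List.drop_eq_getElem_cons hj]
      rfl
    · rw [List.mem_singleton] at h
      refine ⟨w.length, le_rfl, ?_⟩
      simp [tip, h]
  · rintro ⟨j, hj, rfl⟩
    rw [List.mem_append]
    rcases lt_or_eq_of_le hj with h | h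
    · left
      unfold tip
      rw [List.drop_eq_getElem_cons h]
      exact List.getElem_mem h
    · right
      subst h
      simp [tip]

theorem Av_take_drop (S : Finset V) (w : List V) (i : ℕ) :
    Av S w ↔ Av S (w.take i) ∧ Av S (w.drop i) := by
  unfold Av
  constructor
  · intro h
    exact ⟨fun y hy => h y (List.mem_of_mem_take hy), fun y hy => h y (List.mem_of_mem_drop hy)⟩
  · rintro ⟨h1, h2⟩ y hy
    rw [← List.take_append_drop i w, List.mem_append] at hy
    rcases hy with hy | hy
    · exact h1 y hy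
    · exact h2 y hy

theorem point_le (S : Finset V) (u t : V) (w1 w2 : List V) :
    ind (Av S w1 ∧ ∃ i ≤ w2.length, Av S (w2.drop i) ∧ tip t (w2.drop i) ∈ w1 ++ [u]) ≤
      ∑ j ∈ range (w1.length + 1), ind (Av S (w1.take j)) *
        ∑ i ∈ range (w2.length + 1),
          ind (Av S (w2.drop i)) * ind (tip t (w2.drop i) = tip u (w1.drop j)) := by
  by_cases h : Av S w1 ∧ ∃ i ≤ w2.length, Av S (w2.drop i) ∧ tip t (w2.drop i) ∈ w1 ++ [u]
  · obtain ⟨h1, i, hi, h2, h3⟩ := h
    obtain ⟨j, hj, h4⟩ := (mem_snoc_iff u _ w1).1 h3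
    refine (ind_le_one' _).trans ?_
    have hj' : j ∈ range (w1.length + 1) := Finset.mem_range.2 (by omega)
    have hi' : i ∈ range (w2.length + 1) := Finset.mem_range.2 (by omega)
    have e1 : ind (Av S (w1.take j)) = 1 := by
      unfold ind; simp [((Av_take_drop S w1 j).1 h1).1]
    have e2 : ind (Av S (w2.drop i)) = 1 := by unfold ind; simp [h2]
    have e3 : ind (tip t (w2.drop i) = tip u (w1.drop j)) = 1 := by unfold ind; simp [h4]
    calc (1 : ENNReal) = ind (Av S (w1.take j)) *
          (ind (Av S (w2.drop i)) * ind (tip t (w2.drop i) = tip u (w1.drop j))) := by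
          rw [e1, e2, e3]; simp
      _ ≤ ind (Av S (w1.take j)) * ∑ i ∈ range (w2.length + 1),
          ind (Av S (w2.drop i)) * ind (tip t (w2.drop i) = tip u (w1.drop j)) := by
          refine mul_le_mul' le_rfl ?_
          exact Finset.single_le_sum (f := fun i => ind (Av S (w2.drop i)) *
            ind (tip t (w2.drop i) = tip u (w1.drop j))) (fun _ _ => zero_le) hi'
      _ ≤ _ := Finset.single_le_sum (f := fun j => ind (Av S (w1.take j)) *
        ∑ i ∈ range (w2.length + 1),
          ind (Av S (w2.drop i)) * ind (tip t (w2.drop i) = tip u (w1.drop j)))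
          (fun _ _ => zero_le) hj'
  · have : ind (Av S w1 ∧ ∃ i ≤ w2.length, Av S (w2.drop i) ∧ tip t (w2.drop i) ∈ w1 ++ [u]) = 0 := by
      unfold ind; rw [if_neg h]
    rw [this]
    exact zero_le

/-- older parts of the walk from `t` that end at `v` and avoid `S` -/
noncomputable def hh (S : Finset V) (t v : V) : ENNReal :=
  ∑' Y, K.wt t Y * (ind (Av S Y) * ind (tip t Y = v))

theorem E_inner (S : Finset V) (t v : V) :
    K.E t (fun w2 => ∑ i ∈ range (w2.length + 1), ind (Av S (w2.drop i)) *
      ind (tip t (w2.drop i) = v)) = K.hh S t v := by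
  have h := K.E_split t (fun _ Y => ind (Av S Y) * ind (tip t Y = v))
  rw [h]
  unfold hh
  refine tsum_congr fun Y => ?_
  rw [E_const]

theorem E_outer (S : Finset V) (u : V) (φ : V → ENNReal) :
    K.E u (fun w1 => ∑ j ∈ range (w1.length + 1), ind (Av S (w1.take j)) * φ (tip u (w1.drop j))) =
      ∑ z, K.G u z * (φ z * K.E z (fun w => ind (Av S w))) := by
  have h := K.E_split u (fun w2 w1 => ind (Av S w2) * φ (tip u w1))
  rw [h, ← K.G_sum u (fun z => φ z * K.E z (fun w => ind (Av S w)))]
  refine tsum_congr fun w => ?_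
  have : (fun w2 => ind (Av S w2) * φ (tip u w)) = fun w2 => φ (tip u w) * ind (Av S w2) := by
    funext w2; rw [mul_comm]
  rw [this, E_mul_left]

theorem rhs_eq (S : Finset V) (u t : V) :
    K.E t (fun z => ind (Av S z) * K.hU u t z) =
      ∑' Y, K.wt t Y * (ind (Av S Y) * (K.G u (tip t Y) * K.E (tip t Y) (fun w => ind (Av S w)))) := by
  have h := K.E_split t (fun w2 w1 => ind (Av S w2) * (ind (Av S w1) * K.G u (tip t w1)))
  have h2 : (fun z => ind (Av S z) * K.hU u t z) = fun w => ∑ i ∈ range (w.length + 1),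
      (fun w2 w1 => ind (Av S w2) * (ind (Av S w1) * K.G u (tip t w1))) (w.take i) (w.drop i) := by
    funext z
    unfold hU
    rw [Finset.mul_sum]
    refine Finset.sum_congr rfl fun i _ => ?_
    have e : ind (Av S z) = ind (Av S (z.take i)) * ind (Av S (z.drop i)) := by
      rw [← ind_and]
      congr 1
      exact propext (Av_take_drop S z i)
    rw [e, mul_assoc]
  rw [h2, h]
  refine tsum_congr fun Y => ?_
  have : (fun w2 => ind (Av S w2) * (ind (Av S Y) * K.G u (tip t Y))) =
      fun w2 => (ind (Av S Y) * K.G u (tip t Y)) * ind (Av S w2) := by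
    funext w2; rw [mul_comm]
  rw [this, E_mul_left, mul_assoc]

theorem lhs_eq (S : Finset V) (u t : V) :
    ∑ z, K.G u z * (K.hh S t z * K.E z (fun w => ind (Av S w))) =
      ∑' Y, K.wt t Y * (ind (Av S Y) * (K.G u (tip t Y) * K.E (tip t Y) (fun w => ind (Av S w)))) := by
  have h1 : ∀ z, K.G u z * (K.hh S t z * K.E z (fun w => ind (Av S w))) =
      ∑' Y, K.wt t Y * (ind (Av S Y) * (ind (tip t Y = z) *
        (K.G u z * K.E z (fun w => ind (Av S w))))) := by
    intro z
    unfold hh
    rw [← ENNReal.tsum_mul_right, ← ENNReal.tsum_mul_left]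
    refine tsum_congr fun Y => ?_
    ring
  simp_rw [h1]
  rw [← Summable.tsum_finsetSum (fun _ _ => ENNReal.summable)]
  refine tsum_congr fun Y => ?_
  rw [← Finset.mul_sum, ← Finset.mul_sum]
  congr 2
  rw [Finset.sum_eq_single (tip t Y)]
  · have : ind (tip t Y = tip t Y) = 1 := by unfold ind; simp
    rw [this, one_mul]
  · intro b _ hb
    have : ind (tip t Y = b) = 0 := by unfold ind; rw [if_neg (fun h => hb h.symm)]
    rw [this, zero_mul]
  · intro h; exact absurd (Finset.mem_univ _) h

theorem young (M h : ENNReal) (hM : M ≠ 0) (hM' : M ≠ ⊤) (p : Prop) :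
    ind p * h ≤ M * ind p + M⁻¹ * h ^ 2 := by
  by_cases hp : p
  · have e : ind p = 1 := by unfold ind; simp [hp]
    rw [e, one_mul, mul_one]
    rcases le_total h M with h1 | h1
    · exact h1.trans le_self_add
    · refine le_trans ?_ le_add_self
      calc h = (M⁻¹ * M) * h := by rw [ENNReal.inv_mul_cancel hM hM', one_mul]
        _ ≤ (M⁻¹ * h) * h := by gcongr
        _ = M⁻¹ * h ^ 2 := by rw [sq, mul_assoc]
  · have e : ind p = 0 := by unfold ind; simp [hp]
    rw [e, zero_mul]
    exact zero_le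

end KK

-- TARGET
namespace KK
variable {V : Type} [Fintype V] [DecidableEq V] (K : KK V)

/-- the walk from `t`, up to a time at which it is at a vertex of the walk from `u`, continued by
the rest of the walk from `u`, is a walk from `t` -/
theorem merge (S : Finset V) (u t : V) :
    K.E u (fun w1 => K.E t (fun w2 => ind (Av S w1 ∧ ∃ i ≤ w2.length, Av S (w2.drop i) ∧
        tip t (w2.drop i) ∈ w1 ++ [u])))
      ≤ K.E t (fun z => ind (Av S z) * K.hU u t z) := by
  calc K.E u (fun w1 => K.E t (fun w2 => ind (Av S w1 ∧ ∃ i ≤ w2.length, Av S (w2.drop i) ∧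
        tip t (w2.drop i) ∈ w1 ++ [u])))
      ≤ K.E u (fun w1 => K.E t (fun w2 => ∑ j ∈ range (w1.length + 1), ind (Av S (w1.take j)) *
        ∑ i ∈ range (w2.length + 1),
          ind (Av S (w2.drop i)) * ind (tip t (w2.drop i) = tip u (w1.drop j)))) :=
        K.E_mono _ _ _ fun w1 => K.E_mono _ _ _ fun w2 => point_le S u t w1 w2
    _ = K.E u (fun w1 => ∑ j ∈ range (w1.length + 1), ind (Av S (w1.take j)) *
          K.hh S t (tip u (w1.drop j))) := by
        congr 1
        funext w1
        rw [E_sum]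
        refine Finset.sum_congr rfl fun j _ => ?_
        rw [E_mul_left, E_inner]
    _ = ∑ z, K.G u z * (K.hh S t z * K.E z (fun w => ind (Av S w))) :=
        K.E_outer S u (fun v => K.hh S t v)
    _ = _ := by rw [lhs_eq, rhs_eq]

theorem merge_le (B : ℝ) (hB : K.Good B) (S : Finset V) (u t : V) (M : ℝ) (hM : 0 < M) :
    K.E u (fun w1 => K.E t (fun w2 => ind (Av S w1 ∧ ∃ i ≤ w2.length, Av S (w2.drop i) ∧
        tip t (w2.drop i) ∈ w1 ++ [u])))
      ≤ ENNReal.ofReal M * K.E t (fun z => ind (Av S z)) + ENNReal.ofReal (2 * B ^ 2 / M) := by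
  have hM1 : ENNReal.ofReal M ≠ 0 := (ENNReal.ofReal_pos.2 hM).ne'
  refine (K.merge S u t).trans ?_
  calc K.E t (fun z => ind (Av S z) * K.hU u t z)
      ≤ K.E t (fun z => ENNReal.ofReal M * ind (Av S z) +
          (ENNReal.ofReal M)⁻¹ * (K.hU u t z) ^ 2) :=
        K.E_mono _ _ _ fun z => young _ _ hM1 ENNReal.ofReal_ne_top _
    _ = ENNReal.ofReal M * K.E t (fun z => ind (Av S z)) +
          (ENNReal.ofReal M)⁻¹ * K.E t (fun z => (K.hU u t z) ^ 2) := by
        rw [E_add, E_mul_left, E_mul_left]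
    _ ≤ ENNReal.ofReal M * K.E t (fun z => ind (Av S z)) +
          (ENNReal.ofReal M)⁻¹ * ENNReal.ofReal (2 * B ^ 2) := by
        gcongr
        exact K.hU_sq B hB u t
    _ = _ := by
        congr 1
        rw [ENNReal.ofReal_div_of_pos hM, ENNReal.div_eq_inv_mul]

end KK

end HP192
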