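import Mathlib
import Pool.Agent.Helper192_HP.Defs
import Pool.Agent.Helper192_HP.KDefs
import Pool.Agent.Helper192_HP.K01
import Pool.Agent.Helper192_HP.K02

namespace HP192
open Finset

namespace KK
variable {V : Type} [Fintype V] [DecidableEq V] (K : KK V)

theorem qp_ind_pos {p : Prop} (h : p) : ind p = 1 := by
  unfold ind; exact if_pos h

theorem qp_ind_neg {p : Prop} (h : ¬ p) : ind p = 0 := by
  unfold ind; exact if_neg h

theorem qp_ind_le {p : Prop} {a : ENNReal} (h : p → 1 ≤ a) : ind p ≤ a := by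
  by_cases hp : p
  · rw [qp_ind_pos hp]; exact h hp
  · rw [qp_ind_neg hp]; exact zero_le

theorem qp_ind_congr {p q : Prop} (h : p ↔ q) : ind p = ind q := by
  rw [propext h]

theorem qp_minidx (P : V → Prop) (x : V) (hx : P x) : ∀ w : List V,
    ∃ i, i ≤ w.length ∧ P (tip x (w.drop i)) ∧ ∀ a ∈ w.take i, ¬ P a := by
  intro w
  induction w with
  | nil => exact ⟨0, le_refl _, by simpa [tip] using hx, by simp⟩
  | cons a w ih =>
    by_cases ha : P a
    · exact ⟨0, Nat.zero_le _, by simpa [tip] using ha, by simp⟩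
    · obtain ⟨i, hi, h1, h2⟩ := ih
      refine ⟨i + 1, by simpa using hi, by simpa using h1, ?_⟩
      intro b hb
      rw [List.take_succ_cons, List.mem_cons] at hb
      rcases hb with rfl | hb
      · exact ha
      · exact h2 b hb

theorem qp_idx (x z : V) : ∀ w : List V, z ∈ w ++ [x] →
    ∃ i, i ≤ w.length ∧ tip x (w.drop i) = z := by
  intro w
  induction w with
  | nil => intro h; exact ⟨0, le_refl _, by simpa [tip, eq_comm] using h⟩
  | cons a w ih =>
    intro h
    rw [List.cons_append, List.mem_cons] at h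
    rcases h with rfl | h
    · exact ⟨0, Nat.zero_le _, by simp [tip]⟩
    · obtain ⟨i, hi, h1⟩ := ih h
      exact ⟨i + 1, by simpa using hi, by simpa using h1⟩

/-- pointwise bound behind the first claim -/
theorem qp_point1 (x : V) (w1 w2 : List V) :
    (1 : ENNReal) ≤ ∑ i ∈ range (w1.length + 1), ∑ j ∈ range (w2.length + 1),
      ind (tip x (w1.drop i) = tip x (w2.drop j)) *
        ind (Dj (w2.take j) (w1.take i ++ [tip x (w1.drop i)])) := by
  obtain ⟨j, hj, h1, h2⟩ := qp_minidx (fun a => a ∈ w1 ++ [x]) x (by simp) w2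
  obtain ⟨i, hi, h3⟩ := qp_idx x _ w1 h1
  have hD : Dj (w2.take j) (w1.take i ++ [tip x (w1.drop i)]) := by
    intro a ha hb
    rw [List.mem_append, List.mem_singleton] at hb
    rcases hb with hb | hb
    · exact h2 a ha (List.mem_append.2 (Or.inl (List.mem_of_mem_take hb)))
    · rw [hb, h3] at ha
      exact h2 _ ha h1
  have e1 : ind (tip x (w1.drop i) = tip x (w2.drop j)) *
        ind (Dj (w2.take j) (w1.take i ++ [tip x (w1.drop i)])) = 1 := by
    rw [qp_ind_pos h3, qp_ind_pos hD, mul_one]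
  calc (1 : ENNReal) = ind (tip x (w1.drop i) = tip x (w2.drop j)) *
        ind (Dj (w2.take j) (w1.take i ++ [tip x (w1.drop i)])) := e1.symm
    _ ≤ ∑ j ∈ range (w2.length + 1), ind (tip x (w1.drop i) = tip x (w2.drop j)) *
        ind (Dj (w2.take j) (w1.take i ++ [tip x (w1.drop i)])) :=
      Finset.single_le_sum (f := fun j => ind (tip x (w1.drop i) = tip x (w2.drop j)) *
        ind (Dj (w2.take j) (w1.take i ++ [tip x (w1.drop i)]))) (fun _ _ => zero_le)
        (Finset.mem_range.2 (Nat.lt_succ_of_le hj))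
    _ ≤ _ :=
      Finset.single_le_sum (f := fun i => ∑ j ∈ range (w2.length + 1),
        ind (tip x (w1.drop i) = tip x (w2.drop j)) *
        ind (Dj (w2.take j) (w1.take i ++ [tip x (w1.drop i)]))) (fun _ _ => zero_le)
        (Finset.mem_range.2 (Nat.lt_succ_of_le hi))

/-- the inner expectation of the first claim -/
theorem qp_inner1 (x : V) (w1 : List V) (i : ℕ) :
    K.E x (fun w2 => ∑ j ∈ range (w2.length + 1),
      ind (tip x (w1.drop i) = tip x (w2.drop j)) *
        ind (Dj (w2.take j) (w1.take i ++ [tip x (w1.drop i)])))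
    = K.G x (tip x (w1.drop i)) *
        K.E (tip x (w1.drop i)) (fun a => ind (Dj a (w1.take i ++ [tip x (w1.drop i)]))) := by
  have h := K.E_split x (fun a b => ind (tip x (w1.drop i) = tip x b) *
        ind (Dj a (w1.take i ++ [tip x (w1.drop i)])))
  rw [h]
  have h2 := K.G_sum x (fun z => K.E z (fun a => ind (tip x (w1.drop i) = z) *
        ind (Dj a (w1.take i ++ [tip x (w1.drop i)]))))
  rw [h2, Finset.sum_eq_single (tip x (w1.drop i))]
  · rw [K.E_mul_left, qp_ind_pos (rfl : tip x (w1.drop i) = tip x (w1.drop i)), one_mul]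
  · intro b _ hb
    rw [K.E_mul_left, qp_ind_neg (fun h => hb h.symm), zero_mul, mul_zero]
  · intro h; exact absurd (Finset.mem_univ _) h

theorem qp_auto (x z : V) (g : Equiv.Perm V) (hg : ∀ a b, K.Q (g a) (g b) = K.Q a b)
    (hz : g x = z) :
    K.E z (fun w1 => K.E z (fun w2 => ind (Dj w2 (w1 ++ [z]))))
    = K.E x (fun w1 => K.E x (fun w2 => ind (Dj w2 (w1 ++ [x])))) := by
  subst hz
  rw [K.E_auto g hg]
  congr 1
  funext w1
  rw [K.E_auto g hg]
  congr 1
  funext w2
  apply qp_ind_congr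
  constructor
  · intro h a ha hb
    refine h (g a) (List.mem_map_of_mem ha) ?_
    rw [List.mem_append, List.mem_singleton] at hb ⊢
    rcases hb with hb | hb
    · exact Or.inl (List.mem_map_of_mem hb)
    · exact Or.inr (by rw [hb])
  · intro h a ha hb
    obtain ⟨a', ha', rfl⟩ := List.mem_map.1 ha
    refine h a' ha' ?_
    rw [List.mem_append, List.mem_singleton] at hb ⊢
    rcases hb with hb | hb
    · obtain ⟨b', hb', hbe⟩ := List.mem_map.1 hb
      rw [← g.injective hbe]; exact Or.inl hb'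
    · exact Or.inr (g.injective hb)

theorem qp_claim1 (B : ℝ) (hB : K.Good B) (x : V) :
    1 ≤ ENNReal.ofReal B *
      K.E x (fun w1 => K.E x (fun w2 => ind (Dj w2 (w1 ++ [x])))) := by
  have h0 : (1 : ENNReal) ≤ K.E x (fun w1 => K.E x (fun w2 =>
      ∑ i ∈ range (w1.length + 1), ∑ j ∈ range (w2.length + 1),
      ind (tip x (w1.drop i) = tip x (w2.drop j)) *
        ind (Dj (w2.take j) (w1.take i ++ [tip x (w1.drop i)])))) := by
    calc (1 : ENNReal) = K.E x (fun _ => K.E x (fun _ => 1)) := by rw [K.E_const, K.E_const]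
      _ ≤ _ := K.E_mono x _ _ (fun w1 => K.E_mono x _ _ (fun w2 => qp_point1 x w1 w2))
  have h1 : K.E x (fun w1 => K.E x (fun w2 =>
      ∑ i ∈ range (w1.length + 1), ∑ j ∈ range (w2.length + 1),
      ind (tip x (w1.drop i) = tip x (w2.drop j)) *
        ind (Dj (w2.take j) (w1.take i ++ [tip x (w1.drop i)]))))
      = K.E x (fun w1 => ∑ i ∈ range (w1.length + 1), K.G x (tip x (w1.drop i)) *
        K.E (tip x (w1.drop i)) (fun a => ind (Dj a (w1.take i ++ [tip x (w1.drop i)])))) := by
    congr 1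
    funext w1
    rw [K.E_sum]
    exact Finset.sum_congr rfl (fun i _ => K.qp_inner1 x w1 i)
  rw [h1] at h0
  have h2 := K.E_split x (fun a b => K.G x (tip x b) *
        K.E (tip x b) (fun a' => ind (Dj a' (a ++ [tip x b]))))
  rw [h2] at h0
  have h3 := K.G_sum x (fun z => K.E z (fun w2 => K.G x z *
        K.E z (fun a' => ind (Dj a' (w2 ++ [z])))))
  rw [h3] at h0
  have h4 : ∀ z, K.E z (fun w2 => K.G x z * K.E z (fun a' => ind (Dj a' (w2 ++ [z]))))
      = K.G x z * K.E x (fun w1 => K.E x (fun w2 => ind (Dj w2 (w1 ++ [x])))) := by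
    intro z
    rw [K.E_mul_left]
    obtain ⟨g, hgz, hg⟩ := hB.tr x z
    rw [K.qp_auto x z g hg hgz]
  simp only [h4] at h0
  calc (1 : ENNReal) ≤ ∑ z, K.G x z * (K.G x z *
        K.E x (fun w1 => K.E x (fun w2 => ind (Dj w2 (w1 ++ [x]))))) := h0
    _ = (∑ z, K.G x z * K.G x z) *
        K.E x (fun w1 => K.E x (fun w2 => ind (Dj w2 (w1 ++ [x])))) := by
      rw [Finset.sum_mul]
      exact Finset.sum_congr rfl (fun z _ => (mul_assoc _ _ _).symm)
    _ ≤ _ := mul_le_mul_left (hB.G2 x) _

theorem qp_point2 (x : V) (w1 w2 : List V) :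
    ind (Dj w2 (w1 ++ [x])) ≤ ∑ i ∈ range (w1.length + 1),
      ind (tip x (w1.drop i) = x) *
        ind (Av {x} (w1.take i) ∧ Av {x} w2 ∧ Dj (w1.take i) w2) := by
  apply qp_ind_le
  intro hD
  obtain ⟨i, hi, h1, h2⟩ := qp_minidx (fun a => a = x) x rfl w1
  have hA : Av {x} (w1.take i) ∧ Av {x} w2 ∧ Dj (w1.take i) w2 := by
    refine ⟨?_, ?_, ?_⟩
    · intro a ha hb
      exact h2 a ha (Finset.mem_singleton.1 hb)
    · intro a ha hb
      rw [Finset.mem_singleton] at hb
      exact hD a ha (List.mem_append.2 (Or.inr (by rw [hb]; exact List.mem_singleton.2 rfl)))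
    · intro a ha hb
      exact hD a hb (List.mem_append.2 (Or.inl (List.mem_of_mem_take ha)))
  calc (1 : ENNReal) = ind (tip x (w1.drop i) = x) *
        ind (Av {x} (w1.take i) ∧ Av {x} w2 ∧ Dj (w1.take i) w2) := by
        rw [qp_ind_pos h1, qp_ind_pos hA, mul_one]
    _ ≤ _ := Finset.single_le_sum (f := fun i => ind (tip x (w1.drop i) = x) *
        ind (Av {x} (w1.take i) ∧ Av {x} w2 ∧ Dj (w1.take i) w2)) (fun _ _ => zero_le)
        (Finset.mem_range.2 (Nat.lt_succ_of_le hi))

theorem qp_claim2 (x : V) :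
    K.E x (fun w1 => K.E x (fun w2 => ind (Dj w2 (w1 ++ [x])))) ≤
      K.G x x * K.E x (fun w1 => K.E x (fun w2 =>
      ind (Av {x} w1 ∧ Av {x} w2 ∧ Dj w1 w2))) := by
  have h0 : K.E x (fun w1 => K.E x (fun w2 => ind (Dj w2 (w1 ++ [x])))) ≤
      K.E x (fun w1 => ∑ i ∈ range (w1.length + 1), ind (tip x (w1.drop i) = x) *
        K.E x (fun w2 => ind (Av {x} (w1.take i) ∧ Av {x} w2 ∧ Dj (w1.take i) w2))) := by
    apply K.E_mono
    intro w1
    calc K.E x (fun w2 => ind (Dj w2 (w1 ++ [x])))
        ≤ K.E x (fun w2 => ∑ i ∈ range (w1.length + 1),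
      ind (tip x (w1.drop i) = x) *
        ind (Av {x} (w1.take i) ∧ Av {x} w2 ∧ Dj (w1.take i) w2)) :=
          K.E_mono x _ _ (fun w2 => qp_point2 x w1 w2)
      _ = _ := by
        rw [K.E_sum]
        exact Finset.sum_congr rfl (fun i _ => K.E_mul_left x _ _)
  have h2 := K.E_split x (fun a b => ind (tip x b = x) *
        K.E x (fun w2 => ind (Av {x} a ∧ Av {x} w2 ∧ Dj a w2)))
  rw [h2] at h0
  have h3 := K.G_sum x (fun z => K.E z (fun a => ind (z = x) *
        K.E x (fun w2 => ind (Av {x} a ∧ Av {x} w2 ∧ Dj a w2))))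
  rw [h3, Finset.sum_eq_single x] at h0
  · rw [K.E_mul_left, qp_ind_pos (rfl : x = x), one_mul] at h0
    exact h0
  · intro b _ hb
    rw [K.E_mul_left, qp_ind_neg hb, zero_mul, mul_zero]
  · intro h; exact absurd (Finset.mem_univ _) h

/-- the first visit of `x` happens at the newest step -/
def qp_FV (x : V) (w : List V) : Prop := ∃ w', w = x :: w' ∧ x ∉ w'

theorem qp_fv_unique (x : V) (w : List V) (i j : ℕ) (hi : qp_FV x (w.drop i))
    (hj : qp_FV x (w.drop j)) : i = j := by
  wlog hij : i ≤ j generalizing i j with H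
  · exact (H j i hj hi (le_of_not_ge hij)).symm
  rcases hij.eq_or_lt with h | h
  · exact h
  · exfalso
    obtain ⟨wi, hi1, hi2⟩ := hi
    obtain ⟨wj, hj1, hj2⟩ := hj
    have h1 : w.drop j = (w.drop i).drop (j - i) := by
      rw [List.drop_drop]; congr 1; omega
    obtain ⟨k, hk⟩ : ∃ k, j - i = k + 1 := ⟨j - i - 1, by omega⟩
    rw [hi1, hk, List.drop_succ_cons] at h1
    rw [hj1] at h1
    apply hi2
    apply List.mem_of_mem_drop (i := k)
    rw [← h1]
    exact List.mem_cons_self

theorem qp_fv_exists (x : V) : ∀ w : List V, x ∈ w →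
    ∃ i, i ≤ w.length ∧ qp_FV x (w.drop i) := by
  intro w
  induction w with
  | nil => intro h; simp at h
  | cons a w ih =>
    intro h
    by_cases hx : x ∈ w
    · obtain ⟨i, hi, h1⟩ := ih hx
      exact ⟨i + 1, by simpa using hi, by simpa using h1⟩
    · rw [List.mem_cons] at h
      rcases h with rfl | h
      · exact ⟨0, Nat.zero_le _, w, by simp, hx⟩
      · exact absurd h hx

theorem qp_hit (x y : V) (hxy : x ≠ y) :
    K.E y (fun w => ind (x ∈ w)) * K.G x x ≤ K.G y x := by
  -- the hitting probability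
  have h1 : K.E y (fun w => ind (x ∈ w)) ≤ ∑' w1, K.wt y w1 * ind (qp_FV x w1) := by
    have ha : K.E y (fun w => ind (x ∈ w)) ≤
        K.E y (fun w => ∑ i ∈ range (w.length + 1), ind (qp_FV x (w.drop i))) := by
      apply K.E_mono
      intro w
      apply qp_ind_le
      intro hx
      obtain ⟨i, hi, h1⟩ := qp_fv_exists x w hx
      calc (1 : ENNReal) = ind (qp_FV x (w.drop i)) := (qp_ind_pos h1).symm
        _ ≤ _ := Finset.single_le_sum (f := fun i => ind (qp_FV x (w.drop i)))
          (fun _ _ => zero_le) (Finset.mem_range.2 (Nat.lt_succ_of_le hi))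
    have hb := K.E_split y (fun _ b => ind (qp_FV x b))
    rw [hb] at ha
    simpa only [K.E_const] using ha
  -- the Green function
  have h2 : (∑' w1, K.wt y w1 * ind (qp_FV x w1)) * (K.lam * K.G x x) ≤ K.lam * K.G y x := by
    have ha : K.E y (fun w => ∑ i ∈ range (w.length + 1),
        ind (qp_FV x (w.drop i)) * ind (tip x (w.take i) = x)) ≤
        K.E y (fun w => ind (tip y w = x)) := by
      apply K.E_mono
      intro w
      by_cases hex : ∃ i, i ∈ range (w.length + 1) ∧ qp_FV x (w.drop i)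
      · obtain ⟨i, hi, hF⟩ := hex
        rw [Finset.sum_eq_single i]
        · rw [qp_ind_pos hF, one_mul]
          apply qp_ind_le
          intro ht
          have : tip y w = x := by
            obtain ⟨w', hw', -⟩ := hF
            have hw : w = w.take i ++ w.drop i := (List.take_append_drop i w).symm
            rw [hw', ] at hw
            rw [hw]
            cases hwt : w.take i with
            | nil => simp [tip]
            | cons a l =>
              rw [hwt] at ht
              simpa [tip] using ht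
          rw [qp_ind_pos this]
        · intro j _ hj
          rw [qp_ind_neg (fun hFj => hj (qp_fv_unique x w j i hFj hF)), zero_mul]
        · intro h; exact absurd hi h
      · rw [Finset.sum_eq_zero]
        · exact zero_le
        · intro i hi
          rw [qp_ind_neg (fun hF => hex ⟨i, hi, hF⟩), zero_mul]
    have hb := K.E_split y (fun a b => ind (qp_FV x b) * ind (tip x a = x))
    rw [hb] at ha
    have hc : ∀ w1, K.wt y w1 * K.E (tip y w1) (fun w2 => ind (qp_FV x w1) * ind (tip x w2 = x))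
        = K.wt y w1 * ind (qp_FV x w1) * (K.lam * K.G x x) := by
      intro w1
      by_cases hF : qp_FV x w1
      · have ht : tip y w1 = x := by
          obtain ⟨w', hw', -⟩ := hF
          rw [hw']; simp [tip]
        rw [K.E_mul_left, ht, ← mul_assoc]
        rfl
      · rw [K.E_mul_left, qp_ind_neg hF]
        simp
    simp only [hc] at ha
    rw [ENNReal.tsum_mul_right] at ha
    exact ha
  have hlam : K.lam ≠ ⊤ := by
    have := K.row y
    intro h
    rw [h] at this
    simp at this
  have h3 : K.lam * (K.E y (fun w => ind (x ∈ w)) * K.G x x) ≤ K.lam * K.G y x := by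
    calc K.lam * (K.E y (fun w => ind (x ∈ w)) * K.G x x)
        = K.E y (fun w => ind (x ∈ w)) * (K.lam * K.G x x) := by ring
      _ ≤ (∑' w1, K.wt y w1 * ind (qp_FV x w1)) * (K.lam * K.G x x) := mul_le_mul_left h1 _
      _ ≤ _ := h2
  exact (ENNReal.mul_le_mul_iff_right K.lam0 hlam).1 h3

end KK

-- TARGET
namespace KK
variable {V : Type} [Fintype V] [DecidableEq V] (K : KK V)

/-- two disjoint walks from `x` that never return to `x` -/
theorem qp (B : ℝ) (hB : K.Good B) (x : V) :
    1 ≤ ENNReal.ofReal (B ^ 2) * K.E x (fun w1 => K.E x (fun w2 =>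
      ind (Av {x} w1 ∧ Av {x} w2 ∧ Dj w1 w2))) := by
  have h1 := K.qp_claim1 B hB x
  have h2 := K.qp_claim2 x
  have hG := K.G_le B hB x x
  have hB0 : (0:ℝ) ≤ B := by linarith [hB.B1]
  calc (1 : ENNReal) ≤ ENNReal.ofReal B *
      K.E x (fun w1 => K.E x (fun w2 => ind (Dj w2 (w1 ++ [x])))) := h1
    _ ≤ ENNReal.ofReal B * (K.G x x * K.E x (fun w1 => K.E x (fun w2 =>
      ind (Av {x} w1 ∧ Av {x} w2 ∧ Dj w1 w2)))) := mul_le_mul_right h2 _
    _ ≤ ENNReal.ofReal B * (ENNReal.ofReal B * K.E x (fun w1 => K.E x (fun w2 =>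
      ind (Av {x} w1 ∧ Av {x} w2 ∧ Dj w1 w2)))) :=
        mul_le_mul_right (mul_le_mul_left hG _) _
    _ = _ := by
      rw [← mul_assoc, ← ENNReal.ofReal_mul hB0, ← pow_two]

theorem esc1 (B : ℝ) (hB : K.Good B) (x y : V) (hxy : x ≠ y) :
    1 ≤ ENNReal.ofReal B * K.E y (fun w => ind (Av {x} w)) := by
  have hG := K.G_le B hB x x
  have h1 := K.qp_hit x y hxy
  have h2 := hB.G1 x y hxy
  rw [K.G_symm x y] at h2
  have hfin : K.G x x ≠ ⊤ := ne_top_of_le_ne_top ENNReal.ofReal_ne_top hG
  have hyx : K.G y x ≠ ⊤ := by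
    refine ne_top_of_le_ne_top hfin (le_trans ?_ h2)
    exact le_self_add
  have h3 : K.E y (fun w => ind (Av {x} w)) + K.E y (fun w => ind (x ∈ w)) = 1 := by
    rw [← K.E_add]
    have : (fun w : List V => ind (Av {x} w) + ind (x ∈ w)) = fun _ => (1 : ENNReal) := by
      funext w
      by_cases hx : x ∈ w
      · rw [qp_ind_pos hx, qp_ind_neg (fun h : Av {x} w => h x hx (Finset.mem_singleton_self x)),
          zero_add]
      · rw [qp_ind_neg hx, qp_ind_pos, add_zero]
        intro a ha hb
        rw [Finset.mem_singleton] at hb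
        rw [hb] at ha
        exact hx ha
    rw [this, K.E_const]
  have h4 : K.G x x = K.G x x * K.E y (fun w => ind (Av {x} w)) +
      K.E y (fun w => ind (x ∈ w)) * K.G x x := by
    calc K.G x x = K.G x x * (K.E y (fun w => ind (Av {x} w)) + K.E y (fun w => ind (x ∈ w))) := by
          rw [h3, mul_one]
      _ = _ := by rw [mul_add, mul_comm (K.G x x) (K.E y (fun w => ind (x ∈ w)))]
  have h5 : 1 + K.G y x ≤ K.G x x * K.E y (fun w => ind (Av {x} w)) + K.G y x := by
    calc 1 + K.G y x = K.G y x + 1 := add_comm _ _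
      _ ≤ K.G x x := h2
      _ = _ := h4
      _ ≤ _ := by gcongr
  have h6 : 1 ≤ K.G x x * K.E y (fun w => ind (Av {x} w)) :=
    (ENNReal.add_le_add_iff_right hyx).1 h5
  exact le_trans h6 (mul_le_mul_left hG _)

end KK

end HP192
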