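import Mathlib
import Pool.Agent.Helper192_HP.Defs
import Pool.Agent.Helper192_HP.KDefs
import Pool.Agent.Helper192_HP.K01
import Pool.Agent.Helper192_HP.K02
import Pool.Agent.Helper192_HP.K03
import Pool.Agent.Helper192_HP.K04
import Pool.Agent.Helper192_HP.K05

namespace HP192
open Finset

-- TARGET
namespace KK
variable {V : Type} [Fintype V] [DecidableEq V] (K : KK V)

theorem ind_mul (p q : Prop) : ind p * ind q = ind (p ∧ q) := by
  unfold ind
  by_cases hp : p <;> by_cases hq : q <;> simp [hp, hq]

theorem ind_mono {p q : Prop} (h : p → q) : ind p ≤ ind q := by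
  unfold ind
  by_cases hp : p
  · simp [hp, h hp]
  · simp [hp]

theorem ind_le_one (p : Prop) : ind p ≤ 1 := by
  unfold ind
  split_ifs <;> simp

theorem ind_of {p : Prop} (h : p) : ind p = 1 := by
  unfold ind
  rw [if_pos h]

theorem ind_le3 {p a b c : Prop} (h : p → a ∨ b ∨ c) : ind p ≤ ind a + ind b + ind c := by
  by_cases hp : p
  · rcases h hp with h | h | h
    · rw [ind_of hp, ind_of h, add_assoc]
      exact le_self_add
    · rw [ind_of hp, ind_of h, add_comm (ind a), add_assoc]
      exact le_self_add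
    · rw [ind_of hp, ind_of h]
      exact le_add_self
  · have : ind p = 0 := by
      unfold ind
      rw [if_neg hp]
    rw [this]
    exact bot_le

/-- the event that the walk `c` from `y` hits `b` before `a`, seen from outside of `a` -/
def EvB (x y : V) (b a c : List V) : Prop :=
  (Av {x} a ∧ y ∉ a) ∧ (Av (insert x a.toFinset) b ∧ ∃ i ≤ c.length,
    Av (insert x a.toFinset) (c.drop i) ∧ tip y (c.drop i) ∈ b ++ [x])

theorem tip_drop_mem (y : V) (c : List V) (i : ℕ) : tip y (c.drop i) ∈ c ++ [y] := by
  unfold tip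
  rcases h : c.drop i with _ | ⟨a, l⟩
  · simp
  · simp only [List.headD_cons]
    have : a ∈ c.drop i := by rw [h]; simp
    exact List.mem_append_left _ (List.mem_of_mem_drop this)

theorem mem_iff_tip_drop (y : V) (c : List V) (v : V) (hv : v ∈ c ++ [y]) :
    ∃ i ≤ c.length, tip y (c.drop i) = v := by
  induction c with
  | nil =>
    refine ⟨0, le_rfl, ?_⟩
    simp at hv
    simp [tip, hv]
  | cons a l ih =>
    by_cases h : v = a
    · refine ⟨0, by simp, ?_⟩
      simp [tip, h]
    · have hv' : v ∈ l ++ [y] := by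
        simp only [List.cons_append, List.mem_cons] at hv
        rcases hv with hv | hv
        · exact absurd hv h
        · exact hv
      obtain ⟨i, hi, h2⟩ := ih hv'
      refine ⟨i + 1, by simp; omega, ?_⟩
      simpa using h2

/-- an element of `c.drop i` is the newest vertex of `c.drop k` for some `k` between `i` and
`c.length - 1` -/
theorem mem_drop_tip (y : V) (c : List V) (i : ℕ) (v : V) (hv : v ∈ c.drop i) :
    ∃ k, i ≤ k ∧ k < c.length ∧ tip y (c.drop k) = v := by
  obtain ⟨n, hn, rfl⟩ := List.mem_iff_getElem.1 hv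
  rw [List.length_drop] at hn
  refine ⟨i + n, by omega, by omega, ?_⟩
  have h3 : i + n < c.length := by omega
  unfold tip
  rw [List.drop_eq_getElem_cons h3]
  simp only [List.headD_cons, List.getElem_drop]

theorem comb (x y : V) (hxy : x ≠ y) (a b c : List V)
    (h : (Av {x} a ∧ Av {x} b ∧ Dj a b) ∧ Av {x} c) :
    Dj (a ++ [x]) (c ++ [y]) ∨ EvB x y a b c ∨ EvB x y b a c := by
  classical
  obtain ⟨⟨ha, hb, hab⟩, hc⟩ := h
  by_cases h0 : Dj (a ++ [x]) (c ++ [y])
  · exact Or.inl h0
  right
  have hxc : x ∉ c := fun h => hc x h (by simp)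
  have hxa : x ∉ a := fun h => ha x h (by simp)
  have hxb : x ∉ b := fun h => hb x h (by simp)
  unfold Dj at h0
  push Not at h0
  obtain ⟨v, hv1, hv2⟩ := h0
  have hvx : v ≠ x := by
    rintro rfl
    simp only [List.mem_append, List.mem_singleton] at hv2
    rcases hv2 with h | h
    · exact hxc h
    · exact hxy h
  have hva : v ∈ a := by
    simp only [List.mem_append, List.mem_singleton] at hv1
    rcases hv1 with h | h
    · exact h
    · exact absurd h hvx
  obtain ⟨j, hj, hj2⟩ := mem_iff_tip_drop y c v hv2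
  let P : ℕ → Prop := fun i => tip y (c.drop i) ∈ a ∨ tip y (c.drop i) ∈ b
  have hPj : P j := Or.inl (by rw [hj2]; exact hva)
  set i := Nat.findGreatest P c.length with hi
  have hPi : P i := Nat.findGreatest_spec hj hPj
  have hile : i ≤ c.length := Nat.findGreatest_le _
  have hgr : ∀ k, i < k → k ≤ c.length → ¬ P k := fun k hk1 hk2 =>
    Nat.findGreatest_is_greatest hk1 hk2
  -- general claim
  have key : ∀ a b : List V, Dj a b → x ∉ a → x ∉ b → tip y (c.drop i) ∈ a →
      (∀ k, i < k → k ≤ c.length → tip y (c.drop k) ∉ b) → EvB x y a b c := by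
    intro a b hab hxa hxb hz hk
    refine ⟨⟨?_, ?_⟩, ?_, i, hile, ?_, ?_⟩
    · intro v hv hv'
      rw [mem_singleton] at hv'
      exact hxb (hv' ▸ hv)
    · intro hyb
      rcases Nat.lt_or_ge i c.length with h | h
      · apply hk c.length h le_rfl
        simp [tip]
        exact hyb
      · have : tip y (c.drop i) = y := by
          rw [List.drop_eq_nil_of_le h]; rfl
        rw [this] at hz
        exact hab y hz hyb
    · intro v hv hv'
      rw [mem_insert] at hv'
      rcases hv' with h | h
      · exact hxa (h ▸ hv)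
      · exact hab v hv (List.mem_toFinset.1 h)
    · intro v hv hv'
      rw [mem_insert] at hv'
      rcases hv' with h | h
      · exact hxc (h ▸ List.mem_of_mem_drop hv)
      · obtain ⟨k, hk1, hk2, hk3⟩ := mem_drop_tip y c i v hv
        have hvb := List.mem_toFinset.1 h
        rcases Nat.lt_or_ge i k with h' | h'
        · apply hk k h' hk2.le
          rw [hk3]; exact hvb
        · have : k = i := by omega
          subst this
          rw [hk3] at hz
          exact hab v hz hvb
    · exact List.mem_append_left _ hz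
  rcases hPi with h | h
  · left
    exact key a b hab hxa hxb h (fun k h1 h2 h3 => hgr k h1 h2 (Or.inr h3))
  · right
    exact key b a (fun v h1 h2 => hab v h2 h1) hxb hxa h
      (fun k h1 h2 h3 => hgr k h1 h2 (Or.inl h3))

theorem EvB_bound (B : ℝ) (hB : K.Good B) (x y : V) (hxy : x ≠ y) (M : ℝ) (hM : 0 < M) :
    K.E x (fun a => K.E x (fun b => K.E y (fun c => ind (EvB x y b a c))))
      ≤ ENNReal.ofReal M * K.sd x y + ENNReal.ofReal (2 * B ^ 2 / M) := by
  calc K.E x (fun a => K.E x (fun b => K.E y (fun c => ind (EvB x y b a c))))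
      = K.E x (fun a => ind (Av {x} a ∧ y ∉ a) * K.E x (fun b => K.E y (fun c =>
          ind (Av (insert x a.toFinset) b ∧ ∃ i ≤ c.length,
            Av (insert x a.toFinset) (c.drop i) ∧ tip y (c.drop i) ∈ b ++ [x])))) := by
        congr 1
        funext a
        rw [← K.E_mul_left]
        congr 1
        funext b
        rw [← K.E_mul_left]
        congr 1
        funext c
        rw [ind_mul]
        rfl
    _ ≤ K.E x (fun a => ind (Av {x} a ∧ y ∉ a) * (ENNReal.ofReal M *
          K.E y (fun z => ind (Av (insert x a.toFinset) z)) + ENNReal.ofReal (2 * B ^ 2 / M))) := by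
        apply K.E_mono
        intro a
        exact mul_le_mul_right (K.merge_le B hB (insert x a.toFinset) x y M hM) _
    _ ≤ K.E x (fun a => ENNReal.ofReal M * K.E y (fun c => ind (Dj (a ++ [x]) (c ++ [y])))
          + ENNReal.ofReal (2 * B ^ 2 / M)) := by
        apply K.E_mono
        intro a
        rw [mul_add]
        apply add_le_add
        · rw [mul_left_comm]
          apply mul_le_mul_right
          rw [← K.E_mul_left]
          apply K.E_mono
          intro z
          rw [ind_mul]
          apply ind_mono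
          rintro ⟨⟨h1, h2⟩, h3⟩ v hv hv2
          rw [List.mem_append, List.mem_singleton] at hv hv2
          rcases hv2 with h | h
          · apply h3 v h
            rw [mem_insert]
            rcases hv with h' | h'
            · right; exact List.mem_toFinset.2 h'
            · left; exact h'
          · subst h
            rcases hv with h' | h'
            · exact h2 h'
            · exact hxy h'.symm
        · calc ind (Av {x} a ∧ y ∉ a) * ENNReal.ofReal (2 * B ^ 2 / M)
              ≤ 1 * ENNReal.ofReal (2 * B ^ 2 / M) := mul_le_mul_left (ind_le_one _) _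
            _ = _ := one_mul _
    _ = ENNReal.ofReal M * K.sd x y + ENNReal.ofReal (2 * B ^ 2 / M) := by
        rw [K.E_add, K.E_const, K.E_mul_left]
        rfl

theorem sd_low (B : ℝ) (hB : K.Good B) (x y : V) (hxy : x ≠ y) :
    1 ≤ ENNReal.ofReal (34 * B ^ 8) * K.sd x y := by
  have hB1 : 1 ≤ B := hB.B1
  have hB0 : 0 < B := by linarith
  set M : ℝ := 8 * B ^ 5 with hMdef
  have hM : 0 < M := by positivity
  have h1 := K.qp B hB x
  have h2 := K.esc1 B hB x y hxy
  set Q := K.E x (fun w1 => K.E x (fun w2 => ind (Av {x} w1 ∧ Av {x} w2 ∧ Dj w1 w2))) with hQ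
  set R := K.E y (fun w => ind (Av {x} w)) with hR
  -- the product
  have hQR : Q * R = K.E x (fun a => K.E x (fun b => K.E y (fun c =>
      ind ((Av {x} a ∧ Av {x} b ∧ Dj a b) ∧ Av {x} c)))) := by
    rw [mul_comm, hQ, ← K.E_mul_left]
    congr 1
    funext a
    rw [← K.E_mul_left]
    congr 1
    funext b
    rw [mul_comm, hR, ← K.E_mul_left]
    congr 1
    funext c
    rw [ind_mul]
  have hle : Q * R ≤ K.sd x y
      + K.E x (fun a => K.E x (fun b => K.E y (fun c => ind (EvB x y a b c))))
      + K.E x (fun a => K.E x (fun b => K.E y (fun c => ind (EvB x y b a c)))) := by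
    rw [hQR]
    calc K.E x (fun a => K.E x (fun b => K.E y (fun c =>
          ind ((Av {x} a ∧ Av {x} b ∧ Dj a b) ∧ Av {x} c))))
        ≤ K.E x (fun a => K.E x (fun b => K.E y (fun c =>
          ind (Dj (a ++ [x]) (c ++ [y])) + ind (EvB x y a b c) + ind (EvB x y b a c)))) := by
          apply K.E_mono; intro a
          apply K.E_mono; intro b
          apply K.E_mono; intro c
          exact ind_le3 (comb x y hxy a b c)
      _ = _ := by
          simp only [K.E_add]
          congr 2
          unfold sd
          congr 1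
          funext a
          rw [K.E_const]
  have hb1 := K.EvB_bound B hB x y hxy M hM
  have hb2 : K.E x (fun a => K.E x (fun b => K.E y (fun c => ind (EvB x y a b c))))
      ≤ ENNReal.ofReal M * K.sd x y + ENNReal.ofReal (2 * B ^ 2 / M) := by
    rw [K.E_comm x x]
    exact hb1
  have hsd1 : K.sd x y ≤ 1 := by
    unfold sd
    calc K.E x (fun w1 => K.E y (fun w2 => ind (Dj (w1 ++ [x]) (w2 ++ [y]))))
        ≤ K.E x (fun w1 => K.E y (fun w2 => 1)) := by
          apply K.E_mono; intro a
          apply K.E_mono; intro b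
          exact ind_le_one _
      _ = 1 := by simp only [K.E_const]
  have hfin : K.sd x y ≠ ⊤ := ne_top_of_le_ne_top ENNReal.one_ne_top hsd1
  obtain ⟨s, hs0, hs⟩ : ∃ s : ℝ, 0 ≤ s ∧ K.sd x y = ENNReal.ofReal s :=
    ⟨(K.sd x y).toReal, ENNReal.toReal_nonneg, (ENNReal.ofReal_toReal hfin).symm⟩
  have hprod : 1 ≤ ENNReal.ofReal (B ^ 3) * (Q * R) := by
    calc (1 : ENNReal) = 1 * 1 := (one_mul 1).symm
      _ ≤ (ENNReal.ofReal (B ^ 2) * Q) * (ENNReal.ofReal B * R) := mul_le_mul' h1 h2
      _ = (ENNReal.ofReal (B ^ 2) * ENNReal.ofReal B) * (Q * R) := by ring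
      _ = ENNReal.ofReal (B ^ 3) * (Q * R) := by
          rw [← ENNReal.ofReal_mul (by positivity)]
          rw [← pow_succ]
  have hall : 1 ≤ ENNReal.ofReal (B ^ 3 * (s + (M * s + 2 * B ^ 2 / M) + (M * s + 2 * B ^ 2 / M))) := by
    refine hprod.trans ?_
    rw [ENNReal.ofReal_mul (by positivity)]
    apply mul_le_mul_right
    refine hle.trans ?_
    rw [ENNReal.ofReal_add (by positivity) (by positivity),
      ENNReal.ofReal_add (by positivity) (by positivity)]
    rw [hs] at hb1 hb2 ⊢
    rw [ENNReal.ofReal_add (by positivity) (by positivity), ENNReal.ofReal_mul hM.le]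
    exact add_le_add (add_le_add le_rfl hb2) hb1
  rw [ENNReal.one_le_ofReal] at hall
  rw [hs, ← ENNReal.ofReal_mul (by positivity), ENNReal.one_le_ofReal]
  have hq : B ^ 3 * (2 * B ^ 2 / M) = 1 / 4 := by
    rw [hMdef]
    field_simp
    norm_num
  have hB38 : B ^ 3 ≤ B ^ 8 := pow_le_pow_right₀ hB1 (by norm_num)
  have e1 : B ^ 3 * (s + (M * s + 2 * B ^ 2 / M) + (M * s + 2 * B ^ 2 / M))
      = B ^ 3 * s + 16 * B ^ 8 * s + 2 * (B ^ 3 * (2 * B ^ 2 / M)) := by
    have : B ^ 3 * M = 8 * B ^ 8 := by rw [hMdef]; ring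
    have h3 : B ^ 3 * (s + (M * s + 2 * B ^ 2 / M) + (M * s + 2 * B ^ 2 / M))
      = B ^ 3 * s + 2 * (B ^ 3 * M) * s + 2 * (B ^ 3 * (2 * B ^ 2 / M)) := by ring
    rw [h3, this]
    ring
  rw [e1, hq] at hall
  have : B ^ 3 * s ≤ B ^ 8 * s := mul_le_mul_of_nonneg_right hB38 hs0
  linarith

end KK

end HP192
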