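import Mathlib
import Pool.Agent.Helper192_HP.Defs
import Pool.Agent.Helper192_HP.KDefs
import Pool.Agent.Helper192_HP.K01
import Pool.Agent.Helper192_HP.K02

namespace HP192
open Finset

-- TARGET
namespace KK
variable {V : Type} [Fintype V] [DecidableEq V] (K : KK V)

theorem last_vis_vis (C : Finset V) (x : V) (hx : x ∈ C) (w : List V) :
    ∃ i, i ≤ w.length ∧ tip x (w.drop i) ∈ C ∧ Av C (w.take i) := by
  induction w with
  | nil => exact ⟨0, le_refl _, hx, fun y hy => by simp at hy⟩
  | cons a w ih =>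
    by_cases ha : a ∈ C
    · exact ⟨0, Nat.zero_le _, ha, fun y hy => by simp at hy⟩
    · obtain ⟨i, hi, h1, h2⟩ := ih
      refine ⟨i + 1, by simpa using hi, h1, ?_⟩
      intro y hy
      rw [List.take_succ_cons, List.mem_cons] at hy
      rcases hy with hy | hy
      · rw [hy]
        exact ha
      · exact h2 y hy

theorem last_vis_tip (x : V) (w : List V) : tip x w ∈ w ++ [x] := by
  cases w with
  | nil => simp [tip]
  | cons a w => simp [tip]

theorem last_vis_tipd (x : V) (w : List V) (i : ℕ) : tip x (w.drop i) ∈ w ++ [x] := by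
  have h := last_vis_tip x (w.drop i)
  rw [List.mem_append] at h ⊢
  rcases h with h | h
  · exact Or.inl (List.mem_of_mem_drop h)
  · exact Or.inr h

/-- the integrand after the last visits -/
noncomputable def last_vis_H (C : Finset V) (x y : V) (a b c d : List V) : ENNReal :=
  if tip x b ∈ C then (if tip y d ∈ C.erase (tip x b) then ind (Av C a ∧ Av C c ∧ Dj a c) else 0)
  else 0

theorem last_vis_pt (C : Finset V) (x y : V) (hx : x ∈ C) (hy : y ∈ C) (w1 w2 : List V) :
    ind (Dj (w1 ++ [x]) (w2 ++ [y])) ≤ ∑ i ∈ range (w1.length + 1), ∑ j ∈ range (w2.length + 1),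
      last_vis_H C x y (w1.take i) (w1.drop i) (w2.take j) (w2.drop j) := by
  by_cases hD : Dj (w1 ++ [x]) (w2 ++ [y])
  · obtain ⟨i, hi, h1, h2⟩ := last_vis_vis C x hx w1
    obtain ⟨j, hj, h3, h4⟩ := last_vis_vis C y hy w2
    have h5 : last_vis_H C x y (w1.take i) (w1.drop i) (w2.take j) (w2.drop j) = 1 := by
      unfold last_vis_H
      have h6 : tip y (w2.drop j) ∈ C.erase (tip x (w1.drop i)) := by
        rw [Finset.mem_erase]
        refine ⟨fun h => ?_, h3⟩
        have h7 := hD _ (last_vis_tipd x w1 i)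
        rw [← h] at h7
        exact h7 (last_vis_tipd y w2 j)
      rw [if_pos h1, if_pos h6]
      unfold ind
      rw [if_pos]
      refine ⟨h2, h4, fun z hz hz' => ?_⟩
      exact hD z (List.mem_append_left _ (List.mem_of_mem_take hz))
        (List.mem_append_left _ (List.mem_of_mem_take hz'))
    have h8 : ind (Dj (w1 ++ [x]) (w2 ++ [y])) = 1 := by
      unfold ind
      rw [if_pos hD]
    rw [h8, ← h5]
    refine le_trans ?_ (Finset.single_le_sum (f := fun i => ∑ j ∈ range (w2.length + 1),
      last_vis_H C x y (w1.take i) (w1.drop i) (w2.take j) (w2.drop j)) (fun _ _ => zero_le)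
      (Finset.mem_range.2 (Nat.lt_succ_of_le hi)))
    exact Finset.single_le_sum (f := fun j =>
      last_vis_H C x y (w1.take i) (w1.drop i) (w2.take j) (w2.drop j)) (fun _ _ => zero_le)
      (Finset.mem_range.2 (Nat.lt_succ_of_le hj))
  · have h8 : ind (Dj (w1 ++ [x]) (w2 ++ [y])) = 0 := by
      unfold ind
      rw [if_neg hD]
    rw [h8]
    exact zero_le

theorem last_vis_in (C : Finset V) (x y : V) (a b : List V) :
    K.E y (fun w2 => ∑ j ∈ range (w2.length + 1),
      last_vis_H C x y a b (w2.take j) (w2.drop j)) =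
    ∑ z, K.G y z * K.E z (fun c => if tip x b ∈ C then (if z ∈ C.erase (tip x b) then
      ind (Av C a ∧ Av C c ∧ Dj a c) else 0) else 0) := by
  rw [K.E_split y (fun c d => last_vis_H C x y a b c d), ← K.G_sum y]
  rfl

theorem last_vis_out (C : Finset V) (x y : V) :
    K.E x (fun w1 => ∑ i ∈ range (w1.length + 1), ∑ z, K.G y z * K.E z (fun c =>
      if tip x (w1.drop i) ∈ C then (if z ∈ C.erase (tip x (w1.drop i)) then
      ind (Av C (w1.take i) ∧ Av C c ∧ Dj (w1.take i) c) else 0) else 0)) =
    ∑ p, K.G x p * K.E p (fun a => ∑ z, K.G y z * K.E z (fun c =>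
      if p ∈ C then (if z ∈ C.erase p then ind (Av C a ∧ Av C c ∧ Dj a c) else 0) else 0)) := by
  rw [K.E_split x (fun a b => ∑ z, K.G y z * K.E z (fun c =>
      if tip x b ∈ C then (if z ∈ C.erase (tip x b) then
      ind (Av C a ∧ Av C c ∧ Dj a c) else 0) else 0)), ← K.G_sum x]

theorem last_vis_p (C : Finset V) (y p : V) :
    K.E p (fun a => ∑ z, K.G y z * K.E z (fun c =>
      if p ∈ C then (if z ∈ C.erase p then ind (Av C a ∧ Av C c ∧ Dj a c) else 0) else 0)) =
    if p ∈ C then ∑ z ∈ C.erase p, K.G y z * K.Pi2 C p z else 0 := by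
  by_cases hp : p ∈ C
  · simp only [if_pos hp]
    have h1 : ∀ a : List V, ∑ z, K.G y z * K.E z (fun c =>
        if z ∈ C.erase p then ind (Av C a ∧ Av C c ∧ Dj a c) else 0) =
        ∑ z ∈ C.erase p, K.G y z * K.E z (fun c => ind (Av C a ∧ Av C c ∧ Dj a c)) := by
      intro a
      rw [← Finset.sum_subset (Finset.subset_univ (C.erase p))]
      · refine Finset.sum_congr rfl fun z hz => ?_
        simp only [if_pos hz]
      · intro z _ hz
        simp only [if_neg hz]
        rw [K.E_const, mul_zero]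
    simp only [h1]
    rw [K.E_sum]
    refine Finset.sum_congr rfl fun z _ => ?_
    rw [K.E_mul_left]
    rfl
  · simp only [if_neg hp, K.E_const, mul_zero, Finset.sum_const_zero]

/-- last visits to `C` -/
theorem last_vis (C : Finset V) (x y : V) (hx : x ∈ C) (hy : y ∈ C) :
    K.sd x y ≤ ∑ u ∈ C, ∑ v ∈ C.erase u, K.G x u * K.G y v * K.Pi2 C u v := by
  unfold sd
  have h1 : K.E x (fun w1 => K.E y (fun w2 => ind (Dj (w1 ++ [x]) (w2 ++ [y])))) ≤
      K.E x (fun w1 => K.E y (fun w2 => ∑ i ∈ range (w1.length + 1), ∑ j ∈ range (w2.length + 1),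
        last_vis_H C x y (w1.take i) (w1.drop i) (w2.take j) (w2.drop j))) :=
    K.E_mono x _ _ fun w1 => K.E_mono y _ _ fun w2 => last_vis_pt C x y hx hy w1 w2
  refine h1.trans (le_of_eq ?_)
  simp only [K.E_sum]
  have h2 : ∀ (w1 : List V) (i : ℕ), K.E y (fun w2 => ∑ j ∈ range (w2.length + 1),
      last_vis_H C x y (w1.take i) (w1.drop i) (w2.take j) (w2.drop j)) = _ := fun w1 i =>
    K.last_vis_in C x y (w1.take i) (w1.drop i)
  simp only [h2]
  rw [K.last_vis_out C x y]
  simp only [K.last_vis_p C y]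
  rw [← Finset.sum_subset (Finset.subset_univ C)]
  · refine Finset.sum_congr rfl fun p hp => ?_
    rw [if_pos hp, Finset.mul_sum]
    refine Finset.sum_congr rfl fun z _ => ?_
    rw [mul_assoc]
  · intro p _ hp
    rw [if_neg hp, mul_zero]

end KK

end HP192
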