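import Mathlib
import Pool.Agent.Helper192_HP.Defs
import Pool.Agent.Helper192_HP.KDefs
import Pool.Agent.Helper192_HP.K01
import Pool.Agent.Helper192_HP.K02
import Pool.Agent.Helper192_HP.K03
import Pool.Agent.Helper192_HP.K04

namespace HP192
open Finset

-- TARGET
namespace KK
variable {V : Type} [Fintype V] [DecidableEq V] (K : KK V)

theorem Pi2_symm (C : Finset V) (u v : V) : K.Pi2 C u v = K.Pi2 C v u := by
  unfold Pi2
  rw [K.E_comm u v]
  congr 1
  funext w2
  congr 1
  funext w1
  unfold ind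
  congr 1
  apply propext
  constructor
  · rintro ⟨h1, h2, h3⟩
    exact ⟨h2, h1, fun y hy hy' => h3 y hy' hy⟩
  · rintro ⟨h1, h2, h3⟩
    exact ⟨h2, h1, fun y hy hy' => h3 y hy' hy⟩

theorem tri_oldest (q : V → Prop) : ∀ (w : List V), (∃ y ∈ w, q y) →
    ∃ i z r, i ≤ w.length ∧ w.drop i = z :: r ∧ q z ∧ ∀ y ∈ r, ¬ q y
  | [], h => by
      obtain ⟨y, hy, _⟩ := h
      simp at hy
  | a :: w, h => by
      by_cases h' : ∃ y ∈ w, q y
      · obtain ⟨i, z, r, hi, hd, hz, hr⟩ := tri_oldest q w h'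
        exact ⟨i + 1, z, r, by simpa using hi, by simpa using hd, hz, hr⟩
      · refine ⟨0, a, w, Nat.zero_le _, rfl, ?_, ?_⟩
        · obtain ⟨y, hy, hq⟩ := h
          rcases List.mem_cons.1 hy with rfl | hy
          · exact hq
          · exact absurd ⟨y, hy, hq⟩ h'
        · intro y hy hq
          exact h' ⟨y, hy, hq⟩

theorem tri_ind_le_one (p : Prop) : ind p ≤ 1 := by
  unfold ind
  split_ifs <;> simp

theorem tri_ind_pos (p : Prop) (h : p) : ind p = 1 := by
  unfold ind
  rw [if_pos h]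

theorem tri_ind_neg (p : Prop) (h : ¬ p) : ind p = 0 := by
  unfold ind
  rw [if_neg h]

theorem tri_half (B : ℝ) (hB : K.Good B) (C : Finset V) (t u v : V) (M : ℝ) (hM : 0 < M) :
    K.E v (fun f => K.E u (fun p => K.E t (fun w => ind (Av C f) *
      ind (Av (C ∪ f.toFinset) p ∧ ∃ i ≤ w.length, Av (C ∪ f.toFinset) (w.drop i) ∧
        tip t (w.drop i) ∈ p ++ [u]))))
      ≤ ENNReal.ofReal M * K.Pi2 C t v + ENNReal.ofReal (2 * B ^ 2 / M) := by
  have h1 : ∀ f : List V, K.E u (fun p => K.E t (fun w => ind (Av C f) *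
      ind (Av (C ∪ f.toFinset) p ∧ ∃ i ≤ w.length, Av (C ∪ f.toFinset) (w.drop i) ∧
        tip t (w.drop i) ∈ p ++ [u])))
      ≤ ENNReal.ofReal M * K.E t (fun z => ind (Av C z ∧ Av C f ∧ Dj z f))
        + ENNReal.ofReal (2 * B ^ 2 / M) := by
    intro f
    have e1 : K.E u (fun p => K.E t (fun w => ind (Av C f) *
      ind (Av (C ∪ f.toFinset) p ∧ ∃ i ≤ w.length, Av (C ∪ f.toFinset) (w.drop i) ∧
        tip t (w.drop i) ∈ p ++ [u]))) = ind (Av C f) * K.E u (fun p => K.E t (fun w => 
      ind (Av (C ∪ f.toFinset) p ∧ ∃ i ≤ w.length, Av (C ∪ f.toFinset) (w.drop i) ∧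
        tip t (w.drop i) ∈ p ++ [u]))) := by
      rw [← K.E_mul_left]
      congr 1
      funext p
      rw [← K.E_mul_left]
    rw [e1]
    have e2 := K.merge_le B hB (C ∪ f.toFinset) u t M hM
    refine (mul_le_mul_right e2 _).trans ?_
    rw [mul_add]
    refine add_le_add ?_ ?_
    · rw [mul_left_comm, ← K.E_mul_left]
      refine mul_le_mul_right ?_ _
      refine K.E_mono _ _ _ ?_
      intro z
      by_cases hf : Av C f
      · by_cases hz : Av (C ∪ f.toFinset) z
        · rw [tri_ind_pos _ hf, tri_ind_pos _ hz, tri_ind_pos]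
          · simp
          · refine ⟨?_, hf, ?_⟩
            · intro y hy hyC
              exact hz y hy (Finset.mem_union_left _ hyC)
            · intro y hy hyf
              exact hz y hy (Finset.mem_union_right _ (List.mem_toFinset.2 hyf))
        · rw [tri_ind_neg _ hz]
          simp
      · rw [tri_ind_neg _ hf]
        simp
    · calc ind (Av C f) * ENNReal.ofReal (2 * B ^ 2 / M) ≤ 1 * ENNReal.ofReal (2 * B ^ 2 / M) :=
            mul_le_mul_left (tri_ind_le_one _) _
        _ = _ := one_mul _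
  refine (K.E_mono _ _ _ h1).trans ?_
  rw [K.E_add, K.E_const, K.E_mul_left]
  refine le_of_eq ?_
  congr 1
  congr 1
  unfold Pi2
  rw [K.E_comm]

theorem tri (B : ℝ) (hB : K.Good B) (C : Finset V) (t u v : V) (ht : t ∈ C) (hu : u ∈ C)
    (hv : v ∈ C) (htu : t ≠ u) (htv : t ≠ v) (huv : u ≠ v) (M : ℝ) (hM : 0 < M) :
    K.esc C t * K.Pi2 C u v ≤ K.Pi2 C t u + ENNReal.ofReal M * K.Pi2 C t v
      + ENNReal.ofReal M * K.Pi2 C t u + ENNReal.ofReal (4 * B ^ 2 / M) := by
  have hL : K.esc C t * K.Pi2 C u v = K.E t (fun w => K.E u (fun p => K.E v (fun f =>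
      ind (Av C w) * ind (Av C p ∧ Av C f ∧ Dj p f)))) := by
    unfold esc Pi2
    rw [mul_comm, ← K.E_mul_left]
    congr 1
    funext w
    rw [mul_comm, ← K.E_mul_left]
    congr 1
    funext p
    rw [← K.E_mul_left]
  rw [hL]
  have hpt : ∀ w p f : List V, ind (Av C w) * ind (Av C p ∧ Av C f ∧ Dj p f) ≤
      ind (Av C w ∧ Av C p ∧ Dj w p) +
      (ind (Av C f) * ind (Av (C ∪ f.toFinset) p ∧ ∃ i ≤ w.length,
        Av (C ∪ f.toFinset) (w.drop i) ∧ tip t (w.drop i) ∈ p ++ [u]) +
      ind (Av C p) * ind (Av (C ∪ p.toFinset) f ∧ ∃ i ≤ w.length,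
        Av (C ∪ p.toFinset) (w.drop i) ∧ tip t (w.drop i) ∈ f ++ [v])) := by
    intro w p f
    by_cases hw : Av C w
    swap
    · rw [tri_ind_neg _ hw]
      simp
    by_cases hp : Av C p ∧ Av C f ∧ Dj p f
    swap
    · rw [tri_ind_neg _ hp]
      simp
    obtain ⟨hp, hf, hpf⟩ := hp
    rw [tri_ind_pos _ hw, tri_ind_pos _ ⟨hp, hf, hpf⟩, one_mul]
    by_cases hwp : Dj w p
    · rw [tri_ind_pos (Av C w ∧ Av C p ∧ Dj w p) ⟨hw, hp, hwp⟩]
      exact le_add_right le_rfl
    · have hex : ∃ y ∈ w, (y ∈ p ∨ y ∈ f) := by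
        unfold Dj at hwp
        push Not at hwp
        obtain ⟨y, hy, hyp⟩ := hwp
        exact ⟨y, hy, Or.inl hyp⟩
      obtain ⟨i, z, r, hi, hd, hz, hr⟩ := tri_oldest (fun y => y ∈ p ∨ y ∈ f) w hex
      have hmem : ∀ y ∈ w.drop i, y ∉ C := fun y hy => hw y (List.mem_of_mem_drop hy)
      have htip : tip t (w.drop i) = z := by
        rw [hd]
        rfl
      refine le_add_left ?_
      rcases hz with hz | hz
      · have hA : Av (C ∪ f.toFinset) p ∧ ∃ i ≤ w.length,
            Av (C ∪ f.toFinset) (w.drop i) ∧ tip t (w.drop i) ∈ p ++ [u] := by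
          refine ⟨?_, i, hi, ?_, ?_⟩
          · intro y hy hyS
            rcases Finset.mem_union.1 hyS with h | h
            · exact hp y hy h
            · exact hpf y hy (List.mem_toFinset.1 h)
          · intro y hy hyS
            rcases Finset.mem_union.1 hyS with h | h
            · exact hmem y hy h
            · rw [hd] at hy
              rcases List.mem_cons.1 hy with rfl | hy
              · exact hpf _ hz (List.mem_toFinset.1 h)
              · exact hr y hy (Or.inr (List.mem_toFinset.1 h))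
          · rw [htip]
            exact List.mem_append_left _ hz
        refine le_add_right ?_
        rw [tri_ind_pos _ hf, tri_ind_pos _ hA]
        simp
      · have hA : Av (C ∪ p.toFinset) f ∧ ∃ i ≤ w.length,
            Av (C ∪ p.toFinset) (w.drop i) ∧ tip t (w.drop i) ∈ f ++ [v] := by
          refine ⟨?_, i, hi, ?_, ?_⟩
          · intro y hy hyS
            rcases Finset.mem_union.1 hyS with h | h
            · exact hf y hy h
            · exact hpf y (List.mem_toFinset.1 h) hy
          · intro y hy hyS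
            rcases Finset.mem_union.1 hyS with h | h
            · exact hmem y hy h
            · rw [hd] at hy
              rcases List.mem_cons.1 hy with rfl | hy
              · exact hpf _ (List.mem_toFinset.1 h) hz
              · exact hr y hy (Or.inl (List.mem_toFinset.1 h))
          · rw [htip]
            exact List.mem_append_left _ hz
        refine le_add_left ?_
        rw [tri_ind_pos _ hp, tri_ind_pos _ hA]
        simp
  refine (K.E_mono _ _ _ (fun w => K.E_mono _ _ _ (fun p => K.E_mono _ _ _ (hpt w p)))).trans ?_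
  simp only [K.E_add]
  have hfirst : K.E t (fun w => K.E u (fun p => K.E v (fun _ =>
      ind (Av C w ∧ Av C p ∧ Dj w p)))) = K.Pi2 C t u := by
    unfold Pi2
    congr 1
    funext w
    congr 1
    funext p
    rw [K.E_const]
  rw [hfirst]
  have hsecond : K.E t (fun w => K.E u (fun p => K.E v (fun f =>
      ind (Av C f) * ind (Av (C ∪ f.toFinset) p ∧ ∃ i ≤ w.length,
        Av (C ∪ f.toFinset) (w.drop i) ∧ tip t (w.drop i) ∈ p ++ [u]))))
      ≤ ENNReal.ofReal M * K.Pi2 C t v + ENNReal.ofReal (2 * B ^ 2 / M) := by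
    refine le_trans (le_of_eq ?_) (K.tri_half B hB C t u v M hM)
    rw [K.E_comm t u]
    have : ∀ p : List V, K.E t (fun w => K.E v (fun f =>
      ind (Av C f) * ind (Av (C ∪ f.toFinset) p ∧ ∃ i ≤ w.length,
        Av (C ∪ f.toFinset) (w.drop i) ∧ tip t (w.drop i) ∈ p ++ [u]))) =
        K.E v (fun f => K.E t (fun w =>
      ind (Av C f) * ind (Av (C ∪ f.toFinset) p ∧ ∃ i ≤ w.length,
        Av (C ∪ f.toFinset) (w.drop i) ∧ tip t (w.drop i) ∈ p ++ [u]))) := fun p => K.E_comm t v _
    simp only [this]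
    rw [K.E_comm u v]
  have hthird : K.E t (fun w => K.E u (fun p => K.E v (fun f =>
      ind (Av C p) * ind (Av (C ∪ p.toFinset) f ∧ ∃ i ≤ w.length,
        Av (C ∪ p.toFinset) (w.drop i) ∧ tip t (w.drop i) ∈ f ++ [v]))))
      ≤ ENNReal.ofReal M * K.Pi2 C t u + ENNReal.ofReal (2 * B ^ 2 / M) := by
    refine le_trans (le_of_eq ?_) (K.tri_half B hB C t v u M hM)
    rw [K.E_comm t u]
    congr 1
    funext p
    rw [K.E_comm t v]
  refine (add_le_add le_rfl (add_le_add hsecond hthird)).trans (le_of_eq ?_)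
  have h4 : ENNReal.ofReal (4 * B ^ 2 / M) = ENNReal.ofReal (2 * B ^ 2 / M) +
      ENNReal.ofReal (2 * B ^ 2 / M) := by
    rw [← ENNReal.ofReal_add (by positivity) (by positivity)]
    congr 1
    ring
  rw [h4]
  ring

end KK

end HP192
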