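import Mathlib
import Pool.Agent.Helper192_HP.Defs
import Pool.Agent.Helper192_HP.KDefs
import Pool.Agent.Helper192_HP.CdDef
import Pool.Agent.Helper192_HP.K01
import Pool.Agent.Helper192_HP.K02
import Pool.Agent.Helper192_HP.K06
import Pool.Agent.Helper192_HP.K07
import Pool.Agent.Helper192_HP.K08

namespace HP192
open Finset

/-- TARGET -/
theorem odd_pair (B : ℝ) (L : ℕ) (hB : 1 ≤ B) :
    ∃ ρ : ℝ, 0 < ρ ∧ ∀ (V : Type) [Fintype V] [DecidableEq V] (K : KK V), K.Good B →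
      ∀ (ℓ : ℕ) (c : ℕ → V), 3 ≤ ℓ → ℓ ≤ L → (∀ i, c (i + ℓ) = c i) →
      (∀ i < ℓ, ∀ j < ℓ, c i = c j → i = j) →
      ∃ i k, 1 ≤ k ∧ k < ℓ ∧ ENNReal.ofReal ρ ≤ K.Pi2 (cD ℓ c) (c i) (c (i + k)) := by
  have hB0 : 0 < B := by linarith
  refine ⟨1 / (34 * B ^ 10 * ((L : ℝ) + 1) ^ 2), by positivity, ?_⟩
  intro V _ _ K hK ℓ c h3 hL hper hinj
  set ρ : ℝ := 1 / (34 * B ^ 10 * ((L : ℝ) + 1) ^ 2) with hρ
  have hρ0 : 0 < ρ := by positivity
  have hmem : ∀ a < ℓ, c a ∈ cD ℓ c := by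
    intro a ha
    exact Finset.mem_image_of_mem c (Finset.mem_range.2 ha)
  have hne : c 0 ≠ c 1 := by
    intro h
    have := hinj 0 (by omega) 1 (by omega) h
    omega
  have h1 := K.sd_low B hK (c 0) (c 1) hne
  have h2 := K.last_vis (cD ℓ c) (c 0) (c 1) (hmem 0 (by omega)) (hmem 1 (by omega))
  have hcard : (cD ℓ c).card ≤ L := by
    unfold cD
    exact Finset.card_image_le.trans (by simpa using hL)
  -- a good pair
  have hpair : ∃ u ∈ cD ℓ c, ∃ v ∈ (cD ℓ c).erase u, ENNReal.ofReal ρ ≤ K.Pi2 (cD ℓ c) u v := by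
    by_contra hcon
    push Not at hcon
    have hb : ∑ u ∈ cD ℓ c, ∑ v ∈ (cD ℓ c).erase u,
        K.G (c 0) u * K.G (c 1) v * K.Pi2 (cD ℓ c) u v ≤
        ((L : ENNReal) * L) * (ENNReal.ofReal B * ENNReal.ofReal B * ENNReal.ofReal ρ) := by
      have hin : ∀ u ∈ cD ℓ c, ∑ v ∈ (cD ℓ c).erase u,
          K.G (c 0) u * K.G (c 1) v * K.Pi2 (cD ℓ c) u v ≤
          (L : ENNReal) * (ENNReal.ofReal B * ENNReal.ofReal B * ENNReal.ofReal ρ) := by
        intro u hu
        have h4 : ∀ v ∈ (cD ℓ c).erase u, K.G (c 0) u * K.G (c 1) v * K.Pi2 (cD ℓ c) u v ≤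
            ENNReal.ofReal B * ENNReal.ofReal B * ENNReal.ofReal ρ := by
          intro v hv
          exact mul_le_mul' (mul_le_mul' (K.G_le B hK _ _) (K.G_le B hK _ _)) (hcon u hu v hv).le
        refine (Finset.sum_le_card_nsmul _ _ _ h4).trans ?_
        rw [nsmul_eq_mul]
        refine mul_le_mul' ?_ le_rfl
        exact_mod_cast (Finset.card_erase_le).trans hcard
      refine (Finset.sum_le_card_nsmul _ _ _ hin).trans ?_
      rw [nsmul_eq_mul, mul_assoc (L : ENNReal) (L : ENNReal) _]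
      refine mul_le_mul' ?_ le_rfl
      exact_mod_cast hcard
    have h5 : (1 : ENNReal) ≤ ENNReal.ofReal (34 * B ^ 8) *
        (((L : ENNReal) * L) * (ENNReal.ofReal B * ENNReal.ofReal B * ENNReal.ofReal ρ)) :=
      h1.trans (mul_le_mul' le_rfl (h2.trans hb))
    have h6 : ENNReal.ofReal (34 * B ^ 8) *
        (((L : ENNReal) * L) * (ENNReal.ofReal B * ENNReal.ofReal B * ENNReal.ofReal ρ)) =
        ENNReal.ofReal ((34 * B ^ 8) * (((L : ℝ) * L) * (B * B * ρ))) := by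
      rw [ENNReal.ofReal_mul (p := 34 * B ^ 8) (by positivity),
        ENNReal.ofReal_mul (p := (L : ℝ) * L) (by positivity),
        ENNReal.ofReal_mul (p := (L : ℝ)) (by positivity),
        ENNReal.ofReal_mul (p := B * B) (by positivity),
        ENNReal.ofReal_mul (p := B) (by positivity), ENNReal.ofReal_natCast]
    rw [h6, ENNReal.one_le_ofReal] at h5
    have h7 : (34 * B ^ 8) * (((L : ℝ) * L) * (B * B * ρ)) = ((L : ℝ) * L) / ((L : ℝ) + 1) ^ 2 := by
      rw [hρ]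
      field_simp
    rw [h7, le_div_iff₀ (by positivity)] at h5
    nlinarith [(Nat.cast_nonneg L : (0 : ℝ) ≤ L)]
  obtain ⟨u, hu, v, hv, huv⟩ := hpair
  have hv' := Finset.mem_erase.1 hv
  obtain ⟨a, ha, rfl⟩ := Finset.mem_image.1 hu
  obtain ⟨b, hb, rfl⟩ := Finset.mem_image.1 hv'.2
  rw [Finset.mem_range] at ha hb
  rcases lt_trichotomy a b with h | h | h
  · refine ⟨a, b - a, by omega, by omega, ?_⟩
    have : a + (b - a) = b := by omega
    rw [this]
    exact huv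
  · subst h
    exact absurd rfl hv'.1
  · refine ⟨b, a - b, by omega, by omega, ?_⟩
    have : b + (a - b) = a := by omega
    rw [this, K.Pi2_symm]
    exact huv

end HP192
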