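import Mathlib
import Pool.Agent.Helper192_HP.Defs
import Pool.Agent.Helper192_HP.KDefs

namespace HP192
open Finset

/-- the walk with kernel `K.P` killed with probability `lam` before each step -/
noncomputable def Ker.toKK {V : Type} [Fintype V] [DecidableEq V] (K : Ker V) (lam : ℝ)
    (h0 : 0 < lam) (h1 : lam ≤ 1) : KK V where
  Q x y := ENNReal.ofReal ((1 - lam) * K.P x y)
  lam := ENNReal.ofReal lam
  lam0 := by
    rw [Ne, ENNReal.ofReal_eq_zero]
    exact not_le.2 h0
  row x := by
    rw [← ENNReal.ofReal_sum_of_nonneg fun y _ => mul_nonneg (by linarith) (K.nn x y),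
      ← Finset.mul_sum, K.row, mul_one, ← ENNReal.ofReal_add h0.le (by linarith)]
    simp
  sym x y := by rw [K.sym]

open Classical in
/-- four independent walks of `k` steps avoid `D` after time 0, the first two are disjoint from the
last two -/
noncomputable def Ker.cfk {V : Type} [Fintype V] [DecidableEq V] (K : Ker V) (k : ℕ)
    (D : Finset V) (u1 u2 v1 v2 : V) : ℝ :=
  K.EW k u1 (fun p1 => K.EW k u2 (fun p2 => K.EW k v1 (fun f1 => K.EW k v2 (fun f2 =>
    if Av D p1 ∧ Av D p2 ∧ Av D f1 ∧ Av D f2 ∧ Dj p1 f1 ∧ Dj p1 f2 ∧ Dj p2 f1 ∧ Dj p2 f2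
    then (1 : ℝ) else 0))))


end HP192
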