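import Mathlib
import Pool.Agent.Helper192_HP.Defs
import Pool.Agent.Helper192_HP.WDefs
import Pool.Agent.Helper192_HP.Basic
import Pool.Agent.Helper192_HP.W02
import Pool.Agent.Helper192_HP.KDefs
import Pool.Agent.Helper192_HP.KLink
import Pool.Agent.Helper192_HP.W06
import Pool.Agent.Helper192_HP.K01
import Pool.Agent.Helper192_HP.K02

namespace HP192
open Finset

-- TARGET
namespace Ker
variable {V : Type} [Fintype V] [DecidableEq V] (K : Ker V)

theorem form_nonneg (g : V → ℝ) : 0 ≤ ∑ a, ∑ b, K.P a b * (g a * g b) := by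
  have h1 : ∑ a, ∑ b, K.P a b * (g a) ^ 2 = ∑ a, (g a) ^ 2 := by
    apply sum_congr rfl
    intro a _
    rw [← Finset.sum_mul, K.row, one_mul]
  have h2 : ∑ a, ∑ b, K.P a b * (g b) ^ 2 = ∑ a, (g a) ^ 2 := by
    rw [sum_comm]
    apply sum_congr rfl
    intro a _
    rw [← Finset.sum_mul]
    have : ∑ i, K.P i a = 1 := by
      rw [← K.row a]
      exact sum_congr rfl fun i _ => K.sym i a
    rw [this, one_mul]
  have h3 : ∑ a, (2 * (g a) ^ 2) ≤ ∑ a, ∑ b, K.P a b * (g a + g b) ^ 2 := by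
    apply sum_le_sum
    intro a _
    have : K.P a a * (g a + g a) ^ 2 ≤ ∑ b, K.P a b * (g a + g b) ^ 2 :=
      single_le_sum (f := fun b => K.P a b * (g a + g b) ^ 2)
        (fun b _ => mul_nonneg (K.nn a b) (sq_nonneg _)) (mem_univ a)
    rw [K.hold] at this
    linarith
  have h4 : ∑ a, ∑ b, K.P a b * (g a + g b) ^ 2
      = ∑ a, ∑ b, K.P a b * (g a) ^ 2 + ∑ a, ∑ b, K.P a b * (g b) ^ 2
        + 2 * ∑ a, ∑ b, K.P a b * (g a * g b) := by
    rw [mul_sum, ← sum_add_distrib, ← sum_add_distrib]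
    apply sum_congr rfl
    intro a _
    rw [mul_sum, ← sum_add_distrib, ← sum_add_distrib]
    apply sum_congr rfl
    intro b _
    ring
  rw [← mul_sum, h4, h1, h2] at h3
  linarith

theorem hk_one (x y : V) : K.hk 1 x y = K.P x y := by
  simp [hk]

theorem hk_new (t : ℕ) (x y : V) : K.hk (t + 1) x y = ∑ z, K.hk t x z * K.P z y := by
  rw [K.hk_add t 1]
  exact sum_congr rfl fun z _ => by rw [K.hk_one]

theorem hk_le_diag (t : ℕ) (x y : V) : K.hk t x y ≤ K.hk t x x := by
  have hd := K.hk_diag t x y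
  have hsym := K.hk_symm t x y
  rcases Nat.even_or_odd' t with ⟨s, rfl | rfl⟩
  · have h1 : ∀ a b : V, K.hk (2 * s) a b = ∑ z, K.hk s z a * K.hk s z b := by
      intro a b
      rw [two_mul, K.hk_add]
      exact sum_congr rfl fun z _ => by rw [K.hk_symm s a z]
    have h2 : 0 ≤ ∑ z, (K.hk s z x - K.hk s z y) ^ 2 := sum_nonneg fun z _ => sq_nonneg _
    have h3 : ∑ z, (K.hk s z x - K.hk s z y) ^ 2
        = ∑ z, K.hk s z x * K.hk s z x + ∑ z, K.hk s z y * K.hk s z y
          - 2 * ∑ z, K.hk s z x * K.hk s z y := by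
      rw [mul_sum, ← sum_add_distrib, ← sum_sub_distrib]
      exact sum_congr rfl fun z _ => by ring
    rw [h3, ← h1, ← h1, ← h1] at h2
    linarith
  · have h1 : ∀ a b : V, K.hk (2 * s + 1) a b
        = ∑ z, ∑ z', K.P z z' * (K.hk s z a * K.hk s z' b) := by
      intro a b
      have : 2 * s + 1 = s + (s + 1) := by ring
      rw [this, K.hk_add]
      apply sum_congr rfl
      intro z _
      rw [show K.hk (s + 1) z b = ∑ z', K.P z z' * K.hk s z' b from rfl, mul_sum]
      apply sum_congr rfl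
      intro z' _
      rw [K.hk_symm s a z]
      ring
    have h2 := K.form_nonneg (fun z => K.hk s z x - K.hk s z y)
    have h3 : ∑ z, ∑ z', K.P z z' * ((K.hk s z x - K.hk s z y) * (K.hk s z' x - K.hk s z' y))
        = ∑ z, ∑ z', K.P z z' * (K.hk s z x * K.hk s z' x)
          + ∑ z, ∑ z', K.P z z' * (K.hk s z y * K.hk s z' y)
          - ∑ z, ∑ z', K.P z z' * (K.hk s z x * K.hk s z' y)
          - ∑ z, ∑ z', K.P z z' * (K.hk s z y * K.hk s z' x) := by
      rw [← sum_add_distrib, ← sum_sub_distrib, ← sum_sub_distrib]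
      apply sum_congr rfl
      intro z _
      rw [← sum_add_distrib, ← sum_sub_distrib, ← sum_sub_distrib]
      exact sum_congr rfl fun z' _ => by ring
    rw [h3, ← h1, ← h1, ← h1, ← h1] at h2
    linarith

theorem tsum_list (f : List V → ENNReal) :
    ∑' w, f w = ∑' c : ℕ, ∑ v : Fin c → V, f (List.ofFn v) := by
  rw [← (List.equivSigmaTuple (α := V)).symm.tsum_eq, ENNReal.tsum_sigma']
  apply tsum_congr
  intro c
  rw [tsum_fintype]
  rfl

theorem sum_cons (c : ℕ) (f : List V → ENNReal) :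
    ∑ v : Fin (c + 1) → V, f (List.ofFn v) = ∑ y, ∑ v : Fin c → V, f (y :: List.ofFn v) := by
  rw [← (Fin.consEquiv (fun _ : Fin (c + 1) => V)).sum_comp, Fintype.sum_prod_type]
  apply sum_congr rfl
  intro y _
  apply sum_congr rfl
  intro v _
  congr 1
  rw [List.ofFn_succ]
  simp [Fin.consEquiv]

theorem wt_sum (lam : ℝ) (h0 : 0 < lam) (h1 : lam ≤ 1) (x : V) (c : ℕ) (φ : V → ENNReal) :
    ∑ v : Fin c → V, (K.toKK lam h0 h1).wt x (List.ofFn v) * φ (tip x (List.ofFn v))
      = ∑ z, ENNReal.ofReal ((1 - lam) ^ c * K.hk c x z) * φ z := by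
  have hl : 0 ≤ 1 - lam := by linarith
  induction c generalizing φ with
  | zero =>
    simp only [List.ofFn_zero, tip_nil, KK.wt, one_mul, pow_zero, hk]
    rw [Fintype.sum_unique]
    rw [Finset.sum_eq_single x]
    · simp
    · intro b _ hb
      simp [Ne.symm hb]
    · intro h; exact absurd (mem_univ _) h
  | succ c ih =>
    rw [sum_cons c (fun w => (K.toKK lam h0 h1).wt x w * φ (tip x w)), sum_comm]
    have e1 : ∀ v : Fin c → V, ∑ y, (K.toKK lam h0 h1).wt x (y :: List.ofFn v) *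
        φ (tip x (y :: List.ofFn v)) = (K.toKK lam h0 h1).wt x (List.ofFn v) *
          (fun z => ∑ y, (K.toKK lam h0 h1).Q z y * φ y) (tip x (List.ofFn v)) := by
      intro v
      simp only [tip_cons, KK.wt]
      rw [mul_sum]
      exact sum_congr rfl fun y _ => by ring
    rw [sum_congr rfl (fun v _ => e1 v), ih (fun z => ∑ y, (K.toKK lam h0 h1).Q z y * φ y)]
    simp only [mul_sum]
    rw [sum_comm]
    apply sum_congr rfl
    intro y _
    rw [K.hk_new, mul_sum, ENNReal.ofReal_sum_of_nonneg, sum_mul]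
    · apply sum_congr rfl
      intro z _
      rw [← mul_assoc]
      congr 1
      change _ * ENNReal.ofReal ((1 - lam) * K.P z y) = _
      rw [← ENNReal.ofReal_mul (mul_nonneg (pow_nonneg hl _) (K.hk_nonneg _ _ _))]
      congr 1
      ring
    · intro z _
      exact mul_nonneg (pow_nonneg hl _) (mul_nonneg (K.hk_nonneg _ _ _) (K.nn _ _))

theorem toKK_G (lam : ℝ) (h0 : 0 < lam) (h1 : lam ≤ 1) (x y : V) :
    (K.toKK lam h0 h1).G x y = ∑' c : ℕ, ENNReal.ofReal ((1 - lam) ^ c * K.hk c x y) := by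
  unfold KK.G
  rw [tsum_list]
  apply tsum_congr
  intro c
  rw [K.wt_sum lam h0 h1 x c (fun z => ind (z = y))]
  rw [Finset.sum_eq_single y]
  · simp [ind]
  · intro b _ hb
    simp [ind, hb]
  · intro h; exact absurd (mem_univ _) h

theorem tsum_conv (F : ℕ → ENNReal) :
    ∑' c : ℕ, ∑' c' : ℕ, F (c + c') = ∑' m : ℕ, ((m : ENNReal) + 1) * F m := by
  have h0 : ∑' c : ℕ, ∑' c' : ℕ, F (c + c') = ∑' q : ℕ × ℕ, F (q.1 + q.2) :=
    (ENNReal.tsum_prod (f := fun c c' => F (c + c'))).symm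
  have h1 := (Finset.HasAntidiagonal.sigmaAntidiagonalEquivProd (A := ℕ)).tsum_eq
    (fun q : ℕ × ℕ => F (q.1 + q.2))
  rw [h0, ← h1, ENNReal.tsum_sigma']
  apply tsum_congr
  intro m
  rw [tsum_fintype]
  have : ∀ q : (antidiagonal m : Finset (ℕ × ℕ)),
      F ((Finset.HasAntidiagonal.sigmaAntidiagonalEquivProd ⟨m, q⟩).1 + (Finset.HasAntidiagonal.sigmaAntidiagonalEquivProd ⟨m, q⟩).2)
        = F m := by
    intro q
    congr 1
    exact mem_antidiagonal.1 q.2
  rw [sum_congr rfl (fun q _ => this q)]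
  rw [sum_const, card_univ, nsmul_eq_mul]
  congr 1
  simp

theorem toKK_good (lam : ℝ) (h0 : 0 < lam) (h1 : lam ≤ 1) (o : V) (N m0 : ℕ) (Θ κ : ℝ)
    (hΘ : K.Th o N ≤ Θ) (hm : m0 ≤ N) (h2 : ∀ x y, K.hk m0 x y ≤ κ) (hκ : κ ≤ lam ^ 2) :
    (K.toKK lam h0 h1).Good (Θ + 1) := by
  have hl : 0 ≤ 1 - lam := by linarith
  have hTh := K.one_le_Th o N
  have hκ0 : 0 ≤ κ := (K.hk_nonneg m0 o o).trans (h2 o o)
  refine ⟨by linarith, ?_, ?_, ?_⟩
  · intro x y
    obtain ⟨g, hg, hg2⟩ := K.tr x y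
    refine ⟨g, hg, fun a b => ?_⟩
    change ENNReal.ofReal ((1 - lam) * K.P (g a) (g b)) = ENNReal.ofReal ((1 - lam) * K.P a b)
    rw [hg2]
  · intro x
    have e1 : ∀ z, (K.toKK lam h0 h1).G x z * (K.toKK lam h0 h1).G x z
        = ∑' c : ℕ, ∑' c' : ℕ, ENNReal.ofReal ((1 - lam) ^ (c + c') * (K.hk c x z * K.hk c' z x)) := by
      intro z
      rw [K.toKK_G, ← ENNReal.tsum_mul_right]
      apply tsum_congr
      intro c
      rw [← ENNReal.tsum_mul_left]
      apply tsum_congr
      intro c'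
      rw [← ENNReal.ofReal_mul (mul_nonneg (pow_nonneg hl _) (K.hk_nonneg _ _ _)), K.hk_symm c' z x,
        pow_add]
      congr 1
      ring
    rw [sum_congr rfl (fun z _ => e1 z)]
    rw [← Summable.tsum_finsetSum (fun _ _ => ENNReal.summable)]
    have e2 : ∀ c : ℕ, ∑ z, ∑' c' : ℕ, ENNReal.ofReal ((1 - lam) ^ (c + c') *
        (K.hk c x z * K.hk c' z x))
        = ∑' c' : ℕ, ENNReal.ofReal ((1 - lam) ^ (c + c') * K.hk (c + c') x x) := by
      intro c
      rw [← Summable.tsum_finsetSum (fun _ _ => ENNReal.summable)]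
      apply tsum_congr
      intro c'
      rw [← ENNReal.ofReal_sum_of_nonneg]
      · rw [← mul_sum, ← K.hk_add]
      · intro z _
        exact mul_nonneg (pow_nonneg hl _) (mul_nonneg (K.hk_nonneg _ _ _) (K.hk_nonneg _ _ _))
    rw [tsum_congr e2]
    set F : ℕ → ENNReal := fun m => if m ≤ N then ENNReal.ofReal (K.hk m o o) else 0 with hF
    have e3 : ∀ c c' : ℕ, ENNReal.ofReal ((1 - lam) ^ (c + c') * K.hk (c + c') x x)
        ≤ F (c + c') + ENNReal.ofReal κ * (ENNReal.ofReal (1 - lam) ^ c *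
          ENNReal.ofReal (1 - lam) ^ c') := by
      intro c c'
      by_cases h : c + c' ≤ N
      · simp only [hF, if_pos h]
        refine le_trans ?_ le_self_add
        apply ENNReal.ofReal_le_ofReal
        rw [K.hk_diag _ x o]
        have : (1 - lam) ^ (c + c') ≤ 1 := pow_le_one₀ hl (by linarith)
        exact mul_le_of_le_one_left (K.hk_nonneg _ _ _) this
      · simp only [hF, if_neg h, zero_add]
        rw [← pow_add, ← ENNReal.ofReal_pow hl, ← ENNReal.ofReal_mul hκ0]
        apply ENNReal.ofReal_le_ofReal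
        rw [mul_comm]
        exact mul_le_mul_of_nonneg_right (K.hk_mix m0 κ h2 _ (by omega) _ _) (pow_nonneg hl _)
    have e4 : ∑' c : ℕ, ∑' c' : ℕ, F (c + c') = ENNReal.ofReal (K.Th o N) := by
      rw [tsum_conv]
      rw [tsum_eq_sum (s := range (N + 1))]
      · unfold Th
        rw [ENNReal.ofReal_sum_of_nonneg]
        · apply sum_congr rfl
          intro m hm'
          rw [mem_range] at hm'
          simp only [hF, if_pos (show m ≤ N by omega)]
          rw [ENNReal.ofReal_mul (by positivity)]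
          congr 1
          rw [ENNReal.ofReal_add (by positivity) (by norm_num)]
          simp
        · intro m _
          exact mul_nonneg (by positivity) (K.hk_nonneg _ _ _)
      · intro m hm'
        rw [mem_range] at hm'
        simp only [hF, if_neg (show ¬ m ≤ N by omega), mul_zero]
    have e5 : ∑' c : ℕ, ∑' c' : ℕ, ENNReal.ofReal κ * (ENNReal.ofReal (1 - lam) ^ c *
          ENNReal.ofReal (1 - lam) ^ c') ≤ 1 := by
      simp only [ENNReal.tsum_mul_left, ENNReal.tsum_mul_right, ENNReal.tsum_geometric]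
      have h3 : (1 : ENNReal) - ENNReal.ofReal (1 - lam) = ENNReal.ofReal lam := by
        rw [← ENNReal.ofReal_one, ← ENNReal.ofReal_sub _ hl]
        congr 1
        ring
      rw [h3, ← ENNReal.ofReal_inv_of_pos h0, ← ENNReal.ofReal_mul (by positivity),
        ← ENNReal.ofReal_mul hκ0, ← ENNReal.ofReal_one]
      apply ENNReal.ofReal_le_ofReal
      have : κ * (lam⁻¹ * lam⁻¹) ≤ lam ^ 2 * (lam⁻¹ * lam⁻¹) :=
        mul_le_mul_of_nonneg_right hκ (by positivity)
      refine this.trans (le_of_eq ?_)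
      field_simp
    calc ∑' c : ℕ, ∑' c' : ℕ, ENNReal.ofReal ((1 - lam) ^ (c + c') * K.hk (c + c') x x)
        ≤ ∑' c : ℕ, ∑' c' : ℕ, (F (c + c') + ENNReal.ofReal κ * (ENNReal.ofReal (1 - lam) ^ c *
          ENNReal.ofReal (1 - lam) ^ c')) :=
          ENNReal.tsum_le_tsum fun c => ENNReal.tsum_le_tsum fun c' => e3 c c'
      _ = ∑' c : ℕ, ∑' c' : ℕ, F (c + c') + ∑' c : ℕ, ∑' c' : ℕ, ENNReal.ofReal κ *
          (ENNReal.ofReal (1 - lam) ^ c * ENNReal.ofReal (1 - lam) ^ c') := by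
          rw [← ENNReal.tsum_add]
          apply tsum_congr
          intro c
          rw [← ENNReal.tsum_add]
      _ ≤ ENNReal.ofReal (K.Th o N) + 1 := by
          rw [e4]
          exact add_le_add le_rfl e5
      _ ≤ ENNReal.ofReal (Θ + 1) := by
          rw [ENNReal.ofReal_add (by linarith) (by norm_num), ENNReal.ofReal_one]
          exact add_le_add (ENNReal.ofReal_le_ofReal hΘ) le_rfl
  · intro x y hxy
    rw [K.toKK_G, K.toKK_G, tsum_eq_zero_add' ENNReal.summable,
      tsum_eq_zero_add' (f := fun c : ℕ => ENNReal.ofReal ((1 - lam) ^ c * K.hk c x x))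
        ENNReal.summable]
    have h3 : ENNReal.ofReal ((1 - lam) ^ 0 * K.hk 0 x y) = 0 := by simp [hk, hxy]
    have h4 : ENNReal.ofReal ((1 - lam) ^ 0 * K.hk 0 x x) = 1 := by simp [hk]
    rw [h3, h4, zero_add, add_comm]
    apply add_le_add le_rfl
    apply ENNReal.tsum_le_tsum
    intro c
    apply ENNReal.ofReal_le_ofReal
    exact mul_le_mul_of_nonneg_left (K.hk_le_diag _ _ _) (pow_nonneg hl _)

end Ker

end HP192
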