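import Mathlib
import Pool.Agent.Helper192_HP.Defs
import Pool.Agent.Helper192_HP.WDefs
import Pool.Agent.Helper192_HP.Basic
import Pool.Agent.Helper192_HP.W02
import Pool.Agent.Helper192_HP.KDefs
import Pool.Agent.Helper192_HP.KLink
import Pool.Agent.Helper192_HP.K01

namespace HP192
open Finset

-- TARGET
namespace Ker
variable {V : Type} [Fintype V] [DecidableEq V] (K : Ker V)

/-- comparison of the killed walk with its first `k` steps -/
theorem toKK_E_le (lam : ℝ) (h0 : 0 < lam) (h1 : lam ≤ 1) (k : ℕ) (x : V)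
    (F : List V → ENNReal) (F' : List V → ℝ) (hF1 : ∀ w, F w ≤ 1) (hF0 : ∀ w, 0 ≤ F' w)
    (hF : ∀ w : List V, k ≤ w.length → F w ≤ ENNReal.ofReal (F' (w.drop (w.length - k)))) :
    (K.toKK lam h0 h1).E x F ≤ ENNReal.ofReal (K.EW k x F' + k * lam) := by
  induction k generalizing x F F' with
  | zero =>
    have h2 : (K.toKK lam h0 h1).E x F ≤ (K.toKK lam h0 h1).E x (fun _ => ENNReal.ofReal (F' [])) := by
      refine KK.E_mono _ x _ _ fun w => ?_
      have := hF w (Nat.zero_le _)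
      simpa using this
    rw [KK.E_const] at h2
    simpa [EW_zero] using h2
  | succ k ih =>
    rw [KK.E_first]
    have h2 : ∀ y, (K.toKK lam h0 h1).E y (fun w => F (w ++ [y])) ≤
        ENNReal.ofReal (K.EW k y (fun w => F' (w ++ [y])) + k * lam) := by
      intro y
      refine ih y _ _ (fun w => hF1 _) (fun w => hF0 _) fun w hw => ?_
      have h3 := hF (w ++ [y]) (by simp; omega)
      rw [List.length_append, List.length_singleton, Nat.add_sub_add_right,
        List.drop_append_of_le_length (Nat.sub_le _ _)] at h3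
      exact h3
    have hE0 : ∀ y, 0 ≤ K.EW k y (fun w => F' (w ++ [y])) := fun y =>
      K.EW_nonneg k y _ fun w _ => hF0 _
    have hl : (K.toKK lam h0 h1).lam = ENNReal.ofReal lam := rfl
    have hQ : ∀ y, (K.toKK lam h0 h1).Q x y = ENNReal.ofReal ((1 - lam) * K.P x y) := fun y => rfl
    rw [hl]
    simp only [hQ]
    calc ENNReal.ofReal lam * F [] + ∑ y, ENNReal.ofReal ((1 - lam) * K.P x y) *
          (K.toKK lam h0 h1).E y (fun w => F (w ++ [y]))
        ≤ ENNReal.ofReal lam * 1 + ∑ y, ENNReal.ofReal ((1 - lam) * K.P x y) *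
          ENNReal.ofReal (K.EW k y (fun w => F' (w ++ [y])) + k * lam) := by
          gcongr with y _
          · exact hF1 _
          · exact h2 y
      _ = ENNReal.ofReal (lam + ∑ y, (1 - lam) * K.P x y *
          (K.EW k y (fun w => F' (w ++ [y])) + k * lam)) := by
          rw [mul_one, ENNReal.ofReal_add h0.le (Finset.sum_nonneg fun y _ => mul_nonneg
            (mul_nonneg (by linarith) (K.nn x y)) (add_nonneg (hE0 y) (by positivity))),
            ENNReal.ofReal_sum_of_nonneg fun y _ => mul_nonneg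
            (mul_nonneg (by linarith) (K.nn x y)) (add_nonneg (hE0 y) (by positivity))]
          congr 1
          refine Finset.sum_congr rfl fun y _ => ?_
          rw [ENNReal.ofReal_mul (mul_nonneg (by linarith) (K.nn x y))]
      _ ≤ ENNReal.ofReal (K.EW (k + 1) x F' + (k + 1 : ℕ) * lam) := by
          apply ENNReal.ofReal_le_ofReal
          have h3 : ∑ y, (1 - lam) * K.P x y * (K.EW k y (fun w => F' (w ++ [y])) + k * lam) =
              (1 - lam) * (K.EW (k + 1) x F' + k * lam) := by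
            rw [EW_succ]
            simp only [smul_eq_mul]
            have h4 : ∑ y, (1 - lam) * K.P x y * (K.EW k y (fun w => F' (w ++ [y])) + k * lam) =
                (1 - lam) * (∑ y, K.P x y * K.EW k y (fun w => F' (w ++ [y])) +
                  (∑ y, K.P x y) * (k * lam)) := by
              rw [Finset.sum_mul, ← Finset.sum_add_distrib, Finset.mul_sum]
              refine Finset.sum_congr rfl fun y _ => ?_
              ring
            rw [h4, K.row, one_mul]
          rw [h3]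
          have h5 : 0 ≤ K.EW (k + 1) x F' := K.EW_nonneg _ _ _ fun w _ => hF0 w
          push_cast
          have h6 : 0 ≤ lam * (K.EW (k + 1) x F' + k * lam) := by positivity
          nlinarith

/-- comparison of the killed walk with its first `k` steps, lower bound for the end point -/
theorem toKK_mix (lam : ℝ) (h0 : 0 < lam) (h1 : lam ≤ 1) (m0 : ℕ) (hm : (m0 : ℝ) * lam ≤ 1 / 8)
    (h2 : ∀ x y, K.hk m0 x y ≤ 3 / (2 * (Fintype.card V : ℝ))) (x : V) (X : Finset V)
    (hX : 2 * X.card ≤ Fintype.card V) :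
    (K.toKK lam h0 h1).E x (fun w => ind (tip x w ∈ X)) ≤ ENNReal.ofReal (7 / 8) := by
  set G : V → ENNReal := fun y => (K.toKK lam h0 h1).E y (fun w => ind (tip y w ∈ X)) with hG
  have hl : (K.toKK lam h0 h1).lam = ENNReal.ofReal lam := rfl
  have hQ : ∀ x y, (K.toKK lam h0 h1).Q x y = ENNReal.ofReal ((1 - lam) * K.P x y) :=
    fun x y => rfl
  have hrec : ∀ y, G y = ENNReal.ofReal lam * ind (y ∈ X) +
      ∑ z, (K.toKK lam h0 h1).Q y z * G z := by
    intro y
    simp only [hG]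
    rw [KK.E_first, hl]
    simp only [tip_append_singleton, tip_nil]
  have hG1 : ∀ y, G y ≤ 1 := by
    intro y
    refine (KK.E_mono _ y _ (fun _ => 1) fun w => ?_).trans (le_of_eq (KK.E_const _ y 1))
    unfold ind
    split_ifs
    · exact le_refl _
    · exact zero_le
  -- the sum of `G`
  have hSfin : ∑ y, G y ≠ ⊤ := by
    rw [ENNReal.sum_ne_top]
    exact fun y _ => ne_top_of_le_ne_top ENNReal.one_ne_top (hG1 y)
  have hcol : ∀ z, ∑ y, (K.toKK lam h0 h1).Q y z = ENNReal.ofReal (1 - lam) := by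
    intro z
    simp only [hQ]
    rw [← ENNReal.ofReal_sum_of_nonneg fun y _ => mul_nonneg (by linarith) (K.nn _ _),
      ← Finset.mul_sum]
    congr 1
    have : ∑ y, K.P y z = ∑ y, K.P z y := Finset.sum_congr rfl fun y _ => K.sym y z
    rw [this, K.row, mul_one]
  have hind : ∑ y, (ind (y ∈ X) : ENNReal) = (X.card : ENNReal) := by
    have e0 : ∀ y, (ind (y ∈ X) : ENNReal) = if y ∈ X then 1 else 0 := by
      intro y
      unfold ind
      split_ifs <;> rfl
    simp only [e0]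
    rw [Finset.sum_boole]
    simp
  have hS : ∑ y, G y = (X.card : ENNReal) := by
    have e1 : ∑ y, G y = ENNReal.ofReal lam * X.card + ENNReal.ofReal (1 - lam) * ∑ y, G y := by
      conv_lhs => rw [Finset.sum_congr rfl fun y _ => hrec y]
      rw [Finset.sum_add_distrib, ← Finset.mul_sum, hind, Finset.sum_comm]
      congr 1
      rw [Finset.mul_sum]
      refine Finset.sum_congr rfl fun z _ => ?_
      rw [← Finset.sum_mul, hcol]
    have e2 : (ENNReal.ofReal lam + ENNReal.ofReal (1 - lam)) * ∑ y, G y = ∑ y, G y := by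
      rw [← ENNReal.ofReal_add h0.le (by linarith)]
      simp
    rw [add_mul] at e2
    have e3 : ENNReal.ofReal lam * ∑ y, G y = ENNReal.ofReal lam * X.card := by
      have hf : ENNReal.ofReal (1 - lam) * ∑ y, G y ≠ ⊤ := ENNReal.mul_ne_top ENNReal.ofReal_ne_top
        hSfin
      rw [← ENNReal.add_left_inj hf, e2]
      exact e1
    have hl0 : ENNReal.ofReal lam ≠ 0 := by
      rw [Ne, ENNReal.ofReal_eq_zero]
      exact not_le.2 h0
    exact (ENNReal.mul_right_inj hl0 ENNReal.ofReal_ne_top).1 e3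
  -- iteration
  have hit : ∀ (m : ℕ) (x : V), G x ≤ ENNReal.ofReal (m * lam) +
      ∑ y, ENNReal.ofReal (K.hk m x y) * G y := by
    intro m
    induction m with
    | zero =>
      intro x
      have : ∀ y, ENNReal.ofReal (K.hk 0 x y) * G y = if x = y then G y else 0 := by
        intro y
        show ENNReal.ofReal (if x = y then (1 : ℝ) else 0) * G y = _
        split_ifs <;> simp
      simp only [this]
      simp
    | succ m ih =>
      intro x
      rw [hrec x]
      have hind1 : (ind (x ∈ X) : ENNReal) ≤ 1 := by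
        unfold ind
        split_ifs
        · exact le_refl _
        · exact zero_le
      calc ENNReal.ofReal lam * ind (x ∈ X) + ∑ z, (K.toKK lam h0 h1).Q x z * G z
          ≤ ENNReal.ofReal lam * 1 + ∑ z, ENNReal.ofReal (K.P x z) * (ENNReal.ofReal (m * lam) +
            ∑ y, ENNReal.ofReal (K.hk m z y) * G y) := by
            gcongr with z _
            · rw [hQ]
              apply ENNReal.ofReal_le_ofReal
              have := K.nn x z
              nlinarith
            · exact ih z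
        _ = ENNReal.ofReal lam + (ENNReal.ofReal (m * lam) +
            ∑ y, ENNReal.ofReal (K.hk (m + 1) x y) * G y) := by
            rw [mul_one]
            congr 1
            simp only [mul_add, Finset.sum_add_distrib]
            congr 1
            · rw [← Finset.sum_mul, ← ENNReal.ofReal_sum_of_nonneg fun y _ => K.nn _ _, K.row]
              simp
            · simp only [Finset.mul_sum]
              rw [Finset.sum_comm]
              refine Finset.sum_congr rfl fun y _ => ?_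
              have : K.hk (m + 1) x y = ∑ z, K.P x z * K.hk m z y := rfl
              rw [this, ENNReal.ofReal_sum_of_nonneg fun z _ => mul_nonneg (K.nn _ _)
                (K.hk_nonneg _ _ _), Finset.sum_mul]
              refine Finset.sum_congr rfl fun z _ => ?_
              rw [ENNReal.ofReal_mul (K.nn _ _), mul_assoc]
        _ = ENNReal.ofReal ((m + 1 : ℕ) * lam) + ∑ y, ENNReal.ofReal (K.hk (m + 1) x y) * G y := by
            rw [← add_assoc, ← ENNReal.ofReal_add h0.le (by positivity)]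
            congr 2
            push_cast
            ring
  have hV : 0 < (Fintype.card V : ℝ) := by
    have : Nonempty V := ⟨x⟩
    exact_mod_cast Fintype.card_pos
  calc (K.toKK lam h0 h1).E x (fun w => ind (tip x w ∈ X)) = G x := rfl
    _ ≤ ENNReal.ofReal (m0 * lam) + ∑ y, ENNReal.ofReal (K.hk m0 x y) * G y := hit m0 x
    _ ≤ ENNReal.ofReal (1 / 8) + ∑ y, ENNReal.ofReal (3 / (2 * (Fintype.card V : ℝ))) * G y := by
        gcongr with y _
        exact h2 x y
    _ = ENNReal.ofReal (1 / 8) + ENNReal.ofReal (3 / (2 * (Fintype.card V : ℝ)) * X.card) := by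
        rw [← Finset.mul_sum, hS, ENNReal.ofReal_mul (by positivity), ENNReal.ofReal_natCast]
    _ ≤ ENNReal.ofReal (7 / 8) := by
        have h08 : (0 : ℝ) ≤ 1 / 8 := by positivity
        have h09 : 0 ≤ 3 / (2 * (Fintype.card V : ℝ)) * X.card :=
          mul_nonneg (div_nonneg (by norm_num) (by linarith)) (Nat.cast_nonneg _)
        rw [← ENNReal.ofReal_add h08 h09]
        apply ENNReal.ofReal_le_ofReal
        have h3 : 2 * (X.card : ℝ) ≤ Fintype.card V := by exact_mod_cast hX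
        have h4 : 3 / (2 * (Fintype.card V : ℝ)) * X.card ≤ 3 / 4 := by
          rw [div_mul_eq_mul_div, div_le_iff₀ (by positivity)]
          linarith
        linarith

theorem step_le (lam : ℝ) (h0 : 0 < lam) (h1 : lam ≤ 1) (k : ℕ) (x : V)
    (F : List V → ENNReal) (c : List V → ℝ) (a : ℝ) (ha : 0 ≤ a) (hF1 : ∀ w, F w ≤ 1)
    (hc0 : ∀ w, 0 ≤ c w) (hc : ∀ (w : List V) (j : ℕ), c w ≤ c (w.drop j))
    (hF : ∀ w : List V, F w ≤ ENNReal.ofReal (c w + a)) :
    (K.toKK lam h0 h1).E x F ≤ ENNReal.ofReal (K.EW k x c + (a + k * lam)) := by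
  have h2 := K.toKK_E_le lam h0 h1 k x F (fun w => c w + a) hF1
    (fun w => add_nonneg (hc0 w) ha) (fun w _ => (hF w).trans (ENNReal.ofReal_le_ofReal (by
      have := hc w (w.length - k)
      linarith)))
  rw [EW_add, EW_const, add_assoc] at h2
  exact h2

open Classical in
/-- the real indicator of `cfk` -/
noncomputable def cin (D : Finset V) (p1 p2 f1 f2 : List V) : ℝ :=
  if Av D p1 ∧ Av D p2 ∧ Av D f1 ∧ Av D f2 ∧ Dj p1 f1 ∧ Dj p1 f2 ∧ Dj p2 f1 ∧ Dj p2 f2
    then (1 : ℝ) else 0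

theorem cin_nonneg (D : Finset V) (p1 p2 f1 f2 : List V) : 0 ≤ cin D p1 p2 f1 f2 := by
  unfold cin
  split_ifs <;> norm_num

theorem cin_mono (D : Finset V) {p1 p2 f1 f2 p1' p2' f1' f2' : List V} (h1 : p1' ⊆ p1)
    (h2 : p2' ⊆ p2) (h3 : f1' ⊆ f1) (h4 : f2' ⊆ f2) :
    cin D p1 p2 f1 f2 ≤ cin D p1' p2' f1' f2' := by
  unfold cin
  by_cases h : Av D p1 ∧ Av D p2 ∧ Av D f1 ∧ Av D f2 ∧ Dj p1 f1 ∧ Dj p1 f2 ∧ Dj p2 f1 ∧ Dj p2 f2
  · obtain ⟨a1, a2, a3, a4, a5, a6, a7, a8⟩ := h
    rw [if_pos ⟨a1, a2, a3, a4, a5, a6, a7, a8⟩, if_pos]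
    exact ⟨fun y hy => a1 y (h1 hy), fun y hy => a2 y (h2 hy), fun y hy => a3 y (h3 hy),
      fun y hy => a4 y (h4 hy), fun y hy hy' => a5 y (h1 hy) (h3 hy'),
      fun y hy hy' => a6 y (h1 hy) (h4 hy'), fun y hy hy' => a7 y (h2 hy) (h3 hy'),
      fun y hy hy' => a8 y (h2 hy) (h4 hy')⟩
  · rw [if_neg h]
    split_ifs <;> norm_num

theorem Cf_cfk (lam : ℝ) (h0 : 0 < lam) (h1 : lam ≤ 1) (k : ℕ) (D : Finset V) (u1 u2 v1 v2 : V) :
    (K.toKK lam h0 h1).Cf D u1 u2 v1 v2
      ≤ ENNReal.ofReal (K.cfk k D u1 u2 v1 v2 + 4 * (k * lam)) := by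
  have hkl : 0 ≤ (k : ℝ) * lam := by positivity
  have hle1 : ∀ (x : V) (F : List V → ENNReal), (∀ w, F w ≤ 1) → (K.toKK lam h0 h1).E x F ≤ 1 := by
    intro x F hF
    exact (KK.E_mono _ x _ (fun _ => 1) hF).trans (le_of_eq (KK.E_const _ x 1))
  have hi1 : ∀ p : Prop, (ind p : ENNReal) ≤ 1 := by
    intro p
    unfold ind
    split_ifs
    · exact le_refl _
    · exact zero_le
  set c1 : List V → List V → List V → ℝ := fun p1 p2 f1 => K.EW k v2 (fun f2 => cin D p1 p2 f1 f2)
    with hc1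
  set c2 : List V → List V → ℝ := fun p1 p2 => K.EW k v1 (fun f1 => c1 p1 p2 f1) with hc2
  set c3 : List V → ℝ := fun p1 => K.EW k u2 (fun p2 => c2 p1 p2) with hc3
  have n1 : ∀ p1 p2 f1, 0 ≤ c1 p1 p2 f1 := fun p1 p2 f1 =>
    K.EW_nonneg _ _ _ fun w _ => cin_nonneg _ _ _ _ _
  have n2 : ∀ p1 p2, 0 ≤ c2 p1 p2 := fun p1 p2 => K.EW_nonneg _ _ _ fun w _ => n1 _ _ _
  have n3 : ∀ p1, 0 ≤ c3 p1 := fun p1 => K.EW_nonneg _ _ _ fun w _ => n2 _ _
  have m1 : ∀ {p1 p2 f1 p1' p2' f1' : List V}, p1' ⊆ p1 → p2' ⊆ p2 → f1' ⊆ f1 →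
      c1 p1 p2 f1 ≤ c1 p1' p2' f1' := fun h1 h2 h3 =>
    K.EW_mono _ _ _ _ fun w _ => cin_mono D h1 h2 h3 (List.Subset.refl _)
  have m2 : ∀ {p1 p2 p1' p2' : List V}, p1' ⊆ p1 → p2' ⊆ p2 → c2 p1 p2 ≤ c2 p1' p2' :=
    fun h1 h2 => K.EW_mono _ _ _ _ fun w _ => m1 h1 h2 (List.Subset.refl _)
  have m3 : ∀ {p1 p1' : List V}, p1' ⊆ p1 → c3 p1 ≤ c3 p1' :=
    fun h1 => K.EW_mono _ _ _ _ fun w _ => m2 h1 (List.Subset.refl _)
  have s1 : ∀ p1 p2 f1, (K.toKK lam h0 h1).E v2 (fun f2 => ind (Av D p1 ∧ Av D p2 ∧ Av D f1 ∧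
      Av D f2 ∧ Dj p1 f1 ∧ Dj p1 f2 ∧ Dj p2 f1 ∧ Dj p2 f2)) ≤
      ENNReal.ofReal (c1 p1 p2 f1 + (0 + k * lam)) := by
    intro p1 p2 f1
    refine K.step_le lam h0 h1 k v2 _ (fun f2 => cin D p1 p2 f1 f2) 0 le_rfl (fun w => hi1 _)
      (fun w => cin_nonneg _ _ _ _ _) (fun w j => cin_mono D (List.Subset.refl _)
        (List.Subset.refl _) (List.Subset.refl _) (List.drop_subset _ _)) (fun w => ?_)
    rw [add_zero]
    unfold ind cin
    split_ifs
    · simp
    · simp
  have s2 : ∀ p1 p2, (K.toKK lam h0 h1).E v1 (fun f1 => (K.toKK lam h0 h1).E v2 (fun f2 =>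
      ind (Av D p1 ∧ Av D p2 ∧ Av D f1 ∧ Av D f2 ∧ Dj p1 f1 ∧ Dj p1 f2 ∧ Dj p2 f1 ∧ Dj p2 f2))) ≤
      ENNReal.ofReal (c2 p1 p2 + ((0 + k * lam) + k * lam)) := by
    intro p1 p2
    exact K.step_le lam h0 h1 k v1 _ (fun f1 => c1 p1 p2 f1) _ (by positivity)
      (fun w => hle1 _ _ fun w => hi1 _) (fun w => n1 _ _ _)
      (fun w j => m1 (List.Subset.refl _) (List.Subset.refl _) (List.drop_subset _ _))
      (fun w => s1 p1 p2 w)
  have s3 : ∀ p1, (K.toKK lam h0 h1).E u2 (fun p2 => (K.toKK lam h0 h1).E v1 (fun f1 =>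
      (K.toKK lam h0 h1).E v2 (fun f2 =>
      ind (Av D p1 ∧ Av D p2 ∧ Av D f1 ∧ Av D f2 ∧ Dj p1 f1 ∧ Dj p1 f2 ∧ Dj p2 f1 ∧ Dj p2 f2)))) ≤
      ENNReal.ofReal (c3 p1 + (((0 + k * lam) + k * lam) + k * lam)) := by
    intro p1
    exact K.step_le lam h0 h1 k u2 _ (fun p2 => c2 p1 p2) _ (by positivity)
      (fun w => hle1 _ _ fun w => hle1 _ _ fun w => hi1 _) (fun w => n2 _ _)
      (fun w j => m2 (List.Subset.refl _) (List.drop_subset _ _)) (fun w => s2 p1 w)
  have s4 := K.step_le lam h0 h1 k u1 (fun p1 => (K.toKK lam h0 h1).E u2 (fun p2 =>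
      (K.toKK lam h0 h1).E v1 (fun f1 => (K.toKK lam h0 h1).E v2 (fun f2 =>
      ind (Av D p1 ∧ Av D p2 ∧ Av D f1 ∧ Av D f2 ∧ Dj p1 f1 ∧ Dj p1 f2 ∧ Dj p2 f1 ∧ Dj p2 f2)))))
      c3 (((0 + k * lam) + k * lam) + k * lam) (by positivity)
      (fun w => hle1 _ _ fun w => hle1 _ _ fun w => hle1 _ _ fun w => hi1 _) n3
      (fun w j => m3 (List.drop_subset _ _)) s3
  have e1 : K.EW k u1 c3 = K.cfk k D u1 u2 v1 v2 := rfl
  rw [e1] at s4
  have e2 : K.cfk k D u1 u2 v1 v2 + ((((0 + k * lam) + k * lam) + k * lam) + k * lam) =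
      K.cfk k D u1 u2 v1 v2 + 4 * (k * lam) := by ring
  rw [e2] at s4
  exact s4

end Ker

end HP192
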