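import Mathlib
import Pool.Agent.Helper192_HP.Defs

namespace HP192
open Finset

/-- `c` (newest vertex first) is a list of intermediate vertices of a path from `u` to `v` inside
`D`, of length at most `m`, all of whose steps have probability at least `p` -/
structure Ker.Conn {V : Type} [Fintype V] [DecidableEq V] (K : Ker V) (D : Finset V) (p : ℝ)
    (m : ℕ) (u v : V) (c : List V) : Prop where
  len_le : c.length ≤ m
  nodup : (v :: c ++ [u]).Nodup
  sub : ∀ y ∈ v :: c ++ [u], y ∈ D
  step : List.IsChain (fun a b => p ≤ K.P b a) (v :: c ++ [u])


end HP192
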