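import Mathlib
import Pool.Agent.Helper192_HP.Defs
import Pool.Agent.Helper192_HP.KDefs
import Pool.Agent.Helper192_HP.KLink
import Pool.Agent.Helper192_HP.CdDef
import Pool.Agent.Helper192_HP.PDefs
import Pool.Agent.Helper192_HP.RDefs

namespace HP192
open Finset

theorem conn_of_fun {V : Type} [Fintype V] [DecidableEq V] (K : Ker V) (D : Finset V) (p : ℝ)
    (m n : ℕ) (hn : 1 ≤ n) (hm : n - 1 ≤ m) (f : ℕ → V)
    (hinj : ∀ i ≤ n, ∀ j ≤ n, f i = f j → i = j) (hD : ∀ i ≤ n, f i ∈ D)
    (hp : ∀ i < n, p ≤ K.P (f (i + 1)) (f i)) :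
    K.Conn D p m (f n) (f 0) ((List.range (n - 1)).map (fun j => f (j + 1))) := by
  obtain ⟨k, rfl⟩ : ∃ k, n = k + 1 := ⟨n - 1, by omega⟩
  have key : f 0 :: (List.range (k + 1 - 1)).map (fun j => f (j + 1)) ++ [f (k + 1)] =
      (List.range (k + 1 + 1)).map f := by
    rw [Nat.add_sub_cancel, List.range_succ_eq_map, List.map_cons, List.map_map, List.range_succ,
      List.map_append]
    simp [Function.comp_def]
  refine ⟨?_, ?_, ?_, ?_⟩
  · simpa using hm
  · rw [key]
    refine List.Nodup.map_on ?_ List.nodup_range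
    intro x hx y hy h
    rw [List.mem_range] at hx hy
    exact hinj x (by omega) y (by omega) h
  · intro y hy
    rw [key, List.mem_map] at hy
    obtain ⟨i, hi, rfl⟩ := hy
    rw [List.mem_range] at hi
    exact hD i (by omega)
  · rw [key, List.isChain_map, List.isChain_range_succ]
    intro i hi
    exact hp i (by omega)

theorem z1_cyc_mod {V : Type} {G : SimpleGraph V} {ℓ : ℕ} {c : ℕ → V} (hc : Cyc G ℓ c) (i : ℕ) :
    c i = c (i % ℓ) := by
  have h : ∀ q r, c (r + ℓ * q) = c r := by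
    intro q
    induction q with
    | zero => intro r; simp
    | succ q ih =>
      intro r
      have : r + ℓ * (q + 1) = (r + ℓ * q) + ℓ := by ring
      rw [this, hc.per, ih]
  conv_lhs => rw [← Nat.mod_add_div i ℓ]
  exact h _ _

theorem cyc_eq {V : Type} {G : SimpleGraph V} {ℓ : ℕ} {c : ℕ → V} (hc : Cyc G ℓ c) {i j : ℕ}
    (h : c i = c j) : i % ℓ = j % ℓ := by
  rw [z1_cyc_mod hc i, z1_cyc_mod hc j] at h
  have h3 := hc.three
  exact hc.inj _ (Nat.mod_lt _ (by omega)) _ (Nat.mod_lt _ (by omega)) h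

theorem z1_cyc_mem {V : Type} [DecidableEq V] {G : SimpleGraph V} {ℓ : ℕ} {c : ℕ → V}
    (hc : Cyc G ℓ c) (i : ℕ) : c i ∈ cD ℓ c := by
  have h3 := hc.three
  rw [z1_cyc_mod hc i]
  unfold cD
  exact Finset.mem_image_of_mem _ (Finset.mem_range.2 (Nat.mod_lt _ (by omega)))

theorem cyc_lt {V : Type} {G : SimpleGraph V} {ℓ : ℕ} {c : ℕ → V} (hc : Cyc G ℓ c) {i j : ℕ}
    (h1 : i ≤ j) (h2 : j < i + ℓ) (h : c i = c j) : i = j := by
  have h4 : j ≡ i [MOD ℓ] := (cyc_eq hc h).symm
  have h5 : ℓ ∣ j - i := (Nat.modEq_iff_dvd' h1).1 h4.symm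
  by_contra hne
  have h6 := Nat.le_of_dvd (by omega) h5
  omega

/-- TARGET -/
/- connectors along a cycle -/
theorem conn_symm {V : Type} [Fintype V] [DecidableEq V] (K : Ker V) (D : Finset V) (p : ℝ) (m : ℕ)
    (u v : V) (c : List V) (h : K.Conn D p m u v c) : K.Conn D p m v u c.reverse := by
  have key : u :: c.reverse ++ [v] = (v :: c ++ [u]).reverse := by simp
  refine ⟨?_, ?_, ?_, ?_⟩
  · rw [List.length_reverse]
    exact h.len_le
  · rw [key, List.nodup_reverse]
    exact h.nodup
  · intro y hy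
    rw [key, List.mem_reverse] at hy
    exact h.sub y hy
  · rw [key, List.isChain_reverse]
    refine h.step.imp ?_
    intro a b hab
    rw [K.sym]
    exact hab

theorem conn_arc {V : Type} [Fintype V] [DecidableEq V] (G : SimpleGraph V) (K : Ker V) (p : ℝ)
    (hadj : ∀ x y, G.Adj x y → p ≤ K.P x y) (ℓ m : ℕ) (c : ℕ → V) (hc : Cyc G ℓ c) (hm : ℓ ≤ m)
    (i k : ℕ) (hk1 : 1 ≤ k) (hk : k < ℓ) :
    (∃ a : List V, a.length = k - 1 ∧ K.Conn (cD ℓ c) p m (c i) (c (i + k)) a) ∧
    (∃ b : List V, b.length = ℓ - k - 1 ∧ K.Conn (cD ℓ c) p m (c i) (c (i + k)) b) := by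
  constructor
  · have h := conn_of_fun K (cD ℓ c) p m k hk1 (by omega) (fun j => c (i + k - j)) ?_
      (fun j _ => z1_cyc_mem hc _) ?_
    · simp only [Nat.add_sub_cancel, Nat.sub_zero] at h
      exact ⟨_, by simp, h⟩
    · intro x hx y hy hxy
      have hxy' : c (i + k - x) = c (i + k - y) := hxy
      rcases le_total x y with h1 | h1
      · have := cyc_lt hc (i := i + k - y) (j := i + k - x) (by omega) (by omega) hxy'.symm
        omega
      · have := cyc_lt hc (i := i + k - x) (j := i + k - y) (by omega) (by omega) hxy'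
        omega
    · intro x hx
      refine hadj _ _ ?_
      have h1 : i + k - x = (i + k - (x + 1)) + 1 := by omega
      change G.Adj (c (i + k - (x + 1))) (c (i + k - x))
      rw [h1]
      exact hc.adj _
  · have h := conn_of_fun K (cD ℓ c) p m (ℓ - k) (by omega) (by omega) (fun j => c (i + k + j)) ?_
      (fun j _ => z1_cyc_mem hc _) ?_
    · have h1 : i + k + (ℓ - k) = i + ℓ := by omega
      simp only [h1, hc.per, Nat.add_zero] at h
      exact ⟨_, by simp, h⟩
    · intro x hx y hy hxy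
      have hxy' : c (i + k + x) = c (i + k + y) := hxy
      rcases le_total x y with h1 | h1
      · have := cyc_lt hc (i := i + k + x) (j := i + k + y) (by omega) (by omega) hxy'
        omega
      · have := cyc_lt hc (i := i + k + y) (j := i + k + x) (by omega) (by omega) hxy'.symm
        omega
    · intro x hx
      refine hadj _ _ ?_
      change G.Adj (c (i + k + x + 1)) (c (i + k + x))
      exact (hc.adj _).symm

end HP192
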