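import Mathlib
import Pool.Agent.Helper192_HP.Defs

namespace HP192
open Finset


/-- standing assumptions of the contraction estimates -/
structure Ker.Std {V : Type} [Fintype V] [DecidableEq V] (K : Ker V) (r r0 m0 L : ℕ) (ρ p : ℝ) :
    Prop where
  up : ∀ t x y, m0 ≤ t → K.hk t x y ≤ 3 / (2 * (Fintype.card V : ℝ))
  low : ∀ t x y, m0 ≤ t → 1 / (2 * (Fintype.card V : ℝ)) ≤ K.hk t x y
  kr : 8 * (2 * m0 + L + 2) ≤ r
  r0pos : 1 ≤ r0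
  r0r : r0 ≤ r
  ρpos : 0 < ρ
  far : (10 : ℝ) ^ 4 * r ^ 2 ≤ ρ * Fintype.card V
  ppos : 0 < p
  p1 : p ≤ 1


end HP192
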