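import Mathlib
import Pool.Agent.Helper192_HP.Defs
import Pool.Agent.Helper192_HP.WDefs
import Pool.Agent.Helper192_HP.Basic
import Pool.Agent.Helper192_HP.W01
import Pool.Agent.Helper192_HP.W02
import Pool.Agent.Helper192_HP.KDefs
import Pool.Agent.Helper192_HP.KLink
import Pool.Agent.Helper192_HP.CdDef
import Pool.Agent.Helper192_HP.PDefs
import Pool.Agent.Helper192_HP.RDefs
import Pool.Agent.Helper192_HP.ZStd
import Pool.Agent.Helper192_HP.R06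
import Pool.Agent.Helper192_HP.Z01

namespace HP192
open Finset

theorem cper_mul {V : Type} (G : SimpleGraph V) (ℓ : ℕ) (c : ℕ → V)
    (hc : Cyc G ℓ c) (i n : ℕ) : c (i + n * ℓ) = c i := by
  induction n with
  | zero => simp
  | succ n ih =>
    have h : i + (n + 1) * ℓ = (i + n * ℓ) + ℓ := by ring
    rw [h, hc.per, ih]

theorem mem_cD {V : Type} [DecidableEq V] (G : SimpleGraph V) (ℓ : ℕ) (c : ℕ → V)
    (hc : Cyc G ℓ c) (i : ℕ) : c i ∈ cD ℓ c := by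
  have h3 := hc.three
  unfold cD
  rw [Finset.mem_image]
  refine ⟨i % ℓ, Finset.mem_range.2 (Nat.mod_lt _ (by omega)), ?_⟩
  have h := cper_mul G ℓ c hc (i % ℓ) (i / ℓ)
  have h2 : i % ℓ + i / ℓ * ℓ = i := by
    rw [mul_comm]
    exact Nat.mod_add_div i ℓ
  rw [h2] at h
  exact h.symm

theorem card_cD {V : Type} [DecidableEq V] (ℓ : ℕ) (c : ℕ → V) : (cD ℓ c).card ≤ ℓ := by
  unfold cD
  exact Finset.card_image_le.trans (by simp)

/-- TARGET -/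
/- contraction from a pair of vertices of a cycle, or from four consecutive vertices -/
theorem rig_pair {V : Type} [Fintype V] [DecidableEq V] (G : SimpleGraph V) (K : Ker V) (o : V)
    (r r0 m0 L ℓ i k : ℕ) (ρ p η θ : ℝ) (c : ℕ → V) (hS : K.Std r r0 m0 L ρ p)
    (hadj : ∀ x y, G.Adj x y → p ≤ K.P x y) (hc : Cyc G ℓ c) (hℓ : ℓ ≤ L) (hk1 : 1 ≤ k) (hk : k < ℓ)
    (hcf : ρ ≤ K.cfk (m0 + 1) (cD ℓ c) (c i) (c i) (c (i + k)) (c (i + k))) (hη0 : 0 ≤ η)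
    (hη : η ≤ ‖Complex.exp ((((2 * (k : ℝ) - ℓ) * θ : ℝ)) * Complex.I) - 1‖) :
    K.EW r0 o (fun ω0 => K.EW r0 o (fun ω' => ‖K.kap o r θ ω0 ω'‖))
      ≤ 1 - η ^ 2 * ρ * p ^ (L + 1) / 10 ^ 4 := by
  obtain ⟨⟨a, ha, hca⟩, b, hb, hcb⟩ := conn_arc G K p hadj ℓ L c hc hℓ i k hk1 hk
  have hi := mem_cD G ℓ c hc i
  have hik := mem_cD G ℓ c hc (i + k)
  have hcard := card_cD ℓ c
  have hkr := hS.kr
  have hlen : (a.length : ℝ) + b.length - b.length - b.length = 2 * (k : ℝ) - ℓ := by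
    rw [ha, hb]
    rw [Nat.cast_sub hk1, Nat.cast_sub (by omega : 1 ≤ ℓ - k), Nat.cast_sub hk.le]
    push_cast
    ring
  refine K.rig o (cD ℓ c) r r0 (m0 + 1) m0 L θ ρ p η (c i) (c i) (c (i + k)) (c (i + k))
    hi hi hik hik hS.up hS.low (by omega) (by omega) (by omega) hS.r0pos hS.r0r (by omega)
    hS.ρpos hcf hS.far hS.ppos hS.p1 hη0 a b b b hca hcb hcb hcb ?_
  rw [hlen]
  exact hη

theorem rig_four {V : Type} [Fintype V] [DecidableEq V] (G : SimpleGraph V) (K : Ker V) (o : V)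
    (r r0 m0 L ℓ j : ℕ) (ρ p η θ : ℝ) (c : ℕ → V) (hS : K.Std r r0 m0 L ρ p)
    (hadj : ∀ x y, G.Adj x y → p ≤ K.P x y) (hc : Cyc G ℓ c) (hℓ : ℓ ≤ L) (hℓ5 : 5 ≤ ℓ)
    (hcf : ρ ≤ K.cfk (m0 + 1) (cD ℓ c) (c j) (c (j + 2)) (c (j + 1)) (c (j + 3))) (hη0 : 0 ≤ η)
    (hη : η ≤ ‖Complex.exp (((2 * θ : ℝ)) * Complex.I) - 1‖) :
    K.EW r0 o (fun ω0 => K.EW r0 o (fun ω' => ‖K.kap o r θ ω0 ω'‖))
      ≤ 1 - η ^ 2 * ρ * p ^ (L + 1) / 10 ^ 4 := by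
  obtain ⟨⟨a, ha, hca⟩, -⟩ := conn_arc G K p hadj ℓ L c hc hℓ j 1 le_rfl (by omega)
  obtain ⟨⟨b, hb, hcb⟩, -⟩ := conn_arc G K p hadj ℓ L c hc hℓ j 3 (by omega) (by omega)
  obtain ⟨⟨d, hd, hcd⟩, -⟩ := conn_arc G K p hadj ℓ L c hc hℓ (j + 1) 1 le_rfl (by omega)
  obtain ⟨⟨e, he, hce⟩, -⟩ := conn_arc G K p hadj ℓ L c hc hℓ (j + 2) 1 le_rfl (by omega)
  have hcd' := conn_symm K _ _ _ _ _ _ hcd
  have h0 := mem_cD G ℓ c hc j
  have h1 := mem_cD G ℓ c hc (j + 1)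
  have h2 := mem_cD G ℓ c hc (j + 2)
  have h3 := mem_cD G ℓ c hc (j + 3)
  have hcard := card_cD ℓ c
  have hkr := hS.kr
  have hlen : (a.length : ℝ) + e.length - b.length - (d.reverse).length = -2 := by
    rw [List.length_reverse, ha, hb, hd, he]
    norm_num
  refine K.rig o (cD ℓ c) r r0 (m0 + 1) m0 L θ ρ p η (c j) (c (j + 2)) (c (j + 1)) (c (j + 3))
    h0 h2 h1 h3 hS.up hS.low (by omega) (by omega) (by omega) hS.r0pos hS.r0r (by omega)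
    hS.ρpos hcf hS.far hS.ppos hS.p1 hη0 a b d.reverse e hca hcb hcd' hce ?_
  rw [hlen]
  refine hη.trans (le_of_eq ?_)
  have h : Complex.exp (((-2 * θ : ℝ)) * Complex.I) - 1
      = (starRingEnd ℂ) (Complex.exp (((2 * θ : ℝ)) * Complex.I) - 1) := by
    rw [map_sub, map_one, ← Complex.exp_conj, map_mul, Complex.conj_ofReal, Complex.conj_I]
    congr 2
    push_cast
    ring
  rw [h, Complex.norm_conj]

end HP192
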