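import Mathlib
import Pool.Agent.Helper192_HP.Defs
import Pool.Agent.Helper192_HP.WDefs
import Pool.Agent.Helper192_HP.Basic
import Pool.Agent.Helper192_HP.W01
import Pool.Agent.Helper192_HP.W02
import Pool.Agent.Helper192_HP.KDefs
import Pool.Agent.Helper192_HP.KLink
import Pool.Agent.Helper192_HP.CdDef
import Pool.Agent.Helper192_HP.PDefs
import Pool.Agent.Helper192_HP.RDefs
import Pool.Agent.Helper192_HP.ZStd
import Pool.Agent.Helper192_HP.ZDefs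
import Pool.Agent.Helper192_HP.K10
import Pool.Agent.Helper192_HP.K12
import Pool.Agent.Helper192_HP.L01
import Pool.Agent.Helper192_HP.L02
import Pool.Agent.Helper192_HP.Z02

namespace HP192
open Finset

theorem odd_norm (L ℓ k : ℕ) (θ : ℝ) (h3 : 3 ≤ ℓ) (hℓ : ℓ ≤ L) (ho : Odd ℓ) (hk1 : 1 ≤ k)
    (hk : k < ℓ) (hθ : |(|θ| - Real.pi)| ≤ 1 / (L : ℝ)) :
    (1 : ℝ) ≤ ‖Complex.exp ((((2 * (k : ℝ) - ℓ) * θ : ℝ)) * Complex.I) - 1‖ := by
  set q : ℝ := 2 * (k : ℝ) - ℓ with hq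
  set z : ℤ := 2 * (k : ℤ) - ℓ with hz
  have hqz : q = (z : ℝ) := by rw [hq, hz]; push_cast; ring
  have hzo : Odd z := by
    obtain ⟨m, hm⟩ := ho
    exact ⟨(k : ℤ) - m - 1, by rw [hz, hm]; push_cast; ring⟩
  have hL : (0 : ℝ) < L := by
    have : 0 < L := by omega
    exact_mod_cast this
  have hqL : |q| ≤ L := by
    have h1 : (ℓ : ℝ) ≤ L := by exact_mod_cast hℓ
    have h2 : (k : ℝ) < ℓ := by exact_mod_cast hk
    have h3' : (1 : ℝ) ≤ k := by exact_mod_cast hk1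
    rw [hq, abs_le]; constructor <;> linarith
  set u : ℝ := q * (|θ| - Real.pi) with hu
  have hu1 : |u| ≤ 1 := by
    rw [hu, abs_mul]
    calc |q| * |(|θ| - Real.pi)| ≤ L * (1 / (L : ℝ)) :=
          mul_le_mul hqL hθ (abs_nonneg _) hL.le
      _ = 1 := by field_simp
  have hcosu : 0 ≤ Real.cos u := by
    apply Real.cos_nonneg_of_neg_pi_div_two_le_of_le
    · have := (abs_le.1 hu1).1
      have := Real.pi_gt_three
      linarith
    · have := (abs_le.1 hu1).2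
      have := Real.pi_gt_three
      linarith
  have hcos : Real.cos (q * θ) = - Real.cos u := by
    have e1 : Real.cos (q * θ) = Real.cos (q * |θ|) := by
      rcases le_total 0 θ with h | h
      · rw [abs_of_nonneg h]
      · rw [abs_of_nonpos h, mul_neg, Real.cos_neg]
    have e2 : q * |θ| = (z : ℝ) * Real.pi + u := by rw [hu, hqz]; ring
    rw [e1, e2, Real.cos_add, Real.cos_int_mul_pi, Real.sin_int_mul_pi, hzo.neg_one_zpow]
    ring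
  have hn : ‖Complex.exp (((q * θ : ℝ) : ℂ) * Complex.I) - 1‖ ^ 2 = 2 - 2 * Real.cos (q * θ) := by
    rw [Complex.exp_mul_I, ← Complex.ofReal_cos, ← Complex.ofReal_sin, Complex.sq_norm,
      Complex.normSq_apply]
    simp only [Complex.sub_re, Complex.add_re, Complex.ofReal_re, Complex.mul_re, Complex.I_re,
      Complex.ofReal_im, Complex.I_im, Complex.one_re, Complex.sub_im, Complex.add_im,
      Complex.mul_im, Complex.one_im]
    nlinarith [Real.sin_sq_add_cos_sq (q * θ)]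
  have h1 : (1 : ℝ) ≤ ‖Complex.exp (((q * θ : ℝ) : ℂ) * Complex.I) - 1‖ ^ 2 := by
    rw [hn, hcos]; linarith
  have h0 := norm_nonneg (Complex.exp (((q * θ : ℝ) : ℂ) * Complex.I) - 1)
  by_contra hlt
  push Not at hlt
  nlinarith

/-- TARGET -/
/- contraction near `π` from a short odd cycle -/
theorem contr_odd (Θ : ℝ) (d1 L : ℕ) (hΘ : 1 ≤ Θ) :
    ∃ ρ : ℝ, 0 < ρ ∧ ρ ≤ 1 ∧ ∀ (V : Type) [Fintype V] [DecidableEq V] (G : SimpleGraph V) (K : Ker V)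
      (d : ℕ) (o : V) (m0 : ℕ), IsK G K d o Θ m0 → d ≤ d1 → ∀ r r0 : ℕ,
      8 * (2 * m0 + L + 2) ≤ r → 1 ≤ r0 → r0 ≤ r → r ≤ ⌊Real.sqrt (Fintype.card V)⌋₊ →
      (10 : ℝ) ^ 4 * r ^ 2 ≤ ρ * Fintype.card V →
      (∃ ℓ, ℓ ≤ L ∧ Odd ℓ ∧ ∃ c, Cyc G ℓ c) →
      ∀ θ : ℝ, |(|θ| - Real.pi)| ≤ 1 / (L : ℝ) →
      K.EW r0 o (fun ω0 => K.EW r0 o (fun ω' => ‖K.kap o r θ ω0 ω'‖)) ≤ 1 - ρ := by
  rcases Nat.eq_zero_or_pos d1 with hd1 | hd1
  · refine ⟨1, one_pos, le_rfl, ?_⟩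
    intro V _ _ G K d o m0 hK hd
    have := hK.d0
    omega
  obtain ⟨ρ0, hρ0, hodd⟩ := odd_pair (Θ + 1) L (by linarith)
  set ρ1 : ℝ := min ρ0 1 with hρ1
  have hρ1pos : 0 < ρ1 := lt_min hρ0 one_pos
  have hρ1le : ρ1 ≤ 1 := min_le_right _ _
  set ρ2 : ℝ := ρ1 ^ 4 with hρ2
  have hρ2pos : 0 < ρ2 := by positivity
  have hρ2le : ρ2 ≤ 1 := pow_le_one₀ hρ1pos.le hρ1le
  have hd1r : (0 : ℝ) < d1 := by exact_mod_cast hd1
  have hd1r1 : (1 : ℝ) ≤ d1 := by exact_mod_cast hd1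
  set p : ℝ := 1 / (2 * (d1 : ℝ)) with hp
  have hp0 : 0 < p := by positivity
  have hp1 : p ≤ 1 := by
    rw [hp, div_le_one (by positivity)]; linarith
  have hpL0 : 0 < p ^ (L + 1) := by positivity
  have hpL1 : p ^ (L + 1) ≤ 1 := pow_le_one₀ hp0.le hp1
  set ρ : ℝ := min (ρ2 ^ 2) (ρ2 / 2 * p ^ (L + 1) / 10 ^ 4) with hρ
  have hρpos : 0 < ρ := lt_min (by positivity) (by positivity)
  have hρa : ρ ≤ ρ2 ^ 2 := min_le_left _ _
  have hρb : ρ ≤ ρ2 / 2 * p ^ (L + 1) / 10 ^ 4 := min_le_right _ _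
  have hρle1 : ρ ≤ 1 := hρa.trans (pow_le_one₀ hρ2pos.le hρ2le)
  have hρc : ρ ≤ ρ2 / 2 := by
    refine hρb.trans ?_
    have : ρ2 / 2 * p ^ (L + 1) ≤ ρ2 / 2 * 1 := mul_le_mul_of_nonneg_left hpL1 (by positivity)
    have h4 : ρ2 / 2 * p ^ (L + 1) / 10 ^ 4 ≤ ρ2 / 2 * p ^ (L + 1) :=
      div_le_self (by positivity) (by norm_num)
    linarith
  refine ⟨ρ, hρpos, hρle1, ?_⟩
  intro V _ _ G K d o m0 hK hd r r0 hr hr0 hr0r hrN hfar ⟨ℓ, hℓL, hℓo, c, hc⟩ θ hθ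
  set n : ℕ := Fintype.card V with hn
  have hmr : 16 * (m0 + 1) ≤ r := by omega
  have hm1 : (0 : ℝ) < (m0 : ℝ) + 1 := by positivity
  have hm11 : (1 : ℝ) ≤ (m0 : ℝ) + 1 := by
    have : (0 : ℝ) ≤ m0 := Nat.cast_nonneg _
    linarith
  have hmr' : 16 * ((m0 : ℝ) + 1) ≤ r := by exact_mod_cast hmr
  have hnn : (0 : ℝ) ≤ n := Nat.cast_nonneg _
  have hbig : (10 : ℝ) ^ 4 * (16 * ((m0 : ℝ) + 1)) ^ 2 ≤ ρ2 ^ 2 * n := by
    calc (10 : ℝ) ^ 4 * (16 * ((m0 : ℝ) + 1)) ^ 2 ≤ (10 : ℝ) ^ 4 * (r : ℝ) ^ 2 := by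
          apply mul_le_mul_of_nonneg_left _ (by norm_num)
          exact pow_le_pow_left₀ (by positivity) hmr' 2
      _ ≤ ρ * n := hfar
      _ ≤ ρ2 ^ 2 * n := mul_le_mul_of_nonneg_right hρa hnn
  have hnpos : (0 : ℝ) < n := by
    rcases hnn.lt_or_eq with h | h
    · exact h
    · exfalso
      rw [← h, mul_zero] at hbig
      have : (0 : ℝ) < (10 : ℝ) ^ 4 * (16 * ((m0 : ℝ) + 1)) ^ 2 := by positivity
      linarith
  set lam : ℝ := ρ2 / (8 * ((m0 : ℝ) + 1)) with hlam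
  have hl0 : 0 < lam := by positivity
  have hl1 : lam ≤ 1 := by
    rw [hlam, div_le_one (by positivity)]; linarith
  have hκ : 3 / (2 * (n : ℝ)) ≤ lam ^ 2 := by
    rw [hlam, div_pow, div_le_div_iff₀ (by positivity) (by positivity)]
    nlinarith [sq_nonneg ((m0 : ℝ) + 1)]
  have hgood : (K.toKK lam hl0 hl1).Good (Θ + 1) :=
    K.toKK_good lam hl0 hl1 o ⌊Real.sqrt (n : ℝ)⌋₊ m0 Θ (3 / (2 * (n : ℝ)))
      (hK.th _ le_rfl) (by omega) (fun x y => hK.up m0 x y le_rfl) hκ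
  obtain ⟨i, k, hk1, hk, hPi⟩ := hodd V (K.toKK lam hl0 hl1) hgood ℓ c hc.three hℓL hc.per hc.inj
  have hcf : ρ2 / 2 ≤ K.cfk (m0 + 1) (cD ℓ c) (c i) (c i) (c (i + k)) (c (i + k)) := by
    have h1 : ENNReal.ofReal ρ1 ≤ (K.toKK lam hl0 hl1).Pi2 (cD ℓ c) (c i) (c (i + k)) :=
      (ENNReal.ofReal_le_ofReal (min_le_left _ _)).trans hPi
    have h2 : ENNReal.ofReal ρ2 ≤ ENNReal.ofReal
        (K.cfk (m0 + 1) (cD ℓ c) (c i) (c i) (c (i + k)) (c (i + k)) +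
          4 * (((m0 + 1 : ℕ) : ℝ) * lam)) := by
      calc ENNReal.ofReal ρ2 = ENNReal.ofReal ρ1 ^ 4 := by
            rw [hρ2, ENNReal.ofReal_pow hρ1pos.le]
        _ ≤ (K.toKK lam hl0 hl1).Pi2 (cD ℓ c) (c i) (c (i + k)) ^ 4 := pow_le_pow_left' h1 4
        _ ≤ _ := KK.Cf_self _ _ _ _
        _ ≤ _ := K.Cf_cfk lam hl0 hl1 (m0 + 1) (cD ℓ c) _ _ _ _
    rw [ENNReal.ofReal_le_ofReal_iff'] at h2
    rcases h2 with h2 | h2
    · have h3 : 4 * (((m0 + 1 : ℕ) : ℝ) * lam) = ρ2 / 2 := by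
        rw [hlam]; push_cast; field_simp; norm_num
      rw [h3] at h2
      linarith
    · linarith
  have hS : K.Std r r0 m0 L (ρ2 / 2) p :=
    { up := hK.up
      low := hK.low
      kr := hr
      r0pos := hr0
      r0r := hr0r
      ρpos := by positivity
      far := hfar.trans (mul_le_mul_of_nonneg_right hρc hnn)
      ppos := hp0
      p1 := hp1 }
  have hadj : ∀ x y, G.Adj x y → p ≤ K.P x y := by
    intro x y hxy
    rw [hK.hP x y hxy.ne, if_pos hxy, hp]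
    have hd0 : (0 : ℝ) < d := by exact_mod_cast hK.d0
    have hdd : (d : ℝ) ≤ d1 := by exact_mod_cast hd
    exact one_div_le_one_div_of_le (by positivity) (by linarith)
  have hη := odd_norm L ℓ k θ hc.three hℓL hℓo hk1 hk hθ
  have hfin := rig_pair G K o r r0 m0 L ℓ i k (ρ2 / 2) p 1 θ c hS hadj hc hℓL hk1 hk hcf
    zero_le_one hη
  refine hfin.trans ?_
  have : (1 : ℝ) ^ 2 * (ρ2 / 2) * p ^ (L + 1) / 10 ^ 4 = ρ2 / 2 * p ^ (L + 1) / 10 ^ 4 := by ring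
  rw [this]
  linarith

end HP192
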