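import Mathlib
import Pool.Agent.Helper192_HP.Defs
import Pool.Agent.Helper192_HP.PDefs
import Pool.Agent.Helper192_HP.PhpDef

namespace HP192
open Finset

open Classical in
/-- TARGET -/
/- from cycles of the graph to cycles of the kernel -/
theorem noCyc_of {V : Type} [Fintype V] [DecidableEq V] (G : SimpleGraph V) (K : Ker V) (d : ℕ)
    (hP : ∀ x y, x ≠ y → K.P x y = if G.Adj x y then 1 / (2 * (d : ℝ)) else 0) (L : ℕ)
    (p : ℕ → Prop) (h : ¬ ∃ ℓ, ℓ ≤ L ∧ p ℓ ∧ ∃ c, Cyc G ℓ c) : NoCyc K L p := by
  intro l hc hnd h3 hL hp hchain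
  by_contra hne
  have hlen : 0 < l.length := by omega
  have hadj : ∀ x y, x ≠ y → K.P x y ≠ 0 → G.Adj x y := by
    intro x y hxy hP0
    by_contra hna
    apply hP0
    rw [hP x y hxy, if_neg hna]
  have hmod : ∀ i : ℕ, i % l.length < l.length := fun i => Nat.mod_lt _ hlen
  have hinj : ∀ i j (hi : i < l.length) (hj : j < l.length), l[i] = l[j] → i = j := by
    intro i j hi hj hij
    exact (List.Nodup.getElem_inj_iff hnd).1 hij
  apply h
  refine ⟨l.length, hL, hp, fun i => l[i % l.length]'(hmod i), h3, ?_, ?_, ?_⟩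
  · intro i
    simp only [Nat.add_mod_right]
  · intro i hi j hj hij
    have h1 := hinj _ _ (hmod i) (hmod j) hij
    rwa [Nat.mod_eq_of_lt hi, Nat.mod_eq_of_lt hj] at h1
  · intro i
    by_cases hlt : i % l.length + 1 < l.length
    · have h1 : (i + 1) % l.length = i % l.length + 1 := by
        rw [Nat.add_mod, Nat.mod_eq_of_lt (by omega : 1 < l.length), Nat.mod_eq_of_lt hlt]
      have h2 : K.P (l[i % l.length]'(hmod i)) (l[i % l.length + 1]'hlt) ≠ 0 :=
        List.isChain_iff_getElem.1 hchain _ hlt
      have h3' : l[i % l.length]'(hmod i) ≠ l[i % l.length + 1]'hlt := fun h4 => by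
        have := hinj _ _ _ _ h4
        omega
      simp only [h1]
      exact hadj _ _ h3' h2
    · have h0 : i % l.length = l.length - 1 := by
        have := hmod i
        omega
      have h1 : (i + 1) % l.length = 0 := by
        rw [Nat.add_mod, h0, Nat.mod_eq_of_lt (by omega : 1 < l.length)]
        have : l.length - 1 + 1 = l.length := by omega
        rw [this, Nat.mod_self]
      simp only [h0, h1]
      have e1 : l.getLast hc = l[l.length - 1]'(by omega) := List.getLast_eq_getElem hc
      have e2 : l.head hc = l[0]'hlen := List.head_eq_getElem hc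
      rw [e1, e2] at hne
      refine hadj _ _ (fun h4 => ?_) hne
      have := hinj _ _ _ _ h4
      omega

end HP192
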