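import Mathlib
import Pool.Agent.Helper192_HP.Defs
import Pool.Agent.Helper192_HP.KDefs
import Pool.Agent.Helper192_HP.K01
import Pool.Agent.Helper192_HP.K02
import Pool.Agent.Helper192_HP.K03
import Pool.Agent.Helper192_HP.K04
import Pool.Agent.Helper192_HP.K08

namespace HP192
open Finset

namespace KK
variable {V : Type} [Fintype V] [DecidableEq V] (K : KK V)

theorem k9_ind_le_one (p : Prop) : ind p ≤ 1 := by
  unfold ind
  split_ifs
  · exact le_rfl
  · exact zero_le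

theorem k9_ind_mono {p q : Prop} (h : p → q) : ind p ≤ ind q := by
  unfold ind
  by_cases hp : p
  · rw [if_pos hp, if_pos (h hp)]
  · rw [if_neg hp]
    exact zero_le

theorem ind_true {p : Prop} (h : p) : ind p = 1 := by
  unfold ind
  rw [if_pos h]

theorem ind_false {p : Prop} (h : ¬ p) : ind p = 0 := by
  unfold ind
  rw [if_neg h]

theorem k9_ind_and (p q : Prop) : ind (p ∧ q) = ind p * ind q := by
  by_cases hp : p
  · by_cases hq : q
    · rw [ind_true ⟨hp, hq⟩, ind_true hp, ind_true hq, mul_one]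
    · rw [ind_false (fun h => hq h.2), ind_false hq, mul_zero]
  · rw [ind_false (fun h => hp h.1), ind_false hp, zero_mul]

theorem ind_congr {p q : Prop} (h : p ↔ q) : ind p = ind q := by
  rw [propext h]

/-- the left side of `merge_le` -/
noncomputable def mrg (S : Finset V) (u t : V) : ENNReal :=
  K.E u (fun w1 => K.E t (fun w2 => ind (Av S w1 ∧ ∃ i ≤ w2.length, Av S (w2.drop i) ∧
        tip t (w2.drop i) ∈ w1 ++ [u])))

theorem E_le_one (x : V) (F : List V → ENNReal) (h : ∀ w, F w ≤ 1) : K.E x F ≤ 1 := by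
  have h1 := K.E_mono x F (fun _ => 1) h
  rwa [K.E_const] at h1

theorem esc_le_one (S : Finset V) (u : V) : K.esc S u ≤ 1 :=
  K.E_le_one u _ fun _ => k9_ind_le_one _

theorem mrg_le_esc (S : Finset V) (u t : V) : K.mrg S u t ≤ K.esc S u := by
  unfold mrg esc
  refine K.E_mono u _ _ fun w1 => ?_
  refine (K.E_mono t _ (fun _ => ind (Av S w1)) fun w2 => k9_ind_mono fun h => h.1).trans ?_
  rw [K.E_const]

theorem core1 (B : ℝ) (hB : K.Good B) (S : Finset V) (u t : V) (r : ℝ) (hr : 0 < r) :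
    ENNReal.ofReal (3 * r) * K.mrg S u t ≤
      ENNReal.ofReal (2 * B ^ 2 / r) * (K.esc S u * K.esc S t) + ENNReal.ofReal (4 * r ^ 2) := by
  have hB1 := hB.B1
  have hBp : 0 < 2 * B ^ 2 / r := by positivity
  have h1 := K.mrg_le_esc S u t
  have h2 : K.mrg S u t ≤ ENNReal.ofReal (2 * B ^ 2 / r) * K.esc S t + ENNReal.ofReal r := by
    have h := K.merge_le B hB S u t (2 * B ^ 2 / r) hBp
    have e : 2 * B ^ 2 / (2 * B ^ 2 / r) = r := by
      have : (2 * B ^ 2 : ℝ) ≠ 0 := by positivity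
      field_simp
    rw [e] at h
    exact h
  have h3 := K.esc_le_one S u
  have h4 := K.esc_le_one S t
  have hLf : K.mrg S u t ≠ ⊤ := ne_top_of_le_ne_top ENNReal.one_ne_top (h1.trans h3)
  have huf : K.esc S u ≠ ⊤ := ne_top_of_le_ne_top ENNReal.one_ne_top h3
  have htf : K.esc S t ≠ ⊤ := ne_top_of_le_ne_top ENNReal.one_ne_top h4
  generalize K.mrg S u t = L at h1 h2 hLf ⊢
  generalize K.esc S u = a at h1 h3 huf ⊢
  generalize K.esc S t = b at h2 h4 htf ⊢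
  lift L to NNReal using hLf
  lift a to NNReal using huf
  lift b to NNReal using htf
  have g1 : (L : ℝ) ≤ a := by exact_mod_cast h1
  have g2 : (L : ℝ) ≤ 2 * B ^ 2 / r * b + r := by
    have e : ENNReal.ofReal (2 * B ^ 2 / r) * (b : ENNReal) + ENNReal.ofReal r =
        ENNReal.ofReal (2 * B ^ 2 / r * b + r) := by
      rw [ENNReal.ofReal_add (by positivity) hr.le, ENNReal.ofReal_mul hBp.le,
        ENNReal.ofReal_coe_nnreal]
    rw [e] at h2
    have h5 := ENNReal.toReal_mono ENNReal.ofReal_ne_top h2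
    rwa [ENNReal.toReal_ofReal (by positivity), ENNReal.coe_toReal] at h5
  have e1 : ENNReal.ofReal (3 * r) * (L : ENNReal) = ENNReal.ofReal (3 * r * L) := by
    rw [ENNReal.ofReal_mul (by positivity : (0 : ℝ) ≤ 3 * r), ENNReal.ofReal_coe_nnreal]
  have e2 : ENNReal.ofReal (2 * B ^ 2 / r) * ((a : ENNReal) * (b : ENNReal)) +
      ENNReal.ofReal (4 * r ^ 2) = ENNReal.ofReal (2 * B ^ 2 / r * (a * b) + 4 * r ^ 2) := by
    rw [ENNReal.ofReal_add (by positivity) (by positivity), ENNReal.ofReal_mul hBp.le,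
      ENNReal.ofReal_mul a.coe_nonneg, ENNReal.ofReal_coe_nnreal, ENNReal.ofReal_coe_nnreal]
  rw [e1, e2]
  refine ENNReal.ofReal_le_ofReal ?_
  have hL0 : (0 : ℝ) ≤ L := L.coe_nonneg
  have hb0 : (0 : ℝ) ≤ b := b.coe_nonneg
  have ha0 : (0 : ℝ) ≤ a := a.coe_nonneg
  obtain ⟨c, hc⟩ : ∃ c : ℝ, c = 2 * B ^ 2 / r := ⟨_, rfl⟩
  rw [← hc] at g2 hBp ⊢
  have g3 : (L : ℝ) * (L - r) ≤ c * (a * b) := by
    have p1 : (L : ℝ) * (L - r) ≤ L * (c * b) := mul_le_mul_of_nonneg_left (by linarith) hL0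
    have p2 : (L : ℝ) * (c * b) ≤ a * (c * b) := mul_le_mul_of_nonneg_right g1 (by positivity)
    calc (L : ℝ) * (L - r) ≤ a * (c * b) := p1.trans p2
      _ = c * (a * b) := by ring
  nlinarith [sq_nonneg ((L : ℝ) - 2 * r)]

theorem core2 (B r : ℝ) (hB : 1 ≤ B) (hr : 0 < r) (T X : ENNReal)
    (h1 : ENNReal.ofReal (2 * r) ≤ T)
    (h2 : ENNReal.ofReal (3 * r) * T ≤ ENNReal.ofReal (2 * B ^ 2 / r) * X +
      ENNReal.ofReal (4 * r ^ 2)) : ENNReal.ofReal (r ^ 3 / B ^ 2) ≤ X := by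
  by_contra hcon
  push Not at hcon
  have hX : X ≠ ⊤ := ne_top_of_lt hcon
  have hBp : 0 < 2 * B ^ 2 / r := by positivity
  have h3 : ENNReal.ofReal (2 * B ^ 2 / r) * X < ENNReal.ofReal (2 * B ^ 2 / r) *
      ENNReal.ofReal (r ^ 3 / B ^ 2) :=
    ENNReal.mul_lt_mul_right (by simpa using hBp) ENNReal.ofReal_ne_top hcon
  have e3 : ENNReal.ofReal (2 * B ^ 2 / r) * ENNReal.ofReal (r ^ 3 / B ^ 2) =
      ENNReal.ofReal (2 * r ^ 2) := by
    rw [← ENNReal.ofReal_mul hBp.le]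
    congr 1
    have : B ≠ 0 := by positivity
    field_simp
  rw [e3] at h3
  have h4 : ENNReal.ofReal (2 * B ^ 2 / r) * X + ENNReal.ofReal (4 * r ^ 2) <
      ENNReal.ofReal (2 * r ^ 2) + ENNReal.ofReal (4 * r ^ 2) :=
    ENNReal.add_lt_add_right ENNReal.ofReal_ne_top h3
  rw [← ENNReal.ofReal_add (by positivity) (by positivity)] at h4
  have h5 : ENNReal.ofReal (3 * r) * ENNReal.ofReal (2 * r) ≤ ENNReal.ofReal (3 * r) * T :=
    mul_le_mul_right h1 _
  rw [← ENNReal.ofReal_mul (by positivity)] at h5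
  have h6 := (h5.trans h2).trans_lt h4
  have e6 : 3 * r * (2 * r) = 2 * r ^ 2 + 4 * r ^ 2 := by ring
  rw [e6] at h6
  exact lt_irrefl _ h6

theorem first_hit (P : V → Prop) (w : List V) (h : ∃ y ∈ w, P y) :
    ∃ i ≤ w.length, ∃ z rest, w.drop i = z :: rest ∧ P z ∧ ∀ y ∈ rest, ¬ P y := by
  induction w with
  | nil => obtain ⟨y, hy, -⟩ := h; exact absurd hy (List.not_mem_nil)
  | cons a w ih =>
    by_cases h1 : ∃ y ∈ w, P y
    · obtain ⟨i, hi, z, rest, h2, h3, h4⟩ := ih h1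
      refine ⟨i + 1, by simpa using hi, z, rest, ?_, h3, h4⟩
      rw [List.drop_succ_cons]
      exact h2
    · refine ⟨0, Nat.zero_le _, a, w, rfl, ?_, ?_⟩
      · obtain ⟨y, hy, hPy⟩ := h
        rw [List.mem_cons] at hy
        rcases hy with rfl | hy
        · exact hPy
        · exact absurd ⟨y, hy, hPy⟩ h1
      · intro y hy hPy
        exact h1 ⟨y, hy, hPy⟩

theorem Av_union (D : Finset V) (w w' : List V) :
    Av (D ∪ w.toFinset) w' ↔ Av D w' ∧ Dj w w' := by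
  unfold Av Dj
  constructor
  · intro h
    refine ⟨fun y hy hD => h y hy (Finset.mem_union_left _ hD), fun y hy hy' => ?_⟩
    exact h y hy' (Finset.mem_union_right _ (List.mem_toFinset.2 hy))
  · rintro ⟨h1, h2⟩ y hy hD
    rcases Finset.mem_union.1 hD with h | h
    · exact h1 y hy h
    · exact h2 y (List.mem_toFinset.1 h) hy

theorem Dj_symm {w w' : List V} (h : Dj w w') : Dj w' w := fun y hy hy' => h y hy' hy

/-- the event of the merging lemma, from a first hitting point -/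
theorem hit_event (S : Finset V) (t u : V) (w w' : List V) (i : ℕ) (hi : i ≤ w.length) (z : V)
    (rest : List V) (hd : w.drop i = z :: rest) (hz : z ∈ w') (hzS : z ∉ S)
    (hr : ∀ y ∈ rest, y ∉ S) :
    ∃ i ≤ w.length, Av S (w.drop i) ∧ tip t (w.drop i) ∈ w' ++ [u] := by
  refine ⟨i, hi, ?_, ?_⟩
  · rw [hd]
    intro y hy
    rw [List.mem_cons] at hy
    rcases hy with rfl | hy
    · exact hzS
    · exact hr y hy
  · rw [hd]
    show z ∈ w' ++ [u]
    exact List.mem_append_left _ hz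

theorem point1 (D : Finset V) (v0 v1 v2 : V) (Y0 Z1 Y2 : List V) :
    ind (Av D Y0 ∧ Av D Z1 ∧ Dj Y0 Z1) * ind (Av D Y2) ≤
      ind (Av D Y0 ∧ Av D Y2 ∧ Dj Y0 Y2) +
      ind (Av D Y0) * ind (Av (D ∪ Y0.toFinset) Z1 ∧ ∃ i ≤ Y2.length,
        Av (D ∪ Y0.toFinset) (Y2.drop i) ∧ tip v2 (Y2.drop i) ∈ Z1 ++ [v1]) +
      ind (Av D Z1) * ind (Av (D ∪ Z1.toFinset) Y0 ∧ ∃ i ≤ Y2.length,
        Av (D ∪ Z1.toFinset) (Y2.drop i) ∧ tip v2 (Y2.drop i) ∈ Y0 ++ [v0]) := by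
  rw [← k9_ind_and, ← k9_ind_and, ← k9_ind_and]
  by_cases h : (Av D Y0 ∧ Av D Z1 ∧ Dj Y0 Z1) ∧ Av D Y2
  swap
  · rw [ind_false h]; exact zero_le
  rw [ind_true h]
  obtain ⟨⟨h0, h1, h01⟩, h2⟩ := h
  by_cases h3 : Dj Y0 Y2
  · rw [ind_true (p := Av D Y0 ∧ Av D Y2 ∧ Dj Y0 Y2) ⟨h0, h2, h3⟩]
    exact le_add_right (le_add_right le_rfl)
  · have h4 : ∃ y ∈ Y2, y ∈ Y0 ∨ y ∈ Z1 := by
      unfold Dj at h3
      push Not at h3
      obtain ⟨y, hy, hy'⟩ := h3
      exact ⟨y, hy', Or.inl hy⟩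
    obtain ⟨i, hi, z, rest, hd, hz, hrest⟩ := first_hit _ Y2 h4
    have hsub : ∀ y ∈ z :: rest, y ∉ D := by
      intro y hy
      rw [← hd] at hy
      exact h2 y (List.mem_of_mem_drop hy)
    rcases hz with hz | hz
    · have hz1 : z ∉ Z1 := h01 z hz
      have e := hit_event (D ∪ Z1.toFinset) v2 v0 Y2 Y0 i hi z rest hd hz
        (by
          rw [Finset.mem_union, List.mem_toFinset]
          rintro (h | h)
          · exact hsub z List.mem_cons_self h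
          · exact hz1 h)
        (by
          intro y hy
          rw [Finset.mem_union, List.mem_toFinset]
          rintro (h | h)
          · exact hsub y (List.mem_cons_of_mem _ hy) h
          · exact hrest y hy (Or.inr h))
      rw [ind_true (p := Av D Z1 ∧ _ ∧ _) ⟨h1, (Av_union D Z1 Y0).2 ⟨h0, Dj_symm h01⟩, e⟩]
      exact le_add_left le_rfl
    · have hz1 : z ∉ Y0 := fun h => h01 z h hz
      have e := hit_event (D ∪ Y0.toFinset) v2 v1 Y2 Z1 i hi z rest hd hz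
        (by
          rw [Finset.mem_union, List.mem_toFinset]
          rintro (h | h)
          · exact hsub z List.mem_cons_self h
          · exact hz1 h)
        (by
          intro y hy
          rw [Finset.mem_union, List.mem_toFinset]
          rintro (h | h)
          · exact hsub y (List.mem_cons_of_mem _ hy) h
          · exact hrest y hy (Or.inl h))
      rw [ind_true (p := Av D Y0 ∧ _ ∧ _) ⟨h0, (Av_union D Y0 Z1).2 ⟨h1, h01⟩, e⟩]
      exact le_add_right (le_add_left le_rfl)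

theorem point2 (D : Finset V) (v0 v1 v2 v3 : V) (Y0 Y2 Z1 Z3 : List V) :
    ind (Av D Z1) * (ind (Av (D ∪ Z1.toFinset) Y0) * ind (Av (D ∪ Z1.toFinset) Y2)) *
        ind (Av D Z3) ≤
      ind (Av D Z1 ∧ Av D Z3 ∧ Dj Z1 Z3) +
      ind (Av D Z1) * ind (Av (D ∪ Z1.toFinset) Y0 ∧ ∃ i ≤ Z3.length,
        Av (D ∪ Z1.toFinset) (Z3.drop i) ∧ tip v3 (Z3.drop i) ∈ Y0 ++ [v0]) +
      ind (Av D Z1) * ind (Av (D ∪ Z1.toFinset) Y2 ∧ ∃ i ≤ Z3.length,
        Av (D ∪ Z1.toFinset) (Z3.drop i) ∧ tip v3 (Z3.drop i) ∈ Y2 ++ [v2]) +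
      ind (Av D Y0 ∧ Av D Y2) * ind (Av (D ∪ (Y0 ++ Y2).toFinset) Z1 ∧ ∃ i ≤ Z3.length,
        Av (D ∪ (Y0 ++ Y2).toFinset) (Z3.drop i) ∧ tip v3 (Z3.drop i) ∈ Z1 ++ [v1]) := by
  rw [← k9_ind_and, ← k9_ind_and, ← k9_ind_and, ← k9_ind_and, ← k9_ind_and, ← k9_ind_and]
  by_cases h : (Av D Z1 ∧ Av (D ∪ Z1.toFinset) Y0 ∧ Av (D ∪ Z1.toFinset) Y2) ∧ Av D Z3
  swap
  · rw [ind_false h]; exact zero_le
  rw [ind_true h]
  obtain ⟨⟨h1, h0', h2'⟩, h3⟩ := h
  obtain ⟨h0, h10⟩ := (Av_union D Z1 Y0).1 h0'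
  obtain ⟨h2, h12⟩ := (Av_union D Z1 Y2).1 h2'
  by_cases h4 : Dj Z1 Z3
  · rw [ind_true (p := Av D Z1 ∧ Av D Z3 ∧ Dj Z1 Z3) ⟨h1, h3, h4⟩]
    exact le_add_right (le_add_right (le_add_right le_rfl))
  · have h5 : ∃ y ∈ Z3, y ∈ Z1 ∨ y ∈ Y0 ∨ y ∈ Y2 := by
      unfold Dj at h4
      push Not at h4
      obtain ⟨y, hy, hy'⟩ := h4
      exact ⟨y, hy', Or.inl hy⟩
    obtain ⟨i, hi, z, rest, hd, hz, hrest⟩ := first_hit _ Z3 h5
    have hsub : ∀ y ∈ z :: rest, y ∉ D := by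
      intro y hy
      rw [← hd] at hy
      exact h3 y (List.mem_of_mem_drop hy)
    rcases hz with hz | hz | hz
    · have hz0 : z ∉ Y0 := h10 z hz
      have hz2 : z ∉ Y2 := h12 z hz
      have e := hit_event (D ∪ (Y0 ++ Y2).toFinset) v3 v1 Z3 Z1 i hi z rest hd hz
        (by
          rw [Finset.mem_union, List.mem_toFinset, List.mem_append]
          rintro (h | h | h)
          · exact hsub z List.mem_cons_self h
          · exact hz0 h
          · exact hz2 h)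
        (by
          intro y hy
          rw [Finset.mem_union, List.mem_toFinset, List.mem_append]
          rintro (h | h | h)
          · exact hsub y (List.mem_cons_of_mem _ hy) h
          · exact hrest y hy (Or.inr (Or.inl h))
          · exact hrest y hy (Or.inr (Or.inr h)))
      rw [ind_true (p := (Av D Y0 ∧ Av D Y2) ∧ _ ∧ _) ⟨⟨h0, h2⟩, (Av_union D (Y0 ++ Y2) Z1).2
        ⟨h1, fun y hy hy' => by
          rcases List.mem_append.1 hy with h | h
          · exact h10 y hy' h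
          · exact h12 y hy' h⟩, e⟩]
      exact le_add_left le_rfl
    · have hz1 : z ∉ Z1 := fun h => h10 z h hz
      have e := hit_event (D ∪ Z1.toFinset) v3 v0 Z3 Y0 i hi z rest hd hz
        (by
          rw [Finset.mem_union, List.mem_toFinset]
          rintro (h | h)
          · exact hsub z List.mem_cons_self h
          · exact hz1 h)
        (by
          intro y hy
          rw [Finset.mem_union, List.mem_toFinset]
          rintro (h | h)
          · exact hsub y (List.mem_cons_of_mem _ hy) h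
          · exact hrest y hy (Or.inl h))
      rw [ind_true (p := Av D Z1 ∧ Av (D ∪ Z1.toFinset) Y0 ∧ _) ⟨h1, h0', e⟩]
      exact le_add_right (le_add_right (le_add_left le_rfl))
    · have hz1 : z ∉ Z1 := fun h => h12 z h hz
      have e := hit_event (D ∪ Z1.toFinset) v3 v2 Z3 Y2 i hi z rest hd hz
        (by
          rw [Finset.mem_union, List.mem_toFinset]
          rintro (h | h)
          · exact hsub z List.mem_cons_self h
          · exact hz1 h)
        (by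
          intro y hy
          rw [Finset.mem_union, List.mem_toFinset]
          rintro (h | h)
          · exact hsub y (List.mem_cons_of_mem _ hy) h
          · exact hrest y hy (Or.inl h))
      rw [ind_true (p := Av D Z1 ∧ Av (D ∪ Z1.toFinset) Y2 ∧ _) ⟨h1, h2', e⟩]
      exact le_add_right (le_add_left le_rfl)

theorem E_mul_right (x : V) (c : ENNReal) (F : List V → ENNReal) :
    K.E x (fun w => F w * c) = K.E x F * c := by
  simp only [mul_comm _ c]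
  exact K.E_mul_left x c F

/-- a term of the form `E u (ind (Av D .) * mrg (D union .) v t)` -/
theorem side (B : ℝ) (hB : K.Good B) (D : Finset V) (u v t : V) (M : ℝ) (hM : 0 < M) :
    K.E u (fun w => ind (Av D w) * K.mrg (D ∪ w.toFinset) v t) ≤
      ENNReal.ofReal M * K.Pi2 D u t + ENNReal.ofReal (2 * B ^ 2 / M) := by
  have h1 : ∀ w : List V, ind (Av D w) * K.mrg (D ∪ w.toFinset) v t ≤
      ENNReal.ofReal M * K.E t (fun w2 => ind (Av D w ∧ Av D w2 ∧ Dj w w2)) +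
        ENNReal.ofReal (2 * B ^ 2 / M) := by
    intro w
    have h2 := K.merge_le B hB (D ∪ w.toFinset) v t M hM
    have h3 : ind (Av D w) * K.mrg (D ∪ w.toFinset) v t ≤ ind (Av D w) * (ENNReal.ofReal M *
        K.E t (fun z => ind (Av (D ∪ w.toFinset) z)) + ENNReal.ofReal (2 * B ^ 2 / M)) :=
      mul_le_mul_right h2 _
    refine h3.trans ?_
    rw [mul_add]
    refine add_le_add ?_ ?_
    · rw [mul_left_comm, ← K.E_mul_left]
      refine mul_le_mul_right (K.E_mono t _ _ fun z => ?_) _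
      rw [← k9_ind_and]
      refine k9_ind_mono fun h => ?_
      obtain ⟨h4, h5⟩ := (Av_union D w z).1 h.2
      exact ⟨h.1, h4, h5⟩
    · exact mul_le_of_le_one_left zero_le (k9_ind_le_one _)
  refine (K.E_mono u _ _ h1).trans ?_
  rw [K.E_add, K.E_mul_left, K.E_const]
  exact le_rfl

theorem comb3 (a b1 b2 c : ℝ) (T1 T2 T3 : ENNReal) (hb1 : 0 ≤ b1) (hb2 : 0 ≤ b2) (hc : 0 < c)
    (h : ENNReal.ofReal a ≤ T1 + T2 + T3) (h1 : T1 ≤ ENNReal.ofReal b1)
    (h2 : T2 ≤ ENNReal.ofReal b2) (hs : b1 + b2 + c ≤ a) : ENNReal.ofReal c ≤ T3 := by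
  by_contra hcon
  push Not at hcon
  have h3 : T1 + T2 ≤ ENNReal.ofReal b1 + ENNReal.ofReal b2 := add_le_add h1 h2
  have h4 : T1 + T2 + T3 < ENNReal.ofReal b1 + ENNReal.ofReal b2 + ENNReal.ofReal c :=
    ENNReal.add_lt_add_of_le_of_lt
      (ne_top_of_le_ne_top (by simp) h3) h3 hcon
  rw [← ENNReal.ofReal_add hb1 hb2, ← ENNReal.ofReal_add (by positivity) hc.le] at h4
  exact lt_irrefl _ ((h.trans_lt h4).trans_le (ENNReal.ofReal_le_ofReal hs))

/-- first step -/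
theorem step1 (B e1 δ δ' M r : ℝ) (hB : K.Good B) (he : 0 < e1) (hδ : 0 < δ) (hδ' : 0 < δ')
    (hM : 0 < M) (hr : 0 < r) (hs : δ' + (M * δ' + 2 * B ^ 2 / M) + 2 * r ≤ δ * e1)
    (D : Finset V) (v0 v1 v2 : V) (h01 : ENNReal.ofReal δ ≤ K.Pi2 D v0 v1)
    (h2 : ENNReal.ofReal e1 ≤ K.esc D v2) (h02 : K.Pi2 D v0 v2 ≤ ENNReal.ofReal δ') :
    ENNReal.ofReal (r ^ 3 / B ^ 2) ≤ K.E v1 (fun Z1 => ind (Av D Z1) *
      (K.esc (D ∪ Z1.toFinset) v0 * K.esc (D ∪ Z1.toFinset) v2)) := by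
  have hB1 := hB.B1
  have main : K.Pi2 D v0 v1 * K.esc D v2 ≤ K.Pi2 D v0 v2 +
      K.E v0 (fun Y0 => ind (Av D Y0) * K.mrg (D ∪ Y0.toFinset) v1 v2) +
      K.E v1 (fun Z1 => ind (Av D Z1) * K.mrg (D ∪ Z1.toFinset) v0 v2) := by
    have e0 : K.Pi2 D v0 v1 * K.esc D v2 = K.E v0 (fun Y0 => K.E v1 (fun Z1 => K.E v2 (fun Y2 =>
        ind (Av D Y0 ∧ Av D Z1 ∧ Dj Y0 Z1) * ind (Av D Y2)))) := by
      unfold Pi2
      simp only [K.E_mul_left]
      rw [← K.E_mul_right]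
      simp only [← K.E_mul_right]
      rfl
    rw [e0]
    refine (K.E_mono v0 _ _ fun Y0 => K.E_mono v1 _ _ fun Z1 => K.E_mono v2 _ _ fun Y2 =>
      point1 D v0 v1 v2 Y0 Z1 Y2).trans ?_
    simp only [K.E_add]
    refine add_le_add (add_le_add ?_ ?_) ?_
    · simp only [K.E_const]
      exact le_rfl
    · refine K.E_mono v0 _ _ fun Y0 => ?_
      simp only [K.E_mul_left]
      exact le_rfl
    · rw [K.E_comm v0 v1]
      refine K.E_mono v1 _ _ fun Z1 => ?_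
      simp only [K.E_mul_left]
      exact le_rfl
  have hside := K.side B hB D v0 v1 v2 M hM
  have hside2 : K.E v0 (fun Y0 => ind (Av D Y0) * K.mrg (D ∪ Y0.toFinset) v1 v2) ≤
      ENNReal.ofReal (M * δ' + 2 * B ^ 2 / M) := by
    refine hside.trans ?_
    rw [ENNReal.ofReal_add (by positivity) (by positivity), ENNReal.ofReal_mul hM.le]
    exact add_le_add (mul_le_mul_right h02 _) le_rfl
  have hlow : ENNReal.ofReal (δ * e1) ≤ K.Pi2 D v0 v1 * K.esc D v2 := by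
    rw [ENNReal.ofReal_mul hδ.le]
    exact mul_le_mul' h01 h2
  have hT := comb3 (δ * e1) δ' (M * δ' + 2 * B ^ 2 / M) (2 * r) _ _ _ hδ'.le (by positivity)
    (by positivity) (hlow.trans main) h02 hside2 hs
  refine core2 B r hB1 hr _ _ hT ?_
  rw [← K.E_mul_left, ← K.E_mul_left]
  have hc := K.E_const v1 (ENNReal.ofReal (4 * r ^ 2))
  rw [← hc, ← K.E_add]
  refine K.E_mono v1 _ _ fun Z1 => ?_
  have h5 := K.core1 B hB (D ∪ Z1.toFinset) v0 v2 r hr
  have h6 : ENNReal.ofReal (3 * r) * (ind (Av D Z1) * K.mrg (D ∪ Z1.toFinset) v0 v2) =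
      ind (Av D Z1) * (ENNReal.ofReal (3 * r) * K.mrg (D ∪ Z1.toFinset) v0 v2) := by ring
  rw [h6]
  refine (mul_le_mul_right h5 _).trans ?_
  rw [mul_add]
  refine add_le_add (le_of_eq (by ring)) ?_
  exact mul_le_of_le_one_left zero_le (k9_ind_le_one _)

/-- second step -/
theorem step2 (B e1 δ δ' M r : ℝ) (hB : K.Good B) (he : 0 < e1) (hδ : 0 < δ) (hδ' : 0 < δ')
    (hM : 0 < M) (hr : 0 < r) (hs : δ' + 2 * (M * δ' + 2 * B ^ 2 / M) + 2 * r ≤ δ * e1)
    (D : Finset V) (v0 v1 v2 v3 : V)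
    (h01 : ENNReal.ofReal δ ≤ K.E v1 (fun Z1 => ind (Av D Z1) *
      (K.esc (D ∪ Z1.toFinset) v0 * K.esc (D ∪ Z1.toFinset) v2)))
    (h2 : ENNReal.ofReal e1 ≤ K.esc D v3) (h02 : K.Pi2 D v1 v3 ≤ ENNReal.ofReal δ') :
    ENNReal.ofReal (r ^ 3 / B ^ 2) ≤ K.Cf D v0 v2 v1 v3 := by
  have hB1 := hB.B1
  have main : K.E v1 (fun Z1 => ind (Av D Z1) *
      (K.esc (D ∪ Z1.toFinset) v0 * K.esc (D ∪ Z1.toFinset) v2)) * K.esc D v3 ≤ K.Pi2 D v1 v3 +
      (K.E v1 (fun Z1 => ind (Av D Z1) * K.mrg (D ∪ Z1.toFinset) v0 v3) +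
      K.E v1 (fun Z1 => ind (Av D Z1) * K.mrg (D ∪ Z1.toFinset) v2 v3)) +
      K.E v0 (fun Y0 => K.E v2 (fun Y2 => ind (Av D Y0 ∧ Av D Y2) *
        K.mrg (D ∪ (Y0 ++ Y2).toFinset) v1 v3)) := by
    have e0 : K.E v1 (fun Z1 => ind (Av D Z1) *
      (K.esc (D ∪ Z1.toFinset) v0 * K.esc (D ∪ Z1.toFinset) v2)) * K.esc D v3 =
      K.E v1 (fun Z1 => K.E v0 (fun Y0 => K.E v2 (fun Y2 => K.E v3 (fun Z3 =>
        ind (Av D Z1) * (ind (Av (D ∪ Z1.toFinset) Y0) * ind (Av (D ∪ Z1.toFinset) Y2)) *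
        ind (Av D Z3))))) := by
      rw [← K.E_mul_right]
      congr 1
      funext Z1
      simp only [K.E_mul_left]
      unfold esc
      simp only [K.E_mul_right, K.E_mul_left]
    rw [e0]
    refine (K.E_mono v1 _ _ fun Z1 => K.E_mono v0 _ _ fun Y0 => K.E_mono v2 _ _ fun Y2 =>
      K.E_mono v3 _ _ fun Z3 => point2 D v0 v1 v2 v3 Y0 Y2 Z1 Z3).trans ?_
    simp only [K.E_add]
    rw [← add_assoc (K.Pi2 D v1 v3)]
    refine add_le_add (add_le_add (add_le_add ?_ ?_) ?_) ?_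
    · simp only [K.E_const]
      exact le_rfl
    · refine K.E_mono v1 _ _ fun Z1 => ?_
      simp only [K.E_mul_left, K.E_const]
      exact le_rfl
    · refine K.E_mono v1 _ _ fun Z1 => ?_
      simp only [K.E_mul_left, K.E_const]
      exact le_rfl
    · rw [K.E_comm v1 v0]
      refine K.E_mono v0 _ _ fun Y0 => ?_
      rw [K.E_comm v1 v2]
      refine K.E_mono v2 _ _ fun Y2 => ?_
      simp only [K.E_mul_left]
      exact le_rfl
  have hs0 : ∀ v : V, K.E v1 (fun Z1 => ind (Av D Z1) * K.mrg (D ∪ Z1.toFinset) v v3) ≤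
      ENNReal.ofReal (M * δ' + 2 * B ^ 2 / M) := by
    intro v
    refine (K.side B hB D v1 v v3 M hM).trans ?_
    rw [ENNReal.ofReal_add (by positivity) (by positivity), ENNReal.ofReal_mul hM.le]
    exact add_le_add (mul_le_mul_right h02 _) le_rfl
  have hside2 : K.E v1 (fun Z1 => ind (Av D Z1) * K.mrg (D ∪ Z1.toFinset) v0 v3) +
      K.E v1 (fun Z1 => ind (Av D Z1) * K.mrg (D ∪ Z1.toFinset) v2 v3) ≤
      ENNReal.ofReal (2 * (M * δ' + 2 * B ^ 2 / M)) := by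
    refine (add_le_add (hs0 v0) (hs0 v2)).trans (le_of_eq ?_)
    rw [← ENNReal.ofReal_add (by positivity) (by positivity)]
    congr 1
    ring
  have hlow : ENNReal.ofReal (δ * e1) ≤ K.E v1 (fun Z1 => ind (Av D Z1) *
      (K.esc (D ∪ Z1.toFinset) v0 * K.esc (D ∪ Z1.toFinset) v2)) * K.esc D v3 := by
    rw [ENNReal.ofReal_mul hδ.le]
    exact mul_le_mul' h01 h2
  have hT := comb3 (δ * e1) δ' (2 * (M * δ' + 2 * B ^ 2 / M)) (2 * r) _ _ _ hδ'.le (by positivity)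
    (by positivity) (hlow.trans main) h02 hside2 hs
  have hCf : K.Cf D v0 v2 v1 v3 = K.E v0 (fun Y0 => K.E v2 (fun Y2 => ind (Av D Y0 ∧ Av D Y2) *
      (K.esc (D ∪ (Y0 ++ Y2).toFinset) v1 * K.esc (D ∪ (Y0 ++ Y2).toFinset) v3))) := by
    unfold Cf esc
    congr 1
    funext Y0
    congr 1
    funext Y2
    rw [← K.E_mul_right, ← K.E_mul_left]
    congr 1
    funext Z1
    rw [← K.E_mul_left, ← K.E_mul_left]
    congr 1
    funext Z3
    rw [← k9_ind_and, ← k9_ind_and]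
    refine ind_congr ?_
    rw [Av_union, Av_union]
    unfold Dj
    constructor
    · rintro ⟨a1, a2, a3, a4, a5, a6, a7, a8⟩
      refine ⟨⟨a1, a2⟩, ⟨a3, fun y hy => ?_⟩, a4, fun y hy => ?_⟩
      · rcases List.mem_append.1 hy with h | h
        · exact a5 y h
        · exact a7 y h
      · rcases List.mem_append.1 hy with h | h
        · exact a6 y h
        · exact a8 y h
    · rintro ⟨⟨a1, a2⟩, ⟨a3, a5⟩, a4, a6⟩
      exact ⟨a1, a2, a3, a4, fun y hy => a5 y (List.mem_append_left _ hy),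
        fun y hy => a6 y (List.mem_append_left _ hy),
        fun y hy => a5 y (List.mem_append_right _ hy),
        fun y hy => a6 y (List.mem_append_right _ hy)⟩
  rw [hCf]
  refine core2 B r hB1 hr _ _ hT ?_
  simp only [← K.E_mul_left]
  have hc : ENNReal.ofReal (4 * r ^ 2) =
      K.E v0 (fun _ => K.E v2 (fun _ => ENNReal.ofReal (4 * r ^ 2))) := by
    rw [K.E_const, K.E_const]
  rw [hc, ← K.E_add]
  refine K.E_mono v0 _ _ fun Y0 => ?_
  rw [← K.E_add]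
  refine K.E_mono v2 _ _ fun Y2 => ?_
  have h5 := K.core1 B hB (D ∪ (Y0 ++ Y2).toFinset) v1 v3 r hr
  have h6 : ENNReal.ofReal (3 * r) * (ind (Av D Y0 ∧ Av D Y2) *
      K.mrg (D ∪ (Y0 ++ Y2).toFinset) v1 v3) = ind (Av D Y0 ∧ Av D Y2) *
        (ENNReal.ofReal (3 * r) * K.mrg (D ∪ (Y0 ++ Y2).toFinset) v1 v3) := by ring
  rw [h6]
  refine (mul_le_mul_right h5 _).trans ?_
  rw [mul_add]
  refine add_le_add (le_of_eq (by ring)) ?_
  exact mul_le_of_le_one_left zero_le (k9_ind_le_one _)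

end KK

/-- TARGET -/
/- four walks: if `v0`, `v1` can escape disjointly while `v0, v2` and `v1, v3` cannot, then `v0, v2`
together can escape disjointly from `v1, v3` -/
theorem four_pos (B e1 δ : ℝ) (hB : 1 ≤ B) (he : 0 < e1) (hδ : 0 < δ) :
    ∃ δ' ρ : ℝ, 0 < δ' ∧ 0 < ρ ∧ ∀ (V : Type) [Fintype V] [DecidableEq V] (K : KK V), K.Good B →
      ∀ (D : Finset V) (v0 v1 v2 v3 : V), v0 ∈ D → v1 ∈ D → v2 ∈ D → v3 ∈ D → v0 ≠ v1 →
      v0 ≠ v2 → v0 ≠ v3 → v1 ≠ v2 → v1 ≠ v3 → v2 ≠ v3 →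
      ENNReal.ofReal δ ≤ K.Pi2 D v0 v1 → ENNReal.ofReal e1 ≤ K.esc D v2 →
      ENNReal.ofReal e1 ≤ K.esc D v3 → K.Pi2 D v0 v2 ≤ ENNReal.ofReal δ' →
      K.Pi2 D v1 v3 ≤ ENNReal.ofReal δ' → ENNReal.ofReal ρ ≤ K.Cf D v0 v2 v1 v3 := by
  obtain ⟨r1, hr1⟩ : ∃ r1 : ℝ, r1 = δ * e1 / 4 := ⟨_, rfl⟩
  have hr1p : 0 < r1 := by rw [hr1]; positivity
  obtain ⟨ρ2, hρ2⟩ : ∃ ρ2 : ℝ, ρ2 = r1 ^ 3 / B ^ 2 := ⟨_, rfl⟩
  have hρ2p : 0 < ρ2 := by rw [hρ2]; positivity
  obtain ⟨r3, hr3⟩ : ∃ r3 : ℝ, r3 = ρ2 * e1 / 4 := ⟨_, rfl⟩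
  have hr3p : 0 < r3 := by rw [hr3]; positivity
  obtain ⟨τ, hτ⟩ : ∃ τ : ℝ, τ = min (2 * r1) (2 * r3) := ⟨_, rfl⟩
  have hτp : 0 < τ := by rw [hτ]; exact lt_min (by positivity) (by positivity)
  have hτ1 : τ ≤ 2 * r1 := by rw [hτ]; exact min_le_left _ _
  have hτ3 : τ ≤ 2 * r3 := by rw [hτ]; exact min_le_right _ _
  obtain ⟨M, hM⟩ : ∃ M : ℝ, M = 16 * B ^ 2 / τ := ⟨_, rfl⟩
  have hMp : 0 < M := by rw [hM]; positivity
  have hM2 : 2 * B ^ 2 / M = τ / 8 := by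
    rw [hM]
    have : B ≠ 0 := by positivity
    field_simp
    norm_num
  obtain ⟨d, hd⟩ : ∃ d : ℝ, d = τ / (8 * (M + 1)) := ⟨_, rfl⟩
  have hdp : 0 < d := by rw [hd]; positivity
  have hd2 : d + M * d = τ / 8 := by
    rw [hd]
    field_simp
    ring
  refine ⟨d, r3 ^ 3 / B ^ 2, hdp, by positivity, ?_⟩
  intro V _ _ K hK D v0 v1 v2 v3 _ _ _ _ _ _ _ _ _ _ h01 h2 h3 h02 h13
  have hMd : 0 < M * d := by positivity
  have s1 := K.step1 B e1 δ d M r1 hK he hδ hdp hMp hr1p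
    (by rw [hM2]; have : δ * e1 = 4 * r1 := by (rw [hr1]; ring)
        linarith) D v0 v1 v2 h01 h2 h02
  rw [← hρ2] at s1
  exact K.step2 B e1 ρ2 d M r3 hK he hρ2p hdp hMp hr3p
    (by rw [hM2]; have : ρ2 * e1 = 4 * r3 := by (rw [hr3]; ring)
        linarith) D v0 v1 v2 v3 s1 h3 h13

end HP192
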