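import Mathlib
import Pool.Agent.Helper192_HP.Defs
import Pool.Agent.Helper192_HP.KDefs
import Pool.Agent.Helper192_HP.CdDef
import Pool.Agent.Helper192_HP.K01
import Pool.Agent.Helper192_HP.K02
import Pool.Agent.Helper192_HP.K06
import Pool.Agent.Helper192_HP.K07
import Pool.Agent.Helper192_HP.K08
import Pool.Agent.Helper192_HP.K09

namespace HP192
open Finset

/-! helper lemmas -/

theorem cyc_per {V : Type} {ℓ : ℕ} {c : ℕ → V} (hper : ∀ i, c (i + ℓ) = c i) (i k : ℕ) :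
    c (i + k * ℓ) = c i := by
  induction k with
  | zero => simp
  | succ k ih => rw [Nat.succ_mul, ← Nat.add_assoc, hper, ih]

theorem cyc_mod {V : Type} {ℓ : ℕ} {c : ℕ → V} (hper : ∀ i, c (i + ℓ) = c i) (i : ℕ) :
    c (i % ℓ) = c i := by
  have h := cyc_per hper (i % ℓ) (i / ℓ)
  have e : i % ℓ + i / ℓ * ℓ = i := by
    rw [mul_comm]; exact Nat.mod_add_div i ℓ
  rw [e] at h
  exact h.symm

theorem cyc_ne {V : Type} {ℓ : ℕ} {c : ℕ → V} (hl : 0 < ℓ) (hper : ∀ i, c (i + ℓ) = c i)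
    (hinj : ∀ i < ℓ, ∀ j < ℓ, c i = c j → i = j) (i j : ℕ) (hij : i < j) (hj : j < i + ℓ) :
    c i ≠ c j := by
  intro h
  rw [← cyc_mod hper i, ← cyc_mod hper j] at h
  have h2 : i % ℓ = j % ℓ := hinj _ (Nat.mod_lt _ hl) _ (Nat.mod_lt _ hl) h
  have h3 : ℓ ∣ j - i := (Nat.modEq_iff_dvd' hij.le).1 h2
  have h4 := Nat.le_of_dvd (by omega) h3
  omega

theorem cyc_mem {V : Type} [DecidableEq V] {ℓ : ℕ} {c : ℕ → V} (hl : 0 < ℓ)
    (hper : ∀ i, c (i + ℓ) = c i) (i : ℕ) : c i ∈ cD ℓ c := by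
  rw [← cyc_mod hper i]
  exact Finset.mem_image_of_mem _ (Finset.mem_range.2 (Nat.mod_lt _ hl))

/-- the function `T` of the plan -/
noncomputable def Tf (B e1 τ : ℝ) : ℝ :=
  min τ (e1 * τ / (8 * (1 + 2 * (8 * B ^ 2 / (e1 * τ)))))

theorem Tf_pos {B e1 τ : ℝ} (hB : 1 ≤ B) (he : 0 < e1) (hτ : 0 < τ) : 0 < Tf B e1 τ := by
  have hB0 : 0 < B := by linarith
  unfold Tf
  exact lt_min hτ (by positivity)

theorem Tf_le (B e1 τ : ℝ) : Tf B e1 τ ≤ τ := min_le_left _ _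

theorem Tf_iter_pos {B e1 τ : ℝ} (hB : 1 ≤ B) (he : 0 < e1) (hτ : 0 < τ) (n : ℕ) :
    0 < (Tf B e1)^[n] τ := by
  induction n with
  | zero => simpa using hτ
  | succ n ih => rw [Function.iterate_succ_apply']; exact Tf_pos hB he ih

theorem Tf_iter_le (B e1 τ : ℝ) (m n : ℕ) (h : m ≤ n) :
    (Tf B e1)^[n] τ ≤ (Tf B e1)^[m] τ := by
  induction n, h using Nat.le_induction with
  | base => exact le_refl _
  | succ n _ ih => rw [Function.iterate_succ_apply']; exact (Tf_le _ _ _).trans ih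

theorem tri_small {V : Type} [Fintype V] [DecidableEq V] (K : KK V) {B e1 τ : ℝ} (hB : 1 ≤ B)
    (he : 0 < e1) (hτ : 0 < τ) (hK : K.Good B) (C : Finset V) (t u v : V) (ht : t ∈ C)
    (hu : u ∈ C) (hv : v ∈ C) (htu : t ≠ u) (htv : t ≠ v) (huv : u ≠ v)
    (hes : ENNReal.ofReal e1 ≤ K.esc C t)
    (h1 : K.Pi2 C t u < ENNReal.ofReal (Tf B e1 τ))
    (h2 : K.Pi2 C t v < ENNReal.ofReal (Tf B e1 τ)) :
    K.Pi2 C u v < ENNReal.ofReal τ := by
  have hB0 : 0 < B := by linarith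
  set M : ℝ := 8 * B ^ 2 / (e1 * τ) with hMdef
  have hM : 0 < M := by positivity
  set s : ℝ := Tf B e1 τ with hs
  have hs0 : 0 < s := Tf_pos hB he hτ
  have h := K.tri B hK C t u v ht hu hv htu htv huv M hM
  by_contra hc
  push Not at hc
  have l1 : ENNReal.ofReal (e1 * τ) ≤ K.esc C t * K.Pi2 C u v := by
    rw [ENNReal.ofReal_mul he.le]; exact mul_le_mul' hes hc
  have l2 : K.Pi2 C t u + ENNReal.ofReal M * K.Pi2 C t v + ENNReal.ofReal M * K.Pi2 C t u
      + ENNReal.ofReal (4 * B ^ 2 / M) ≤ ENNReal.ofReal (s + M * s + M * s + 4 * B ^ 2 / M) := by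
    rw [ENNReal.ofReal_add (by positivity) (by positivity),
      ENNReal.ofReal_add (by positivity) (by positivity),
      ENNReal.ofReal_add (by positivity) (by positivity), ENNReal.ofReal_mul hM.le]
    gcongr
  have l3 := l1.trans (h.trans l2)
  rw [ENNReal.ofReal_le_ofReal_iff (by positivity)] at l3
  have e2 : 4 * B ^ 2 / M = e1 * τ / 2 := by
    rw [hMdef]; field_simp; ring
  have e3 : s * (1 + 2 * M) ≤ e1 * τ / 8 := by
    have : s ≤ e1 * τ / (8 * (1 + 2 * M)) := min_le_right _ _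
    rw [le_div_iff₀ (by positivity)] at this
    nlinarith
  have e4 : 0 < e1 * τ := by positivity
  rw [e2] at l3
  nlinarith

theorem exists_pair {V : Type} [Fintype V] [DecidableEq V] (K : KK V) {B : ℝ} (L : ℕ)
    (hL : 1 ≤ L) (hB : 1 ≤ B) (hK : K.Good B) (C : Finset V) (hC : C.card ≤ L) (x y : V)
    (hx : x ∈ C) (hy : y ∈ C) (hxy : x ≠ y) :
    ∃ u ∈ C, ∃ v ∈ C, u ≠ v ∧
      ENNReal.ofReal (1 / (68 * B ^ 10 * (L : ℝ) ^ 2)) ≤ K.Pi2 C u v := by
  have hB0 : 0 < B := by linarith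
  have hL0 : (0 : ℝ) < L := by exact_mod_cast hL
  by_contra hc
  push Not at hc
  set δ : ℝ := 1 / (68 * B ^ 10 * (L : ℝ) ^ 2) with hδ
  have hδ0 : 0 < δ := by positivity
  have h1 : K.sd x y ≤ ENNReal.ofReal ((L : ℝ) * ((L : ℝ) * (B * B * δ))) := by
    calc K.sd x y ≤ ∑ u ∈ C, ∑ v ∈ C.erase u, K.G x u * K.G y v * K.Pi2 C u v :=
          K.last_vis C x y hx hy
      _ ≤ ∑ u ∈ C, ∑ v ∈ C.erase u, ENNReal.ofReal (B * B * δ) := by
          refine Finset.sum_le_sum fun u hu => Finset.sum_le_sum fun v hv => ?_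
          rw [Finset.mem_erase] at hv
          rw [ENNReal.ofReal_mul (by positivity), ENNReal.ofReal_mul hB0.le]
          exact mul_le_mul' (mul_le_mul' (K.G_le B hK x u) (K.G_le B hK y v))
            (hc u hu v hv.2 (Ne.symm hv.1)).le
      _ ≤ ∑ u ∈ C, ∑ v ∈ C, ENNReal.ofReal (B * B * δ) := by
          refine Finset.sum_le_sum fun u hu => ?_
          exact Finset.sum_le_sum_of_subset (Finset.erase_subset _ _)
      _ = (C.card : ENNReal) * ((C.card : ENNReal) * ENNReal.ofReal (B * B * δ)) := by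
          simp [Finset.sum_const, nsmul_eq_mul]
      _ ≤ (L : ENNReal) * ((L : ENNReal) * ENNReal.ofReal (B * B * δ)) := by
          have : (C.card : ENNReal) ≤ (L : ENNReal) := by exact_mod_cast hC
          gcongr
      _ = ENNReal.ofReal ((L : ℝ) * ((L : ℝ) * (B * B * δ))) := by
          rw [ENNReal.ofReal_mul hL0.le, ENNReal.ofReal_mul hL0.le, ENNReal.ofReal_natCast]
  have h2 := K.sd_low B hK x y hxy
  have h3 : (1 : ENNReal) ≤ ENNReal.ofReal (34 * B ^ 8 * ((L : ℝ) * ((L : ℝ) * (B * B * δ)))) := by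
    rw [ENNReal.ofReal_mul (by positivity)]
    exact h2.trans (mul_le_mul' le_rfl h1)
  rw [← ENNReal.ofReal_one, ENNReal.ofReal_le_ofReal_iff (by positivity)] at h3
  have e : 34 * B ^ 8 * ((L : ℝ) * ((L : ℝ) * (B * B * δ))) = 1 / 2 := by
    rw [hδ]; field_simp; ring
  rw [e] at h3
  norm_num at h3

/-- TARGET -/
theorem cyc_class (B e1 : ℝ) (L : ℕ) (hB : 1 ≤ B) (he : 0 < e1) :
    ∃ ρ : ℝ, 0 < ρ ∧ ∀ (V : Type) [Fintype V] [DecidableEq V] (K : KK V), K.Good B →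
      ∀ (ℓ : ℕ) (c : ℕ → V), 3 ≤ ℓ → ℓ ≤ L → (∀ i, c (i + ℓ) = c i) →
      (∀ i < ℓ, ∀ j < ℓ, c i = c j → i = j) →
      (∀ i, ENNReal.ofReal e1 ≤ K.esc (cD ℓ c) (c i)) →
      (∃ i, ENNReal.ofReal ρ ≤ K.Pi2 (cD ℓ c) (c i) (c (i + 1))) ∧
      (ℓ ≤ 4 ∨ (∃ j, ENNReal.ofReal ρ ≤ K.Pi2 (cD ℓ c) (c j) (c (j + 2))) ∨
        ∃ j, ENNReal.ofReal ρ ≤ K.Cf (cD ℓ c) (c j) (c (j + 2)) (c (j + 1)) (c (j + 3))) := by
  have hB0 : 0 < B := by linarith
  set δ0 : ℝ := 1 / (68 * B ^ 10 * ((L + 1 : ℕ) : ℝ) ^ 2) with hδ0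
  have hδ0p : 0 < δ0 := by positivity
  set δ1 : ℝ := (Tf B e1)^[L] δ0 with hδ1
  have hδ1p : 0 < δ1 := Tf_iter_pos hB he hδ0p L
  obtain ⟨δ', ρ4, hδ', hρ4, h4⟩ := four_pos B e1 δ1 hB he hδ1p
  refine ⟨min δ1 (min δ' ρ4), lt_min hδ1p (lt_min hδ' hρ4), ?_⟩
  intro V _ _ K hK ℓ c hl hlL hper hinj hesc
  have hl0 : 0 < ℓ := by omega
  have hmem : ∀ i, c i ∈ cD ℓ c := cyc_mem hl0 hper
  have hne : ∀ i j, i < j → j < i + ℓ → c i ≠ c j := fun i j => cyc_ne hl0 hper hinj i j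
  have hcard : (cD ℓ c).card ≤ L + 1 := by
    have : (cD ℓ c).card ≤ ℓ := by
      unfold cD
      exact Finset.card_image_le.trans (by simp)
    omega
  obtain ⟨u, hu, v, hv, huv, hpi⟩ := exists_pair K (L + 1) (by omega) hB hK (cD ℓ c) hcard
    (c 0) (c 1) (hmem 0) (hmem 1) (hne 0 1 (by omega) (by omega))
  -- adjacent pair
  have key : ∀ a b, a < b → b < ℓ → ENNReal.ofReal δ0 ≤ K.Pi2 (cD ℓ c) (c a) (c b) →
      ∃ i, ENNReal.ofReal δ1 ≤ K.Pi2 (cD ℓ c) (c i) (c (i + 1)) := by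
    intro a b hab hbl hp
    by_contra hcon
    push Not at hcon
    have ind : ∀ k, 1 ≤ k → a + k ≤ b →
        K.Pi2 (cD ℓ c) (c a) (c (a + k)) < ENNReal.ofReal ((Tf B e1)^[L - k] δ0) := by
      intro k hk
      induction k, hk using Nat.le_induction with
      | base =>
        intro _
        refine (hcon a).trans_le (ENNReal.ofReal_le_ofReal ?_)
        exact Tf_iter_le _ _ _ _ _ (Nat.sub_le _ _)
      | succ k hk ih =>
        intro hkb
        have ih' := ih (by omega)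
        have hLk : L - k = (L - (k + 1)) + 1 := by omega
        refine tri_small K hB he (Tf_iter_pos hB he hδ0p _) hK (cD ℓ c) (c (a + k)) (c a)
          (c (a + (k + 1))) (hmem _) (hmem _) (hmem _)
          (hne a (a + k) (by omega) (by omega)).symm
          (hne (a + k) (a + (k + 1)) (by omega) (by omega))
          (hne a (a + (k + 1)) (by omega) (by omega)) (hesc _) ?_ ?_
        · rw [K.Pi2_symm, ← Function.iterate_succ_apply' (Tf B e1), Nat.succ_eq_add_one, ← hLk]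
          exact ih'
        · refine (hcon (a + k)).trans_le (ENNReal.ofReal_le_ofReal ?_)
          rw [← Function.iterate_succ_apply' (Tf B e1), Nat.succ_eq_add_one, ← hLk]
          exact Tf_iter_le _ _ _ _ _ (Nat.sub_le _ _)
    have h := ind (b - a) (by omega) (by omega)
    rw [show a + (b - a) = b by omega] at h
    have h5 : (Tf B e1)^[L - (b - a)] δ0 ≤ δ0 := by
      simpa using Tf_iter_le B e1 δ0 0 (L - (b - a)) (Nat.zero_le _)
    exact absurd hp (not_le.2 (h.trans_le (ENNReal.ofReal_le_ofReal h5)))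
  have hadj : ∃ i, ENNReal.ofReal δ1 ≤ K.Pi2 (cD ℓ c) (c i) (c (i + 1)) := by
    obtain ⟨a, ha, rfl⟩ := Finset.mem_image.1 hu
    obtain ⟨b, hb, rfl⟩ := Finset.mem_image.1 hv
    rw [Finset.mem_range] at ha hb
    rcases lt_trichotomy a b with h | h | h
    · exact key a b h hb hpi
    · exact absurd (by rw [h]) huv
    · rw [K.Pi2_symm] at hpi
      exact key b a h ha hpi
  obtain ⟨i, hi⟩ := hadj
  refine ⟨⟨i, (ENNReal.ofReal_le_ofReal (min_le_left _ _)).trans hi⟩, ?_⟩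
  by_cases h4l : ℓ ≤ 4
  · exact Or.inl h4l
  right
  by_cases ha : ENNReal.ofReal δ' ≤ K.Pi2 (cD ℓ c) (c i) (c (i + 2))
  · left
    exact ⟨i, (ENNReal.ofReal_le_ofReal ((min_le_right _ _).trans (min_le_left _ _))).trans ha⟩
  by_cases hb : ENNReal.ofReal δ' ≤ K.Pi2 (cD ℓ c) (c (i + 1)) (c (i + 1 + 2))
  · left
    exact ⟨i + 1, (ENNReal.ofReal_le_ofReal ((min_le_right _ _).trans (min_le_left _ _))).trans hb⟩
  right
  refine ⟨i, (ENNReal.ofReal_le_ofReal ((min_le_right _ _).trans (min_le_right _ _))).trans ?_⟩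
  push Not at ha hb
  exact h4 V K hK (cD ℓ c) (c i) (c (i + 1)) (c (i + 2)) (c (i + 3)) (hmem _) (hmem _) (hmem _)
    (hmem _) (hne _ _ (by omega) (by omega)) (hne _ _ (by omega) (by omega))
    (hne _ _ (by omega) (by omega)) (hne _ _ (by omega) (by omega))
    (hne _ _ (by omega) (by omega)) (hne _ _ (by omega) (by omega)) hi (hesc _) (hesc _)
    ha.le hb.le

end HP192
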