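import Mathlib
import Pool.Agent.Helper192_HP.Defs
import Pool.Agent.Helper192_HP.PDefs
import Pool.Agent.Helper192_HP.CdDef

namespace HP192
open Finset

/-! ### helper lemmas -/

theorem cyc_of_list {V : Type} (G : SimpleGraph V) (h : V) (T : List V) (hnd : (h :: T).Nodup)
    (hlen : 3 ≤ (h :: T).length) (hch : List.IsChain G.Adj ((h :: T) ++ [h])) :
    ∃ c : ℕ → V, Cyc G (h :: T).length c ∧ ∀ i, c i ∈ h :: T := by
  set L := h :: T with hL
  have hpos : 0 < L.length := by omega
  have hget : ∀ r, (hr : r < L.length) → L.getD r h = L[r] := by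
    intro r hr
    simp [List.getD_eq_getElem?_getD, List.getElem?_eq_getElem hr]
  refine ⟨fun j => L.getD (j % L.length) h, ⟨hlen, ?_, ?_, ?_⟩, ?_⟩
  · intro i
    simp
  · intro i hi j hj hij
    simp only [Nat.mod_eq_of_lt hi, Nat.mod_eq_of_lt hj] at hij
    rw [hget i hi, hget j hj] at hij
    exact (hnd.getElem_inj_iff).1 hij
  · intro i
    have hr : i % L.length < L.length := Nat.mod_lt _ hpos
    have key : ∀ r, r < L.length → G.Adj (L.getD r h) (L.getD (r + 1) h) := by
      intro r hr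
      rw [List.isChain_iff_getElem] at hch
      have h1 := hch r (by simp; omega)
      rw [List.getElem_append_left hr] at h1
      rw [hget r hr]
      by_cases h2 : r + 1 < L.length
      · rw [List.getElem_append_left h2] at h1
        rw [hget _ h2]
        exact h1
      · have h3 : r + 1 = L.length := by omega
        rw [List.getElem_append_right (by omega)] at h1
        have h4 : L.getD (r + 1) h = h := by
          rw [List.getD_eq_getElem?_getD, List.getElem?_eq_none (by omega)]
          rfl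
        rw [h4]
        simpa using h1
    have h1 := key _ hr
    by_cases h2 : i % L.length + 1 < L.length
    · have h3 : (i + 1) % L.length = i % L.length + 1 := by
        rw [Nat.add_mod, Nat.mod_eq_of_lt (show 1 < L.length by omega), Nat.mod_eq_of_lt h2]
      show G.Adj (L.getD (i % L.length) h) (L.getD ((i + 1) % L.length) h)
      rw [h3]
      exact h1
    · have h3 : i % L.length + 1 = L.length := by omega
      have h4 : (i + 1) % L.length = 0 := by
        rw [Nat.add_mod, Nat.mod_eq_of_lt (show 1 < L.length by omega), h3, Nat.mod_self]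
      show G.Adj (L.getD (i % L.length) h) (L.getD ((i + 1) % L.length) h)
      rw [h4]
      rw [h3] at h1
      have h5 : L.getD L.length h = h := by
        rw [List.getD_eq_getElem?_getD, List.getElem?_eq_none (by omega)]
        rfl
      have h6 : L.getD 0 h = h := by simp [hL]
      rw [h6]
      rwa [h5] at h1
  · intro i
    have hr : i % L.length < L.length := Nat.mod_lt _ hpos
    show L.getD (i % L.length) h ∈ L
    rw [hget _ hr]
    exact List.getElem_mem _

section cycfacts
variable {V : Type} {G : SimpleGraph V} {ℓ : ℕ} {c : ℕ → V}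

theorem Cyc.mul (h : Cyc G ℓ c) (i n : ℕ) : c (i + ℓ * n) = c i := by
  induction n with
  | zero => simp
  | succ n ih => rw [Nat.mul_succ, ← Nat.add_assoc, h.per, ih]

theorem Cyc.modE (h : Cyc G ℓ c) (i : ℕ) : c (i % ℓ) = c i := by
  conv_rhs => rw [← Nat.mod_add_div i ℓ]
  rw [h.mul]

theorem Cyc.eqmod (h : Cyc G ℓ c) {a b : ℕ} (hab : c a = c b) : a ≡ b [MOD ℓ] := by
  have h3 := h.three
  have ha : a % ℓ < ℓ := Nat.mod_lt _ (by omega)
  have hb : b % ℓ < ℓ := Nat.mod_lt _ (by omega)
  rw [← h.modE a, ← h.modE b] at hab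
  exact h.inj _ ha _ hb hab

/-- two indices in a window of length `ℓ` with the same value are equal -/
theorem Cyc.eqwin (h : Cyc G ℓ c) {i a b : ℕ} (hab : c (i + a) = c (i + b)) (ha : a < b + ℓ)
    (hb : b < a + ℓ) : a = b := by
  have h3 := h.three
  have h1 := h.eqmod hab
  have h2 : a ≡ b [MOD ℓ] := Nat.ModEq.add_left_cancel' i h1
  rcases le_total a b with hle | hle
  · have h4 := (Nat.modEq_iff_dvd' hle).1 h2
    have h5 : b - a = 0 := Nat.eq_zero_of_dvd_of_lt h4 (by omega)
    omega
  · have h4 := (Nat.modEq_iff_dvd' hle).1 h2.symm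
    have h5 : a - b = 0 := Nat.eq_zero_of_dvd_of_lt h4 (by omega)
    omega

variable [DecidableEq V]

theorem Cyc.mem (h : Cyc G ℓ c) (i : ℕ) : c i ∈ cD ℓ c := by
  have h3 := h.three
  rw [← h.modE i]
  exact mem_image.2 ⟨i % ℓ, mem_range.2 (Nat.mod_lt _ (by omega)), rfl⟩

theorem Cyc.mem_iff (h : Cyc G ℓ c) (i : ℕ) (x : V) : x ∈ cD ℓ c ↔ ∃ m < ℓ, x = c (i + m) := by
  constructor
  · intro hx
    obtain ⟨j, hj, rfl⟩ := mem_image.1 hx
    have h3 := h.three
    have hpos : 0 < ℓ := by omega
    refine ⟨(j + (ℓ - i % ℓ)) % ℓ, Nat.mod_lt _ hpos, ?_⟩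
    have hi : i % ℓ < ℓ := Nat.mod_lt _ hpos
    rw [← h.modE (i + _)]
    rw [Nat.add_mod, Nat.mod_mod, ← Nat.add_mod]
    have h1 : (i + (j + (ℓ - i % ℓ))) = j + ℓ * (i / ℓ + 1) := by
      have h2 := Nat.mod_add_div i ℓ
      rw [Nat.mul_add]
      omega
    rw [h1, h.modE, h.mul]
  · rintro ⟨m, _, rfl⟩
    exact h.mem _

theorem Cyc.card (h : Cyc G ℓ c) : (cD ℓ c).card = ℓ := by
  unfold cD
  rw [card_image_of_injOn, card_range]
  intro a ha b hb hab
  exact h.inj a (by simpa using ha) b (by simpa using hb) hab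

end cycfacts

theorem reroute {V : Type} [DecidableEq V] (G : SimpleGraph V) (ℓ : ℕ) (c : ℕ → V)
    (h : Cyc G ℓ c) (i k : ℕ) (hk : 0 < k) (hkl : k < ℓ) (Z : List V) (hZ : Z.Nodup)
    (hZD : ∀ z ∈ Z, z ∉ cD ℓ c) (hch : List.IsChain G.Adj (c i :: (Z ++ [c (i + k)])))
    (hor : Z ≠ [] ∨ k + 2 ≤ ℓ) :
    ∃ (ℓ' : ℕ) (c' : ℕ → V), Cyc G ℓ' c' ∧ (∀ j, c' j ∈ Z ∨ c' j ∈ cD ℓ c) ∧
      ∀ j m, 0 < m → m < k → c' j ≠ c (i + m) := by
  have h3 := h.three
  set A := (List.range (ℓ - k + 1)).map (fun j => c (i + k + j)) with hA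
  have hAc : A = c (i + k) :: ((List.range (ℓ - k)).map (fun j => c (i + k + (j + 1)))) := by
    rw [hA, List.range_succ_eq_map, List.map_cons, List.map_map]
    rfl
  have hAl : A.length = ℓ - k + 1 := by simp [hA]
  have hAmem : ∀ x, x ∈ A ↔ ∃ m, m ≤ ℓ - k ∧ x = c (i + k + m) := by
    intro x
    simp only [hA, List.mem_map, List.mem_range]
    constructor
    · rintro ⟨m, hm, rfl⟩
      exact ⟨m, by omega, rfl⟩
    · rintro ⟨m, hm, rfl⟩
      exact ⟨m, by omega, rfl⟩
  have hAnd : A.Nodup := by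
    rw [hA]
    apply List.Nodup.map_on _ List.nodup_range
    intro a ha b hb hab
    have ha' := List.mem_range.1 ha
    have hb' := List.mem_range.1 hb
    exact h.eqwin hab (by omega) (by omega)
  have hAch : List.IsChain G.Adj A := by
    rw [hA, List.isChain_map, List.isChain_range_succ]
    intro m hm
    have := h.adj (i + k + m)
    exact this
  have hAlast : A.getLast? = some (c i) := by
    rw [hA, List.range_succ, List.map_append]
    simp only [List.map_cons, List.map_nil]
    rw [List.getLast?_append]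
    simp
    rw [show i + k + (ℓ - k) = i + ℓ by omega, h.per]
  have hLnd : (A ++ Z).Nodup := by
    rw [List.nodup_append]
    refine ⟨hAnd, hZ, ?_⟩
    intro a ha b hb hab
    obtain ⟨m, _, rfl⟩ := (hAmem a).1 ha
    apply hZD b hb
    rw [← hab]
    exact h.mem _
  have hLlen : 3 ≤ (A ++ Z).length := by
    rw [List.length_append, hAl]
    rcases hor with h1 | h1
    · have : 0 < Z.length := List.length_pos_iff.2 h1
      omega
    · omega
  rw [List.isChain_cons] at hch
  have hLch : List.IsChain G.Adj ((A ++ Z) ++ [c (i + k)]) := by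
    rw [List.append_assoc, List.isChain_append]
    refine ⟨hAch, hch.2, ?_⟩
    intro x hx y hy
    rw [hAlast] at hx
    have hx' : c i = x := by simpa using hx
    subst hx'
    exact hch.1 y hy
  rw [hAc, List.cons_append] at hLnd hLlen hLch
  obtain ⟨c', hc', hmem⟩ := cyc_of_list G _ _ hLnd hLlen hLch
  rw [← List.cons_append, ← hAc] at hmem
  refine ⟨_, c', hc', ?_, ?_⟩
  · intro j
    rcases List.mem_append.1 (hmem j) with h1 | h1
    · right
      obtain ⟨m, _, h2⟩ := (hAmem _).1 h1
      rw [h2]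
      exact h.mem _
    · left
      exact h1
  · intro j m hm hmk hjm
    rcases List.mem_append.1 (hmem j) with h1 | h1
    · obtain ⟨m', hm', h2⟩ := (hAmem _).1 h1
      rw [h2, Nat.add_assoc] at hjm
      have := h.eqwin hjm (by omega) (by omega)
      omega
    · apply hZD _ h1
      rw [hjm]
      exact h.mem _

theorem connIn_insert {V : Type} [Fintype V] [DecidableEq V] (G : SimpleGraph V) (Γ : Finset V)
    (h : ConnIn G Γ) (a : V) (ha : a ∈ bd G Γ) : ConnIn G (insert a Γ) := by
  unfold bd at ha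
  simp only [mem_filter, mem_univ, true_and] at ha
  obtain ⟨ha1, b, hb, hba⟩ := ha
  have hmono : ∀ x ∈ Γ, ∀ y ∈ Γ,
      Relation.ReflTransGen (fun a' b' => G.Adj a' b' ∧ b' ∈ insert a Γ) x y := by
    intro x hx y hy
    have hle : (fun a b => G.Adj a b ∧ b ∈ Γ) ≤ (fun a' b' => G.Adj a' b' ∧ b' ∈ insert a Γ) :=
      fun p q hpq => ⟨hpq.1, mem_insert_of_mem hpq.2⟩
    exact Relation.ReflTransGen.mono hle x y (h x hx y hy)
  intro x hx y hy
  rcases mem_insert.1 hx with rfl | hx'
  · rcases mem_insert.1 hy with rfl | hy'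
    · exact Relation.ReflTransGen.refl
    · exact Relation.ReflTransGen.head ⟨hba.symm, mem_insert_of_mem hb⟩ (hmono b hb y hy')
  · rcases mem_insert.1 hy with rfl | hy'
    · exact Relation.ReflTransGen.tail (hmono x hx' b hb) ⟨hba, mem_insert_self _ _⟩
    · exact hmono x hx' y hy'

open Classical in
/-- TARGET -/
/- a peripheral cycle whose complement is at least as large as a given connected set `Γ0` avoiding some cycle -/
theorem periph {V : Type} [Fintype V] [DecidableEq V] (G : SimpleGraph V) (hG : G.Connected)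
    (h3 : ∀ A : Finset V, A.Nonempty → (∃ x, x ∉ A ∧ x ∉ bd G A) → 3 ≤ (bd G A).card)
    (hd : ∀ v, 3 ≤ (univ.filter (fun w => G.Adj v w)).card)
    (ℓ0 : ℕ) (c0 : ℕ → V) (h0 : Cyc G ℓ0 c0) (Γ0 : Finset V) (hΓ0 : ConnIn G Γ0)
    (hne : Γ0.Nonempty) (hdis : ∀ i, c0 i ∉ Γ0) :
    ∃ (ℓ : ℕ) (c : ℕ → V), Cyc G ℓ c ∧ ℓ + Γ0.card ≤ Fintype.card V ∧
      (∀ i, ∃ z, G.Adj (c i) z ∧ z ∉ cD ℓ c) ∧ ConnIn G (univ \ cD ℓ c) := by
  classical
  -- a maximal connected set avoiding a cycle
  obtain ⟨Γ, hΓ, hmax⟩ := exists_max_image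
    (univ.filter (fun Γ : Finset V => ConnIn G Γ ∧ Γ0.card ≤ Γ.card ∧
      ∃ (ℓ : ℕ) (c : ℕ → V), Cyc G ℓ c ∧ ∀ i, c i ∉ Γ)) Finset.card
    ⟨Γ0, by
      simp only [mem_filter, mem_univ, true_and]
      exact ⟨hΓ0, le_refl _, ℓ0, c0, h0, hdis⟩⟩
  simp only [mem_filter, mem_univ, true_and] at hΓ hmax
  obtain ⟨hΓc, hΓk, ℓ, c, hc, hav⟩ := hΓ
  have h3l := hc.three
  have hΓne : Γ.Nonempty := by
    rw [← card_pos]
    have := card_pos.2 hne
    omega
  have hgrow : ∀ a ∈ bd G Γ, ∀ (ℓ' : ℕ) (c' : ℕ → V), Cyc G ℓ' c' → (∀ j, c' j ∉ Γ) →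
      (∀ j, c' j ≠ a) → False := by
    intro a ha ℓ' c' hc' h1 h2
    have ha1 : a ∉ Γ := by
      unfold bd at ha
      simp only [mem_filter, mem_univ, true_and] at ha
      exact ha.1
    have h4 := hmax (insert a Γ) ⟨connIn_insert G Γ hΓc a ha, by
      rw [card_insert_of_notMem ha1]; omega, ℓ', c', hc', by
      intro j hj
      rcases mem_insert.1 hj with h5 | h5
      · exact h2 j h5
      · exact h1 j h5⟩
    rw [card_insert_of_notMem ha1] at h4
    omega
  have hbD : ∀ a ∈ bd G Γ, a ∈ cD ℓ c := by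
    intro a ha
    by_contra h1
    exact hgrow a ha ℓ c hc hav (fun j hj => h1 (hj ▸ hc.mem j))
  have hb3 : 3 ≤ (bd G Γ).card := by
    by_cases h1 : ∃ x, x ∉ Γ ∧ x ∉ bd G Γ
    · exact h3 Γ hΓne h1
    · push Not at h1
      have h2 : cD ℓ c ⊆ bd G Γ := by
        intro x hx
        obtain ⟨m, _, rfl⟩ := (hc.mem_iff 0 x).1 hx
        exact h1 _ (hav _)
      have h4 := card_le_card h2
      rw [hc.card] at h4
      omega
  -- no extra path
  have hno : ∀ i k, 0 < k → k < ℓ → ∀ Z : List V, Z.Nodup → (∀ z ∈ Z, z ∉ cD ℓ c ∧ z ∉ Γ) →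
      List.IsChain G.Adj (c i :: (Z ++ [c (i + k)])) → (Z ≠ [] ∨ (2 ≤ k ∧ k + 2 ≤ ℓ)) → False := by
    intro i k hk hkl Z hZ hZD hch hor
    have h1 : (bd G Γ \ {c i, c (i + k)}).Nonempty := by
      rw [← card_pos]
      have h2 := le_card_sdiff {c i, c (i + k)} (bd G Γ)
      have h4 : ({c i, c (i + k)} : Finset V).card ≤ 2 := card_le_two
      omega
    obtain ⟨a, ha⟩ := h1
    rw [mem_sdiff, mem_insert, mem_singleton, not_or] at ha
    obtain ⟨ha1, ha2, ha3⟩ := ha
    obtain ⟨m, hm, ham⟩ := (hc.mem_iff i a).1 (hbD a ha1)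
    have hm0 : m ≠ 0 := by
      rintro rfl
      exact ha2 (by simpa using ham)
    have hmk : m ≠ k := by
      rintro rfl
      exact ha3 ham
    rcases lt_or_gt_of_ne hmk with hlt | hgt
    · obtain ⟨ℓ', c', hc', hin, hne'⟩ := reroute G ℓ c hc i k hk hkl Z hZ (fun z hz => (hZD z hz).1)
        hch (by
          rcases hor with h | h
          · exact Or.inl h
          · exact Or.inr h.2)
      refine hgrow a ha1 ℓ' c' hc' ?_ ?_
      · intro j
        rcases hin j with h5 | h5
        · exact (hZD _ h5).2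
        · obtain ⟨n, _, h6⟩ := (hc.mem_iff 0 _).1 h5
          rw [h6]
          exact hav _
      · intro j hj
        exact hne' j m (Nat.pos_of_ne_zero hm0) hlt (hj.trans ham)
    · have hch' : List.IsChain G.Adj (c (i + k) :: (Z.reverse ++ [c (i + k + (ℓ - k))])) := by
        rw [show i + k + (ℓ - k) = i + ℓ by omega, hc.per]
        have h5 : c (i + k) :: (Z.reverse ++ [c i]) = (c i :: (Z ++ [c (i + k)])).reverse := by
          simp
        rw [h5, List.isChain_reverse]
        exact hch.imp (fun p q hpq => hpq.symm)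
      obtain ⟨ℓ', c', hc', hin, hne'⟩ := reroute G ℓ c hc (i + k) (ℓ - k) (by omega) (by omega)
        Z.reverse (List.nodup_reverse.2 hZ) (fun z hz => (hZD z (List.mem_reverse.1 hz)).1)
        hch' (by
          rcases hor with h | h
          · left
            intro h7
            exact h (List.reverse_eq_nil_iff.1 h7)
          · right
            omega)
      refine hgrow a ha1 ℓ' c' hc' ?_ ?_
      · intro j
        rcases hin j with h5 | h5
        · exact (hZD _ (List.mem_reverse.1 h5)).2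
        · obtain ⟨n, _, h6⟩ := (hc.mem_iff 0 _).1 h5
          rw [h6]
          exact hav _
      · intro j hj
        refine hne' j (m - k) (by omega) (by omega) ?_
        rw [hj, ham]
        congr 1
        omega
  -- everything outside the cycle is in the set
  have hall : ∀ x, x ∉ cD ℓ c → x ∈ Γ := by
    intro q hqD
    by_contra hqΓ
    let H : SimpleGraph V :=
      { Adj := fun x y => G.Adj x y ∧ (x ∉ cD ℓ c ∧ x ∉ Γ) ∧ (y ∉ cD ℓ c ∧ y ∉ Γ)
        symm := ⟨fun x y hxy => ⟨hxy.1.symm, hxy.2.2, hxy.2.1⟩⟩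
        loopless := ⟨fun x hx => G.loopless.irrefl x hx.1⟩ }
    have hHG : H ≤ G := fun x y hxy => hxy.1
    have hsup : ∀ (x y : V) (p : H.Walk x y), (x ∉ cD ℓ c ∧ x ∉ Γ) →
        ∀ z ∈ p.support, z ∉ cD ℓ c ∧ z ∉ Γ := by
      intro x y p
      induction p with
      | nil =>
        intro hx z hz
        rw [SimpleGraph.Walk.support_nil, List.mem_singleton] at hz
        rw [hz]
        exact hx
      | cons hadj p ih =>
        intro hx z hz
        rw [SimpleGraph.Walk.support_cons, List.mem_cons] at hz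
        rcases hz with rfl | hz
        · exact hx
        · exact ih hadj.2.2 z hz
    set Q : Finset V := univ.filter (fun x => H.Reachable q x) with hQ
    have hmQ : ∀ x, x ∈ Q ↔ H.Reachable q x := by
      intro x
      simp [hQ]
    have hQout : ∀ x ∈ Q, x ∉ cD ℓ c ∧ x ∉ Γ := by
      intro x hx
      obtain ⟨p⟩ := (hmQ x).1 hx
      exact hsup q x p ⟨hqD, hqΓ⟩ x p.end_mem_support
    have hbQ : ∀ x ∈ bd G Q, x ∈ cD ℓ c := by
      intro x hx
      by_contra hxD
      unfold bd at hx
      simp only [mem_filter, mem_univ, true_and] at hx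
      obtain ⟨hx1, b, hb, hbx⟩ := hx
      by_cases hxΓ : x ∈ Γ
      · have hbΓ : b ∈ bd G Γ := by
          unfold bd
          simp only [mem_filter, mem_univ, true_and]
          exact ⟨(hQout b hb).2, x, hxΓ, hbx.symm⟩
        exact (hQout b hb).1 (hbD b hbΓ)
      · apply hx1
        rw [hmQ]
        have hadj : H.Adj b x := ⟨hbx, hQout b hb, hxD, hxΓ⟩
        exact ((hmQ b).1 hb).trans hadj.reachable
    have hQ3 : 3 ≤ (bd G Q).card := by
      obtain ⟨g, hg⟩ := hΓne
      have hgD : g ∉ cD ℓ c := by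
        intro h7
        obtain ⟨n, _, h6⟩ := (hc.mem_iff 0 _).1 h7
        rw [h6] at hg
        exact hav _ hg
      exact h3 Q ⟨q, (hmQ q).2 (SimpleGraph.Reachable.refl q)⟩
        ⟨g, fun h7 => (hQout g h7).2 hg, fun h7 => hgD (hbQ g h7)⟩
    obtain ⟨s, hs, t, ht, hst⟩ := one_lt_card.1 (show 1 < (bd G Q).card by omega)
    obtain ⟨i, _, hsi⟩ := (hc.mem_iff 0 s).1 (hbQ s hs)
    rw [Nat.zero_add] at hsi
    obtain ⟨k, hk, htk⟩ := (hc.mem_iff i t).1 (hbQ t ht)
    have hk0 : 0 < k := by
      rcases Nat.eq_zero_or_pos k with rfl | h7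
      · exact absurd (hsi.trans (by simpa using htk.symm)) hst
      · exact h7
    unfold bd at hs ht
    simp only [mem_filter, mem_univ, true_and] at hs ht
    obtain ⟨_, a, haQ, has⟩ := hs
    obtain ⟨_, b, hbQ', hbt⟩ := ht
    have hab : H.Reachable a b := ((hmQ a).1 haQ).symm.trans ((hmQ b).1 hbQ')
    obtain ⟨p, hp⟩ := hab.exists_isPath
    have hw := SimpleGraph.Walk.isChain_adj_support
      (SimpleGraph.Walk.cons has.symm ((p.mapLe hHG).concat hbt))
    rw [SimpleGraph.Walk.support_cons, SimpleGraph.Walk.support_concat,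
      SimpleGraph.Walk.support_mapLe_eq_support] at hw
    refine hno i k hk0 hk p.support hp.support_nodup (hsup a b p (hQout a haQ)) ?_
      (Or.inl (SimpleGraph.Walk.support_ne_nil p))
    rw [← hsi, ← htk]
    simpa using hw
  have hsd : univ \ cD ℓ c = Γ := by
    ext x
    simp only [mem_sdiff, mem_univ, true_and]
    constructor
    · exact hall x
    · intro hx h7
      obtain ⟨n, _, h6⟩ := (hc.mem_iff 0 _).1 h7
      rw [h6] at hx
      exact hav _ hx
  refine ⟨ℓ, c, hc, ?_, ?_, ?_⟩
  · have h5 : (univ \ cD ℓ c).card = Fintype.card V - ℓ := by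
      rw [card_sdiff_of_subset (subset_univ _), hc.card, card_univ]
    have h6 : ℓ ≤ Fintype.card V := by
      rw [← hc.card]
      exact card_le_univ _
    rw [hsd] at h5
    omega
  · intro i
    by_contra h7
    push Not at h7
    have hsub : univ.filter (fun w => G.Adj (c i) w) ⊆ {c (i + 1), c (i + (ℓ - 1))} := by
      intro w hw
      simp only [mem_filter, mem_univ, true_and] at hw
      obtain ⟨k, hk, hwk⟩ := (hc.mem_iff i w).1 (h7 w hw)
      have hk0 : k ≠ 0 := by
        rintro rfl
        rw [Nat.add_zero] at hwk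
        rw [hwk] at hw
        exact G.loopless.irrefl _ hw
      by_cases hk1 : k = 1
      · rw [hwk, hk1]
        exact mem_insert_self _ _
      · by_cases hk2 : k = ℓ - 1
        · rw [hwk, hk2]
          exact mem_insert_of_mem (mem_singleton_self _)
        · exfalso
          refine hno i k (by omega) hk [] List.nodup_nil (by simp) ?_ (Or.inr ⟨by omega, by omega⟩)
          rw [List.nil_append, ← hwk]
          simpa using hw
    have h8 := card_le_card hsub
    have h9 := hd (c i)
    have h10 : ({c (i + 1), c (i + (ℓ - 1))} : Finset V).card ≤ 2 := card_le_two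
    have h11 : (univ.filter (fun w => G.Adj (c i) w)).card ≤ 2 := h8.trans h10
    convert absurd h9 (by
      push Not
      refine lt_of_le_of_lt ?_ (show 2 < 3 by norm_num)
      convert h11) using 1
  · rw [hsd]
    exact hΓc

end HP192
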