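import Mathlib
import Pool.Agent.Helper192_HP.Defs
import Pool.Agent.Helper192_HP.PDefs

namespace HP192
open Finset

open Classical in
/-- TARGET -/
/- a giant component after removing a small set -/
theorem giant {V : Type} [Fintype V] [DecidableEq V] (G : SimpleGraph V) (C : Finset V) (m : ℕ)
    (hiso : ∀ X : Finset V, 2 * X.card ≤ Fintype.card V → (∀ x ∈ X, ∀ y, G.Adj x y → y ∈ X ∨ y ∈ C) →
      X.card ≤ m) (hn : 4 * m + 2 * C.card + 1 ≤ Fintype.card V) :
    ∃ Γ : Finset V, Γ.Nonempty ∧ ConnIn G Γ ∧ Disjoint Γ C ∧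
      Fintype.card V ≤ Γ.card + C.card + m := by
  -- closed sets
  let Cl : Finset V → Prop := fun X => Disjoint X C ∧ ∀ x ∈ X, ∀ y, G.Adj x y → y ∈ X ∨ y ∈ C
  let R : V → V → Prop := fun a b => G.Adj a b ∧ b ∉ C
  have hsymR : ∀ x y, x ∉ C → Relation.ReflTransGen R x y → y ∉ C ∧ Relation.ReflTransGen R y x := by
    intro x y hx h
    induction h with
    | refl => exact ⟨hx, Relation.ReflTransGen.refl⟩
    | tail _ hbc ih =>
      obtain ⟨hb, hbx⟩ := ih
      exact ⟨hbc.2, Relation.ReflTransGen.head ⟨hbc.1.symm, hb⟩ hbx⟩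
  have hclosed_reach : ∀ X, Cl X → ∀ x ∈ X, ∀ y, Relation.ReflTransGen R x y → y ∈ X := by
    intro X hX x hx y h
    induction h with
    | refl => exact hx
    | tail _ hbc ih =>
      rcases hX.2 _ ih _ hbc.1 with h1 | h1
      · exact h1
      · exact absurd h1 hbc.2
  have hex : ∃ X : Finset V, (Cl X ∧ 2 * X.card ≤ Fintype.card V) ∧
      ∀ Y : Finset V, (Cl Y ∧ 2 * Y.card ≤ Fintype.card V) → Y.card ≤ X.card := by
    let F : Finset (Finset V) := Finset.univ.filter (fun X => Cl X ∧ 2 * X.card ≤ Fintype.card V)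
    have hne : F.Nonempty := ⟨∅, by
      simp only [F, Finset.mem_filter, Finset.mem_univ, true_and]
      refine ⟨⟨Finset.disjoint_empty_left C, ?_⟩, by simp⟩
      intro x hx
      simp at hx⟩
    obtain ⟨X, hX, hmax⟩ := Finset.exists_max_image F Finset.card hne
    refine ⟨X, (Finset.mem_filter.1 hX).2, ?_⟩
    intro Y hY
    exact hmax Y (Finset.mem_filter.2 ⟨Finset.mem_univ _, hY⟩)
  obtain ⟨X, ⟨hXcl, hX2⟩, hmax⟩ := hex
  have hXm : X.card ≤ m := hiso X hX2 hXcl.2
  have hu : ∃ u, u ∉ X ∧ u ∉ C := by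
    by_contra hcon
    have h1 : (Finset.univ : Finset V) ⊆ X ∪ C := by
      intro x _
      rw [Finset.mem_union]
      by_contra h2
      exact hcon ⟨x, fun h => h2 (Or.inl h), fun h => h2 (Or.inr h)⟩
    have h2 := Finset.card_le_card h1
    have h3 := Finset.card_union_le X C
    rw [Finset.card_univ] at h2
    omega
  obtain ⟨u, huX, huC⟩ := hu
  let Γ : Finset V := Finset.univ.filter (fun y => Relation.ReflTransGen R u y)
  have hΓmem : ∀ y, y ∈ Γ ↔ Relation.ReflTransGen R u y := by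
    intro y; simp [Γ]
  have hΓcl : Cl Γ := by
    refine ⟨?_, ?_⟩
    · rw [Finset.disjoint_left]
      intro y hy
      exact (hsymR u y huC ((hΓmem y).1 hy)).1
    · intro x hx y hxy
      by_cases hyC : y ∈ C
      · exact Or.inr hyC
      · exact Or.inl ((hΓmem y).2 (((hΓmem x).1 hx).tail ⟨hxy, hyC⟩))
  have hΓX : Disjoint X Γ := by
    rw [Finset.disjoint_left]
    intro y hyX hyΓ
    exact huX (hclosed_reach X hXcl y hyX u (hsymR u y huC ((hΓmem y).1 hyΓ)).2)
  have huΓ : u ∈ Γ := (hΓmem u).2 Relation.ReflTransGen.refl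
  have hbig : Fintype.card V < 2 * Γ.card := by
    by_contra hcon
    have hle : 2 * Γ.card ≤ Fintype.card V := not_lt.1 hcon
    have hΓm : Γ.card ≤ m := hiso Γ hle hΓcl.2
    have hUcl : Cl (X ∪ Γ) := by
      refine ⟨Finset.disjoint_union_left.2 ⟨hXcl.1, hΓcl.1⟩, ?_⟩
      intro x hx y hxy
      rcases Finset.mem_union.1 hx with h1 | h1
      · rcases hXcl.2 x h1 y hxy with h2 | h2
        · exact Or.inl (Finset.mem_union_left _ h2)
        · exact Or.inr h2
      · rcases hΓcl.2 x h1 y hxy with h2 | h2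
        · exact Or.inl (Finset.mem_union_right _ h2)
        · exact Or.inr h2
    have hcard : (X ∪ Γ).card = X.card + Γ.card := Finset.card_union_of_disjoint hΓX
    have h1 := hmax (X ∪ Γ) ⟨hUcl, by rw [hcard]; omega⟩
    have h2 : 0 < Γ.card := Finset.card_pos.2 ⟨u, huΓ⟩
    rw [hcard] at h1
    omega
  have hX' : (Finset.univ \ (C ∪ Γ)).card ≤ m := by
    apply hiso
    · have h1 := Finset.card_sdiff_add_card_eq_card (Finset.subset_univ (C ∪ Γ))
      have h2 : Γ.card ≤ (C ∪ Γ).card := Finset.card_le_card Finset.subset_union_right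
      rw [Finset.card_univ] at h1
      omega
    · intro x hx y hxy
      by_cases hyC : y ∈ C
      · exact Or.inr hyC
      · left
        rw [Finset.mem_sdiff, Finset.mem_union]
        refine ⟨Finset.mem_univ _, ?_⟩
        rintro (h | h)
        · exact hyC h
        · rw [Finset.mem_sdiff, Finset.mem_union] at hx
          rcases hΓcl.2 y h x hxy.symm with h3 | h3
          · exact hx.2 (Or.inr h3)
          · exact hx.2 (Or.inl h3)
  refine ⟨Γ, ⟨u, huΓ⟩, ?_, hΓcl.1, ?_⟩
  · intro x hx y hy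
    have hxC : x ∉ C := (hsymR u x huC ((hΓmem x).1 hx)).1
    have hxy : Relation.ReflTransGen R x y :=
      (hsymR u x huC ((hΓmem x).1 hx)).2.trans ((hΓmem y).1 hy)
    have key : ∀ z, Relation.ReflTransGen R x z →
        z ∈ Γ ∧ Relation.ReflTransGen (fun a b => G.Adj a b ∧ b ∈ Γ) x z := by
      intro z h
      induction h with
      | refl => exact ⟨hx, Relation.ReflTransGen.refl⟩
      | tail _ hbc ih =>
        obtain ⟨h1, h2⟩ := ih
        have h3 := (hΓmem _).2 (((hΓmem _).1 h1).tail hbc)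
        exact ⟨h3, h2.tail ⟨hbc.1, h3⟩⟩
    exact (key y hxy).2
  · have h1 := Finset.card_sdiff_add_card_eq_card (Finset.subset_univ (C ∪ Γ))
    rw [Finset.card_univ] at h1
    have h3 := Finset.card_union_le C Γ
    omega

end HP192
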