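import Mathlib
import Pool.Agent.Helper192_HP.K02
import Pool.Agent.Helper192_HP.KDefs
import Pool.Agent.Helper192_HP.K01

namespace HP192
open Finset

namespace KK
variable {V : Type} [Fintype V] [DecidableEq V] (K : KK V)

theorem p21_ind_le_one (p : Prop) : ind p ≤ 1 := by
  unfold ind; split_ifs <;> simp

theorem p21_hit (x : V) (C : Finset V) :
    K.E x (fun w => ind (∃ y ∈ w ++ [x], y ∈ C)) ≤ ∑ c ∈ C, K.G x c := by
  have h1 : K.E x (fun w => ind (∃ y ∈ w ++ [x], y ∈ C))
      ≤ K.E x (fun w => ∑ i ∈ range (w.length + 1),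
        (fun (_ : List V) (w1 : List V) => ind (tip x w1 ∈ C)) (w.take i) (w.drop i)) := by
    refine K.E_mono x _ _ fun w => ?_
    by_cases h : ∃ y ∈ w ++ [x], y ∈ C
    · obtain ⟨y, hy, hyC⟩ := h
      have hone : ind (∃ y ∈ w ++ [x], y ∈ C) = 1 := by
        unfold ind; rw [if_pos ⟨y, hy, hyC⟩]
      rw [hone]
      obtain ⟨i, hi, hti⟩ : ∃ i ∈ range (w.length + 1), tip x (w.drop i) = y := by
        rcases List.mem_append.1 hy with hy | hy
        · obtain ⟨i, hi, hiy⟩ := List.getElem_of_mem hy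
          refine ⟨i, by simp; omega, ?_⟩
          rw [List.drop_eq_getElem_cons hi]
          exact hiy
        · refine ⟨w.length, by simp, ?_⟩
          simp only [List.mem_singleton] at hy
          simp [tip, hy]
      calc (1 : ENNReal) = ind (tip x (w.drop i) ∈ C) := by
            unfold ind; rw [if_pos (by rw [hti]; exact hyC)]
        _ ≤ _ := Finset.single_le_sum (f := fun i => ind (tip x (w.drop i) ∈ C))
              (fun _ _ => bot_le) hi
    · have h0 : ind (∃ y ∈ w ++ [x], y ∈ C) = 0 := by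
        unfold ind; rw [if_neg h]
      rw [h0]
      exact bot_le
  refine h1.trans ((K.E_split x (fun (_ : List V) (w1 : List V) => ind (tip x w1 ∈ C))).le.trans ?_)
  have h2 : ∑' w1, K.wt x w1 * K.E (tip x w1) (fun _ => ind (tip x w1 ∈ C))
      = ∑ z, K.G x z * ind (z ∈ C) := by
    rw [← K.G_sum x (fun z => ind (z ∈ C))]
    refine tsum_congr fun w1 => ?_
    rw [K.E_const]
  refine h2.le.trans ?_
  have : ∀ z, K.G x z * ind (z ∈ C) = if z ∈ C then K.G x z else 0 := by
    intro z
    unfold ind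
    split_ifs <;> simp
  simp only [this]
  rw [Finset.sum_ite_mem]
  simp

theorem p21_card (B : ℝ) (hB : K.Good B) (X C : Finset V) (a : ℝ) (ha : 0 ≤ a)
    (h : ∀ x ∈ X, ENNReal.ofReal a ≤ ∑ c ∈ C, K.G x c) :
    (X.card : ℝ) * a ^ 2 ≤ (C.card : ℝ) ^ 2 * B := by
  have hB0 : 0 ≤ B := zero_le_one.trans hB.B1
  have hfin : ∀ x y, K.G x y ≠ ⊤ := fun x y =>
    ((K.G_le B hB x y).trans_lt ENNReal.ofReal_lt_top).ne
  set g : V → V → ℝ := fun x y => (K.G x y).toReal with hg
  have hg0 : ∀ x y, 0 ≤ g x y := fun x y => ENNReal.toReal_nonneg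
  have hG : ∀ x y, K.G x y = ENNReal.ofReal (g x y) := fun x y =>
    (ENNReal.ofReal_toReal (hfin x y)).symm
  have h2 : ∀ x, ∑ z, g x z ^ 2 ≤ B := by
    intro x
    have h1 := hB.G2 x
    have h3 : ∑ z, K.G x z * K.G x z = ENNReal.ofReal (∑ z, g x z ^ 2) := by
      rw [ENNReal.ofReal_sum_of_nonneg fun z _ => by positivity]
      refine Finset.sum_congr rfl fun z _ => ?_
      rw [hG, ← ENNReal.ofReal_mul (hg0 x z), sq]
    rw [h3] at h1
    exact (ENNReal.ofReal_le_ofReal_iff hB0).1 h1
  have h4 : ∀ x ∈ X, a ≤ ∑ c ∈ C, g x c := by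
    intro x hx
    have h1 := h x hx
    have h3 : ∑ c ∈ C, K.G x c = ENNReal.ofReal (∑ c ∈ C, g x c) := by
      rw [ENNReal.ofReal_sum_of_nonneg fun z _ => hg0 x z]
      exact Finset.sum_congr rfl fun z _ => hG x z
    rw [h3] at h1
    exact (ENNReal.ofReal_le_ofReal_iff (Finset.sum_nonneg fun z _ => hg0 x z)).1 h1
  calc (X.card : ℝ) * a ^ 2 = ∑ x ∈ X, a ^ 2 := by rw [Finset.sum_const, nsmul_eq_mul]
    _ ≤ ∑ x ∈ X, (C.card : ℝ) * ∑ c ∈ C, g x c ^ 2 := by
        refine Finset.sum_le_sum fun x hx => ?_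
        exact (pow_le_pow_left₀ ha (h4 x hx) 2).trans sq_sum_le_card_mul_sum_sq
    _ = (C.card : ℝ) * ∑ c ∈ C, ∑ x ∈ X, g c x ^ 2 := by
        rw [← Finset.mul_sum, Finset.sum_comm]
        congr 1
        refine Finset.sum_congr rfl fun c _ => Finset.sum_congr rfl fun x _ => ?_
        simp only [hg, K.G_symm x c]
    _ ≤ (C.card : ℝ) * ∑ c ∈ C, B := by
        refine mul_le_mul_of_nonneg_left ?_ (Nat.cast_nonneg _)
        refine Finset.sum_le_sum fun c _ => ?_
        refine le_trans ?_ (h2 c)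
        exact Finset.sum_le_sum_of_subset_of_nonneg (Finset.subset_univ _)
          fun _ _ _ => by positivity
    _ = (C.card : ℝ) ^ 2 * B := by
        rw [Finset.sum_const, nsmul_eq_mul]; ring

theorem p21_leave (X C : Finset V)
    (hN : ∀ x ∈ X, ∀ y, K.Q x y ≠ 0 → y ∈ X ∨ y ∈ C) (x : V) (hx : x ∈ X) :
    ∀ w : List V, K.wt x w ≠ 0 → tip x w ∉ X → ∃ y ∈ w, y ∈ C := by
  intro w
  induction w with
  | nil =>
    intro _ h
    exact absurd (by simpa [tip] using hx) h
  | cons y w ih =>
    intro hw hy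
    have hy' : y ∉ X := by simpa [tip] using hy
    have hw' : K.Q (tip x w) y * K.wt x w ≠ 0 := hw
    have h1 : K.Q (tip x w) y ≠ 0 := left_ne_zero_of_mul hw'
    have h2 : K.wt x w ≠ 0 := right_ne_zero_of_mul hw'
    by_cases h : tip x w ∈ X
    · rcases hN _ h y h1 with h3 | h3
      · exact absurd h3 hy'
      · exact ⟨y, by simp, h3⟩
    · obtain ⟨y', hy1, hy2⟩ := ih h2 h
      exact ⟨y', by simp [hy1], hy2⟩

/-- a set of at most half of the vertices with small boundary is small -/
theorem iso_bound (B : ℝ) (hB : K.Good B)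
    (hmix : ∀ (x : V) (X : Finset V), 2 * X.card ≤ Fintype.card V →
      K.E x (fun w => ind (tip x w ∈ X)) ≤ ENNReal.ofReal (7 / 8))
    (X C : Finset V) (hX : 2 * X.card ≤ Fintype.card V)
    (hN : ∀ x ∈ X, ∀ y, K.Q x y ≠ 0 → y ∈ X ∨ y ∈ C) :
    (X.card : ℝ) ≤ 64 * (C.card : ℝ) ^ 2 * B := by
  have key := K.p21_card B hB X C (1 / 8) (by norm_num) ?_
  · linarith
  · intro x hx
    refine le_trans ?_ (K.p21_hit x C)
    have h1 : (1 : ENNReal) = K.E x (fun w => ind (tip x w ∈ X)) + K.E x (fun w => ind (tip x w ∉ X)) := by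
      rw [← K.E_add, ← K.E_const x 1]
      congr 1
      funext w
      unfold ind
      by_cases h : tip x w ∈ X <;> simp [h]
    have h2 : K.E x (fun w => ind (tip x w ∉ X)) ≤ K.E x (fun w => ind (∃ y ∈ w ++ [x], y ∈ C)) := by
      unfold E
      refine mul_le_mul_right ?_ _
      refine ENNReal.tsum_le_tsum fun w => ?_
      by_cases hw : K.wt x w = 0
      · rw [hw]; simp
      · refine mul_le_mul_right ?_ _
        beta_reduce
        by_cases h : tip x w ∉ X
        · obtain ⟨y, hy, hyC⟩ := K.p21_leave X C hN x hx w hw h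
          have : ind (∃ y ∈ w ++ [x], y ∈ C) = 1 := by
            unfold ind; rw [if_pos ⟨y, by simp [hy], hyC⟩]
          rw [this]; exact p21_ind_le_one _
        · have : ind (tip x w ∉ X) = 0 := by unfold ind; rw [if_neg h]
          rw [this]; exact bot_le
    refine le_trans ?_ h2
    have h3 : (1 : ENNReal) ≤ ENNReal.ofReal (7 / 8) + K.E x (fun w => ind (tip x w ∉ X)) := by
      calc (1 : ENNReal) = _ := h1
        _ ≤ _ := by gcongr; exact hmix x X hX
    have h4 : (1 : ENNReal) = ENNReal.ofReal (7 / 8) + ENNReal.ofReal (1 / 8) := by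
      rw [← ENNReal.ofReal_add (by norm_num) (by norm_num)]
      norm_num
    rw [h4] at h3
    exact (ENNReal.add_le_add_iff_left ENNReal.ofReal_ne_top).1 h3

/-- a vertex of `D` from which one can step into the connected complement of `D` escapes -/
theorem esc_low (B : ℝ) (hB : K.Good B) (D : Finset V) (adj : V → V → Prop)
    (pm : ℝ) (hpm : 0 < pm) (hpm1 : pm ≤ 1) (hadj : ∀ x y, adj x y → ENNReal.ofReal pm ≤ K.Q x y) (N : ℕ)
    (hN : 4 * (D.card : ℝ) ^ 2 * B ≤ N) (hn : N < Fintype.card V) (t z : V) (ht : t ∈ D)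
    (htz : adj t z) (hz : z ∉ D)
    (hconn : ∀ y, y ∉ D → Relation.ReflTransGen (fun a b => adj a b ∧ b ∉ D) z y) :
    ENNReal.ofReal (pm ^ (N + 1) / 2) ≤ K.esc D t := by
  classical
  set W : Finset V := univ.filter (fun w0 => ENNReal.ofReal (1 / 2) <
    K.E w0 (fun w => ind (∃ y ∈ w ++ [w0], y ∈ D))) with hW
  have hWN : (W.card : ℝ) ≤ N := by
    have h1 := K.p21_card B hB W D (1 / 2) (by norm_num) (fun x hx => by
      simp only [hW, mem_filter, mem_univ, true_and] at hx
      exact hx.le.trans (K.p21_hit x D))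
    nlinarith
  have hWN' : W.card ≤ N := by exact_mod_cast hWN
  -- outside `W`
  have hout : ∀ w0, w0 ∉ W → ENNReal.ofReal (1 / 2) ≤ K.E w0 (fun w => ind (Av D w)) := by
    intro w0 hw0
    have h1 : K.E w0 (fun w => ind (∃ y ∈ w ++ [w0], y ∈ D)) ≤ ENNReal.ofReal (1 / 2) := by
      by_contra h
      exact hw0 (by simp only [hW, mem_filter, mem_univ, true_and]; exact not_le.1 h)
    have h2 : (1 : ENNReal) ≤ K.E w0 (fun w => ind (∃ y ∈ w ++ [w0], y ∈ D))
        + K.E w0 (fun w => ind (Av D w)) := by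
      rw [← K.E_add]
      calc (1 : ENNReal) = K.E w0 (fun _ => 1) := (K.E_const w0 1).symm
        _ ≤ _ := by
          refine K.E_mono w0 _ _ fun w => ?_
          beta_reduce
          by_cases h : Av D w
          · have : ind (Av D w) = 1 := by unfold ind; rw [if_pos h]
            rw [this]; exact le_add_self
          · have h' : ∃ y ∈ w ++ [w0], y ∈ D := by
              unfold Av at h
              push Not at h
              obtain ⟨y, hy, hyD⟩ := h
              exact ⟨y, by simp [hy], hyD⟩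
            have : ind (∃ y ∈ w ++ [w0], y ∈ D) = 1 := by unfold ind; rw [if_pos h']
            rw [this]; exact le_self_add
    have h4 : (1 : ENNReal) = ENNReal.ofReal (1 / 2) + ENNReal.ofReal (1 / 2) := by
      rw [← ENNReal.ofReal_add (by norm_num) (by norm_num)]
      norm_num
    have h5 : ENNReal.ofReal (1 / 2) + ENNReal.ofReal (1 / 2)
        ≤ ENNReal.ofReal (1 / 2) + K.E w0 (fun w => ind (Av D w)) := by
      rw [← h4]
      exact h2.trans (by gcongr)
    exact (ENNReal.add_le_add_iff_left ENNReal.ofReal_ne_top).1 h5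
  have hDW : ∀ w0, w0 ∉ W → w0 ∉ D := by
    intro w0 hw0 hD
    refine hw0 ?_
    simp only [hW, mem_filter, mem_univ, true_and]
    have : (fun w : List V => ind (∃ y ∈ w ++ [w0], y ∈ D)) = fun _ => 1 := by
      funext w
      unfold ind; rw [if_pos ⟨w0, by simp, hD⟩]
    rw [this, K.E_const]
    rw [← ENNReal.ofReal_one]
    exact (ENNReal.ofReal_lt_ofReal_iff (by norm_num)).2 (by norm_num)
  obtain ⟨w0, hw0⟩ : ∃ w0, w0 ∉ W := by
    by_contra h
    push Not at h
    have : W = univ := by ext v; simp [h v]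
    rw [this, Finset.card_univ] at hWN'
    omega
  -- chains
  have hchain : ∀ y, Relation.ReflTransGen (fun a b => adj a b ∧ b ∉ D) z y →
      ∃ (m : ℕ) (f : ℕ → V), f 0 = z ∧ (∀ i < m, adj (f i) (f (i + 1)) ∧ f (i + 1) ∉ D) ∧ f m = y := by
    intro y hy
    induction hy with
    | refl => exact ⟨0, fun _ => z, rfl, by simp, rfl⟩
    | @tail b c _ hbc ih =>
      obtain ⟨m, f, h0, h1, h2⟩ := ih
      refine ⟨m + 1, fun i => if i ≤ m then f i else c, by simp [h0], ?_, by simp⟩
      intro i hi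
      by_cases him : i < m
      · have e1 : i ≤ m := by omega
        have e2 : i + 1 ≤ m := by omega
        simp only [e1, e2, if_true]
        exact h1 i him
      · have e0 : i = m := by omega
        subst e0
        simp only [le_refl, if_true]
        rw [if_neg (by omega), h2]
        exact hbc
  have hex : ∃ m : ℕ, ∃ f : ℕ → V, f 0 = z ∧
      (∀ i < m, adj (f i) (f (i + 1)) ∧ f (i + 1) ∉ D) ∧ f m ∉ W := by
    obtain ⟨m, f, h0, h1, h2⟩ := hchain w0 (hconn w0 (hDW w0 hw0))
    exact ⟨m, f, h0, h1, by rw [h2]; exact hw0⟩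
  set m := Nat.find hex with hm
  obtain ⟨f, hf0, hf1, hf2⟩ := Nat.find_spec hex
  rw [← hm] at hf1 hf2
  have hmin : ∀ m' < m, ¬ ∃ f : ℕ → V, f 0 = z ∧
      (∀ i < m', adj (f i) (f (i + 1)) ∧ f (i + 1) ∉ D) ∧ f m' ∉ W := fun m' h =>
    Nat.find_min hex h
  have hfW : ∀ i < m, f i ∈ W := by
    intro i hi
    by_contra h
    exact hmin i hi ⟨f, hf0, fun j hj => hf1 j (by omega), h⟩
  have hinj : ∀ i < m, ∀ j < m, i < j → f i ≠ f j := by
    intro i hi j hj hij he
    refine hmin (m - (j - i)) (by omega) ⟨fun k => if k ≤ i then f k else f (k + (j - i)), ?_, ?_, ?_⟩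
    · simp [hf0]
    · intro k hk
      by_cases h1 : k + 1 ≤ i
      · have h2 : k ≤ i := by omega
        simp only [h1, h2, if_true]
        exact hf1 k (by omega)
      · by_cases h2 : k ≤ i
        · have h3 : k = i := by omega
          subst h3
          simp only [le_refl, if_true]
          rw [if_neg (by omega), he]
          have e1 : k + 1 + (j - k) = j + 1 := by omega
          rw [e1]
          exact hf1 j hj
        · beta_reduce
          rw [if_neg h2, if_neg (by omega)]
          have e1 : k + 1 + (j - i) = (k + (j - i)) + 1 := by omega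
          rw [e1]
          exact hf1 _ (by omega)
    · have h1 : ¬ (m - (j - i) ≤ i) := by omega
      simp only [h1, if_false]
      have e1 : m - (j - i) + (j - i) = m := by omega
      rw [e1]
      exact hf2
  have hmW : m ≤ W.card := by
    have h1 : ((range m).image f).card = m := by
      rw [Finset.card_image_of_injOn, Finset.card_range]
      intro i hi j hj hij
      simp only [coe_range, Set.mem_Iio] at hi hj
      rcases lt_trichotomy i j with h | h | h
      · exact absurd hij (hinj i hi j hj h)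
      · exact h
      · exact absurd hij.symm (hinj j hj i hi h)
    rw [← h1]
    refine Finset.card_le_card fun v hv => ?_
    obtain ⟨i, hi, rfl⟩ := Finset.mem_image.1 hv
    exact hfW i (Finset.mem_range.1 hi)
  have hmN : m ≤ N := hmW.trans hWN'
  -- one step
  have hstep : ∀ (a b : V) (q : ℝ), 0 ≤ q → adj a b → b ∉ D →
      ENNReal.ofReal q ≤ K.E b (fun w => ind (Av D w)) →
      ENNReal.ofReal (pm * q) ≤ K.E a (fun w => ind (Av D w)) := by
    intro a b q hq hab hb h
    rw [K.E_first a (fun w => ind (Av D w))]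
    have h1 : (fun w : List V => ind (Av D (w ++ [b]))) = fun w => ind (Av D w) := by
      funext w
      unfold ind Av
      simp [hb, or_imp, forall_and]
    have h2 : K.Q a b * K.E b (fun w => ind (Av D (w ++ [b]))) ≤
        ∑ y, K.Q a y * K.E y (fun w => ind (Av D (w ++ [y]))) :=
      Finset.single_le_sum (f := fun y => K.Q a y * K.E y (fun w => ind (Av D (w ++ [y]))))
        (fun _ _ => bot_le) (Finset.mem_univ b)
    refine le_trans ?_ (h2.trans le_add_self)
    rw [h1, ENNReal.ofReal_mul hpm.le]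
    exact mul_le_mul' (hadj a b hab) h
  have hback : ∀ k ≤ m, ENNReal.ofReal (pm ^ k * (1 / 2)) ≤ K.E (f (m - k)) (fun w => ind (Av D w)) := by
    intro k
    induction k with
    | zero => intro _; simpa using hout _ hf2
    | succ k ih =>
      intro hk
      have h1 := ih (by omega)
      have h2 := hf1 (m - (k + 1)) (by omega)
      have e1 : m - (k + 1) + 1 = m - k := by omega
      rw [e1] at h2
      have h3 := hstep _ _ (pm ^ k * (1 / 2)) (by positivity) h2.1 h2.2 h1
      have e2 : pm ^ (k + 1) * (1 / 2) = pm * (pm ^ k * (1 / 2)) := by ring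
      rw [e2]
      exact h3
  have h1 := hback m le_rfl
  rw [Nat.sub_self, hf0] at h1
  have h2 := hstep t z _ (by positivity) htz hz h1
  unfold esc
  refine le_trans (ENNReal.ofReal_le_ofReal ?_) h2
  have h3 : pm ^ (N + 1) ≤ pm ^ (m + 1) := pow_le_pow_of_le_one hpm.le hpm1 (by omega)
  calc pm ^ (N + 1) / 2 ≤ pm ^ (m + 1) / 2 := by linarith
    _ = pm * (pm ^ m * (1 / 2)) := by ring

end KK
end HP192
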