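import Mathlib
import Pool.Agent.Helper192_HP.Defs
import Pool.Agent.Helper192_HP.WDefs
import Pool.Agent.Helper192_HP.Basic
import Pool.Agent.Helper192_HP.W01
import Pool.Agent.Helper192_HP.W02
import Pool.Agent.Helper192_HP.KDefs
import Pool.Agent.Helper192_HP.KLink
import Pool.Agent.Helper192_HP.CdDef
import Pool.Agent.Helper192_HP.PDefs
import Pool.Agent.Helper192_HP.ZDefs
import Pool.Agent.Helper192_HP.L02
import Pool.Agent.Helper192_HP.P21
import Pool.Agent.Helper192_HP.P11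
import Pool.Agent.Helper192_HP.P12
import Pool.Agent.Helper192_HP.P13

namespace HP192
open Finset

/-- TARGET -/
/- a short cycle from every vertex of which the killed walk escapes -/
theorem per_cyc (Θ : ℝ) (d1 L : ℕ) (hΘ : 1 ≤ Θ) :
    ∃ (L1 N1 : ℕ) (e1 : ℝ), 0 < e1 ∧ ∀ (V : Type) [Fintype V] [DecidableEq V] (G : SimpleGraph V)
      (K : Ker V) (d : ℕ) (o : V) (m0 : ℕ), IsK G K d o Θ m0 → 3 ≤ d → d ≤ d1 →
      N1 ≤ Fintype.card V → ∀ (lam : ℝ) (h0 : 0 < lam) (h1 : lam ≤ 1), lam ≤ 1 / 2 →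
      (K.toKK lam h0 h1).Good (Θ + 1) → (m0 : ℝ) * lam ≤ 1 / 8 →
      (∃ ℓ, ℓ ≤ L ∧ ∃ c, Cyc G ℓ c) →
      ∃ (ℓ : ℕ) (c : ℕ → V), ℓ ≤ L1 ∧ Cyc G ℓ c ∧
        ∀ i, ENNReal.ofReal e1 ≤ (K.toKK lam h0 h1).esc (cD ℓ c) (c i) := by
  classical
  have hB0 : (0 : ℝ) ≤ Θ + 1 := by linarith
  obtain ⟨m, hm⟩ := exists_nat_ge (64 * (L : ℝ) ^ 2 * (Θ + 1))
  obtain ⟨N, hN⟩ := exists_nat_ge (4 * ((L + m : ℕ) : ℝ) ^ 2 * (Θ + 1))
  have hd0 : (0 : ℝ) ≤ (d1 : ℝ) := Nat.cast_nonneg _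
  have hpm0 : (0 : ℝ) < 1 / (4 * ((d1 : ℝ) + 1)) := by positivity
  have hpm1 : (1 : ℝ) / (4 * ((d1 : ℝ) + 1)) ≤ 1 := by
    rw [div_le_one (by positivity)]
    linarith
  refine ⟨L + m, 4 * m + 2 * L + 1 + N + 1 + 5, (1 / (4 * ((d1 : ℝ) + 1))) ^ (N + 1) / 2,
    by positivity, ?_⟩
  intro V _ _ G K d o m0 hK hd3 hd1 hn lam h0 h1 hlam hgood hm0 hex
  obtain ⟨ℓ0, hℓ0, c0, hc0⟩ := hex
  have hC : (cD ℓ0 c0).card ≤ ℓ0 := by
    have := Finset.card_image_le (s := range ℓ0) (f := c0)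
    rwa [card_range] at this
  have hCL : (cD ℓ0 c0).card ≤ L := hC.trans hℓ0
  have hmix : ∀ (x : V) (X : Finset V), 2 * X.card ≤ Fintype.card V →
      (K.toKK lam h0 h1).E x (fun w => ind (tip x w ∈ X)) ≤ ENNReal.ofReal (7 / 8) :=
    fun x X hX => K.toKK_mix lam h0 h1 m0 hm0 (fun x y => hK.up m0 x y le_rfl) x X hX
  have hiso : ∀ X : Finset V, 2 * X.card ≤ Fintype.card V →
      (∀ x ∈ X, ∀ y, G.Adj x y → y ∈ X ∨ y ∈ cD ℓ0 c0) → X.card ≤ m := by
    intro X hX hXN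
    have h := (K.toKK lam h0 h1).iso_bound (Θ + 1) hgood hmix X (cD ℓ0 c0) hX (by
      intro x hx y hQ
      by_cases hxy : x = y
      · left; rw [← hxy]; exact hx
      · by_cases ha : G.Adj x y
        · exact hXN x hx y ha
        · exfalso
          apply hQ
          show ENNReal.ofReal ((1 - lam) * K.P x y) = 0
          rw [hK.hP x y hxy, if_neg ha]
          simp)
    have h2 : ((cD ℓ0 c0).card : ℝ) ^ 2 ≤ (L : ℝ) ^ 2 :=
      pow_le_pow_left₀ (Nat.cast_nonneg _) (by exact_mod_cast hCL) 2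
    have h3 : (X.card : ℝ) ≤ (m : ℝ) := by
      refine h.trans (le_trans ?_ hm)
      exact mul_le_mul_of_nonneg_right (mul_le_mul_of_nonneg_left h2 (by norm_num)) hB0
    exact_mod_cast h3
  obtain ⟨Γ, hΓne, hΓc, hΓd, hΓcard⟩ := giant G (cD ℓ0 c0) m hiso (by omega)
  have hmemC : ∀ i, c0 i ∈ cD ℓ0 c0 := by
    intro i
    have hper : ∀ k j, c0 (j + k * ℓ0) = c0 j := by
      intro k
      induction k with
      | zero => intro j; simp
      | succ k ih =>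
        intro j
        rw [Nat.succ_mul, ← Nat.add_assoc, hc0.per, ih]
    have h3 := hc0.three
    have hmod : c0 i = c0 (i % ℓ0) := by
      have h := hper (i / ℓ0) (i % ℓ0)
      rw [Nat.mul_comm, Nat.mod_add_div] at h
      exact h
    rw [hmod]
    exact Finset.mem_image_of_mem c0 (Finset.mem_range.2 (Nat.mod_lt _ (by omega)))
  have hdis : ∀ i, c0 i ∉ Γ := fun i hi => (Finset.disjoint_left.1 hΓd) hi (hmemC i)
  obtain ⟨ℓ, c, hcyc, hℓcard, hnb, hcc⟩ := periph G hK.conn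
    (three_conn G hK.conn hK.trans d hd3 hK.hd (by omega))
    (fun v => by rw [hK.hd v]; exact hd3) ℓ0 c0 hc0 Γ hΓc hΓne hdis
  refine ⟨ℓ, c, by omega, hcyc, ?_⟩
  intro i
  obtain ⟨z, hz, hzD⟩ := hnb i
  have hD : (cD ℓ c).card ≤ L + m := by
    have := Finset.card_image_le (s := range ℓ) (f := c)
    rw [card_range] at this
    have h5 : (cD ℓ c).card ≤ ℓ := this
    omega
  have hmemD : c i ∈ cD ℓ c := by
    have hper : ∀ k j, c (j + k * ℓ) = c j := by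
      intro k
      induction k with
      | zero => intro j; simp
      | succ k ih =>
        intro j
        rw [Nat.succ_mul, ← Nat.add_assoc, hcyc.per, ih]
    have h3 := hcyc.three
    have hmod : c i = c (i % ℓ) := by
      have h := hper (i / ℓ) (i % ℓ)
      rw [Nat.mul_comm, Nat.mod_add_div] at h
      exact h
    rw [hmod]
    exact Finset.mem_image_of_mem c (Finset.mem_range.2 (Nat.mod_lt _ (by omega)))
  refine (K.toKK lam h0 h1).esc_low (Θ + 1) hgood (cD ℓ c) G.Adj (1 / (4 * ((d1 : ℝ) + 1)))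
    hpm0 hpm1 ?_ N ?_ (by omega) (c i) z hmemD hz hzD ?_
  · intro x y hxy
    show ENNReal.ofReal (1 / (4 * ((d1 : ℝ) + 1))) ≤ ENNReal.ofReal ((1 - lam) * K.P x y)
    apply ENNReal.ofReal_le_ofReal
    rw [hK.hP x y hxy.ne, if_pos hxy]
    have hdp : (0 : ℝ) < (d : ℝ) := by
      have : 0 < d := by omega
      exact_mod_cast this
    have hdd : (d : ℝ) ≤ (d1 : ℝ) := by exact_mod_cast hd1
    have e1 : (1 : ℝ) / (4 * ((d1 : ℝ) + 1)) ≤ 1 / (4 * (d : ℝ)) :=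
      one_div_le_one_div_of_le (by positivity) (by linarith)
    have e2 : (1 : ℝ) / (4 * (d : ℝ)) = 1 / 2 * (1 / (2 * (d : ℝ))) := by
      field_simp
      norm_num
    have e3 : (1 : ℝ) / 2 * (1 / (2 * (d : ℝ))) ≤ (1 - lam) * (1 / (2 * (d : ℝ))) :=
      mul_le_mul_of_nonneg_right (by linarith) (by positivity)
    linarith
  · refine le_trans ?_ hN
    have h2 : ((cD ℓ c).card : ℝ) ^ 2 ≤ ((L + m : ℕ) : ℝ) ^ 2 :=
      pow_le_pow_left₀ (Nat.cast_nonneg _) (by exact_mod_cast hD) 2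
    exact mul_le_mul_of_nonneg_right (mul_le_mul_of_nonneg_left h2 (by norm_num)) hB0
  · intro y hy
    have hzm : z ∈ univ \ cD ℓ c := Finset.mem_sdiff.2 ⟨Finset.mem_univ _, hzD⟩
    have hym : y ∈ univ \ cD ℓ c := Finset.mem_sdiff.2 ⟨Finset.mem_univ _, hy⟩
    refine Relation.ReflTransGen.mono ?_ _ _ (hcc z hzm y hym)
    intro a b hab
    exact ⟨hab.1, (Finset.mem_sdiff.1 hab.2).2⟩

end HP192
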