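import Mathlib
import Pool.Agent.Helper192_HP.Defs
import Pool.Agent.Helper192_HP.WDefs
import Pool.Agent.Helper192_HP.Basic
import Pool.Agent.Helper192_HP.W01
import Pool.Agent.Helper192_HP.W02
import Pool.Agent.Helper192_HP.KDefs
import Pool.Agent.Helper192_HP.KLink
import Pool.Agent.Helper192_HP.CdDef
import Pool.Agent.Helper192_HP.PDefs
import Pool.Agent.Helper192_HP.RDefs
import Pool.Agent.Helper192_HP.ZStd
import Pool.Agent.Helper192_HP.ZDefs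
import Pool.Agent.Helper192_HP.K10
import Pool.Agent.Helper192_HP.K11
import Pool.Agent.Helper192_HP.L01
import Pool.Agent.Helper192_HP.L02
import Pool.Agent.Helper192_HP.Z02
import Pool.Agent.Helper192_HP.Z04

namespace HP192
open Finset

/-- abbreviation used in the proof: distance of `exp (x i)` from `1` -/
noncomputable def eN (x : ℝ) : ℝ := ‖Complex.exp ((x : ℂ) * Complex.I) - 1‖

theorem eN_nonneg (x : ℝ) : 0 ≤ eN x := norm_nonneg _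

theorem eN_neg (x : ℝ) : eN (-x) = eN x := by
  unfold eN
  have h : Complex.exp (((-x : ℝ) : ℂ) * Complex.I) - 1
      = - (Complex.exp (((-x : ℝ) : ℂ) * Complex.I) * (Complex.exp ((x : ℂ) * Complex.I) - 1)) := by
    rw [mul_sub, ← Complex.exp_add]
    have : ((-x : ℝ) : ℂ) * Complex.I + (x : ℂ) * Complex.I = 0 := by push_cast; ring
    rw [this, Complex.exp_zero]
    ring
  rw [h, norm_neg, norm_mul, Complex.norm_exp_ofReal_mul_I, one_mul]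

theorem eN_add (x y : ℝ) : eN (x + y) ≤ eN x + eN y := by
  unfold eN
  have h : Complex.exp (((x + y : ℝ) : ℂ) * Complex.I) - 1
      = Complex.exp ((x : ℂ) * Complex.I) * (Complex.exp ((y : ℂ) * Complex.I) - 1)
        + (Complex.exp ((x : ℂ) * Complex.I) - 1) := by
    have : ((x + y : ℝ) : ℂ) * Complex.I = (x : ℂ) * Complex.I + (y : ℂ) * Complex.I := by
      push_cast; ring
    rw [this, Complex.exp_add]
    ring
  rw [h]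
  refine (norm_add_le _ _).trans ?_
  rw [norm_mul, Complex.norm_exp_ofReal_mul_I, one_mul]
  linarith

/-- arithmetic of the killing rate -/
theorem lam_arith (ρ2 m r n : ℝ) (h1 : 0 < ρ2) (h2 : ρ2 ≤ 1) (hm : 0 ≤ m)
    (hmr : 16 * (m + 1) ≤ r) (hn : 0 < n) (hfar : (10 : ℝ) ^ 4 * r ^ 2 ≤ ρ2 ^ 2 * n) :
    ∃ lam : ℝ, 0 < lam ∧ lam ≤ 1 / 2 ∧ m * lam ≤ 1 / 8 ∧ (m + 1) * lam = ρ2 / 16 ∧
      3 / (2 * n) ≤ lam ^ 2 := by
  have hm1 : 0 < m + 1 := by linarith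
  refine ⟨ρ2 / (16 * (m + 1)), by positivity, ?_, ?_, ?_, ?_⟩
  · rw [div_le_iff₀ (by positivity)]
    nlinarith
  · rw [← mul_div_assoc, div_le_iff₀ (by positivity)]
    nlinarith
  · field_simp
  · have hlamm : ρ2 / (16 * (m + 1)) * (16 * (m + 1)) = ρ2 := by field_simp
    generalize ρ2 / (16 * (m + 1)) = lam at hlamm ⊢
    rw [div_le_iff₀ (by positivity)]
    have h3 : (16 * (m + 1)) ^ 2 ≤ r ^ 2 := pow_le_pow_left₀ (by positivity) hmr 2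
    have h4 : (10 : ℝ) ^ 4 * (16 * (m + 1)) ^ 2 ≤ (lam ^ 2 * n) * (16 * (m + 1)) ^ 2 := by
      calc (10 : ℝ) ^ 4 * (16 * (m + 1)) ^ 2 ≤ (10 : ℝ) ^ 4 * r ^ 2 := by linarith
        _ ≤ ρ2 ^ 2 * n := hfar
        _ = (lam * (16 * (m + 1))) ^ 2 * n := by rw [hlamm]
        _ = _ := by ring
    have h5 : (10 : ℝ) ^ 4 ≤ lam ^ 2 * n :=
      le_of_mul_le_mul_right h4 (by positivity)
    linarith

/-- final arithmetic -/
theorem fin_arith (X η η' C ρ : ℝ) (hC : 0 < C) (hρ : ρ ≤ C / 4) (hη0 : 0 ≤ η)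
    (hη : η ≤ 2 * η') (hX : X ≤ 1 - η' ^ 2 * C) : X ≤ 1 - η ^ 2 * ρ := by
  have h1 : η ^ 2 ≤ (2 * η') ^ 2 := pow_le_pow_left₀ hη0 hη 2
  have h2 : η ^ 2 * ρ ≤ η ^ 2 * (C / 4) := mul_le_mul_of_nonneg_left hρ (by positivity)
  have h3 : η ^ 2 * (C / 4) ≤ (2 * η') ^ 2 * (C / 4) :=
    mul_le_mul_of_nonneg_right h1 (by positivity)
  have h4 : (2 * η') ^ 2 * (C / 4) = η' ^ 2 * C := by ring
  linarith

/-- the contraction estimate from the classification of the cycle -/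
theorem contr_fin {V : Type} [Fintype V] [DecidableEq V] (G : SimpleGraph V) (K : Ker V) (o : V)
    (r r0 m0 L1 ℓ : ℕ) (ρ2 p ρ C : ℝ) (c : ℕ → V) (hS : K.Std r r0 m0 L1 (ρ2 / 2) p)
    (hadj : ∀ x y, G.Adj x y → p ≤ K.P x y) (hc : Cyc G ℓ c) (hℓ : ℓ ≤ L1)
    (hC : C = ρ2 / 2 * p ^ (L1 + 1) / 10 ^ 4) (hC0 : 0 < C) (hρ : ρ ≤ C / 4)
    (h1 : ∃ i, ρ2 / 2 ≤ K.cfk (m0 + 1) (cD ℓ c) (c i) (c i) (c (i + 1)) (c (i + 1)))
    (h2 : ℓ ≤ 4 ∨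
      (∃ i, ρ2 / 2 ≤ K.cfk (m0 + 1) (cD ℓ c) (c i) (c i) (c (i + 2)) (c (i + 2))) ∨
      ∃ j, ρ2 / 2 ≤ K.cfk (m0 + 1) (cD ℓ c) (c j) (c (j + 2)) (c (j + 1)) (c (j + 3))) (θ : ℝ) :
    K.EW r0 o (fun ω0 => K.EW r0 o (fun ω' => ‖K.kap o r θ ω0 ω'‖)) ≤ 1 - eN (2 * θ) ^ 2 * ρ := by
  have h3 := hc.three
  obtain ⟨i, hi⟩ := h1
  have e1 : K.EW r0 o (fun ω0 => K.EW r0 o (fun ω' => ‖K.kap o r θ ω0 ω'‖))
      ≤ 1 - eN ((2 * ((1 : ℕ) : ℝ) - ℓ) * θ) ^ 2 * C := by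
    have := rig_pair G K o r r0 m0 L1 ℓ i 1 (ρ2 / 2) p (eN ((2 * ((1 : ℕ) : ℝ) - ℓ) * θ)) θ c hS
      hadj hc hℓ le_rfl (by omega) hi (eN_nonneg _) le_rfl
    rw [hC]
    calc _ ≤ _ := this
      _ = _ := by ring
  have hpos : 0 ≤ eN (2 * θ) := eN_nonneg _
  by_cases h4 : ℓ ≤ 4
  · have h34 : ℓ = 3 ∨ ℓ = 4 := by omega
    refine fin_arith _ _ _ C ρ hC0 hρ hpos ?_ e1
    rcases h34 with h | h
    · have ha : (2 * ((1 : ℕ) : ℝ) - (ℓ : ℝ)) * θ = -θ := by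
        rw [h]; push_cast; ring
      have hb : 2 * θ = θ + θ := by ring
      rw [ha, eN_neg, hb]
      have := eN_add θ θ
      linarith
    · have ha : (2 * ((1 : ℕ) : ℝ) - (ℓ : ℝ)) * θ = -(2 * θ) := by
        rw [h]; push_cast; ring
      rw [ha, eN_neg]
      linarith
  · rcases h2 with h2 | ⟨j, hj⟩ | ⟨j, hj⟩
    · exact absurd h2 h4
    · have e2 : K.EW r0 o (fun ω0 => K.EW r0 o (fun ω' => ‖K.kap o r θ ω0 ω'‖))
          ≤ 1 - eN ((2 * ((2 : ℕ) : ℝ) - ℓ) * θ) ^ 2 * C := by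
        have := rig_pair G K o r r0 m0 L1 ℓ j 2 (ρ2 / 2) p
          (eN ((2 * ((2 : ℕ) : ℝ) - ℓ) * θ)) θ c hS
          hadj hc hℓ (by norm_num) (by omega) hj (eN_nonneg _) le_rfl
        rw [hC]
        calc _ ≤ _ := this
          _ = _ := by ring
      have hsum : eN (2 * θ) ≤ eN ((2 * ((2 : ℕ) : ℝ) - ℓ) * θ)
          + eN ((2 * ((1 : ℕ) : ℝ) - ℓ) * θ) := by
        have hb : 2 * θ = (2 * ((2 : ℕ) : ℝ) - ℓ) * θ + -((2 * ((1 : ℕ) : ℝ) - ℓ) * θ) := by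
          push_cast; ring
        have := eN_add ((2 * ((2 : ℕ) : ℝ) - ℓ) * θ) (-((2 * ((1 : ℕ) : ℝ) - ℓ) * θ))
        rw [← hb, eN_neg] at this
        exact this
      rcases le_total (eN ((2 * ((2 : ℕ) : ℝ) - ℓ) * θ)) (eN ((2 * ((1 : ℕ) : ℝ) - ℓ) * θ))
        with hle | hle
      · refine fin_arith _ _ _ C ρ hC0 hρ hpos ?_ e1
        linarith
      · refine fin_arith _ _ _ C ρ hC0 hρ hpos ?_ e2
        linarith
    · have e3 : K.EW r0 o (fun ω0 => K.EW r0 o (fun ω' => ‖K.kap o r θ ω0 ω'‖))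
          ≤ 1 - eN (2 * θ) ^ 2 * C := by
        have := rig_four G K o r r0 m0 L1 ℓ j (ρ2 / 2) p (eN (2 * θ)) θ c hS
          hadj hc hℓ (by omega) hj (eN_nonneg _) le_rfl
        rw [hC]
        calc _ ≤ _ := this
          _ = _ := by ring
      refine fin_arith _ _ _ C ρ hC0 hρ hpos ?_ e3
      linarith

/-- TARGET -/
/- contraction away from `0` and `π` from a short cycle -/
theorem contr_cyc (Θ : ℝ) (d1 L : ℕ) (hΘ : 1 ≤ Θ) :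
    ∃ (ρ : ℝ) (R0 : ℕ), 0 < ρ ∧ ρ ≤ 1 ∧ ∀ (V : Type) [Fintype V] [DecidableEq V] (G : SimpleGraph V)
      (K : Ker V) (d : ℕ) (o : V) (m0 : ℕ), IsK G K d o Θ m0 → 3 ≤ d → d ≤ d1 → ∀ r r0 : ℕ,
      8 * (2 * m0 + R0) ≤ r → 1 ≤ r0 → r0 ≤ r → r ≤ ⌊Real.sqrt (Fintype.card V)⌋₊ →
      (10 : ℝ) ^ 4 * r ^ 2 ≤ ρ * Fintype.card V →
      (∃ ℓ, ℓ ≤ L ∧ ∃ c, Cyc G ℓ c) →
      ∀ θ : ℝ, K.EW r0 o (fun ω0 => K.EW r0 o (fun ω' => ‖K.kap o r θ ω0 ω'‖))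
        ≤ 1 - ‖Complex.exp (((2 * θ : ℝ)) * Complex.I) - 1‖ ^ 2 * ρ := by
  by_cases hd1 : d1 < 3
  · refine ⟨1, 0, one_pos, le_rfl, ?_⟩
    intro V _ _ G K d o m0 hK h3 hd
    omega
  push Not at hd1
  obtain ⟨L1, N1, e1, he1, hper⟩ := per_cyc Θ d1 L hΘ
  obtain ⟨ρ0, hρ0, hcls⟩ := cyc_class (Θ + 1) e1 L1 (by linarith) he1
  obtain ⟨ρ1, hρ1pos, hρ11, hρ10⟩ : ∃ ρ1 : ℝ, 0 < ρ1 ∧ ρ1 ≤ 1 ∧ ρ1 ≤ ρ0 :=
    ⟨min ρ0 1, lt_min hρ0 one_pos, min_le_right _ _, min_le_left _ _⟩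
  obtain ⟨ρ2, hρ2⟩ : ∃ ρ2 : ℝ, ρ2 = ρ1 ^ 4 := ⟨_, rfl⟩
  have hρ2pos : 0 < ρ2 := by rw [hρ2]; positivity
  have hρ21 : ρ2 ≤ 1 := by rw [hρ2]; exact pow_le_one₀ hρ1pos.le hρ11
  have hρ2ρ1 : ρ2 ≤ ρ1 := by
    rw [hρ2]
    calc ρ1 ^ 4 ≤ ρ1 ^ 1 := pow_le_pow_of_le_one hρ1pos.le hρ11 (by norm_num)
      _ = ρ1 := pow_one _
  have hd1R : (3 : ℝ) ≤ (d1 : ℝ) := by exact_mod_cast hd1
  obtain ⟨p, hpdef⟩ : ∃ p : ℝ, p = 1 / (2 * (d1 : ℝ)) := ⟨_, rfl⟩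
  have hp : 0 < p := by rw [hpdef]; positivity
  have hp1 : p ≤ 1 := by
    rw [hpdef, div_le_one (by positivity)]
    linarith
  obtain ⟨C, hC⟩ : ∃ C : ℝ, C = ρ2 / 2 * p ^ (L1 + 1) / 10 ^ 4 := ⟨_, rfl⟩
  have hCpos : 0 < C := by rw [hC]; positivity
  have hCle : C / 4 ≤ ρ2 / 2 := by
    have h1 : p ^ (L1 + 1) ≤ 1 := pow_le_one₀ hp.le hp1
    have h2 : ρ2 / 2 * p ^ (L1 + 1) ≤ ρ2 / 2 := by nlinarith
    rw [hC]
    have h3 : ρ2 / 2 * p ^ (L1 + 1) / 10 ^ 4 ≤ ρ2 / 2 / 10 ^ 4 := by gcongr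
    have h4 : ρ2 / 2 / 10 ^ 4 ≤ ρ2 / 2 := div_le_self (by positivity) (by norm_num)
    linarith
  refine ⟨min (ρ2 ^ 2) (C / 4), L1 + 2 + N1 + 5, lt_min (by positivity) (by positivity),
    (min_le_left _ _).trans (pow_le_one₀ hρ2pos.le hρ21), ?_⟩
  intro V _ _ G K d o m0 hK h3 hd r r0 hr hr01 hr0r hrs hfar hcyc θ
  have hn0 : 0 ≤ (Fintype.card V : ℝ) := by positivity
  have hfar1 : (10 : ℝ) ^ 4 * r ^ 2 ≤ ρ2 ^ 2 * (Fintype.card V : ℝ) :=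
    hfar.trans (mul_le_mul_of_nonneg_right (min_le_left _ _) hn0)
  have hfar3 : (10 : ℝ) ^ 4 * r ^ 2 ≤ ρ2 / 2 * (Fintype.card V : ℝ) :=
    hfar.trans (mul_le_mul_of_nonneg_right ((min_le_right _ _).trans hCle) hn0)
  have hfar2 : (10 : ℝ) ^ 4 * r ^ 2 ≤ (Fintype.card V : ℝ) := by
    refine hfar1.trans ?_
    have : ρ2 ^ 2 ≤ 1 := pow_le_one₀ hρ2pos.le hρ21
    calc _ ≤ 1 * (Fintype.card V : ℝ) := mul_le_mul_of_nonneg_right this hn0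
      _ = _ := one_mul _
  have hr1 : 1 ≤ r := by omega
  have hr1R : (1 : ℝ) ≤ (r : ℝ) := by exact_mod_cast hr1
  have hrn : (r : ℝ) ≤ (Fintype.card V : ℝ) := by
    refine le_trans ?_ hfar2
    nlinarith
  have hnpos : 0 < (Fintype.card V : ℝ) := by linarith
  have hN1 : N1 ≤ Fintype.card V := by
    have h1 : N1 ≤ r := by omega
    have h3 : r ≤ Fintype.card V := by exact_mod_cast hrn
    exact h1.trans h3
  have hmr : 16 * (m0 + 1) ≤ r := by omega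
  have hmrR : 16 * ((m0 : ℝ) + 1) ≤ (r : ℝ) := by exact_mod_cast hmr
  have hdpos : (0 : ℝ) < (d : ℝ) := by
    have : 0 < d := by omega
    exact_mod_cast this
  have hdd1 : (d : ℝ) ≤ (d1 : ℝ) := by exact_mod_cast hd
  have hadj : ∀ x y, G.Adj x y → p ≤ K.P x y := by
    intro x y hxy
    rw [hK.hP x y hxy.ne, if_pos hxy, hpdef]
    apply one_div_le_one_div_of_le (by positivity)
    linarith
  obtain ⟨lam, hlam0, hlam2, hmlam, hcast0, hκ⟩ :=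
    lam_arith ρ2 m0 r (Fintype.card V) hρ2pos hρ21 (Nat.cast_nonneg _) hmrR hnpos hfar1
  have hlam1 : lam ≤ 1 := by linarith
  have hgood : (K.toKK lam hlam0 hlam1).Good (Θ + 1) := by
    refine K.toKK_good lam hlam0 hlam1 o ⌊Real.sqrt (Fintype.card V)⌋₊ m0 Θ
      (3 / (2 * (Fintype.card V : ℝ))) (hK.th _ le_rfl) ?_ (fun x y => hK.up m0 x y le_rfl) hκ
    have : m0 ≤ r := by omega
    exact this.trans hrs
  obtain ⟨ℓ, c, hℓ, hc, hesc⟩ := hper V G K d o m0 hK h3 hd hN1 lam hlam0 hlam1 hlam2 hgood hmlam hcyc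
  obtain ⟨⟨i, hi⟩, hrest⟩ := hcls V (K.toKK lam hlam0 hlam1) hgood ℓ c hc.three hℓ hc.per hc.inj hesc
  have hcast : ((m0 + 1 : ℕ) : ℝ) * lam = ρ2 / 16 := by
    rw [Nat.cast_add, Nat.cast_one, hcast0]
  have hCf : ∀ u1 u2 v1 v2 : V,
      ENNReal.ofReal ρ2 ≤ (K.toKK lam hlam0 hlam1).Cf (cD ℓ c) u1 u2 v1 v2 →
      ρ2 / 2 ≤ K.cfk (m0 + 1) (cD ℓ c) u1 u2 v1 v2 := by
    intro u1 u2 v1 v2 h
    have h2 := h.trans (K.Cf_cfk lam hlam0 hlam1 (m0 + 1) (cD ℓ c) u1 u2 v1 v2)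
    rw [hcast, ENNReal.ofReal_le_ofReal_iff'] at h2
    generalize K.cfk (m0 + 1) (cD ℓ c) u1 u2 v1 v2 = Y at h2 ⊢
    rcases h2 with h2 | h2 <;> linarith
  have hpair : ∀ a b : V,
      ENNReal.ofReal ρ0 ≤ (K.toKK lam hlam0 hlam1).Pi2 (cD ℓ c) a b →
      ρ2 / 2 ≤ K.cfk (m0 + 1) (cD ℓ c) a a b b := by
    intro a b h
    apply hCf
    refine le_trans ?_ ((K.toKK lam hlam0 hlam1).Cf_self (cD ℓ c) a b)
    rw [hρ2, ENNReal.ofReal_pow hρ1pos.le]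
    exact pow_le_pow_left' ((ENNReal.ofReal_le_ofReal hρ10).trans h) 4
  have hS : K.Std r r0 m0 L1 (ρ2 / 2) p :=
    { up := hK.up
      low := hK.low
      kr := by omega
      r0pos := hr01
      r0r := hr0r
      ρpos := by positivity
      far := hfar3
      ppos := hp
      p1 := hp1 }
  refine contr_fin G K o r r0 m0 L1 ℓ ρ2 p _ C c hS hadj hc hℓ hC hCpos (min_le_right _ _)
    ⟨i, hpair _ _ hi⟩ ?_ θ
  rcases hrest with h | ⟨j, hj⟩ | ⟨j, hj⟩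
  · exact Or.inl h
  · exact Or.inr (Or.inl ⟨j, hpair _ _ hj⟩)
  · refine Or.inr (Or.inr ⟨j, hCf _ _ _ _ ((ENNReal.ofReal_le_ofReal ?_).trans hj)⟩)
    exact hρ2ρ1.trans hρ10

end HP192
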