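import Mathlib
import Pool.Agent.Helper192_HP.Defs
import Pool.Agent.Helper192_HP.WDefs
import Pool.Agent.Helper192_HP.Basic
import Pool.Agent.Helper192_HP.W01
import Pool.Agent.Helper192_HP.W02
import Pool.Agent.Helper192_HP.PDefs
import Pool.Agent.Helper192_HP.ZDefs
import Pool.Agent.Helper192_HP.W06
import Pool.Agent.Helper192_HP.W07
import Pool.Agent.Helper192_HP.W13
import Pool.Agent.Helper192_HP.A1
import Pool.Agent.Helper192_HP.Z05

namespace HP192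
open Finset

namespace Ker
variable {V : Type} [Fintype V] [DecidableEq V] (K : Ker V)

theorem EW_conj (t : ℕ) (x : V) (F : List V → ℂ) :
    (starRingEnd ℂ) (K.EW t x F) = K.EW t x (fun w => (starRingEnd ℂ) (F w)) := by
  induction t generalizing x F with
  | zero => rw [EW_zero, EW_zero]
  | succ t ih =>
    rw [EW_succ, EW_succ, map_sum]
    refine Finset.sum_congr rfl fun y _ => ?_
    rw [Complex.real_smul, Complex.real_smul, map_mul, Complex.conj_ofReal, ih]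

theorem conj_exp_aux (a : ℝ) :
    (starRingEnd ℂ) (Complex.exp ((a : ℂ) * Complex.I)) = Complex.exp (((-a : ℝ) : ℂ) * Complex.I) := by
  rw [← Complex.exp_conj, map_mul, Complex.conj_ofReal, Complex.conj_I]
  congr 1
  push_cast
  ring

theorem kap_neg (o : V) (r : ℕ) (θ : ℝ) (ω0 ω' : List V) :
    K.kap o r (-θ) ω0 ω' = (starRingEnd ℂ) (K.kap o r θ ω0 ω') := by
  unfold kap
  rw [Complex.real_smul, Complex.real_smul, map_mul, Complex.conj_ofReal, map_sum]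
  congr 1
  refine Finset.sum_congr rfl fun R _ => ?_
  rw [EW_conj]
  refine EW_congr K _ _ _ _ fun w _ => ?_
  rw [conj_exp_aux]
  congr 3
  ring

theorem kap_norm_abs (o : V) (r : ℕ) (θ : ℝ) (ω0 ω' : List V) :
    ‖K.kap o r θ ω0 ω'‖ = ‖K.kap o r |θ| ω0 ω'‖ := by
  rcases le_total 0 θ with h | h
  · rw [abs_of_nonneg h]
  · rw [abs_of_nonpos h, kap_neg, Complex.norm_conj]

end Ker

theorem cos_lt_one_aux {w : ℝ} (h0 : 0 < w) (h1 : w ≤ 1) : Real.cos w < 1 := by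
  have h := Real.cos_lt_cos_of_nonneg_of_le_pi_div_two (le_refl (0 : ℝ))
    (by linarith [Real.pi_gt_three] : w ≤ Real.pi / 2) h0
  rwa [Real.cos_zero] at h

theorem norm_exp_aux (t : ℝ) :
    ‖Complex.exp (((2 * t : ℝ)) * Complex.I) - 1‖ ^ 2 = 4 * Real.sin t ^ 2 := by
  have h1 : Complex.exp (((2 * t : ℝ) : ℂ) * Complex.I) - 1
      = ((Real.cos (2 * t) - 1 : ℝ) : ℂ) + ((Real.sin (2 * t) : ℝ) : ℂ) * Complex.I := by
    rw [Complex.exp_mul_I]
    push_cast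
    ring
  rw [h1, ← Complex.normSq_eq_norm_sq, Complex.normSq_add_mul_I]
  have h2 := Real.sin_sq_add_cos_sq (2 * t)
  have h3 : Real.cos (2 * t) = 1 - 2 * Real.sin t ^ 2 := by
    rw [Real.cos_two_mul]
    have := Real.sin_sq_add_cos_sq t
    linarith
  nlinarith

theorem sin_mono_aux {w t : ℝ} (h0 : 0 < w) (h1 : w ≤ 1) (h2 : w ≤ t) (h3 : t ≤ Real.pi - w) :
    Real.sin w ≤ Real.sin t := by
  have hpi := Real.pi_gt_three
  rcases le_total t (Real.pi / 2) with h | h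
  · exact Real.sin_le_sin_of_le_of_le_pi_div_two (by linarith) h h2
  · rw [← Real.sin_pi_sub t]
    exact Real.sin_le_sin_of_le_of_le_pi_div_two (by linarith) (by linarith) (by linarith)

/-- TARGET -/
/- the contraction constant for all frequencies between `1/r` and `π - 1/r` -/
theorem contr_mid (Θ : ℝ) (d1 L : ℕ) (hΘ : 1 ≤ Θ) :
    ∃ (c ρ : ℝ) (R0 : ℕ), 0 < c ∧ c ≤ 1 ∧ 0 < ρ ∧ ρ ≤ 1 ∧
      ∀ (V : Type) [Fintype V] [DecidableEq V] (G : SimpleGraph V)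
      (K : Ker V) (d : ℕ) (o : V) (m0 : ℕ), IsK G K d o Θ m0 → 3 ≤ d → d ≤ d1 → ∀ T r r0 : ℕ,
      1 ≤ r → 8 * (2 * m0 + R0) ≤ r → 1 ≤ r0 → r0 ≤ r → 3 * r ≤ T →
      T + 3 * r ≤ ⌊Real.sqrt (Fintype.card V)⌋₊ → 2 * T ≤ ⌊Real.sqrt (Fintype.card V)⌋₊ →
      3 / (2 * (Fintype.card V : ℝ)) * (2 * (T : ℝ) + 1) ^ 2 ≤ 1 / 2 →
      (10 : ℝ) ^ 4 * r ^ 2 ≤ ρ * Fintype.card V →
      (∃ ℓ, ℓ ≤ L ∧ ∃ c, Cyc G ℓ c) →
      ∀ θ : ℝ, 1 / (r : ℝ) ≤ |θ| → |θ| ≤ Real.pi - 1 / r →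
      K.EW r0 o (fun ω0 => K.EW r0 o (fun ω' => ‖K.kap o r θ ω0 ω'‖)) ≤ 1 - c := by
  obtain ⟨ρ, R0, hρ0, hρ1, hcyc⟩ := contr_cyc Θ d1 L hΘ
  have hΘ0 : 0 < Θ := by linarith
  have hΘ3 : 1 ≤ Θ ^ 3 := one_le_pow₀ hΘ
  set w0 : ℝ := 1 / (36 * Θ ^ 3) with hw0
  set w1 : ℝ := 1 / (72 * Θ ^ 3) with hw1
  have hw0p : 0 < w0 := by positivity
  have hw1p : 0 < w1 := by positivity
  have hw01 : w0 ≤ 1 := by
    rw [hw0, div_le_one (by positivity)]; linarith
  have hw11 : w1 ≤ 1 := by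
    rw [hw1, div_le_one (by positivity)]; linarith
  have hw10 : w1 ≤ w0 := by
    rw [hw0, hw1]
    exact one_div_le_one_div_of_le (by positivity) (by linarith)
  have hc0 := cos_lt_one_aux hw0p hw01
  have hc1 := cos_lt_one_aux hw1p hw11
  have hs1 : 0 < Real.sin w1 :=
    Real.sin_pos_of_pos_of_lt_pi hw1p (by linarith [Real.pi_gt_three])
  set c0 : ℝ := (1 - Real.cos w0) / (4 * Θ) with hc0d
  set c1 : ℝ := (1 - Real.cos w1) / (4 * Θ) with hc1d
  set c2 : ℝ := 4 * Real.sin w1 ^ 2 * ρ with hc2d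
  have hc0p : 0 < c0 := div_pos (by linarith) (by linarith)
  have hc1p : 0 < c1 := div_pos (by linarith) (by linarith)
  have hc2p : 0 < c2 := by positivity
  refine ⟨min 1 (min c0 (min c1 c2)), ρ, R0, ?_, min_le_left _ _, hρ0, hρ1, ?_⟩
  · exact lt_min one_pos (lt_min hc0p (lt_min hc1p hc2p))
  intro V _ _ G K d o m0 hK h3d hdd T r r0 hr hr8 hr0 hr0r hT hT3 hT2 hκ hρr hC θ hθ1 hθ2
  have hm1 : min 1 (min c0 (min c1 c2)) ≤ c0 := (min_le_right _ _).trans (min_le_left _ _)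
  have hm2 : min 1 (min c0 (min c1 c2)) ≤ c1 :=
    (min_le_right _ _).trans ((min_le_right _ _).trans (min_le_left _ _))
  have hm3 : min 1 (min c0 (min c1 c2)) ≤ c2 :=
    (min_le_right _ _).trans ((min_le_right _ _).trans (min_le_right _ _))
  have hq : 1 / (2 * Θ) ≤ K.nq o T T := by
    have h1 := K.nonint o T m0 (3 / (2 * (Fintype.card V : ℝ)))
      (fun x y => hK.up m0 x y le_rfl) (by omega) hκ
    have h2 : K.Th o (2 * T) ≤ Θ := hK.th _ hT2
    have h3 : 1 ≤ K.Th o (2 * T) := K.one_le_Th o _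
    refine le_trans ?_ h1
    exact one_div_le_one_div_of_le (by linarith) (by linarith)
  have hTh : K.Th o (T + 3 * r) ≤ Θ := hK.th _ hT3
  have hcongr : K.EW r0 o (fun ω0 => K.EW r0 o (fun ω' => ‖K.kap o r θ ω0 ω'‖))
      = K.EW r0 o (fun ω0 => K.EW r0 o (fun ω' => ‖K.kap o r |θ| ω0 ω'‖)) := by
    refine Ker.EW_congr K _ _ _ _ fun ω0 _ => ?_
    exact Ker.EW_congr K _ _ _ _ fun ω' _ => K.kap_norm_abs o r θ ω0 ω'
  rw [hcongr]
  rcases le_or_gt |θ| w0 with ha | ha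
  · have h1 := K.kap_bound o T r r0 Θ |θ| hr hr0 hr0r hT hTh hq
      (by rw [abs_abs]; exact hθ1) (by rw [abs_abs]; exact ha)
    refine h1.trans ?_
    have : c0 = (1 - Real.cos (1 / (36 * Θ ^ 3))) / (4 * Θ) := rfl
    linarith
  rcases le_or_gt |θ| (Real.pi - w1) with hb | hb
  · have h1 := hcyc V G K d o m0 hK h3d hdd r r0 hr8 hr0 hr0r (by omega) hρr hC |θ|
    refine h1.trans ?_
    rw [norm_exp_aux]
    have h2 : Real.sin w1 ≤ Real.sin |θ| := sin_mono_aux hw1p hw11 (by linarith) hb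
    have h3 : Real.sin w1 ^ 2 ≤ Real.sin |θ| ^ 2 := pow_le_pow_left₀ hs1.le h2 2
    have h4 : 4 * Real.sin w1 ^ 2 * ρ ≤ 4 * Real.sin |θ| ^ 2 * ρ :=
      mul_le_mul_of_nonneg_right (by linarith) hρ0.le
    linarith
  · have habs : |(|θ| - Real.pi)| = Real.pi - |θ| := by
      have hrp : (0 : ℝ) < 1 / (r : ℝ) := by
        have : (0 : ℝ) < r := by exact_mod_cast hr
        positivity
      rw [abs_of_neg (by linarith)]; ring
    have h1 := K.kap_bound_pi o T r r0 Θ |θ| hr hr0 hr0r hT hTh hq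
      (by rw [habs]; linarith) (by rw [habs]; linarith)
    refine h1.trans ?_
    have : c1 = (1 - Real.cos (1 / (72 * Θ ^ 3))) / (4 * Θ) := rfl
    linarith

end HP192
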