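import Mathlib
import Pool.Agent.Helper192_HP.Y01
import Pool.Agent.Helper192_HP.A02

namespace HP192
open Finset

namespace Ker
variable {V : Type} [Fintype V] [DecidableEq V] (K : Ker V)

/-- `Fbar1` from a contraction at all frequencies -/
theorem FbarC (o : V) (T r r1 h K2 s M0 m0 : ℕ) (Θ κ c Bp : ℝ) (hr : 1 ≤ r) (hr1 : r1 = 2 * h * K2)
    (hr1' : 1 ≤ r1) (hr1r : r1 ≤ r) (hM0 : 1 ≤ M0) (hT : 3 * r ≤ T)
    (hΘ : K.Th o (T + 4 * r) ≤ Θ) (hΘ2 : K.Th o (2 * T) ≤ Θ)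
    (h2 : ∀ x y, K.hk m0 x y ≤ κ) (hmh : m0 ≤ h) (hmT : m0 ≤ T)
    (hκ : κ * (2 * (T : ℝ) + 1) ^ 2 ≤ 1 / 2) (hc0 : 0 < c) (hc1 : c ≤ 1) (hBp : 0 ≤ Bp)
    (hk : ∀ θ : ℝ, 1 / (r : ℝ) ≤ |θ| → |θ| ≤ Real.pi - 1 / r →
      K.EW r1 o (fun ω0 => K.EW r1 o (fun ω' => ‖K.kap o r θ ω0 ω'‖)) ≤ 1 - c)
    (hp : ∀ θ : ℝ, Real.pi - 1 / r < |θ| → |θ| ≤ Real.pi →
      K.EW r1 o (fun ω0 => K.EW r1 o (fun ω' => ‖K.kap o r θ ω0 ω'‖)) ≤ 1 - c ∨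
      K.EW r1 o (fun ω => ‖K.ph o T θ ω‖ ^ 2) ≤ Bp) :
    (1 / (M0 : ℝ)) * ∑ M ∈ Ico M0 (2 * M0),
      K.EW r1 o (fun ω => |(1 / ((1 : ℕ) : ℝ)) * ∑ i ∈ range 1,
            (K.fM o T (M + 1 + i) ω - K.fM o T (M + 1 + s + i) ω)|)
      ≤ Real.sqrt ((1 / (M0 : ℝ)) * (T * Θ ^ 2 * ((s : ℝ) / r) ^ 2
        + 16 / c ^ 2 * (12 * r * Θ ^ 2 + 16 * T * Θ ^ 2
          * Real.sqrt ((1 - 1 / (2 * Θ)) ^ K2 + 8 * κ * r * T))
        + 4 * Bp / r)) := by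
  have hpb := K.aux_hpb o T r r1 h K2 m0 Θ κ hr1 hr1' hr1r hT hΘ2 h2 hmh hmT hκ
  have hReg := K.Reg1 o T r r1 s (2 * M0 + 1) Θ ((1 - 1 / (2 * Θ)) ^ K2 + 8 * κ * r * T) c Bp
    hr hr1' hr1r hT hΘ hc0 hc1 hBp hpb hk hp
  have h1 := K.aux_jensen o r1 M0 hM0 (fun M ω => K.fM o T M ω - K.fM o T (M + s) ω) _ hReg
  refine le_trans (le_of_eq ?_) h1
  congr 1
  refine Finset.sum_congr rfl fun M _ => ?_
  congr 1
  funext ω
  simp [add_right_comm]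

/-- `Fbar1` from a bound of the total variation of `fM` -/
theorem FbarU (o : V) (T r r1 h K2 w s M0 m0 : ℕ) (Θ κ U : ℝ) (hr : 1 ≤ r) (hr1 : r1 = 2 * h * K2)
    (hr1' : 1 ≤ r1) (hr1r : r1 ≤ r) (hw : 1 ≤ w) (hM0 : 1 ≤ M0) (hT : 3 * r ≤ T)
    (hΘ : K.Th o (T + 4 * r) ≤ Θ) (hΘ2 : K.Th o (2 * T) ≤ Θ)
    (h2 : ∀ x y, K.hk m0 x y ≤ κ) (hmh : m0 ≤ h) (hmT : m0 ≤ T)
    (hκ : κ * (2 * (T : ℝ) + 1) ^ 2 ≤ 1 / 2)
    (hU : ∀ Mx, K.EW r1 o (fun ω => ∑ M ∈ range Mx, |K.fM o T (M + 1) ω - K.fM o T M ω|) ≤ U) :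
    (1 / (M0 : ℝ)) * ∑ M ∈ Ico M0 (2 * M0),
      K.EW r1 o (fun ω => |(1 / ((1 : ℕ) : ℝ)) * ∑ i ∈ range 1,
            (K.fM o T (M + 1 + i) ω - K.fM o T (M + 1 + s + i) ω)|)
      ≤ Ebd Θ T r s w M0 ((1 - 1 / (2 * Θ)) ^ K2 + 8 * κ * r * T)
        + (1 / (M0 : ℝ)) * (2 * w * U) := by
  have hF := K.Fbar o T r r1 h K2 w s M0 m0 Θ κ hr hr1 hr1' hr1r hw hM0 hT hΘ hΘ2 h2 hmh hmT hκ
  have hM : (0 : ℝ) < M0 := by exact_mod_cast hM0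
  have hw0 : (0 : ℝ) < w := by exact_mod_cast hw
  set Mx := 2 * M0 + (1 + s) + w with hMx
  have hU' := hU Mx
  set A : ℕ → List V → ℝ := fun M ω => |(1 / (w : ℝ)) * ∑ i ∈ range w,
            (K.fM o T (M + 1 + i) ω - K.fM o T (M + 1 + s + i) ω)| with hA
  set W : ℕ → ℕ → List V → ℝ := fun c M ω => |K.fM o T (M + c) ω -
    (1 / (w : ℝ)) * ∑ i ∈ range w, K.fM o T (M + c + i) ω| with hW
  have hWb : ∀ c, c ≤ 1 + s → K.EW r1 o (fun ω => ∑ M ∈ Ico M0 (2 * M0), W c M ω) ≤ w * U := by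
    intro c hc
    calc K.EW r1 o (fun ω => ∑ M ∈ Ico M0 (2 * M0), W c M ω)
        ≤ K.EW r1 o (fun ω => w * ∑ M ∈ range Mx, |K.fM o T (M + 1) ω - K.fM o T M ω|) := by
          apply K.EW_mono
          intro ω _
          exact aux_window_sum (fun M => K.fM o T M ω) w c M0 Mx hw (by omega)
      _ = w * K.EW r1 o (fun ω => ∑ M ∈ range Mx, |K.fM o T (M + 1) ω - K.fM o T M ω|) :=
          K.EW_mul_left _ _ _ _
      _ ≤ w * U := mul_le_mul_of_nonneg_left hU' hw0.le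
  have hpt : ∀ (M : ℕ) (ω : List V), |(1 / ((1 : ℕ) : ℝ)) * ∑ i ∈ range 1,
            (K.fM o T (M + 1 + i) ω - K.fM o T (M + 1 + s + i) ω)|
      ≤ A M ω + (W 1 M ω + W (1 + s) M ω) := by
    intro M ω
    simp only [hA, hW]
    have e1 : (1 / ((1 : ℕ) : ℝ)) * ∑ i ∈ range 1,
            (K.fM o T (M + 1 + i) ω - K.fM o T (M + 1 + s + i) ω)
        = K.fM o T (M + 1) ω - K.fM o T (M + 1 + s) ω := by simp
    rw [e1, Finset.sum_sub_distrib, mul_sub]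
    have e2 : M + (1 + s) = M + 1 + s := by ring
    rw [e2]
    set a := K.fM o T (M + 1) ω
    set b := K.fM o T (M + 1 + s) ω
    set a' := (1 / (w : ℝ)) * ∑ i ∈ range w, K.fM o T (M + 1 + i) ω
    set b' := (1 / (w : ℝ)) * ∑ i ∈ range w, K.fM o T (M + 1 + s + i) ω
    have : a - b = (a' - b') + ((a - a') - (b - b')) := by ring
    rw [this]
    refine le_trans (abs_add_le _ _) ?_
    have := abs_sub (a - a') (b - b')
    linarith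
  calc (1 / (M0 : ℝ)) * ∑ M ∈ Ico M0 (2 * M0),
      K.EW r1 o (fun ω => |(1 / ((1 : ℕ) : ℝ)) * ∑ i ∈ range 1,
            (K.fM o T (M + 1 + i) ω - K.fM o T (M + 1 + s + i) ω)|)
      ≤ (1 / (M0 : ℝ)) * ∑ M ∈ Ico M0 (2 * M0),
          K.EW r1 o (fun ω => A M ω + (W 1 M ω + W (1 + s) M ω)) := by
        apply mul_le_mul_of_nonneg_left _ (by positivity)
        apply Finset.sum_le_sum
        intro M _
        apply K.EW_mono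
        intro ω _
        exact hpt M ω
    _ = (1 / (M0 : ℝ)) * ∑ M ∈ Ico M0 (2 * M0), K.EW r1 o (fun ω => A M ω)
        + (1 / (M0 : ℝ)) * (K.EW r1 o (fun ω => ∑ M ∈ Ico M0 (2 * M0), W 1 M ω)
          + K.EW r1 o (fun ω => ∑ M ∈ Ico M0 (2 * M0), W (1 + s) M ω)) := by
        rw [K.EW_sum, K.EW_sum, ← Finset.sum_add_distrib, ← mul_add, ← Finset.sum_add_distrib]
        congr 1
        apply Finset.sum_congr rfl
        intro M _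
        rw [K.EW_add, K.EW_add]
    _ ≤ Ebd Θ T r s w M0 ((1 - 1 / (2 * Θ)) ^ K2 + 8 * κ * r * T)
        + (1 / (M0 : ℝ)) * (2 * w * U) := by
        apply add_le_add hF
        apply mul_le_mul_of_nonneg_left _ (by positivity)
        have h1 := hWb 1 (by omega)
        have h3 := hWb (1 + s) le_rfl
        linarith

end Ker

end HP192
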