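import Mathlib
import Pool.Agent.Helper192_HP.Defs

namespace HP192
open Finset

theorem numC_a {Θ η κ0 ε1 δ x t m r s : ℝ} (hη : 0 < η) (hκ0 : 0 < κ0) (hx : 0 < x) (he : 0 < ε1)
    (hm : κ0 * η * x / 4 ≤ m) (ht0 : 0 ≤ t) (ht : t ≤ η * x) (hr : ε1 * x / 2 ≤ r) (hs0 : 0 ≤ s)
    (hs : s ≤ δ * x) :
    (1 / m) * (t * Θ ^ 2 * (s / r) ^ 2) ≤ 16 * Θ ^ 2 * δ ^ 2 / (κ0 * ε1 ^ 2) := by
  have hm0 : 0 < κ0 * η * x / 4 := by positivity
  have hr0 : 0 < ε1 * x / 2 := by positivity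
  have hmp : 0 < m := lt_of_lt_of_le hm0 hm
  have hrp : 0 < r := lt_of_lt_of_le hr0 hr
  have h1 : s / r ≤ 2 * δ / ε1 := by
    rw [div_le_div_iff₀ hrp he]
    have hδ : 0 ≤ δ := by
      by_contra h
      push Not at h
      nlinarith
    calc s * ε1 ≤ δ * x * ε1 := mul_le_mul_of_nonneg_right hs he.le
      _ = 2 * δ * (ε1 * x / 2) := by ring
      _ ≤ 2 * δ * r := mul_le_mul_of_nonneg_left hr (by positivity)
  have h2 : (s / r) ^ 2 ≤ (2 * δ / ε1) ^ 2 := pow_le_pow_left₀ (by positivity) h1 2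
  have h3 : 1 / m ≤ 1 / (κ0 * η * x / 4) := one_div_le_one_div_of_le hm0 hm
  calc (1 / m) * (t * Θ ^ 2 * (s / r) ^ 2)
      ≤ (1 / (κ0 * η * x / 4)) * ((η * x) * Θ ^ 2 * (2 * δ / ε1) ^ 2) := by
        apply mul_le_mul h3 _ (by positivity) (by positivity)
        apply mul_le_mul _ h2 (by positivity) (by positivity)
        exact mul_le_mul_of_nonneg_right ht (by positivity)
    _ = 16 * Θ ^ 2 * δ ^ 2 / (κ0 * ε1 ^ 2) := by
        field_simp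
        ring

theorem numC_b {Θ η κ0 ε1 c x m r : ℝ} (hη : 0 < η) (hκ0 : 0 < κ0) (hx : 0 < x) (hc : 0 < c)
    (he : 0 < ε1)
    (hm : κ0 * η * x / 4 ≤ m) (hr0 : 0 ≤ r) (hr : r ≤ ε1 * x) :
    (1 / m) * (16 / c ^ 2 * (12 * r * Θ ^ 2)) ≤ 768 * ε1 * Θ ^ 2 / (κ0 * η * c ^ 2) := by
  have hm0 : 0 < κ0 * η * x / 4 := by positivity
  have hmp : 0 < m := lt_of_lt_of_le hm0 hm
  have h3 : 1 / m ≤ 1 / (κ0 * η * x / 4) := one_div_le_one_div_of_le hm0 hm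
  calc (1 / m) * (16 / c ^ 2 * (12 * r * Θ ^ 2))
      ≤ (1 / (κ0 * η * x / 4)) * (16 / c ^ 2 * (12 * (ε1 * x) * Θ ^ 2)) := by
        apply mul_le_mul h3 _ (by positivity) (by positivity)
        apply mul_le_mul_of_nonneg_left _ (by positivity)
        apply mul_le_mul_of_nonneg_right _ (by positivity)
        exact mul_le_mul_of_nonneg_left hr (by positivity)
    _ = 768 * ε1 * Θ ^ 2 / (κ0 * η * c ^ 2) := by
        field_simp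
        ring

theorem numC_c {Θ η κ0 c x m t w W : ℝ} (hη : 0 < η) (hκ0 : 0 < κ0) (hx : 0 < x) (hc : 0 < c)
    (hm : κ0 * η * x / 4 ≤ m) (ht0 : 0 ≤ t) (ht : t ≤ η * x) (hw : 0 ≤ w) (hW : w ≤ W) :
    (1 / m) * (16 / c ^ 2 * (16 * t * Θ ^ 2 * w)) ≤ 1024 * Θ ^ 2 / (κ0 * c ^ 2) * W := by
  have hm0 : 0 < κ0 * η * x / 4 := by positivity
  have hmp : 0 < m := lt_of_lt_of_le hm0 hm
  have h3 : 1 / m ≤ 1 / (κ0 * η * x / 4) := one_div_le_one_div_of_le hm0 hm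
  calc (1 / m) * (16 / c ^ 2 * (16 * t * Θ ^ 2 * w))
      ≤ (1 / (κ0 * η * x / 4)) * (16 / c ^ 2 * (16 * (η * x) * Θ ^ 2 * W)) := by
        apply mul_le_mul h3 _ (by positivity) (by positivity)
        apply mul_le_mul_of_nonneg_left _ (by positivity)
        apply mul_le_mul _ hW hw (by positivity)
        apply mul_le_mul_of_nonneg_right _ (by positivity)
        exact mul_le_mul_of_nonneg_left ht (by positivity)
    _ = 1024 * Θ ^ 2 / (κ0 * c ^ 2) * W := by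
        field_simp
        ring

theorem numC_d {Θ η κ0 ε1 x m t r l : ℝ} (hΘ : 0 < Θ) (hη : 0 < η) (hκ0 : 0 < κ0) (hx : 0 < x)
    (he : 0 < ε1) (hl : 0 < l)
    (hm : κ0 * η * x / 4 ≤ m) (ht0 : 0 ≤ t) (ht : t ≤ η * x) (hr : ε1 * x / 2 ≤ r) :
    (1 / m) * (4 * (t * (1 + t * (1 / r) * (1 + Θ) + 2 * t * Θ / l)) / r)
      ≤ 32 / κ0 * (1 + 2 * η / ε1 * (1 + Θ)) / (ε1 * x) + 64 * η * Θ / (κ0 * ε1 * l) := by
  have hm0 : 0 < κ0 * η * x / 4 := by positivity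
  have hr0 : 0 < ε1 * x / 2 := by positivity
  have hmp : 0 < m := lt_of_lt_of_le hm0 hm
  have hrp : 0 < r := lt_of_lt_of_le hr0 hr
  have h3 : 1 / m ≤ 1 / (κ0 * η * x / 4) := one_div_le_one_div_of_le hm0 hm
  have h4 : 1 / r ≤ 1 / (ε1 * x / 2) := one_div_le_one_div_of_le hr0 hr
  have h5 : t * (1 / r) ≤ (η * x) * (1 / (ε1 * x / 2)) := by
    apply mul_le_mul ht h4 (by positivity) (by positivity)
  have h6 : 1 + t * (1 / r) * (1 + Θ) + 2 * t * Θ / l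
      ≤ 1 + (η * x) * (1 / (ε1 * x / 2)) * (1 + Θ) + 2 * (η * x) * Θ / l := by
    have h7 : t * (1 / r) * (1 + Θ) ≤ (η * x) * (1 / (ε1 * x / 2)) * (1 + Θ) :=
      mul_le_mul_of_nonneg_right h5 (by positivity)
    have h8 : 2 * t * Θ / l ≤ 2 * (η * x) * Θ / l := by
      apply div_le_div_of_nonneg_right _ hl.le
      apply mul_le_mul_of_nonneg_right _ hΘ.le
      exact mul_le_mul_of_nonneg_left ht (by norm_num)
    linarith
  calc (1 / m) * (4 * (t * (1 + t * (1 / r) * (1 + Θ) + 2 * t * Θ / l)) / r)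
      = (1 / m) * ((4 * (t * (1 + t * (1 / r) * (1 + Θ) + 2 * t * Θ / l))) * (1 / r)) := by
        rw [div_eq_mul_one_div (4 * (t * (1 + t * (1 / r) * (1 + Θ) + 2 * t * Θ / l))) r]
    _ ≤ (1 / (κ0 * η * x / 4)) * ((4 * ((η * x) * (1 + (η * x) * (1 / (ε1 * x / 2)) * (1 + Θ)
          + 2 * (η * x) * Θ / l))) * (1 / (ε1 * x / 2))) := by
        apply mul_le_mul h3 _ (by positivity) (by positivity)
        apply mul_le_mul _ h4 (by positivity) (by positivity)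
        apply mul_le_mul_of_nonneg_left _ (by norm_num)
        exact mul_le_mul ht h6 (by positivity) (by positivity)
    _ = 32 / κ0 * (1 + 2 * η / ε1 * (1 + Θ)) / (ε1 * x) + 64 * η * Θ / (κ0 * ε1 * l) := by
        field_simp
        ring

/-- TARGET -/
theorem numC (Θ η κ0 εF c ρ : ℝ) (hΘ : 1 ≤ Θ) (hη : 0 < η) (hη' : η ≤ 1 / 20) (hκ0 : 0 < κ0)
    (hκ0' : κ0 ≤ 1) (hεF : 0 < εF) (hc : 0 < c) (hρ : 0 < ρ) :
    ∃ (ε1 δ : ℝ) (K2 L' : ℕ), 0 < ε1 ∧ ε1 ≤ 1 / 40 ∧ ε1 ≤ η * κ0 / 8 ∧ 10 ^ 4 * ε1 ^ 2 ≤ ρ ∧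
      0 < δ ∧ δ ≤ η * κ0 / 4 ∧ 1 ≤ K2 ∧ 1 ≤ L' ∧
      ∀ᶠ n : ℕ in Filter.atTop, ∀ (s M0 T r : ℕ), T = ⌊η * Real.sqrt n⌋₊ →
      M0 = ⌊κ0 * T⌋₊ → r = ⌊ε1 * Real.sqrt n⌋₊ → (s : ℝ) ≤ δ * Real.sqrt n →
      Real.sqrt ((1 / (M0 : ℝ)) * (T * Θ ^ 2 * ((s : ℝ) / r) ^ 2
        + 16 / c ^ 2 * (12 * r * Θ ^ 2 + 16 * T * Θ ^ 2
          * Real.sqrt ((1 - 1 / (2 * Θ)) ^ K2 + 8 * (3 / (2 * (n : ℝ))) * r * T))
        + 4 * (T * (1 + T * (1 / (r : ℝ)) * (1 + Θ) + 2 * T * Θ / (L' + 1))) / r)) ≤ εF := by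
  have hΘ0 : 0 < Θ := by linarith
  have hF : 0 < εF ^ 2 := by positivity
  obtain ⟨D, hD⟩ : ∃ D : ℝ, D = 1024 * Θ ^ 2 / (κ0 * c ^ 2) := ⟨_, rfl⟩
  have hDp : 0 < D := by rw [hD]; positivity
  obtain ⟨τ, hτ⟩ : ∃ τ : ℝ, τ = (εF ^ 2 / (5 * D)) ^ 2 := ⟨_, rfl⟩
  have hτp : 0 < τ := by rw [hτ]; positivity
  have hq0 : 0 ≤ 1 - 1 / (2 * Θ) := by
    have : 1 / (2 * Θ) ≤ 1 := by
      rw [div_le_one (by positivity)]
      linarith
    linarith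
  have hq1 : 1 - 1 / (2 * Θ) < 1 := by
    have : 0 < 1 / (2 * Θ) := by positivity
    linarith
  obtain ⟨k, hk⟩ := exists_pow_lt_of_lt_one (show 0 < τ / 2 by positivity) hq1
  have hk2 : (1 - 1 / (2 * Θ)) ^ (k + 1) ≤ τ / 2 := by
    rw [pow_succ]
    have : (1 - 1 / (2 * Θ)) ^ k * (1 - 1 / (2 * Θ)) ≤ (1 - 1 / (2 * Θ)) ^ k * 1 :=
      mul_le_mul_of_nonneg_left hq1.le (pow_nonneg hq0 k)
    linarith
  obtain ⟨ε1, he0, he1, he2, he3, he4, he5⟩ : ∃ ε1 : ℝ, 0 < ε1 ∧ ε1 ≤ 1 / 10 ^ 4 ∧ ε1 ≤ η * κ0 / 8 ∧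
      ε1 ≤ ρ ∧ 12 * ε1 * η ≤ τ / 2 ∧ 768 * ε1 * Θ ^ 2 / (κ0 * η * c ^ 2) ≤ εF ^ 2 / 5 := by
    refine ⟨min (min (min (1 / 10 ^ 4) (η * κ0 / 8)) (min ρ (τ / (24 * η))))
      (εF ^ 2 / 5 * (κ0 * η * c ^ 2) / (768 * Θ ^ 2)), ?_, ?_, ?_, ?_, ?_, ?_⟩
    · apply lt_min (lt_min (lt_min (by norm_num) (by positivity)) (lt_min hρ (by positivity)))
        (by positivity)
    · exact (min_le_left _ _).trans ((min_le_left _ _).trans (min_le_left _ _))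
    · exact (min_le_left _ _).trans ((min_le_left _ _).trans (min_le_right _ _))
    · exact (min_le_left _ _).trans ((min_le_right _ _).trans (min_le_left _ _))
    · have h : min (min (min (1 / 10 ^ 4) (η * κ0 / 8)) (min ρ (τ / (24 * η))))
          (εF ^ 2 / 5 * (κ0 * η * c ^ 2) / (768 * Θ ^ 2)) ≤ τ / (24 * η) :=
        (min_le_left _ _).trans ((min_le_right _ _).trans (min_le_right _ _))
      rw [le_div_iff₀ (by positivity)] at h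
      linarith
    · have h : min (min (min (1 / 10 ^ 4) (η * κ0 / 8)) (min ρ (τ / (24 * η))))
          (εF ^ 2 / 5 * (κ0 * η * c ^ 2) / (768 * Θ ^ 2))
          ≤ εF ^ 2 / 5 * (κ0 * η * c ^ 2) / (768 * Θ ^ 2) := min_le_right _ _
      rw [le_div_iff₀ (by positivity)] at h
      rw [div_le_iff₀ (by positivity)]
      linarith
  obtain ⟨δ, hd0, hd1, hd2⟩ : ∃ δ : ℝ, 0 < δ ∧ δ ≤ η * κ0 / 4 ∧
      16 * Θ ^ 2 * δ / (κ0 * ε1 ^ 2) ≤ εF ^ 2 / 5 := by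
    refine ⟨min (η * κ0 / 4) (εF ^ 2 / 5 * (κ0 * ε1 ^ 2) / (16 * Θ ^ 2)), ?_, ?_, ?_⟩
    · exact lt_min (by positivity) (by positivity)
    · exact min_le_left _ _
    · have h : min (η * κ0 / 4) (εF ^ 2 / 5 * (κ0 * ε1 ^ 2) / (16 * Θ ^ 2))
          ≤ εF ^ 2 / 5 * (κ0 * ε1 ^ 2) / (16 * Θ ^ 2) := min_le_right _ _
      rw [le_div_iff₀ (by positivity)] at h
      rw [div_le_iff₀ (by positivity)]
      linarith
  have hd3 : 16 * Θ ^ 2 * δ ^ 2 / (κ0 * ε1 ^ 2) ≤ εF ^ 2 / 5 := by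
    refine le_trans ?_ hd2
    apply div_le_div_of_nonneg_right _ (by positivity)
    apply mul_le_mul_of_nonneg_left _ (by positivity)
    have : δ ≤ 1 := by nlinarith
    nlinarith
  obtain ⟨L', hL1, hL2⟩ : ∃ L' : ℕ, 1 ≤ L' ∧ 64 * η * Θ / (κ0 * ε1 * ((L' : ℝ) + 1)) ≤ εF ^ 2 / 5 := by
    obtain ⟨L, hL⟩ := exists_nat_ge (64 * η * Θ / (κ0 * ε1) / (εF ^ 2 / 5))
    refine ⟨L + 1, by omega, ?_⟩
    rw [div_le_iff₀ (by positivity)] at hL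
    rw [← div_div, div_le_iff₀ (by positivity)]
    push_cast
    nlinarith
  refine ⟨ε1, δ, k + 1, L', he0, ?_, he2, ?_, hd0, hd1, by omega, hL1, ?_⟩
  · refine he1.trans (by norm_num)
  · have : 10 ^ 4 * ε1 ≤ 1 := by
      rw [le_div_iff₀ (by positivity)] at he1
      linarith
    nlinarith
  have hx : Filter.Tendsto (fun n : ℕ => Real.sqrt (n : ℝ)) Filter.atTop Filter.atTop :=
    Real.tendsto_sqrt_atTop.comp tendsto_natCast_atTop_atTop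
  filter_upwards [hx.eventually_ge_atTop (2 / η), hx.eventually_ge_atTop (2 / ε1),
    hx.eventually_ge_atTop (4 / (κ0 * η)),
    hx.eventually_ge_atTop (32 / κ0 * (1 + 2 * η / ε1 * (1 + Θ)) / ε1 / (εF ^ 2 / 5))]
    with n h1 h2 h3 h4
  intro s M0 T r hT hM hr hs
  obtain ⟨x, hxd⟩ : ∃ x : ℝ, x = Real.sqrt (n : ℝ) := ⟨_, rfl⟩
  rw [← hxd] at h1 h2 h3 h4 hT hr hs
  have hxp : 0 < x := lt_of_lt_of_le (by positivity) h1
  have hn : (n : ℝ) = x ^ 2 := by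
    rw [hxd, Real.sq_sqrt (Nat.cast_nonneg n)]
  have e1 : 2 ≤ η * x := by
    rw [div_le_iff₀ hη] at h1
    linarith
  have e2 : 2 ≤ ε1 * x := by
    rw [div_le_iff₀ he0] at h2
    linarith
  have e3 : 4 ≤ κ0 * η * x := by
    rw [div_le_iff₀ (by positivity)] at h3
    linarith
  have hT1 : (T : ℝ) ≤ η * x := by rw [hT]; exact Nat.floor_le (by positivity)
  have hT2 : η * x / 2 ≤ T := by
    have : η * x < T + 1 := by rw [hT]; exact Nat.lt_floor_add_one _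
    linarith
  have hr1 : (r : ℝ) ≤ ε1 * x := by rw [hr]; exact Nat.floor_le (by positivity)
  have hr2 : ε1 * x / 2 ≤ r := by
    have : ε1 * x < r + 1 := by rw [hr]; exact Nat.lt_floor_add_one _
    linarith
  have hM2 : κ0 * η * x / 4 ≤ M0 := by
    have h : κ0 * T < M0 + 1 := by rw [hM]; exact Nat.lt_floor_add_one _
    have h' : κ0 * (η * x / 2) ≤ κ0 * T := mul_le_mul_of_nonneg_left hT2 hκ0.le
    linarith
  have hs0 : (0 : ℝ) ≤ s := Nat.cast_nonneg s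
  have hT0 : (0 : ℝ) ≤ T := Nat.cast_nonneg T
  have hr0 : (0 : ℝ) ≤ r := Nat.cast_nonneg r
  have A := numC_a (Θ := Θ) hη hκ0 hxp he0 hM2 hT0 hT1 hr2 hs0 hs
  have B := numC_b (Θ := Θ) hη hκ0 hxp hc he0 hM2 hr0 hr1
  have hpb : Real.sqrt ((1 - 1 / (2 * Θ)) ^ (k + 1) + 8 * (3 / (2 * (n : ℝ))) * r * T)
      ≤ εF ^ 2 / (5 * D) := by
    rw [Real.sqrt_le_iff]
    refine ⟨by positivity, ?_⟩
    rw [← hτ]
    have h5 : 8 * (3 / (2 * (n : ℝ))) * r * T ≤ 12 * ε1 * η := by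
      rw [hn]
      calc 8 * (3 / (2 * x ^ 2)) * r * T ≤ 8 * (3 / (2 * x ^ 2)) * (ε1 * x) * (η * x) := by
            apply mul_le_mul _ hT1 hT0 (by positivity)
            exact mul_le_mul_of_nonneg_left hr1 (by positivity)
        _ = 12 * ε1 * η := by
            field_simp
            ring
    linarith
  have C := numC_c (Θ := Θ) hη hκ0 hxp hc hM2 hT0 hT1 (Real.sqrt_nonneg _) hpb
  have C' : 1024 * Θ ^ 2 / (κ0 * c ^ 2) * (εF ^ 2 / (5 * D)) = εF ^ 2 / 5 := by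
    rw [← hD]
    field_simp
  rw [C'] at C
  have Dd := numC_d (l := (L' : ℝ) + 1) hΘ0 hη hκ0 hxp he0 (by positivity) hM2 hT0 hT1 hr2
  have h6 : 32 / κ0 * (1 + 2 * η / ε1 * (1 + Θ)) / (ε1 * x) ≤ εF ^ 2 / 5 := by
    rw [div_le_iff₀ (by positivity)] at h4
    rw [← div_div, div_le_iff₀ hxp]
    linarith
  rw [Real.sqrt_le_iff]
  refine ⟨hεF.le, ?_⟩
  have hsum : (1 / (M0 : ℝ)) * (T * Θ ^ 2 * ((s : ℝ) / r) ^ 2
        + 16 / c ^ 2 * (12 * r * Θ ^ 2 + 16 * T * Θ ^ 2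
          * Real.sqrt ((1 - 1 / (2 * Θ)) ^ (k + 1) + 8 * (3 / (2 * (n : ℝ))) * r * T))
        + 4 * (T * (1 + T * (1 / (r : ℝ)) * (1 + Θ) + 2 * T * Θ / (L' + 1))) / r)
      = (1 / (M0 : ℝ)) * (T * Θ ^ 2 * ((s : ℝ) / r) ^ 2)
        + (1 / (M0 : ℝ)) * (16 / c ^ 2 * (12 * r * Θ ^ 2))
        + (1 / (M0 : ℝ)) * (16 / c ^ 2 * (16 * T * Θ ^ 2
          * Real.sqrt ((1 - 1 / (2 * Θ)) ^ (k + 1) + 8 * (3 / (2 * (n : ℝ))) * r * T)))
        + (1 / (M0 : ℝ)) * (4 * (T * (1 + T * (1 / (r : ℝ)) * (1 + Θ) + 2 * T * Θ / (L' + 1))) / r) := by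
    ring
  rw [hsum]
  linarith

end HP192
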