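import Mathlib
import Pool.Agent.Helper192_HP.Defs
import Pool.Agent.Helper192_HP.WDefs
import Pool.Agent.Helper192_HP.Basic
import Pool.Agent.Helper192_HP.W01
import Pool.Agent.Helper192_HP.W02
import Pool.Agent.Helper192_HP.TDefs
import Pool.Agent.Helper192_HP.FDefs
import Pool.Agent.Helper192_HP.SetupDef
import Pool.Agent.Helper192_HP.PDefs
import Pool.Agent.Helper192_HP.ZDefs
import Pool.Agent.Helper192_HP.FBDef
import Pool.Agent.Helper192_HP.PhpDef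
import Pool.Agent.Helper192_HP.EbdDef
import Pool.Agent.Helper192_HP.W06
import Pool.Agent.Helper192_HP.Z03
import Pool.Agent.Helper192_HP.Z06
import Pool.Agent.Helper192_HP.Z08
import Pool.Agent.Helper192_HP.Z09
import Pool.Agent.Helper192_HP.Z10
import Pool.Agent.Helper192_HP.A03
import Pool.Agent.Helper192_HP.Y11

namespace HP192
open Finset

-- TARGET
section
open MeasureTheory Filter Topology

/-- bounded degree and a short cycle in each graph -/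
theorem FB_C {V : ℕ → Type} [∀ n, Fintype (V n)] [∀ n, DecidableEq (V n)]
    (G : ∀ n, SimpleGraph (V n)) (hS : Setup V G) (O : ∀ n, V n) (Θ : ℝ) (hΘ : 1 ≤ Θ) (d1 L : ℕ)
    (hd3 : ∀ᶠ n in atTop, 3 ≤ dg (G n) (O n)) (hd1 : ∀ᶠ n in atTop, dg (G n) (O n) ≤ d1)
    (hcyc : ∀ᶠ n in atTop, ∃ ℓ, ℓ ≤ L ∧ ∃ c, Cyc (G n) ℓ c)
    (hodd : (∃ L2 : ℕ, ∀ᶠ n in atTop, ∃ ℓ, ℓ ≤ L2 ∧ Odd ℓ ∧ ∃ c, Cyc (G n) ℓ c) ∨
      ∀ L' : ℕ, ∀ᶠ n in atTop, ¬ ∃ ℓ, ℓ ≤ L' ∧ Odd ℓ ∧ ∃ c, Cyc (G n) ℓ c) :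
    FB V G O Θ := by
  intro η κ0 εF hη hη' hκ0 hκ0' hεF
  obtain ⟨c, ρ, R0, hc, hc1, hρ, hρ1, Hmid⟩ := contr_mid Θ d1 L hΘ
  -- the behaviour near the frequency π
  have key : ∃ (c' ρ' : ℝ) (Lo : ℕ), 0 < c' ∧ c' ≤ c ∧ 0 < ρ' ∧ ρ' ≤ ρ ∧ 1 ≤ Lo ∧
      ∀ L' : ℕ, ∀ᶠ n in atTop, ∀ (K : Ker (V n)) (d T r r1 m0 : ℕ),
        IsK (G n) K d (O n) Θ m0 → d ≤ d1 → 1 ≤ r1 → r1 ≤ r → Lo ≤ r →
        8 * (2 * m0 + Lo + 2) ≤ r → r ≤ ⌊Real.sqrt (Fintype.card (V n))⌋₊ →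
        T + r1 ≤ ⌊Real.sqrt (Fintype.card (V n))⌋₊ →
        (10 : ℝ) ^ 4 * r ^ 2 ≤ ρ' * Fintype.card (V n) →
        ∀ θ : ℝ, Real.pi - 1 / r < |θ| → |θ| ≤ Real.pi →
          K.EW r1 (O n) (fun ω0 => K.EW r1 (O n) (fun ω' => ‖K.kap (O n) r θ ω0 ω'‖)) ≤ 1 - c' ∨
          K.EW r1 (O n) (fun ω => ‖K.ph (O n) T θ ω‖ ^ 2)
            ≤ T * (1 + T * (1 / (r : ℝ)) * (1 + Θ) + 2 * T * Θ / (L' + 1)) := by
    rcases hodd with ⟨L2, hL2⟩ | hno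
    · obtain ⟨ρo, hρo, hρo1, Hodd⟩ := contr_odd Θ d1 (max L2 1) hΘ
      refine ⟨min c ρo, min ρ ρo, max L2 1, lt_min hc hρo, min_le_left _ _, lt_min hρ hρo,
        min_le_left _ _, le_max_right _ _, ?_⟩
      intro L'
      filter_upwards [hL2] with n hn K d T r r1 m0 hK hd hr1 hr1r hLor h8 hrx _ h10 θ hθ1 hθ2
      left
      obtain ⟨ℓ, hℓ, hℓo, cc, hcc⟩ := hn
      have h10' : (10 : ℝ) ^ 4 * r ^ 2 ≤ ρo * Fintype.card (V n) := by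
        refine h10.trans ?_
        exact mul_le_mul_of_nonneg_right (min_le_right _ _) (Nat.cast_nonneg _)
      have hLo0 : (0 : ℝ) < ((max L2 1 : ℕ) : ℝ) := by
        have : 1 ≤ max L2 1 := le_max_right _ _
        exact_mod_cast this
      have hθ : |(|θ| - Real.pi)| ≤ 1 / ((max L2 1 : ℕ) : ℝ) := by
        rw [abs_sub_comm, abs_of_nonneg (by linarith)]
        have h1 : (1 : ℝ) / r ≤ 1 / ((max L2 1 : ℕ) : ℝ) := by
          apply one_div_le_one_div_of_le hLo0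
          exact_mod_cast hLor
        linarith
      have h := Hodd (V n) (G n) K d (O n) m0 hK hd r r1 h8 hr1 hr1r hrx h10'
        ⟨ℓ, hℓ.trans (le_max_left _ _), hℓo, cc, hcc⟩ θ hθ
      refine h.trans ?_
      have := min_le_right c ρo
      linarith
    · refine ⟨c, ρ, 1, hc, le_rfl, hρ, le_rfl, le_rfl, ?_⟩
      intro L'
      filter_upwards [hno L'] with n hn K d T r r1 m0 hK hd hr1 hr1r hLor h8 hrx hTr h10 θ hθ1 hθ2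
      right
      have hNo : NoCyc K L' Odd := noCyc_of (G n) K d hK.hP L' Odd hn
      have h := K.ph_pi (O n) T r1 L' Θ θ hr1 (hK.th _ hTr) hNo
      refine h.trans ?_
      have hT0 : (0 : ℝ) ≤ T := Nat.cast_nonneg _
      have habs : |(|θ| - Real.pi)| ≤ 1 / (r : ℝ) := by
        rw [abs_sub_comm, abs_of_nonneg (by linarith)]
        linarith
      have h1 : (T : ℝ) * |(|θ| - Real.pi)| * (1 + Θ) ≤ T * (1 / (r : ℝ)) * (1 + Θ) := by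
        apply mul_le_mul_of_nonneg_right _ (by linarith)
        exact mul_le_mul_of_nonneg_left habs hT0
      apply mul_le_mul_of_nonneg_left _ hT0
      linarith
  obtain ⟨c', ρ', Lo, hc', hc'c, hρ', hρ'ρ, hLo, Hπ⟩ := key
  obtain ⟨ε1, δ, K2, L', hε1, hε1', hε1'', hε1ρ, hδ, hδ', hK2, hL', Hnum⟩ :=
    numC Θ η κ0 εF c' ρ' hΘ hη hη' hκ0 hκ0' hεF hc' hρ'
  refine ⟨ε1, δ, K2, hε1, hε1', hε1'', hδ, hδ', hK2, ?_⟩
  have hK2r : (1 : ℝ) ≤ K2 := by exact_mod_cast hK2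
  have hq : 0 < ε1 / (4 * K2) := by positivity
  have hx := y11_sqrt G hS
  have E1 := (hx.const_mul_atTop (mul_pos hη hκ0)).eventually_ge_atTop (100 : ℝ)
  have E2 := (hx.const_mul_atTop hε1).eventually_ge_atTop (100 * (K2 : ℝ))
  have E3 := hx.eventually_ge_atTop (100 : ℝ)
  have E4 := y11_mix G hS (ε1 / (4 * K2)) hq
  have E5 := (hx.const_mul_atTop hq).eventually_ge_atTop (1 : ℝ)
  have E6 := y11_mix G hS (ε1 / 64) (by positivity)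
  have E7 := (hx.const_mul_atTop hε1).eventually_ge_atTop (32 * ((R0 : ℝ) + Lo + 2))
  have E8 := hS.card.eventually Hnum
  filter_upwards [E1, E2, E3, E4, E5, E6, E7, E8, Hπ L', hd3, hd1, hcyc] with n e1 e2 e3 e4 e5 e6
    e7 e8 hπ h3 h1 hcy
  intro K d hK s T M0 r1 hTdef hM0def hr1def hs
  set x : ℝ := Real.sqrt (Fintype.card (V n)) with hxdef
  have hxx : x ^ 2 = (Fintype.card (V n) : ℝ) := Real.sq_sqrt (Nat.cast_nonneg _)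
  have hx0 : 0 < x := by linarith
  have hdd : dg (G n) (O n) = d := hK.hd (O n)
  have hpar := y11_par η κ0 ε1 δ K2 hη hη' hκ0 hκ0' hε1 hε1' hε1'' hδ' hK2 x e1 e2 e3
    (tmix (G n)) 1 T ⌊x / 4⌋₊ M0 ⌊ε1 * x⌋₊ r1 e4 (by simpa using e5) hTdef rfl hM0def rfl hr1def
  obtain ⟨⟨p1, -, -, -, p5, p6⟩, ⟨q1, -, q3, -⟩, ⟨u1, u2, u3, -, u5⟩, ⟨v1, -, -, -⟩, hsM⟩ := hpar
  set r : ℕ := ⌊ε1 * x⌋₊ with hrdef
  have hrle : (r : ℝ) ≤ ε1 * x := Nat.floor_le (by positivity)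
  have hrge : ε1 * x - 1 < r := Nat.sub_one_lt_floor _
  have hm0r : (tmix (G n) : ℝ) ≤ ε1 / 64 * x := e6
  have hR0 : (0 : ℝ) ≤ R0 := Nat.cast_nonneg _
  have hLo1 : (1 : ℝ) ≤ Lo := by exact_mod_cast hLo
  have hm64 : 64 * (tmix (G n) : ℝ) ≤ ε1 * x := by
    have h9 : ε1 / 64 * x = (ε1 * x) / 64 := by ring
    rw [h9] at hm0r
    linarith
  have e7' : 32 * ((R0 : ℝ) + Lo + 2) ≤ ε1 * x := e7
  have hbig : 8 * (2 * (tmix (G n) : ℝ) + R0) ≤ r := by linarith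
  have hbig2 : 8 * (2 * (tmix (G n) : ℝ) + Lo + 2) ≤ r := by linarith
  have hbig' : 8 * (2 * tmix (G n) + R0) ≤ r := by exact_mod_cast hbig
  have hbig2' : 8 * (2 * tmix (G n) + Lo + 2) ≤ r := by exact_mod_cast hbig2
  have hr10 : (10 : ℝ) ^ 4 * (r : ℝ) ^ 2 ≤ ρ' * Fintype.card (V n) := by
    have h4 : (r : ℝ) ^ 2 ≤ (ε1 * x) ^ 2 := pow_le_pow_left₀ (Nat.cast_nonneg _) hrle 2
    rw [← hxx]
    have h5 : (10 : ℝ) ^ 4 * (ε1 * x) ^ 2 ≤ ρ' * x ^ 2 := by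
      have : (10 : ℝ) ^ 4 * (ε1 * x) ^ 2 = (10 ^ 4 * ε1 ^ 2) * x ^ 2 := by ring
      rw [this]
      exact mul_le_mul_of_nonneg_right hε1ρ (by positivity)
    exact (mul_le_mul_of_nonneg_left h4 (by positivity)).trans h5
  have hr10ρ : (10 : ℝ) ^ 4 * (r : ℝ) ^ 2 ≤ ρ * Fintype.card (V n) :=
    hr10.trans (mul_le_mul_of_nonneg_right hρ'ρ (Nat.cast_nonneg _))
  have hκ : 3 / (2 * (Fintype.card (V n) : ℝ)) * (2 * (T : ℝ) + 1) ^ 2 ≤ 1 / 2 := by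
    rw [← hxx]
    have h4 : (2 * (T : ℝ) + 1) ^ 2 ≤ (x / 5) ^ 2 := pow_le_pow_left₀ (by positivity) v1 2
    calc 3 / (2 * x ^ 2) * (2 * (T : ℝ) + 1) ^ 2 ≤ 3 / (2 * x ^ 2) * (x / 5) ^ 2 :=
          mul_le_mul_of_nonneg_left h4 (by positivity)
      _ = 3 / 50 := by field_simp; norm_num
      _ ≤ 1 / 2 := by norm_num
  have hr1' : 1 ≤ r1 := by
    rw [hr1def]
    exact Nat.one_le_iff_ne_zero.mpr (by positivity)
  have hTr : T + r1 ≤ ⌊x⌋₊ := by omega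
  have hrx : r ≤ ⌊x⌋₊ := by omega
  have hT3r : T + 3 * r ≤ ⌊x⌋₊ := by omega
  have hcyc' : ∃ ℓ, ℓ ≤ L ∧ ∃ c, Cyc (G n) ℓ c := hcy
  have hBp : (0 : ℝ) ≤ T * (1 + T * (1 / (r : ℝ)) * (1 + Θ) + 2 * T * Θ / (L' + 1)) := by
    have : (0 : ℝ) ≤ Θ := by linarith
    positivity
  have hmain := K.FbarC (O n) T r r1 (tmix (G n) + 1) K2 s M0 (tmix (G n)) Θ
    (3 / (2 * (Fintype.card (V n) : ℝ))) c'
    (T * (1 + T * (1 / (r : ℝ)) * (1 + Θ) + 2 * T * Θ / (L' + 1))) p6 hr1def hr1' q1 p5 q3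
    (hK.th _ u1) (hK.th _ u2) (fun a b => hK.up _ a b le_rfl) (Nat.le_succ _) p1 hκ hc'
    (hc'c.trans hc1) hBp
    (by
      intro θ h5 h6
      have h7 := Hmid (V n) (G n) K d (O n) (tmix (G n)) hK (hdd ▸ h3) (hdd ▸ h1) T r r1 p6 hbig'
        hr1' q1 q3 hT3r u2 hκ hr10ρ hcyc' θ h5 h6
      linarith)
    (by
      intro θ h5 h6
      exact hπ K d T r r1 (tmix (G n)) hK (hdd ▸ h1) hr1' q1 (by omega) hbig2' hrx hTr hr10 θ h5 h6)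
  refine hmain.trans ?_
  exact e8 s M0 T r hTdef hM0def rfl hs

end

end HP192
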