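import Mathlib
import Pool.Agent.Helper192_HP.Defs
import Pool.Agent.Helper192_HP.WDefs
import Pool.Agent.Helper192_HP.Basic
import Pool.Agent.Helper192_HP.W01
import Pool.Agent.Helper192_HP.W02
import Pool.Agent.Helper192_HP.TDefs
import Pool.Agent.Helper192_HP.FDefs
import Pool.Agent.Helper192_HP.SetupDef
import Pool.Agent.Helper192_HP.PDefs
import Pool.Agent.Helper192_HP.ZDefs
import Pool.Agent.Helper192_HP.FBDef
import Pool.Agent.Helper192_HP.PhpDef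
import Pool.Agent.Helper192_HP.EbdDef
import Pool.Agent.Helper192_HP.W06
import Pool.Agent.Helper192_HP.Z06
import Pool.Agent.Helper192_HP.Z09
import Pool.Agent.Helper192_HP.A04
import Pool.Agent.Helper192_HP.Y03
import Pool.Agent.Helper192_HP.Y11

namespace HP192
open Finset

-- TARGET
section
open MeasureTheory Filter Topology

theorem fbG_num (W L' : ℕ) (Θ η κ0 εF x T M0 : ℝ) (hΘ : 1 ≤ Θ) (hη : 0 < η) (hκ0 : 0 < κ0)
    (hεF : 0 < εF) (hW : 1 ≤ W) (hx : 0 < x) (hL : 192 * W * Θ ≤ κ0 * εF * ((L' : ℝ) + 1))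
    (hx1 : 16 * W * (12 + 12 * Θ) ≤ κ0 * η * εF * x) (hM0 : κ0 * η * x / 2 ≤ M0)
    (hT0 : 0 ≤ T) (hT : T ≤ η * x) :
    (1 / M0) * (2 * W * (12 + 12 * Θ + 12 * T * Θ / ((L' : ℝ) + 1))) ≤ εF / 2 := by
  have hp : 0 < κ0 * η * x := by positivity
  have hM0' : 0 < M0 := by linarith
  have hW' : (1 : ℝ) ≤ W := by exact_mod_cast hW
  have hL1 : (0 : ℝ) < (L' : ℝ) + 1 := by positivity
  rw [one_div, inv_mul_le_iff₀ hM0']
  have h1 : 12 * T * Θ / ((L' : ℝ) + 1) ≤ 12 * (η * x) * Θ / ((L' : ℝ) + 1) := by gcongr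
  have h2 : 2 * W * (12 * (η * x) * Θ / ((L' : ℝ) + 1)) ≤ κ0 * η * x / 2 * (εF / 4) := by
    have e : 2 * (W : ℝ) * (12 * (η * x) * Θ / ((L' : ℝ) + 1)) =
        (η * x) * (192 * W * Θ / ((L' : ℝ) + 1)) / 8 := by ring
    have h3 : 192 * W * Θ / ((L' : ℝ) + 1) ≤ κ0 * εF := by
      rw [div_le_iff₀ hL1]
      exact hL
    rw [e]
    have h4 : (η * x) * (192 * W * Θ / ((L' : ℝ) + 1)) ≤ (η * x) * (κ0 * εF) := by gcongr
    nlinarith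
  have h3 : 2 * (W : ℝ) * (12 + 12 * Θ) ≤ κ0 * η * x / 2 * (εF / 4) := by nlinarith
  have h4 : κ0 * η * x / 2 * (εF / 2) ≤ M0 * (εF / 2) := by gcongr
  have h5 : 2 * (W : ℝ) * (12 * T * Θ / ((L' : ℝ) + 1)) ≤
      2 * W * (12 * (η * x) * Θ / ((L' : ℝ) + 1)) := by gcongr
  nlinarith

/-- no short cycles -/
theorem FB_G {V : ℕ → Type} [∀ n, Fintype (V n)] [∀ n, DecidableEq (V n)]
    (G : ∀ n, SimpleGraph (V n)) (hS : Setup V G) (O : ∀ n, V n) (Θ : ℝ) (hΘ : 1 ≤ Θ)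
    (hd3 : ∀ᶠ n in atTop, 3 ≤ dg (G n) (O n))
    (hcyc : ∀ L' : ℕ, ∀ᶠ n in atTop, ¬ ∃ ℓ, ℓ ≤ L' ∧ True ∧ ∃ c, Cyc (G n) ℓ c) :
    FB V G O Θ := by
  intro η κ0 εF hη hη' hκ0 hκ0' hεF
  obtain ⟨ε1, δ, K2, W, hε1, hε1', hε1'', hδ, hδ', hK2, hW, hnum⟩ :=
    numF Θ η κ0 (εF / 2) hΘ hη hη' hκ0 hκ0' (by positivity)
  refine ⟨ε1, δ, K2, hε1, hε1', hε1'', hδ, hδ', hK2, ?_⟩
  obtain ⟨L', hL'⟩ := exists_nat_ge (192 * (W : ℝ) * Θ / (κ0 * εF))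
  have hL : 192 * (W : ℝ) * Θ ≤ κ0 * εF * ((L' : ℝ) + 1) := by
    rw [div_le_iff₀ (by positivity)] at hL'
    nlinarith [mul_pos hκ0 hεF]
  have hsq := y11_sqrt G hS
  have hK2' : (1 : ℝ) ≤ K2 := by exact_mod_cast hK2
  filter_upwards [hd3, hcyc L', hS.card.eventually hnum,
    y11_mix G hS (ε1 / (4 * K2)) (by positivity),
    hsq.eventually_ge_atTop (100 / (η * κ0)), hsq.eventually_ge_atTop (100 * (K2 : ℝ) / ε1),
    hsq.eventually_ge_atTop 100,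
    hsq.eventually_ge_atTop (16 * W * (12 + 12 * Θ) / (κ0 * η * εF))] with
    n h3 hc hn hmix hx1 hx2 hx3 hx4
  intro K d hK s T M0 r1 hT hM0 hr1 hs
  set x : ℝ := Real.sqrt (Fintype.card (V n)) with hxdef
  have hx1' : 100 ≤ η * κ0 * x := by
    rw [div_le_iff₀ (by positivity)] at hx1
    linarith
  have hx2' : 100 * (K2 : ℝ) ≤ ε1 * x := by
    rw [div_le_iff₀ hε1] at hx2
    linarith
  have hx4' : 16 * W * (12 + 12 * Θ) ≤ κ0 * η * εF * x := by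
    rw [div_le_iff₀ (by positivity)] at hx4
    linarith
  have hxx : x ^ 2 = (Fintype.card (V n) : ℝ) := by
    rw [hxdef]
    exact Real.sq_sqrt (by positivity)
  have hw1 : ((1 : ℕ) : ℝ) ≤ ε1 / (4 * K2) * x := by
    have e : ε1 / (4 * K2) * x = (ε1 * x) / (4 * K2) := by ring
    rw [e, le_div_iff₀ (by positivity)]
    push_cast
    nlinarith
  obtain ⟨⟨p1, p2, p3, p4, p5, p6⟩, ⟨q1, q2, q3, q4⟩, ⟨a1, a2, a3, a4, a5⟩, ⟨b1, b2, b3, b4⟩, hs'⟩ :=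
    y11_par η κ0 ε1 δ K2 hη hη' hκ0 hκ0' hε1 hε1' hε1'' hδ' hK2 x hx1' hx2' hx3
      (tmix (G n)) 1 T ⌊x / 4⌋₊ M0 ⌊ε1 * x⌋₊ r1 hmix hw1 hT rfl hM0 rfl hr1
  have hd : 3 ≤ d := by
    have := hK.hd (O n)
    unfold dg at h3
    rw [← this]
    convert h3
  have hP : ∀ a b, a ≠ b → K.P a b = 0 ∨ K.P a b = 1 / (2 * (d : ℝ)) := by
    intro a b hab
    rw [hK.hP a b hab]
    split_ifs
    · exact Or.inr rfl
    · exact Or.inl rfl
  have hNC : NoCyc K L' (fun _ => True) := noCyc_of (G n) K d hK.hP L' (fun _ => True) hc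
  have hr1' : 1 ≤ r1 := by
    rw [hr1]
    have : 1 ≤ (tmix (G n) + 1) * K2 := Nat.mul_pos (Nat.succ_pos _) hK2
    nlinarith
  have hcard : (0 : ℝ) < Fintype.card (V n) := by
    rw [← hxx]
    positivity
  have hκ : 3 / (2 * (Fintype.card (V n) : ℝ)) * (2 * (T : ℝ) + 1) ^ 2 ≤ 1 / 2 := by
    have h0 : (0 : ℝ) ≤ 2 * (T : ℝ) + 1 := by positivity
    have h1 : (2 * (T : ℝ) + 1) ^ 2 ≤ (x / 5) ^ 2 := by gcongr
    have h2 : (x / 5) ^ 2 = (Fintype.card (V n) : ℝ) / 25 := by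
      rw [div_pow, hxx]
      norm_num
    rw [h2] at h1
    rw [div_mul_eq_mul_div, div_le_iff₀ (by positivity)]
    linarith
  have hU : ∀ Mx, K.EW r1 (O n) (fun ω => ∑ M ∈ range Mx,
      |K.fM (O n) T (M + 1) ω - K.fM (O n) T M ω|) ≤ 12 + 12 * Θ + 12 * T * Θ / (L' + 1) := by
    intro Mx
    exact K.unit_shift2 (O n) T r1 Mx L' d Θ hr1' (hK.th _ (show T + r1 ≤ ⌊x⌋₊ by omega)) hd hP hNC
  have hF := K.FbarU (O n) T ⌊ε1 * x⌋₊ r1 (tmix (G n) + 1) K2 W s M0 (tmix (G n)) Θ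
    (3 / (2 * (Fintype.card (V n) : ℝ))) _ p6 hr1 hr1' q1 hW p5 q3 (hK.th _ a1) (hK.th _ a2)
    (fun a b => hK.up _ a b le_rfl) (Nat.le_succ _) p1 hκ hU
  have hE := hn s W M0 T ⌊ε1 * x⌋₊ hT hM0 rfl hs le_rfl
  have hN := fbG_num W L' Θ η κ0 εF x T M0 hΘ hη hκ0 hεF hW (by linarith) hL hx4' b3
    (by positivity) b4
  refine hF.trans ?_
  linarith

end

end HP192
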