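import Mathlib
import Pool.Agent.Helper192_HP.Fin2
import Pool.Agent.Helper192_HP.Z11
import Pool.Agent.Helper192_HP.Z12

namespace HP192
open Finset

section
open MeasureTheory Filter Topology

/-- finite-dimensional convergence of the height profile -/
theorem final_fdd {V : ℕ → Type} [∀ n, Fintype (V n)] [∀ n, DecidableEq (V n)]
    (G : ∀ n, SimpleGraph (V n)) (hS : Setup V G) (O : ∀ n, V n)
    (β : ℕ → ℝ) (b1 b2 : ℝ) (hb1 : 0 < b1) (hβ : ∀ n, b1 ≤ β n ∧ β n ≤ b2)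
    {Ω : Type} [MeasurableSpace Ω] (P : Measure Ω) [IsProbabilityMeasure P]
    (e : Ω → C(unitInterval, ℝ)) (he : Measurable e) (hGHP : GHPconv G O β P e)
    (ℓ : Ω → ℝ → ℝ) (hℓ : ∀ᵐ ω ∂P, ContinuousOn (ℓ ω) (Set.Ici 0) ∧
      ∀ r : ℝ, 0 ≤ r → De (e ω) r = ∫ s in (0 : ℝ)..r, ℓ ω s)
    (m : ℕ) (r : Fin m → ℝ) (hr : ∀ i, 0 < r i)
    (F : (Fin m → ℝ) → ℝ) (hF : Continuous F) (hFb : ∃ C, ∀ x, |F x| ≤ C) :
    Tendsto (fun n => avT (G n) (fun T => F (fun i =>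
      β n / Real.sqrt (Fintype.card (V n))
        * (Hp (O n) T ⌊r i * β n * Real.sqrt (Fintype.card (V n))⌋₊ : ℝ))))
      atTop (𝓝 (∫ ω, F (fun i => ℓ ω (r i)) ∂P)) := by
  have hd3 := deg_three G hS O
  obtain ⟨θ, hθ⟩ := hS.a1
  obtain ⟨Θ, hΘe⟩ : ∃ Θ : ℝ, Θ = max θ 1 := ⟨_, rfl⟩
  have hΘ1 : 1 ≤ Θ := by rw [hΘe]; exact le_max_right _ _
  have hΘ : ∀ n, ∀ x : V n,
      ∑ t ∈ range (⌊Real.sqrt (Fintype.card (V n))⌋₊ + 1), ((t : ℝ) + 1) * pt (G n) t x x ≤ Θ := by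
    intro n x
    rw [hΘe]
    exact (hθ n x).trans (le_max_left _ _)
  refine tendsto_of_subseq_tendsto fun φ0 hφ0 => ?_
  -- the conclusion along a subsequence of `φ0` on which `FB` holds
  have hgo : ∀ ms : ℕ → ℕ, Tendsto ms atTop atTop →
      FB (fun n => V (φ0 (ms n))) (fun n => G (φ0 (ms n))) (fun n => O (φ0 (ms n))) Θ →
      Tendsto (fun n => (fun n => avT (G n) (fun T => F (fun i =>
      β n / Real.sqrt (Fintype.card (V n))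
        * (Hp (O n) T ⌊r i * β n * Real.sqrt (Fintype.card (V n))⌋₊ : ℝ)))) (φ0 (ms n)))
      atTop (𝓝 (∫ ω, F (fun i => ℓ ω (r i)) ∂P)) := by
    intro ms hms hFB
    have hφ : Tendsto (fun n => φ0 (ms n)) atTop atTop := hφ0.comp hms
    exact final_FB (V := fun n => V (φ0 (ms n))) (fun n => G (φ0 (ms n)))
      (hS.sub (fun n => φ0 (ms n)) hφ) (fun n => O (φ0 (ms n))) Θ hΘ1
      (fun n x => hΘ (φ0 (ms n)) x) hFB (fun n => β (φ0 (ms n))) b1 b2 hb1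
      (fun n => hβ (φ0 (ms n))) P e he (hGHP.sub (fun n => φ0 (ms n)) hφ) ℓ hℓ m r hr F hF hFb
  by_cases hH : Tendsto (fun n => dg (G (φ0 n)) (O (φ0 n))) atTop atTop
  · refine ⟨id, ?_⟩
    exact final_H (V := fun n => V (φ0 n)) (fun n => G (φ0 n)) (hS.sub φ0 hφ0)
      (fun n => O (φ0 n)) hH (fun n => β (φ0 n)) b1 b2 hb1 (fun n => hβ (φ0 n)) P e he
      (hGHP.sub φ0 hφ0) ℓ hℓ m r hr F hF hFb
  · -- bounded degree along a subsequence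
    obtain ⟨d1, hd1⟩ : ∃ d1 : ℕ, ∃ᶠ n in atTop, dg (G (φ0 n)) (O (φ0 n)) ≤ d1 := by
      by_contra hne
      push Not at hne
      refine hH (tendsto_atTop.2 fun b => ?_)
      exact (hne b).mono fun n hn => hn.le
    obtain ⟨φ1, hφ1, h1⟩ := Filter.extraction_of_frequently_atTop hd1
    have hφ1' : Tendsto φ1 atTop atTop := hφ1.tendsto_atTop
    by_cases hG : ∀ L' : ℕ, ∀ᶠ n in atTop,
        ¬ ∃ ℓ, ℓ ≤ L' ∧ True ∧ ∃ c, Cyc (G (φ0 (φ1 n))) ℓ c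
    · refine ⟨φ1, hgo φ1 hφ1' ?_⟩
      exact FB_G (V := fun n => V (φ0 (φ1 n))) (fun n => G (φ0 (φ1 n)))
        (hS.sub (fun n => φ0 (φ1 n)) (hφ0.comp hφ1')) (fun n => O (φ0 (φ1 n))) Θ hΘ1
        ((hφ0.comp hφ1').eventually hd3) hG
    · push Not at hG
      obtain ⟨L, hL⟩ := hG
      obtain ⟨φ2, hφ2, h2⟩ := Filter.extraction_of_frequently_atTop hL
      have hφ2' : Tendsto φ2 atTop atTop := hφ2.tendsto_atTop
      have h2' : ∀ n, ∃ ℓ, ℓ ≤ L ∧ ∃ c, Cyc (G (φ0 (φ1 (φ2 n)))) ℓ c := by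
        intro n
        obtain ⟨ℓ', h, _, c, hc⟩ := h2 n
        exact ⟨ℓ', h, c, hc⟩
      by_cases hO : ∀ L' : ℕ, ∀ᶠ n in atTop,
          ¬ ∃ ℓ, ℓ ≤ L' ∧ Odd ℓ ∧ ∃ c, Cyc (G (φ0 (φ1 (φ2 n)))) ℓ c
      · refine ⟨fun n => φ1 (φ2 n), hgo _ (hφ1'.comp hφ2') ?_⟩
        exact FB_C (V := fun n => V (φ0 (φ1 (φ2 n)))) (fun n => G (φ0 (φ1 (φ2 n))))
          (hS.sub (fun n => φ0 (φ1 (φ2 n))) (hφ0.comp (hφ1'.comp hφ2')))
          (fun n => O (φ0 (φ1 (φ2 n)))) Θ hΘ1 d1 L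
          ((hφ0.comp (hφ1'.comp hφ2')).eventually hd3) (Eventually.of_forall fun n => h1 (φ2 n))
          (Eventually.of_forall h2') (Or.inr hO)
      · push Not at hO
        obtain ⟨L2, hL2⟩ := hO
        obtain ⟨φ3, hφ3, h3⟩ := Filter.extraction_of_frequently_atTop hL2
        have hφ3' : Tendsto φ3 atTop atTop := hφ3.tendsto_atTop
        refine ⟨fun n => φ1 (φ2 (φ3 n)), hgo _ (hφ1'.comp (hφ2'.comp hφ3')) ?_⟩
        exact FB_C (V := fun n => V (φ0 (φ1 (φ2 (φ3 n))))) (fun n => G (φ0 (φ1 (φ2 (φ3 n)))))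
          (hS.sub (fun n => φ0 (φ1 (φ2 (φ3 n)))) (hφ0.comp (hφ1'.comp (hφ2'.comp hφ3'))))
          (fun n => O (φ0 (φ1 (φ2 (φ3 n))))) Θ hΘ1 d1 L
          ((hφ0.comp (hφ1'.comp (hφ2'.comp hφ3'))).eventually hd3)
          (Eventually.of_forall fun n => h1 (φ2 (φ3 n)))
          (Eventually.of_forall fun n => h2' (φ3 n))
          (Or.inl ⟨L2, Eventually.of_forall h3⟩)

end

end HP192
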