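import Mathlib
import Pool.Agent.Helper192_HP.Defs
import Pool.Agent.Helper192_HP.PDefs

namespace HP192
open Finset

section TC
variable {V : Type} [Fintype V] [DecidableEq V] (G : SimpleGraph V)

theorem mem_bd' {A : Finset V} {x : V} : x ∈ bd G A ↔ x ∉ A ∧ ∃ a ∈ A, G.Adj a x := by
  classical
  simp [bd]

theorem bd_submod (A C : Finset V) :
    (bd G (A ∩ C)).card + (bd G (A ∪ C)).card ≤ (bd G A).card + (bd G C).card := by
  rw [← Finset.card_union_add_card_inter (bd G (A ∩ C)), ← Finset.card_union_add_card_inter (bd G A)]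
  refine add_le_add (Finset.card_le_card ?_) (Finset.card_le_card ?_)
  · intro x hx
    rw [Finset.mem_union, mem_bd', mem_bd', Finset.mem_inter] at hx
    rw [Finset.mem_union, mem_bd', mem_bd']
    rcases hx with ⟨h1, y, hy, h2⟩ | ⟨h1, y, hy, h2⟩
    · rw [Finset.mem_inter] at hy
      by_cases hxA : x ∈ A
      · exact Or.inr ⟨fun h => h1 ⟨hxA, h⟩, y, hy.2, h2⟩
      · exact Or.inl ⟨hxA, y, hy.1, h2⟩
    · rw [Finset.mem_union, not_or] at h1
      rcases Finset.mem_union.1 hy with h3 | h3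
      · exact Or.inl ⟨h1.1, y, h3, h2⟩
      · exact Or.inr ⟨h1.2, y, h3, h2⟩
  · intro x hx
    rw [Finset.mem_inter, mem_bd', mem_bd'] at hx
    rw [Finset.mem_inter, mem_bd', mem_bd']
    obtain ⟨⟨_, y, hy, h2⟩, h1, _⟩ := hx
    rw [Finset.mem_union, not_or] at h1
    rw [Finset.mem_inter] at hy
    exact ⟨⟨h1.1, y, hy.1, h2⟩, h1.2, y, hy.2, h2⟩

def Adm (A : Finset V) : Prop := A.Nonempty ∧ ∃ x, x ∉ A ∧ x ∉ bd G A

theorem bd_image (φ : G ≃g G) (A : Finset V) : bd G (A.image φ) = (bd G A).image φ := by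
  ext x
  constructor
  · intro hx
    obtain ⟨h1, y, hy, h2⟩ := (mem_bd' G).1 hx
    obtain ⟨a, ha, rfl⟩ := Finset.mem_image.1 hy
    refine Finset.mem_image.2 ⟨φ.symm x, (mem_bd' G).2 ⟨fun h => h1 ?_, a, ha, ?_⟩,
      φ.apply_symm_apply x⟩
    · exact Finset.mem_image.2 ⟨_, h, φ.apply_symm_apply x⟩
    · rw [← φ.map_adj_iff, φ.apply_symm_apply]
      exact h2
  · intro hx
    obtain ⟨z, hz, rfl⟩ := Finset.mem_image.1 hx
    obtain ⟨h1, a, ha, h2⟩ := (mem_bd' G).1 hz
    refine (mem_bd' G).2 ⟨fun h => h1 ?_, φ a, Finset.mem_image_of_mem _ ha, φ.map_adj_iff.2 h2⟩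
    obtain ⟨b, hb, hbz⟩ := Finset.mem_image.1 h
    rwa [← φ.injective hbz]

theorem adm_image (φ : G ≃g G) {A : Finset V} (h : Adm G A) : Adm G (A.image φ) := by
  obtain ⟨h1, x, h2, h3⟩ := h
  refine ⟨h1.image _, φ x, ?_, ?_⟩
  · intro h
    obtain ⟨b, hb, hbz⟩ := Finset.mem_image.1 h
    exact h2 (by rwa [← φ.injective hbz])
  · rw [bd_image]
    intro h
    obtain ⟨b, hb, hbz⟩ := Finset.mem_image.1 h
    exact h3 (by rwa [← φ.injective hbz])

/-- the vertices at distance at least two from `A` -/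
noncomputable def rst (A : Finset V) : Finset V := univ.filter (fun x => x ∉ A ∧ x ∉ bd G A)

theorem mem_rst {A : Finset V} {x : V} : x ∈ rst G A ↔ x ∉ A ∧ x ∉ bd G A := by
  simp [rst]

theorem card_split (A : Finset V) :
    Fintype.card V = A.card + (bd G A).card + (rst G A).card := by
  have h1 : Disjoint A (bd G A) := by
    rw [Finset.disjoint_left]
    intro x hx h2
    exact ((mem_bd' G).1 h2).1 hx
  have h2 : Disjoint (A ∪ bd G A) (rst G A) := by
    rw [Finset.disjoint_left]
    intro x hx h3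
    rw [mem_rst] at h3
    rcases Finset.mem_union.1 hx with h | h
    · exact h3.1 h
    · exact h3.2 h
  rw [← Finset.card_union_of_disjoint h1, ← Finset.card_union_of_disjoint h2, ← Finset.card_univ]
  congr 1
  symm
  rw [Finset.eq_univ_iff_forall]
  intro x
  rw [Finset.mem_union, Finset.mem_union, mem_rst]
  tauto

theorem not_adj_rst {A : Finset V} {x b : V} (hb : b ∈ rst G A) (hx : x ∈ A) : ¬ G.Adj x b := by
  intro h
  rw [mem_rst] at hb
  exact hb.2 ((mem_bd' G).2 ⟨hb.1, x, hx, h⟩)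

theorem adm_of_sub_rst {A D : Finset V} (hA : A.Nonempty) (hD : D.Nonempty) (h : D ⊆ rst G A) :
    Adm G D := by
  obtain ⟨a, ha⟩ := hA
  refine ⟨hD, a, fun h1 => ((mem_rst G).1 (h h1)).1 ha, fun h1 => ?_⟩
  obtain ⟨_, b, hb, hab⟩ := (mem_bd' G).1 h1
  exact not_adj_rst G (h hb) ha hab.symm

theorem adm_of_sub {A D : Finset V} (hA : Adm G A) (hD : D.Nonempty) (h : D ⊆ A) : Adm G D := by
  obtain ⟨_, x, h1, h2⟩ := hA
  refine ⟨hD, x, fun h3 => h1 (h h3), fun h3 => h2 ?_⟩
  obtain ⟨_, b, hb, hab⟩ := (mem_bd' G).1 h3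
  exact (mem_bd' G).2 ⟨h1, b, h hb, hab⟩

theorem bd_rst_sub (A : Finset V) : bd G (rst G A) ⊆ bd G A := by
  intro x hx
  obtain ⟨h1, b, hb, hab⟩ := (mem_bd' G).1 hx
  rw [mem_rst, not_and_or, not_not, not_not] at h1
  rcases h1 with h1 | h1
  · exact absurd hab.symm (not_adj_rst G hb h1)
  · exact h1

theorem bd_nonempty (hG : G.Connected) {A : Finset V} (hA : A.Nonempty) {x : V} (hx : x ∉ A) :
    (bd G A).Nonempty := by
  by_contra hcon
  rw [Finset.not_nonempty_iff_eq_empty] at hcon
  obtain ⟨a, ha⟩ := hA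
  have h1 : ∀ y, G.Reachable a y → y ∈ A := by
    intro y hy
    obtain ⟨p⟩ := hy
    induction p with
    | nil => exact ha
    | cons hadj p ih =>
      refine ih ?_
      by_contra h
      have : _ ∈ bd G A := (mem_bd' G).2 ⟨h, _, ha, hadj⟩
      rw [hcon] at this
      exact absurd this (Finset.notMem_empty _)
  exact hx (h1 x (hG.preconnected a x))

theorem three_conn_aux (hG : G.Connected)
    (htr : ∀ x y : V, ∃ φ : G ≃g G, φ x = y)
    (hn : 5 ≤ Fintype.card V) {A : Finset V} (hA : Adm G A)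
    (hone : A.card ≠ 1) (hthree : ∀ a ∈ A, A.card = 2 → (bd G A).card = 2 → bd G A ⊆ bd G {a})
    (hmin1 : ∀ C, Adm G C → (bd G A).card ≤ (bd G C).card)
    (hmin2 : ∀ C, Adm G C → (bd G C).card = (bd G A).card → A.card ≤ C.card)
    (hk : (bd G A).card ≤ 2) : False := by
  set κ := (bd G A).card with hκ
  have hsmall : ∀ C, Adm G C → C.card < A.card → κ + 1 ≤ (bd G C).card := by
    intro C hC h1
    have h2 := hmin1 C hC
    have h3 := hmin2 C hC
    by_contra h4
    have := h3 (by omega)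
    omega
  have hA1 := hA.1
  have hA2 : 2 ≤ A.card := by
    have := hA1.card_pos
    omega
  have hBne : (rst G A).Nonempty := by
    obtain ⟨_, x, h1, h2⟩ := hA
    exact ⟨x, (mem_rst G).2 ⟨h1, h2⟩⟩
  have hB : Adm G (rst G A) := adm_of_sub_rst G hA1 hBne (fun _ h => h)
  have hBκ : (bd G (rst G A)).card = κ :=
    le_antisymm (Finset.card_le_card (bd_rst_sub G A)) (hmin1 _ hB)
  have hAB : A.card ≤ (rst G A).card := hmin2 _ hB hBκ
  have hcard := card_split G A
  have claim1 : ∀ φ : G ≃g G, (A ∩ A.image φ).Nonempty → A.image φ = A := by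
    intro φ hne
    by_contra hcon
    have hcC : (A.image φ).card = A.card := Finset.card_image_of_injective _ φ.injective
    have h1 : (A ∩ A.image φ).card < A.card := by
      refine Finset.card_lt_card ⟨Finset.inter_subset_left, fun h => hcon ?_⟩
      symm
      refine Finset.eq_of_subset_of_card_le (fun x hx => (Finset.mem_inter.1 (h hx)).2) hcC.le
    have h2 := hsmall _ (adm_of_sub G hA hne Finset.inter_subset_left) h1
    have h3 := bd_submod G A (A.image φ)
    have h4 : (bd G (A.image φ)).card = κ := by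
      rw [bd_image, Finset.card_image_of_injective _ φ.injective]
    rw [h4] at h3
    have h5 : ¬ Adm G (A ∪ A.image φ) := by
      intro h6
      have := hmin1 _ h6
      omega
    have h6 : (rst G (A ∪ A.image φ)) = ∅ := by
      by_contra h7
      obtain ⟨x, hx⟩ := Finset.nonempty_iff_ne_empty.2 h7
      rw [mem_rst] at hx
      exact h5 ⟨hA1.mono Finset.subset_union_left, x, hx⟩
    have h7 := card_split G (A ∪ A.image φ)
    rw [h6, Finset.card_empty] at h7
    have h8 := Finset.card_union_add_card_inter A (A.image φ)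
    have h9 := hne.card_pos
    omega
  have claim2 : ∀ (φ : G ≃g G) (x : V), x ∈ bd G A → x ∈ A.image φ → A.image φ ⊆ bd G A := by
    intro φ x hx hxC
    have hxA := ((mem_bd' G).1 hx).1
    have hcC : (A.image φ).card = A.card := Finset.card_image_of_injective _ φ.injective
    have h4 : (bd G (A.image φ)).card = κ := by
      rw [bd_image, Finset.card_image_of_injective _ φ.injective]
    have hdis : ∀ y ∈ A.image φ, y ∉ A := by
      intro y hy hyA
      have := claim1 φ ⟨y, Finset.mem_inter.2 ⟨hyA, hy⟩⟩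
      rw [this] at hxC
      exact hxA hxC
    have hdB : ∀ y ∈ A.image φ, y ∉ rst G A := by
      intro y hy hyB
      set C := A.image φ with hC
      have hCB : (C ∩ rst G A).Nonempty := ⟨y, Finset.mem_inter.2 ⟨hy, hyB⟩⟩
      have h1 := adm_of_sub_rst G hA1 hCB Finset.inter_subset_right
      have h2 : (C ∩ rst G A).card < A.card := by
        rw [← hcC]
        refine Finset.card_lt_card ⟨Finset.inter_subset_left, fun h => ?_⟩
        have := (Finset.mem_inter.1 (h hxC)).2
        rw [mem_rst] at this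
        exact this.2 hx
      have h3 := hsmall _ h1 h2
      have h5 := bd_submod G C (rst G A)
      rw [h4, hBκ] at h5
      have h6 : ¬ Adm G (C ∪ rst G A) := by
        intro h7
        have := hmin1 _ h7
        omega
      have h7 : A ⊆ bd G (C ∪ rst G A) := by
        intro a ha
        by_contra h8
        refine h6 ⟨⟨y, Finset.mem_union.2 (Or.inl hy)⟩, a, fun h9 => ?_, h8⟩
        rcases Finset.mem_union.1 h9 with h10 | h10
        · exact hdis a h10 ha
        · exact ((mem_rst G).1 h10).1 ha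
      have h8 := Finset.card_le_card h7
      omega
    intro y hy
    by_contra h
    exact hdB y hy ((mem_rst G).2 ⟨hdis y hy, h⟩)
  obtain ⟨_, x0, hx0, _⟩ := hA
  obtain ⟨x, hx⟩ := bd_nonempty G hG hA1 hx0
  obtain ⟨a, ha⟩ := hA1
  obtain ⟨φ, hφ⟩ := htr a x
  have hxC : x ∈ A.image φ := Finset.mem_image.2 ⟨a, ha, hφ⟩
  have hsub := claim2 φ x hx hxC
  have hcC : (A.image φ).card = A.card := Finset.card_image_of_injective _ φ.injective
  have hle := Finset.card_le_card hsub
  rw [hcC] at hle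
  have hA22 : A.card = 2 := by omega
  have hκ2 : (bd G A).card = 2 := by omega
  have hCeq : A.image φ = bd G A := Finset.eq_of_subset_of_card_le hsub (by omega)
  -- the translate
  have hψ : A.image (φ.trans φ) = bd G (bd G A) := by
    rw [← hCeq, bd_image, ← hCeq, Finset.image_image]
    rfl
  have hmem : ∀ b ∈ A, b ∈ bd G (bd G A) := by
    intro b hb
    refine (mem_bd' G).2 ⟨fun h => ((mem_bd' G).1 h).1 hb, x, hx, ?_⟩
    have h1 := hthree b hb hA22 hκ2 hx
    obtain ⟨_, c, hc, h2⟩ := (mem_bd' G).1 h1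
    rw [Finset.mem_singleton] at hc
    rw [← hc]
    exact h2.symm
  have hAA := claim1 (φ.trans φ) ⟨a, Finset.mem_inter.2 ⟨ha, by rw [hψ]; exact hmem a ha⟩⟩
  rw [hψ] at hAA
  -- everything
  have hall : ∀ y, y ∈ A ∪ bd G A := by
    intro y
    by_contra hy
    obtain ⟨z, hz⟩ := bd_nonempty G hG (A := A ∪ bd G A) ⟨a, Finset.mem_union.2 (Or.inl ha)⟩ hy
    obtain ⟨h1, c, hc, h2⟩ := (mem_bd' G).1 hz
    rw [Finset.mem_union, not_or] at h1
    rcases Finset.mem_union.1 hc with h3 | h3
    · exact h1.2 ((mem_bd' G).2 ⟨h1.1, c, h3, h2⟩)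
    · refine h1.1 ?_
      rw [← hAA]
      exact (mem_bd' G).2 ⟨h1.2, c, h3, h2⟩
  have h1 : (A ∪ bd G A) = univ := Finset.eq_univ_iff_forall.2 hall
  have h2 := Finset.card_union_le A (bd G A)
  rw [h1, Finset.card_univ] at h2
  omega

end TC

open Classical in
/-- TARGET -/
theorem three_conn {V : Type} [Fintype V] [DecidableEq V] (G : SimpleGraph V) (hG : G.Connected)
    (htr : ∀ x y : V, ∃ φ : G ≃g G, φ x = y) (d : ℕ) (hd3 : 3 ≤ d)
    (hd : ∀ v, (univ.filter (fun w => G.Adj v w)).card = d) (hn : 5 ≤ Fintype.card V)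
    (A : Finset V) (hA : A.Nonempty) (hB : ∃ x, x ∉ A ∧ x ∉ bd G A) : 3 ≤ (bd G A).card := by
  classical
  by_contra hcon
  push Not at hcon
  -- choose an atom
  have hAd : Adm G A := ⟨hA, hB⟩
  set S : Finset (Finset V) := univ.filter (fun C => Adm G C) with hS
  have hSne : S.Nonempty := ⟨A, by rw [hS, Finset.mem_filter]; exact ⟨Finset.mem_univ _, hAd⟩⟩
  obtain ⟨A', hA'S, hA'min⟩ := S.exists_min_image
    (fun C => (bd G C).card * (Fintype.card V + 1) + C.card) hSne
  have hA' : Adm G A' := (Finset.mem_filter.1 hA'S).2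
  have hm : ∀ C, Adm G C → (bd G A').card * (Fintype.card V + 1) + A'.card ≤
      (bd G C).card * (Fintype.card V + 1) + C.card := fun C hC =>
    hA'min C (by rw [hS, Finset.mem_filter]; exact ⟨Finset.mem_univ _, hC⟩)
  have hmin1 : ∀ C, Adm G C → (bd G A').card ≤ (bd G C).card := by
    intro C hC
    have h1 := hm C hC
    have h2 : C.card ≤ Fintype.card V := Finset.card_le_univ C
    by_contra h3
    push Not at h3
    have h4 : ((bd G C).card + 1) * (Fintype.card V + 1) ≤
        (bd G A').card * (Fintype.card V + 1) := Nat.mul_le_mul_right _ h3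
    have h5 : ((bd G C).card + 1) * (Fintype.card V + 1) =
      (bd G C).card * (Fintype.card V + 1) + (Fintype.card V + 1) := by ring
    omega
  have hmin2 : ∀ C, Adm G C → (bd G C).card = (bd G A').card → A'.card ≤ C.card := by
    intro C hC h1
    have h2 := hm C hC
    rw [h1] at h2
    omega
  have hnb : ∀ v : V, bd G {v} = univ.filter (fun w => G.Adj v w) := by
    intro v
    ext w
    rw [mem_bd', Finset.mem_filter]
    constructor
    · rintro ⟨_, b, hb, h⟩
      rw [Finset.mem_singleton] at hb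
      exact ⟨Finset.mem_univ _, by rw [← hb]; exact h⟩
    · rintro ⟨_, h⟩
      refine ⟨fun h1 => ?_, v, Finset.mem_singleton_self _, h⟩
      rw [Finset.mem_singleton] at h1
      rw [h1] at h
      exact G.irrefl h
  have hk : (bd G A').card ≤ 2 := le_trans (hmin1 A hAd) (by omega)
  refine three_conn_aux G hG htr hn hA' ?_ ?_ hmin1 hmin2 hk
  · intro h1
    obtain ⟨v, hv⟩ := Finset.card_eq_one.1 h1
    rw [hv, hnb, hd v] at hk
    omega
  · intro a ha h2 h3
    have h4 : bd G {a} ⊆ (A'.erase a) ∪ bd G A' := by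
      intro w hw
      obtain ⟨h5, b, hb, h6⟩ := (mem_bd' G).1 hw
      rw [Finset.mem_singleton] at hb h5
      rw [hb] at h6
      rw [Finset.mem_union, Finset.mem_erase]
      by_cases hwA : w ∈ A'
      · exact Or.inl ⟨h5, hwA⟩
      · exact Or.inr ((mem_bd' G).2 ⟨hwA, a, ha, h6⟩)
    have h5 : (A'.erase a ∪ bd G A').card ≤ (bd G {a}).card := by
      refine le_trans (Finset.card_union_le _ _) ?_
      rw [Finset.card_erase_of_mem ha, h2, h3, hnb, hd a]
      omega
    have h6 := Finset.eq_of_subset_of_card_le h4 h5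
    rw [h6]
    exact Finset.subset_union_right

end HP192
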