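import Mathlib
import Pool.Agent.Helper192_HP.Defs
import Pool.Agent.Helper192_HP.WDefs
import Pool.Agent.Helper192_HP.Basic
import Pool.Agent.Helper192_HP.W01
import Pool.Agent.Helper192_HP.W02

namespace HP192
open Finset

/-! helper lemmas for the target -/
namespace Ker
variable {V : Type} [Fintype V] [DecidableEq V] (K : Ker V)

theorem EW_lin_kp {E E' : Type} [AddCommMonoid E] [Module ℝ E] [AddCommMonoid E'] [Module ℝ E']
    (f : E →ₗ[ℝ] E') (t : ℕ) (x : V) (F : List V → E) :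
    f (K.EW t x F) = K.EW t x (fun w => f (F w)) := by
  induction t generalizing x F with
  | zero => rw [EW_zero, EW_zero]
  | succ t ih =>
    rw [EW_succ, EW_succ, map_sum]
    refine sum_congr rfl fun y _ => ?_
    rw [map_smul, ih]

theorem EW_comm_kp {E : Type} [AddCommMonoid E] [Module ℝ E]
    (s t : ℕ) (x y : V) (F : List V → List V → E) :
    K.EW s x (fun w => K.EW t y (fun w' => F w w'))
      = K.EW t y (fun w' => K.EW s x (fun w => F w w')) := by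
  induction s generalizing x F with
  | zero => simp only [EW_zero]
  | succ s ih =>
    rw [EW_succ]
    have h1 : (fun w' => K.EW (s + 1) x (fun w => F w w'))
        = (fun w' => ∑ z, K.P x z • K.EW s z (fun w => F (w ++ [z]) w')) := by
      funext w'
      rw [EW_succ]
    rw [h1, EW_sum]
    refine sum_congr rfl fun z _ => ?_
    rw [EW_smul, ih]

/-- phase of a path -/
noncomputable def phz_kp (θ : ℝ) (w : List V) : ℂ :=
  Complex.exp ((((len w : ℝ)) * θ : ℝ) * Complex.I)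

theorem norm_phz_kp (θ : ℝ) (w : List V) : ‖phz_kp θ w‖ = 1 :=
  Complex.norm_exp_ofReal_mul_I _

/-- the averaged phase given the two ends and the value `x` of the middle vertex -/
noncomputable def KB_kp (o : V) (r : ℕ) (θ : ℝ) (ω0 : List V) (x : V) (ω' : List V) : ℂ :=
  (1 / (r : ℝ)) • ∑ R ∈ range r, K.EW (r + R) (tip o ω0) (fun ω1 =>
    if tip (tip o ω0) ω1 = x then phz_kp θ (ω' ++ ω1 ++ ω0) else 0)

open Classical in
/-- its phase -/
noncomputable def psi_kp (o : V) (r : ℕ) (θ : ℝ) (ω0 : List V) (x : V) (ω' : List V) : ℂ :=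
  if K.KB_kp o r θ ω0 x ω' = 0 then 1
  else K.KB_kp o r θ ω0 x ω' / (‖K.KB_kp o r θ ω0 x ω'‖ : ℂ)

theorem norm_psi_kp (o : V) (r : ℕ) (θ : ℝ) (ω0 : List V) (x : V) (ω' : List V) :
    ‖K.psi_kp o r θ ω0 x ω'‖ = 1 := by
  unfold psi_kp
  split_ifs with h
  · exact norm_one
  · rw [norm_div, Complex.norm_real, norm_norm]
    exact div_self (norm_ne_zero_iff.2 h)

theorem KB_psi_kp (o : V) (r : ℕ) (θ : ℝ) (ω0 : List V) (x : V) (ω' : List V) :
    (K.KB_kp o r θ ω0 x ω' * (starRingEnd ℂ) (K.psi_kp o r θ ω0 x ω')).re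
      = ‖K.KB_kp o r θ ω0 x ω'‖ := by
  unfold psi_kp
  split_ifs with h
  · simp [h]
  · rw [map_div₀, Complex.conj_ofReal, mul_div_assoc', Complex.mul_conj, ← Complex.ofReal_div,
      Complex.ofReal_re, Complex.normSq_eq_norm_sq, pow_two]
    exact mul_div_cancel_right₀ _ (norm_ne_zero_iff.2 h)

theorem tip_map_kp (g : V → V) (x : V) (w : List V) : tip (g x) (w.map g) = g (tip x w) := by
  cases w with
  | nil => simp
  | cons a w => simp

theorem tip_ne_kp (x y : V) (w : List V) (hw : w ≠ []) : tip x w = tip y w := by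
  cases w with
  | nil => exact absurd rfl hw
  | cons a w => simp

theorem phz_map_kp (θ : ℝ) (g : Equiv.Perm V) (w : List V) :
    phz_kp θ (w.map g) = phz_kp θ w := by
  unfold phz_kp
  rw [len_map g g.injective]

theorem KB_inv_kp (o : V) (r : ℕ) (θ : ℝ) (g : Equiv.Perm V)
    (hg : ∀ a b, K.P (g a) (g b) = K.P a b) (ω0 : List V) (x : V) (ω' : List V) (h0 : ω0 ≠ []) :
    K.KB_kp o r θ (ω0.map g) (g x) (ω'.map g) = K.KB_kp o r θ ω0 x ω' := by
  unfold KB_kp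
  have ht : tip o (ω0.map g) = g (tip o ω0) := by
    rw [tip_ne_kp o (g o) (ω0.map g) (by simpa using h0), tip_map_kp]
  rw [ht]
  congr 1
  refine sum_congr rfl fun R _ => ?_
  rw [EW_auto K g hg]
  refine EW_congr K _ _ _ _ fun w _ => ?_
  rw [tip_map_kp, ← List.map_append, ← List.map_append, phz_map_kp]
  simp only [EmbeddingLike.apply_eq_iff_eq]

theorem norm_sub_sq_kp (z p : ℂ) (hz : ‖z‖ = 1) (hp : ‖p‖ = 1) :
    ‖z - p‖ ^ 2 = 2 - 2 * (z * (starRingEnd ℂ) p).re := by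
  rw [← Complex.normSq_eq_norm_sq, Complex.normSq_sub, Complex.normSq_eq_norm_sq,
    Complex.normSq_eq_norm_sq, hz, hp]
  ring

/-- the real linear form `z ↦ Re (z * conj p)` -/
noncomputable def reL_kp (p : ℂ) : ℂ →ₗ[ℝ] ℝ where
  toFun z := (z * (starRingEnd ℂ) p).re
  map_add' a b := by rw [add_mul, Complex.add_re]
  map_smul' c a := by
    rw [smul_mul_assoc, Complex.smul_re, RingHom.id_apply]

theorem reL_apply_kp (p z : ℂ) : reL_kp p z = (z * (starRingEnd ℂ) p).re := rfl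

/-- the average of the norms -/
noncomputable def J_kp (o : V) (r r0 : ℕ) (θ : ℝ) : ℝ :=
  K.EW r0 o (fun ω0 => ∑ x, K.EW r0 x (fun ω' => ‖K.KB_kp o r θ ω0 x ω'‖))

theorem kap_eq_kp (o : V) (r : ℕ) (θ : ℝ) (ω0 ω' : List V) :
    K.kap o r θ ω0 ω' = Complex.exp (((-(len ω' : ℝ) * θ : ℝ)) * Complex.I)
      * ∑ x, K.KB_kp o r θ ω0 x (ω'.map (K.sy o x)) := by
  unfold kap KB_kp
  rw [← smul_sum, mul_smul_comm, sum_comm, mul_sum]
  congr 1
  refine sum_congr rfl fun R _ => ?_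
  rw [← EW_sum]
  have h1 := K.EW_lin_kp (LinearMap.mulLeft ℝ
    (Complex.exp (((-(len ω' : ℝ) * θ : ℝ)) * Complex.I))) (r + R) (tip o ω0)
    (fun ω1 => ∑ x, if tip (tip o ω0) ω1 = x then
      phz_kp θ (ω'.map (K.sy o x) ++ ω1 ++ ω0) else 0)
  simp only [LinearMap.mulLeft_apply] at h1
  rw [h1]
  refine EW_congr K _ _ _ _ fun w _ => ?_
  rw [sum_ite_eq univ (tip (tip o ω0) w)]
  simp only [mem_univ, if_true]
  unfold phz_kp
  rw [← Complex.exp_add]
  congr 1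
  push_cast
  ring

theorem kap_le_kp (o : V) (r : ℕ) (θ : ℝ) (ω0 ω' : List V) :
    ‖K.kap o r θ ω0 ω'‖ ≤ ∑ x, ‖K.KB_kp o r θ ω0 x (ω'.map (K.sy o x))‖ := by
  rw [kap_eq_kp, norm_mul, Complex.norm_exp_ofReal_mul_I, one_mul]
  exact norm_sum_le _ _

theorem kap_le_J_kp (o : V) (r r0 : ℕ) (θ : ℝ) :
    K.EW r0 o (fun ω0 => K.EW r0 o (fun ω' => ‖K.kap o r θ ω0 ω'‖)) ≤ K.J_kp o r r0 θ := by
  unfold J_kp
  refine EW_mono K _ _ _ _ fun ω0 _ => ?_
  calc K.EW r0 o (fun ω' => ‖K.kap o r θ ω0 ω'‖)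
      ≤ K.EW r0 o (fun ω' => ∑ x, ‖K.KB_kp o r θ ω0 x (ω'.map (K.sy o x))‖) :=
        EW_mono K _ _ _ _ fun ω' _ => K.kap_le_kp o r θ ω0 ω'
    _ = ∑ x, K.EW r0 o (fun ω' => ‖K.KB_kp o r θ ω0 x (ω'.map (K.sy o x))‖) := by
        rw [← EW_sum]
    _ = ∑ x, K.EW r0 x (fun ω' => ‖K.KB_kp o r θ ω0 x ω'‖) := by
        refine sum_congr rfl fun x _ => ?_
        have hs := Classical.choose_spec (K.tr o x)
        have h2 := K.EW_auto (K.sy o x) hs.2 r0 o (fun ω' => ‖K.KB_kp o r θ ω0 x ω'‖)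
        have h3 : K.sy o x o = x := hs.1
        rw [h3] at h2
        exact h2.symm
    _ ≤ _ := le_refl _

theorem J_eq_kp (o : V) (r r0 : ℕ) (θ : ℝ) :
    K.J_kp o r r0 θ = (1 / (r : ℝ)) * ∑ R ∈ range r, K.EW r0 o (fun ω0 =>
      K.EW (r + R) (tip o ω0) (fun ω1 => K.EW r0 (tip (tip o ω0) ω1) (fun ω' =>
        (phz_kp θ (ω' ++ ω1 ++ ω0)
          * (starRingEnd ℂ) (K.psi_kp o r θ ω0 (tip (tip o ω0) ω1) ω')).re))) := by
  unfold J_kp
  rw [← EW_sum, ← EW_mul_left]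
  refine EW_congr K _ _ _ _ fun ω0 _ => ?_
  have h1 : ∀ x, K.EW r0 x (fun ω' => ‖K.KB_kp o r θ ω0 x ω'‖)
      = (1 / (r : ℝ)) * ∑ R ∈ range r, K.EW (r + R) (tip o ω0) (fun ω1 =>
        K.EW r0 x (fun ω' => if tip (tip o ω0) ω1 = x then
          (phz_kp θ (ω' ++ ω1 ++ ω0) * (starRingEnd ℂ) (K.psi_kp o r θ ω0 x ω')).re else 0)) := by
    intro x
    have h2 : (fun ω' => ‖K.KB_kp o r θ ω0 x ω'‖) = (fun ω' => (1 / (r : ℝ)) *
        ∑ R ∈ range r, K.EW (r + R) (tip o ω0) (fun ω1 =>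
          if tip (tip o ω0) ω1 = x then
          (phz_kp θ (ω' ++ ω1 ++ ω0) * (starRingEnd ℂ) (K.psi_kp o r θ ω0 x ω')).re else 0)) := by
      funext ω'
      rw [← KB_psi_kp, ← reL_apply_kp]
      conv_lhs => rw [KB_kp]
      rw [map_smul, map_sum, smul_eq_mul]
      congr 1
      refine sum_congr rfl fun R _ => ?_
      rw [EW_lin_kp]
      refine EW_congr K _ _ _ _ fun w _ => ?_
      split_ifs with h
      · rw [reL_apply_kp]
      · rw [map_zero]
    rw [h2, EW_mul_left, EW_sum]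
    congr 1
    refine sum_congr rfl fun R _ => ?_
    rw [EW_comm_kp]
  simp only [h1]
  rw [← mul_sum, sum_comm]
  congr 1
  refine sum_congr rfl fun R _ => ?_
  rw [← EW_sum]
  refine EW_congr K _ _ _ _ fun ω1 _ => ?_
  rw [sum_eq_single (tip (tip o ω0) ω1)]
  · simp only [if_true]
  · intro x _ hx
    have h3 : (fun ω' : List V => if tip (tip o ω0) ω1 = x then
        (phz_kp θ (ω' ++ ω1 ++ ω0) * (starRingEnd ℂ) (K.psi_kp o r θ ω0 x ω')).re else 0)
        = (fun _ => (0 : ℝ)) := by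
      funext ω'
      rw [if_neg (fun h => hx h.symm)]
    rw [h3, EW_zero_fun]
  · intro h
    exact absurd (mem_univ _) h

end Ker

-- TARGET
namespace Ker
variable {V : Type} [Fintype V] [DecidableEq V] (K : Ker V)

/-- the defect of the contraction constant is half the variance of the phase given the ends -/
theorem kap_psi (o : V) (r r0 : ℕ) (hr : 1 ≤ r) (hr0 : 1 ≤ r0) (θ : ℝ) :
    ∃ ψ : List V → V → List V → ℂ,
      (∀ g : Equiv.Perm V, (∀ a b, K.P (g a) (g b) = K.P a b) → ∀ (ω0 : List V) (x : V) (ω' : List V),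
        ω0 ≠ [] → ψ (ω0.map g) (g x) (ω'.map g) = ψ ω0 x ω') ∧
      K.EW r0 o (fun ω0 => K.EW r0 o (fun ω' => ‖K.kap o r θ ω0 ω'‖))
        ≤ 1 - 1 / 2 * ((1 / (r : ℝ)) * ∑ R ∈ range r, K.EW r0 o (fun ω0 =>
          K.EW (r + R) (tip o ω0) (fun ω1 => K.EW r0 (tip (tip o ω0) ω1) (fun ω' =>
            ‖Complex.exp ((((len (ω' ++ ω1 ++ ω0) : ℝ)) * θ : ℝ) * Complex.I)
              - ψ ω0 (tip (tip o ω0) ω1) ω'‖ ^ 2)))) := by
  refine ⟨K.psi_kp o r θ, fun g hg ω0 x ω' h0 => ?_, ?_⟩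
  · unfold psi_kp
    rw [KB_inv_kp K o r θ g hg ω0 x ω' h0]
  · refine (K.kap_le_J_kp o r r0 θ).trans (le_of_eq ?_)
    have hrr : (r : ℝ) ≠ 0 := by
      have : (0 : ℝ) < r := by exact_mod_cast hr
      exact this.ne'
    have h1 : ∀ R, K.EW r0 o (fun ω0 =>
          K.EW (r + R) (tip o ω0) (fun ω1 => K.EW r0 (tip (tip o ω0) ω1) (fun ω' =>
            ‖Complex.exp ((((len (ω' ++ ω1 ++ ω0) : ℝ)) * θ : ℝ) * Complex.I)
              - K.psi_kp o r θ ω0 (tip (tip o ω0) ω1) ω'‖ ^ 2)))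
        = 2 - 2 * K.EW r0 o (fun ω0 =>
          K.EW (r + R) (tip o ω0) (fun ω1 => K.EW r0 (tip (tip o ω0) ω1) (fun ω' =>
            (phz_kp θ (ω' ++ ω1 ++ ω0)
              * (starRingEnd ℂ) (K.psi_kp o r θ ω0 (tip (tip o ω0) ω1) ω')).re))) := by
      intro R
      have h2 : ∀ ω0 ω1 ω' : List V,
          ‖Complex.exp ((((len (ω' ++ ω1 ++ ω0) : ℝ)) * θ : ℝ) * Complex.I)
              - K.psi_kp o r θ ω0 (tip (tip o ω0) ω1) ω'‖ ^ 2
            = 2 - 2 * (phz_kp θ (ω' ++ ω1 ++ ω0)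
              * (starRingEnd ℂ) (K.psi_kp o r θ ω0 (tip (tip o ω0) ω1) ω')).re := by
        intro ω0 ω1 ω'
        exact norm_sub_sq_kp _ _ (norm_phz_kp θ (ω' ++ ω1 ++ ω0)) (K.norm_psi_kp o r θ ω0 _ ω')
      simp only [h2, EW_sub, EW_const, EW_mul_left]
    simp only [h1]
    rw [J_eq_kp, sum_sub_distrib, ← mul_sum, sum_const, card_range, nsmul_eq_mul]
    field_simp
    ring

end Ker

end HP192
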