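import Mathlib
import Pool.Agent.Helper192_HP.Defs
import Pool.Agent.Helper192_HP.WDefs
import Pool.Agent.Helper192_HP.Basic
import Pool.Agent.Helper192_HP.W01
import Pool.Agent.Helper192_HP.W02
import Pool.Agent.Helper192_HP.RDefs

namespace HP192
open Finset

namespace Ker
variable {V : Type} [Fintype V] [DecidableEq V] (K : Ker V)

theorem dom_tip_map (g : V → V) (x : V) (w : List V) : tip (g x) (w.map g) = g (tip x w) := by
  cases w with
  | nil => rfl
  | cons y w => rfl

/-- keep a single path -/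
theorem dom_keep (p : ℝ) (hp : 0 < p) (x : V) : ∀ (l : List V),
    List.IsChain (fun a b => p ≤ K.P b a) (l ++ [x]) → ∀ G : List V → ℝ, (∀ w, 0 ≤ G w) →
      p ^ l.length * G l ≤ K.EW l.length x G := by
  intro l
  induction l with
  | nil =>
    intro _ G hG
    rw [List.length_nil, pow_zero, one_mul, K.EW_zero]
  | cons y l ih =>
    intro hch G hG
    have hch' : List.IsChain (fun a b => p ≤ K.P b a) (l ++ [x]) := by
      rw [List.cons_append] at hch
      exact hch.tail
    have hstep : p ≤ K.P (tip x l) y := by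
      cases l with
      | nil =>
        have h := hch
        simp only [List.cons_append, List.nil_append, List.isChain_cons_cons] at h
        exact h.1
      | cons z l' =>
        have h := hch
        simp only [List.cons_append, List.isChain_cons_cons] at h
        exact h.1
    rw [List.length_cons, K.EW_succ']
    have h1 := ih hch' (fun w => ∑ y', K.P (tip x w) y' • G (y' :: w)) (by
      intro w
      exact Finset.sum_nonneg fun y' _ => mul_nonneg (K.nn _ _) (hG _))
    refine le_trans ?_ h1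
    rw [pow_succ, mul_assoc]
    apply mul_le_mul_of_nonneg_left _ (pow_nonneg hp.le _)
    refine le_trans (mul_le_mul_of_nonneg_right hstep (hG _)) ?_
    have h2 := Finset.single_le_sum (f := fun y' => K.P (tip x l) y' • G (y' :: l))
      (fun y' _ => mul_nonneg (K.nn _ _) (hG _)) (Finset.mem_univ y)
    simpa using h2

end Ker

-- TARGET
namespace Ker
variable {V : Type} [Fintype V] [DecidableEq V] (K : Ker V)

/-- walks through the fixed path `v :: c ++ [u]` at a fixed time, summed over the starting point,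
are dominated by all walks from `o` -/
theorem dom (o : V) (r0 a b m : ℕ) (hr0 : 1 ≤ r0) (D : Finset V) (p : ℝ) (hp : 0 < p) (u v : V)
    (c : List V) (hc : K.Conn D p m u v c) (Φ : List V → List V → List V → ℝ)
    (hΦ0 : ∀ ω0 ω1 ω', 0 ≤ Φ ω0 ω1 ω')
    (hΦ : ∀ g : Equiv.Perm V, (∀ a b, K.P (g a) (g b) = K.P a b) → ∀ ω0 ω1 ω' : List V,
      ω0 ≠ [] → Φ (ω0.map g) (ω1.map g) (ω'.map g) = Φ ω0 ω1 ω') :
    p ^ (c.length + 1) * ∑ s, K.EW r0 s (fun ω0 => K.EW a (tip s ω0) (fun q =>
        if tip (tip s ω0) q = u then K.EW b v (fun f => K.EW r0 (tip v f) (fun ω' =>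
          Φ ω0 (f ++ (v :: c) ++ q) ω')) else 0))
      ≤ K.EW r0 o (fun ω0 => K.EW (a + b + c.length + 1) (tip o ω0) (fun ω1 =>
          K.EW r0 (tip (tip o ω0) ω1) (fun ω' => Φ ω0 ω1 ω'))) := by
  classical
  have hN : a + b + c.length + 1 = a + (c.length + 1 + b) := by omega
  set N : ℕ := c.length + 1 + b with hNdef
  -- the functionals
  let M : V → List V → List V → ℝ := fun z ω0 q =>
    K.EW N z (fun ω1 => K.EW r0 (tip z ω1) (fun ω' => Φ ω0 (ω1 ++ q) ω'))
  let J : V → ℝ := fun z => ∑ s, K.EW r0 s (fun ω0 => K.EW a (tip s ω0) (fun q =>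
    if tip (tip s ω0) q = z then M z ω0 q else 0))
  let RR : V → ℝ := fun s => K.EW r0 s (fun ω0 => K.EW (a + N) (tip s ω0) (fun ω1 =>
    K.EW r0 (tip (tip s ω0) ω1) (fun ω' => Φ ω0 ω1 ω')))
  have hne : ∀ w : List V, w.length = r0 → w ≠ [] := by
    intro w hw h
    rw [h, List.length_nil] at hw
    omega
  have hMinv : ∀ g : Equiv.Perm V, (∀ a b, K.P (g a) (g b) = K.P a b) → ∀ z ω0 q, ω0 ≠ [] →
      M (g z) (ω0.map g) (q.map g) = M z ω0 q := by
    intro g hg z ω0 q hω0
    simp only [M]
    rw [K.EW_auto g hg]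
    apply K.EW_congr
    intro ω1 _
    rw [dom_tip_map, K.EW_auto g hg]
    apply K.EW_congr
    intro ω' _
    rw [← List.map_append]
    exact hΦ g hg _ _ _ hω0
  have hJinv : ∀ z z', J z' = J z := by
    intro z z'
    obtain ⟨g, hgz, hg⟩ := K.tr z z'
    simp only [J]
    rw [← Equiv.sum_comp g]
    apply Finset.sum_congr rfl
    intro s _
    rw [K.EW_auto g hg]
    apply K.EW_congr
    intro ω0 hω0
    rw [dom_tip_map, K.EW_auto g hg]
    apply K.EW_congr
    intro q _
    rw [dom_tip_map, ← hgz, hMinv g hg z ω0 q (hne _ hω0)]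
    by_cases h : tip (tip s ω0) q = z
    · rw [if_pos h, if_pos (congrArg g h)]
    · rw [if_neg h, if_neg (fun h' => h (g.injective h'))]
  have hRinv : ∀ s, RR s = RR o := by
    intro s
    obtain ⟨g, hgo, hg⟩ := K.tr o s
    simp only [RR]
    rw [← hgo, K.EW_auto g hg]
    apply K.EW_congr
    intro ω0 hω0
    rw [dom_tip_map, K.EW_auto g hg]
    apply K.EW_congr
    intro ω1 _
    rw [dom_tip_map, K.EW_auto g hg]
    apply K.EW_congr
    intro ω' _
    exact hΦ g hg _ _ _ (hne _ hω0)
  have hsum : ∑ z, J z = ∑ s, RR s := by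
    simp only [J]
    rw [Finset.sum_comm]
    apply Finset.sum_congr rfl
    intro s _
    rw [← K.EW_sum]
    simp only [RR]
    apply K.EW_congr
    intro ω0 _
    rw [← K.EW_sum, K.EW_append]
    apply K.EW_congr
    intro q _
    rw [Finset.sum_ite_eq]
    simp only [Finset.mem_univ, if_true, M]
    apply K.EW_congr
    intro ω1 _
    rw [tip_append]
  have hcardpos : (0 : ℝ) < (Fintype.card V : ℝ) := by
    have : 0 < Fintype.card V := Fintype.card_pos_iff.2 ⟨o⟩
    exact_mod_cast this
  have hJR : J u = RR o := by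
    have h1 : ∑ z, J z = (Fintype.card V : ℝ) * J u := by
      rw [Finset.sum_congr rfl (fun z _ => hJinv u z), Finset.sum_const, Finset.card_univ,
        nsmul_eq_mul]
    have h2 : ∑ s, RR s = (Fintype.card V : ℝ) * RR o := by
      rw [Finset.sum_congr rfl (fun s _ => hRinv s), Finset.sum_const, Finset.card_univ,
        nsmul_eq_mul]
    rw [h1, h2] at hsum
    exact mul_left_cancel₀ hcardpos.ne' hsum
  rw [hN]
  change _ ≤ RR o
  rw [← hJR]
  simp only [J]
  rw [Finset.mul_sum]
  apply Finset.sum_le_sum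
  intro s _
  rw [← K.EW_mul_left]
  apply K.EW_mono
  intro ω0 _
  rw [← K.EW_mul_left]
  apply K.EW_mono
  intro q _
  by_cases h : tip (tip s ω0) q = u
  · rw [if_pos h, if_pos h]
    simp only [M]
    rw [hNdef, K.EW_append]
    have hch : List.IsChain (fun a b => p ≤ K.P b a) ((v :: c) ++ [u]) := hc.step
    have hkeep := K.dom_keep p hp u (v :: c) hch
      (fun w => K.EW b (tip u w) (fun w' => K.EW r0 (tip u (w' ++ w))
        (fun ω' => Φ ω0 (w' ++ w ++ q) ω')))
      (fun w => K.EW_nonneg _ _ _ fun w' _ => K.EW_nonneg _ _ _ fun ω' _ => hΦ0 _ _ _)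
    rw [List.length_cons] at hkeep
    refine le_trans (le_of_eq ?_) hkeep
    congr 1
    rw [tip_cons]
    apply K.EW_congr
    intro f _
    rw [tip_append, tip_cons]
  · rw [if_neg h, if_neg h, mul_zero]

end Ker

end HP192
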