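import Mathlib
import Pool.Agent.Helper192_HP.Defs
import Pool.Agent.Helper192_HP.KDefs

namespace HP192
open Finset

/-- the pasts `q1 ++ w0`, `q2 ++ w0` (arriving at `D` only with their newest vertex) and the futures
`w' ++ f1`, `w' ++ f2` avoid `D`, and the futures avoid the pasts -/
def GoodC {V : Type} (D : Finset V) (w0 q1 q2 f1 f2 w' : List V) : Prop :=
  Av D (q1.tail ++ w0) ∧ Av D (q2.tail ++ w0) ∧ Av D (w' ++ f1) ∧ Av D (w' ++ f2) ∧
  Dj (w' ++ f1) (q1 ++ w0) ∧ Dj (w' ++ f1) (q2 ++ w0) ∧ Dj (w' ++ f2) (q1 ++ w0) ∧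
  Dj (w' ++ f2) (q2 ++ w0)

open Classical in
/-- total weight of the good configurations -/
noncomputable def Ker.CW {V : Type} [Fintype V] [DecidableEq V] (K : Ker V) (D : Finset V)
    (r0 a b : ℕ) (u1 u2 v1 v2 : V) (Ψ : List V → List V → List V → List V → List V → List V → ℝ) : ℝ :=
  ∑ s, K.EW r0 s (fun w0 =>
    K.EW a (tip s w0) (fun q1 => K.EW a (tip s w0) (fun q2 =>
      K.EW b v1 (fun f1 => K.EW b v2 (fun f2 => K.EW r0 (tip v1 f1) (fun w' =>
        if tip (tip s w0) q1 = u1 ∧ tip (tip s w0) q2 = u2 ∧ tip v1 f1 = tip v2 f2 ∧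
          GoodC D w0 q1 q2 f1 f2 w'
        then (Fintype.card V : ℝ) ^ 2 * Ψ w0 q1 q2 f1 f2 w' else 0))))))


end HP192
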