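import Mathlib
import Pool.Agent.Helper192_HP.Defs
import Pool.Agent.Helper192_HP.WDefs
import Pool.Agent.Helper192_HP.Basic
import Pool.Agent.Helper192_HP.W01
import Pool.Agent.Helper192_HP.W02
import Pool.Agent.Helper192_HP.KDefs
import Pool.Agent.Helper192_HP.KLink
import Pool.Agent.Helper192_HP.RDefs
import Pool.Agent.Helper192_HP.RDefs2

namespace HP192
open Finset

/-! helper lemmas for the target -/

section CWhelp

/-- reversed path: `q'` walked from `u` to `x`, reversed, without `x` and with `u` -/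
def rvCW {V : Type} (u : V) (q : List V) : List V := ((q ++ [u]).reverse).dropLast

theorem rvCW_mem {V : Type} (u : V) (q : List V) (y : V) (h : y ∈ rvCW u q) : y = u ∨ y ∈ q := by
  unfold rvCW at h
  have h1 := List.mem_of_mem_dropLast h
  rw [List.mem_reverse, List.mem_append, List.mem_singleton] at h1
  exact h1.symm

theorem rvCW_tail_mem {V : Type} (u : V) (q : List V) (hq : q ≠ []) (y : V)
    (h : y ∈ (rvCW u q).tail) : y ∈ q := by
  unfold rvCW at h
  rw [List.reverse_append, List.reverse_singleton, List.singleton_append] at h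
  have hr : q.reverse ≠ [] := by simpa using hq
  obtain ⟨c, l, hl⟩ := List.exists_cons_of_ne_nil hr
  rw [hl, List.dropLast_cons_cons, List.tail_cons] at h
  have h2 := List.mem_of_mem_dropLast h
  rw [← hl, List.mem_reverse] at h2
  exact h2

end CWhelp

namespace Ker
variable {V : Type} [Fintype V] [DecidableEq V] (K : Ker V)

theorem EW_comm_cw (s t : ℕ) (x y : V) (F : List V → List V → ℝ) :
    K.EW s x (fun w => K.EW t y (fun w' => F w w'))
      = K.EW t y (fun w' => K.EW s x (fun w => F w w')) := by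
  induction s generalizing x F with
  | zero => simp only [EW_zero]
  | succ s ih =>
    rw [EW_succ]
    have h1 : (fun w' => K.EW (s + 1) x (fun w => F w w'))
        = (fun w' => ∑ z, K.P x z • K.EW s z (fun w => F (w ++ [z]) w')) := by
      funext w'
      rw [EW_succ]
    rw [h1, EW_sum]
    refine sum_congr rfl fun z _ => ?_
    rw [EW_smul, ih]

/-- reversal with both ends fixed -/
theorem EW_rev_pt_cw (t : ℕ) (x u : V) (F : List V → ℝ) :
    K.EW t x (fun q => if tip x q = u then F (q ++ [x]) else 0)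
      = K.EW t u (fun q => if tip u q = x then F ((q ++ [u]).reverse) else 0) := by
  have h := K.EW_rev t (fun L => if L.head? = some u ∧ L.getLast? = some x then F L else 0)
  have e1 : ∀ (y : V) (w : List V), (w ++ [y]).head? = some (tip y w) := by
    intro y w
    cases w with
    | nil => simp
    | cons a w => simp
  have hl : ∀ y, K.EW t y (fun w => if (w ++ [y]).head? = some u ∧ (w ++ [y]).getLast? = some x
      then F (w ++ [y]) else 0)
      = if y = x then K.EW t x (fun q => if tip x q = u then F (q ++ [x]) else 0) else 0 := by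
    intro y
    by_cases hy : y = x
    · subst hy
      rw [if_pos rfl]
      refine EW_congr K _ _ _ _ fun w _ => ?_
      simp only [e1, List.getLast?_append, List.getLast?_singleton, Option.some_or,
        Option.some.injEq, and_true]
    · rw [if_neg hy]
      refine (EW_congr K _ _ _ _ fun w _ => ?_).trans (K.EW_zero_fun t y)
      rw [if_neg]
      rintro ⟨_, h2⟩
      rw [List.getLast?_append, List.getLast?_singleton, Option.some_or, Option.some.injEq] at h2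
      exact hy h2
  have hr : ∀ y, K.EW t y (fun w => if ((w ++ [y]).reverse).head? = some u ∧
      ((w ++ [y]).reverse).getLast? = some x then F ((w ++ [y]).reverse) else 0)
      = if y = u then K.EW t u (fun q => if tip u q = x then F ((q ++ [u]).reverse) else 0)
        else 0 := by
    intro y
    by_cases hy : y = u
    · subst hy
      rw [if_pos rfl]
      refine EW_congr K _ _ _ _ fun w _ => ?_
      simp only [List.head?_reverse, List.getLast?_reverse, e1, List.getLast?_append,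
        List.getLast?_singleton, Option.some_or, Option.some.injEq, true_and]
    · rw [if_neg hy]
      refine (EW_congr K _ _ _ _ fun w _ => ?_).trans (K.EW_zero_fun t y)
      rw [if_neg]
      rintro ⟨h2, _⟩
      rw [List.head?_reverse, List.getLast?_append, List.getLast?_singleton, Option.some_or,
        Option.some.injEq] at h2
      exact hy h2
  simp only [hl, hr] at h
  rw [sum_ite_eq' univ x, sum_ite_eq' univ u] at h
  simpa using h

theorem EW_rev_pt2_cw (t : ℕ) (x u : V) (g : List V → ℝ) :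
    K.EW t x (fun q => if tip x q = u then g q else 0)
      = K.EW t u (fun q => if tip u q = x then g (rvCW u q) else 0) := by
  have h := K.EW_rev_pt_cw t x u (fun L => g L.dropLast)
  simp only [List.dropLast_concat] at h
  exact h

theorem EW_rev_sum_cw (t : ℕ) (k0 : V → List V → ℝ) :
    ∑ s, K.EW t s (fun w => k0 (tip s w) w) = ∑ x, K.EW t x (fun z => k0 x (rvCW x z)) := by
  rcases isEmpty_or_nonempty V with hV | ⟨⟨o⟩⟩
  · simp
  have h := K.EW_rev t (fun L => k0 (L.headD o) L.dropLast)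
  have e1 : ∀ (y : V) (w : List V), (w ++ [y]).headD o = tip y w := by
    intro y w
    cases w with
    | nil => simp
    | cons a w => simp
  have e2 : ∀ (y : V) (w : List V), ((w ++ [y]).reverse).headD o = y := by
    intro y w
    simp
  simp only [e1, e2, List.dropLast_concat] at h
  exact h

open Classical in
/-- pair functional: two walks of `a` steps from `u1`, `u2` to a common vertex, followed by a walk of
`r0` steps from there -/
noncomputable def G2c (a r0 : ℕ) (u1 u2 : V) (Φ : List V → List V → List V → ℝ) : ℝ :=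
  (Fintype.card V : ℝ) * K.EW a u1 (fun q1 => K.EW a u2 (fun q2 =>
    if tip u1 q1 = tip u2 q2 then K.EW r0 (tip u1 q1) (fun z => Φ q1 q2 z) else 0))

theorem G2c_mono (a r0 : ℕ) (u1 u2 : V) (Φ Φ' : List V → List V → List V → ℝ)
    (h : ∀ q1 q2 z : List V, q1.length = a → q2.length = a → z.length = r0 →
      tip u1 q1 = tip u2 q2 → Φ q1 q2 z ≤ Φ' q1 q2 z) :
    K.G2c a r0 u1 u2 Φ ≤ K.G2c a r0 u1 u2 Φ' := by
  unfold G2c
  refine mul_le_mul_of_nonneg_left ?_ (Nat.cast_nonneg _)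
  refine EW_mono K _ _ _ _ fun q1 h1 => ?_
  refine EW_mono K _ _ _ _ fun q2 h2 => ?_
  split_ifs with h3
  · exact EW_mono K _ _ _ _ fun z hz => h q1 q2 z h1 h2 hz h3
  · exact le_refl _

theorem G2c_sub (a r0 : ℕ) (u1 u2 : V) (Φ Φ' : List V → List V → List V → ℝ) :
    K.G2c a r0 u1 u2 (fun q1 q2 z => Φ q1 q2 z - Φ' q1 q2 z)
      = K.G2c a r0 u1 u2 Φ - K.G2c a r0 u1 u2 Φ' := by
  unfold G2c
  rw [← mul_sub, ← EW_sub]
  congr 1
  refine EW_congr K _ _ _ _ fun q1 _ => ?_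
  rw [← EW_sub]
  refine EW_congr K _ _ _ _ fun q2 _ => ?_
  split_ifs with h3
  · rw [← EW_sub]
  · rw [sub_zero]

theorem G2c_add (a r0 : ℕ) (u1 u2 : V) (Φ Φ' : List V → List V → List V → ℝ) :
    K.G2c a r0 u1 u2 (fun q1 q2 z => Φ q1 q2 z + Φ' q1 q2 z)
      = K.G2c a r0 u1 u2 Φ + K.G2c a r0 u1 u2 Φ' := by
  unfold G2c
  rw [← mul_add, ← EW_add]
  congr 1
  refine EW_congr K _ _ _ _ fun q1 _ => ?_
  rw [← EW_add]
  refine EW_congr K _ _ _ _ fun q2 _ => ?_
  split_ifs with h3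
  · rw [← EW_add]
  · rw [add_zero]

theorem G2c_mul_left (a r0 : ℕ) (u1 u2 : V) (c : ℝ) (Φ : List V → List V → List V → ℝ) :
    K.G2c a r0 u1 u2 (fun q1 q2 z => c * Φ q1 q2 z) = c * K.G2c a r0 u1 u2 Φ := by
  unfold G2c
  rw [mul_left_comm c]
  refine congrArg (fun t => (Fintype.card V : ℝ) * t) ?_
  rw [← EW_mul_left]
  refine EW_congr K _ _ _ _ fun q1 _ => ?_
  rw [← EW_mul_left]
  refine EW_congr K _ _ _ _ fun q2 _ => ?_
  split_ifs with h3
  · rw [← EW_mul_left]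
  · rw [mul_zero]

theorem G2c_sum {ι : Type*} (s : Finset ι) (a r0 : ℕ) (u1 u2 : V)
    (Φ : ι → List V → List V → List V → ℝ) :
    K.G2c a r0 u1 u2 (fun q1 q2 z => ∑ i ∈ s, Φ i q1 q2 z)
      = ∑ i ∈ s, K.G2c a r0 u1 u2 (Φ i) := by
  unfold G2c
  rw [← mul_sum, ← EW_sum]
  congr 1
  refine EW_congr K _ _ _ _ fun q1 _ => ?_
  rw [← EW_sum]
  refine EW_congr K _ _ _ _ fun q2 _ => ?_
  split_ifs with h3
  · rw [← EW_sum]
  · rw [sum_const_zero]

/-- upper bound when the functional does not depend on the second walk -/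
theorem G2c_one (a r0 m0 : ℕ) (u1 u2 : V)
    (hup : ∀ t x y, m0 ≤ t → K.hk t x y ≤ 3 / (2 * (Fintype.card V : ℝ))) (ha : m0 ≤ a)
    (Φ : List V → List V → ℝ) (h0 : ∀ q z, 0 ≤ Φ q z) :
    K.G2c a r0 u1 u2 (fun q1 _ z => Φ q1 z)
      ≤ 3 / 2 * K.EW a u1 (fun q1 => K.EW r0 (tip u1 q1) (fun z => Φ q1 z)) := by
  have hn : (0 : ℝ) < Fintype.card V := by
    exact_mod_cast Fintype.card_pos_iff.2 ⟨u1⟩
  unfold G2c
  rw [← EW_mul_left, ← EW_mul_left]
  refine EW_mono K _ _ _ _ fun q1 _ => ?_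
  have h1 : K.EW a u2 (fun q2 => if tip u1 q1 = tip u2 q2 then
      K.EW r0 (tip u1 q1) (fun z => Φ q1 z) else 0)
      = K.hk a u2 (tip u1 q1) * K.EW r0 (tip u1 q1) (fun z => Φ q1 z) := by
    rw [← hk_eq_EW, ← EW_mul_right]
    refine EW_congr K _ _ _ _ fun q2 _ => ?_
    by_cases h : tip u1 q1 = tip u2 q2
    · rw [if_pos h, if_pos h.symm, one_mul]
    · rw [if_neg h, if_neg (fun h' => h h'.symm), zero_mul]
  rw [h1, ← mul_assoc]
  refine mul_le_mul_of_nonneg_right ?_ (K.EW_nonneg _ _ _ fun z _ => h0 q1 z)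
  calc (Fintype.card V : ℝ) * K.hk a u2 (tip u1 q1)
      ≤ (Fintype.card V : ℝ) * (3 / (2 * (Fintype.card V : ℝ))) :=
        mul_le_mul_of_nonneg_left (hup a _ _ ha) hn.le
    _ = 3 / 2 := by field_simp

/-- upper bound when the functional depends only on the second walk -/
theorem G2c_two (a r0 m0 : ℕ) (u1 u2 : V)
    (hup : ∀ t x y, m0 ≤ t → K.hk t x y ≤ 3 / (2 * (Fintype.card V : ℝ))) (ha : m0 ≤ a)
    (Φ : List V → ℝ) (h0 : ∀ q, 0 ≤ Φ q) :
    K.G2c a r0 u1 u2 (fun _ q2 _ => Φ q2) ≤ 3 / 2 * K.EW a u2 Φ := by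
  have hn : (0 : ℝ) < Fintype.card V := by
    exact_mod_cast Fintype.card_pos_iff.2 ⟨u1⟩
  unfold G2c
  rw [EW_comm_cw, ← EW_mul_left, ← EW_mul_left]
  refine EW_mono K _ _ _ _ fun q2 _ => ?_
  have h1 : K.EW a u1 (fun q1 => if tip u1 q1 = tip u2 q2 then
      K.EW r0 (tip u1 q1) (fun z => Φ q2) else 0)
      = K.hk a u1 (tip u2 q2) * Φ q2 := by
    rw [← hk_eq_EW, ← EW_mul_right]
    refine EW_congr K _ _ _ _ fun q1 _ => ?_
    by_cases h : tip u1 q1 = tip u2 q2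
    · rw [if_pos h, if_pos h, one_mul, EW_const]
    · rw [if_neg h, if_neg h, zero_mul]
  rw [h1, ← mul_assoc]
  refine mul_le_mul_of_nonneg_right ?_ (h0 q2)
  calc (Fintype.card V : ℝ) * K.hk a u1 (tip u2 q2)
      ≤ (Fintype.card V : ℝ) * (3 / (2 * (Fintype.card V : ℝ))) :=
        mul_le_mul_of_nonneg_left (hup a _ _ ha) hn.le
    _ = 3 / 2 := by field_simp

/-- lower bound for functionals of the near parts -/
theorem G2c_low (k j r0 m0 : ℕ) (u1 u2 : V)
    (hlow : ∀ t x y, m0 ≤ t → 1 / (2 * (Fintype.card V : ℝ)) ≤ K.hk t x y) (hj : m0 ≤ j)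
    (Φ : List V → List V → ℝ) (h0 : ∀ p1 p2, 0 ≤ Φ p1 p2) :
    1 / 2 * K.EW k u1 (fun p1 => K.EW k u2 (fun p2 => Φ p1 p2))
      ≤ K.G2c (k + j) r0 u1 u2 (fun q1 q2 _ => Φ (q1.drop j) (q2.drop j)) := by
  have hn : (0 : ℝ) < Fintype.card V := by
    exact_mod_cast Fintype.card_pos_iff.2 ⟨u1⟩
  unfold G2c
  rw [EW_append, ← EW_mul_left, ← EW_mul_left]
  refine EW_mono K _ _ _ _ fun p1 _ => ?_
  have hL : 1 / 2 * K.EW k u2 (fun p2 => Φ p1 p2)
      = K.EW j (tip u1 p1) (fun _ => K.EW k u2 (fun p2 => 1 / 2 * Φ p1 p2)) := by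
    rw [EW_const, EW_mul_left]
  rw [hL, ← EW_mul_left]
  refine EW_mono K _ _ _ _ fun r1 hr1 => ?_
  rw [EW_append, ← EW_mul_left]
  refine EW_mono K _ _ _ _ fun p2 _ => ?_
  beta_reduce
  have h1 : K.EW j (tip u2 p2) (fun w' => if tip u1 (r1 ++ p1) = tip u2 (w' ++ p2) then
      K.EW r0 (tip u1 (r1 ++ p1)) (fun z => Φ ((r1 ++ p1).drop j) ((w' ++ p2).drop j)) else 0)
      = K.hk j (tip u2 p2) (tip u1 (r1 ++ p1)) * Φ p1 p2 := by
    rw [← hk_eq_EW, ← EW_mul_right]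
    refine EW_congr K _ _ _ _ fun w' hw' => ?_
    rw [EW_const, tip_append u2, List.drop_left' hr1, List.drop_left' hw']
    by_cases h : tip u1 (r1 ++ p1) = tip (tip u2 p2) w'
    · rw [if_pos h, if_pos h.symm, one_mul]
    · rw [if_neg h, if_neg (fun h' => h h'.symm), zero_mul]
  rw [h1, ← mul_assoc]
  refine mul_le_mul_of_nonneg_right ?_ (h0 p1 p2)
  calc (1 / 2 : ℝ) = (Fintype.card V : ℝ) * (1 / (2 * (Fintype.card V : ℝ))) := by field_simp
    _ ≤ _ := mul_le_mul_of_nonneg_left (hlow j _ _ hj) hn.le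

/-- expectation of a functional of the tail -/
theorem EW_tail_cw (t : ℕ) (x : V) (F : List V → ℝ) :
    K.EW (t + 1) x (fun q => F q.tail) = K.EW t x F := by
  rw [EW_succ']
  refine EW_congr K _ _ _ _ fun w _ => ?_
  simp only [List.tail_cons, smul_eq_mul]
  rw [← sum_mul, K.row, one_mul]

/-- expected number of visits to `z` in the last `j` steps -/
theorem EW_count_cw (k j : ℕ) (u z : V) (B : ℝ) (hB : ∀ t, k ≤ t → K.hk t u z ≤ B) :
    K.EW (k + j) u (fun q => (((q.take j).count z : ℕ) : ℝ)) ≤ j * B := by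
  induction j with
  | zero => simp [EW_const]
  | succ j ih =>
    have h1 : K.EW (k + (j + 1)) u (fun q => (((q.take (j + 1)).count z : ℕ) : ℝ))
        = K.EW (k + (j + 1)) u (fun q => (if tip u q = z then (1 : ℝ) else 0)
          + (((q.tail.take j).count z : ℕ) : ℝ)) := by
      refine EW_congr K _ _ _ _ fun q hq => ?_
      cases q with
      | nil => simp at hq
      | cons a q =>
        rw [List.take_succ_cons, List.count_cons, tip_cons, List.tail_cons]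
        by_cases h : a = z
        · subst h
          simp [add_comm]
        · simp [h]
    rw [h1, EW_add, hk_eq_EW]
    have h2 := K.EW_tail_cw (k + j) u (fun q => (((q.take j).count z : ℕ) : ℝ))
    rw [← add_assoc, h2]
    push_cast
    have h3 := hB (k + j + 1) (by omega)
    linarith

theorem EW_count2_cw (a r0 : ℕ) (u z : V) (B : ℝ) (hB : ∀ t, a ≤ t → K.hk t u z ≤ B) :
    K.EW a u (fun q => K.EW r0 (tip u q) (fun w => ((w.count z : ℕ) : ℝ))) ≤ r0 * B := by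
  have h := K.EW_count_cw a r0 u z B hB
  rw [EW_append] at h
  refine le_trans (le_of_eq ?_) h
  refine EW_congr K _ _ _ _ fun q _ => ?_
  refine EW_congr K _ _ _ _ fun w hw => ?_
  rw [List.take_left' hw]

end Ker

section CWpt
variable {V : Type} [Fintype V] [DecidableEq V]

/-- real valued count -/
def cntCW (L : List V) (z : V) : ℝ := ((L.count z : ℕ) : ℝ)

theorem cntCW_nonneg (L : List V) (z : V) : 0 ≤ cntCW L z := Nat.cast_nonneg _

theorem cntCW_append (L L' : List V) (z : V) : cntCW (L ++ L') z = cntCW L z + cntCW L' z := by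
  unfold cntCW
  rw [List.count_append]
  push_cast
  rfl

theorem cntCW_one (L : List V) (z : V) (h : z ∈ L) : 1 ≤ cntCW L z := by
  unfold cntCW
  have := List.count_pos_iff.2 h
  exact_mod_cast this

theorem cntCW_sum (L : List V) : ∑ z, cntCW L z = (L.length : ℝ) := by
  induction L with
  | nil => simp [cntCW]
  | cons a L ih =>
    have h : ∀ z, cntCW (a :: L) z = cntCW L z + (if a = z then 1 else 0) := by
      intro z
      unfold cntCW
      rw [List.count_cons]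
      by_cases h : a = z
      · simp [h]
      · simp [h]
    simp only [h]
    rw [sum_add_distrib, ih, sum_ite_eq univ a]
    simp

theorem cntCW_D (D : Finset V) (L : List V) (y : V) (h1 : y ∈ L) (h2 : y ∈ D) :
    1 ≤ ∑ z ∈ D, cntCW L z :=
  (cntCW_one L y h1).trans (single_le_sum (f := fun z => cntCW L z)
    (fun z _ => cntCW_nonneg L z) h2)

theorem cntCW_D0 (D : Finset V) (L : List V) : 0 ≤ ∑ z ∈ D, cntCW L z :=
  sum_nonneg fun z _ => cntCW_nonneg L z

theorem cntCW_C (L L' : List V) (y : V) (h1 : y ∈ L) (h2 : y ∈ L') :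
    1 ≤ ∑ z, cntCW L z * cntCW L' z := by
  have h3 : 1 ≤ cntCW L y * cntCW L' y := by
    have e1 := cntCW_one L y h1
    have e2 := cntCW_one L' y h2
    nlinarith
  exact h3.trans (single_le_sum (f := fun z => cntCW L z * cntCW L' z)
    (fun z _ => mul_nonneg (cntCW_nonneg L z) (cntCW_nonneg L' z)) (mem_univ y))

theorem cntCW_C0 (L L' : List V) : 0 ≤ ∑ z, cntCW L z * cntCW L' z :=
  sum_nonneg fun z _ => mul_nonneg (cntCW_nonneg L z) (cntCW_nonneg L' z)

/-- near event -/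
def NrCW (D : Finset V) (p1 p2 f1 f2 : List V) : Prop :=
  Av D p1 ∧ Av D p2 ∧ Av D f1 ∧ Av D f2 ∧ Dj p1 f1 ∧ Dj p1 f2 ∧ Dj p2 f1 ∧ Dj p2 f2

/-- good event in terms of the reversed pasts -/
def GdCW (D : Finset V) (q1 q2 z0 f1 f2 z1 : List V) : Prop :=
  (∀ y, (y ∈ q1 ∨ y ∈ q2 ∨ y ∈ z0) → y ∉ D) ∧ (∀ y, (y ∈ f1 ∨ y ∈ f2 ∨ y ∈ z1) → y ∉ D) ∧
  (∀ y, (y ∈ q1 ∨ y ∈ q2 ∨ y ∈ z0) → ¬ (y ∈ f1 ∨ y ∈ f2 ∨ y ∈ z1))

theorem GdCW_GoodC (D : Finset V) (q1 q2 z0 f1 f2 z1 : List V) (u1 u2 : V) (hu1 : u1 ∈ D)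
    (hu2 : u2 ∈ D) (h1 : q1 ≠ []) (h2 : q2 ≠ []) (h : GdCW D q1 q2 z0 f1 f2 z1) :
    GoodC D (rvCW (tip u1 q1) z0) (rvCW u1 q1) (rvCW u2 q2) f1 f2 z1 := by
  obtain ⟨ha, hb, hc⟩ := h
  have ht : tip u1 q1 ∈ q1 := by
    cases q1 with
    | nil => exact absurd rfl h1
    | cons a q => simp
  have hw : ∀ y ∈ rvCW (tip u1 q1) z0, (y ∈ q1 ∨ y ∈ q2 ∨ y ∈ z0) := by
    intro y hy
    rcases rvCW_mem _ _ _ hy with h3 | h3
    · left
      rw [h3]
      exact ht
    · exact Or.inr (Or.inr h3)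
  have hq1 : ∀ y ∈ rvCW u1 q1, y = u1 ∨ (y ∈ q1 ∨ y ∈ q2 ∨ y ∈ z0) := by
    intro y hy
    rcases rvCW_mem _ _ _ hy with h3 | h3
    · exact Or.inl h3
    · exact Or.inr (Or.inl h3)
  have hq2 : ∀ y ∈ rvCW u2 q2, y = u2 ∨ (y ∈ q1 ∨ y ∈ q2 ∨ y ∈ z0) := by
    intro y hy
    rcases rvCW_mem _ _ _ hy with h3 | h3
    · exact Or.inl h3
    · exact Or.inr (Or.inr (Or.inl h3))
  have hdj : ∀ y, (y ∈ f1 ∨ y ∈ f2 ∨ y ∈ z1) →
      y ∉ rvCW u1 q1 ++ rvCW (tip u1 q1) z0 ∧ y ∉ rvCW u2 q2 ++ rvCW (tip u1 q1) z0 := by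
    intro y hy
    constructor
    · intro hm
      rw [List.mem_append] at hm
      rcases hm with hm | hm
      · rcases hq1 y hm with h3 | h3
        · exact hb y hy (h3 ▸ hu1)
        · exact hc y h3 hy
      · exact hc y (hw y hm) hy
    · intro hm
      rw [List.mem_append] at hm
      rcases hm with hm | hm
      · rcases hq2 y hm with h3 | h3
        · exact hb y hy (h3 ▸ hu2)
        · exact hc y h3 hy
      · exact hc y (hw y hm) hy
  refine ⟨?_, ?_, ?_, ?_, ?_, ?_, ?_, ?_⟩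
  · intro y hy
    rw [List.mem_append] at hy
    rcases hy with hy | hy
    · exact ha y (Or.inl (rvCW_tail_mem u1 q1 h1 y hy))
    · exact ha y (hw y hy)
  · intro y hy
    rw [List.mem_append] at hy
    rcases hy with hy | hy
    · exact ha y (Or.inr (Or.inl (rvCW_tail_mem u2 q2 h2 y hy)))
    · exact ha y (hw y hy)
  · intro y hy
    rw [List.mem_append] at hy
    exact hb y (hy.elim (fun h => Or.inr (Or.inr h)) Or.inl)
  · intro y hy
    rw [List.mem_append] at hy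
    exact hb y (hy.elim (fun h => Or.inr (Or.inr h)) (fun h => Or.inr (Or.inl h)))
  · intro y hy
    rw [List.mem_append] at hy
    exact (hdj y (hy.elim (fun h => Or.inr (Or.inr h)) Or.inl)).1
  · intro y hy
    rw [List.mem_append] at hy
    exact (hdj y (hy.elim (fun h => Or.inr (Or.inr h)) Or.inl)).2
  · intro y hy
    rw [List.mem_append] at hy
    exact (hdj y (hy.elim (fun h => Or.inr (Or.inr h)) (fun h => Or.inr (Or.inl h)))).1
  · intro y hy
    rw [List.mem_append] at hy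
    exact (hdj y (hy.elim (fun h => Or.inr (Or.inr h)) (fun h => Or.inr (Or.inl h)))).2

/-- far part of a triple -/
def farCW (j : ℕ) (q1 q2 z : List V) : List V := q1.take j ++ q2.take j ++ z

/-- near part of a pair -/
def nearCW (j : ℕ) (q1 q2 : List V) : List V := q1.drop j ++ q2.drop j

theorem mem_far_near_CW (j : ℕ) (q1 q2 z : List V) (y : V) (h : y ∈ q1 ∨ y ∈ q2 ∨ y ∈ z) :
    y ∈ farCW j q1 q2 z ∨ y ∈ q1.drop j ∨ y ∈ q2.drop j := by
  unfold farCW
  rw [List.mem_append, List.mem_append]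
  rcases h with h | h | h
  · rw [← List.take_append_drop j q1, List.mem_append] at h
    tauto
  · rw [← List.take_append_drop j q2, List.mem_append] at h
    tauto
  · tauto

open Classical in
theorem point_CW (D : Finset V) (j j' : ℕ) (q1 q2 z0 f1 f2 z1 : List V) :
    (if NrCW D (q1.drop j) (q2.drop j) (f1.drop j') (f2.drop j') then (1 : ℝ) else 0)
      - (∑ z ∈ D, cntCW (farCW j q1 q2 z0) z + ∑ z ∈ D, cntCW (farCW j' f1 f2 z1) z
        + ∑ z, cntCW (farCW j q1 q2 z0) z * cntCW (farCW j' f1 f2 z1 ++ nearCW j' f1 f2) z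
        + ∑ z, cntCW (nearCW j q1 q2) z * cntCW (farCW j' f1 f2 z1) z)
      ≤ (if GdCW D q1 q2 z0 f1 f2 z1 then (1 : ℝ) else 0) := by
  have n1 := cntCW_D0 D (farCW j q1 q2 z0)
  have n2 := cntCW_D0 D (farCW j' f1 f2 z1)
  have n3 := cntCW_C0 (farCW j q1 q2 z0) (farCW j' f1 f2 z1 ++ nearCW j' f1 f2)
  have n4 := cntCW_C0 (nearCW j q1 q2) (farCW j' f1 f2 z1)
  by_cases hG : GdCW D q1 q2 z0 f1 f2 z1
  · rw [if_pos hG]
    split_ifs <;> linarith
  rw [if_neg hG]
  by_cases hN : NrCW D (q1.drop j) (q2.drop j) (f1.drop j') (f2.drop j')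
  swap
  · rw [if_neg hN]
    linarith
  rw [if_pos hN]
  by_cases c1 : ∃ y ∈ farCW j q1 q2 z0, y ∈ D
  · obtain ⟨y, h1, h2⟩ := c1
    have := cntCW_D D _ y h1 h2
    linarith
  by_cases c2 : ∃ y ∈ farCW j' f1 f2 z1, y ∈ D
  · obtain ⟨y, h1, h2⟩ := c2
    have := cntCW_D D _ y h1 h2
    linarith
  by_cases c3 : ∃ y ∈ farCW j q1 q2 z0, y ∈ farCW j' f1 f2 z1 ++ nearCW j' f1 f2
  · obtain ⟨y, h1, h2⟩ := c3
    have := cntCW_C _ _ y h1 h2
    linarith
  by_cases c4 : ∃ y ∈ nearCW j q1 q2, y ∈ farCW j' f1 f2 z1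
  · obtain ⟨y, h1, h2⟩ := c4
    have := cntCW_C _ _ y h1 h2
    linarith
  exfalso
  apply hG
  push Not at c1 c2 c3 c4
  obtain ⟨N1, N2, N3, N4, N5, N6, N7, N8⟩ := hN
  refine ⟨?_, ?_, ?_⟩
  · intro y hy
    rcases mem_far_near_CW j q1 q2 z0 y hy with h | h | h
    · exact c1 y h
    · exact N1 y h
    · exact N2 y h
  · intro y hy
    rcases mem_far_near_CW j' f1 f2 z1 y hy with h | h | h
    · exact c2 y h
    · exact N3 y h
    · exact N4 y h
  · intro y hy hy'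
    have hf := mem_far_near_CW j' f1 f2 z1 y hy'
    rcases mem_far_near_CW j q1 q2 z0 y hy with h | h | h
    · apply c3 y h
      unfold nearCW
      rw [List.mem_append, List.mem_append]
      exact hf
    · rcases hf with h' | h' | h'
      · exact c4 y (by unfold nearCW; rw [List.mem_append]; exact Or.inl h) h'
      · exact N5 y h h'
      · exact N6 y h h'
    · rcases hf with h' | h' | h'
      · exact c4 y (by unfold nearCW; rw [List.mem_append]; exact Or.inr h) h'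
      · exact N7 y h h'
      · exact N8 y h h'

end CWpt

namespace Ker
variable {V : Type} [Fintype V] [DecidableEq V] (K : Ker V)

/-- occupation of the far part -/
theorem G2c_far (k j r0 m0 : ℕ) (u1 u2 z : V)
    (hup : ∀ t x y, m0 ≤ t → K.hk t x y ≤ 3 / (2 * (Fintype.card V : ℝ))) (hk : m0 ≤ k) :
    K.G2c (k + j) r0 u1 u2 (fun q1 q2 w => cntCW (farCW j q1 q2 w) z)
      ≤ 3 / 2 * ((2 * j + r0) * (3 / (2 * (Fintype.card V : ℝ)))) := by
  have h1 : (fun q1 q2 w => cntCW (farCW j q1 q2 w) z)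
      = (fun q1 q2 w => (cntCW (q1.take j) z + cntCW w z) + cntCW (q2.take j) z) := by
    funext q1 q2 w
    unfold farCW
    rw [cntCW_append, cntCW_append]
    ring
  rw [h1, G2c_add]
  have h2 := K.G2c_one (k + j) r0 m0 u1 u2 hup (by omega)
    (fun q1 w => cntCW (q1.take j) z + cntCW w z)
    (fun q w => add_nonneg (cntCW_nonneg _ _) (cntCW_nonneg _ _))
  have h3 := K.G2c_two (k + j) r0 m0 u1 u2 hup (by omega)
    (fun q2 => cntCW (q2.take j) z) (fun q => cntCW_nonneg _ _)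
  have h4 : K.EW (k + j) u1 (fun q1 => K.EW r0 (tip u1 q1)
      (fun w => cntCW (q1.take j) z + cntCW w z))
      = K.EW (k + j) u1 (fun q1 => cntCW (q1.take j) z)
        + K.EW (k + j) u1 (fun q1 => K.EW r0 (tip u1 q1) (fun w => cntCW w z)) := by
    rw [← EW_add]
    refine EW_congr K _ _ _ _ fun q1 _ => ?_
    rw [EW_add, EW_const]
  have h5 := K.EW_count_cw k j u1 z _ (fun t ht => hup t u1 z (hk.trans ht))
  have h6 := K.EW_count_cw k j u2 z _ (fun t ht => hup t u2 z (hk.trans ht))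
  have h7 := K.EW_count2_cw (k + j) r0 u1 z _
    (fun t ht => hup t u1 z (hk.trans ((Nat.le_add_right k j).trans ht)))
  rw [h4] at h2
  unfold cntCW at *
  linarith

/-- total mass times length -/
theorem G2c_len (a r0 m0 : ℕ) (u1 u2 : V)
    (hup : ∀ t x y, m0 ≤ t → K.hk t x y ≤ 3 / (2 * (Fintype.card V : ℝ))) (ha : m0 ≤ a)
    (F : List V → List V → List V → List V) (c : ℝ) (hc : 0 ≤ c)
    (hF : ∀ q1 q2 z : List V, q1.length = a → q2.length = a → z.length = r0 →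
      ((F q1 q2 z).length : ℝ) ≤ c) :
    ∑ y, K.G2c a r0 u1 u2 (fun q1 q2 z => cntCW (F q1 q2 z) y) ≤ 3 / 2 * c := by
  rw [← G2c_sum]
  simp only [cntCW_sum]
  have h1 : K.G2c a r0 u1 u2 (fun q1 q2 z => ((F q1 q2 z).length : ℝ))
      ≤ K.G2c a r0 u1 u2 (fun _ _ _ => c) :=
    G2c_mono K _ _ _ _ _ _ fun q1 q2 z h1 h2 h3 _ => hF q1 q2 z h1 h2 h3
  have h2 := K.G2c_two a r0 m0 u1 u2 hup ha (fun _ => c) (fun _ => hc)
  rw [EW_const] at h2
  exact h1.trans h2

end Ker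

namespace Ker
variable {V : Type} [Fintype V] [DecidableEq V] (K : Ker V)

open Classical in
/-- conversion of the weight of the good configurations -/
theorem CW_ge_cw (D : Finset V) (r0 a b : ℕ) (u1 u2 v1 v2 : V) (hu1 : u1 ∈ D) (hu2 : u2 ∈ D)
    (ha : 1 ≤ a) :
    K.G2c a r0 u1 u2 (fun q1 q2 z0 => K.G2c b r0 v1 v2 (fun f1 f2 z1 =>
      if GdCW D q1 q2 z0 f1 f2 z1 then (1 : ℝ) else 0))
      ≤ K.CW D r0 a b u1 u2 v1 v2 (fun _ _ _ _ _ _ => 1) := by
  -- the functional of the past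
  let H : List V → List V → List V → ℝ := fun w0 q1 q2 =>
    (Fintype.card V : ℝ) * K.G2c b r0 v1 v2 (fun f1 f2 z1 =>
      if GoodC D w0 q1 q2 f1 f2 z1 then (1 : ℝ) else 0)
  have hCW : K.CW D r0 a b u1 u2 v1 v2 (fun _ _ _ _ _ _ => 1)
      = ∑ s, K.EW r0 s (fun w0 => K.EW a (tip s w0) (fun q1 => if tip (tip s w0) q1 = u1 then
          K.EW a (tip s w0) (fun q2 => if tip (tip s w0) q2 = u2 then H w0 q1 q2 else 0)
          else 0)) := by
    unfold CW
    refine sum_congr rfl fun s _ => ?_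
    refine EW_congr K _ _ _ _ fun w0 _ => ?_
    refine EW_congr K _ _ _ _ fun q1 _ => ?_
    by_cases c1 : tip (tip s w0) q1 = u1
    swap
    · rw [if_neg c1]
      simp only [c1, false_and, if_false, EW_const]
    rw [if_pos c1]
    refine EW_congr K _ _ _ _ fun q2 _ => ?_
    by_cases c2 : tip (tip s w0) q2 = u2
    swap
    · rw [if_neg c2]
      simp only [c2, false_and, and_false, if_false, EW_const]
    rw [if_pos c2]
    show _ = (Fintype.card V : ℝ) * ((Fintype.card V : ℝ) * K.EW b v1 (fun q1_1 => _))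
    rw [← mul_assoc, ← EW_mul_left]
    refine EW_congr K _ _ _ _ fun f1 _ => ?_
    rw [← EW_mul_left]
    refine EW_congr K _ _ _ _ fun f2 _ => ?_
    by_cases c3 : tip v1 f1 = tip v2 f2
    swap
    · rw [if_neg c3, mul_zero]
      simp only [c3, false_and, and_false, if_false, EW_const]
    rw [if_pos c3, ← EW_mul_left]
    refine EW_congr K _ _ _ _ fun w' _ => ?_
    beta_reduce
    by_cases c4 : GoodC D w0 q1 q2 f1 f2 w'
    · rw [if_pos ⟨c1, c2, c3, c4⟩, if_pos c4]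
      ring
    · rw [if_neg (fun h => c4 h.2.2.2), if_neg c4, mul_zero]
  have hrev : ∀ x0 w0, K.EW a x0 (fun q1 => if tip x0 q1 = u1 then
          K.EW a x0 (fun q2 => if tip x0 q2 = u2 then H w0 q1 q2 else 0) else 0)
      = K.EW a u1 (fun q1 => if tip u1 q1 = x0 then
          K.EW a u2 (fun q2 => if tip u2 q2 = x0 then H w0 (rvCW u1 q1) (rvCW u2 q2) else 0)
          else 0) := by
    intro x0 w0
    rw [K.EW_rev_pt2_cw a x0 u1
      (fun q1 => K.EW a x0 (fun q2 => if tip x0 q2 = u2 then H w0 q1 q2 else 0))]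
    refine EW_congr K _ _ _ _ fun q1 _ => ?_
    rw [K.EW_rev_pt2_cw a x0 u2 (fun q2 => H w0 (rvCW u1 q1) q2)]
  rw [hCW]
  rw [K.EW_rev_sum_cw r0 (fun x0 w0 => K.EW a x0 (fun q1 => if tip x0 q1 = u1 then
          K.EW a x0 (fun q2 => if tip x0 q2 = u2 then H w0 q1 q2 else 0) else 0))]
  simp only [hrev]
  have hsw : ∀ x0, K.EW r0 x0 (fun z => K.EW a u1 (fun q1 => if tip u1 q1 = x0 then
          K.EW a u2 (fun q2 => if tip u2 q2 = x0 then H (rvCW x0 z) (rvCW u1 q1) (rvCW u2 q2)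
            else 0) else 0))
      = K.EW a u1 (fun q1 => if tip u1 q1 = x0 then
          K.EW a u2 (fun q2 => if tip u1 q1 = tip u2 q2 then
            K.EW r0 (tip u1 q1) (fun z => H (rvCW (tip u1 q1) z) (rvCW u1 q1) (rvCW u2 q2))
            else 0) else 0) := by
    intro x0
    rw [EW_comm_cw K r0 a x0 u1]
    refine EW_congr K _ _ _ _ fun q1 _ => ?_
    by_cases c1 : tip u1 q1 = x0
    swap
    · simp only [c1, if_false, EW_const]
    subst c1
    simp only [if_true]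
    rw [EW_comm_cw K r0 a _ u2]
    refine EW_congr K _ _ _ _ fun q2 _ => ?_
    by_cases c2 : tip u1 q1 = tip u2 q2
    · rw [if_pos c2]
      simp only [c2, if_true]
    · rw [if_neg c2]
      have c2' : ¬ (tip u2 q2 = tip u1 q1) := fun h => c2 h.symm
      simp only [c2', if_false, EW_const]
  simp only [hsw]
  rw [← EW_sum]
  conv_lhs => unfold G2c
  rw [← EW_mul_left]
  refine EW_mono K _ _ _ _ fun q1 hq1 => ?_
  rw [sum_ite_eq univ (tip u1 q1)]
  simp only [mem_univ, if_true]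
  rw [← EW_mul_left]
  refine EW_mono K _ _ _ _ fun q2 hq2 => ?_
  split_ifs with c
  swap
  · rw [mul_zero]
  rw [← EW_mul_left]
  refine EW_mono K _ _ _ _ fun z0 hz0 => ?_
  refine mul_le_mul_of_nonneg_left ?_ (Nat.cast_nonneg _)
  refine G2c_mono K _ _ _ _ _ _ fun f1 f2 z1 _ _ _ _ => ?_
  have hq1' : q1 ≠ [] := by
    rintro rfl
    simp at hq1
    omega
  have hq2' : q2 ≠ [] := by
    rintro rfl
    simp at hq2
    omega
  by_cases hG : GdCW D q1 q2 z0 f1 f2 z1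
  · rw [if_pos hG, if_pos (GdCW_GoodC D q1 q2 z0 f1 f2 z1 u1 u2 hu1 hu2 hq1' hq2' hG)]
  · rw [if_neg hG]
    split_ifs
    · exact zero_le_one
    · exact le_refl _

open Classical in
theorem near_low_cw (D : Finset V) (r0 k j j' m0 : ℕ) (u1 u2 v1 v2 : V)
    (hlow : ∀ t x y, m0 ≤ t → 1 / (2 * (Fintype.card V : ℝ)) ≤ K.hk t x y)
    (hj : m0 ≤ j) (hj' : m0 ≤ j') :
    K.cfk k D u1 u2 v1 v2 / 4
      ≤ K.G2c (k + j) r0 u1 u2 (fun q1 q2 z0 => K.G2c (k + j') r0 v1 v2 (fun f1 f2 z1 =>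
        if NrCW D (q1.drop j) (q2.drop j) (f1.drop j') (f2.drop j') then (1 : ℝ) else 0)) := by
  have h1 : K.G2c (k + j) r0 u1 u2 (fun q1 q2 z0 => 1 / 2 * K.EW k v1 (fun f1 =>
        K.EW k v2 (fun f2 => if NrCW D (q1.drop j) (q2.drop j) f1 f2 then (1 : ℝ) else 0)))
      ≤ K.G2c (k + j) r0 u1 u2 (fun q1 q2 z0 => K.G2c (k + j') r0 v1 v2 (fun f1 f2 z1 =>
        if NrCW D (q1.drop j) (q2.drop j) (f1.drop j') (f2.drop j') then (1 : ℝ) else 0)) := by
    refine G2c_mono K _ _ _ _ _ _ fun q1 q2 z0 _ _ _ _ => ?_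
    refine K.G2c_low k j' r0 m0 v1 v2 hlow hj'
      (fun f1 f2 => if NrCW D (q1.drop j) (q2.drop j) f1 f2 then (1 : ℝ) else 0) ?_
    intro f1 f2
    split_ifs
    · exact zero_le_one
    · exact le_refl _
  refine le_trans ?_ h1
  have h2 := K.G2c_low k j r0 m0 u1 u2 hlow hj (fun p1 p2 => 1 / 2 * K.EW k v1 (fun f1 =>
        K.EW k v2 (fun f2 => if NrCW D p1 p2 f1 f2 then (1 : ℝ) else 0))) (by
    intro p1 p2
    refine mul_nonneg (by norm_num) (K.EW_nonneg _ _ _ fun f1 _ => K.EW_nonneg _ _ _ fun f2 _ => ?_)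
    split_ifs
    · exact zero_le_one
    · exact le_refl _)
  refine le_trans (le_of_eq ?_) h2
  simp only [EW_mul_left]
  have h3 : K.cfk k D u1 u2 v1 v2 = K.EW k u1 (fun p1 => K.EW k u2 (fun p2 => K.EW k v1 (fun f1 =>
        K.EW k v2 (fun f2 => if NrCW D p1 p2 f1 f2 then (1 : ℝ) else 0)))) := by
    unfold cfk
    refine EW_congr K _ _ _ _ fun p1 _ => ?_
    refine EW_congr K _ _ _ _ fun p2 _ => ?_
    refine EW_congr K _ _ _ _ fun f1 _ => ?_
    refine EW_congr K _ _ _ _ fun f2 _ => ?_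
    unfold NrCW
    congr
  rw [h3]
  ring

end Ker

-- TARGET
namespace Ker
variable {V : Type} [Fintype V] [DecidableEq V] (K : Ker V)

/-- lower bound for the weight of the good configurations -/
theorem cw_low (D : Finset V) (r r0 a b k m0 : ℕ) (u1 u2 v1 v2 : V)
    (hu1 : u1 ∈ D) (hu2 : u2 ∈ D) (hv1 : v1 ∈ D) (hv2 : v2 ∈ D)
    (hup : ∀ t x y, m0 ≤ t → K.hk t x y ≤ 3 / (2 * (Fintype.card V : ℝ)))
    (hlow : ∀ t x y, m0 ≤ t → 1 / (2 * (Fintype.card V : ℝ)) ≤ K.hk t x y)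
    (hk : m0 ≤ k) (hk1 : 1 ≤ k) (hka : k + m0 ≤ a) (hkb : k + m0 ≤ b) (ha : a ≤ 2 * r) (hb : b ≤ r)
    (hr0 : 1 ≤ r0) (hr0r : r0 ≤ r) (hD : D.card ≤ r) :
    K.cfk k D u1 u2 v1 v2 / 4 - 120 * (r : ℝ) ^ 2 / Fintype.card V
      ≤ K.CW D r0 a b u1 u2 v1 v2 (fun _ _ _ _ _ _ => 1) := by
  classical
  obtain ⟨j, rfl⟩ : ∃ j, a = k + j := ⟨a - k, by omega⟩
  obtain ⟨j', rfl⟩ : ∃ j', b = k + j' := ⟨b - k, by omega⟩
  have hj : m0 ≤ j := by omega
  have hj' : m0 ≤ j' := by omega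
  have hn : (0 : ℝ) < Fintype.card V := by
    exact_mod_cast Fintype.card_pos_iff.2 ⟨u1⟩
  set n : ℝ := (Fintype.card V : ℝ) with hn_def
  refine le_trans ?_ (K.CW_ge_cw D r0 (k + j) (k + j') u1 u2 v1 v2 hu1 hu2 (by omega))
  have hlo := K.near_low_cw D r0 k j j' m0 u1 u2 v1 v2 hlow hj hj'
  -- pointwise inequality integrated
  have hpt : K.G2c (k + j) r0 u1 u2 (fun q1 q2 z0 => K.G2c (k + j') r0 v1 v2 (fun f1 f2 z1 =>
      (if NrCW D (q1.drop j) (q2.drop j) (f1.drop j') (f2.drop j') then (1 : ℝ) else 0)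
      - (∑ z ∈ D, cntCW (farCW j q1 q2 z0) z + ∑ z ∈ D, cntCW (farCW j' f1 f2 z1) z
        + ∑ z, cntCW (farCW j q1 q2 z0) z * cntCW (farCW j' f1 f2 z1 ++ nearCW j' f1 f2) z
        + ∑ z, cntCW (nearCW j q1 q2) z * cntCW (farCW j' f1 f2 z1) z)))
      ≤ K.G2c (k + j) r0 u1 u2 (fun q1 q2 z0 => K.G2c (k + j') r0 v1 v2 (fun f1 f2 z1 =>
        if GdCW D q1 q2 z0 f1 f2 z1 then (1 : ℝ) else 0)) := by
    refine G2c_mono K _ _ _ _ _ _ fun q1 q2 z0 _ _ _ _ => ?_
    refine G2c_mono K _ _ _ _ _ _ fun f1 f2 z1 _ _ _ _ => ?_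
    exact point_CW D j j' q1 q2 z0 f1 f2 z1
  refine le_trans ?_ hpt
  -- expand
  have e1 : ∀ q1 q2 z0, K.G2c (k + j') r0 v1 v2 (fun f1 f2 z1 =>
      (if NrCW D (q1.drop j) (q2.drop j) (f1.drop j') (f2.drop j') then (1 : ℝ) else 0)
      - (∑ z ∈ D, cntCW (farCW j q1 q2 z0) z + ∑ z ∈ D, cntCW (farCW j' f1 f2 z1) z
        + ∑ z, cntCW (farCW j q1 q2 z0) z * cntCW (farCW j' f1 f2 z1 ++ nearCW j' f1 f2) z
        + ∑ z, cntCW (nearCW j q1 q2) z * cntCW (farCW j' f1 f2 z1) z))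
      = K.G2c (k + j') r0 v1 v2 (fun f1 f2 z1 =>
        (if NrCW D (q1.drop j) (q2.drop j) (f1.drop j') (f2.drop j') then (1 : ℝ) else 0))
      - (∑ z ∈ D, cntCW (farCW j q1 q2 z0) z * K.G2c (k + j') r0 v1 v2 (fun _ _ _ => 1)
        + ∑ z ∈ D, K.G2c (k + j') r0 v1 v2 (fun f1 f2 z1 => cntCW (farCW j' f1 f2 z1) z)
        + ∑ z, cntCW (farCW j q1 q2 z0) z * K.G2c (k + j') r0 v1 v2 (fun f1 f2 z1 =>
            cntCW (farCW j' f1 f2 z1 ++ nearCW j' f1 f2) z)
        + ∑ z, cntCW (nearCW j q1 q2) z * K.G2c (k + j') r0 v1 v2 (fun f1 f2 z1 =>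
            cntCW (farCW j' f1 f2 z1) z)) := by
    intro q1 q2 z0
    rw [G2c_sub, G2c_add, G2c_add, G2c_add, G2c_sum, G2c_sum, G2c_sum, G2c_sum]
    simp only [G2c_mul_left]
    have e2 : ∀ c : ℝ, K.G2c (k + j') r0 v1 v2 (fun _ _ _ => c)
        = c * K.G2c (k + j') r0 v1 v2 (fun _ _ _ => 1) := by
      intro c
      rw [← G2c_mul_left]
      simp only [mul_one]
    simp only [e2 (cntCW _ _)]
  simp only [e1]
  rw [G2c_sub, G2c_add, G2c_add, G2c_add, G2c_sum, G2c_sum, G2c_sum, G2c_sum]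
  have e3 : ∀ c : ℝ, K.G2c (k + j) r0 u1 u2 (fun _ _ _ => c)
      = c * K.G2c (k + j) r0 u1 u2 (fun _ _ _ => 1) := by
    intro c
    rw [← G2c_mul_left]
    simp only [mul_one]
  simp only [e3 (K.G2c (k + j') r0 v1 v2 (fun f1 f2 z1 => cntCW (farCW j' f1 f2 z1) _))]
  rw [← sum_mul D (fun z => K.G2c (k + j') r0 v1 v2 (fun f1 f2 z1 =>
    cntCW (farCW j' f1 f2 z1) z)) (K.G2c (k + j) r0 u1 u2 (fun _ _ _ => 1))]
  have e4 : ∀ (c : ℝ) (Φ : List V → List V → List V → ℝ),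
      K.G2c (k + j) r0 u1 u2 (fun q1 q2 z0 => Φ q1 q2 z0 * c)
      = K.G2c (k + j) r0 u1 u2 Φ * c := by
    intro c Φ
    rw [mul_comm, ← G2c_mul_left]
    simp only [mul_comm]
  simp only [e4]
  -- bounds
  set Mp := K.G2c (k + j) r0 u1 u2 (fun _ _ _ => 1) with hMp
  set Mf := K.G2c (k + j') r0 v1 v2 (fun _ _ _ => 1) with hMf
  have hMp1 : Mp ≤ 3 / 2 := by
    have := K.G2c_two (k + j) r0 m0 u1 u2 hup (by omega) (fun _ => 1) (fun _ => zero_le_one)
    rw [EW_const] at this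
    linarith
  have hMf1 : Mf ≤ 3 / 2 := by
    have := K.G2c_two (k + j') r0 m0 v1 v2 hup (by omega) (fun _ => 1) (fun _ => zero_le_one)
    rw [EW_const] at this
    linarith
  have h00 : ∀ (a : ℕ) (x y : V) (Φ : List V → List V → List V → ℝ),
      (∀ q1 q2 z, 0 ≤ Φ q1 q2 z) → 0 ≤ K.G2c a r0 x y Φ := by
    intro a x y Φ h
    have h2 := K.G2c_mono a r0 x y (fun _ _ _ => 0) Φ (fun q1 q2 z _ _ _ _ => h q1 q2 z)
    have h3 := K.G2c_mul_left a r0 x y 0 (fun _ _ _ => 0)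
    rw [zero_mul] at h3
    simp only [zero_mul] at h3
    rw [h3] at h2
    exact h2
  have hMp0 : 0 ≤ Mp := h00 _ _ _ _ fun _ _ _ => zero_le_one
  have hMf0 : 0 ≤ Mf := h00 _ _ _ _ fun _ _ _ => zero_le_one
  have hr : (0 : ℝ) ≤ r := Nat.cast_nonneg r
  have hr1 : (1 : ℝ) ≤ r := by exact_mod_cast hr0.trans hr0r
  have hjr : (j : ℝ) ≤ 2 * r := by
    have : j ≤ 2 * r := by omega
    exact_mod_cast this
  have hjr' : (j' : ℝ) ≤ r := by
    have : j' ≤ r := by omega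
    exact_mod_cast this
  have hr0r' : (r0 : ℝ) ≤ r := by exact_mod_cast hr0r
  have hkr : (k : ℝ) ≤ r := by
    have : k ≤ r := by omega
    exact_mod_cast this
  have hDr : (D.card : ℝ) ≤ r := by exact_mod_cast hD
  have hinv : 0 < 1 / n := by positivity
  -- far occupation
  have hFp : ∀ z, K.G2c (k + j) r0 u1 u2 (fun q1 q2 w => cntCW (farCW j q1 q2 w) z)
      ≤ 45 / 4 * (r / n) := by
    intro z
    refine (K.G2c_far k j r0 m0 u1 u2 z hup hk).trans ?_
    have h1 : (2 * (j : ℝ) + r0) ≤ 5 * r := by linarith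
    calc 3 / 2 * ((2 * (j : ℝ) + r0) * (3 / (2 * n)))
        ≤ 3 / 2 * ((5 * r) * (3 / (2 * n))) := by
          have : (0 : ℝ) ≤ 3 / (2 * n) := by positivity
          have := mul_le_mul_of_nonneg_right h1 this
          linarith
      _ = 45 / 4 * (r / n) := by
          field_simp
          ring
  have hFf : ∀ z, K.G2c (k + j') r0 v1 v2 (fun q1 q2 w => cntCW (farCW j' q1 q2 w) z)
      ≤ 27 / 4 * (r / n) := by
    intro z
    refine (K.G2c_far k j' r0 m0 v1 v2 z hup hk).trans ?_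
    have h1 : (2 * (j' : ℝ) + r0) ≤ 3 * r := by linarith
    calc 3 / 2 * ((2 * (j' : ℝ) + r0) * (3 / (2 * n)))
        ≤ 3 / 2 * ((3 * r) * (3 / (2 * n))) := by
          have : (0 : ℝ) ≤ 3 / (2 * n) := by positivity
          have := mul_le_mul_of_nonneg_right h1 this
          linarith
      _ = 27 / 4 * (r / n) := by
          field_simp
          ring
  have hFp0 : ∀ z, 0 ≤ K.G2c (k + j) r0 u1 u2 (fun q1 q2 w => cntCW (farCW j q1 q2 w) z) :=
    fun z => h00 _ _ _ _ fun _ _ _ => cntCW_nonneg _ _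
  have hFf0 : ∀ z, 0 ≤ K.G2c (k + j') r0 v1 v2 (fun q1 q2 w => cntCW (farCW j' q1 q2 w) z) :=
    fun z => h00 _ _ _ _ fun _ _ _ => cntCW_nonneg _ _
  have hAf0 : ∀ z, 0 ≤ K.G2c (k + j') r0 v1 v2 (fun f1 f2 z1 =>
      cntCW (farCW j' f1 f2 z1 ++ nearCW j' f1 f2) z) :=
    fun z => h00 _ _ _ _ fun _ _ _ => cntCW_nonneg _ _
  have hNp0 : ∀ z, 0 ≤ K.G2c (k + j) r0 u1 u2 (fun q1 q2 _ => cntCW (nearCW j q1 q2) z) :=
    fun z => h00 _ _ _ _ fun _ _ _ => cntCW_nonneg _ _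
  have hAf : ∑ z, K.G2c (k + j') r0 v1 v2 (fun f1 f2 z1 =>
      cntCW (farCW j' f1 f2 z1 ++ nearCW j' f1 f2) z) ≤ 3 / 2 * (3 * r) := by
    refine K.G2c_len (k + j') r0 m0 v1 v2 hup (by omega)
      (fun f1 f2 z1 => farCW j' f1 f2 z1 ++ nearCW j' f1 f2) (3 * r) (by linarith) ?_
    intro q1 q2 z h1 h2 h3
    have : (farCW j' q1 q2 z ++ nearCW j' q1 q2).length ≤ 3 * r := by
      unfold farCW nearCW
      simp only [List.length_append, List.length_take, List.length_drop]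
      omega
    exact_mod_cast this
  have hNp : ∑ z, K.G2c (k + j) r0 u1 u2 (fun q1 q2 _ => cntCW (nearCW j q1 q2) z)
      ≤ 3 / 2 * (2 * r) := by
    refine K.G2c_len (k + j) r0 m0 u1 u2 hup (by omega)
      (fun q1 q2 _ => nearCW j q1 q2) (2 * r) (by linarith) ?_
    intro q1 q2 z h1 h2 h3
    have : (nearCW j q1 q2).length ≤ 2 * r := by
      unfold nearCW
      simp only [List.length_append, List.length_drop]
      omega
    exact_mod_cast this
  have hrn : 0 ≤ (r : ℝ) / n := by positivity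
  have b1 : ∑ z ∈ D, K.G2c (k + j) r0 u1 u2 (fun q1 q2 w => cntCW (farCW j q1 q2 w) z) * Mf
      ≤ r * (45 / 4 * (r / n)) * (3 / 2) := by
    rw [← sum_mul]
    refine mul_le_mul ?_ hMf1 hMf0 (by positivity)
    calc ∑ z ∈ D, K.G2c (k + j) r0 u1 u2 (fun q1 q2 w => cntCW (farCW j q1 q2 w) z)
        ≤ ∑ z ∈ D, 45 / 4 * (r / n) := sum_le_sum fun z _ => hFp z
      _ = D.card * (45 / 4 * (r / n)) := by rw [sum_const, nsmul_eq_mul]
      _ ≤ r * (45 / 4 * (r / n)) := mul_le_mul_of_nonneg_right hDr (by positivity)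
  have b2 : (∑ z ∈ D, K.G2c (k + j') r0 v1 v2 (fun f1 f2 z1 => cntCW (farCW j' f1 f2 z1) z)) * Mp
      ≤ r * (27 / 4 * (r / n)) * (3 / 2) := by
    refine mul_le_mul ?_ hMp1 hMp0 (by positivity)
    calc ∑ z ∈ D, K.G2c (k + j') r0 v1 v2 (fun q1 q2 w => cntCW (farCW j' q1 q2 w) z)
        ≤ ∑ z ∈ D, 27 / 4 * (r / n) := sum_le_sum fun z _ => hFf z
      _ = D.card * (27 / 4 * (r / n)) := by rw [sum_const, nsmul_eq_mul]
      _ ≤ r * (27 / 4 * (r / n)) := mul_le_mul_of_nonneg_right hDr (by positivity)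
  have b3 : ∑ z, K.G2c (k + j) r0 u1 u2 (fun q1 q2 w => cntCW (farCW j q1 q2 w) z)
      * K.G2c (k + j') r0 v1 v2 (fun f1 f2 z1 =>
          cntCW (farCW j' f1 f2 z1 ++ nearCW j' f1 f2) z)
      ≤ 45 / 4 * (r / n) * (3 / 2 * (3 * r)) := by
    calc ∑ z, K.G2c (k + j) r0 u1 u2 (fun q1 q2 w => cntCW (farCW j q1 q2 w) z)
      * K.G2c (k + j') r0 v1 v2 (fun f1 f2 z1 =>
          cntCW (farCW j' f1 f2 z1 ++ nearCW j' f1 f2) z)
        ≤ ∑ z, 45 / 4 * (r / n) * K.G2c (k + j') r0 v1 v2 (fun f1 f2 z1 =>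
          cntCW (farCW j' f1 f2 z1 ++ nearCW j' f1 f2) z) :=
          sum_le_sum fun z _ => mul_le_mul_of_nonneg_right (hFp z) (hAf0 z)
      _ = 45 / 4 * (r / n) * ∑ z, K.G2c (k + j') r0 v1 v2 (fun f1 f2 z1 =>
          cntCW (farCW j' f1 f2 z1 ++ nearCW j' f1 f2) z) := by rw [mul_sum]
      _ ≤ _ := mul_le_mul_of_nonneg_left hAf (by positivity)
  have b4 : ∑ z, K.G2c (k + j) r0 u1 u2 (fun q1 q2 _ => cntCW (nearCW j q1 q2) z)
      * K.G2c (k + j') r0 v1 v2 (fun f1 f2 z1 => cntCW (farCW j' f1 f2 z1) z)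
      ≤ 3 / 2 * (2 * r) * (27 / 4 * (r / n)) := by
    calc ∑ z, K.G2c (k + j) r0 u1 u2 (fun q1 q2 _ => cntCW (nearCW j q1 q2) z)
      * K.G2c (k + j') r0 v1 v2 (fun f1 f2 z1 => cntCW (farCW j' f1 f2 z1) z)
        ≤ ∑ z, K.G2c (k + j) r0 u1 u2 (fun q1 q2 _ => cntCW (nearCW j q1 q2) z)
          * (27 / 4 * (r / n)) :=
          sum_le_sum fun z _ => mul_le_mul_of_nonneg_left (hFf z) (hNp0 z)
      _ = (∑ z, K.G2c (k + j) r0 u1 u2 (fun q1 q2 _ => cntCW (nearCW j q1 q2) z))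
          * (27 / 4 * (r / n)) := by rw [sum_mul]
      _ ≤ _ := mul_le_mul_of_nonneg_right hNp (by positivity)
  have hfin : 120 * (r : ℝ) ^ 2 / n = 120 * (r * (r / n)) := by
    field_simp
  have hrrn : 0 ≤ (r : ℝ) * (r / n) := by positivity
  rw [hfin]
  nlinarith [b1, b2, b3, b4, hlo, hrrn]

end Ker

end HP192
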