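import Mathlib
import Pool.Agent.Helper192_HP.Defs
import Pool.Agent.Helper192_HP.WDefs
import Pool.Agent.Helper192_HP.Basic
import Pool.Agent.Helper192_HP.W01
import Pool.Agent.Helper192_HP.W02
import Pool.Agent.Helper192_HP.KDefs
import Pool.Agent.Helper192_HP.KLink
import Pool.Agent.Helper192_HP.RDefs
import Pool.Agent.Helper192_HP.RDefs2
import Pool.Agent.Helper192_HP.R02

namespace HP192
open Finset

namespace Ker
variable {V : Type} [Fintype V] [DecidableEq V] (K : Ker V)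

/-- exchange of two independent expectations -/
theorem EW_comm6146 {E : Type} [AddCommMonoid E] [Module ℝ E] (s t : ℕ) (x y : V)
    (F : List V → List V → E) :
    K.EW s x (fun w => K.EW t y (fun w' => F w w'))
      = K.EW t y (fun w' => K.EW s x (fun w => F w w')) := by
  induction s generalizing x F with
  | zero => simp only [EW_zero]
  | succ s ih =>
    simp only [EW_succ, EW_sum, EW_smul]
    refine Finset.sum_congr rfl fun z _ => ?_
    rw [ih]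

/-- bound for one combination after dropping the avoidance conditions -/
theorem cw_core6146 (r0 a b m0 : ℕ) (u u' v v' : V) (x0 : V) (q : List V)
    (hup : ∀ t x y, m0 ≤ t → K.hk t x y ≤ 3 / (2 * (Fintype.card V : ℝ)))
    (ha : m0 ≤ a) (hb : m0 ≤ b)
    (Φ : List V → List V → ℝ) (hΦ0 : ∀ f w', 0 ≤ Φ f w') :
    K.EW a x0 (fun q' => K.EW b v (fun f => K.EW b v' (fun f' => K.EW r0 (tip v f) (fun w' =>
      if tip x0 q' = u' ∧ tip v f = tip v' f' then (Fintype.card V : ℝ) ^ 2 * Φ f w' else 0))))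
    ≤ 9 / 4 * K.EW b v (fun f => K.EW r0 (tip v f) (fun w' => Φ f w')) := by
  classical
  have hn : (0 : ℝ) < (Fintype.card V : ℝ) := by
    have : 0 < Fintype.card V := Fintype.card_pos_iff.2 ⟨v⟩
    exact_mod_cast this
  have h1 : ∀ q' f f' w', (if tip x0 q' = u' ∧ tip v f = tip v' f'
      then (Fintype.card V : ℝ) ^ 2 * Φ f w' else 0)
      = (if tip x0 q' = u' then (1 : ℝ) else 0) * ((if tip v' f' = tip v f then (1 : ℝ) else 0) *
        ((Fintype.card V : ℝ) ^ 2 * Φ f w')) := by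
    intro q' f f' w'
    by_cases h : tip x0 q' = u'
    · by_cases h' : tip v' f' = tip v f
      · simp [h, h']
      · simp [h, h', Ne.symm h']
    · simp [h]
  have h2 : K.EW a x0 (fun q' => K.EW b v (fun f => K.EW b v' (fun f' =>
      K.EW r0 (tip v f) (fun w' =>
      if tip x0 q' = u' ∧ tip v f = tip v' f' then (Fintype.card V : ℝ) ^ 2 * Φ f w' else 0))))
      = K.hk a x0 u' * K.EW b v (fun f => K.hk b v' (tip v f) *
        ((Fintype.card V : ℝ) ^ 2 * K.EW r0 (tip v f) (fun w' => Φ f w'))) := by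
    simp only [h1, EW_mul_left, EW_mul_right, hk_eq_EW]
  rw [h2]
  have hg : ∀ f, 0 ≤ K.EW r0 (tip v f) (fun w' => Φ f w') := fun f =>
    K.EW_nonneg _ _ _ fun w' _ => hΦ0 f w'
  have h3 : K.EW b v (fun f => K.hk b v' (tip v f) *
        ((Fintype.card V : ℝ) ^ 2 * K.EW r0 (tip v f) (fun w' => Φ f w')))
      ≤ K.EW b v (fun f => (3 / (2 * (Fintype.card V : ℝ)) * (Fintype.card V : ℝ) ^ 2) *
        K.EW r0 (tip v f) (fun w' => Φ f w')) := by
    refine K.EW_mono _ _ _ _ fun f _ => ?_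
    rw [mul_assoc]
    exact mul_le_mul_of_nonneg_right (hup _ _ _ hb) (mul_nonneg (by positivity) (hg f))
  rw [EW_mul_left] at h3
  have h4 : 0 ≤ K.EW b v (fun f => K.EW r0 (tip v f) (fun w' => Φ f w')) :=
    K.EW_nonneg _ _ _ fun f _ => hg f
  have h5 : 0 ≤ K.EW b v (fun f => K.hk b v' (tip v f) *
        ((Fintype.card V : ℝ) ^ 2 * K.EW r0 (tip v f) (fun w' => Φ f w'))) :=
    K.EW_nonneg _ _ _ fun f _ => mul_nonneg (K.hk_nonneg _ _ _)
      (mul_nonneg (by positivity) (hg f))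
  calc _ ≤ 3 / (2 * (Fintype.card V : ℝ)) * ((3 / (2 * (Fintype.card V : ℝ)) *
        (Fintype.card V : ℝ) ^ 2) *
        K.EW b v (fun f => K.EW r0 (tip v f) (fun w' => Φ f w'))) :=
        mul_le_mul (hup _ _ _ ha) h3 h5 (by positivity)
    _ = 9 / 4 * K.EW b v (fun f => K.EW r0 (tip v f) (fun w' => Φ f w')) := by
        field_simp
        ring

/-- one combination, all cases -/
theorem cw_one6146 (o : V) (D : Finset V) (r0 a b m m0 : ℕ) (p : ℝ) (u u' v v' : V) (hp : 0 < p)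
    (hup : ∀ t x y, m0 ≤ t → K.hk t x y ≤ 3 / (2 * (Fintype.card V : ℝ)))
    (ha : m0 ≤ a) (hb : m0 ≤ b) (hr0 : 1 ≤ r0)
    (Φ : List V → List V → List V → ℝ) (hΦ0 : ∀ ω0 ω1 ω', 0 ≤ Φ ω0 ω1 ω')
    (hΦ : ∀ g : Equiv.Perm V, (∀ a b, K.P (g a) (g b) = K.P a b) → ∀ ω0 ω1 ω' : List V,
      ω0 ≠ [] → Φ (ω0.map g) (ω1.map g) (ω'.map g) = Φ ω0 ω1 ω')
    (c : List V) (hc : K.Conn D p m u v c) (W : ℝ)
    (hW : W ≤ ∑ s, K.EW r0 s (fun w0 => K.EW a (tip s w0) (fun q => K.EW a (tip s w0) (fun q' =>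
      K.EW b v (fun f => K.EW b v' (fun f' => K.EW r0 (tip v f) (fun w' =>
        if tip (tip s w0) q = u ∧ tip (tip s w0) q' = u' ∧ tip v f = tip v' f'
        then (Fintype.card V : ℝ) ^ 2 * Φ w0 (f ++ (v :: c) ++ q) w' else 0))))))) :
    p ^ (c.length + 1) * W ≤ 9 / 4 * K.EW r0 o (fun ω0 =>
      K.EW (a + b + c.length + 1) (tip o ω0) (fun ω1 =>
          K.EW r0 (tip (tip o ω0) ω1) (fun ω' => Φ ω0 ω1 ω'))) := by
  classical
  have hdom := K.dom o r0 a b m hr0 D p hp u v c hc Φ hΦ0 hΦ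
  have hW2 : W ≤ 9 / 4 * ∑ s, K.EW r0 s (fun ω0 => K.EW a (tip s ω0) (fun q =>
        if tip (tip s ω0) q = u then K.EW b v (fun f => K.EW r0 (tip v f) (fun ω' =>
          Φ ω0 (f ++ (v :: c) ++ q) ω')) else 0)) := by
    refine hW.trans ?_
    rw [Finset.mul_sum]
    refine Finset.sum_le_sum fun s _ => ?_
    rw [← EW_mul_left]
    refine K.EW_mono _ _ _ _ fun w0 _ => ?_
    rw [← EW_mul_left]
    refine K.EW_mono _ _ _ _ fun q _ => ?_
    by_cases h : tip (tip s w0) q = u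
    · simp only [h, true_and, if_true]
      exact K.cw_core6146 r0 a b m0 u u' v v' (tip s w0) q hup ha hb
        (fun f w' => Φ w0 (f ++ (v :: c) ++ q) w') (fun f w' => hΦ0 _ _ _)
    · simp only [h, false_and, if_false, EW_const, mul_zero, le_refl]
  have hpp : 0 ≤ p ^ (c.length + 1) := by positivity
  calc p ^ (c.length + 1) * W ≤ p ^ (c.length + 1) * (9 / 4 * ∑ s, K.EW r0 s (fun ω0 =>
        K.EW a (tip s ω0) (fun q =>
        if tip (tip s ω0) q = u then K.EW b v (fun f => K.EW r0 (tip v f) (fun ω' =>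
          Φ ω0 (f ++ (v :: c) ++ q) ω')) else 0))) := mul_le_mul_of_nonneg_left hW2 hpp
    _ = 9 / 4 * (p ^ (c.length + 1) * ∑ s, K.EW r0 s (fun ω0 =>
        K.EW a (tip s ω0) (fun q =>
        if tip (tip s ω0) q = u then K.EW b v (fun f => K.EW r0 (tip v f) (fun ω' =>
          Φ ω0 (f ++ (v :: c) ++ q) ω')) else 0))) := by ring
    _ ≤ _ := mul_le_mul_of_nonneg_left hdom (by norm_num)

/-- pointwise comparison, same future -/
theorem cw_cmp6146 (r0 b : ℕ) (v v' : V) (P1 P2 : Prop) [Decidable P1] [Decidable P2]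
    (Q : List V → List V → List V → Prop) [∀ f f' w', Decidable (Q f f' w')]
    (A : List V → List V → ℝ) (hA : ∀ f w', 0 ≤ A f w') :
    K.EW b v (fun f => K.EW b v' (fun f' => K.EW r0 (tip v f) (fun w' =>
      if P1 ∧ P2 ∧ tip v f = tip v' f' ∧ Q f f' w' then A f w' else 0)))
    ≤ K.EW b v (fun f => K.EW b v' (fun f' => K.EW r0 (tip v f) (fun w' =>
      if P1 ∧ P2 ∧ tip v f = tip v' f' then A f w' else 0))) := by
  refine K.EW_mono _ _ _ _ fun f _ => K.EW_mono _ _ _ _ fun f' _ =>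
    K.EW_mono _ _ _ _ fun w' _ => ?_
  by_cases h : P1 ∧ P2 ∧ tip v f = tip v' f'
  · by_cases h' : Q f f' w'
    · rw [if_pos ⟨h.1, h.2.1, h.2.2, h'⟩, if_pos h]
    · rw [if_neg (fun hh => h' hh.2.2.2), if_pos h]
      exact hA f w'
  · rw [if_neg (fun hh => h ⟨hh.1, hh.2.1, hh.2.2.1⟩), if_neg h]

/-- pointwise comparison, exchanged future -/
theorem cw_cmp'6146 (r0 b : ℕ) (v v' : V) (P1 P2 : Prop) [Decidable P1] [Decidable P2]
    (Q : List V → List V → List V → Prop) [∀ f f' w', Decidable (Q f f' w')]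
    (A : List V → List V → ℝ) (hA : ∀ f w', 0 ≤ A f w') :
    K.EW b v' (fun f' => K.EW b v (fun f => K.EW r0 (tip v' f') (fun w' =>
      if P1 ∧ P2 ∧ tip v' f' = tip v f ∧ Q f' f w' then A f w' else 0)))
    ≤ K.EW b v (fun f => K.EW b v' (fun f' => K.EW r0 (tip v f) (fun w' =>
      if P1 ∧ P2 ∧ tip v f = tip v' f' then A f w' else 0))) := by
  rw [EW_comm6146]
  refine K.EW_mono _ _ _ _ fun f _ => K.EW_mono _ _ _ _ fun f' _ => ?_
  by_cases h : tip v f = tip v' f'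
  · rw [h]
    refine K.EW_mono _ _ _ _ fun w' _ => ?_
    by_cases h1 : P1 ∧ P2
    · by_cases h' : Q f' f w'
      · rw [if_pos ⟨h1.1, h1.2, rfl, h'⟩, if_pos ⟨h1.1, h1.2, rfl⟩]
      · rw [if_neg (fun hh => h' hh.2.2.2), if_pos ⟨h1.1, h1.2, rfl⟩]
        exact hA f w'
    · rw [if_neg (fun hh => h1 ⟨hh.1, hh.2.1⟩), if_neg (fun hh => h1 ⟨hh.1, hh.2.1⟩)]
  · have e1 : ∀ w', (if P1 ∧ P2 ∧ tip v' f' = tip v f ∧ Q f' f w' then A f w' else 0) = 0 :=
      fun w' => if_neg (fun hh => h hh.2.2.1.symm)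
    have e2 : ∀ w' : List V, (if P1 ∧ P2 ∧ tip v f = tip v' f' then A f w' else 0) = 0 :=
      fun w' => if_neg (fun hh => h hh.2.2)
    simp only [e1, e2, EW_const, le_refl]

end Ker

-- TARGET
namespace Ker
variable {V : Type} [Fintype V] [DecidableEq V] (K : Ker V)

/-- upper bounds: each of the four combinations of a past and a future is dominated -/
theorem cw_up (o : V) (D : Finset V) (r0 a b m m0 : ℕ) (p : ℝ) (u1 u2 v1 v2 : V) (hp : 0 < p)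
    (hup : ∀ t x y, m0 ≤ t → K.hk t x y ≤ 3 / (2 * (Fintype.card V : ℝ)))
    (ha : m0 ≤ a) (hb : m0 ≤ b) (hr0 : 1 ≤ r0)
    (Φ : List V → List V → List V → ℝ) (hΦ0 : ∀ ω0 ω1 ω', 0 ≤ Φ ω0 ω1 ω')
    (hΦ : ∀ g : Equiv.Perm V, (∀ a b, K.P (g a) (g b) = K.P a b) → ∀ ω0 ω1 ω' : List V,
      ω0 ≠ [] → Φ (ω0.map g) (ω1.map g) (ω'.map g) = Φ ω0 ω1 ω')
    (c11 c12 c21 c22 : List V) (h11 : K.Conn D p m u1 v1 c11) (h12 : K.Conn D p m u1 v2 c12)
    (h21 : K.Conn D p m u2 v1 c21) (h22 : K.Conn D p m u2 v2 c22) :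
    (p ^ (c11.length + 1) * K.CW D r0 a b u1 u2 v1 v2 (fun w0 q1 q2 f1 f2 w' =>
        Φ w0 (f1 ++ (v1 :: c11) ++ q1) w')
      ≤ 9 / 4 * K.EW r0 o (fun ω0 => K.EW (a + b + c11.length + 1) (tip o ω0) (fun ω1 =>
          K.EW r0 (tip (tip o ω0) ω1) (fun ω' => Φ ω0 ω1 ω')))) ∧
    (p ^ (c12.length + 1) * K.CW D r0 a b u1 u2 v1 v2 (fun w0 q1 q2 f1 f2 w' =>
        Φ w0 (f2 ++ (v2 :: c12) ++ q1) w')
      ≤ 9 / 4 * K.EW r0 o (fun ω0 => K.EW (a + b + c12.length + 1) (tip o ω0) (fun ω1 =>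
          K.EW r0 (tip (tip o ω0) ω1) (fun ω' => Φ ω0 ω1 ω')))) ∧
    (p ^ (c21.length + 1) * K.CW D r0 a b u1 u2 v1 v2 (fun w0 q1 q2 f1 f2 w' =>
        Φ w0 (f1 ++ (v1 :: c21) ++ q2) w')
      ≤ 9 / 4 * K.EW r0 o (fun ω0 => K.EW (a + b + c21.length + 1) (tip o ω0) (fun ω1 =>
          K.EW r0 (tip (tip o ω0) ω1) (fun ω' => Φ ω0 ω1 ω')))) ∧
    (p ^ (c22.length + 1) * K.CW D r0 a b u1 u2 v1 v2 (fun w0 q1 q2 f1 f2 w' =>
        Φ w0 (f2 ++ (v2 :: c22) ++ q2) w')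
      ≤ 9 / 4 * K.EW r0 o (fun ω0 => K.EW (a + b + c22.length + 1) (tip o ω0) (fun ω1 =>
          K.EW r0 (tip (tip o ω0) ω1) (fun ω' => Φ ω0 ω1 ω')))) := by
  classical
  have hn : (0 : ℝ) ≤ (Fintype.card V : ℝ) ^ 2 := by positivity
  refine ⟨?_, ?_, ?_, ?_⟩
  · refine K.cw_one6146 o D r0 a b m m0 p u1 u2 v1 v2 hp hup ha hb hr0 Φ hΦ0 hΦ c11 h11 _ ?_
    unfold CW
    refine Finset.sum_le_sum fun s _ => K.EW_mono _ _ _ _ fun w0 _ =>
      K.EW_mono _ _ _ _ fun q1 _ => K.EW_mono _ _ _ _ fun q2 _ => ?_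
    convert K.cw_cmp6146 r0 b v1 v2 (tip (tip s w0) q1 = u1) (tip (tip s w0) q2 = u2)
      (fun f1 f2 w' => GoodC D w0 q1 q2 f1 f2 w')
      (fun f w' => (Fintype.card V : ℝ) ^ 2 * Φ w0 (f ++ (v1 :: c11) ++ q1) w')
      (fun f w' => mul_nonneg hn (hΦ0 _ _ _)) using 1
  · refine K.cw_one6146 o D r0 a b m m0 p u1 u2 v2 v1 hp hup ha hb hr0 Φ hΦ0 hΦ c12 h12 _ ?_
    unfold CW
    refine Finset.sum_le_sum fun s _ => K.EW_mono _ _ _ _ fun w0 _ =>
      K.EW_mono _ _ _ _ fun q1 _ => K.EW_mono _ _ _ _ fun q2 _ => ?_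
    convert K.cw_cmp'6146 r0 b v2 v1 (tip (tip s w0) q1 = u1) (tip (tip s w0) q2 = u2)
      (fun f1 f2 w' => GoodC D w0 q1 q2 f1 f2 w')
      (fun f w' => (Fintype.card V : ℝ) ^ 2 * Φ w0 (f ++ (v2 :: c12) ++ q1) w')
      (fun f w' => mul_nonneg hn (hΦ0 _ _ _)) using 1
  · refine K.cw_one6146 o D r0 a b m m0 p u2 u1 v1 v2 hp hup ha hb hr0 Φ hΦ0 hΦ c21 h21 _ ?_
    unfold CW
    refine Finset.sum_le_sum fun s _ => K.EW_mono _ _ _ _ fun w0 _ => ?_
    rw [EW_comm6146]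
    refine K.EW_mono _ _ _ _ fun q2 _ => K.EW_mono _ _ _ _ fun q1 _ => ?_
    have := K.cw_cmp6146 r0 b v1 v2 (tip (tip s w0) q1 = u1) (tip (tip s w0) q2 = u2)
      (fun f1 f2 w' => GoodC D w0 q1 q2 f1 f2 w')
      (fun f w' => (Fintype.card V : ℝ) ^ 2 * Φ w0 (f ++ (v1 :: c21) ++ q2) w')
      (fun f w' => mul_nonneg hn (hΦ0 _ _ _))
    refine le_trans (le_of_eq ?_) (this.trans (le_of_eq ?_))
    · rfl
    · refine K.EW_congr _ _ _ _ fun f _ => K.EW_congr _ _ _ _ fun f' _ =>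
        K.EW_congr _ _ _ _ fun w' _ => ?_
      exact if_congr ⟨fun h => ⟨h.2.1, h.1, h.2.2⟩, fun h => ⟨h.2.1, h.1, h.2.2⟩⟩ rfl rfl
  · refine K.cw_one6146 o D r0 a b m m0 p u2 u1 v2 v1 hp hup ha hb hr0 Φ hΦ0 hΦ c22 h22 _ ?_
    unfold CW
    refine Finset.sum_le_sum fun s _ => K.EW_mono _ _ _ _ fun w0 _ => ?_
    rw [EW_comm6146]
    refine K.EW_mono _ _ _ _ fun q2 _ => K.EW_mono _ _ _ _ fun q1 _ => ?_
    have := K.cw_cmp'6146 r0 b v2 v1 (tip (tip s w0) q1 = u1) (tip (tip s w0) q2 = u2)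
      (fun f1 f2 w' => GoodC D w0 q1 q2 f1 f2 w')
      (fun f w' => (Fintype.card V : ℝ) ^ 2 * Φ w0 (f ++ (v2 :: c22) ++ q2) w')
      (fun f w' => mul_nonneg hn (hΦ0 _ _ _))
    refine le_trans (le_of_eq ?_) (this.trans (le_of_eq ?_))
    · rfl
    · refine K.EW_congr _ _ _ _ fun f _ => K.EW_congr _ _ _ _ fun f' _ =>
        K.EW_congr _ _ _ _ fun w' _ => ?_
      exact if_congr ⟨fun h => ⟨h.2.1, h.1, h.2.2⟩, fun h => ⟨h.2.1, h.1, h.2.2⟩⟩ rfl rfl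

end Ker

end HP192
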