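import Mathlib
import Pool.Agent.Helper192_HP.Defs
import Pool.Agent.Helper192_HP.WDefs
import Pool.Agent.Helper192_HP.W01
import Pool.Agent.Helper192_HP.KDefs
import Pool.Agent.Helper192_HP.KLink
import Pool.Agent.Helper192_HP.RDefs
import Pool.Agent.Helper192_HP.RDefs2

namespace HP192
open Finset

theorem LE_of_nodup_aux {V : Type} [DecidableEq V] (l : List V) (h : l.Nodup) : LE l = l := by
  induction l with
  | nil => rfl
  | cons a l ih =>
    have h' := List.nodup_cons.1 h
    show stp a (LE l) = a :: l
    rw [ih h'.2]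
    unfold stp
    rw [if_neg h'.1]

/-- TARGET -/
/- loop-erased length through a connector -/
theorem len_conn {V : Type} [Fintype V] [DecidableEq V] (K : Ker V) (D : Finset V) (p : ℝ) (m : ℕ)
    (u v : V) (c : List V) (hc : K.Conn D p m u v c) (s : V) (w0 q f w' : List V) (hw0 : w0 ≠ [])
    (hq : tip (tip s w0) q = u) (h1 : Av D (q.tail ++ w0)) (h2 : Av D (w' ++ f))
    (h3 : Dj (w' ++ f) (q ++ w0)) :
    len (w' ++ (f ++ (v :: c) ++ q) ++ w0) = len (w' ++ f) + (c.length + 1) + len (q ++ w0) := by
  classical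
  rcases q with _ | ⟨a, q'⟩
  · exfalso
    rcases w0 with _ | ⟨b, w0'⟩
    · exact hw0 rfl
    · have hb : b = u := by simpa [tip] using hq
      have hu : u ∈ D := hc.sub u (by simp)
      exact h1 b (by simp) (hb ▸ hu)
  · have ha : a = u := by simpa [tip] using hq
    subst ha
    have hnd := hc.nodup
    rw [List.nodup_append] at hnd
    obtain ⟨hn1, _, hn2⟩ := hnd
    have hD : ∀ y ∈ v :: c, y ∈ D := fun y hy => hc.sub y (List.mem_append_left _ hy)
    have hne : ∀ y ∈ v :: c, y ≠ a := fun y hy => hn2 y hy a (by simp)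
    have hB : ∀ y ∈ v :: c, y ∉ LE ((a :: q') ++ w0) := by
      intro y hy hm
      have hm' := LE_sub _ _ hm
      rw [List.cons_append, List.mem_cons] at hm'
      rcases hm' with hm' | hm'
      · exact hne y hy hm'
      · exact h1 y (by simpa using hm') (hD y hy)
    have e1 : len ((v :: c) ++ ((a :: q') ++ w0)) = (c.length + 1) + len ((a :: q') ++ w0) := by
      rw [len_append _ _ hB]
      have : len (v :: c) = c.length + 1 := by
        unfold len
        rw [LE_of_nodup_aux _ hn1]
        simp
      rw [this]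
    have hA : ∀ y ∈ w' ++ f, y ∉ LE ((v :: c) ++ ((a :: q') ++ w0)) := by
      intro y hy hm
      have hm' := LE_sub _ _ hm
      rcases List.mem_append.1 hm' with hm' | hm'
      · exact h2 y hy (hD y hm')
      · exact h3 y hy hm'
    have e2 := len_append _ _ hA
    have e3 : w' ++ (f ++ (v :: c) ++ (a :: q')) ++ w0
        = (w' ++ f) ++ ((v :: c) ++ ((a :: q') ++ w0)) := by
      simp [List.append_assoc]
    rw [e3, e2, e1]
    omega

end HP192
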