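import Mathlib
import Pool.Agent.Helper192_HP.Defs
import Pool.Agent.Helper192_HP.WDefs
import Pool.Agent.Helper192_HP.Basic
import Pool.Agent.Helper192_HP.W01
import Pool.Agent.Helper192_HP.W02
import Pool.Agent.Helper192_HP.KDefs
import Pool.Agent.Helper192_HP.KLink
import Pool.Agent.Helper192_HP.RDefs
import Pool.Agent.Helper192_HP.RDefs2
import Pool.Agent.Helper192_HP.R01
import Pool.Agent.Helper192_HP.R03
import Pool.Agent.Helper192_HP.R04
import Pool.Agent.Helper192_HP.R05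

namespace HP192
open Finset

namespace Ker
variable {V : Type} [Fintype V] [DecidableEq V] (K : Ker V)

theorem CW_add (D : Finset V) (r0 a b : ℕ) (u1 u2 v1 v2 : V)
    (Ψ Ψ' : List V → List V → List V → List V → List V → List V → ℝ) :
    K.CW D r0 a b u1 u2 v1 v2 (fun w0 q1 q2 f1 f2 w' => Ψ w0 q1 q2 f1 f2 w' + Ψ' w0 q1 q2 f1 f2 w')
      = K.CW D r0 a b u1 u2 v1 v2 Ψ + K.CW D r0 a b u1 u2 v1 v2 Ψ' := by
  unfold CW
  rw [← Finset.sum_add_distrib]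
  refine Finset.sum_congr rfl fun s _ => ?_
  rw [← EW_add]
  refine EW_congr K _ _ _ _ fun w0 _ => ?_
  rw [← EW_add]
  refine EW_congr K _ _ _ _ fun q1 _ => ?_
  rw [← EW_add]
  refine EW_congr K _ _ _ _ fun q2 _ => ?_
  rw [← EW_add]
  refine EW_congr K _ _ _ _ fun f1 _ => ?_
  rw [← EW_add]
  refine EW_congr K _ _ _ _ fun f2 _ => ?_
  rw [← EW_add]
  refine EW_congr K _ _ _ _ fun w' _ => ?_
  split_ifs
  · ring
  · ring

theorem CW_mul (D : Finset V) (r0 a b : ℕ) (u1 u2 v1 v2 : V) (c : ℝ)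
    (Ψ : List V → List V → List V → List V → List V → List V → ℝ) :
    K.CW D r0 a b u1 u2 v1 v2 (fun w0 q1 q2 f1 f2 w' => c * Ψ w0 q1 q2 f1 f2 w')
      = c * K.CW D r0 a b u1 u2 v1 v2 Ψ := by
  unfold CW
  rw [Finset.mul_sum]
  refine Finset.sum_congr rfl fun s _ => ?_
  rw [← EW_mul_left]
  refine EW_congr K _ _ _ _ fun w0 _ => ?_
  rw [← EW_mul_left]
  refine EW_congr K _ _ _ _ fun q1 _ => ?_
  rw [← EW_mul_left]
  refine EW_congr K _ _ _ _ fun q2 _ => ?_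
  rw [← EW_mul_left]
  refine EW_congr K _ _ _ _ fun f1 _ => ?_
  rw [← EW_mul_left]
  refine EW_congr K _ _ _ _ fun f2 _ => ?_
  rw [← EW_mul_left]
  refine EW_congr K _ _ _ _ fun w' _ => ?_
  split_ifs
  · ring
  · ring

theorem CW_mono (D : Finset V) (r0 a b : ℕ) (u1 u2 v1 v2 : V)
    (Ψ Ψ' : List V → List V → List V → List V → List V → List V → ℝ)
    (h : ∀ (s : V) (w0 q1 q2 f1 f2 w' : List V), w0.length = r0 → tip (tip s w0) q1 = u1 →
      tip (tip s w0) q2 = u2 → tip v1 f1 = tip v2 f2 → GoodC D w0 q1 q2 f1 f2 w' →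
      Ψ w0 q1 q2 f1 f2 w' ≤ Ψ' w0 q1 q2 f1 f2 w') :
    K.CW D r0 a b u1 u2 v1 v2 Ψ ≤ K.CW D r0 a b u1 u2 v1 v2 Ψ' := by
  unfold CW
  refine Finset.sum_le_sum fun s _ => ?_
  refine EW_mono K _ _ _ _ fun w0 hw0 => ?_
  refine EW_mono K _ _ _ _ fun q1 _ => ?_
  refine EW_mono K _ _ _ _ fun q2 _ => ?_
  refine EW_mono K _ _ _ _ fun f1 _ => ?_
  refine EW_mono K _ _ _ _ fun f2 _ => ?_
  refine EW_mono K _ _ _ _ fun w' _ => ?_
  split_ifs with hc
  · exact mul_le_mul_of_nonneg_left (h s w0 q1 q2 f1 f2 w' hw0 hc.1 hc.2.1 hc.2.2.1 hc.2.2.2)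
      (by positivity)
  · exact le_rfl

end Ker

/-- four unit vectors and a common centre -/
theorem four_sq (z11 z12 z21 z22 c : ℂ) (η : ℝ) (hη : 0 ≤ η) (h11 : ‖z11‖ = 1) (h21 : ‖z21‖ = 1)
    (h : η ≤ ‖z11 * z22 - z12 * z21‖) :
    η ^ 2 ≤ 4 * (‖z11 - c‖ ^ 2 + ‖z12 - c‖ ^ 2 + ‖z21 - c‖ ^ 2 + ‖z22 - c‖ ^ 2) := by
  have e : z11 * z22 - z12 * z21
      = z11 * ((z22 - c) - (z21 - c)) + z21 * ((z11 - c) - (z12 - c)) := by ring
  have h1 : ‖z11 * z22 - z12 * z21‖ ≤ (‖z22 - c‖ + ‖z21 - c‖) + (‖z11 - c‖ + ‖z12 - c‖) := by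
    rw [e]
    refine (norm_add_le _ _).trans ?_
    rw [norm_mul, norm_mul, h11, h21, one_mul, one_mul]
    exact add_le_add (norm_sub_le _ _) (norm_sub_le _ _)
  have h2 : η ≤ (‖z22 - c‖ + ‖z21 - c‖) + (‖z11 - c‖ + ‖z12 - c‖) := h.trans h1
  have h3 : η ^ 2 ≤ ((‖z22 - c‖ + ‖z21 - c‖) + (‖z11 - c‖ + ‖z12 - c‖)) ^ 2 :=
    pow_le_pow_left₀ hη h2 2
  nlinarith [sq_nonneg (‖z22 - c‖ - ‖z21 - c‖), sq_nonneg (‖z22 - c‖ - ‖z11 - c‖),
    sq_nonneg (‖z22 - c‖ - ‖z12 - c‖), sq_nonneg (‖z21 - c‖ - ‖z11 - c‖),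
    sq_nonneg (‖z21 - c‖ - ‖z12 - c‖), sq_nonneg (‖z11 - c‖ - ‖z12 - c‖)]

/-- a shifted sum over an interval is at most the full sum -/
theorem shift_sum_le (r N s : ℕ) (F : ℕ → ℝ) (hF : ∀ R, 0 ≤ F R) (h : N + s ≤ r) :
    ∑ i ∈ range N, F (i + s) ≤ ∑ R ∈ range r, F R := by
  have h1 : ∑ i ∈ range N, F (i + s) = ∑ R ∈ Finset.Ico s (s + N), F R := by
    rw [Finset.sum_Ico_eq_sum_range]
    have : s + N - s = N := by omega
    rw [this]
    exact Finset.sum_congr rfl fun i _ => by rw [add_comm]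
  rw [h1]
  refine Finset.sum_le_sum_of_subset_of_nonneg ?_ fun i _ _ => hF i
  intro x hx
  rw [Finset.mem_Ico] at hx
  rw [Finset.mem_range]
  omega

theorem tip_map_ne {V : Type} (g : V → V) (o : V) (w : List V) (hw : w ≠ []) :
    tip o (w.map g) = g (tip o w) := by
  cases w with
  | nil => exact absurd rfl hw
  | cons a l => rfl

theorem tip_map {V : Type} (g : V → V) (o : V) (w : List V) :
    tip (g o) (w.map g) = g (tip o w) := by
  cases w with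
  | nil => rfl
  | cons a l => rfl

theorem tip_conn {V : Type} (x v : V) (f c q : List V) :
    tip x (f ++ (v :: c) ++ q) = tip v f := by
  rw [tip_append, tip_append, tip_cons]

-- TARGET
namespace Ker
variable {V : Type} [Fintype V] [DecidableEq V] (K : Ker V)

theorem rig (o : V) (D : Finset V) (r r0 k m0 m : ℕ) (θ ρ p η : ℝ) (u1 u2 v1 v2 : V)
    (hu1 : u1 ∈ D) (hu2 : u2 ∈ D) (hv1 : v1 ∈ D) (hv2 : v2 ∈ D)
    (hup : ∀ t x y, m0 ≤ t → K.hk t x y ≤ 3 / (2 * (Fintype.card V : ℝ)))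
    (hlow : ∀ t x y, m0 ≤ t → 1 / (2 * (Fintype.card V : ℝ)) ≤ K.hk t x y)
    (hk : m0 ≤ k) (hk1 : 1 ≤ k) (hkr : 8 * (k + m0 + m + 1) ≤ r)
    (hr0 : 1 ≤ r0) (hr0r : r0 ≤ r) (hD : D.card ≤ r) (hρ : 0 < ρ)
    (hcf : ρ ≤ K.cfk k D u1 u2 v1 v2) (hfar : (10 : ℝ) ^ 4 * r ^ 2 ≤ ρ * Fintype.card V)
    (hp : 0 < p) (hp1 : p ≤ 1) (hη : 0 ≤ η)
    (c11 c12 c21 c22 : List V) (h11 : K.Conn D p m u1 v1 c11) (h12 : K.Conn D p m u1 v2 c12)
    (h21 : K.Conn D p m u2 v1 c21) (h22 : K.Conn D p m u2 v2 c22)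
    (hne : η ≤ ‖Complex.exp (((((c11.length : ℝ) + c22.length - c12.length - c21.length)) * θ : ℝ)
      * Complex.I) - 1‖) :
    K.EW r0 o (fun ω0 => K.EW r0 o (fun ω' => ‖K.kap o r θ ω0 ω'‖))
      ≤ 1 - η ^ 2 * ρ * p ^ (m + 1) / 10 ^ 4 := by
  obtain ⟨ψ, hψ, hle⟩ := K.kap_psi o r r0 (by omega) hr0 θ
  have hn : (0 : ℝ) < Fintype.card V := by
    exact_mod_cast Fintype.card_pos_iff.2 ⟨o⟩
  have hr8 : 8 ≤ r := by omega
  have hrR : (0 : ℝ) < r := by exact_mod_cast (by omega : 0 < r)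
  -- the functional
  set Φ : List V → List V → List V → ℝ := fun ω0 ω1 ω' =>
    ‖Complex.exp ((((len (ω' ++ ω1 ++ ω0) : ℝ)) * θ : ℝ) * Complex.I)
      - ψ ω0 (tip (tip o ω0) ω1) ω'‖ ^ 2 with hΦdef
  have hΦ0 : ∀ ω0 ω1 ω', 0 ≤ Φ ω0 ω1 ω' := fun ω0 ω1 ω' => by
    simp only [hΦdef]; positivity
  have hΦi : ∀ g : Equiv.Perm V, (∀ a b, K.P (g a) (g b) = K.P a b) → ∀ ω0 ω1 ω' : List V,
      ω0 ≠ [] → Φ (ω0.map g) (ω1.map g) (ω'.map g) = Φ ω0 ω1 ω' := by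
    intro g hg ω0 ω1 ω' h0
    simp only [hΦdef]
    rw [tip_map_ne g o ω0 h0, tip_map, hψ g hg ω0 _ ω' h0, ← List.map_append, ← List.map_append,
      len_map g g.injective]
  set PR : ℕ → ℝ := fun R => K.EW r0 o (fun ω0 => K.EW (r + R) (tip o ω0) (fun ω1 =>
    K.EW r0 (tip (tip o ω0) ω1) (fun ω' => Φ ω0 ω1 ω'))) with hPR
  have hPR0 : ∀ R, 0 ≤ PR R := by
    intro R
    simp only [hPR]
    exact EW_nonneg K _ _ _ fun _ _ => EW_nonneg K _ _ _ fun _ _ => EW_nonneg K _ _ _ fun _ _ =>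
      hΦ0 _ _ _
  have hle' : K.EW r0 o (fun ω0 => K.EW r0 o (fun ω' => ‖K.kap o r θ ω0 ω'‖))
      ≤ 1 - 1 / 2 * ((1 / (r : ℝ)) * ∑ R ∈ range r, PR R) := hle
  set S : ℝ := ∑ R ∈ range r, PR R with hS
  set q : ℝ := p ^ (m + 1) with hq
  have hq0 : 0 < q := pow_pos hp _
  -- the key inequality for one value of a
  have key : ∀ i : ℕ, i < r / 2 → η ^ 2 * (ρ / 5) * q
      ≤ 9 * (PR (i + (r / 4 + c11.length + 1)) + PR (i + (r / 4 + c12.length + 1))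
        + PR (i + (r / 4 + c21.length + 1)) + PR (i + (r / 4 + c22.length + 1))) := by
    intro i hi
    have hlowC := K.cw_low D r r0 (r + i) (r / 4) k m0 u1 u2 v1 v2 hu1 hu2 hv1 hv2 hup hlow hk hk1
      (by omega) (by omega) (by omega) (by omega) hr0 hr0r hD
    obtain ⟨g11, g12, g21, g22⟩ := K.cw_up o D r0 (r + i) (r / 4) m m0 p u1 u2 v1 v2 hp hup
      (by omega) (by omega) hr0 Φ hΦ0 hΦi c11 c12 c21 c22 h11 h12 h21 h22
    have tr : ∀ c : List V, r + i + r / 4 + c.length + 1 = r + (i + (r / 4 + c.length + 1)) :=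
      fun c => by omega
    rw [tr] at g11 g12 g21 g22
    set W1 := K.CW D r0 (r + i) (r / 4) u1 u2 v1 v2 (fun _ _ _ _ _ _ => 1) with hW1
    set W11 := K.CW D r0 (r + i) (r / 4) u1 u2 v1 v2 (fun w0 q1 q2 f1 f2 w' =>
        Φ w0 (f1 ++ (v1 :: c11) ++ q1) w') with hW11
    set W12 := K.CW D r0 (r + i) (r / 4) u1 u2 v1 v2 (fun w0 q1 q2 f1 f2 w' =>
        Φ w0 (f2 ++ (v2 :: c12) ++ q1) w') with hW12
    set W21 := K.CW D r0 (r + i) (r / 4) u1 u2 v1 v2 (fun w0 q1 q2 f1 f2 w' =>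
        Φ w0 (f1 ++ (v1 :: c21) ++ q2) w') with hW21
    set W22 := K.CW D r0 (r + i) (r / 4) u1 u2 v1 v2 (fun w0 q1 q2 f1 f2 w' =>
        Φ w0 (f2 ++ (v2 :: c22) ++ q2) w') with hW22
    have hWle : η ^ 2 * W1 ≤ 4 * (W11 + W12 + W21 + W22) := by
      have e1 : η ^ 2 * W1 = K.CW D r0 (r + i) (r / 4) u1 u2 v1 v2
          (fun _ _ _ _ _ _ => η ^ 2 * 1) := by
        rw [hW1]
        exact (K.CW_mul D r0 (r + i) (r / 4) u1 u2 v1 v2 (η ^ 2) (fun _ _ _ _ _ _ => 1)).symm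
      have e2 : 4 * (W11 + W12 + W21 + W22) = K.CW D r0 (r + i) (r / 4) u1 u2 v1 v2
          (fun w0 q1 q2 f1 f2 w' => 4 * (Φ w0 (f1 ++ (v1 :: c11) ++ q1) w'
            + Φ w0 (f2 ++ (v2 :: c12) ++ q1) w' + Φ w0 (f1 ++ (v1 :: c21) ++ q2) w'
            + Φ w0 (f2 ++ (v2 :: c22) ++ q2) w')) := by
        rw [K.CW_mul D r0 (r + i) (r / 4) u1 u2 v1 v2 4 (fun w0 q1 q2 f1 f2 w' =>
            Φ w0 (f1 ++ (v1 :: c11) ++ q1) w'
            + Φ w0 (f2 ++ (v2 :: c12) ++ q1) w' + Φ w0 (f1 ++ (v1 :: c21) ++ q2) w'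
            + Φ w0 (f2 ++ (v2 :: c22) ++ q2) w'),
          K.CW_add D r0 (r + i) (r / 4) u1 u2 v1 v2 (fun w0 q1 q2 f1 f2 w' =>
            Φ w0 (f1 ++ (v1 :: c11) ++ q1) w'
            + Φ w0 (f2 ++ (v2 :: c12) ++ q1) w' + Φ w0 (f1 ++ (v1 :: c21) ++ q2) w')
            (fun w0 q1 q2 f1 f2 w' => Φ w0 (f2 ++ (v2 :: c22) ++ q2) w'),
          K.CW_add D r0 (r + i) (r / 4) u1 u2 v1 v2 (fun w0 q1 q2 f1 f2 w' =>
            Φ w0 (f1 ++ (v1 :: c11) ++ q1) w'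
            + Φ w0 (f2 ++ (v2 :: c12) ++ q1) w')
            (fun w0 q1 q2 f1 f2 w' => Φ w0 (f1 ++ (v1 :: c21) ++ q2) w'),
          K.CW_add D r0 (r + i) (r / 4) u1 u2 v1 v2 (fun w0 q1 q2 f1 f2 w' =>
            Φ w0 (f1 ++ (v1 :: c11) ++ q1) w')
            (fun w0 q1 q2 f1 f2 w' => Φ w0 (f2 ++ (v2 :: c12) ++ q1) w')]
      rw [e1, e2]
      refine K.CW_mono D r0 (r + i) (r / 4) u1 u2 v1 v2 _ _ ?_
      intro s w0 q1 q2 f1 f2 w' hw0 t1 t2 t3 hG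
      obtain ⟨G1, G2, G3, G4, G5, G6, G7, G8⟩ := hG
      have hw0' : w0 ≠ [] := by
        intro h
        rw [h] at hw0
        simp at hw0
        omega
      have L11 := len_conn K D p m u1 v1 c11 h11 s w0 q1 f1 w' hw0' t1 G1 G3 G5
      have L12 := len_conn K D p m u1 v2 c12 h12 s w0 q1 f2 w' hw0' t1 G1 G4 G7
      have L21 := len_conn K D p m u2 v1 c21 h21 s w0 q2 f1 w' hw0' t2 G2 G3 G6
      have L22 := len_conn K D p m u2 v2 c22 h22 s w0 q2 f2 w' hw0' t2 G2 G4 G8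
      simp only [hΦdef]
      rw [L11, L12, L21, L22, tip_conn, tip_conn, tip_conn, tip_conn, ← t3, mul_one]
      refine four_sq _ _ _ _ _ η hη ?_ ?_ ?_
      · exact Complex.norm_exp_ofReal_mul_I _
      · exact Complex.norm_exp_ofReal_mul_I _
      · refine hne.trans ?_
        rw [← Complex.exp_add, ← Complex.exp_add]
        set A : ℝ := (((len (w' ++ f2) + (c12.length + 1) + len (q1 ++ w0) : ℕ) : ℝ)) * θ with hA
        set B : ℝ := (((len (w' ++ f1) + (c21.length + 1) + len (q2 ++ w0) : ℕ) : ℝ)) * θ with hB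
        have e3 : ((((len (w' ++ f1) + (c11.length + 1) + len (q1 ++ w0) : ℕ) : ℝ) * θ : ℝ) : ℂ)
              * Complex.I
            + ((((len (w' ++ f2) + (c22.length + 1) + len (q2 ++ w0) : ℕ) : ℝ) * θ : ℝ) : ℂ)
              * Complex.I
            = ((((c11.length : ℝ) + c22.length - c12.length - c21.length) * θ : ℝ) : ℂ) * Complex.I
              + ((A : ℂ) * Complex.I + (B : ℂ) * Complex.I) := by
          rw [hA, hB]
          push_cast
          ring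
        rw [e3, Complex.exp_add]
        have e4 : ∀ X Y : ℂ, X * Y - Y = (X - 1) * Y := fun X Y => by ring
        rw [e4, norm_mul]
        have e5 : ‖Complex.exp ((A : ℂ) * Complex.I + (B : ℂ) * Complex.I)‖ = 1 := by
          rw [Complex.exp_add, norm_mul, Complex.norm_exp_ofReal_mul_I,
            Complex.norm_exp_ofReal_mul_I, one_mul]
        rw [e5, mul_one]
    have hW1low : ρ / 5 ≤ W1 := by
      have h1 : 120 * (r : ℝ) ^ 2 / Fintype.card V ≤ ρ * (120 / 10 ^ 4) := by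
        rw [div_le_iff₀ hn]
        nlinarith [hfar]
      have h2 : ρ / 4 ≤ K.cfk k D u1 u2 v1 v2 / 4 := by linarith
      linarith [hlowC]
    -- powers of p
    have hpc : ∀ (c : List V) (W P' : ℝ), c.length ≤ m → 0 ≤ P' →
        p ^ (c.length + 1) * W ≤ 9 / 4 * P' → q * W ≤ 9 / 4 * P' := by
      intro c W P' hc hP' h
      have h1 : q = p ^ (m - c.length) * p ^ (c.length + 1) := by
        rw [hq, ← pow_add]
        congr 1
        omega
      rw [h1, mul_assoc]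
      calc p ^ (m - c.length) * (p ^ (c.length + 1) * W)
          ≤ p ^ (m - c.length) * (9 / 4 * P') :=
            mul_le_mul_of_nonneg_left h (pow_nonneg hp.le _)
        _ ≤ 1 * (9 / 4 * P') :=
            mul_le_mul_of_nonneg_right (pow_le_one₀ hp.le hp1) (by positivity)
        _ = 9 / 4 * P' := one_mul _
    have G11 := hpc c11 W11 _ h11.len_le (hPR0 (i + (r / 4 + c11.length + 1))) g11
    have G12 := hpc c12 W12 _ h12.len_le (hPR0 (i + (r / 4 + c12.length + 1))) g12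
    have G21 := hpc c21 W21 _ h21.len_le (hPR0 (i + (r / 4 + c21.length + 1))) g21
    have G22 := hpc c22 W22 _ h22.len_le (hPR0 (i + (r / 4 + c22.length + 1))) g22
    calc η ^ 2 * (ρ / 5) * q ≤ η ^ 2 * W1 * q := by
          refine mul_le_mul_of_nonneg_right ?_ hq0.le
          exact mul_le_mul_of_nonneg_left hW1low (sq_nonneg _)
      _ ≤ 4 * (W11 + W12 + W21 + W22) * q := mul_le_mul_of_nonneg_right hWle hq0.le
      _ = 4 * (q * W11 + q * W12 + q * W21 + q * W22) := by ring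
      _ ≤ _ := by linarith
  -- sum over a
  have hsum : ((r / 2 : ℕ) : ℝ) * (η ^ 2 * (ρ / 5) * q) ≤ 36 * S := by
    have h1 : ∑ i ∈ range (r / 2), (η ^ 2 * (ρ / 5) * q)
        ≤ ∑ i ∈ range (r / 2), 9 * (PR (i + (r / 4 + c11.length + 1))
          + PR (i + (r / 4 + c12.length + 1))
          + PR (i + (r / 4 + c21.length + 1)) + PR (i + (r / 4 + c22.length + 1))) :=
      Finset.sum_le_sum fun i hi => key i (Finset.mem_range.1 hi)
    rw [Finset.sum_const, Finset.card_range, nsmul_eq_mul, ← Finset.mul_sum,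
      Finset.sum_add_distrib, Finset.sum_add_distrib, Finset.sum_add_distrib] at h1
    have hs : ∀ c : List V, c.length ≤ m →
        ∑ i ∈ range (r / 2), PR (i + (r / 4 + c.length + 1)) ≤ S := by
      intro c hc
      rw [hS]
      exact shift_sum_le r (r / 2) (r / 4 + c.length + 1) PR hPR0 (by omega)
    have s1 := hs c11 h11.len_le
    have s2 := hs c12 h12.len_le
    have s3 := hs c21 h21.len_le
    have s4 := hs c22 h22.len_le
    linarith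
  have hhalf : (r : ℝ) / 3 ≤ ((r / 2 : ℕ) : ℝ) := by
    have h1 : r ≤ 2 * (r / 2) + 1 := by omega
    have h2 : (r : ℝ) ≤ 2 * ((r / 2 : ℕ) : ℝ) + 1 := by exact_mod_cast h1
    have h3 : (8 : ℝ) ≤ r := by exact_mod_cast hr8
    linarith
  have hnn : 0 ≤ η ^ 2 * (ρ / 5) * q := by positivity
  have hfin : (r : ℝ) / 3 * (η ^ 2 * (ρ / 5) * q) ≤ 36 * S :=
    (mul_le_mul_of_nonneg_right hhalf hnn).trans hsum
  have hS2 : η ^ 2 * ρ * q / 540 ≤ 1 / (r : ℝ) * S := by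
    rw [one_div, inv_mul_eq_div, le_div_iff₀ hrR]
    nlinarith
  have hpos : 0 ≤ η ^ 2 * ρ * q := by positivity
  refine hle'.trans ?_
  have : η ^ 2 * ρ * q / 10 ^ 4 ≤ 1 / 2 * (1 / (r : ℝ) * S) := by
    have h1 : η ^ 2 * ρ * q / 10 ^ 4 ≤ η ^ 2 * ρ * q / 540 * (1 / 2) := by
      nlinarith
    linarith
  linarith

end Ker

end HP192
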