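import Mathlib
import Pool.Agent.Helper192_HP.TDefs
import Pool.Agent.Helper192_HP.T01
import Pool.Agent.Helper192_HP.T02

namespace HP192
open Finset

variable {V : Type} [Fintype V] [DecidableEq V]

-- ss done (hU not needed)

namespace SSAux

theorem mem_For {G : SimpleGraph V} {D : Finset V} {f : V → V} : f ∈ For G D ↔
    (∀ v, v ∉ D → f v = v) ∧ (∀ v ∈ D, G.Adj v (f v)) ∧ ∀ v, ∃ k, f^[k] v ∉ D := by
  unfold For
  simp

theorem iter_eq {D : Finset V} {f g : V → V} (h : ∀ v ∈ D, g v = f v) (v : V) (m : ℕ)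
    (hm : ∀ i < m, f^[i] v ∈ D) : ∀ i ≤ m, g^[i] v = f^[i] v := by
  intro i
  induction i with
  | zero => intro _; rfl
  | succ i ih =>
    intro hi
    rw [Function.iterate_succ_apply', Function.iterate_succ_apply', ih (by omega),
      h _ (hm i (by omega))]

theorem cnt_congr {D : Finset V} {f g : V → V} (h : ∀ v ∈ D, g v = f v) (u : V) (m : ℕ) :
    cnt D u m g = cnt D u m f := by
  unfold cnt
  congr 1
  ext v
  simp only [mem_filter, mem_univ, true_and]
  constructor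
  · rintro ⟨h1, h2⟩
    have h3 := iter_eq (fun v hv => (h v hv).symm) v m h2
    exact ⟨(h3 m le_rfl).trans h1, fun i hi => by rw [h3 i hi.le]; exact h2 i hi⟩
  · rintro ⟨h1, h2⟩
    have h3 := iter_eq h v m h2
    exact ⟨(h3 m le_rfl).trans h1, fun i hi => by rw [h3 i hi.le]; exact h2 i hi⟩

/-- if `f` leaves `D` and `g` agrees with `f` on `D` then `g` reaches the same point -/
theorem reach {D : Finset V} {f g : V → V} (h : ∀ v ∈ D, g v = f v) (v : V)
    (hf : ∃ k, f^[k] v ∉ D) : ∃ k, g^[k] v ∉ D ∧ g^[k] v = f^[k] v := by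
  classical
  have h1 := Nat.find_spec hf
  have h2 : ∀ i < Nat.find hf, f^[i] v ∈ D := fun i hi => not_not.1 (Nat.find_min hf hi)
  have h3 := iter_eq h v _ h2 _ le_rfl
  exact ⟨Nat.find hf, by rw [h3]; exact h1, h3⟩

/-- gluing -/
def glue (S : Finset V) (f φ : V → V) : V → V := fun v => if v ∈ S then f v else φ v

/-- freezing -/
def res (S : Finset V) (f : V → V) : V → V := fun v => if v ∈ S then v else f v

theorem glue_mem {S : Finset V} {f φ : V → V} {v : V} (h : v ∈ S) : glue S f φ v = f v := if_pos h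

theorem glue_notMem {S : Finset V} {f φ : V → V} {v : V} (h : v ∉ S) : glue S f φ v = φ v :=
  if_neg h

theorem res_mem {S : Finset V} {f : V → V} {v : V} (h : v ∈ S) : res S f v = v := if_pos h

theorem res_notMem {S : Finset V} {f : V → V} {v : V} (h : v ∉ S) : res S f v = f v := if_neg h

theorem root_skl (G : SimpleGraph V) (o : V) {W : Finset V} (hW : W.Nonempty) {f : V → V}
    (hf : f ∈ For G (univ.erase o)) : o ∈ skl f W := by
  obtain ⟨w, hw⟩ := hW
  exact mem_biUnion.2 ⟨w, hw, root_mem_pth G o f hf w⟩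

theorem skl_closed (G : SimpleGraph V) (o : V) {W : Finset V} {f : V → V}
    (hf : f ∈ For G (univ.erase o)) {v : V} (hv : v ∈ skl f W) : f v ∈ skl f W := by
  obtain ⟨w, hw, hv⟩ := mem_biUnion.1 hv
  exact mem_biUnion.2 ⟨w, hw, pth_closed G o f hf w v hv⟩

theorem glue_For (G : SimpleGraph V) (o : V) {W : Finset V} (hW : W.Nonempty) {f φ : V → V}
    (hf : f ∈ For G (univ.erase o)) (hφ : φ ∈ For G (skl f W)ᶜ) :
    glue (skl f W) f φ ∈ For G (univ.erase o) := by
  have ho := root_skl G o hW hf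
  have hf' := mem_For.1 hf
  have hφ' := mem_For.1 hφ
  rw [mem_For]
  refine ⟨?_, ?_, ?_⟩
  · intro v hv
    have hvo : v = o := by
      by_contra h
      exact hv (mem_erase.2 ⟨h, mem_univ v⟩)
    rw [hvo, glue_mem ho]
    exact hf'.1 o (by simp)
  · intro v hv
    by_cases h : v ∈ skl f W
    · rw [glue_mem h]
      exact hf'.2.1 v hv
    · rw [glue_notMem h]
      exact hφ'.2.1 v (mem_compl.2 h)
  · intro v
    obtain ⟨k, hk, -⟩ := reach (D := (skl f W)ᶜ) (f := φ) (g := glue (skl f W) f φ)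
      (fun v hv => glue_notMem (mem_compl.1 hv)) v (hφ'.2.2 v)
    have hs : (glue (skl f W) f φ)^[k] v ∈ skl f W := by
      by_contra h
      exact hk (mem_compl.2 h)
    set s := (glue (skl f W) f φ)^[k] v with hsdef
    have hmem : ∀ j, f^[j] s ∈ skl f W := by
      intro j
      induction j with
      | zero => exact hs
      | succ j ih =>
        rw [Function.iterate_succ_apply']
        exact skl_closed G o hf ih
    have hj : ∀ j, (glue (skl f W) f φ)^[j] s = f^[j] s := fun j =>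
      iter_eq (D := skl f W) (fun v hv => glue_mem hv) s j (fun i _ => hmem i) j le_rfl
    refine ⟨ht o f s + k, ?_⟩
    rw [Function.iterate_add_apply, ← hsdef, hj, iter_ht G o f hf]
    simp

theorem glue_skl (G : SimpleGraph V) (o : V) {W : Finset V} {f φ : V → V}
    (hf : f ∈ For G (univ.erase o)) (hg : glue (skl f W) f φ ∈ For G (univ.erase o)) :
    skl (glue (skl f W) f φ) W = skl f W := by
  unfold skl
  refine biUnion_congr rfl fun w hw => ?_
  refine (local_pth G o f _ hf hg w fun y hy => ?_).1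
  exact glue_mem (mem_biUnion.2 ⟨w, hw, hy⟩)

theorem res_For (G : SimpleGraph V) (o : V) {W : Finset V} (hW : W.Nonempty) {f : V → V}
    (hf : f ∈ For G (univ.erase o)) : res (skl f W) f ∈ For G (skl f W)ᶜ := by
  have ho := root_skl G o hW hf
  have hf' := mem_For.1 hf
  rw [mem_For]
  refine ⟨?_, ?_, ?_⟩
  · intro v hv
    rw [mem_compl, not_not] at hv
    exact res_mem hv
  · intro v hv
    rw [mem_compl] at hv
    rw [res_notMem hv]
    refine hf'.2.1 v (mem_erase.2 ⟨?_, mem_univ v⟩)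
    rintro rfl
    exact hv ho
  · intro v
    obtain ⟨k, hk, -⟩ := reach (D := (skl f W)ᶜ) (f := f) (g := res (skl f W) f)
      (fun v hv => res_notMem (mem_compl.1 hv)) v
      ⟨ht o f v, by rw [iter_ht G o f hf, mem_compl, not_not]; exact ho⟩
    exact ⟨k, hk⟩

theorem glue_glue (G : SimpleGraph V) (o : V) {W : Finset V} {f φ : V → V}
    (hS : skl (glue (skl f W) f φ) W = skl f W) :
    glue (skl (glue (skl f W) f φ) W) (glue (skl f W) f φ) (res (skl f W) f) = f := by
  rw [hS]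
  funext v
  by_cases h : v ∈ skl f W
  · rw [glue_mem h, glue_mem h]
  · rw [glue_notMem h, res_notMem h]

theorem res_glue (G : SimpleGraph V) {W : Finset V} {f φ : V → V} (hφ : φ ∈ For G (skl f W)ᶜ)
    (hS : skl (glue (skl f W) f φ) W = skl f W) :
    res (skl (glue (skl f W) f φ) W) (glue (skl f W) f φ) = φ := by
  rw [hS]
  funext v
  by_cases h : v ∈ skl f W
  · rw [res_mem h]
    exact ((mem_For.1 hφ).1 v (by rw [mem_compl, not_not]; exact h)).symm
  · rw [res_notMem h, glue_notMem h]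

end SSAux

open SSAux in
/-- TARGET -/
theorem ss (G : SimpleGraph V) (hG : G.Connected) (o : V) (W : Finset V) (hW : W.Nonempty)
    (Ψ : (V → V) → ℝ) (U : (V → V) → V) (m : (V → V) → ℕ)
    (hΨ : ∀ f ∈ For G (univ.erase o), ∀ f' ∈ For G (univ.erase o),
      (∀ v ∈ skl f W, f' v = f v) → Ψ f' = Ψ f ∧ U f' = U f ∧ m f' = m f)
    (hU : ∀ f ∈ For G (univ.erase o), Ψ f ≠ 0 → U f ∈ skl f W) :
    avF G (univ.erase o) (fun f => Ψ f * (cnt (skl f W)ᶜ (U f) (m f) f : ℝ))
      = avF G (univ.erase o) (fun f => Ψ f * Am G (skl f W)ᶜ (U f) (m f)) := by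
  classical
  unfold avF
  congr 1
  set TT := For G (univ.erase o) with hTT
  -- the index set of pairs
  set P : Finset (Σ _ : V → V, V → V) := TT.sigma (fun f => For G (skl f W)ᶜ) with hP
  have hcard : ∀ f ∈ TT, ((For G (skl f W)ᶜ).card : ℝ) ≠ 0 := by
    intro f hf
    have : 0 < (For G (skl f W)ᶜ).card := card_pos.2 ⟨_, res_For G o hW hf⟩
    exact_mod_cast this.ne'
  have hL : ∑ f ∈ TT, Ψ f * (cnt (skl f W)ᶜ (U f) (m f) f : ℝ) =
      ∑ p ∈ P, Ψ p.1 * (cnt (skl p.1 W)ᶜ (U p.1) (m p.1) p.1 : ℝ) /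
        ((For G (skl p.1 W)ᶜ).card : ℝ) := by
    rw [hP, sum_sigma]
    refine sum_congr rfl fun f hf => ?_
    simp only
    rw [sum_const, nsmul_eq_mul, mul_div_cancel₀ _ (hcard f hf)]
  have hR : ∑ f ∈ TT, Ψ f * Am G (skl f W)ᶜ (U f) (m f) =
      ∑ p ∈ P, Ψ p.1 * (cnt (skl p.1 W)ᶜ (U p.1) (m p.1) p.2 : ℝ) /
        ((For G (skl p.1 W)ᶜ).card : ℝ) := by
    rw [hP, sum_sigma]
    refine sum_congr rfl fun f hf => ?_
    simp only [Am, avF]
    rw [← sum_div, ← mul_sum, mul_div_assoc]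
  rw [hL, hR]
  -- the involution
  have key : ∀ p ∈ P, glue (skl p.1 W) p.1 p.2 ∈ TT ∧
      skl (glue (skl p.1 W) p.1 p.2) W = skl p.1 W ∧ res (skl p.1 W) p.1 ∈ For G (skl p.1 W)ᶜ := by
    intro p hp
    rw [hP, mem_sigma] at hp
    have h1 := glue_For G o hW hp.1 hp.2
    exact ⟨h1, glue_skl G o hp.1 h1, res_For G o hW hp.1⟩
  have hinv : ∀ p ∈ P, (⟨glue (skl p.1 W) p.1 p.2, res (skl p.1 W) p.1⟩ : Σ _ : V → V, V → V) ∈ P := by
    intro p hp
    obtain ⟨h1, h2, h3⟩ := key p hp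
    rw [hP, mem_sigma]
    refine ⟨h1, ?_⟩
    simp only
    rw [h2]
    exact h3
  have hii : ∀ p ∈ P, (⟨glue (skl (glue (skl p.1 W) p.1 p.2) W) (glue (skl p.1 W) p.1 p.2)
      (res (skl p.1 W) p.1), res (skl (glue (skl p.1 W) p.1 p.2) W) (glue (skl p.1 W) p.1 p.2)⟩ :
      Σ _ : V → V, V → V) = p := by
    intro p hp
    obtain ⟨h1, h2, h3⟩ := key p hp
    rw [hP, mem_sigma] at hp
    rw [glue_glue G o h2, res_glue G hp.2 h2]
  refine sum_bij' (fun p _ => ⟨glue (skl p.1 W) p.1 p.2, res (skl p.1 W) p.1⟩)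
    (fun p _ => ⟨glue (skl p.1 W) p.1 p.2, res (skl p.1 W) p.1⟩) hinv hinv hii hii ?_
  intro p hp
  obtain ⟨h1, h2, h3⟩ := key p hp
  have hp' := hp
  rw [hP, mem_sigma] at hp'
  obtain ⟨e1, e2, e3⟩ := hΨ p.1 hp'.1 _ h1 (fun v hv => glue_mem hv)
  simp only
  rw [h2, e1, e2, e3]
  congr 3
  exact cnt_congr (fun v hv => (res_notMem (mem_compl.1 hv)).symm) _ _

end HP192
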