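import Mathlib
import Pool.Agent.Helper192_HP.TDefs
import Pool.Agent.Helper192_HP.T01
import Pool.Agent.Helper192_HP.T02

namespace HP192
open Finset

variable {V : Type} [Fintype V] [DecidableEq V]

/-- TARGET -/
theorem decomp (G : SimpleGraph V) (o : V) (f : V → V) (hf : f ∈ For G (univ.erase o)) (x : V)
    (g : ℕ → ℝ) :
    ∑ y, g (ht o f y) = ∑ i ∈ range (ht o f x + 1), ∑ j ∈ range (Fintype.card V),
      g (i + j) * (cnt (pth f x)ᶜ (anc o f x i) j f : ℝ) := by
  classical
  have hroot := root_mem_pth G o f hf x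
  have key : ∀ y, g (ht o f y) = ∑ i ∈ range (ht o f x + 1), ∑ j ∈ range (Fintype.card V),
      (if (f^[j] y = anc o f x i ∧ ∀ i' < j, f^[i'] y ∈ (pth f x)ᶜ) then g (i + j) else 0) := by
    intro y
    have hex : ∃ j, f^[j] y ∈ pth f x := ⟨ht o f y, by rw [iter_ht G o f hf y]; exact hroot⟩
    obtain ⟨j0, hj0, hmin⟩ : ∃ j0, f^[j0] y ∈ pth f x ∧ ∀ i' < j0, f^[i'] y ∉ pth f x :=
      ⟨Nat.find hex, Nat.find_spec hex, fun i' h => Nat.find_min hex h⟩
    have hj0le : j0 ≤ ht o f y := by
      by_contra hcon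
      exact hmin (ht o f y) (by omega) (by rw [iter_ht G o f hf y]; exact hroot)
    obtain ⟨i0, hi0, hi0e⟩ := (mem_pth G o f hf x _).1 hj0
    have hht : ht o f y = i0 + j0 := by
      have h1 := ht_iter G o f hf y j0 hj0le
      rw [hi0e, ht_anc G o f hf x i0 hi0] at h1
      omega
    have hlt := ht_lt_card G o f hf y
    have huniq : ∀ i ∈ range (ht o f x + 1), ∀ j,
        (f^[j] y = anc o f x i ∧ ∀ i' < j, f^[i'] y ∈ (pth f x)ᶜ) → i = i0 ∧ j = j0 := by
      intro i hi j hP
      rw [Finset.mem_range] at hi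
      obtain ⟨h1, h2⟩ := hP
      have hjS : f^[j] y ∈ pth f x := by
        rw [h1]
        exact (mem_pth G o f hf x _).2 ⟨i, by omega, rfl⟩
      have hj : j = j0 := by
        rcases Nat.lt_trichotomy j j0 with h | h | h
        · exact absurd hjS (hmin j h)
        · exact h
        · exact absurd hj0 (Finset.mem_compl.1 (h2 j0 h))
      subst hj
      refine ⟨?_, rfl⟩
      have h3 : anc o f x i = anc o f x i0 := by rw [← h1, hi0e]
      have h4 := congrArg (ht o f) h3
      rwa [ht_anc G o f hf x i (by omega), ht_anc G o f hf x i0 hi0] at h4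
    rw [Finset.sum_eq_single i0, Finset.sum_eq_single j0]
    · rw [if_pos ⟨hi0e, fun i' hi' => Finset.mem_compl.2 (hmin i' hi')⟩, hht]
    · intro j _ hj
      rw [if_neg]
      intro hP
      exact hj (huniq i0 (Finset.mem_range.2 (by omega)) j hP).2
    · intro hn
      exact absurd (Finset.mem_range.2 (by omega)) hn
    · intro i hi hne
      refine Finset.sum_eq_zero ?_
      intro j _
      rw [if_neg]
      intro hP
      exact hne (huniq i hi j hP).1
    · intro hn
      exact absurd (Finset.mem_range.2 (by omega)) hn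
  have hc : ∀ i j, g (i + j) * (cnt (pth f x)ᶜ (anc o f x i) j f : ℝ) =
      ∑ y, (if (f^[j] y = anc o f x i ∧ ∀ i' < j, f^[i'] y ∈ (pth f x)ᶜ) then g (i + j) else 0) := by
    intro i j
    unfold cnt
    rw [Finset.card_filter]
    push_cast
    rw [Finset.mul_sum]
    refine Finset.sum_congr rfl ?_
    intro y _
    rw [mul_ite, mul_one, mul_zero]
  simp only [hc]
  rw [Finset.sum_congr rfl (fun y _ => key y), Finset.sum_comm]
  refine Finset.sum_congr rfl ?_
  intro i _
  rw [Finset.sum_comm]

end HP192
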