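import Mathlib
import Pool.Agent.Helper192_HP.TDefs
import Pool.Agent.Helper192_HP.T01
import Pool.Agent.Helper192_HP.T02
import Pool.Agent.Helper192_HP.T03
import Pool.Agent.Helper192_HP.T04

namespace HP192
open Finset

variable {V : Type} [Fintype V] [DecidableEq V]

theorem avF_sum {ι : Type} (G : SimpleGraph V) (D : Finset V) (s : Finset ι)
    (F : ι → (V → V) → ℝ) :
    avF G D (fun f => ∑ x ∈ s, F x f) = ∑ x ∈ s, avF G D (F x) := by
  unfold avF
  rw [Finset.sum_comm, Finset.sum_div]

theorem avF_congr (G : SimpleGraph V) (D : Finset V) (F F' : (V → V) → ℝ)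
    (h : ∀ f ∈ For G D, F f = F' f) : avF G D F = avF G D F' := by
  unfold avF
  rw [Finset.sum_congr rfl h]

theorem avF_mono (G : SimpleGraph V) (D : Finset V) (F F' : (V → V) → ℝ)
    (h : ∀ f ∈ For G D, F f ≤ F' f) : avF G D F ≤ avF G D F' := by
  unfold avF
  exact div_le_div_of_nonneg_right (Finset.sum_le_sum h) (Nat.cast_nonneg _)

theorem avF_nonneg (G : SimpleGraph V) (D : Finset V) (F : (V → V) → ℝ)
    (h : ∀ f, 0 ≤ F f) : 0 ≤ avF G D F := by
  unfold avF
  exact div_nonneg (Finset.sum_nonneg fun f _ => h f) (Nat.cast_nonneg _)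

theorem Bm_nonneg (G : SimpleGraph V) (D : Finset V) (u : V) : 0 ≤ Bm G D u := by
  unfold Bm
  exact Finset.sum_nonneg fun m _ => avF_nonneg G D _ fun f => Nat.cast_nonneg _

theorem avF_mul_const (G : SimpleGraph V) (D : Finset V) (F : (V → V) → ℝ) (c : ℝ) :
    avF G D (fun f => F f * c) = avF G D F * c := by
  unfold avF
  rw [← Finset.sum_mul]
  ring

/-- the terms of the pair identity -/
noncomputable def psi (o : V) (a b : ℕ → ℝ) (x : V) (i j : ℕ) (f : V → V) : ℝ :=
  if i < ht o f x + 1 then a (ht o f x) * b (i + j) else 0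

theorem ss_psi (G : SimpleGraph V) (hG : G.Connected) (o : V) (a b : ℕ → ℝ) (x : V) (i j : ℕ) :
    avF G (univ.erase o) (fun f => psi o a b x i j f * (cnt (pth f x)ᶜ (anc o f x i) j f : ℝ))
      = avF G (univ.erase o) (fun f => psi o a b x i j f *
        Am G (pth f x)ᶜ (anc o f x i) j) := by
  have h := ss G hG o {x} (Finset.singleton_nonempty x) (psi o a b x i j)
    (fun f => anc o f x i) (fun _ => j) ?_ ?_
  · simpa only [skl, Finset.singleton_biUnion] using h
  · intro f hf f' hf' hv
    have hv' : ∀ y ∈ pth f x, f' y = f y := by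
      intro y hy
      exact hv y (by simpa only [skl, Finset.singleton_biUnion] using hy)
    obtain ⟨h1, h2, h3⟩ := local_pth G o f f' hf hf' x hv'
    refine ⟨?_, h3 i, rfl⟩
    unfold psi
    rw [h2]
  · intro f hf hne
    simp only [skl, Finset.singleton_biUnion]
    rw [mem_pth G o f hf]
    unfold psi at hne
    split_ifs at hne with hi
    · exact ⟨i, by omega, rfl⟩
    · exact absurd rfl hne

theorem expand (G : SimpleGraph V) (o : V) (a b : ℕ → ℝ) (f : V → V)
    (hf : f ∈ For G (univ.erase o)) (g : V → ℕ → ℕ → ℝ) :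
    ∑ x, a (ht o f x) * ∑ i ∈ range (ht o f x + 1), ∑ j ∈ range (Fintype.card V),
      b (i + j) * g x i j =
    ∑ x, ∑ i ∈ range (Fintype.card V + 1), ∑ j ∈ range (Fintype.card V),
      psi o a b x i j f * g x i j := by
  refine Finset.sum_congr rfl fun x _ => ?_
  have h1 : range (ht o f x + 1) = (range (Fintype.card V + 1)).filter
      (fun i => i < ht o f x + 1) := by
    have h2 := ht_lt_card G o f hf x
    ext i
    simp only [Finset.mem_range, Finset.mem_filter]
    omega
  rw [h1, Finset.sum_filter, Finset.mul_sum]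
  refine Finset.sum_congr rfl fun i _ => ?_
  unfold psi
  split_ifs with hi
  · rw [Finset.mul_sum]
    exact Finset.sum_congr rfl fun j _ => by ring
  · simp

/-- indicator -/
def indk (k h : ℕ) : ℝ := if h = k then 1 else 0

/-- TARGET -/
theorem pair_id (G : SimpleGraph V) (hG : G.Connected) (o : V) (a b : ℕ → ℝ) :
    avF G (univ.erase o) (fun f => (∑ x, a (ht o f x)) * ∑ y, b (ht o f y))
      = avF G (univ.erase o) (fun f => ∑ x, a (ht o f x) * ∑ i ∈ range (ht o f x + 1),
          ∑ j ∈ range (Fintype.card V),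
            b (i + j) * Am G (pth f x)ᶜ (anc o f x i) j) := by
  have e1 : avF G (univ.erase o) (fun f => (∑ x, a (ht o f x)) * ∑ y, b (ht o f y)) =
      avF G (univ.erase o) (fun f => ∑ x, ∑ i ∈ range (Fintype.card V + 1),
        ∑ j ∈ range (Fintype.card V),
          psi o a b x i j f * (cnt (pth f x)ᶜ (anc o f x i) j f : ℝ)) := by
    refine avF_congr _ _ _ _ fun f hf => ?_
    rw [← expand G o a b f hf (fun x i j => (cnt (pth f x)ᶜ (anc o f x i) j f : ℝ)),
      Finset.sum_mul]
    refine Finset.sum_congr rfl fun x _ => ?_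
    rw [decomp G o f hf x b]
  have e2 : avF G (univ.erase o) (fun f => ∑ x, a (ht o f x) * ∑ i ∈ range (ht o f x + 1),
          ∑ j ∈ range (Fintype.card V), b (i + j) * Am G (pth f x)ᶜ (anc o f x i) j) =
      avF G (univ.erase o) (fun f => ∑ x, ∑ i ∈ range (Fintype.card V + 1),
        ∑ j ∈ range (Fintype.card V),
          psi o a b x i j f * Am G (pth f x)ᶜ (anc o f x i) j) := by
    refine avF_congr _ _ _ _ fun f hf => ?_
    exact expand G o a b f hf (fun x i j => Am G (pth f x)ᶜ (anc o f x i) j)
  rw [e1, e2]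
  simp only [avF_sum]
  refine Finset.sum_congr rfl fun x _ => Finset.sum_congr rfl fun i _ =>
    Finset.sum_congr rfl fun j _ => ?_
  exact ss_psi G hG o a b x i j

/-- TARGET (second part) -/
theorem pair_bound (G : SimpleGraph V) (hG : G.Connected) (o : V) (k l mx : ℕ) (C1 T1 : ℝ)
    (hC1 : 0 ≤ C1) (hT1 : 0 < T1) (hk : k ≤ mx) (hl : l ≤ mx)
    (W1 : ∀ (D : Finset V) (u : V) (m : ℕ), u ∉ D → m ≤ mx →
      Am G D u m ≤ C1 * (1 + Bm G D u / T1)) :
    avF G (univ.erase o) (fun f => (cnt (univ.erase o) o k f : ℝ) * (cnt (univ.erase o) o l f : ℝ))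
      ≤ (C1 * (1 + (Fintype.card V : ℝ) / T1))
        * (C1 * ((k : ℝ) + 1 + (Fintype.card V : ℝ) / T1)) := by
  set n : ℝ := (Fintype.card V : ℝ) with hn
  set M : ℝ := C1 * ((k : ℝ) + 1 + n / T1) with hM
  have hn0 : 0 ≤ n := Nat.cast_nonneg _
  have hM0 : 0 ≤ M := by positivity
  have hcnt : ∀ f ∈ For G (univ.erase o), ∀ k : ℕ, (cnt (univ.erase o) o k f : ℝ) =
      ∑ x, indk k (ht o f x) := by
    intro f hf k
    rw [← card_ht G o f hf k, Finset.card_filter]
    push_cast
    rfl
  have e1 : avF G (univ.erase o) (fun f => (cnt (univ.erase o) o k f : ℝ) *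
      (cnt (univ.erase o) o l f : ℝ)) = avF G (univ.erase o) (fun f =>
        (∑ x, indk k (ht o f x)) *
        ∑ y, indk l (ht o f y)) := by
    refine avF_congr _ _ _ _ fun f hf => ?_
    rw [hcnt f hf k, hcnt f hf l]
  rw [e1, pair_id G hG o (indk k) (indk l)]
  have e2 : avF G (univ.erase o) (fun f => ∑ x, indk k
        (ht o f x) * ∑ i ∈ range (ht o f x + 1), ∑ j ∈ range (Fintype.card V),
          indk l (i + j) *
            Am G (pth f x)ᶜ (anc o f x i) j) ≤
      avF G (univ.erase o) (fun f => (cnt (univ.erase o) o k f : ℝ) * M) := by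
    refine avF_mono _ _ _ _ fun f hf => ?_
    rw [hcnt f hf k, Finset.sum_mul]
    refine Finset.sum_le_sum fun x _ => ?_
    by_cases hx : ht o f x = k
    · simp only [hx, indk, if_true, one_mul]
      have hbound : ∀ i ∈ range (k + 1), ∑ j ∈ range (Fintype.card V),
          (if i + j = l then (1 : ℝ) else 0) * Am G (pth f x)ᶜ (anc o f x i) j ≤
          C1 * (1 + Bm G (pth f x)ᶜ (anc o f x i) / T1) := by
        intro i hi
        rw [Finset.mem_range] at hi
        have hpos : 0 ≤ C1 * (1 + Bm G (pth f x)ᶜ (anc o f x i) / T1) := by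
          have := Bm_nonneg G (pth f x)ᶜ (anc o f x i)
          positivity
        have hmem : anc o f x i ∉ (pth f x)ᶜ := by
          rw [Finset.mem_compl, not_not, mem_pth G o f hf]
          exact ⟨i, by omega, rfl⟩
        by_cases hil : i ≤ l ∧ l - i < Fintype.card V
        · rw [Finset.sum_eq_single (l - i)]
          · rw [if_pos (by omega), one_mul]
            exact W1 _ _ _ hmem (by omega)
          · intro j _ hj
            rw [if_neg (by omega), zero_mul]
          · intro h
            exact absurd (Finset.mem_range.2 hil.2) h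
        · rw [Finset.sum_eq_zero]
          · exact hpos
          · intro j hj
            rw [Finset.mem_range] at hj
            rw [if_neg (by omega), zero_mul]
      refine (Finset.sum_le_sum hbound).trans ?_
      rw [← Finset.mul_sum]
      refine mul_le_mul_of_nonneg_left ?_ hC1
      rw [Finset.sum_add_distrib, ← Finset.sum_div, Finset.sum_const, Finset.card_range,
        nsmul_eq_mul, mul_one]
      have hinj : Set.InjOn (anc o f x) (range (k + 1) : Finset ℕ) := by
        intro i hi j hj hij
        rw [Finset.mem_coe, Finset.mem_range] at hi hj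
        have h1 := ht_anc G o f hf x i (by omega)
        have h2 := ht_anc G o f hf x j (by omega)
        rw [hij] at h1
        exact h1.symm.trans h2
      have himg : (range (k + 1)).image (anc o f x) = ((pth f x)ᶜ)ᶜ := by
        rw [compl_compl]
        ext y
        rw [Finset.mem_image, mem_pth G o f hf]
        constructor
        · rintro ⟨i, hi, rfl⟩
          rw [Finset.mem_range] at hi
          exact ⟨i, by omega, rfl⟩
        · rintro ⟨i, hi, rfl⟩
          exact ⟨i, Finset.mem_range.2 (by omega), rfl⟩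
      have hsum : ∑ i ∈ range (k + 1), Bm G (pth f x)ᶜ (anc o f x i) = n := by
        rw [← Finset.sum_image (f := fun u => Bm G (pth f x)ᶜ u) hinj, himg]
        refine sum_Bm G hG _ ?_
        intro h
        have h2 : o ∈ (pth f x)ᶜ := by
          rw [h]
          exact Finset.mem_univ o
        exact (Finset.mem_compl.1 h2) (root_mem_pth G o f hf x)
      rw [hsum]
      push_cast
      exact le_refl _
    · simp only [hx, indk, if_false, zero_mul]
      exact le_refl _
  refine e2.trans ?_
  rw [avF_mul_const]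
  refine mul_le_mul_of_nonneg_right ?_ hM0
  have h1 : avF G (univ.erase o) (fun f => (cnt (univ.erase o) o k f : ℝ)) =
      Am G (univ.erase o) o k := rfl
  rw [h1]
  refine (W1 _ _ _ (Finset.notMem_erase o univ) hk).trans ?_
  have h2 : Bm G (univ.erase o) o = n := by
    have h3 := sum_Bm G hG (univ.erase o) (by
      intro h
      have : o ∈ (univ.erase o : Finset V) := by
        rw [h]
        exact Finset.mem_univ o
      exact Finset.notMem_erase o univ this)
    have h4 : (univ.erase o : Finset V)ᶜ = {o} := by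
      ext y
      simp
    rw [h4, Finset.sum_singleton] at h3
    exact h3
  rw [h2]

end HP192
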