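import Mathlib
import Pool.Agent.Helper192_HP.TDefs
import Pool.Agent.Helper192_HP.T01
import Pool.Agent.Helper192_HP.T02
import Pool.Agent.Helper192_HP.T03
import Pool.Agent.Helper192_HP.T04

namespace HP192
open Finset

variable {V : Type} [Fintype V] [DecidableEq V]

theorem diag_avF_mono (G : SimpleGraph V) (D : Finset V) {F F' : (V → V) → ℝ}
    (h : ∀ f ∈ For G D, F f ≤ F' f) : avF G D F ≤ avF G D F' := by
  unfold avF
  exact div_le_div_of_nonneg_right (Finset.sum_le_sum h) (Nat.cast_nonneg _)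

theorem diag_avF_sum (G : SimpleGraph V) (D : Finset V) {ι : Type} (s : Finset ι)
    (F : ι → (V → V) → ℝ) :
    avF G D (fun f => ∑ i ∈ s, F i f) = ∑ i ∈ s, avF G D (F i) := by
  unfold avF
  rw [Finset.sum_comm, Finset.sum_div]

theorem diag_avF_mul (G : SimpleGraph V) (D : Finset V) (c : ℝ) (F : (V → V) → ℝ) :
    avF G D (fun f => c * F f) = c * avF G D F := by
  unfold avF
  rw [← Finset.mul_sum, mul_div_assoc]

theorem diag_avF_congr (G : SimpleGraph V) (D : Finset V) {F F' : (V → V) → ℝ}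
    (h : ∀ f ∈ For G D, F f = F' f) : avF G D F = avF G D F' := by
  unfold avF
  rw [Finset.sum_congr rfl h]

theorem diag_avF_nonneg (G : SimpleGraph V) (D : Finset V) {F : (V → V) → ℝ}
    (h : ∀ f ∈ For G D, 0 ≤ F f) : 0 ≤ avF G D F :=
  div_nonneg (Finset.sum_nonneg h) (Nat.cast_nonneg _)

theorem diag_Am_nonneg (G : SimpleGraph V) (D : Finset V) (u : V) (m : ℕ) : 0 ≤ Am G D u m :=
  diag_avF_nonneg G D fun _ _ => Nat.cast_nonneg _

theorem diag_Bm_nonneg (G : SimpleGraph V) (D : Finset V) (u : V) : 0 ≤ Bm G D u :=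
  Finset.sum_nonneg fun _ _ => diag_Am_nonneg G D u _

theorem diag_skl (f : V → V) (x : V) : skl f {x} = pth f x := by
  simp [skl]

/-- the vertices below `u` -/
theorem diag_stepA (o : V) (f : V → V) (r : ℕ → ℝ) (h0 m1 : ℕ)
    (hr : ∀ h, 0 ≤ r h) (u : V) (hu : ht o f u = h0) :
    ∑ m ∈ range (m1 + 1), r (h0 + m) * (Nd o f u m : ℝ) ≤
      ∑ x, (if anc o f x h0 = u then r (ht o f x) else 0) := by
  have h1 : ∀ m ∈ range (m1 + 1), r (h0 + m) * (Nd o f u m : ℝ) =
      ∑ x, (if f^[m] x = u ∧ ht o f x = ht o f u + m then r (h0 + m) else 0) := by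
    intro m _
    rw [Nd, Finset.card_filter, Nat.cast_sum, Finset.mul_sum]
    refine Finset.sum_congr rfl fun x _ => ?_
    split_ifs <;> simp
  rw [Finset.sum_congr rfl h1, Finset.sum_comm]
  refine Finset.sum_le_sum fun x _ => ?_
  have h2 : ∀ m ∈ range (m1 + 1),
      (if f^[m] x = u ∧ ht o f x = ht o f u + m then r (h0 + m) else 0) ≤
        if m = ht o f x - h0 then (if anc o f x h0 = u then r (ht o f x) else 0) else 0 := by
    intro m _
    by_cases hc : f^[m] x = u ∧ ht o f x = ht o f u + m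
    · obtain ⟨hc1, hc2⟩ := hc
      rw [if_pos ⟨hc1, hc2⟩]
      rw [hu] at hc2
      have h3 : m = ht o f x - h0 := by omega
      have h4 : anc o f x h0 = u := by rw [anc, ← h3]; exact hc1
      rw [if_pos h3, if_pos h4, hc2]
    · rw [if_neg hc]
      split_ifs
      · exact hr _
      · exact le_rfl
      · exact le_rfl
  refine (Finset.sum_le_sum h2).trans ?_
  rw [Finset.sum_ite_eq']
  split_ifs
  · exact le_rfl
  · exact le_rfl
  · exact hr _
  · exact le_rfl

theorem diag_stepB (o : V) (f : V → V) (r : ℕ → ℝ) (h0 m1 : ℕ) (hr : ∀ h, 0 ≤ r h) :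
    ∑ u ∈ univ.filter (fun u => ht o f u = h0),
        (∑ m ∈ range (m1 + 1), r (h0 + m) * (Nd o f u m : ℝ)) ^ 2 ≤
      ∑ x, r (ht o f x) * ∑ y, (if anc o f y h0 = anc o f x h0 then r (ht o f y) else 0) := by
  have h1 : ∑ u ∈ univ.filter (fun u => ht o f u = h0),
        (∑ m ∈ range (m1 + 1), r (h0 + m) * (Nd o f u m : ℝ)) ^ 2 ≤
      ∑ u ∈ univ.filter (fun u => ht o f u = h0),
        (∑ x, (if anc o f x h0 = u then r (ht o f x) else 0)) ^ 2 := by
    refine Finset.sum_le_sum fun u hu => ?_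
    have hu' : ht o f u = h0 := (Finset.mem_filter.1 hu).2
    have h2 := diag_stepA o f r h0 m1 hr u hu'
    exact pow_le_pow_left₀ (Finset.sum_nonneg fun m _ =>
      mul_nonneg (hr _) (Nat.cast_nonneg _)) h2 2
  refine h1.trans ?_
  have h3 : ∑ u ∈ univ.filter (fun u => ht o f u = h0),
        (∑ x, (if anc o f x h0 = u then r (ht o f x) else 0)) ^ 2 ≤
      ∑ u, (∑ x, (if anc o f x h0 = u then r (ht o f x) else 0)) ^ 2 :=
    Finset.sum_le_sum_of_subset_of_nonneg (Finset.filter_subset _ _) fun _ _ _ => sq_nonneg _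
  refine h3.trans (le_of_eq ?_)
  have h4 : ∀ u, (∑ x, (if anc o f x h0 = u then r (ht o f x) else 0)) ^ 2 =
      ∑ x, ∑ y, (if anc o f x h0 = u then
        r (ht o f x) * (if anc o f y h0 = anc o f x h0 then r (ht o f y) else 0) else 0) := by
    intro u
    rw [sq, Finset.sum_mul_sum]
    refine Finset.sum_congr rfl fun x _ => Finset.sum_congr rfl fun y _ => ?_
    by_cases hx : anc o f x h0 = u
    · rw [if_pos hx, if_pos hx, hx]
    · rw [if_neg hx, if_neg hx, zero_mul]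
  rw [Finset.sum_congr rfl fun u _ => h4 u, Finset.sum_comm]
  refine Finset.sum_congr rfl fun x _ => ?_
  rw [Finset.sum_comm, Finset.mul_sum]
  refine Finset.sum_congr rfl fun y _ => ?_
  rw [Finset.sum_ite_eq]
  simp

theorem diag_stepC (G : SimpleGraph V) (o : V) (f : V → V) (hf : f ∈ For G (univ.erase o))
    (r : ℕ → ℝ) (h0 m1 : ℕ)
    (hr : ∀ h, 0 ≤ r h) (hr0 : ∀ h, r h ≠ 0 → h0 ≤ h ∧ h ≤ h0 + m1) (x : V) :
    r (ht o f x) * ∑ y, (if anc o f y h0 = anc o f x h0 then r (ht o f y) else 0) ≤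
      ∑ i ∈ range (h0 + m1 + 1), ∑ j ∈ range (Fintype.card V),
        (if h0 ≤ i ∧ i ≤ ht o f x then r (ht o f x) * r (i + j) else 0) *
          (cnt (pth f x)ᶜ (anc o f x i) j f : ℝ) := by
  have hnn : ∀ i j : ℕ, (0 : ℝ) ≤ (if h0 ≤ i ∧ i ≤ ht o f x then r (ht o f x) * r (i + j) else 0) := by
    intro i j
    split_ifs
    · exact mul_nonneg (hr _) (hr _)
    · exact le_rfl
  by_cases hx0 : r (ht o f x) = 0
  · rw [hx0, zero_mul]
    exact Finset.sum_nonneg fun i _ => Finset.sum_nonneg fun j _ => by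
      split_ifs <;> simp
  obtain ⟨hx1, hx2⟩ := hr0 _ hx0
  have hcnt : ∀ i j : ℕ, (cnt (pth f x)ᶜ (anc o f x i) j f : ℝ) =
      ∑ y, (if f^[j] y = anc o f x i ∧ ∀ k < j, f^[k] y ∈ (pth f x)ᶜ then (1 : ℝ) else 0) := by
    intro i j
    rw [cnt, Finset.card_filter, Nat.cast_sum]
    refine Finset.sum_congr rfl fun y _ => ?_
    split_ifs <;> simp
  have hsw : ∑ i ∈ range (h0 + m1 + 1), ∑ j ∈ range (Fintype.card V),
        (if h0 ≤ i ∧ i ≤ ht o f x then r (ht o f x) * r (i + j) else 0) *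
          (cnt (pth f x)ᶜ (anc o f x i) j f : ℝ) =
      ∑ y, ∑ i ∈ range (h0 + m1 + 1), ∑ j ∈ range (Fintype.card V),
        (if h0 ≤ i ∧ i ≤ ht o f x then r (ht o f x) * r (i + j) else 0) *
          (if f^[j] y = anc o f x i ∧ ∀ k < j, f^[k] y ∈ (pth f x)ᶜ then (1 : ℝ) else 0) := by
    symm
    rw [Finset.sum_comm]
    refine Finset.sum_congr rfl fun i _ => ?_
    rw [Finset.sum_comm]
    refine Finset.sum_congr rfl fun j _ => ?_
    rw [hcnt, Finset.mul_sum]
  rw [hsw, Finset.mul_sum]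
  refine Finset.sum_le_sum fun y _ => ?_
  have hterm : ∀ i j : ℕ, (0 : ℝ) ≤
      (if h0 ≤ i ∧ i ≤ ht o f x then r (ht o f x) * r (i + j) else 0) *
          (if f^[j] y = anc o f x i ∧ ∀ k < j, f^[k] y ∈ (pth f x)ᶜ then (1 : ℝ) else 0) := by
    intro i j
    refine mul_nonneg (hnn i j) ?_
    split_ifs <;> norm_num
  by_cases hy : anc o f y h0 = anc o f x h0 ∧ r (ht o f y) ≠ 0
  · obtain ⟨hy1, hy2⟩ := hy
    obtain ⟨hy3, hy4⟩ := hr0 _ hy2
    rw [if_pos hy1]
    have hex : ∃ k, f^[k] y ∈ pth f x := by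
      refine ⟨ht o f y - h0, ?_⟩
      have h1 : f^[ht o f y - h0] y = anc o f x h0 := hy1
      rw [h1, mem_pth G o f hf]
      exact ⟨h0, hx1, rfl⟩
    classical
    set j := Nat.find hex with hj
    have hj1 : f^[j] y ∈ pth f x := Nat.find_spec hex
    have hj2 : ∀ k < j, f^[k] y ∉ pth f x := fun k hk => Nat.find_min hex hk
    have hj3 : j ≤ ht o f y - h0 := by
      refine Nat.find_min' hex ?_
      have h1 : f^[ht o f y - h0] y = anc o f x h0 := hy1
      rw [h1, mem_pth G o f hf]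
      exact ⟨h0, hx1, rfl⟩
    obtain ⟨i, hi1, hi2⟩ := (mem_pth G o f hf x _).1 hj1
    have hi3 : i = ht o f y - j := by
      have h1 := ht_anc G o f hf x i hi1
      rw [← hi2, ht_iter G o f hf y j (by omega)] at h1
      exact h1.symm
    have hi4 : i + j = ht o f y := by omega
    have hlt := ht_lt_card G o f hf y
    have hi5 : i ∈ range (h0 + m1 + 1) := Finset.mem_range.2 (by omega)
    have hj5 : j ∈ range (Fintype.card V) := Finset.mem_range.2 (by omega)
    have e1 : r (ht o f x) * r (ht o f y) =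
        (if h0 ≤ i ∧ i ≤ ht o f x then r (ht o f x) * r (i + j) else 0) *
          (if f^[j] y = anc o f x i ∧ ∀ k < j, f^[k] y ∈ (pth f x)ᶜ then (1 : ℝ) else 0) := by
      rw [if_pos ⟨by omega, hi1⟩, if_pos ⟨hi2, fun k hk => Finset.mem_compl.2 (hj2 k hk)⟩, hi4,
        mul_one]
    rw [e1]
    refine le_trans ?_ (Finset.single_le_sum (f := fun i => ∑ j ∈ range (Fintype.card V),
        (if h0 ≤ i ∧ i ≤ ht o f x then r (ht o f x) * r (i + j) else 0) *
          (if f^[j] y = anc o f x i ∧ ∀ k < j, f^[k] y ∈ (pth f x)ᶜ then (1 : ℝ) else 0))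
        (fun i _ => Finset.sum_nonneg fun j _ => hterm i j) hi5)
    exact Finset.single_le_sum (f := fun j =>
        (if h0 ≤ i ∧ i ≤ ht o f x then r (ht o f x) * r (i + j) else 0) *
          (if f^[j] y = anc o f x i ∧ ∀ k < j, f^[k] y ∈ (pth f x)ᶜ then (1 : ℝ) else 0))
        (fun j _ => hterm i j) hj5
  · have h0' : (if anc o f y h0 = anc o f x h0 then r (ht o f y) else 0) = 0 := by
      split_ifs with h1
      · by_contra h2
        exact hy ⟨h1, h2⟩
      · rfl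
    rw [h0', mul_zero]
    exact Finset.sum_nonneg fun i _ => Finset.sum_nonneg fun j _ => hterm i j

/-- the sum of the values of `Bm` along a path -/
theorem diag_sumB (G : SimpleGraph V) (hG : G.Connected) (o : V) (f : V → V)
    (hf : f ∈ For G (univ.erase o)) (x : V) (h0 : ℕ) :
    ∑ i ∈ Finset.Icc h0 (ht o f x), Bm G (pth f x)ᶜ (anc o f x i) ≤ (Fintype.card V : ℝ) := by
  have hD : (pth f x)ᶜ ≠ univ := by
    intro h
    have h1 : o ∈ (pth f x)ᶜ := by rw [h]; exact Finset.mem_univ _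
    exact (Finset.mem_compl.1 h1) (root_mem_pth G o f hf x)
  have h1 := sum_Bm G hG (pth f x)ᶜ hD
  rw [compl_compl] at h1
  rw [← h1]
  have hinj : Set.InjOn (fun i => anc o f x i) (Finset.Icc h0 (ht o f x) : Set ℕ) := by
    intro a ha b hb hab
    have ha' := (Finset.mem_Icc.1 (Finset.mem_coe.1 ha)).2
    have hb' := (Finset.mem_Icc.1 (Finset.mem_coe.1 hb)).2
    rw [← ht_anc G o f hf x a ha', ← ht_anc G o f hf x b hb']
    exact congrArg (ht o f) hab
  have h2 : ∑ i ∈ Finset.Icc h0 (ht o f x), Bm G (pth f x)ᶜ (anc o f x i) =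
      ∑ u ∈ (Finset.Icc h0 (ht o f x)).image (fun i => anc o f x i), Bm G (pth f x)ᶜ u := by
    rw [Finset.sum_image hinj]
  rw [h2]
  refine Finset.sum_le_sum_of_subset_of_nonneg ?_ fun u _ _ => diag_Bm_nonneg G _ u
  intro u hu
  obtain ⟨i, hi, rfl⟩ := Finset.mem_image.1 hu
  rw [mem_pth G o f hf]
  exact ⟨i, (Finset.mem_Icc.1 hi).2, rfl⟩

theorem diag_sumr (r : ℕ → ℝ) (h0 m1 : ℕ)
    (hr : ∀ h, 0 ≤ r h) (hr0 : ∀ h, r h ≠ 0 → h0 ≤ h ∧ h ≤ h0 + m1)
    (hr2 : ∑ h ∈ range (h0 + m1 + 1), r h ≤ 2) (i N : ℕ) :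
    ∑ j ∈ range N, r (i + j) ≤ 2 := by
  refine le_trans ?_ hr2
  have h1 : ∑ j ∈ range N, r (i + j) = ∑ h ∈ (range N).image (fun j => i + j), r h := by
    rw [Finset.sum_image]
    intro a _ b _ hab
    exact Nat.add_left_cancel hab
  rw [h1]
  have h2 : ∑ h ∈ (range N).image (fun j => i + j), r h =
      ∑ h ∈ ((range N).image (fun j => i + j)).filter (fun h => r h ≠ 0), r h := by
    rw [Finset.sum_filter_ne_zero]
  rw [h2]
  refine Finset.sum_le_sum_of_subset_of_nonneg ?_ fun h _ _ => hr h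
  intro h hh
  have := hr0 h (Finset.mem_filter.1 hh).2
  exact Finset.mem_range.2 (by omega)

theorem diag_stepD (G : SimpleGraph V) (hG : G.Connected) (o : V) (f : V → V)
    (hf : f ∈ For G (univ.erase o)) (r : ℕ → ℝ) (h0 m1 : ℕ)
    (hr : ∀ h, 0 ≤ r h) (hr0 : ∀ h, r h ≠ 0 → h0 ≤ h ∧ h ≤ h0 + m1)
    (hr2 : ∑ h ∈ range (h0 + m1 + 1), r h ≤ 2)
    (C2 κ T : ℝ) (hC2 : 0 ≤ C2) (hκ : 0 ≤ κ) (hT : 0 < T)
    (W2 : ∀ (D : Finset V) (u : V) (m : ℕ), u ∉ D → m ≤ m1 →
      Am G D u m ≤ C2 + κ * (Bm G D u / T)) (x : V) :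
    ∑ i ∈ range (h0 + m1 + 1), ∑ j ∈ range (Fintype.card V),
        (if h0 ≤ i ∧ i ≤ ht o f x then r (ht o f x) * r (i + j) else 0) *
          Am G (pth f x)ᶜ (anc o f x i) j ≤
      (2 * (((m1 : ℝ) + 1) * C2 + κ * ((Fintype.card V : ℝ) / T))) * r (ht o f x) := by
  by_cases hx0 : r (ht o f x) = 0
  · rw [hx0, mul_zero]
    refine le_of_eq ?_
    refine Finset.sum_eq_zero fun i _ => Finset.sum_eq_zero fun j _ => ?_
    split_ifs <;> simp
  obtain ⟨hx1, hx2⟩ := hr0 _ hx0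
  have h1 : ∀ i ∈ range (h0 + m1 + 1), ∑ j ∈ range (Fintype.card V),
        (if h0 ≤ i ∧ i ≤ ht o f x then r (ht o f x) * r (i + j) else 0) *
          Am G (pth f x)ᶜ (anc o f x i) j ≤
      if i ∈ Finset.Icc h0 (ht o f x) then
        r (ht o f x) * (2 * (C2 + κ * (Bm G (pth f x)ᶜ (anc o f x i) / T))) else 0 := by
    intro i _
    by_cases hi : h0 ≤ i ∧ i ≤ ht o f x
    · rw [if_pos (Finset.mem_Icc.2 hi)]
      set B := C2 + κ * (Bm G (pth f x)ᶜ (anc o f x i) / T) with hB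
      have hB0 : 0 ≤ B := by
        have := diag_Bm_nonneg G (pth f x)ᶜ (anc o f x i)
        positivity
      have h2 : ∀ j ∈ range (Fintype.card V),
          (if h0 ≤ i ∧ i ≤ ht o f x then r (ht o f x) * r (i + j) else 0) *
            Am G (pth f x)ᶜ (anc o f x i) j ≤ (r (ht o f x) * B) * r (i + j) := by
        intro j _
        rw [if_pos hi]
        by_cases hj : r (i + j) = 0
        · rw [hj]; simp
        · have h3 := hr0 _ hj
          have h4 : anc o f x i ∉ (pth f x)ᶜ := by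
            rw [Finset.mem_compl, not_not, mem_pth G o f hf]
            exact ⟨i, hi.2, rfl⟩
          have h5 := W2 _ _ j h4 (by omega)
          have h6 : 0 ≤ r (ht o f x) * r (i + j) := mul_nonneg (hr _) (hr _)
          calc r (ht o f x) * r (i + j) * Am G (pth f x)ᶜ (anc o f x i) j
              ≤ r (ht o f x) * r (i + j) * B := mul_le_mul_of_nonneg_left h5 h6
            _ = (r (ht o f x) * B) * r (i + j) := by ring
      refine (Finset.sum_le_sum h2).trans ?_
      rw [← Finset.mul_sum]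
      have h7 := diag_sumr r h0 m1 hr hr0 hr2 i (Fintype.card V)
      calc r (ht o f x) * B * ∑ j ∈ range (Fintype.card V), r (i + j)
          ≤ r (ht o f x) * B * 2 := mul_le_mul_of_nonneg_left h7 (mul_nonneg (hr _) hB0)
        _ = r (ht o f x) * (2 * B) := by ring
    · rw [if_neg (fun h => hi (Finset.mem_Icc.1 h))]
      refine le_of_eq (Finset.sum_eq_zero fun j _ => ?_)
      rw [if_neg hi, zero_mul]
  refine (Finset.sum_le_sum h1).trans ?_
  have hsub : Finset.Icc h0 (ht o f x) ⊆ range (h0 + m1 + 1) := by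
    intro i hi
    have := Finset.mem_Icc.1 hi
    exact Finset.mem_range.2 (by omega)
  rw [← Finset.sum_filter]
  have hfil : (range (h0 + m1 + 1)).filter (fun i => i ∈ Finset.Icc h0 (ht o f x)) =
      Finset.Icc h0 (ht o f x) := by
    ext i
    rw [Finset.mem_filter]
    exact ⟨fun h => h.2, fun h => ⟨hsub h, h⟩⟩
  rw [hfil, ← Finset.mul_sum, ← Finset.mul_sum, Finset.sum_add_distrib, ← Finset.mul_sum,
    ← Finset.sum_div, Finset.sum_const, nsmul_eq_mul, mul_comm (r (ht o f x))]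
  refine mul_le_mul_of_nonneg_right ?_ (hr _)
  refine mul_le_mul_of_nonneg_left ?_ (by norm_num)
  refine add_le_add ?_ ?_
  · refine mul_le_mul_of_nonneg_right ?_ hC2
    rw [Nat.card_Icc]
    have : ht o f x + 1 - h0 ≤ m1 + 1 := by omega
    exact_mod_cast this
  · refine mul_le_mul_of_nonneg_left ?_ hκ
    exact div_le_div_of_nonneg_right (diag_sumB G hG o f hf x h0) hT.le

/-- the sum of `r` over the heights -/
theorem diag_stepE (G : SimpleGraph V) (o : V) (f : V → V)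
    (hf : f ∈ For G (univ.erase o)) (r : ℕ → ℝ) (h0 m1 : ℕ)
    (hr0 : ∀ h, r h ≠ 0 → h0 ≤ h ∧ h ≤ h0 + m1) :
    ∑ x, r (ht o f x) = ∑ h ∈ range (h0 + m1 + 1), r h * (cnt (univ.erase o) o h f : ℝ) := by
  have h1 : ∀ h ∈ range (h0 + m1 + 1), r h * (cnt (univ.erase o) o h f : ℝ) =
      ∑ x, (if h = ht o f x then r h else 0) := by
    intro h _
    rw [← card_ht G o f hf h, Finset.card_filter, Nat.cast_sum, Finset.mul_sum]
    refine Finset.sum_congr rfl fun x _ => ?_
    by_cases hx : ht o f x = h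
    · rw [if_pos hx, if_pos hx.symm]; simp
    · rw [if_neg hx, if_neg (Ne.symm hx)]; simp
  rw [Finset.sum_congr rfl h1, Finset.sum_comm]
  refine Finset.sum_congr rfl fun x _ => ?_
  rw [Finset.sum_ite_eq']
  split_ifs with h2
  · rfl
  · by_contra h3
    have := hr0 _ h3
    exact h2 (Finset.mem_range.2 (by omega))

/-- TARGET -/
theorem diag_bound (G : SimpleGraph V) (hG : G.Connected) (o : V) (r : ℕ → ℝ) (h0 m1 : ℕ)
    (hr : ∀ h, 0 ≤ r h) (hr0 : ∀ h, r h ≠ 0 → h0 ≤ h ∧ h ≤ h0 + m1)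
    (hr2 : ∑ h ∈ range (h0 + m1 + 1), r h ≤ 2)
    (C2 κ T H1 : ℝ) (hC2 : 0 ≤ C2) (hκ : 0 ≤ κ) (hT : 0 < T)
    (hH1 : ∀ k ≤ h0 + m1, Am G (univ.erase o) o k ≤ H1)
    (W2 : ∀ (D : Finset V) (u : V) (m : ℕ), u ∉ D → m ≤ m1 →
      Am G D u m ≤ C2 + κ * (Bm G D u / T)) :
    avF G (univ.erase o) (fun f => ∑ u ∈ univ.filter (fun u => ht o f u = h0),
        (∑ m ∈ range (m1 + 1), r (h0 + m) * (Nd o f u m : ℝ)) ^ 2)
      ≤ (2 * H1) * (2 * (((m1 : ℝ) + 1) * C2 + κ * ((Fintype.card V : ℝ) / T))) := by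
  classical
  set c : ℝ := 2 * (((m1 : ℝ) + 1) * C2 + κ * ((Fintype.card V : ℝ) / T)) with hc
  have hc0 : 0 ≤ c := by positivity
  have hH1' : 0 ≤ H1 := (diag_Am_nonneg G (univ.erase o) o 0).trans (hH1 0 (Nat.zero_le _))
  -- step 1
  have s1 : avF G (univ.erase o) (fun f => ∑ u ∈ univ.filter (fun u => ht o f u = h0),
        (∑ m ∈ range (m1 + 1), r (h0 + m) * (Nd o f u m : ℝ)) ^ 2) ≤
      avF G (univ.erase o) (fun f => ∑ x, ∑ i ∈ range (h0 + m1 + 1),
        ∑ j ∈ range (Fintype.card V),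
        (if h0 ≤ i ∧ i ≤ ht o f x then r (ht o f x) * r (i + j) else 0) *
          (cnt (pth f x)ᶜ (anc o f x i) j f : ℝ)) := by
    refine diag_avF_mono G _ fun f hf => ?_
    refine (diag_stepB o f r h0 m1 hr).trans (Finset.sum_le_sum fun x _ => ?_)
    exact diag_stepC G o f hf r h0 m1 hr hr0 x
  refine s1.trans ?_
  -- step 2
  have s2 : avF G (univ.erase o) (fun f => ∑ x, ∑ i ∈ range (h0 + m1 + 1),
        ∑ j ∈ range (Fintype.card V),
        (if h0 ≤ i ∧ i ≤ ht o f x then r (ht o f x) * r (i + j) else 0) *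
          (cnt (pth f x)ᶜ (anc o f x i) j f : ℝ)) =
      avF G (univ.erase o) (fun f => ∑ x, ∑ i ∈ range (h0 + m1 + 1),
        ∑ j ∈ range (Fintype.card V),
        (if h0 ≤ i ∧ i ≤ ht o f x then r (ht o f x) * r (i + j) else 0) *
          Am G (pth f x)ᶜ (anc o f x i) j) := by
    rw [diag_avF_sum, diag_avF_sum]
    refine Finset.sum_congr rfl fun x _ => ?_
    rw [diag_avF_sum, diag_avF_sum]
    refine Finset.sum_congr rfl fun i _ => ?_
    rw [diag_avF_sum, diag_avF_sum]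
    refine Finset.sum_congr rfl fun j _ => ?_
    have h1 := ss G hG o {x} (Finset.singleton_nonempty x)
      (fun f => if h0 ≤ i ∧ i ≤ ht o f x then r (ht o f x) * r (i + j) else 0)
      (fun f => anc o f x i) (fun _ => j)
      (by
        intro f hf f' hf' h
        rw [diag_skl] at h
        obtain ⟨_, h3, h4⟩ := local_pth G o f f' hf hf' x h
        refine ⟨?_, h4 i, rfl⟩
        show (if h0 ≤ i ∧ i ≤ ht o f' x then r (ht o f' x) * r (i + j) else 0) =
          (if h0 ≤ i ∧ i ≤ ht o f x then r (ht o f x) * r (i + j) else 0)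
        rw [h3])
      (by
        intro f hf h
        rw [diag_skl]
        have h2 : h0 ≤ i ∧ i ≤ ht o f x := by
          by_contra h3
          exact h (if_neg h3)
        exact (mem_pth G o f hf x _).2 ⟨i, h2.2, rfl⟩)
    simp only [diag_skl] at h1
    exact h1
  rw [s2]
  -- step 3
  have s3 : avF G (univ.erase o) (fun f => ∑ x, ∑ i ∈ range (h0 + m1 + 1),
        ∑ j ∈ range (Fintype.card V),
        (if h0 ≤ i ∧ i ≤ ht o f x then r (ht o f x) * r (i + j) else 0) *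
          Am G (pth f x)ᶜ (anc o f x i) j) ≤
      avF G (univ.erase o) (fun f => c * ∑ h ∈ range (h0 + m1 + 1),
        r h * (cnt (univ.erase o) o h f : ℝ)) := by
    refine diag_avF_mono G _ fun f hf => ?_
    rw [← diag_stepE G o f hf r h0 m1 hr0, Finset.mul_sum]
    refine Finset.sum_le_sum fun x _ => ?_
    exact diag_stepD G hG o f hf r h0 m1 hr hr0 hr2 C2 κ T hC2 hκ hT W2 x
  refine s3.trans ?_
  rw [diag_avF_mul, diag_avF_sum, mul_comm (2 * H1) c]
  refine mul_le_mul_of_nonneg_left ?_ hc0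
  have s4 : ∀ h ∈ range (h0 + m1 + 1),
      avF G (univ.erase o) (fun f => r h * (cnt (univ.erase o) o h f : ℝ)) ≤ H1 * r h := by
    intro h hh
    rw [diag_avF_mul, mul_comm]
    exact mul_le_mul_of_nonneg_right (hH1 h (by have := Finset.mem_range.1 hh; omega)) (hr h)
  refine (Finset.sum_le_sum s4).trans ?_
  rw [← Finset.mul_sum, mul_comm 2 H1]
  exact mul_le_mul_of_nonneg_left hr2 hH1'

end HP192
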