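import Mathlib
import Pool.Agent.Helper192_HP.TDefs
import Pool.Agent.Helper192_HP.T01
import Pool.Agent.Helper192_HP.T02
import Pool.Agent.Helper192_HP.T03

namespace HP192
open Finset

variable {V : Type} [Fintype V] [DecidableEq V]

theorem aux_o_mem_skl (G : SimpleGraph V) (o : V) (f : V → V) (hf : f ∈ For G (univ.erase o))
    (u x : V) : o ∈ skl f {u, x} := by
  unfold skl
  rw [mem_biUnion]
  exact ⟨u, by simp, root_mem_pth G o f hf u⟩

theorem aux_self_mem_pth (f : V → V) (u : V) : u ∈ pth f u := by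
  unfold pth
  rw [mem_image]
  exact ⟨0, by simp, rfl⟩

theorem aux_u_mem_skl (f : V → V) (u x : V) : u ∈ skl f {u, x} := by
  unfold skl
  rw [mem_biUnion]
  exact ⟨u, by simp, aux_self_mem_pth f u⟩

theorem aux_dsc_iff (o : V) (f : V → V) (u x : V) :
    Dsc o f u x ↔ ht o f u ≤ ht o f x ∧ anc o f x (ht o f u) = u := by
  unfold Dsc anc
  constructor
  · rintro ⟨j, h1, h2⟩
    refine ⟨by omega, ?_⟩
    have : ht o f x - ht o f u = j := by omega
    rw [this]
    exact h1
  · rintro ⟨h1, h2⟩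
    exact ⟨ht o f x - ht o f u, h2, by omega⟩

theorem aux_Nd_eq (G : SimpleGraph V) (o : V) (f : V → V) (hf : f ∈ For G (univ.erase o))
    (u x : V) (m : ℕ) (hx : ¬ Dsc o f u x) :
    Nd o f u m = cnt (skl f {u, x})ᶜ u m f := by
  unfold Nd cnt
  congr 1
  ext y
  simp only [mem_filter, mem_univ, true_and, mem_compl]
  constructor
  · rintro ⟨h1, h2⟩
    refine ⟨h1, fun i hi hmem => ?_⟩
    have hti : ht o f (f^[i] y) = ht o f y - i := ht_iter G o f hf y i (by omega)
    unfold skl at hmem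
    rw [mem_biUnion] at hmem
    obtain ⟨w, hw, hmem⟩ := hmem
    rw [mem_insert, mem_singleton] at hw
    rcases hw with rfl | rfl
    · obtain ⟨j, hj, hj2⟩ := (mem_pth G o f hf _ _).1 hmem
      have h3 := ht_anc G o f hf w j hj
      rw [← hj2, hti] at h3
      omega
    · obtain ⟨j, hj, hj2⟩ := (mem_pth G o f hf _ _).1 hmem
      have h3 := ht_anc G o f hf w j hj
      rw [← hj2, hti] at h3
      apply hx
      refine ⟨(m - i) + (ht o f w - j), ?_, by omega⟩
      have h4 : f^[m] y = f^[m - i] (f^[i] y) := by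
        rw [← Function.iterate_add_apply]
        congr 2
        omega
      rw [Function.iterate_add_apply]
      unfold anc at hj2
      rw [← hj2, ← h4, h1]
  · rintro ⟨h1, h2⟩
    refine ⟨h1, ?_⟩
    have hm : m ≤ ht o f y := by
      by_contra hlt
      push Not at hlt
      apply h2 _ hlt
      rw [iter_ht G o f hf y]
      exact aux_o_mem_skl G o f hf u x
    have h3 := ht_iter G o f hf y m hm
    rw [h1] at h3
    omega

theorem aux_avF_sum (G : SimpleGraph V) (D : Finset V) (F : V → V → (V → V) → ℝ) :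
    avF G D (fun f => ∑ u, ∑ x, F u x f) = ∑ u, ∑ x, avF G D (F u x) := by
  unfold avF
  rw [Finset.sum_comm, Finset.sum_div]
  refine Finset.sum_congr rfl fun u _ => ?_
  rw [Finset.sum_comm, Finset.sum_div]

theorem aux_avF_congr (G : SimpleGraph V) (D : Finset V) (F F' : (V → V) → ℝ)
    (h : ∀ f ∈ For G D, F f = F' f) : avF G D F = avF G D F' := by
  unfold avF
  rw [Finset.sum_congr rfl h]

open Classical in
theorem aux_ind (o : V) (f : V → V) (h0 : ℕ) (c : V → ℝ) (F : V → V → ℝ) :
    ∑ u ∈ univ.filter (fun u => ht o f u = h0),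
        ∑ x ∈ univ.filter (fun x => ¬ Dsc o f u x), c x * F u x =
      ∑ u, ∑ x, (if ht o f u = h0 ∧ ¬ Dsc o f u x then c x else 0) * F u x := by
  rw [Finset.sum_filter]
  refine Finset.sum_congr rfl fun u _ => ?_
  by_cases h1 : ht o f u = h0
  · rw [if_pos h1, Finset.sum_filter]
    refine Finset.sum_congr rfl fun x _ => ?_
    by_cases h2 : Dsc o f u x
    · rw [if_neg (by simpa using h2), if_neg (fun h => h.2 h2), zero_mul]
    · rw [if_pos h2, if_pos ⟨h1, h2⟩]
  · rw [if_neg h1]
    symm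
    refine Finset.sum_eq_zero fun x _ => ?_
    rw [if_neg (fun h => h1 h.1), zero_mul]

open Classical in
/-- TARGET -/
theorem off_id (G : SimpleGraph V) (hG : G.Connected) (o : V) (b : ℕ → ℝ) (h0 m : ℕ) :
    avF G (univ.erase o) (fun f => ∑ u ∈ univ.filter (fun u => ht o f u = h0),
        ∑ x ∈ univ.filter (fun x => ¬ Dsc o f u x), b (ht o f x) * (Nd o f u m : ℝ))
      = avF G (univ.erase o) (fun f => ∑ u ∈ univ.filter (fun u => ht o f u = h0),
        ∑ x ∈ univ.filter (fun x => ¬ Dsc o f u x),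
          b (ht o f x) * Am G (skl f {u, x})ᶜ u m) := by
  classical
  set D := univ.erase o with hD
  have e1 : avF G D (fun f => ∑ u ∈ univ.filter (fun u => ht o f u = h0),
        ∑ x ∈ univ.filter (fun x => ¬ Dsc o f u x), b (ht o f x) * (Nd o f u m : ℝ)) =
      avF G D (fun f => ∑ u, ∑ x,
        (if ht o f u = h0 ∧ ¬ Dsc o f u x then b (ht o f x) else 0) *
          (cnt (skl f {u, x})ᶜ u m f : ℝ)) := by
    refine aux_avF_congr G D _ _ fun f hf => ?_
    rw [← aux_ind o f h0 (fun x => b (ht o f x)) (fun u x => (cnt (skl f {u, x})ᶜ u m f : ℝ))]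
    refine Finset.sum_congr rfl fun u _ => Finset.sum_congr rfl fun x hx => ?_
    rw [mem_filter] at hx
    rw [aux_Nd_eq G o f hf u x m hx.2]
  have e2 : avF G D (fun f => ∑ u ∈ univ.filter (fun u => ht o f u = h0),
        ∑ x ∈ univ.filter (fun x => ¬ Dsc o f u x),
          b (ht o f x) * Am G (skl f {u, x})ᶜ u m) =
      avF G D (fun f => ∑ u, ∑ x,
        (if ht o f u = h0 ∧ ¬ Dsc o f u x then b (ht o f x) else 0) *
          Am G (skl f {u, x})ᶜ u m) := by
    refine aux_avF_congr G D _ _ fun f hf => ?_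
    rw [← aux_ind o f h0 (fun x => b (ht o f x)) (fun u x => Am G (skl f {u, x})ᶜ u m)]
  rw [e1, e2]
  rw [aux_avF_sum G D (fun u x f => (if ht o f u = h0 ∧ ¬ Dsc o f u x then b (ht o f x) else 0) *
          (cnt (skl f {u, x})ᶜ u m f : ℝ)),
    aux_avF_sum G D (fun u x f => (if ht o f u = h0 ∧ ¬ Dsc o f u x then b (ht o f x) else 0) *
          Am G (skl f {u, x})ᶜ u m)]
  refine Finset.sum_congr rfl fun u _ => Finset.sum_congr rfl fun x _ => ?_
  refine ss G hG o {u, x} (by simp)
    (fun f => if ht o f u = h0 ∧ ¬ Dsc o f u x then b (ht o f x) else 0)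
    (fun _ => u) (fun _ => m) ?_ ?_
  · intro f hf f' hf' hff
    refine ⟨?_, rfl, rfl⟩
    have hu : ∀ y ∈ pth f u, f' y = f y := by
      intro y hy
      apply hff
      unfold skl
      rw [mem_biUnion]
      exact ⟨u, by simp, hy⟩
    have hx : ∀ y ∈ pth f x, f' y = f y := by
      intro y hy
      apply hff
      unfold skl
      rw [mem_biUnion]
      exact ⟨x, by simp, hy⟩
    obtain ⟨_, hu1, hu2⟩ := local_pth G o f f' hf hf' u hu
    obtain ⟨_, hx1, hx2⟩ := local_pth G o f f' hf hf' x hx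
    have hd : Dsc o f' u x ↔ Dsc o f u x := by
      rw [aux_dsc_iff, aux_dsc_iff, hu1, hx1, hx2]
    simp only [hu1, hx1, hd]
  · intro f _ _
    exact aux_u_mem_skl f u x

end HP192
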