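import Mathlib
import Pool.Agent.Helper192_HP.TDefs
import Pool.Agent.Helper192_HP.T01
import Pool.Agent.Helper192_HP.T02
import Pool.Agent.Helper192_HP.T07

namespace HP192
open Finset

variable {V : Type} [Fintype V] [DecidableEq V]

/-! own lemmas -/

theorem ob_avF_congr (G : SimpleGraph V) (D : Finset V) (F F' : (V → V) → ℝ)
    (h : ∀ f ∈ For G D, F f = F' f) : avF G D F = avF G D F' := by
  unfold avF
  rw [Finset.sum_congr rfl h]

theorem ob_avF_mono (G : SimpleGraph V) (D : Finset V) (F F' : (V → V) → ℝ)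
    (h : ∀ f ∈ For G D, F f ≤ F' f) : avF G D F ≤ avF G D F' := by
  unfold avF
  exact div_le_div_of_nonneg_right (Finset.sum_le_sum h) (Nat.cast_nonneg _)

theorem ob_avF_add (G : SimpleGraph V) (D : Finset V) (F F' : (V → V) → ℝ) :
    avF G D (fun f => F f + F' f) = avF G D F + avF G D F' := by
  unfold avF
  rw [Finset.sum_add_distrib, add_div]

theorem ob_avF_mul (G : SimpleGraph V) (D : Finset V) (c : ℝ) (F : (V → V) → ℝ) :
    avF G D (fun f => c * F f) = c * avF G D F := by
  unfold avF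
  rw [← Finset.mul_sum, mul_div_assoc]

theorem ob_avF_sum {ι : Type} (G : SimpleGraph V) (D : Finset V) (s : Finset ι)
    (F : ι → (V → V) → ℝ) :
    avF G D (fun f => ∑ i ∈ s, F i f) = ∑ i ∈ s, avF G D (F i) := by
  unfold avF
  rw [Finset.sum_comm, Finset.sum_div]

theorem ob_avF_nonneg (G : SimpleGraph V) (D : Finset V) (F : (V → V) → ℝ)
    (h : ∀ f, 0 ≤ F f) : 0 ≤ avF G D F := by
  unfold avF
  exact div_nonneg (Finset.sum_nonneg fun f _ => h f) (Nat.cast_nonneg _)

theorem ob_sum_ht (o : V) (f : V → V) (r : ℕ → ℝ) (n : ℕ) (hr : ∀ h, r h ≠ 0 → h ≤ n) :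
    ∑ x : V, r (ht o f x) =
      ∑ h ∈ range (n + 1), r h * ((univ.filter (fun v => ht o f v = h)).card : ℝ) := by
  have h1 : ∀ x : V, r (ht o f x) = ∑ h ∈ range (n + 1), (if ht o f x = h then r h else 0) := by
    intro x
    rw [Finset.sum_ite_eq]
    split_ifs with h
    · rfl
    · by_contra hne
      exact h (mem_range.2 (Nat.lt_succ_of_le (hr _ hne)))
  simp only [h1]
  rw [Finset.sum_comm]
  refine Finset.sum_congr rfl fun h _ => ?_
  rw [← Finset.sum_filter, Finset.sum_const, nsmul_eq_mul, mul_comm]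

open Classical in
theorem ob_Nd (o : V) (f : V → V) (h0 n : ℕ) :
    ∑ u ∈ univ.filter (fun u => ht o f u = h0), ∑ m ∈ range n, (Nd o f u m : ℝ) ≤
      (Fintype.card V : ℝ) := by
  have h1 : ∀ u m, (Nd o f u m : ℝ) =
      ∑ x : V, (if f^[m] x = u ∧ ht o f x = ht o f u + m then (1 : ℝ) else 0) := by
    intro u m
    unfold Nd
    rw [Finset.card_filter]
    push_cast
    refine Finset.sum_congr rfl fun x _ => ?_
    by_cases h : f^[m] x = u ∧ ht o f x = ht o f u + m
    · simp [h]
    · rw [if_neg h]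
  simp only [h1]
  have h2 : ∑ u ∈ univ.filter (fun u => ht o f u = h0), ∑ m ∈ range n,
      ∑ x : V, (if f^[m] x = u ∧ ht o f x = ht o f u + m then (1 : ℝ) else 0) =
      ∑ x : V, ∑ u ∈ univ.filter (fun u => ht o f u = h0), ∑ m ∈ range n,
        (if f^[m] x = u ∧ ht o f x = ht o f u + m then (1 : ℝ) else 0) := by
    rw [Finset.sum_comm' (s := univ) (t := fun _ => univ.filter (fun u => ht o f u = h0))
      (t' := univ.filter (fun u => ht o f u = h0)) (s' := fun _ => univ) (by simp)]
    refine Finset.sum_congr rfl fun u _ => ?_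
    rw [Finset.sum_comm]
  rw [h2]
  have h3 : ∀ x : V, ∑ u ∈ univ.filter (fun u => ht o f u = h0), ∑ m ∈ range n,
        (if f^[m] x = u ∧ ht o f x = ht o f u + m then (1 : ℝ) else 0) ≤ 1 := by
    intro x
    rw [← Finset.sum_product', ← Finset.sum_filter, Finset.sum_const, nsmul_eq_mul, mul_one]
    have : (((univ.filter (fun u => ht o f u = h0)) ×ˢ range n).filter
        (fun p : V × ℕ => f^[p.2] x = p.1 ∧ ht o f x = ht o f p.1 + p.2)).card ≤ 1 := by
      rw [Finset.card_le_one]
      rintro ⟨u, m⟩ h ⟨u', m'⟩ h'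
      rw [mem_filter, mem_product, mem_filter] at h h'
      have e1 : ht o f u = h0 := h.1.1.2
      have e2 : ht o f u' = h0 := h'.1.1.2
      have e3 : ht o f x = ht o f u + m := h.2.2
      have e4 : ht o f x = ht o f u' + m' := h'.2.2
      have e5 : m = m' := by omega
      subst e5
      have e6 : f^[m] x = u := h.2.1
      have e7 : f^[m] x = u' := h'.2.1
      rw [← e6, ← e7]
    exact_mod_cast this
  refine (Finset.sum_le_sum fun x _ => h3 x).trans (le_of_eq ?_)
  simp

open Classical in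
/-- TARGET -/
theorem off_bound (G : SimpleGraph V) (hG : G.Connected) (o : V) (ρ r : ℕ → ℝ) (h0 m1 : ℕ)
    (hρ : ∀ h, |ρ h| ≤ r h) (hr0 : ∀ h, r h ≠ 0 → h0 ≤ h ∧ h ≤ h0 + m1)
    (hr2 : ∑ h ∈ range (h0 + m1 + 1), r h ≤ 2)
    (κ T Φ H1 H2 : ℝ) (hκ : 0 ≤ κ) (hT : 0 < T) (hΦ : 0 ≤ Φ)
    (hH1 : ∀ k ≤ h0 + m1, Am G (univ.erase o) o k ≤ H1)
    (hH2 : ∀ k ≤ h0 + m1, avF G (univ.erase o) (fun f =>
      (cnt (univ.erase o) o h0 f : ℝ) * (cnt (univ.erase o) o k f : ℝ)) ≤ H2)
    (Diff : ∀ (D : Finset V) (u : V), u ∉ D → (Dᶜ).card ≤ 2 * (h0 + m1 + 1) →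
      |∑ m ∈ range (m1 + 1), ρ (h0 + m) * Am G D u m| ≤ Φ + κ * (Bm G D u / T)) :
    avF G (univ.erase o) (fun f => ∑ u ∈ univ.filter (fun u => ht o f u = h0),
        (∑ m ∈ range (m1 + 1), ρ (h0 + m) * (Nd o f u m : ℝ))
          * ∑ x ∈ univ.filter (fun x => ¬ Dsc o f u x), ρ (ht o f x))
      ≤ Φ * (2 * H2) + κ * ((Fintype.card V : ℝ) / T) * (2 * H1) := by
  obtain ⟨E, hE⟩ : ∃ E : Finset V, E = univ.erase o := ⟨_, rfl⟩
  rw [← hE] at hH1 hH2 ⊢
  have hr0' : ∀ h, 0 ≤ r h := fun h => (abs_nonneg _).trans (hρ h)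
  have hrn : ∀ h, r h ≠ 0 → h ≤ h0 + m1 := fun h hh => (hr0 h hh).2
  have hH1' : 0 ≤ H1 := by
    refine le_trans ?_ (hH1 0 (Nat.zero_le _))
    unfold Am
    exact ob_avF_nonneg G E _ fun f => Nat.cast_nonneg _
  have hH2' : 0 ≤ H2 := by
    refine le_trans ?_ (hH2 0 (Nat.zero_le _))
    exact ob_avF_nonneg G E _ fun f => mul_nonneg (Nat.cast_nonneg _) (Nat.cast_nonneg _)
  -- step 1: linearity and off_id
  have s1 : avF G E (fun f => ∑ u ∈ univ.filter (fun u => ht o f u = h0),
        (∑ m ∈ range (m1 + 1), ρ (h0 + m) * (Nd o f u m : ℝ))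
          * ∑ x ∈ univ.filter (fun x => ¬ Dsc o f u x), ρ (ht o f x)) =
      avF G E (fun f => ∑ u ∈ univ.filter (fun u => ht o f u = h0),
        ∑ x ∈ univ.filter (fun x => ¬ Dsc o f u x), ρ (ht o f x) *
          ∑ m ∈ range (m1 + 1), ρ (h0 + m) * Am G (skl f {u, x})ᶜ u m) := by
    have e1 : ∀ f : V → V, ∑ u ∈ univ.filter (fun u => ht o f u = h0),
        (∑ m ∈ range (m1 + 1), ρ (h0 + m) * (Nd o f u m : ℝ))
          * ∑ x ∈ univ.filter (fun x => ¬ Dsc o f u x), ρ (ht o f x) =
        ∑ m ∈ range (m1 + 1), ρ (h0 + m) * ∑ u ∈ univ.filter (fun u => ht o f u = h0),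
          ∑ x ∈ univ.filter (fun x => ¬ Dsc o f u x), ρ (ht o f x) * (Nd o f u m : ℝ) := by
      intro f
      have q1 : ∀ u, (∑ m ∈ range (m1 + 1), ρ (h0 + m) * (Nd o f u m : ℝ))
          * ∑ x ∈ univ.filter (fun x => ¬ Dsc o f u x), ρ (ht o f x) =
          ∑ m ∈ range (m1 + 1), ρ (h0 + m) *
            ∑ x ∈ univ.filter (fun x => ¬ Dsc o f u x), ρ (ht o f x) * (Nd o f u m : ℝ) := by
        intro u
        rw [Finset.sum_mul]
        refine Finset.sum_congr rfl fun m _ => ?_
        rw [← Finset.sum_mul]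
        ring
      simp only [q1]
      rw [Finset.sum_comm]
      refine Finset.sum_congr rfl fun m _ => ?_
      rw [Finset.mul_sum]
    have e2 : ∀ f : V → V, ∑ u ∈ univ.filter (fun u => ht o f u = h0),
        ∑ x ∈ univ.filter (fun x => ¬ Dsc o f u x), ρ (ht o f x) *
          ∑ m ∈ range (m1 + 1), ρ (h0 + m) * Am G (skl f {u, x})ᶜ u m =
        ∑ m ∈ range (m1 + 1), ρ (h0 + m) * ∑ u ∈ univ.filter (fun u => ht o f u = h0),
          ∑ x ∈ univ.filter (fun x => ¬ Dsc o f u x),
            ρ (ht o f x) * Am G (skl f {u, x})ᶜ u m := by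
      intro f
      have q1 : ∀ u, ∑ x ∈ univ.filter (fun x => ¬ Dsc o f u x), ρ (ht o f x) *
          ∑ m ∈ range (m1 + 1), ρ (h0 + m) * Am G (skl f {u, x})ᶜ u m =
          ∑ m ∈ range (m1 + 1), ρ (h0 + m) * ∑ x ∈ univ.filter (fun x => ¬ Dsc o f u x),
            ρ (ht o f x) * Am G (skl f {u, x})ᶜ u m := by
        intro u
        have q2 : ∀ x, ρ (ht o f x) * ∑ m ∈ range (m1 + 1), ρ (h0 + m) *
            Am G (skl f {u, x})ᶜ u m = ∑ m ∈ range (m1 + 1), ρ (h0 + m) *
            (ρ (ht o f x) * Am G (skl f {u, x})ᶜ u m) := by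
          intro x
          rw [Finset.mul_sum]
          refine Finset.sum_congr rfl fun m _ => ?_
          ring
        simp only [q2]
        rw [Finset.sum_comm]
        refine Finset.sum_congr rfl fun m _ => ?_
        rw [Finset.mul_sum]
      simp only [q1]
      rw [Finset.sum_comm]
      refine Finset.sum_congr rfl fun m _ => ?_
      rw [Finset.mul_sum]
    simp only [e1, e2]
    rw [ob_avF_sum, ob_avF_sum]
    refine Finset.sum_congr rfl fun m _ => ?_
    rw [ob_avF_mul, ob_avF_mul, hE, off_id G hG o ρ h0 m]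
  rw [s1]
  -- step 2: termwise bound
  have s2 : avF G E (fun f => ∑ u ∈ univ.filter (fun u => ht o f u = h0),
        ∑ x ∈ univ.filter (fun x => ¬ Dsc o f u x), ρ (ht o f x) *
          ∑ m ∈ range (m1 + 1), ρ (h0 + m) * Am G (skl f {u, x})ᶜ u m) ≤
      avF G E (fun f => ∑ u ∈ univ.filter (fun u => ht o f u = h0),
        ∑ x ∈ univ.filter (fun x => ¬ Dsc o f u x), r (ht o f x) *
          (Φ + κ * (Bm G (skl f {u, x})ᶜ u / T))) := by
    refine ob_avF_mono G E _ _ fun f hf => ?_
    rw [hE] at hf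
    refine Finset.sum_le_sum fun u hu => Finset.sum_le_sum fun x hx => ?_
    have hu' : ht o f u = h0 := (mem_filter.1 hu).2
    by_cases hz : r (ht o f x) = 0
    · have h1 := hρ (ht o f x)
      rw [hz] at h1
      have h2 : ρ (ht o f x) = 0 := abs_eq_zero.1 (le_antisymm h1 (abs_nonneg _))
      rw [h2, hz, zero_mul, zero_mul]
    · have hx' := hrn _ hz
      have hself : ∀ v : V, v ∈ pth f v := by
        intro v
        unfold pth
        exact mem_image.2 ⟨0, mem_range.2 (Nat.succ_pos _), rfl⟩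
      have h1 := Diff (skl f {u, x})ᶜ u (by
        rw [mem_compl, not_not]
        unfold skl
        exact mem_biUnion.2 ⟨u, by simp, hself u⟩) (by
        rw [compl_compl]
        have h3 : (skl f {u, x}) ⊆ pth f u ∪ pth f x := by
          unfold skl
          intro y hy
          obtain ⟨w, hw, hyw⟩ := mem_biUnion.1 hy
          rcases mem_insert.1 hw with rfl | hw
          · exact mem_union_left _ hyw
          · rw [mem_singleton] at hw
            subst hw
            exact mem_union_right _ hyw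
        have h4 := card_le_card h3
        have h5 := card_union_le (pth f u) (pth f x)
        rw [card_pth G o f hf u, card_pth G o f hf x, hu'] at h5
        omega)
      calc ρ (ht o f x) * ∑ m ∈ range (m1 + 1), ρ (h0 + m) * Am G (skl f {u, x})ᶜ u m
          ≤ |ρ (ht o f x) * ∑ m ∈ range (m1 + 1), ρ (h0 + m) * Am G (skl f {u, x})ᶜ u m| :=
            le_abs_self _
        _ = |ρ (ht o f x)| * |∑ m ∈ range (m1 + 1), ρ (h0 + m) *
              Am G (skl f {u, x})ᶜ u m| := abs_mul _ _
        _ ≤ _ := mul_le_mul (hρ _) h1 (abs_nonneg _) (hr0' _)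
  refine s2.trans ?_
  -- step 3: split
  have s3 : avF G E (fun f => ∑ u ∈ univ.filter (fun u => ht o f u = h0),
        ∑ x ∈ univ.filter (fun x => ¬ Dsc o f u x), r (ht o f x) *
          (Φ + κ * (Bm G (skl f {u, x})ᶜ u / T))) =
      Φ * avF G E (fun f => ∑ u ∈ univ.filter (fun u => ht o f u = h0),
        ∑ x ∈ univ.filter (fun x => ¬ Dsc o f u x), r (ht o f x)) +
      κ / T * avF G E (fun f => ∑ u ∈ univ.filter (fun u => ht o f u = h0),
        ∑ x ∈ univ.filter (fun x => ¬ Dsc o f u x), r (ht o f x) *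
          Bm G (skl f {u, x})ᶜ u) := by
    rw [← ob_avF_mul, ← ob_avF_mul, ← ob_avF_add]
    refine ob_avF_congr G E _ _ fun f _ => ?_
    rw [Finset.mul_sum, Finset.mul_sum, ← Finset.sum_add_distrib]
    refine Finset.sum_congr rfl fun u _ => ?_
    rw [Finset.mul_sum, Finset.mul_sum, ← Finset.sum_add_distrib]
    refine Finset.sum_congr rfl fun x _ => ?_
    ring
  rw [s3]
  -- the sum over all x
  have hsx : ∀ f : V → V, f ∈ For G E → ∑ x : V, r (ht o f x) =
      ∑ h ∈ range (h0 + m1 + 1), r h * (cnt E o h f : ℝ) := by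
    intro f hf
    rw [ob_sum_ht o f r (h0 + m1) hrn]
    refine Finset.sum_congr rfl fun h _ => ?_
    rw [hE] at hf ⊢
    rw [card_ht G o f hf h]
  have hsub : ∀ (f : V → V) (u : V), ∑ x ∈ univ.filter (fun x => ¬ Dsc o f u x), r (ht o f x) ≤
      ∑ x : V, r (ht o f x) := by
    intro f u
    exact Finset.sum_le_sum_of_subset_of_nonneg (filter_subset _ _) fun x _ _ => hr0' _
  have hsx0 : ∀ f : V → V, 0 ≤ ∑ x : V, r (ht o f x) := fun f =>
    Finset.sum_nonneg fun x _ => hr0' _
  -- first part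
  have p1 : avF G E (fun f => ∑ u ∈ univ.filter (fun u => ht o f u = h0),
        ∑ x ∈ univ.filter (fun x => ¬ Dsc o f u x), r (ht o f x)) ≤ 2 * H2 := by
    calc avF G E (fun f => ∑ u ∈ univ.filter (fun u => ht o f u = h0),
        ∑ x ∈ univ.filter (fun x => ¬ Dsc o f u x), r (ht o f x))
        ≤ avF G E (fun f => ∑ h ∈ range (h0 + m1 + 1), r h *
            ((cnt E o h0 f : ℝ) * (cnt E o h f : ℝ))) := by
          refine ob_avF_mono G E _ _ fun f hf => ?_
          refine (Finset.sum_le_sum fun u _ => hsub f u).trans (le_of_eq ?_)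
          rw [Finset.sum_const, nsmul_eq_mul, hsx f hf, Finset.mul_sum]
          have hf' := hf
          rw [hE] at hf'
          have h1 := card_ht G o f hf' h0
          rw [← hE] at h1
          refine Finset.sum_congr rfl fun h _ => ?_
          rw [h1]
          ring
      _ = ∑ h ∈ range (h0 + m1 + 1), r h * avF G E (fun f =>
            (cnt E o h0 f : ℝ) * (cnt E o h f : ℝ)) := by
          rw [ob_avF_sum]
          refine Finset.sum_congr rfl fun h _ => ?_
          rw [ob_avF_mul]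
      _ ≤ ∑ h ∈ range (h0 + m1 + 1), r h * H2 := by
          refine Finset.sum_le_sum fun h hh => ?_
          exact mul_le_mul_of_nonneg_left (hH2 h (Nat.le_of_lt_succ (mem_range.1 hh))) (hr0' h)
      _ = (∑ h ∈ range (h0 + m1 + 1), r h) * H2 := by rw [Finset.sum_mul]
      _ ≤ 2 * H2 := mul_le_mul_of_nonneg_right hr2 hH2'
  -- second part
  have p2 : avF G E (fun f => ∑ u ∈ univ.filter (fun u => ht o f u = h0),
        ∑ x ∈ univ.filter (fun x => ¬ Dsc o f u x), r (ht o f x) *
          Bm G (skl f {u, x})ᶜ u) ≤ (Fintype.card V : ℝ) * (2 * H1) := by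
    have e1 : ∀ f : V → V, ∑ u ∈ univ.filter (fun u => ht o f u = h0),
        ∑ x ∈ univ.filter (fun x => ¬ Dsc o f u x), r (ht o f x) *
          Bm G (skl f {u, x})ᶜ u =
        ∑ m ∈ range (Fintype.card V), ∑ u ∈ univ.filter (fun u => ht o f u = h0),
          ∑ x ∈ univ.filter (fun x => ¬ Dsc o f u x),
            r (ht o f x) * Am G (skl f {u, x})ᶜ u m := by
      intro f
      rw [Finset.sum_comm]
      refine Finset.sum_congr rfl fun u _ => ?_
      rw [Finset.sum_comm]
      refine Finset.sum_congr rfl fun x _ => ?_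
      unfold Bm
      rw [Finset.mul_sum]
    have e2 : ∀ f : V → V, ∑ m ∈ range (Fintype.card V),
          ∑ u ∈ univ.filter (fun u => ht o f u = h0),
          ∑ x ∈ univ.filter (fun x => ¬ Dsc o f u x), r (ht o f x) * (Nd o f u m : ℝ) =
        ∑ u ∈ univ.filter (fun u => ht o f u = h0),
          (∑ x ∈ univ.filter (fun x => ¬ Dsc o f u x), r (ht o f x)) *
          ∑ m ∈ range (Fintype.card V), (Nd o f u m : ℝ) := by
      intro f
      rw [Finset.sum_comm]
      refine Finset.sum_congr rfl fun u _ => ?_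
      rw [Finset.mul_sum]
      refine Finset.sum_congr rfl fun m _ => ?_
      rw [Finset.sum_mul]
    calc avF G E (fun f => ∑ u ∈ univ.filter (fun u => ht o f u = h0),
        ∑ x ∈ univ.filter (fun x => ¬ Dsc o f u x), r (ht o f x) *
          Bm G (skl f {u, x})ᶜ u)
        = ∑ m ∈ range (Fintype.card V), avF G E (fun f =>
            ∑ u ∈ univ.filter (fun u => ht o f u = h0),
            ∑ x ∈ univ.filter (fun x => ¬ Dsc o f u x),
              r (ht o f x) * Am G (skl f {u, x})ᶜ u m) := by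
          simp only [e1]
          rw [ob_avF_sum]
      _ = ∑ m ∈ range (Fintype.card V), avF G E (fun f =>
            ∑ u ∈ univ.filter (fun u => ht o f u = h0),
            ∑ x ∈ univ.filter (fun x => ¬ Dsc o f u x),
              r (ht o f x) * (Nd o f u m : ℝ)) := by
          refine Finset.sum_congr rfl fun m _ => ?_
          rw [hE, off_id G hG o r h0 m]
      _ = avF G E (fun f => ∑ u ∈ univ.filter (fun u => ht o f u = h0),
          (∑ x ∈ univ.filter (fun x => ¬ Dsc o f u x), r (ht o f x)) *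
          ∑ m ∈ range (Fintype.card V), (Nd o f u m : ℝ)) := by
          rw [← ob_avF_sum]
          simp only [e2]
      _ ≤ avF G E (fun f => (Fintype.card V : ℝ) *
            ∑ h ∈ range (h0 + m1 + 1), r h * (cnt E o h f : ℝ)) := by
          refine ob_avF_mono G E _ _ fun f hf => ?_
          rw [← hsx f hf]
          have q1 : ∑ u ∈ univ.filter (fun u => ht o f u = h0),
              (∑ x ∈ univ.filter (fun x => ¬ Dsc o f u x), r (ht o f x)) *
              ∑ m ∈ range (Fintype.card V), (Nd o f u m : ℝ) ≤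
              ∑ u ∈ univ.filter (fun u => ht o f u = h0),
              (∑ x : V, r (ht o f x)) * ∑ m ∈ range (Fintype.card V), (Nd o f u m : ℝ) :=
            Finset.sum_le_sum fun u _ => mul_le_mul_of_nonneg_right (hsub f u)
              (Finset.sum_nonneg fun m _ => Nat.cast_nonneg _)
          refine q1.trans ?_
          rw [← Finset.mul_sum, mul_comm]
          exact mul_le_mul_of_nonneg_right (ob_Nd o f h0 (Fintype.card V)) (hsx0 f)
      _ = (Fintype.card V : ℝ) * ∑ h ∈ range (h0 + m1 + 1), r h * Am G E o h := by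
          rw [ob_avF_mul, ob_avF_sum]
          congr 1
          refine Finset.sum_congr rfl fun h _ => ?_
          rw [ob_avF_mul]
          rfl
      _ ≤ (Fintype.card V : ℝ) * (2 * H1) := by
          refine mul_le_mul_of_nonneg_left ?_ (Nat.cast_nonneg _)
          calc ∑ h ∈ range (h0 + m1 + 1), r h * Am G E o h
              ≤ ∑ h ∈ range (h0 + m1 + 1), r h * H1 :=
                Finset.sum_le_sum fun h hh => mul_le_mul_of_nonneg_left
                  (hH1 h (Nat.le_of_lt_succ (mem_range.1 hh))) (hr0' h)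
            _ = (∑ h ∈ range (h0 + m1 + 1), r h) * H1 := by rw [Finset.sum_mul]
            _ ≤ 2 * H1 := mul_le_mul_of_nonneg_right hr2 hH1'
  have h7 : κ * ((Fintype.card V : ℝ) / T) * (2 * H1) =
      κ / T * ((Fintype.card V : ℝ) * (2 * H1)) := by ring
  rw [h7]
  exact add_le_add (mul_le_mul_of_nonneg_left p1 hΦ)
    (mul_le_mul_of_nonneg_left p2 (div_nonneg hκ hT.le))

end HP192
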