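import Mathlib
import Pool.Agent.Helper192_HP.TDefs
import Pool.Agent.Helper192_HP.T01
import Pool.Agent.Helper192_HP.T02
import Pool.Agent.Helper192_HP.T05
import Pool.Agent.Helper192_HP.T06
import Pool.Agent.Helper192_HP.T08

namespace HP192
open Finset

variable {V : Type} [Fintype V] [DecidableEq V]

/-! ### helper lemmas for the TARGET -/

open Classical in
theorem T_desc (G : SimpleGraph V) (o : V) (f : V → V) (hf : f ∈ For G (univ.erase o))
    (ρ : ℕ → ℝ) (h0 m1 : ℕ) (hz : ∀ h, h0 + m1 < h → ρ h = 0) (u : V) (hu : ht o f u = h0) :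
    ∑ m ∈ range (m1 + 1), ρ (h0 + m) * (Nd o f u m : ℝ) =
      ∑ x ∈ univ.filter (fun x => Dsc o f u x), ρ (ht o f x) := by
  have h1 : ∀ m ∈ range (m1 + 1), ρ (h0 + m) * (Nd o f u m : ℝ) =
      ∑ x : V, if f^[m] x = u ∧ ht o f x = h0 + m then ρ (ht o f x) else 0 := by
    intro m _
    unfold Nd
    rw [hu, ← Finset.sum_filter]
    have h2 : ∀ x ∈ univ.filter (fun x => f^[m] x = u ∧ ht o f x = h0 + m),
        ρ (ht o f x) = ρ (h0 + m) := by
      intro x hx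
      rw [(Finset.mem_filter.1 hx).2.2]
    rw [Finset.sum_congr rfl h2, Finset.sum_const, nsmul_eq_mul, mul_comm]
  rw [Finset.sum_congr rfl h1, Finset.sum_comm, Finset.sum_filter]
  refine Finset.sum_congr rfl fun x _ => ?_
  by_cases hx : Dsc o f u x
  · rw [if_pos hx]
    obtain ⟨j, hj1, hj2⟩ := hx
    rw [hu] at hj2
    by_cases hj : j ≤ m1
    · rw [Finset.sum_eq_single j]
      · rw [if_pos ⟨hj1, hj2⟩]
      · intro m _ hm
        rw [if_neg]
        rintro ⟨_, h⟩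
        omega
      · intro h
        exact absurd (Finset.mem_range.2 (by omega)) h
    · have h3 : ρ (ht o f x) = 0 := hz _ (by omega)
      rw [h3]
      simp
  · rw [if_neg hx]
    refine Finset.sum_eq_zero fun m _ => ?_
    rw [if_neg]
    rintro ⟨h, h'⟩
    exact hx ⟨m, h, by rw [hu]; exact h'⟩

open Classical in
theorem T_total (G : SimpleGraph V) (o : V) (f : V → V) (hf : f ∈ For G (univ.erase o))
    (ρ : ℕ → ℝ) (h0 m1 : ℕ) (hz : ∀ h, h < h0 → ρ h = 0) :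
    ∑ u ∈ univ.filter (fun u => ht o f u = h0),
      ∑ x ∈ univ.filter (fun x => Dsc o f u x), ρ (ht o f x) = ∑ v, ρ (ht o f v) := by
  have h1 : ∀ u ∈ univ.filter (fun u => ht o f u = h0),
      ∑ x ∈ univ.filter (fun x => Dsc o f u x), ρ (ht o f x) =
      ∑ x : V, if Dsc o f u x then ρ (ht o f x) else 0 := fun u _ => Finset.sum_filter _ _
  rw [Finset.sum_congr rfl h1, Finset.sum_comm]
  refine Finset.sum_congr rfl fun x _ => ?_
  by_cases hx : ht o f x < h0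
  · rw [hz _ hx]
    simp
  · have hx' : h0 ≤ ht o f x := not_lt.1 hx
    have h2 : ht o f (f^[ht o f x - h0] x) = h0 := by
      rw [ht_iter G o f hf x _ (by omega)]
      omega
    rw [Finset.sum_eq_single (f^[ht o f x - h0] x)]
    · rw [if_pos]
      exact ⟨ht o f x - h0, rfl, by rw [h2]; omega⟩
    · intro u hu hne
      rw [if_neg]
      rintro ⟨j, hj1, hj2⟩
      rw [(Finset.mem_filter.1 hu).2] at hj2
      apply hne
      rw [← hj1]
      congr 1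
      have : j = ht o f x - h0 := by omega
      rw [this]
    · intro h
      exfalso
      apply h
      rw [Finset.mem_filter]
      exact ⟨Finset.mem_univ _, h2⟩

open Classical in
theorem T_point (G : SimpleGraph V) (o : V) (f : V → V) (hf : f ∈ For G (univ.erase o))
    (ρ r : ℕ → ℝ) (h0 m1 : ℕ)
    (hρ : ∀ h, |ρ h| ≤ r h) (hr0 : ∀ h, r h ≠ 0 → h0 ≤ h ∧ h ≤ h0 + m1) :
    (∑ v, ρ (ht o f v)) ^ 2 ≤
      (∑ u ∈ univ.filter (fun u => ht o f u = h0),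
        (∑ m ∈ range (m1 + 1), r (h0 + m) * (Nd o f u m : ℝ)) ^ 2) +
      ∑ u ∈ univ.filter (fun u => ht o f u = h0),
        (∑ m ∈ range (m1 + 1), ρ (h0 + m) * (Nd o f u m : ℝ))
          * ∑ x ∈ univ.filter (fun x => ¬ Dsc o f u x), ρ (ht o f x) := by
  have hz : ∀ h, ¬ (h0 ≤ h ∧ h ≤ h0 + m1) → ρ h = 0 := by
    intro h hh
    have h1 : r h = 0 := by
      by_contra hc
      exact hh (hr0 h hc)
    have h2 := hρ h
    rw [h1] at h2
    exact abs_nonpos_iff.1 h2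
  have hX : ∀ u, ht o f u = h0 → ∑ m ∈ range (m1 + 1), ρ (h0 + m) * (Nd o f u m : ℝ) =
      ∑ x ∈ univ.filter (fun x => Dsc o f u x), ρ (ht o f x) := fun u hu =>
    T_desc G o f hf ρ h0 m1 (fun h hh => hz h (by omega)) u hu
  have hS : ∑ v, ρ (ht o f v) = ∑ u ∈ univ.filter (fun u => ht o f u = h0),
      ∑ m ∈ range (m1 + 1), ρ (h0 + m) * (Nd o f u m : ℝ) := by
    rw [← T_total G o f hf ρ h0 m1 (fun h hh => hz h (by omega))]
    exact Finset.sum_congr rfl fun u hu => (hX u (Finset.mem_filter.1 hu).2).symm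
  have hsplit : ∀ u ∈ univ.filter (fun u => ht o f u = h0), ∑ v, ρ (ht o f v) =
      (∑ m ∈ range (m1 + 1), ρ (h0 + m) * (Nd o f u m : ℝ)) +
      ∑ x ∈ univ.filter (fun x => ¬ Dsc o f u x), ρ (ht o f x) := by
    intro u hu
    rw [hX u (Finset.mem_filter.1 hu).2]
    exact (Finset.sum_filter_add_sum_filter_not _ _ _).symm
  have h3 : (∑ v, ρ (ht o f v)) ^ 2 = ∑ u ∈ univ.filter (fun u => ht o f u = h0),
      (∑ m ∈ range (m1 + 1), ρ (h0 + m) * (Nd o f u m : ℝ)) * ∑ v, ρ (ht o f v) := by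
    rw [← Finset.sum_mul, ← hS, sq]
  rw [h3, ← Finset.sum_add_distrib]
  refine Finset.sum_le_sum fun u hu => ?_
  rw [hsplit u hu, mul_add]
  have h4 : (∑ m ∈ range (m1 + 1), ρ (h0 + m) * (Nd o f u m : ℝ)) ^ 2 ≤
      (∑ m ∈ range (m1 + 1), r (h0 + m) * (Nd o f u m : ℝ)) ^ 2 := by
    rw [← sq_abs]
    have h5 : |∑ m ∈ range (m1 + 1), ρ (h0 + m) * (Nd o f u m : ℝ)| ≤
        ∑ m ∈ range (m1 + 1), r (h0 + m) * (Nd o f u m : ℝ) := by
      refine (Finset.abs_sum_le_sum_abs _ _).trans (Finset.sum_le_sum fun m _ => ?_)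
      rw [abs_mul, abs_of_nonneg (Nat.cast_nonneg (α := ℝ) (Nd o f u m))]
      exact mul_le_mul_of_nonneg_right (hρ _) (Nat.cast_nonneg _)
    exact pow_le_pow_left₀ (abs_nonneg _) h5 2
  have h6 : (∑ m ∈ range (m1 + 1), ρ (h0 + m) * (Nd o f u m : ℝ)) *
      (∑ m ∈ range (m1 + 1), ρ (h0 + m) * (Nd o f u m : ℝ)) =
      (∑ m ∈ range (m1 + 1), ρ (h0 + m) * (Nd o f u m : ℝ)) ^ 2 := (sq _).symm
  rw [h6]
  linarith

/-- TARGET -/
theorem T_main (G : SimpleGraph V) (hG : G.Connected) (o : V) (ρ r : ℕ → ℝ) (h0 m1 : ℕ)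
    (hρ : ∀ h, |ρ h| ≤ r h) (hr0 : ∀ h, r h ≠ 0 → h0 ≤ h ∧ h ≤ h0 + m1)
    (hr2 : ∑ h ∈ range (h0 + m1 + 1), r h ≤ 2)
    (C1 T1 C2 κ T Φ : ℝ) (hC1 : 0 ≤ C1) (hT1 : 0 < T1) (hC2 : 0 ≤ C2) (hκ : 0 ≤ κ) (hT : 0 < T)
    (hΦ : 0 ≤ Φ)
    (W1 : ∀ (D : Finset V) (u : V) (m : ℕ), u ∉ D → m ≤ h0 + m1 →
      Am G D u m ≤ C1 * (1 + Bm G D u / T1))
    (W2 : ∀ (D : Finset V) (u : V) (m : ℕ), u ∉ D → m ≤ m1 →
      Am G D u m ≤ C2 + κ * (Bm G D u / T))
    (Diff : ∀ (D : Finset V) (u : V), u ∉ D → (Dᶜ).card ≤ 2 * (h0 + m1 + 1) →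
      |∑ m ∈ range (m1 + 1), ρ (h0 + m) * Am G D u m| ≤ Φ + κ * (Bm G D u / T)) :
    avF G (univ.erase o) (fun f => (∑ v, ρ (ht o f v)) ^ 2)
      ≤ (2 * (C1 * (1 + (Fintype.card V : ℝ) / T1)))
          * (2 * (((m1 : ℝ) + 1) * C2 + κ * ((Fintype.card V : ℝ) / T)))
        + Φ * (2 * ((C1 * (1 + (Fintype.card V : ℝ) / T1))
            * (C1 * ((h0 : ℝ) + 1 + (Fintype.card V : ℝ) / T1))))
        + κ * ((Fintype.card V : ℝ) / T) * (2 * (C1 * (1 + (Fintype.card V : ℝ) / T1))) := by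
  classical
  have hD : univ.erase o ≠ (univ : Finset V) := by
    intro h
    have h1 : o ∈ (univ.erase o : Finset V) := by rw [h]; exact Finset.mem_univ o
    exact absurd h1 (Finset.notMem_erase o univ)
  have hDc : (univ.erase o : Finset V)ᶜ = {o} := by
    ext x
    simp
  have hB : Bm G (univ.erase o) o = (Fintype.card V : ℝ) := by
    have h1 := sum_Bm G hG (univ.erase o) hD
    rw [hDc, Finset.sum_singleton] at h1
    exact h1
  have hH1 : ∀ k ≤ h0 + m1, Am G (univ.erase o) o k ≤ C1 * (1 + (Fintype.card V : ℝ) / T1) := by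
    intro k hk
    have h1 := W1 (univ.erase o) o k (Finset.notMem_erase o univ) hk
    rw [hB] at h1
    exact h1
  have hH2 : ∀ k ≤ h0 + m1, avF G (univ.erase o) (fun f =>
      (cnt (univ.erase o) o h0 f : ℝ) * (cnt (univ.erase o) o k f : ℝ)) ≤
      (C1 * (1 + (Fintype.card V : ℝ) / T1)) *
        (C1 * ((h0 : ℝ) + 1 + (Fintype.card V : ℝ) / T1)) := fun k hk =>
    pair_bound G hG o h0 k (h0 + m1) C1 T1 hC1 hT1 (by omega) hk W1
  have hr : ∀ h, 0 ≤ r h := fun h => (abs_nonneg _).trans (hρ h)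
  have hdiag := diag_bound G hG o r h0 m1 hr hr0 hr2 C2 κ T
    (C1 * (1 + (Fintype.card V : ℝ) / T1)) hC2 hκ hT hH1 W2
  have hoff := off_bound G hG o ρ r h0 m1 hρ hr0 hr2 κ T Φ
    (C1 * (1 + (Fintype.card V : ℝ) / T1))
    ((C1 * (1 + (Fintype.card V : ℝ) / T1)) * (C1 * ((h0 : ℝ) + 1 + (Fintype.card V : ℝ) / T1)))
    hκ hT hΦ hH1 hH2 Diff
  have hmain : avF G (univ.erase o) (fun f => (∑ v, ρ (ht o f v)) ^ 2) ≤
      avF G (univ.erase o) (fun f => ∑ u ∈ univ.filter (fun u => ht o f u = h0),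
        (∑ m ∈ range (m1 + 1), r (h0 + m) * (Nd o f u m : ℝ)) ^ 2) +
      avF G (univ.erase o) (fun f => ∑ u ∈ univ.filter (fun u => ht o f u = h0),
        (∑ m ∈ range (m1 + 1), ρ (h0 + m) * (Nd o f u m : ℝ))
          * ∑ x ∈ univ.filter (fun x => ¬ Dsc o f u x), ρ (ht o f x)) := by
    unfold avF
    rw [← add_div, ← Finset.sum_add_distrib]
    refine div_le_div_of_nonneg_right ?_ (Nat.cast_nonneg _)
    exact Finset.sum_le_sum fun f hf => T_point G o f hf ρ r h0 m1 hρ hr0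
  linarith

end HP192
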