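import Mathlib
import Pool.Agent.Helper192_HP.Defs
import Pool.Agent.Helper192_HP.WDefs
import Pool.Agent.Helper192_HP.TDefs
import Pool.Agent.Helper192_HP.T09
import Pool.Agent.Helper192_HP.X07

namespace HP192
open Finset

-- TARGET
namespace Ker
variable {V : Type} [Fintype V] [DecidableEq V] (K : Ker V)

theorem x08_hk_nonneg (t : ℕ) : ∀ x y : V, 0 ≤ K.hk t x y := by
  induction t with
  | zero =>
    intro x y
    unfold hk
    split_ifs <;> norm_num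
  | succ t ih =>
    intro x y
    unfold hk
    exact Finset.sum_nonneg fun z _ => mul_nonneg (K.nn x z) (ih z y)

theorem x08_Th_mono (o : V) (T T' : ℕ) (h : T ≤ T') : K.Th o T ≤ K.Th o T' := by
  unfold Th
  refine Finset.sum_le_sum_of_subset_of_nonneg ?_ fun c _ _ =>
    mul_nonneg (by positivity) (K.x08_hk_nonneg c o o)
  intro c hc
  simp only [Finset.mem_range] at hc ⊢
  omega

theorem x08_one_le_Th (o : V) (T : ℕ) : 1 ≤ K.Th o T := by
  refine le_trans ?_ (K.x08_Th_mono o 0 T (Nat.zero_le T))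
  simp [Th, hk]

theorem x08_EW_nonneg (t : ℕ) : ∀ (x : V) (F : List V → ℝ), (∀ w, 0 ≤ F w) → 0 ≤ K.EW t x F := by
  induction t with
  | zero =>
    intro x F hF
    exact hF []
  | succ t ih =>
    intro x F hF
    unfold EW
    refine Finset.sum_nonneg fun y _ => ?_
    rw [smul_eq_mul]
    exact mul_nonneg (K.nn x y) (ih y _ fun w => hF _)

theorem x08_avF_nonneg (G : SimpleGraph V) (D : Finset V) (F : (V → V) → ℝ) (hF : ∀ f, 0 ≤ F f) :
    0 ≤ avF G D F := by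
  unfold avF
  exact div_nonneg (Finset.sum_nonneg fun f _ => hF f) (Nat.cast_nonneg _)

theorem x08_Am_nonneg (G : SimpleGraph V) (D : Finset V) (u : V) (m : ℕ) : 0 ≤ Am G D u m :=
  x08_avF_nonneg G D _ fun f => Nat.cast_nonneg _

theorem x08_Bm_nonneg (G : SimpleGraph V) (D : Finset V) (u : V) : 0 ≤ Bm G D u :=
  Finset.sum_nonneg fun m _ => x08_Am_nonneg G D u m

theorem x08_sum (f : ℕ → ℝ) (a w N : ℕ) (c : ℝ) (h : a + w ≤ N) :
    ∑ m ∈ range N, (if a ≤ m ∧ m < a + w then c else 0) * f m = c * ∑ i ∈ range w, f (a + i) := by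
  rw [Finset.mul_sum]
  have h1 : ∑ i ∈ range w, c * f (a + i) = ∑ m ∈ (range w).image (fun i => a + i), c * f m := by
    rw [Finset.sum_image]
    intro x _ y _ hxy
    simpa using hxy
  rw [h1]
  simp only [ite_mul, zero_mul]
  rw [← Finset.sum_filter]
  refine Finset.sum_congr ?_ fun _ _ => rfl
  ext m
  simp only [Finset.mem_filter, Finset.mem_range, Finset.mem_image]
  constructor
  · rintro ⟨_, h3, h4⟩
    exact ⟨m - a, by omega, by omega⟩
  · rintro ⟨i, hi, rfl⟩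
    exact ⟨by omega, by omega, by omega⟩

theorem x08_sum_le (a w N : ℕ) (hw : 1 ≤ w) :
    ∑ m ∈ range N, (if a ≤ m ∧ m < a + w then 1 / (w : ℝ) else 0) ≤ 1 := by
  have h0 : ∀ m, (0 : ℝ) ≤ (if a ≤ m ∧ m < a + w then 1 / (w : ℝ) else 0) := by
    intro m
    split_ifs
    · positivity
    · exact le_rfl
  have h1 : ∑ m ∈ range N, (if a ≤ m ∧ m < a + w then 1 / (w : ℝ) else 0)
      ≤ ∑ m ∈ range (N + (a + w)), (if a ≤ m ∧ m < a + w then 1 / (w : ℝ) else 0) := by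
    refine Finset.sum_le_sum_of_subset_of_nonneg ?_ fun m _ _ => h0 m
    intro m hm
    simp only [Finset.mem_range] at hm ⊢
    omega
  refine h1.trans ?_
  have h2 := x08_sum (fun _ => 1) a w (N + (a + w)) (1 / (w : ℝ)) (by omega)
  simp only [mul_one] at h2
  rw [h2]
  have hw0 : (w : ℝ) ≠ 0 := by
    have : 0 < w := hw
    positivity
  simp
  rw [inv_mul_cancel₀ hw0]

open Classical in
theorem RT_bound (G : SimpleGraph V) (hG : G.Connected) (d : ℕ) (hd0 : 0 < d)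
    (hd : ∀ v, (univ.filter (fun w => G.Adj v w)).card = d)
    (hP : ∀ x y, x ≠ y → K.P x y = if G.Adj x y then 1 / (2 * (d : ℝ)) else 0)
    (o : V) (l s w M0 m1 T T1 r1 m0 : ℕ) (Θ κ Fb Q1 C1 Q τ κ' H1 : ℝ)
    (h2 : ∀ x y, K.hk m0 x y ≤ κ) (hm : m0 ≤ T) (hm1' : m0 ≤ T1) (hT : 1 ≤ T) (hT1 : 1 ≤ T1)
    (hw : 1 ≤ w) (hM0 : 1 ≤ M0) (hr1 : 2 * m0 + 1 ≤ r1) (hM : r1 ≤ M0)
    (hm1 : 2 * M0 + s + w ≤ m1) (hl : 2 * M0 ≤ l)
    (hΘ : K.Th o (r1 + 3 * T) ≤ Θ) (hΘ1 : K.Th o (2 * T1) ≤ Θ)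
    (hFb : (1 / (M0 : ℝ)) * ∑ M ∈ Ico M0 (2 * M0),
      K.EW r1 o (fun ω => |(1 / (w : ℝ)) * ∑ i ∈ range w,
            (K.fM o T (M + 1 + i) ω - K.fM o T (M + 1 + s + i) ω)|) ≤ Fb)
    (hQ1 : Q1 = Θ + κ * ((l : ℝ) + m1 + 1) * ((T1 : ℝ) + 1)) (hC1 : C1 = Θ + Θ * Q1)
    (hQ : Q = Θ + κ * ((m1 : ℝ) + 1) * ((T : ℝ) + 1))
    (hτ : τ = 2 * Θ ^ 2 * ((m1 : ℝ) + 1) / T * (Θ + Θ * Q))
    (hκ' : κ' = 2 * Θ ^ 2 * ((m1 : ℝ) + 1) / T * (Θ * Q)
      + Θ * κ * ((m1 : ℝ) + 1) * (2 * (T : ℝ) + 1))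
    (hH1 : H1 = C1 * (1 + (Fintype.card V : ℝ) / T1)) :
    avF G (univ.erase o) (fun f => (∑ v, ((if l ≤ ht o f v ∧ ht o f v < l + w then 1 / (w : ℝ) else 0)
        - (if l + s ≤ ht o f v ∧ ht o f v < l + s + w then 1 / (w : ℝ) else 0))) ^ 2)
      ≤ (2 * H1) * (2 * (((m1 : ℝ) + 1) * (Θ + τ) + κ' * ((Fintype.card V : ℝ) / T)))
        + (Fb + 6 * Θ ^ 2 * κ * ((l : ℝ) + m1 + 1) * T + τ)
            * (2 * (H1 * (C1 * ((l : ℝ) + 1 + (Fintype.card V : ℝ) / T1))))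
        + κ' * ((Fintype.card V : ℝ) / T) * (2 * H1) := by
  have hκ0 : 0 ≤ κ := (K.x08_hk_nonneg m0 o o).trans (h2 o o)
  have hΘ0 : 1 ≤ Θ := (K.x08_one_le_Th o _).trans hΘ
  have hTr : (0 : ℝ) < T := by exact_mod_cast hT
  have hT1r : (0 : ℝ) < T1 := by exact_mod_cast hT1
  have hw0 : (0 : ℝ) < w := by exact_mod_cast hw
  have hM0r : (0 : ℝ) < M0 := by exact_mod_cast hM0
  have hl0 : (0 : ℝ) ≤ l := Nat.cast_nonneg l
  have hm10 : (0 : ℝ) ≤ m1 := Nat.cast_nonneg m1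
  have hcV : (0 : ℝ) ≤ (Fintype.card V : ℝ) := Nat.cast_nonneg _
  have hQ10 : 0 ≤ Q1 := by rw [hQ1]; positivity
  have hQ0 : 0 ≤ Q := by rw [hQ]; positivity
  have hΘp : 0 ≤ Θ := by linarith
  have hC10 : 0 ≤ C1 := by rw [hC1]; positivity
  have hτ0 : 0 ≤ τ := by rw [hτ]; positivity
  have hκ'0 : 0 ≤ κ' := by rw [hκ']; positivity
  have hH10 : 0 ≤ H1 := by rw [hH1]; positivity
  have hΘ3 : K.Th o (3 * T) ≤ Θ := (K.x08_Th_mono o (3 * T) (r1 + 3 * T) (by omega)).trans hΘ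
  -- the bound for the correction terms
  have hcorr : ∀ (D : Finset V) (u : V) (m : ℕ), m ≤ m1 →
      2 * Θ ^ 2 * ((m : ℝ) + 1) / T
        * (Θ + Θ * (Θ + κ * ((m : ℝ) + 1) * ((T : ℝ) + 1)) * (1 + Bm G D u / T))
      + Θ * κ * ((m : ℝ) + 1) * (2 * (T : ℝ) + 1) * (Bm G D u / T)
      ≤ τ + κ' * (Bm G D u / T) := by
    intro D u m hm
    have hB : 0 ≤ Bm G D u / T := div_nonneg (x08_Bm_nonneg G D u) hTr.le
    have hmr : (m : ℝ) + 1 ≤ (m1 : ℝ) + 1 := by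
      have : (m : ℝ) ≤ m1 := by exact_mod_cast hm
      linarith
    have hmr0 : (0 : ℝ) ≤ (m : ℝ) + 1 := by positivity
    have e1 : Θ + κ * ((m : ℝ) + 1) * ((T : ℝ) + 1) ≤ Q := by
      rw [hQ]
      have : κ * ((m : ℝ) + 1) * ((T : ℝ) + 1) ≤ κ * ((m1 : ℝ) + 1) * ((T : ℝ) + 1) := by gcongr
      linarith
    have e2 : 2 * Θ ^ 2 * ((m : ℝ) + 1) / T
        * (Θ + Θ * (Θ + κ * ((m : ℝ) + 1) * ((T : ℝ) + 1)) * (1 + Bm G D u / T))
        ≤ 2 * Θ ^ 2 * ((m1 : ℝ) + 1) / T * (Θ + Θ * Q * (1 + Bm G D u / T)) := by gcongr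
    have e3 : Θ * κ * ((m : ℝ) + 1) * (2 * (T : ℝ) + 1) * (Bm G D u / T)
        ≤ Θ * κ * ((m1 : ℝ) + 1) * (2 * (T : ℝ) + 1) * (Bm G D u / T) := by gcongr
    have e4 : τ + κ' * (Bm G D u / T) = 2 * Θ ^ 2 * ((m1 : ℝ) + 1) / T * (Θ + Θ * Q * (1 + Bm G D u / T))
        + Θ * κ * ((m1 : ℝ) + 1) * (2 * (T : ℝ) + 1) * (Bm G D u / T) := by
      rw [hτ, hκ']; ring
    rw [e4]
    exact add_le_add e2 e3
  set F : ℕ → ℝ := fun M => K.EW r1 o (fun ω => |(1 / (w : ℝ)) * ∑ i ∈ range w,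
            (K.fM o T (M + 1 + i) ω - K.fM o T (M + 1 + s + i) ω)|) with hF
  have hF0 : ∀ M, 0 ≤ F M := fun M => K.x08_EW_nonneg _ _ _ fun _ => abs_nonneg _
  set E0 : ℝ := 6 * Θ ^ 2 * κ * ((l : ℝ) + m1 + 1) * T + τ with hE0
  have hE00 : 0 ≤ E0 := by rw [hE0]; positivity
  set A : ℝ := (2 * H1) * (2 * (((m1 : ℝ) + 1) * (Θ + τ) + κ' * ((Fintype.card V : ℝ) / T))) with hA
  set B : ℝ := 2 * (H1 * (C1 * ((l : ℝ) + 1 + (Fintype.card V : ℝ) / T1))) with hB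
  set Cc : ℝ := κ' * ((Fintype.card V : ℝ) / T) * (2 * H1) with hCc
  have hB0 : 0 ≤ B := by rw [hB]; positivity
  set X : ℝ := avF G (univ.erase o) (fun f => (∑ v, ((if l ≤ ht o f v ∧ ht o f v < l + w
        then 1 / (w : ℝ) else 0)
        - (if l + s ≤ ht o f v ∧ ht o f v < l + s + w then 1 / (w : ℝ) else 0))) ^ 2) with hX
  have key : ∀ M ∈ Ico M0 (2 * M0), X ≤ A + (F M + E0) * B + Cc := by
    intro M hMm
    rw [Finset.mem_Ico] at hMm
    obtain ⟨hMa, hMb⟩ := hMm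
    obtain ⟨h0, hh0⟩ : ∃ h0, l = h0 + M := ⟨l - M, by omega⟩
    have h0l : (h0 : ℝ) ≤ l := by
      have : h0 ≤ l := by omega
      exact_mod_cast this
    have h00 : (0 : ℝ) ≤ h0 := Nat.cast_nonneg _
    have := T_main G hG o
      (fun h => (if l ≤ h ∧ h < l + w then 1 / (w : ℝ) else 0)
        - (if l + s ≤ h ∧ h < l + s + w then 1 / (w : ℝ) else 0))
      (fun h => (if l ≤ h ∧ h < l + w then 1 / (w : ℝ) else 0)
        + (if l + s ≤ h ∧ h < l + s + w then 1 / (w : ℝ) else 0)) h0 m1 ?_ ?_ ?_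
      C1 T1 (Θ + τ) κ' T (F M + E0) hC10 hT1r (by linarith) hκ'0 hTr (add_nonneg (hF0 M) hE00) ?_ ?_ ?_
    · refine this.trans ?_
      rw [← hH1]
      have e1 : 2 * (H1 * (C1 * ((h0 : ℝ) + 1 + (Fintype.card V : ℝ) / T1))) ≤ B := by
        rw [hB]
        gcongr
      have e2 := mul_le_mul_of_nonneg_left e1 (add_nonneg (hF0 M) hE00)
      linarith
    · intro h
      have a0 : (0 : ℝ) ≤ (if l ≤ h ∧ h < l + w then 1 / (w : ℝ) else 0) := by
        split_ifs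
        · positivity
        · exact le_rfl
      have b0 : (0 : ℝ) ≤ (if l + s ≤ h ∧ h < l + s + w then 1 / (w : ℝ) else 0) := by
        split_ifs
        · positivity
        · exact le_rfl
      show |(if l ≤ h ∧ h < l + w then 1 / (w : ℝ) else 0)
        - (if l + s ≤ h ∧ h < l + s + w then 1 / (w : ℝ) else 0)| ≤
        (if l ≤ h ∧ h < l + w then 1 / (w : ℝ) else 0)
        + (if l + s ≤ h ∧ h < l + s + w then 1 / (w : ℝ) else 0)
      rw [abs_le]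
      constructor <;> linarith
    · intro h hne
      by_cases h1 : l ≤ h ∧ h < l + w
      · constructor <;> omega
      · by_cases h3 : l + s ≤ h ∧ h < l + s + w
        · constructor <;> omega
        · exfalso
          apply hne
          show (if l ≤ h ∧ h < l + w then 1 / (w : ℝ) else 0)
            + (if l + s ≤ h ∧ h < l + s + w then 1 / (w : ℝ) else 0) = 0
          rw [if_neg h1, if_neg h3, add_zero]
    · rw [Finset.sum_add_distrib]
      have e1 := x08_sum_le l w (h0 + m1 + 1) hw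
      have e2 := x08_sum_le (l + s) w (h0 + m1 + 1) hw
      linarith
    · intro D u m hu hm'
      have e1 := K.Am_le_W1 G hG d hd0 hd hP o D u hu m T1 m0 Θ κ h2 hm1' hT1 hΘ1
      have hBm : 0 ≤ Bm G D u / T1 := div_nonneg (x08_Bm_nonneg G D u) hT1r.le
      have hmr : (m : ℝ) + 1 ≤ (l : ℝ) + m1 + 1 := by
        have : (m : ℝ) ≤ (h0 : ℝ) + m1 := by exact_mod_cast hm'
        linarith
      have e2 : Θ + κ * ((m : ℝ) + 1) * ((T1 : ℝ) + 1) ≤ Q1 := by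
        rw [hQ1]
        have : κ * ((m : ℝ) + 1) * ((T1 : ℝ) + 1) ≤ κ * ((l : ℝ) + m1 + 1) * ((T1 : ℝ) + 1) := by
          gcongr
        linarith
      have e3 : Θ * (Θ + κ * ((m : ℝ) + 1) * ((T1 : ℝ) + 1)) * (1 + Bm G D u / T1)
          ≤ Θ * Q1 * (1 + Bm G D u / T1) := by gcongr
      have e4 : C1 * (1 + Bm G D u / T1) = Θ + Θ * (Bm G D u / T1)
          + Θ * Q1 * (1 + Bm G D u / T1) := by rw [hC1]; ring
      rw [e4]
      have e5 : 0 ≤ Θ * (Bm G D u / T1) := mul_nonneg hΘp hBm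
      linarith
    · intro D u m hu hm'
      have e1 := K.Am_le_W2 G hG d hd0 hd hP o D u hu m T m0 Θ κ h2 hm hT hΘ3
      have e2 := hcorr D u m hm'
      linarith
    · intro D u hu hcard
      have e1 := K.Am_diff G hG d hd0 hd hP o D u hu M s w m1 T r1 m0 Θ κ h2 hm hT hw hr1
        (hM.trans hMa) (by omega) hΘ
      have e2 := hcorr D u m1 le_rfl
      have e3 : ∑ m ∈ range (m1 + 1), ((if l ≤ h0 + m ∧ h0 + m < l + w then 1 / (w : ℝ) else 0)
          - (if l + s ≤ h0 + m ∧ h0 + m < l + s + w then 1 / (w : ℝ) else 0)) * Am G D u m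
          = (1 / (w : ℝ)) * ∑ i ∈ range w, (Am G D u (M + i) - Am G D u (M + s + i)) := by
        rw [Finset.sum_sub_distrib, mul_sub,
          ← x08_sum (fun m => Am G D u m) M w (m1 + 1) (1 / (w : ℝ)) (by omega),
          ← x08_sum (fun m => Am G D u m) (M + s) w (m1 + 1) (1 / (w : ℝ)) (by omega),
          ← Finset.sum_sub_distrib]
        refine Finset.sum_congr rfl fun m _ => ?_
        have c1 : (l ≤ h0 + m ∧ h0 + m < l + w) ↔ (M ≤ m ∧ m < M + w) := by omega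
        have c2 : (l + s ≤ h0 + m ∧ h0 + m < l + s + w) ↔ (M + s ≤ m ∧ m < M + s + w) := by omega
        simp only [c1, c2]
        ring
      show |∑ m ∈ range (m1 + 1), ((if l ≤ h0 + m ∧ h0 + m < l + w then 1 / (w : ℝ) else 0)
          - (if l + s ≤ h0 + m ∧ h0 + m < l + s + w then 1 / (w : ℝ) else 0)) * Am G D u m|
          ≤ F M + E0 + κ' * (Bm G D u / T)
      rw [e3]
      have hcr : ((Dᶜ).card : ℝ) ≤ 2 * ((l : ℝ) + m1 + 1) := by
        have : ((Dᶜ).card : ℝ) ≤ 2 * ((h0 : ℝ) + m1 + 1) := by exact_mod_cast hcard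
        linarith
      have e4 : 3 * Θ ^ 2 * κ * ((Dᶜ).card : ℝ) * T ≤ 3 * Θ ^ 2 * κ * (2 * ((l : ℝ) + m1 + 1)) * T := by
        gcongr
      have e5 : 3 * Θ ^ 2 * κ * (2 * ((l : ℝ) + m1 + 1)) * T
          = 6 * Θ ^ 2 * κ * ((l : ℝ) + m1 + 1) * T := by ring
      have e6 : F M = K.EW r1 o (fun ω => |(1 / (w : ℝ)) * ∑ i ∈ range w,
            (K.fM o T (M + 1 + i) ω - K.fM o T (M + 1 + s + i) ω)|) := rfl
      rw [← e6] at e1
      rw [hE0]
      linarith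
  -- average
  have hcardI : ((Ico M0 (2 * M0)).card : ℝ) = M0 := by
    rw [Nat.card_Ico]
    have : 2 * M0 - M0 = M0 := by omega
    rw [this]
  have hsum : ∑ M ∈ Ico M0 (2 * M0), X ≤ ∑ M ∈ Ico M0 (2 * M0), (A + (F M + E0) * B + Cc) :=
    Finset.sum_le_sum key
  rw [Finset.sum_const, nsmul_eq_mul, hcardI] at hsum
  have hs2 : ∑ M ∈ Ico M0 (2 * M0), (A + (F M + E0) * B + Cc)
      = (M0 : ℝ) * (A + E0 * B + Cc) + (∑ M ∈ Ico M0 (2 * M0), F M) * B := by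
    have : ∀ M, A + (F M + E0) * B + Cc = (A + E0 * B + Cc) + F M * B := fun M => by ring
    simp only [this]
    rw [Finset.sum_add_distrib, Finset.sum_const, nsmul_eq_mul, hcardI, ← Finset.sum_mul]
  rw [hs2] at hsum
  have hFb' : ∑ M ∈ Ico M0 (2 * M0), F M ≤ M0 * Fb := by
    have := mul_le_mul_of_nonneg_left hFb hM0r.le
    rw [← mul_assoc, mul_one_div_cancel hM0r.ne', one_mul] at this
    exact this
  have hfin : (M0 : ℝ) * X ≤ M0 * (A + (Fb + E0) * B + Cc) := by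
    have h8 := mul_le_mul_of_nonneg_right hFb' hB0
    have h9 : (M0 : ℝ) * (A + (Fb + E0) * B + Cc)
        = (M0 : ℝ) * (A + E0 * B + Cc) + M0 * Fb * B := by ring
    rw [h9]
    exact hsum.trans (add_le_add le_rfl h8)
  have hfin2 := le_of_mul_le_mul_left hfin hM0r
  have e7 : Fb + 6 * Θ ^ 2 * κ * ((l : ℝ) + m1 + 1) * T + τ = Fb + E0 := by rw [hE0]; ring
  rw [e7]
  exact hfin2

end Ker

end HP192
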